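import Pool.Agent.Helper60.AS.Bc

/-! The half-lives lemma over the power series ring: definitions, dimensions, the invariant form. -/

set_option autoImplicit false

namespace Pool.Agent.Helper60.Geo

open Set AS

section ring

variable (k : Type*) [Field k]

/-- the truncated ring `k[X]/X^m` as a quotient of the power series ring -/
abbrev Tr (m : ℕ) : Type _ := PowerSeries k ⧸ Ideal.span {(PowerSeries.X : PowerSeries k) ^ m}

variable {k}

/-- the unit `t = r + X` of `k⟦X⟧` -/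
noncomputable def tU (r : kˣ) : (PowerSeries k)ˣ where
  val := PowerSeries.C (r : k) + PowerSeries.X
  inv := (PowerSeries.C (r : k) + PowerSeries.X)⁻¹
  val_inv := PowerSeries.mul_inv_cancel _ (by simp)
  inv_val := PowerSeries.inv_mul_cancel _ (by simp)

variable {G : Type*} [Group G] {n : ℕ}

/-- the representation `g ↦ t^(deg g) • ρ₀ g` over `k⟦X⟧` -/
noncomputable def repR (deg : G →* Multiplicative ℤ) (ρ₀ : G →* Matrix (Fin n) (Fin n) k) (r : kˣ) :
    G →* Matrix (Fin n) (Fin n) (PowerSeries k) where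
  toFun g := (((tU r) ^ (Multiplicative.toAdd (deg g)) : (PowerSeries k)ˣ) : PowerSeries k) •
    (ρ₀ g).map PowerSeries.C
  map_one' := by
    rw [deg.map_one, ρ₀.map_one, toAdd_one, zpow_zero, Units.val_one, one_smul]
    exact Matrix.map_one _ (map_zero _) (map_one _)
  map_mul' g h := by
    rw [deg.map_mul, ρ₀.map_mul, toAdd_mul, zpow_add, Units.val_mul, Matrix.map_mul]
    rw [Matrix.smul_mul, Matrix.mul_smul, smul_smul]

/-- the same at `X = 0` -/
noncomputable def rep0 (deg : G →* Multiplicative ℤ) (ρ₀ : G →* Matrix (Fin n) (Fin n) k) (r : kˣ)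
    (g : G) : Matrix (Fin n) (Fin n) k := ((r ^ (Multiplicative.toAdd (deg g)) : kˣ) : k) • ρ₀ g

end ring

namespace HLa

section aux

variable {k : Type*} [Field k]

theorem X_pow_unit {f : PowerSeries k} (hf : f ≠ 0) :
    ∃ (d : ℕ) (u : (PowerSeries k)ˣ), f = (PowerSeries.X : PowerSeries k) ^ d * u := by
  obtain ⟨d, u, hu⟩ := IsDiscreteValuationRing.associated_pow_irreducible hf
    (PowerSeries.X_prime (R := k)).irreducible
  refine ⟨d, u⁻¹, ?_⟩
  rw [← hu, mul_assoc, Units.mul_inv, mul_one]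

theorem X_pow_eq_mul {s : PowerSeries k} (hs : s ≠ 0) :
    ∃ d : ℕ, ∀ m ≥ d, ∃ a : PowerSeries k, (PowerSeries.X : PowerSeries k) ^ m = a * s := by
  obtain ⟨d, u, rfl⟩ := X_pow_unit hs
  refine ⟨d, fun m hm => ⟨PowerSeries.X ^ (m - d) * ((u⁻¹ : (PowerSeries k)ˣ) : PowerSeries k), ?_⟩⟩
  have h1 : (PowerSeries.X : PowerSeries k) ^ m = PowerSeries.X ^ (m - d) * PowerSeries.X ^ d := by
    rw [← pow_add]; congr 1; omega
  rw [h1]
  have h2 : ((u⁻¹ : (PowerSeries k)ˣ) : PowerSeries k) * u = 1 := u.inv_mul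
  linear_combination (-(PowerSeries.X : PowerSeries k) ^ (m - d) * PowerSeries.X ^ d) * h2

theorem eq_trunc_add (p : PowerSeries k) (d : ℕ) :
    ∃ a : PowerSeries k, p = (∑ i : Fin d, (PowerSeries.coeff (i : ℕ) p) •
      (PowerSeries.X : PowerSeries k) ^ (i : ℕ)) + a * PowerSeries.X ^ d := by
  have h : (PowerSeries.X : PowerSeries k) ^ d ∣ p - ∑ i : Fin d, (PowerSeries.coeff (i : ℕ) p) •
      (PowerSeries.X : PowerSeries k) ^ (i : ℕ) := by
    rw [PowerSeries.X_pow_dvd_iff]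
    intro m hm
    rw [map_sub, map_sum, sub_eq_zero, Finset.sum_eq_single (⟨m, hm⟩ : Fin d)]
    · simp [PowerSeries.coeff_X_pow]
    · intro b _ hb
      rw [PowerSeries.coeff_smul, PowerSeries.coeff_X_pow, if_neg, smul_zero]
      intro h
      exact hb (Fin.ext h.symm)
    · intro h
      exact absurd (Finset.mem_univ _) h
  obtain ⟨a, ha⟩ := h
  exact ⟨a, by rw [mul_comm a, ← ha]; ring⟩

theorem finite_of_torsion {N : Type*} [AddCommGroup N] [Module (PowerSeries k) N]
    [Module k N] [IsScalarTower k (PowerSeries k) N]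
    [Module.Finite (PowerSeries k) N] {d : ℕ}
    (h : ∀ z : N, ((PowerSeries.X : PowerSeries k) ^ d) • z = 0) : Module.Finite k N := by
  obtain ⟨s, hs⟩ := Module.Finite.fg_top (R := PowerSeries k) (M := N)
  let W : Submodule k N := Submodule.span k (Set.range (fun p : Fin d × s =>
      ((PowerSeries.X : PowerSeries k) ^ (p.1 : ℕ)) • (p.2 : N)))
  have hW : W = ⊤ := by
    rw [eq_top_iff]
    rintro z -
    have hz : z ∈ Submodule.span (PowerSeries k) (s : Set N) := by rw [hs]; trivial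
    have key : ∀ p : PowerSeries k, p • z ∈ W := by
      induction hz using Submodule.span_induction with
      | mem x hx =>
        intro p
        obtain ⟨a, ha⟩ := eq_trunc_add p d
        rw [ha, add_smul, mul_smul, h x, smul_zero, add_zero, Finset.sum_smul]
        refine Submodule.sum_mem _ fun i _ => ?_
        rw [smul_assoc]
        exact Submodule.smul_mem _ _ (Submodule.subset_span ⟨(i, ⟨x, hx⟩), rfl⟩)
      | zero => intro p; rw [smul_zero]; exact Submodule.zero_mem _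
      | add x y _ _ hx hy => intro p; rw [smul_add]; exact Submodule.add_mem _ (hx p) (hy p)
      | smul a x _ hx => intro p; rw [smul_smul]; exact hx _
    have := key 1
    rwa [one_smul] at this
  have : Module.Finite k W := Module.Finite.span_of_finite k (Set.finite_range _)
  rw [hW] at this
  exact Module.Finite.of_surjective (⊤ : Submodule k N).subtype (fun z => ⟨⟨z, trivial⟩, rfl⟩)

theorem ses_finrank {k A P Q R : Type*} [Field k] [CommRing A] [Algebra k A]
    [AddCommGroup P] [Module A P] [Module k P] [IsScalarTower k A P]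
    [AddCommGroup Q] [Module A Q] [Module k Q] [IsScalarTower k A Q]
    [AddCommGroup R] [Module A R] [Module k R] [IsScalarTower k A R]
    (f : P →ₗ[A] Q) (g : Q →ₗ[A] R) (hf : Function.Injective f) (hg : Function.Surjective g)
    (h : Function.Exact f g) (hP : Module.Finite k P) (hR : Module.Finite k R) :
    Module.Finite k Q ∧ Module.finrank k Q = Module.finrank k P + Module.finrank k R := by
  let f' : P →ₗ[k] Q := f.restrictScalars k
  let g' : Q →ₗ[k] R := g.restrictScalars k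
  have hker : LinearMap.ker g' = LinearMap.range f' := by
    ext z
    rw [LinearMap.mem_ker, LinearMap.mem_range]
    exact h z
  have hfin : Module.Finite k Q := by
    have h1 : Module.Finite k (LinearMap.ker g') := by
      rw [hker]; infer_instance
    have h2 : Module.Finite k (Q ⧸ LinearMap.ker g') :=
      Module.Finite.equiv (LinearMap.quotKerEquivOfSurjective g' hg).symm
    exact Module.Finite.of_submodule_quotient (LinearMap.ker g')
  refine ⟨hfin, ?_⟩
  have h3 := LinearMap.finrank_range_add_finrank_ker g'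
  have hr : LinearMap.range g' = ⊤ := LinearMap.range_eq_top.2 hg
  rw [hker, LinearMap.finrank_range_of_inj (f := f') hf, hr, finrank_top] at h3
  omega

end aux

end HLa

open HLa

section dims

/-- dimension over `k` of the cohomology with coefficients in `k⟦X⟧^n` resp. `(k⟦X⟧/X^m)^n` -/
noncomputable def hR {k G : Type*} [Field k] [Group G] {n : ℕ} (T : ℂ × ℂ → ℂ × ℂ → G)
    (ρ : G →* Matrix (Fin n) (Fin n) (PowerSeries k)) (S S' : Set (ℂ × ℂ)) (q : ℕ) : ℕ :=
  Module.finrank k (H (cs T ρ (PowerSeries k)) S S' q)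

noncomputable def hm {k G : Type*} [Field k] [Group G] {n : ℕ} (T : ℂ × ℂ → ℂ × ℂ → G)
    (ρ : G →* Matrix (Fin n) (Fin n) (PowerSeries k)) (m : ℕ) (S S' : Set (ℂ × ℂ)) (q : ℕ) : ℕ :=
  Module.finrank k (H (cs T ρ (Tr k m)) S S' q)

/-- 1-cocycles and 1-coboundaries with values in `V_m` -/
def Coc {k G : Type*} [Field k] [Group G] {n : ℕ} (T : ℂ × ℂ → ℂ × ℂ → G)
    (ρ : G →* Matrix (Fin n) (Fin n) (PowerSeries k)) (m : ℕ) (S : Set (ℂ × ℂ))
    (α : List (ℂ × ℂ) → (Fin n → Tr k m)) : Prop := α ∈ Zc (cs T ρ (Tr k m)) S ∅ 1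
def Cob {k G : Type*} [Field k] [Group G] {n : ℕ} (T : ℂ × ℂ → ℂ × ℂ → G)
    (ρ : G →* Matrix (Fin n) (Fin n) (PowerSeries k)) (m : ℕ) (S : Set (ℂ × ℂ))
    (α : List (ℂ × ℂ) → (Fin n → Tr k m)) : Prop := α ∈ Bc (cs T ρ (Tr k m)) S ∅ 1

variable {k : Type*} [Field k] {G : Type*} [Group G] {n : ℕ}
  {T : ℂ × ℂ → ℂ × ℂ → G} {S S' : Set (ℂ × ℂ)}

/-- finite dimension and bounded torsion -/
theorem finite_of_frac (hS : CR S) (hS' : CR S') (h : S' ⊆ S) (hT : GFlat T S)
    (ρ : G →* Matrix (Fin n) (Fin n) (PowerSeries k)) (q : ℕ)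
    (hF : HV (cs T ρ (LaurentSeries k)) S S' q) :
    Module.Finite k (H (cs T ρ (PowerSeries k)) S S' q) ∧
      ∃ m₀, ∀ m ≥ m₀, KV (cs T ρ (PowerSeries k)) S S' q ((PowerSeries.X : PowerSeries k) ^ m) := by
  have hfg : FG (cs T ρ (PowerSeries k)) S S' q := FG_CR_rel hS hS' h (cs_flat hT ρ) q
  obtain ⟨s, hs0, hs⟩ := KV_of_frac hS.1 hS'.1.isClosed h hT ρ q hF hfg
  obtain ⟨d, hd⟩ := X_pow_eq_mul hs0
  have hk : ∀ m ≥ d, KV (cs T ρ (PowerSeries k)) S S' q ((PowerSeries.X : PowerSeries k) ^ m) := by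
    intro m hm c hc
    obtain ⟨a, ha⟩ := hd m hm
    rw [ha, mul_smul]
    exact Submodule.smul_mem _ _ (hs c hc)
  refine ⟨?_, d, hk⟩
  have hfin : Module.Finite (PowerSeries k) (H (cs T ρ (PowerSeries k)) S S' q) := FG_iff.1 hfg
  refine finite_of_torsion (d := d) fun z => ?_
  obtain ⟨c, rfl⟩ := H.mk_surjective q z
  rw [← map_smul, H.mk_eq_zero]
  exact hk d le_rfl c.1 c.2

/-- universal coefficients: `h^q(V_m) = l_q + l_{q+1}` for large `m` -/
theorem finrank_trunc (hT : GFlat T S) (h : S' ⊆ S)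
    (ρ : G →* Matrix (Fin n) (Fin n) (PowerSeries k)) (q m : ℕ)
    (h1 : KV (cs T ρ (PowerSeries k)) S S' q ((PowerSeries.X : PowerSeries k) ^ m))
    (h2 : KV (cs T ρ (PowerSeries k)) S S' (q + 1) ((PowerSeries.X : PowerSeries k) ^ m))
    (f1 : Module.Finite k (H (cs T ρ (PowerSeries k)) S S' q))
    (f2 : Module.Finite k (H (cs T ρ (PowerSeries k)) S S' (q + 1))) :
    Module.Finite k (H (cs T ρ (Tr k m)) S S' q) ∧
    hm T ρ m S S' q = hR T ρ S S' q + hR T ρ S S' (q + 1) := by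
  let A := PowerSeries k
  let I : Ideal A := Ideal.span {(PowerSeries.X : PowerSeries k) ^ m}
  let i : (Fin n → A) →ₗ[A] (Fin n → A) := LinearMap.lsmul A (Fin n → A) ((PowerSeries.X : A) ^ m)
  let p : (Fin n → A) →ₗ[A] (Fin n → Tr k m) := (I.mkQ : A →ₗ[A] Tr k m).compLeft (Fin n)
  have hi : ∀ x y, cs T ρ A x y ∘ₗ i = i ∘ₗ cs T ρ A x y := by
    intro x y
    apply LinearMap.ext
    intro v
    exact (cs T ρ A x y).map_smul _ v
  have hp : ∀ x y, cs T ρ (Tr k m) x y ∘ₗ p = p ∘ₗ cs T ρ A x y := fun x y => cs_compLeft _ ρ x y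
  have inj : Function.Injective i := by
    rw [← LinearMap.ker_eq_bot, LinearMap.ker_eq_bot']
    intro v hv
    funext j
    have h3 : (PowerSeries.X : A) ^ m * v j = 0 := congrFun hv j
    rcases mul_eq_zero.1 h3 with h4 | h4
    · exact absurd h4 (pow_ne_zero _ PowerSeries.X_ne_zero)
    · exact h4
  have surj : Function.Surjective p := by
    intro v
    choose w hw using fun j => I.mkQ_surjective (v j)
    exact ⟨w, funext hw⟩
  have ex : Function.Exact i p := by
    intro v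
    constructor
    · intro hv
      have : ∀ j, ∃ w : A, (PowerSeries.X : A) ^ m * w = v j := by
        intro j
        have h3 : v j ∈ I := (Submodule.Quotient.mk_eq_zero I).1 (congrFun hv j)
        obtain ⟨w, hw⟩ := Ideal.mem_span_singleton'.1 h3
        exact ⟨w, by rw [mul_comm]; exact hw⟩
      choose w hw using this
      exact ⟨w, funext hw⟩
    · rintro ⟨w, rfl⟩
      funext j
      show I.mkQ ((PowerSeries.X : A) ^ m * w j) = 0
      rw [Submodule.mkQ_apply, Submodule.Quotient.mk_eq_zero]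
      exact I.mul_mem_right _ (Ideal.mem_span_singleton_self _)
  have z0 : ∀ q', KV (cs T ρ A) S S' q' ((PowerSeries.X : A) ^ m) → Hcm i hi S S' q' = 0 := by
    intro q' hk
    apply LinearMap.ext
    intro z
    obtain ⟨c, rfl⟩ := H.mk_surjective q' z
    rw [LinearMap.zero_apply, Hcm_mk i hi c.2, H.mk_eq_zero]
    exact hk c.1 c.2
  have e1 := coef_exact1 i p hi hp inj surj ex S S' (cs_flat hT ρ) q
  obtain ⟨δ, e2, e3⟩ := coef_connect i p hi hp inj surj ex S S' (cs_flat hT ρ) h q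
  have z1 := z0 q h1
  have z2 := z0 (q + 1) h2
  refine ses_finrank (Hcm p hp S S' q) δ ?_ ?_ e2 f1 f2
  · rw [injective_iff_map_eq_zero]
    intro z hz
    obtain ⟨w, hw⟩ := (e1 z).1 hz
    rw [← hw, z1, LinearMap.zero_apply]
  · intro z
    exact (e3 z).1 (by rw [z2, LinearMap.zero_apply])

theorem hl_dT_rs {Ω k₀ A V : Type*} [CommRing k₀] [CommRing A] [Algebra k₀ A]
    [AddCommGroup V] [Module A V] [Module k₀ V] [IsScalarTower k₀ A V]
    (T : Ω → Ω → (V →ₗ[A] V)) (c : List Ω → V) :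
    dT (fun x y => (T x y).restrictScalars k₀) c = dT T c := by
  funext l
  cases l with
  | nil => rfl
  | cons x l =>
    cases l with
    | nil => rfl
    | cons y l => rfl

/-- dimensions over `k` and over a smaller field, for `H` as module over `k⟦X⟧` -/
theorem finrank_H_base {k₀ V : Type*} [Field k₀] [Algebra k₀ k] [FiniteDimensional k₀ k]
    [AddCommGroup V] [Module (PowerSeries k) V] [Module k₀ V] [IsScalarTower k₀ (PowerSeries k) V]
    (T : ℂ × ℂ → ℂ × ℂ → (V →ₗ[PowerSeries k] V)) (S S' : Set (ℂ × ℂ)) (q : ℕ) :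
    Module.finrank k₀ (H (fun x y => (T x y).restrictScalars k₀) S S' q) =
      Module.finrank k₀ (H T S S' q) := by
  let T' : ℂ × ℂ → ℂ × ℂ → (V →ₗ[k₀] V) := fun x y => (T x y).restrictScalars k₀
  have hz : ∀ c : List (ℂ × ℂ) → V, c ∈ Zc T' S S' q ↔ c ∈ Zc T S S' q := by
    intro c
    rw [mem_Zc, mem_Zc, hl_dT_rs T c]
  have hb : ∀ c : List (ℂ × ℂ) → V, c ∈ Bc T' S S' q ↔ c ∈ Bc T S S' q := by
    intro c
    rw [mem_Bc, mem_Bc]
    constructor
    · rintro ⟨b, h1, h2⟩
      rw [hl_dT_rs T b] at h2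
      exact ⟨b, h1, h2⟩
    · rintro ⟨b, h1, h2⟩
      rw [← hl_dT_rs (k₀ := k₀) T b] at h2
      exact ⟨b, h1, h2⟩
  let Φ : Zc T' S S' q →ₗ[k₀] H T S S' q :=
    { toFun := fun c => H.mk T S S' q ⟨c.1, (hz c.1).1 c.2⟩
      map_add' := fun a b => (H.mk T S S' q).map_add ⟨a.1, (hz a.1).1 a.2⟩ ⟨b.1, (hz b.1).1 b.2⟩
      map_smul' := fun r a => ((H.mk T S S' q).restrictScalars k₀).map_smul r ⟨a.1, (hz a.1).1 a.2⟩ }
  have hs : Function.Surjective Φ := by
    intro z
    obtain ⟨c, rfl⟩ := H.mk_surjective q z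
    exact ⟨⟨c.1, (hz c.1).2 c.2⟩, rfl⟩
  have hk : LinearMap.ker Φ = (Bc T' S S' q).comap (Zc T' S S' q).subtype := by
    ext c
    rw [LinearMap.mem_ker, Submodule.mem_comap]
    show H.mk T S S' q ⟨c.1, (hz c.1).1 c.2⟩ = 0 ↔ c.1 ∈ Bc T' S S' q
    rw [H.mk_eq_zero, hb]
  exact ((Submodule.quotEquivOfEq _ _ hk.symm).trans (LinearMap.quotKerEquivOfSurjective Φ hs)).finrank_eq

end dims

namespace HLa

section star

variable {k₀ k : Type*} [Field k₀] [Field k] [Algebra k₀ k]

/-- the image of `X` under the involution -/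
noncomputable def Ys (r : kˣ) : PowerSeries k :=
  (((tU r)⁻¹ : (PowerSeries k)ˣ) : PowerSeries k) - PowerSeries.C ((r⁻¹ : kˣ) : k)

theorem Ys_eq (r : kˣ) : ∃ u : (PowerSeries k)ˣ, Ys r = (PowerSeries.X : PowerSeries k) * u := by
  have hc : (PowerSeries.C ((r⁻¹ : kˣ) : k) : PowerSeries k) * PowerSeries.C (r : k) = 1 := by
    rw [← map_mul, Units.inv_mul, map_one]
  have hc' : (PowerSeries.C (r : k) : PowerSeries k) * PowerSeries.C ((r⁻¹ : kˣ) : k) = 1 := by
    rw [← map_mul, Units.mul_inv, map_one]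
  let c : (PowerSeries k)ˣ := ⟨PowerSeries.C ((r⁻¹ : kˣ) : k), PowerSeries.C (r : k), hc, hc'⟩
  refine ⟨-(c * (tU r)⁻¹), ?_⟩
  have h1 : (tU r : PowerSeries k) * (((tU r)⁻¹ : (PowerSeries k)ˣ) : PowerSeries k) = 1 := Units.mul_inv _
  have h2 : (tU r : PowerSeries k) = PowerSeries.C (r : k) + PowerSeries.X := rfl
  rw [h2] at h1
  rw [Units.val_neg, Units.val_mul]
  show (((tU r)⁻¹ : (PowerSeries k)ˣ) : PowerSeries k) - PowerSeries.C ((r⁻¹ : kˣ) : k) =
    PowerSeries.X * -(PowerSeries.C ((r⁻¹ : kˣ) : k) * (((tU r)⁻¹ : (PowerSeries k)ˣ) : PowerSeries k))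
  linear_combination (-(((tU r)⁻¹ : (PowerSeries k)ˣ) : PowerSeries k)) * hc +
    PowerSeries.C ((r⁻¹ : kˣ) : k) * h1

theorem Ys_hs (r : kˣ) : PowerSeries.HasSubst (Ys r) := by
  apply PowerSeries.HasSubst.of_constantCoeff_zero'
  obtain ⟨u, hu⟩ := Ys_eq r
  rw [hu, map_mul, PowerSeries.constantCoeff_X, zero_mul]

/-- the involution `φ ↦ (σ φ)(Y)` of `k⟦X⟧` -/
noncomputable def star (σ : k →+* k) (r : kˣ) : PowerSeries k →+* PowerSeries k :=
  ((PowerSeries.substAlgHom (Ys_hs r) : PowerSeries k →ₐ[k] PowerSeries k) :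
    PowerSeries k →+* PowerSeries k).comp (PowerSeries.map σ)

theorem star_C (σ : k →+* k) (r : kˣ) (a : k) : star σ r (PowerSeries.C a) = PowerSeries.C (σ a) := by
  show (PowerSeries.substAlgHom (Ys_hs r) : PowerSeries k →ₐ[k] PowerSeries k)
    (PowerSeries.map σ (PowerSeries.C a)) = _
  rw [PowerSeries.map_C]
  exact (PowerSeries.substAlgHom (Ys_hs r) : PowerSeries k →ₐ[k] PowerSeries k).commutes (σ a)

theorem star_X (σ : k →+* k) (r : kˣ) : star σ r PowerSeries.X = Ys r := by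
  show (PowerSeries.substAlgHom (Ys_hs r) : PowerSeries k →ₐ[k] PowerSeries k)
    (PowerSeries.map σ PowerSeries.X) = _
  rw [PowerSeries.map_X]
  exact PowerSeries.substAlgHom_X (Ys_hs r)

theorem star_t (σ : k →+* k) (r : kˣ) (hr : σ (r : k) = ((r⁻¹ : kˣ) : k)) :
    star σ r (tU r : PowerSeries k) = (((tU r)⁻¹ : (PowerSeries k)ˣ) : PowerSeries k) := by
  show star σ r (PowerSeries.C (r : k) + PowerSeries.X) = _
  rw [map_add, star_C, star_X, hr, Ys]
  ring

theorem star_zpow (σ : k →+* k) (r : kˣ) (hr : σ (r : k) = ((r⁻¹ : kˣ) : k)) (d : ℤ) :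
    star σ r ((tU r ^ d : (PowerSeries k)ˣ) : PowerSeries k) =
      (((tU r ^ d)⁻¹ : (PowerSeries k)ˣ) : PowerSeries k) := by
  have h1 : Units.map (star σ r : PowerSeries k →* PowerSeries k) (tU r) = (tU r)⁻¹ := by
    apply Units.ext
    exact star_t σ r hr
  have h2 : Units.map (star σ r : PowerSeries k →* PowerSeries k) (tU r ^ d) = (tU r ^ d)⁻¹ := by
    rw [map_zpow, h1, inv_zpow]
  exact congrArg Units.val h2

theorem star_X_pow (σ : k →+* k) (r : kˣ) (m : ℕ) :
    ∃ u : (PowerSeries k)ˣ, star σ r (PowerSeries.X ^ m) = (PowerSeries.X : PowerSeries k) ^ m * u := by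
  obtain ⟨u, hu⟩ := Ys_eq r
  refine ⟨u ^ m, ?_⟩
  rw [map_pow, star_X, hu, mul_pow, Units.val_pow_eq_pow_val]

theorem star_dvd (σ : k →+* k) (r : kˣ) (m : ℕ) {f : PowerSeries k}
    (h : (PowerSeries.X : PowerSeries k) ^ m ∣ star σ r f) : (PowerSeries.X : PowerSeries k) ^ m ∣ f := by
  by_cases hf : f = 0
  · rw [hf]; exact dvd_zero _
  obtain ⟨d, u, rfl⟩ := X_pow_unit hf
  obtain ⟨v, hv⟩ := star_X_pow σ r d
  rw [map_mul, hv, mul_assoc] at h
  have hu : IsUnit ((v : PowerSeries k) * star σ r (u : PowerSeries k)) :=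
    v.isUnit.mul (u.isUnit.map (star σ r))
  rw [hu.dvd_mul_right, pow_dvd_pow_iff PowerSeries.X_ne_zero PowerSeries.X_prime.not_isUnit] at h
  exact (pow_dvd_pow _ h).mul_right _

/-- the involution on the truncated ring -/
noncomputable def starm (σ : k →+* k) (r : kˣ) (m : ℕ) : Tr k m →+* Tr k m :=
  Ideal.quotientMap _ (star σ r) (by
    rw [Ideal.span_singleton_le_iff_mem, Ideal.mem_comap]
    obtain ⟨u, hu⟩ := star_X_pow σ r m
    rw [hu]
    exact Ideal.mul_mem_right _ _ (Ideal.mem_span_singleton_self _))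

theorem starm_mk (σ : k →+* k) (r : kˣ) (m : ℕ) (f : PowerSeries k) :
    starm σ r m (Ideal.Quotient.mk _ f) = Ideal.Quotient.mk _ (star σ r f) := rfl

theorem starm_inj (σ : k →+* k) (r : kˣ) (m : ℕ) : Function.Injective (starm σ r m) := by
  rw [injective_iff_map_eq_zero]
  intro z hz
  obtain ⟨f, rfl⟩ := Ideal.Quotient.mk_surjective z
  rw [starm_mk, Ideal.Quotient.eq_zero_iff_mem, Ideal.mem_span_singleton] at hz
  rw [Ideal.Quotient.eq_zero_iff_mem, Ideal.mem_span_singleton]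
  exact star_dvd σ r m hz

theorem starm_smul (σ : k ≃ₐ[k₀] k) (r : kˣ) (m : ℕ) (a : k₀) (z : Tr k m) :
    starm (σ : k →+* k) r m (a • z) = a • starm (σ : k →+* k) r m z := by
  obtain ⟨f, rfl⟩ := Ideal.Quotient.mk_surjective z
  have h1 : ∀ g : PowerSeries k, a • (Ideal.Quotient.mk (Ideal.span {(PowerSeries.X : PowerSeries k) ^ m}) g) =
      Ideal.Quotient.mk _ (PowerSeries.C (algebraMap k₀ k a) * g) := by
    intro g
    have h2 : a • g = PowerSeries.C (algebraMap k₀ k a) * g := by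
      ext j
      rw [PowerSeries.coeff_C_mul, ← Algebra.smul_def]
      rfl
    rw [← h2]
    rfl
  rw [h1, starm_mk, map_mul, star_C, starm_mk, h1]
  congr 3
  exact σ.commutes a

/-- the coefficient of `X^(m-1)` -/
noncomputable def cf (k : Type*) [Field k] (m : ℕ) (hm : 0 < m) : Tr k m →+ k :=
  QuotientAddGroup.lift _ ((PowerSeries.coeff (R := k) (m - 1) : PowerSeries k →ₗ[k] k) : PowerSeries k →+ k) (by
    intro f hf
    have h1 : f ∈ Ideal.span {(PowerSeries.X : PowerSeries k) ^ m} := hf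
    rw [Ideal.mem_span_singleton, PowerSeries.X_pow_dvd_iff] at h1
    exact h1 (m - 1) (by omega))

theorem cf_mk (m : ℕ) (hm : 0 < m) (f : PowerSeries k) :
    cf k m hm (Ideal.Quotient.mk _ f) = PowerSeries.coeff (m - 1) f := rfl

theorem cf_smul (m : ℕ) (hm : 0 < m) (a : k₀) (z : Tr k m) : cf k m hm (a • z) = a • cf k m hm z := by
  obtain ⟨f, rfl⟩ := Ideal.Quotient.mk_surjective z
  rfl

/-- nondegeneracy of the trace form on the truncated ring -/
theorem cf_nondeg (m : ℕ) (hm : 0 < m) (z : Tr k m) (hz : z ≠ 0) (c : k) :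
    ∃ w : Tr k m, cf k m hm (z * w) = c := by
  obtain ⟨f, rfl⟩ := Ideal.Quotient.mk_surjective z
  rw [Ne, Ideal.Quotient.eq_zero_iff_mem, Ideal.mem_span_singleton] at hz
  have hf : f ≠ 0 := by
    rintro rfl
    exact hz (dvd_zero _)
  obtain ⟨d, u, rfl⟩ := X_pow_unit hf
  have hd : d < m := by
    by_contra h
    exact hz ((pow_dvd_pow _ (not_lt.1 h)).mul_right _)
  refine ⟨Ideal.Quotient.mk _ (PowerSeries.C c * PowerSeries.X ^ (m - 1 - d) *
    ((u⁻¹ : (PowerSeries k)ˣ) : PowerSeries k)), ?_⟩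
  rw [← map_mul, cf_mk]
  have e : (PowerSeries.X : PowerSeries k) ^ d * (u : PowerSeries k) * (PowerSeries.C c *
      PowerSeries.X ^ (m - 1 - d) * ((u⁻¹ : (PowerSeries k)ˣ) : PowerSeries k)) =
      PowerSeries.C c * PowerSeries.X ^ (m - 1) := by
    have h2 : (u : PowerSeries k) * ((u⁻¹ : (PowerSeries k)ˣ) : PowerSeries k) = 1 := u.mul_inv
    have h3 : (PowerSeries.X : PowerSeries k) ^ (m - 1) = PowerSeries.X ^ d * PowerSeries.X ^ (m - 1 - d) := by
      rw [← pow_add]; congr 1; omega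
    rw [h3]
    linear_combination (PowerSeries.C c * PowerSeries.X ^ d * PowerSeries.X ^ (m - 1 - d)) * h2
  rw [e, PowerSeries.coeff_C_mul, PowerSeries.coeff_X_pow, if_pos rfl, mul_one]

theorem starm_surj [FiniteDimensional k₀ k] (σ : k ≃ₐ[k₀] k) (r : kˣ) (m : ℕ) :
    Function.Surjective (starm (σ : k →+* k) r m) := by
  have h1 : Module.Finite k (Tr k m) := finite_of_torsion (d := m) fun z => by
    obtain ⟨f, rfl⟩ := Ideal.Quotient.mk_surjective z
    rw [← Ideal.Quotient.mk_eq_mk, ← Submodule.Quotient.mk_smul, Submodule.Quotient.mk_eq_zero]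
    exact Ideal.mul_mem_right _ _ (Ideal.mem_span_singleton_self _)
  have h2 : Module.Finite k₀ (Tr k m) := Module.Finite.trans k (Tr k m)
  let L : Tr k m →ₗ[k₀] Tr k m :=
    { toFun := starm (σ : k →+* k) r m
      map_add' := map_add _
      map_smul' := starm_smul σ r m }
  have h3 : Function.Injective L := starm_inj (σ : k →+* k) r m
  exact LinearMap.injective_iff_surjective.1 h3

/-- unitarity of the representation with respect to the involution -/
theorem rep_unitary (σ : k →+* k) {G : Type*} [Group G] {n : ℕ}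
    (deg : G →* Multiplicative ℤ) (ρ₀ : G →* Matrix (Fin n) (Fin n) k) (r : kˣ)
    (hr : σ (r : k) = ((r⁻¹ : kˣ) : k))
    (hρ : ∀ g, ((ρ₀ g).map σ).transpose * ρ₀ g = 1) (g : G) :
    ((repR deg ρ₀ r g).map (star σ r)).transpose * repR deg ρ₀ r g = 1 := by
  have h1 : (repR deg ρ₀ r g).map (star σ r) =
      (((tU r ^ (Multiplicative.toAdd (deg g)))⁻¹ : (PowerSeries k)ˣ) : PowerSeries k) •
        ((ρ₀ g).map σ).map PowerSeries.C := by
    ext1 i j
    show star σ r (((tU r ^ (Multiplicative.toAdd (deg g)) : (PowerSeries k)ˣ) : PowerSeries k) *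
      PowerSeries.C (ρ₀ g i j)) = _ * PowerSeries.C (σ (ρ₀ g i j))
    rw [map_mul, star_zpow σ r hr, star_C]
  have h2 : repR deg ρ₀ r g = ((tU r ^ (Multiplicative.toAdd (deg g)) : (PowerSeries k)ˣ) : PowerSeries k) •
    (ρ₀ g).map PowerSeries.C := rfl
  rw [h1, h2, Matrix.transpose_smul, Matrix.smul_mul, Matrix.mul_smul, smul_smul, Units.inv_mul, one_smul,
    ← Matrix.transpose_map, ← Matrix.map_mul, hρ]
  exact Matrix.map_one _ (map_zero _) (map_one _)

theorem matAct_eq {n : ℕ} (m : ℕ) (B : Matrix (Fin n) (Fin n) (PowerSeries k)) (v : Fin n → Tr k m) :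
    matAct (Tr k m) B v = (B.map (Ideal.Quotient.mk (Ideal.span {(PowerSeries.X : PowerSeries k) ^ m}))).mulVec v := by
  funext i
  show ∑ j, B i j • v j = ∑ j : Fin n,
    (Ideal.Quotient.mk (Ideal.span {(PowerSeries.X : PowerSeries k) ^ m}) (B i j)) * v j
  refine Finset.sum_congr rfl fun j _ => ?_
  obtain ⟨f, hf⟩ := Ideal.Quotient.mk_surjective (v j)
  rw [← hf]
  rfl

/-- the sesquilinear form -/
noncomputable def sf {n : ℕ} (σ : k →+* k) (r : kˣ) (m : ℕ) (v w : Fin n → Tr k m) : Tr k m :=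
  (fun i => starm σ r m (v i)) ⬝ᵥ w

theorem sf_inv (σ : k →+* k) {G : Type*} [Group G] {n : ℕ}
    (deg : G →* Multiplicative ℤ) (ρ₀ : G →* Matrix (Fin n) (Fin n) k) (r : kˣ)
    (hr : σ (r : k) = ((r⁻¹ : kˣ) : k))
    (hρ : ∀ g, ((ρ₀ g).map σ).transpose * ρ₀ g = 1) (m : ℕ) (g : G) (v w : Fin n → Tr k m) :
    sf σ r m (matAct (Tr k m) (repR deg ρ₀ r g) v) (matAct (Tr k m) (repR deg ρ₀ r g) w) =
      sf σ r m v w := by
  let π : PowerSeries k →+* Tr k m := Ideal.Quotient.mk (Ideal.span {(PowerSeries.X : PowerSeries k) ^ m})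
  let B := repR deg ρ₀ r g
  have h1 : (fun i => starm σ r m ((B.map π).mulVec v i)) =
      ((B.map (star σ r)).map π).mulVec (fun i => starm σ r m (v i)) := by
    funext i
    show starm σ r m (∑ j, π (B i j) * v j) = ∑ j, π (star σ r (B i j)) * starm σ r m (v j)
    rw [map_sum]
    refine Finset.sum_congr rfl fun j _ => ?_
    rw [map_mul]
    rfl
  rw [matAct_eq, matAct_eq]
  show (fun i => starm σ r m ((B.map π).mulVec v i)) ⬝ᵥ (B.map π).mulVec w = _
  rw [h1, ← Matrix.vecMul_transpose, ← Matrix.dotProduct_mulVec, Matrix.mulVec_mulVec,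
    ← Matrix.transpose_map, ← Matrix.map_mul, rep_unitary σ deg ρ₀ r hr hρ g,
    Matrix.map_one _ (map_zero _) (map_one _), Matrix.one_mulVec]
  rfl

end star

end HLa

section form

variable {k₀ k : Type*} [Field k₀] [Field k] [Algebra k₀ k] [FiniteDimensional k₀ k]

/-- the invariant form on `V_m = (k⟦X⟧/X^m)^n`, over the small field `k₀`. `σ` is an automorphism of
`k` over `k₀`, `σ r = r⁻¹`, `ρ₀` is unitary with respect to `σ`. -/
theorem exists_form (σ : k ≃ₐ[k₀] k) (hσ : ∀ a, σ (σ a) = a) {G : Type*} [Group G] {n : ℕ}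
    (deg : G →* Multiplicative ℤ) (ρ₀ : G →* Matrix (Fin n) (Fin n) k) (r : kˣ) (hr : σ (r : k) = ((r⁻¹ : kˣ) : k))
    (hρ : ∀ g, ((ρ₀ g).map σ).transpose * ρ₀ g = 1) (m : ℕ) (hm : 0 < m) :
    ∃ Bf : (Fin n → Tr k m) →ₗ[k₀] (Fin n → Tr k m) →ₗ[k₀] k₀,
      (∀ v, (∀ w, Bf v w = 0) → v = 0) ∧ (∀ w, (∀ v, Bf v w = 0) → w = 0) ∧
      ∀ g v w, Bf (matAct (Tr k m) (repR deg ρ₀ r g) v) (matAct (Tr k m) (repR deg ρ₀ r g) w) = Bf v w := by
  classical
  have hτ : ∃ τ : k →ₗ[k₀] k₀, τ 1 ≠ 0 := by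
    by_contra h
    push Not at h
    exact one_ne_zero ((Module.forall_dual_apply_eq_zero_iff k₀ (1 : k)).1 h)
  obtain ⟨τ, hτ⟩ := hτ
  have ss : ∀ (a : k₀) (x y : Tr k m), (a • x) * y = a • (x * y) := by
    intro a x y
    obtain ⟨f, rfl⟩ := Ideal.Quotient.mk_surjective x
    obtain ⟨f', rfl⟩ := Ideal.Quotient.mk_surjective y
    show Ideal.Quotient.mk _ ((a • f) * f') = Ideal.Quotient.mk _ (a • (f * f'))
    rw [smul_mul_assoc]
  have ss' : ∀ (a : k₀) (x y : Tr k m), x * (a • y) = a • (x * y) := by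
    intro a x y
    rw [mul_comm, ss, mul_comm]
  let Bf : (Fin n → Tr k m) →ₗ[k₀] (Fin n → Tr k m) →ₗ[k₀] k₀ := LinearMap.mk₂ k₀
    (fun v w => τ (cf k m hm (sf (σ : k →+* k) r m v w)))
    (by
      intro v v' w
      have : sf (σ : k →+* k) r m (v + v') w = sf (σ : k →+* k) r m v w + sf (σ : k →+* k) r m v' w := by
        simp only [sf, dotProduct, Pi.add_apply, map_add, add_mul, Finset.sum_add_distrib]
      rw [this, map_add, map_add])
    (by
      intro a v w
      have : sf (σ : k →+* k) r m (a • v) w = a • sf (σ : k →+* k) r m v w := by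
        simp only [sf, dotProduct, Pi.smul_apply, starm_smul, ss, Finset.smul_sum]
      rw [this, cf_smul, map_smul])
    (by
      intro v w w'
      have : sf (σ : k →+* k) r m v (w + w') = sf (σ : k →+* k) r m v w + sf (σ : k →+* k) r m v w' := by
        simp only [sf, dotProduct, Pi.add_apply, mul_add, Finset.sum_add_distrib]
      rw [this, map_add, map_add])
    (by
      intro a v w
      have : sf (σ : k →+* k) r m v (a • w) = a • sf (σ : k →+* k) r m v w := by
        simp only [sf, dotProduct, Pi.smul_apply, ss', Finset.smul_sum]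
      rw [this, cf_smul, map_smul])
  have hB : ∀ v w, Bf v w = τ (cf k m hm (sf (σ : k →+* k) r m v w)) := fun v w => rfl
  refine ⟨Bf, ?_, ?_, ?_⟩
  · intro v hv
    by_contra hne
    obtain ⟨i, hi⟩ := Function.ne_iff.1 hne
    have hi' : starm (σ : k →+* k) r m (v i) ≠ 0 := by
      intro h
      exact hi ((injective_iff_map_eq_zero _).1 (starm_inj _ r m) _ h)
    obtain ⟨w, hw⟩ := cf_nondeg m hm _ hi' 1
    apply hτ
    rw [← hv (Pi.single i w), hB]
    congr 1
    rw [← hw]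
    congr 1
    simp [sf]
  · intro w hw
    by_contra hne
    obtain ⟨i, hi⟩ := Function.ne_iff.1 hne
    obtain ⟨v, hv⟩ := cf_nondeg m hm _ hi 1
    obtain ⟨v', hv'⟩ := starm_surj σ r m v
    apply hτ
    rw [← hw (Pi.single i v'), hB]
    congr 1
    rw [← hv]
    congr 1
    rw [← hv', mul_comm]
    show _ = ∑ j, starm (σ : k →+* k) r m ((Pi.single i v' : Fin n → Tr k m) j) * w j
    rw [Finset.sum_eq_single i]
    · rw [Pi.single_eq_same]
    · intro j _ hj
      rw [Pi.single_eq_of_ne hj, map_zero, zero_mul]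
    · intro h
      exact absurd (Finset.mem_univ i) h
  · intro g v w
    rw [hB, hB, sf_inv (σ : k →+* k) deg ρ₀ r hr hρ]

end form

end Pool.Agent.Helper60.Geo
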