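import Pool.Agent.Helper60.Geo.Tube
import Pool.Agent.Helper60.Geo.HLa
import Pool.Agent.Helper60.AS.Bc
import Pool.Agent.Helper60.AS.H1

/-! The half-lives lemma over the power series ring. -/

set_option autoImplicit false

namespace Pool.Agent.Helper60.Geo

open Set AS

/-! ### linear algebra -/

section lin

variable {k : Type*} [Field k]

/-- the count in an exact sequence `0 → A1 → A2 → A3 → A4 → A5 → 0` -/
theorem hl_five {A1 A2 A3 A4 A5 : Type*} [AddCommGroup A1] [Module k A1] [AddCommGroup A2] [Module k A2]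
    [AddCommGroup A3] [Module k A3] [AddCommGroup A4] [Module k A4] [AddCommGroup A5] [Module k A5]
    [Module.Finite k A2] [Module.Finite k A3] [Module.Finite k A4]
    (f : A1 →ₗ[k] A2) (g : A2 →ₗ[k] A3) (h : A3 →ₗ[k] A4) (i : A4 →ₗ[k] A5)
    (hf : Function.Injective f) (e1 : Function.Exact f g) (e2 : Function.Exact g h)
    (e3 : Function.Exact h i) (hi : Function.Surjective i) :
    ∃ r s : ℕ, Module.finrank k A2 = r + Module.finrank k A1 ∧ Module.finrank k A3 = s + r ∧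
      Module.finrank k A4 = Module.finrank k A5 + s ∧ (0 < r → ∃ x, g x ≠ 0) := by
  refine ⟨Module.finrank k (LinearMap.range g), Module.finrank k (LinearMap.range h), ?_, ?_, ?_, ?_⟩
  · rw [← LinearMap.finrank_range_add_finrank_ker g, LinearMap.exact_iff.1 e1,
      LinearMap.finrank_range_of_inj hf]
  · rw [← LinearMap.finrank_range_add_finrank_ker h, LinearMap.exact_iff.1 e2]
  · rw [← LinearMap.finrank_range_add_finrank_ker i, LinearMap.exact_iff.1 e3,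
      LinearMap.range_eq_top.2 hi, finrank_top]
  · intro hr
    by_contra hc
    push Not at hc
    have : g = 0 := LinearMap.ext hc
    rw [this, LinearMap.range_zero, finrank_bot] at hr
    exact lt_irrefl _ hr

end lin

/-! ### units -/

section units

variable {k : Type*} [Field k] {G : Type*} [Group G] {n : ℕ}

theorem hl_tU (r : kˣ) : Units.map (PowerSeries.constantCoeff (R := k)).toMonoidHom (tU r) = r := by
  ext
  simp [tU]

theorem hl_unit_R (deg : G →* Multiplicative ℤ) (ρ₀ : G →* Matrix (Fin n) (Fin n) k) (r : kˣ) {g : G}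
    (hu : IsUnit (1 - rep0 deg ρ₀ r g)) : IsUnit (1 - repR deg ρ₀ r g) := by
  rw [Matrix.isUnit_iff_isUnit_det] at hu ⊢
  rw [PowerSeries.isUnit_iff_constantCoeff, RingHom.map_det]
  convert hu using 2
  have h1 : PowerSeries.constantCoeff
      (((tU r) ^ (Multiplicative.toAdd (deg g)) : (PowerSeries k)ˣ) : PowerSeries k) =
      ((r ^ (Multiplicative.toAdd (deg g)) : kˣ) : k) := by
    conv_rhs => rw [← hl_tU r]
    rw [← map_zpow]
    rfl
  rw [map_sub, map_one]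
  congr 1
  ext i j
  show PowerSeries.constantCoeff ((((tU r) ^ (Multiplicative.toAdd (deg g)) : (PowerSeries k)ˣ) :
    PowerSeries k) * PowerSeries.C (ρ₀ g i j)) = _
  rw [map_mul, h1, PowerSeries.constantCoeff_C]
  rfl

theorem hl_unit_M {A : Type*} [CommRing A] (M : Type*) [AddCommGroup M] [Module A M]
    (ρ : G →* Matrix (Fin n) (Fin n) A) {g : G} (hu : IsUnit (1 - ρ g)) : IsUnit (1 - repM M ρ g) := by
  obtain ⟨u, hu⟩ := hu
  have h1 : 1 - repM M ρ g = matAct M (1 - ρ g) := by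
    apply LinearMap.ext
    intro v
    funext i
    show v i - ∑ j, ρ g i j • v j = ∑ j, (1 - ρ g) i j • v j
    simp only [Matrix.sub_apply, sub_smul, Finset.sum_sub_distrib]
    congr 1
    have := congrArg (fun f => f v i) (matAct_one (A := A) (n := n) M)
    exact this.symm
  rw [h1, ← hu]
  refine ⟨⟨matAct M (u : Matrix (Fin n) (Fin n) A), matAct M ((u⁻¹ : (Matrix (Fin n) (Fin n) A)ˣ) : Matrix (Fin n) (Fin n) A), ?_, ?_⟩, rfl⟩
  · show matAct M _ ∘ₗ matAct M _ = _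
    rw [← matAct_mul, Units.mul_inv, matAct_one]; rfl
  · show matAct M _ ∘ₗ matAct M _ = _
    rw [← matAct_mul, Units.inv_mul, matAct_one]; rfl

theorem hl_unit_conj {A V : Type*} [CommRing A] [AddCommGroup V] [Module A V]
    (ρ : G →* (V →ₗ[A] V)) {g g' a : G} (h : g' = a⁻¹ * g * a) (hu : IsUnit (1 - ρ g)) :
    IsUnit (1 - ρ g') := by
  have h1 : 1 - ρ g' = ρ a⁻¹ * (1 - ρ g) * ρ a := by
    rw [h, map_mul, map_mul, mul_sub, sub_mul, mul_one, ← map_mul ρ a⁻¹ a, inv_mul_cancel, map_one]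
  rw [h1]
  have ha : IsUnit (ρ a) := (Group.isUnit a).map ρ
  have ha' : IsUnit (ρ a⁻¹) := (Group.isUnit a⁻¹).map ρ
  exact (ha'.mul hu).mul ha

/-- restriction of scalars of a representation -/
def hl_rs (k₀ : Type*) {A V : Type*} [CommRing k₀] [CommRing A] [AddCommGroup V] [Module A V] [Module k₀ V]
    [LinearMap.CompatibleSMul V V k₀ A] (ρ : G →* (V →ₗ[A] V)) : G →* (V →ₗ[k₀] V) where
  toFun g := (ρ g).restrictScalars k₀
  map_one' := by rw [map_one]; rfl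
  map_mul' g h := by rw [map_mul]; rfl

theorem hl_unit_rs (k₀ : Type*) {A V : Type*} [CommRing k₀] [CommRing A] [AddCommGroup V] [Module A V] [Module k₀ V]
    [LinearMap.CompatibleSMul V V k₀ A] (ρ : G →* (V →ₗ[A] V)) {g : G} (hu : IsUnit (1 - ρ g)) :
    IsUnit (1 - hl_rs k₀ ρ g) := by
  obtain ⟨u, hu⟩ := hu
  have h1 : 1 - hl_rs k₀ ρ g = (u : V →ₗ[A] V).restrictScalars k₀ := by rw [hu]; rfl
  rw [h1]
  refine ⟨⟨(u : V →ₗ[A] V).restrictScalars k₀, ((u⁻¹ : (V →ₗ[A] V)ˣ) : V →ₗ[A] V).restrictScalars k₀, ?_, ?_⟩, rfl⟩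
  · apply LinearMap.ext
    intro v
    exact congrArg (fun f : V →ₗ[A] V => f v) u.mul_inv
  · apply LinearMap.ext
    intro v
    exact congrArg (fun f : V →ₗ[A] V => f v) u.inv_mul

end units

/-! ### gauge equivalent group valued functions -/

section gauge

variable {G : Type*} [Group G] {k V : Type*} [CommRing k] [AddCommGroup V] [Module k V]

/-- `ρ g` as a linear equivalence -/
def hl_eq (ρ : G →* (V →ₗ[k] V)) (g : G) : V ≃ₗ[k] V :=
  LinearEquiv.ofLinearMap (ρ g) (ρ g⁻¹)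
    (by
      have : ρ g * ρ g⁻¹ = 1 := by rw [← map_mul, mul_inv_cancel, map_one]
      exact this)
    (by
      have : ρ g⁻¹ * ρ g = 1 := by rw [← map_mul, inv_mul_cancel, map_one]
      exact this)

theorem hl_gauge_HV {T T' : ℂ × ℂ → ℂ × ℂ → G} {S S' : Set (ℂ × ℂ)} (ρ : G →* (V →ₗ[k] V))
    (h : GaugeEq T' T S) (hS : S' ⊆ S) (q : ℕ) : HV (sys T ρ) S S' q ↔ HV (sys T' ρ) S S' q := by
  obtain ⟨u, hu⟩ := h
  refine gauge_HV (fun x => hl_eq ρ (u x)) ?_ hS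
  intro a ha
  obtain ⟨e, he, h⟩ := hu a ha
  refine ⟨e, he, fun x y hx hy => ?_⟩
  have h1 : T' x y * u y = u x * T x y := by rw [h x y hx hy]; group
  have h2 := congrArg ρ h1
  rw [map_mul, map_mul] at h2
  exact h2

end gauge

/-! ### exact sequences -/

section exact

variable {k V : Type*} [CommRing k] [AddCommGroup V] [Module k V] {T : ℂ × ℂ → ℂ × ℂ → (V →ₗ[k] V)}

theorem hl_HV_of_bij {S₁ S₂ : Set (ℂ × ℂ)} (h : S₂ ⊆ S₁) {q : ℕ}
    (hb : Function.Bijective (Hres T h (le_refl ∅) q : H T S₁ ∅ q →ₗ[k] H T S₂ ∅ q)) :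
    HV T S₁ ∅ q ↔ HV T S₂ ∅ q := by
  rw [HV_iff_subsingleton, HV_iff_subsingleton]
  exact (Equiv.ofBijective _ hb).subsingleton_congr

theorem hl_HV_union {S₁ S₂ : Set (ℂ × ℂ)} (c1 : IsClosed S₁) (c2 : IsClosed S₂) (hd : Disjoint S₁ S₂) (q : ℕ) :
    HV T (S₁ ∪ S₂) ∅ q ↔ HV T S₁ ∅ q ∧ HV T S₂ ∅ q := by
  rw [HV_iff_subsingleton, HV_iff_subsingleton, HV_iff_subsingleton]
  rw [(Equiv.ofBijective _ (disj_bij (T := T) c1 c2 hd q)).subsingleton_congr]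
  constructor
  · intro h
    refine ⟨⟨fun a b => ?_⟩, ⟨fun a b => ?_⟩⟩
    · have := h.elim (a, 0) (b, 0)
      exact congrArg Prod.fst this
    · have := h.elim (0, a) (0, b)
      exact congrArg Prod.snd this
  · rintro ⟨h1, h2⟩
    infer_instance

theorem hl_union_mem {S₁ S₂ : Set (ℂ × ℂ)} (c1 : IsClosed S₁) (c2 : IsClosed S₂) (hd : Disjoint S₁ S₂) {q : ℕ}
    {c : List (ℂ × ℂ) → V} (hc : c ∈ Zc T (S₁ ∪ S₂) ∅ q) (h1 : c ∈ Bc T S₁ ∅ q) (h2 : c ∈ Bc T S₂ ∅ q) :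
    c ∈ Bc T (S₁ ∪ S₂) ∅ q := by
  have h3 := (disj_bij (T := T) c1 c2 hd q).1
  have h4 : H.mk T (S₁ ∪ S₂) ∅ q ⟨c, hc⟩ = 0 := by
    apply h3
    rw [map_zero]
    refine Prod.ext ?_ ?_
    · exact (H.mk_eq_zero ⟨c, Zc_mono subset_union_left (le_refl ∅) q hc⟩).2 h1
    · exact (H.mk_eq_zero ⟨c, Zc_mono subset_union_right (le_refl ∅) q hc⟩).2 h2
  exact (H.mk_eq_zero _).1 h4

end exact

/-! ### the ends in degree 3 -/

section top

variable {G : Type*} [Group G] {k V : Type*} [Field k] [AddCommGroup V] [Module k V]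
  [FiniteDimensional k V]

/-- `H^4(X, E) = 0` if `H^0(X) = 0` -/
theorem hl_H4 (D : Tube) {T : ℂ × ℂ → ℂ × ℂ → G} (hT : GFlat T D.O) (ρ : G →* (V →ₗ[k] V))
    (Bf : V →ₗ[k] V →ₗ[k] k) (hB : ∀ v, (∀ w, Bf v w = 0) → v = 0)
    (hB' : ∀ w, (∀ v, Bf v w = 0) → w = 0) (hinv : ∀ g v w, Bf (ρ g v) (ρ g w) = Bf v w)
    {g : G} (hg : HasTr T (D.mer 1 0 (1/2)) g) (hu : IsUnit (1 - ρ g))
    (h0 : HV (sys T ρ) D.X ∅ 0) : HV (sys T ρ) D.X (D.EJ ∪ D.EK) 4 := by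
  have hX : GFlat T D.X := hT.mono (D.Xar_subset_O (by norm_num))
  have h1 := D.duality hT ρ Bf hB hB' hinv hg hu 0 4 rfl
  have h2 : Subsingleton (H (sys T ρ) D.X ∅ 0) := HV_iff_subsingleton.1 h0
  have h3 : Module.finrank k (H (sys T ρ) D.X ∅ 0) = 0 := Module.finrank_zero_of_subsingleton
  have h4 : Module.Finite k (H (sys T ρ) D.X (D.EJ ∪ D.EK) 4) :=
    FG_iff.1 (FG_CR_rel D.CR_X D.CR_ends (union_subset D.EJ_subset D.EK_subset) (hX.sys ρ) 4)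
  rw [h3] at h1
  rw [HV_iff_subsingleton]
  exact Module.finrank_zero_iff.1 h1.symm

/-- a product tube: `H^3` of the ends vanishes -/
theorem hl_prod (D : Tube) (hP : D.IsProd) {T : ℂ × ℂ → ℂ × ℂ → G} (hT : GFlat T D.O) (ρ : G →* (V →ₗ[k] V))
    (Bf : V →ₗ[k] V →ₗ[k] k) (hB : ∀ v, (∀ w, Bf v w = 0) → v = 0)
    (hB' : ∀ w, (∀ v, Bf v w = 0) → w = 0) (hinv : ∀ g v w, Bf (ρ g v) (ρ g w) = Bf v w)
    {g : G} (hg : HasTr T (D.mer 1 0 (1/2)) g) (hu : IsUnit (1 - ρ g))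
    (h0 : HV (sys T ρ) D.X ∅ 0) : HV (sys T ρ) D.X ∅ 3 := by
  have hX : GFlat T D.X := hT.mono (D.Xar_subset_O (by norm_num))
  have h4 := HV_iff_subsingleton.1 (hl_H4 D hT ρ Bf hB hB' hinv hg hu h0)
  have hs : Function.Surjective (Hres (sys T ρ) (union_subset D.EJ_subset D.EK_subset) (le_refl ∅) 3 :
      H (sys T ρ) D.X ∅ 3 →ₗ[k] H (sys T ρ) (D.EJ ∪ D.EK) ∅ 3) := by
    intro y
    exact (exact_triple2 (hX.sys ρ) (union_subset D.EJ_subset D.EK_subset) (empty_subset _) 3 y).1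
      (h4.elim _ _)
  obtain ⟨bJ, bK⟩ := Tube.prod_bij hP (hT.sys ρ) 3
  have hd := (disj_bij (T := sys T ρ) D.isClosed_EJ D.isClosed_EK D.disj_EJ_EK 3).2
  rw [HV_iff_subsingleton]
  have key : ∀ x : H (sys T ρ) D.X ∅ 3, x = 0 := by
    intro x
    obtain ⟨y, hy⟩ := hd (Hres (sys T ρ) D.EJ_subset (le_refl ∅) 3 x, 0)
    obtain ⟨z, rfl⟩ := hs y
    have e1 := congrArg Prod.fst hy
    have e2 := congrArg Prod.snd hy
    obtain ⟨c, rfl⟩ := H.mk_surjective 3 z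
    have e3 : Hres (sys T ρ) D.EK_subset (le_refl ∅) 3 (H.mk (sys T ρ) D.X ∅ 3 c) = 0 := e2
    have e4 : Hres (sys T ρ) D.EJ_subset (le_refl ∅) 3 (H.mk (sys T ρ) D.X ∅ 3 c) =
      Hres (sys T ρ) D.EJ_subset (le_refl ∅) 3 x := e1
    rw [← bJ.1 e4]
    apply bK.1
    rw [e3, map_zero]
  exact ⟨fun a b => by rw [key a, key b]⟩

/-- `H^3` of the ends vanishes -/
theorem hl_H3 (D : Tube) {T : ℂ × ℂ → ℂ × ℂ → G} (hT : GFlat T D.O) (ρ : G →* (V →ₗ[k] V))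
    (Bf : V →ₗ[k] V →ₗ[k] k) (hB : ∀ v, (∀ w, Bf v w = 0) → v = 0)
    (hB' : ∀ w, (∀ v, Bf v w = 0) → w = 0) (hinv : ∀ g v w, Bf (ρ g v) (ρ g w) = Bf v w)
    {g : G} (hg : HasTr T (D.mer 1 0 (1/2)) g) (hu : IsUnit (1 - ρ g))
    (hJ : HV (sys T ρ) D.EJ ∅ 0) (hK : HV (sys T ρ) D.EK ∅ 0) :
    HV (sys T ρ) D.EJ ∅ 3 ∧ HV (sys T ρ) D.EK ∅ 3 := by
  constructor
  · obtain ⟨fT, ga⟩ := D.flat_prJ hT
    have h1 := D.lowTube.mer_cont (u := 1) (t := 0) (r := 1/2) (by simp) (by norm_num) (by norm_num)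
    have h2 := D.lowTube.mer_mem (u := 1) (t := 0) (r := 1/2) (by simp) (by norm_num) (by norm_num)
    obtain ⟨g', hg'⟩ := exists_hasTr fT h1.continuousOn (fun s _ => h2 s)
    obtain ⟨a, ha⟩ := D.mer_lowTube hT hg hg'
    have hu' := hl_unit_conj ρ ha hu
    have h3 : HV (sys (fun x y => T (Tube.prJ x) (Tube.prJ y)) ρ) D.lowTube.EJ ∅ 0 := by
      rw [D.lowTube_EJ]
      exact (hl_gauge_HV ρ ga (empty_subset _) 0).1 hJ
    have h4 := (hl_HV_of_bij D.lowTube.EJ_subset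
      (Tube.prod_bij D.isProd_lowTube (fT.sys ρ) 0).1).2 h3
    have h5 := hl_prod D.lowTube D.isProd_lowTube fT ρ Bf hB hB' hinv hg' hu' h4
    have h6 := (hl_HV_of_bij D.lowTube.EJ_subset
      (Tube.prod_bij D.isProd_lowTube (fT.sys ρ) 3).1).1 h5
    rw [D.lowTube_EJ] at h6
    exact (hl_gauge_HV ρ ga (empty_subset _) 3).2 h6
  · obtain ⟨fT, ga⟩ := D.flat_prK hT
    have h1 := D.highTube.mer_cont (u := 1) (t := 0) (r := 1/2) (by simp) (by norm_num) (by norm_num)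
    have h2 := D.highTube.mer_mem (u := 1) (t := 0) (r := 1/2) (by simp) (by norm_num) (by norm_num)
    obtain ⟨g', hg'⟩ := exists_hasTr fT h1.continuousOn (fun s _ => h2 s)
    obtain ⟨a, ha⟩ := D.mer_highTube hT hg hg'
    have hu' := hl_unit_conj ρ ha hu
    have h3 : HV (sys (fun x y => T (Tube.prK x) (Tube.prK y)) ρ) D.highTube.EK ∅ 0 := by
      rw [D.highTube_EK]
      exact (hl_gauge_HV ρ ga (empty_subset _) 0).1 hK
    have h4 := (hl_HV_of_bij D.highTube.EK_subset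
      (Tube.prod_bij D.isProd_highTube (fT.sys ρ) 0).2).2 h3
    have h5 := hl_prod D.highTube D.isProd_highTube fT ρ Bf hB hB' hinv hg' hu' h4
    have h6 := (hl_HV_of_bij D.highTube.EK_subset
      (Tube.prod_bij D.isProd_highTube (fT.sys ρ) 3).2).1 h5
    rw [D.highTube_EK] at h6
    exact (hl_gauge_HV ρ ga (empty_subset _) 3).2 h6

end top

/-! ### meridians in the pieces, degree 0 -/

section zero

theorem hl_nrm_smul (c : ℝ) (hc : 0 ≤ c) (z : ℂ × ℂ) : nrm (c • z) = c * nrm z := by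
  unfold nrm
  rw [Prod.smul_fst, Prod.smul_snd, norm_smul, norm_smul, Real.norm_of_nonneg hc, mul_pow, mul_pow,
    ← mul_add, Real.sqrt_mul (by positivity), Real.sqrt_sq hc]

theorem hl_norm_w (s : ℝ) : ‖((1/2 : ℝ) : ℂ) * Complex.exp (2 * Real.pi * s * Complex.I)‖ = 1/2 := by
  have h : Complex.exp (2 * Real.pi * s * Complex.I) = Complex.exp (((2 * Real.pi * s : ℝ) : ℂ) * Complex.I) := by
    push_cast; rfl
  rw [norm_mul, h, Complex.norm_exp_ofReal_mul_I, Complex.norm_real, mul_one, Real.norm_eq_abs]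
  norm_num

theorem hl_mer_B (D : Tube) {t : ℝ} (h1 : -1 ≤ t) (h2 : t ≤ 2) (s : ℝ) : D.mer 1 t (1/2) s ∈ D.B :=
  ⟨1, t, _, by simp, h1, h2, hl_norm_w s, rfl⟩

theorem hl_mer_J (D : Tube) (s : ℝ) : D.mer 1 (-1) (1/2) s ∈ D.EJ := by
  refine ⟨D.B_subset (hl_mer_B D (le_refl _) (by norm_num) s), ?_⟩
  show nrm (D.f (1, -1, _)) = _
  have hw := hl_norm_w s
  rw [D.low 1 (-1) _ (by simp) (by rw [hw]; norm_num) (by norm_num), hl_nrm_smul _ (Real.exp_pos _).le,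
    D.nrm0 _ _ (by simp) (by rw [hw]; norm_num), mul_one]

theorem hl_mer_K (D : Tube) (s : ℝ) : D.mer 1 2 (1/2) s ∈ D.EK := by
  refine ⟨D.B_subset (hl_mer_B D (by norm_num) (le_refl _) s), ?_⟩
  show nrm (D.f (1, 2, _)) = _
  have hw := hl_norm_w s
  rw [D.high 1 2 _ (by simp) (by rw [hw]; norm_num) (by norm_num), hl_nrm_smul _ (Real.exp_pos _).le,
    D.nrm1 _ _ (by simp) (by rw [hw]; norm_num), ← Real.exp_add]
  norm_num

theorem hl_mer_loop (D : Tube) (u : ℂ) (t r : ℝ) : D.mer u t r 0 = D.mer u t r 1 := by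
  have h : Complex.exp (2 * Real.pi * (0 : ℝ) * Complex.I) = Complex.exp (2 * Real.pi * (1 : ℝ) * Complex.I) := by
    rw [Complex.ofReal_zero, mul_zero, zero_mul, Complex.exp_zero, Complex.ofReal_one, mul_one,
      Complex.exp_two_pi_mul_I]
  unfold Tube.mer
  rw [h]

/-- `H^0 = 0` for a connected piece containing a meridian -/
theorem hl_H0 (D : Tube) {G : Type*} [Group G] {A V : Type*} [CommRing A] [AddCommGroup V] [Module A V]
    {T : ℂ × ℂ → ℂ × ℂ → G} (hT : GFlat T D.O) (ρ : G →* (V →ₗ[A] V))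
    {g : G} (hg : HasTr T (D.mer 1 0 (1/2)) g) (hu : IsUnit (1 - ρ g)) {S : Set (ℂ × ℂ)} (hS : IsPreconnected S)
    (hSX : S ⊆ D.X) {t : ℝ} (hm : ∀ s, D.mer 1 t (1/2) s ∈ S) : HV (sys T ρ) S ∅ 0 := by
  have hX : GFlat T S := hT.mono (hSX.trans (D.Xar_subset_O (by norm_num)))
  have h1 := D.mer_cont (u := 1) (t := t) (r := 1/2) (by simp) (by norm_num) (by norm_num)
  obtain ⟨g', hg'⟩ := exists_hasTr hX h1.continuousOn (fun s _ => hm s)
  obtain ⟨a, ha⟩ := D.mer_conj hT (by simp) (by simp) (by norm_num) (by norm_num) (by norm_num) (by norm_num) hg hg'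
  have hu' := hl_unit_conj ρ ha hu
  exact H0_vanish ρ hX hS h1.continuousOn (fun s _ => hm s) (hl_mer_loop D _ _ _) hg'
    ((Module.End.isUnit_iff _).1 hu').1

end zero

/-! ### lifting a torsion class -/

section lift

variable {k : Type*} [Field k] {G : Type*} [Group G] {n : ℕ}

/-- multiplication by `X^m` -/
noncomputable def hl_i (k : Type*) [Field k] (n m : ℕ) : (Fin n → PowerSeries k) →ₗ[PowerSeries k] (Fin n → PowerSeries k) :=
  (LinearMap.lsmul (PowerSeries k) (PowerSeries k) ((PowerSeries.X : PowerSeries k) ^ m)).compLeft (Fin n)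

/-- reduction modulo `X^m` -/
noncomputable def hl_p (k : Type*) [Field k] (n m : ℕ) : (Fin n → PowerSeries k) →ₗ[PowerSeries k] (Fin n → Tr k m) :=
  (Submodule.mkQ (Ideal.span {(PowerSeries.X : PowerSeries k) ^ m})).compLeft (Fin n)

theorem hl_i_apply (n m : ℕ) (v : Fin n → PowerSeries k) :
    hl_i k n m v = ((PowerSeries.X : PowerSeries k) ^ m) • v := rfl

theorem hl_i_inj (n m : ℕ) : Function.Injective (hl_i k n m) := by
  intro v w h
  funext j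
  have h1 := congrFun h j
  exact mul_left_cancel₀ (pow_ne_zero m PowerSeries.X_ne_zero) h1

theorem hl_p_surj (n m : ℕ) : Function.Surjective (hl_p k n m) := by
  intro v
  choose w hw using fun j => Submodule.mkQ_surjective _ (v j)
  exact ⟨w, funext hw⟩

theorem hl_ex (n m : ℕ) : Function.Exact (hl_i k n m) (hl_p k n m) := by
  intro v
  constructor
  · intro h
    have h1 : ∀ j, ∃ w, w * (PowerSeries.X : PowerSeries k) ^ m = v j := fun j =>
      Ideal.mem_span_singleton'.1 ((Submodule.Quotient.mk_eq_zero _).1 (congrFun h j))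
    choose w hw using h1
    refine ⟨w, funext fun j => ?_⟩
    rw [← hw j, mul_comm]
    rfl
  · rintro ⟨w, rfl⟩
    funext j
    refine (Submodule.Quotient.mk_eq_zero _).2 (Ideal.mem_span_singleton'.2 ⟨w j, ?_⟩)
    rw [mul_comm]
    rfl

theorem hl_lift (D : Tube) {T : ℂ × ℂ → ℂ × ℂ → G} (hT : GFlat T D.O)
    (ρ : G →* Matrix (Fin n) (Fin n) (PowerSeries k)) (m : ℕ) {c : List (ℂ × ℂ) → (Fin n → PowerSeries k)}
    (hc : c ∈ Zc (cs T ρ (PowerSeries k)) D.X ∅ 2)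
    (hk : KV (cs T ρ (PowerSeries k)) D.X ∅ 2 ((PowerSeries.X : PowerSeries k) ^ m))
    (hne : c ∉ Bc (cs T ρ (PowerSeries k)) D.EJ ∅ 2 ∨ c ∉ Bc (cs T ρ (PowerSeries k)) D.EK ∅ 2) :
    ∃ α : List (ℂ × ℂ) → (Fin n → Tr k m), Coc T ρ m D.X α ∧
          (¬ Cob T ρ m D.EJ α ∨ ¬ Cob T ρ m D.EK α) := by
  have hX : GFlat T D.X := hT.mono (D.Xar_subset_O (by norm_num))
  have hi : ∀ x y, cs T ρ (PowerSeries k) x y ∘ₗ hl_i k n m = hl_i k n m ∘ₗ cs T ρ (PowerSeries k) x y :=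
    fun x y => cs_compLeft _ ρ x y
  have hp : ∀ x y, cs T ρ (Tr k m) x y ∘ₗ hl_p k n m = hl_p k n m ∘ₗ cs T ρ (PowerSeries k) x y :=
    fun x y => cs_compLeft _ ρ x y
  obtain ⟨α, hα, hd⟩ := Cd_of_zero (hl_i k n m) (hl_p k n m) hi hp (hl_i_inj n m) (hl_p_surj n m)
    (hl_ex n m) (cs_flat hX ρ) (empty_subset _) hc (hk c hc)
  refine ⟨α, hα, ?_⟩
  by_contra hcon
  push Not at hcon
  rcases hne with h | h
  · exact h (Cd_zero (hl_i k n m) (hl_p k n m) hi hp (hl_i_inj n m) (hl_p_surj n m)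
      (hl_ex n m) (cs_flat (hX.mono D.EJ_subset) ρ) (empty_subset _)
      (Cd.mono _ _ hd D.EJ_subset (le_refl ∅)) hcon.1 (Zc_mono D.EJ_subset (le_refl ∅) _ hc))
  · exact h (Cd_zero (hl_i k n m) (hl_p k n m) hi hp (hl_i_inj n m) (hl_p_surj n m)
      (hl_ex n m) (cs_flat (hX.mono D.EK_subset) ρ) (empty_subset _)
      (Cd.mono _ _ hd D.EK_subset (le_refl ∅)) hcon.2 (Zc_mono D.EK_subset (le_refl ∅) _ hc))

end lift

theorem CR_empty : CR (∅ : Set (ℂ × ℂ)) :=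
  ⟨isCompact_empty, ∅, id, isOpen_empty, le_refl _, continuousOn_empty _, fun _ h => h.elim, fun _ h => h.elim⟩

/-! ### duality over the truncated ring -/

section main

variable {k₀ k : Type*} [Field k₀] [Field k] [Algebra k₀ k] [FiniteDimensional k₀ k]

/-- `k[X]/X^m` is finite over `k` -/
theorem hl_fin (m : ℕ) : Module.Finite k (Tr k m) := by
  classical
  let f : (Fin m → k) →ₗ[k] PowerSeries k :=
    { toFun := fun v => ∑ j : Fin m, v j • (PowerSeries.X : PowerSeries k) ^ (j : ℕ)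
      map_add' := by intro v w; simp [add_smul, Finset.sum_add_distrib]
      map_smul' := by intro c v; simp [Finset.smul_sum, smul_smul] }
  let q : PowerSeries k →ₗ[k] Tr k m :=
    (Submodule.mkQ (Ideal.span {(PowerSeries.X : PowerSeries k) ^ m})).restrictScalars k
  refine Module.Finite.of_surjective (q ∘ₗ f) ?_
  intro y
  obtain ⟨s, rfl⟩ := Submodule.mkQ_surjective _ y
  refine ⟨fun j => PowerSeries.coeff (j : ℕ) s, ?_⟩
  refine (Submodule.Quotient.eq _).2 (Ideal.mem_span_singleton.2 (PowerSeries.X_pow_dvd_iff.2 ?_))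
  intro j hj
  rw [map_sub, sub_eq_zero]
  show PowerSeries.coeff j (∑ i : Fin m, PowerSeries.coeff (i : ℕ) s • (PowerSeries.X : PowerSeries k) ^ (i : ℕ)) = _
  rw [map_sum, Finset.sum_eq_single ⟨j, hj⟩]
  · simp
  · intro b _ hb
    have hb' : j ≠ (b : ℕ) := fun h => hb (Fin.ext h.symm)
    simp [PowerSeries.coeff_X_pow, hb']
  · intro h
    exact absurd (Finset.mem_univ _) h

theorem hl_fin₀ (n m : ℕ) : Module.Finite k₀ (Fin n → Tr k m) := by
  have h1 : Module.Finite k (Tr k m) := hl_fin m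
  have h2 : Module.Finite k₀ (Tr k m) := Module.Finite.trans k (Tr k m)
  infer_instance

end main

section gen

variable {k₀ k V : Type*} [Field k₀] [Field k] [Algebra k₀ k] [FiniteDimensional k₀ k]
  [AddCommGroup V] [Module (PowerSeries k) V] [Module k₀ V] [Module k V] [IsScalarTower k₀ k V]
  [IsScalarTower k (PowerSeries k) V] [IsScalarTower k₀ (PowerSeries k) V]

theorem hl_rank {G : Type*} [Group G] (T : ℂ × ℂ → ℂ × ℂ → G) (ρ : G →* (V →ₗ[PowerSeries k] V))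
    (S S' : Set (ℂ × ℂ)) (q : ℕ) : Module.finrank k₀ (H (sys T (hl_rs k₀ ρ)) S S' q) =
      Module.finrank k₀ k * Module.finrank k (H (sys T ρ) S S' q) := by
  have h1 : Module.finrank k₀ (H (sys T (hl_rs k₀ ρ)) S S' q) = Module.finrank k₀ (H (sys T ρ) S S' q) :=
    finrank_H_base (k := k) (k₀ := k₀) (sys T ρ) S S' q
  rw [h1, Module.finrank_mul_finrank]

/-- duality in terms of dimensions over `k` -/
theorem hl_dual_gen (D : Tube) {G : Type*} [Group G] {T : ℂ × ℂ → ℂ × ℂ → G} (hT : GFlat T D.O)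
    [FiniteDimensional k₀ V] (ρ : G →* (V →ₗ[PowerSeries k] V))
    (Bf : V →ₗ[k₀] V →ₗ[k₀] k₀) (hB : ∀ v, (∀ w, Bf v w = 0) → v = 0)
    (hB' : ∀ w, (∀ v, Bf v w = 0) → w = 0) (hinv : ∀ g v w, Bf (ρ g v) (ρ g w) = Bf v w)
    {g : G} (hg : HasTr T (D.mer 1 0 (1/2)) g) (hu : IsUnit (1 - ρ g)) (i j : ℕ) (hij : i + j = 4) :
    Module.finrank k (H (sys T ρ) D.X ∅ i) = Module.finrank k (H (sys T ρ) D.X (D.EJ ∪ D.EK) j) := by
  have hu' := hl_unit_rs k₀ ρ hu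
  have h4 := D.duality hT (hl_rs k₀ ρ) Bf hB hB' hinv hg hu' i j hij
  rw [hl_rank, hl_rank] at h4
  exact Nat.eq_of_mul_eq_mul_left Module.finrank_pos h4

omit [FiniteDimensional k₀ k] [Module k V] [IsScalarTower k₀ k V] [IsScalarTower k (PowerSeries k) V] in
/-- `H^3` of the ends -/
theorem hl_H3_gen (D : Tube) {G : Type*} [Group G] {T : ℂ × ℂ → ℂ × ℂ → G} (hT : GFlat T D.O)
    [FiniteDimensional k₀ V] (ρ : G →* (V →ₗ[PowerSeries k] V))
    (Bf : V →ₗ[k₀] V →ₗ[k₀] k₀) (hB : ∀ v, (∀ w, Bf v w = 0) → v = 0)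
    (hB' : ∀ w, (∀ v, Bf v w = 0) → w = 0) (hinv : ∀ g v w, Bf (ρ g v) (ρ g w) = Bf v w)
    {g : G} (hg : HasTr T (D.mer 1 0 (1/2)) g) (hu : IsUnit (1 - ρ g))
    (hJ : HV (sys T ρ) D.EJ ∅ 0) (hK : HV (sys T ρ) D.EK ∅ 0) :
    HV (sys T ρ) D.EJ ∅ 3 ∧ HV (sys T ρ) D.EK ∅ 3 := by
  have hu' := hl_unit_rs k₀ ρ hu
  have e : ∀ (S S' : Set (ℂ × ℂ)) (q : ℕ), HV (sys T (hl_rs k₀ ρ)) S S' q ↔
      HV (sys T ρ) S S' q := fun S S' q => HV_congr_scalar (fun _ _ _ => rfl)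
  have h4 := hl_H3 D hT (hl_rs k₀ ρ) Bf hB hB' hinv hg hu' ((e _ _ _).2 hJ) ((e _ _ _).2 hK)
  exact ⟨(e _ _ _).1 h4.1, (e _ _ _).1 h4.2⟩

end gen

section main

variable {k₀ k : Type*} [Field k₀] [Field k] [Algebra k₀ k] [FiniteDimensional k₀ k]
/-- duality and `H^3` of the ends for the truncated coefficients -/
theorem hl_dual (D : Tube) {G : Type*} [Group G]
    {T : ℂ × ℂ → ℂ × ℂ → G} (hT : GFlat T D.O) (σ : k ≃ₐ[k₀] k) (hσ : ∀ a, σ (σ a) = a) {n : ℕ}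
    (deg : G →* Multiplicative ℤ) (ρ₀ : G →* Matrix (Fin n) (Fin n) k) (r : kˣ) (hr : σ (r : k) = ((r⁻¹ : kˣ) : k))
    (hρ : ∀ g, ((ρ₀ g).map σ).transpose * ρ₀ g = 1)
    (ρ : G →* Matrix (Fin n) (Fin n) (PowerSeries k)) (hρR : ρ = repR deg ρ₀ r)
    {g : G} (hg : HasTr T (D.mer 1 0 (1/2)) g) (hu : IsUnit (1 - rep0 deg ρ₀ r g)) (m : ℕ) (hm0 : 0 < m) :
    (∀ i j : ℕ, i + j = 4 → hm T ρ m D.X ∅ i = hm T ρ m D.X (D.EJ ∪ D.EK) j) ∧
    (HV (cs T ρ (Tr k m)) D.EJ ∅ 0 → HV (cs T ρ (Tr k m)) D.EK ∅ 0 →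
      HV (cs T ρ (Tr k m)) D.EJ ∅ 3 ∧ HV (cs T ρ (Tr k m)) D.EK ∅ 3) := by
  obtain ⟨Bf, h1, h2, h3⟩ := exists_form σ hσ deg ρ₀ r hr hρ m hm0
  rw [← hρR] at h3
  have hf : FiniteDimensional k₀ (Fin n → Tr k m) := hl_fin₀ n m
  have hu1 : IsUnit (1 - ρ g) := by rw [hρR]; exact hl_unit_R deg ρ₀ r hu
  have hu' := hl_unit_M (Tr k m) ρ hu1
  exact ⟨fun i j hij => hl_dual_gen D hT (repM (Tr k m) ρ) Bf h1 h2 h3 hg hu' i j hij,
    fun hJ hK => hl_H3_gen D hT (repM (Tr k m) ρ) Bf h1 h2 h3 hg hu' hJ hK⟩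

end main

section HL

variable {k₀ k : Type*} [Field k₀] [Field k] [Algebra k₀ k] [FiniteDimensional k₀ k]

theorem hl_ev {P : ℕ → ℕ → Prop} (h : ∀ q, ∃ m₀, ∀ m ≥ m₀, P q m) :
    ∀ᶠ m in Filter.atTop, ∀ q ∈ Finset.range 6, P q m := by
  rw [Filter.eventually_all_finset]
  intro q _
  exact Filter.eventually_atTop.2 (h q)

theorem hl_HV_rel {A V : Type*} [CommRing A] [AddCommGroup V] [Module A V] {T : ℂ × ℂ → ℂ × ℂ → (V →ₗ[A] V)}
    {S S' : Set (ℂ × ℂ)} (hT : Flat T S) (h : S' ⊆ S) (h1 : ∀ q, HV T S ∅ q) (h2 : ∀ q, HV T S' ∅ q) (q : ℕ) :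
    HV T S S' q := by
  cases q with
  | zero => exact HV_triple_quot0 hT h (empty_subset _) (h1 0)
  | succ q => exact HV_triple_quot hT h (empty_subset _) (h2 q) (h1 (q + 1))

/-- (HL) the half-lives lemma. -/
theorem half_lives (D : Tube) (hc : IsPreconnected D.EK) {G : Type*} [Group G]
    {T : ℂ × ℂ → ℂ × ℂ → G} (hT : GFlat T D.O) (σ : k ≃ₐ[k₀] k) (hσ : ∀ a, σ (σ a) = a) {n : ℕ}
    (deg : G →* Multiplicative ℤ) (ρ₀ : G →* Matrix (Fin n) (Fin n) k) (r : kˣ) (hr : σ (r : k) = ((r⁻¹ : kˣ) : k))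
    (hρ : ∀ g, ((ρ₀ g).map σ).transpose * ρ₀ g = 1)
    (ρ : G →* Matrix (Fin n) (Fin n) (PowerSeries k)) (hρR : ρ = repR deg ρ₀ r)
    {g : G} (hg : HasTr T (D.mer 1 0 (1/2)) g) (hu : IsUnit (1 - rep0 deg ρ₀ r g))
    (hX : ∀ q, HV (cs T ρ (LaurentSeries k)) D.X ∅ q)
    (hJ : ∀ q, HV (cs T ρ (LaurentSeries k)) D.EJ ∅ q)
    (hK : ∀ q, HV (cs T ρ (LaurentSeries k)) D.EK ∅ q) :
    ∃ m₀, ∀ m ≥ m₀,
      Even (hm T ρ m D.EJ ∅ 1 + hm T ρ m D.EK ∅ 1) ∧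
      (0 < hm T ρ m D.EJ ∅ 1 + hm T ρ m D.EK ∅ 1 →
        ∃ α : List (ℂ × ℂ) → (Fin n → Tr k m), Coc T ρ m D.X α ∧
          (¬ Cob T ρ m D.EJ α ∨ ¬ Cob T ρ m D.EK α)) := by
  have fX : GFlat T D.X := hT.mono (D.Xar_subset_O (by norm_num))
  have hEX : D.EJ ∪ D.EK ⊆ D.X := union_subset D.EJ_subset D.EK_subset
  have fJ := fX.mono D.EJ_subset
  have fK := fX.mono D.EK_subset
  have fE := fX.mono hEX
  -- fraction field
  have hE : ∀ q, HV (cs T ρ (LaurentSeries k)) (D.EJ ∪ D.EK) ∅ q := fun q =>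
    (hl_HV_union D.isClosed_EJ D.isClosed_EK D.disj_EJ_EK q).2 ⟨hJ q, hK q⟩
  have hXE : ∀ q, HV (cs T ρ (LaurentSeries k)) D.X (D.EJ ∪ D.EK) q :=
    hl_HV_rel (cs_flat fX ρ) hEX hX hE
  -- finiteness and torsion
  have gX := fun q => finite_of_frac D.CR_X CR_empty (empty_subset _) fX ρ q (hX q)
  have gJ := fun q => finite_of_frac D.CR_EJ CR_empty (empty_subset _) fJ ρ q (hJ q)
  have gK := fun q => finite_of_frac D.CR_EK CR_empty (empty_subset _) fK ρ q (hK q)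
  have gE := fun q => finite_of_frac D.CR_ends CR_empty (empty_subset _) fE ρ q (hE q)
  have gR := fun q => finite_of_frac D.CR_X D.CR_ends hEX fX ρ q (hXE q)
  have ev := ((((hl_ev fun q => (gX q).2).and (hl_ev fun q => (gJ q).2)).and
    (hl_ev fun q => (gK q).2)).and (hl_ev fun q => (gR q).2)).and (Filter.eventually_ge_atTop 1)
  obtain ⟨m₀, hm₀⟩ := Filter.eventually_atTop.1 ev
  refine ⟨m₀, fun m hm1 => ?_⟩
  obtain ⟨⟨⟨⟨tX, tJ⟩, tK⟩, tR⟩, mpos⟩ := hm₀ m hm1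
  -- the numbers
  have nX : ∀ q < 5, hm T ρ m D.X ∅ q = hR T ρ D.X ∅ q + hR T ρ D.X ∅ (q + 1) := fun q hq =>
    (finrank_trunc fX (empty_subset _) ρ q m (tX q (Finset.mem_range.2 (by omega)))
      (tX (q+1) (Finset.mem_range.2 (by omega))) (gX q).1 (gX (q+1)).1).2
  have nJ : ∀ q < 5, hm T ρ m D.EJ ∅ q = hR T ρ D.EJ ∅ q + hR T ρ D.EJ ∅ (q + 1) := fun q hq =>
    (finrank_trunc fJ (empty_subset _) ρ q m (tJ q (Finset.mem_range.2 (by omega)))
      (tJ (q+1) (Finset.mem_range.2 (by omega))) (gJ q).1 (gJ (q+1)).1).2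
  have nK : ∀ q < 5, hm T ρ m D.EK ∅ q = hR T ρ D.EK ∅ q + hR T ρ D.EK ∅ (q + 1) := fun q hq =>
    (finrank_trunc fK (empty_subset _) ρ q m (tK q (Finset.mem_range.2 (by omega)))
      (tK (q+1) (Finset.mem_range.2 (by omega))) (gK q).1 (gK (q+1)).1).2
  have nR : ∀ q < 5, hm T ρ m D.X (D.EJ ∪ D.EK) q =
      hR T ρ D.X (D.EJ ∪ D.EK) q + hR T ρ D.X (D.EJ ∪ D.EK) (q + 1) := fun q hq =>
    (finrank_trunc fX hEX ρ q m (tR q (Finset.mem_range.2 (by omega)))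
      (tR (q+1) (Finset.mem_range.2 (by omega))) (gR q).1 (gR (q+1)).1).2
  -- degree zero
  have hu1 : IsUnit (1 - ρ g) := by rw [hρR]; exact hl_unit_R deg ρ₀ r hu
  have hu' := hl_unit_M (Tr k m) ρ hu1
  have z0X : HV (cs T ρ (Tr k m)) D.X ∅ 0 :=
    hl_H0 D hT (repM (Tr k m) ρ) hg hu' (D.preconnected_X hc) (le_refl _) (t := 0)
      (fun s => D.B_subset (hl_mer_B D (by norm_num) (by norm_num) s))
  have z0J : HV (cs T ρ (Tr k m)) D.EJ ∅ 0 :=
    hl_H0 D hT (repM (Tr k m) ρ) hg hu' (D.preconnected_EJ hc) D.EJ_subset (t := -1) (hl_mer_J D)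
  have z0K : HV (cs T ρ (Tr k m)) D.EK ∅ 0 :=
    hl_H0 D hT (repM (Tr k m) ρ) hg hu' hc D.EK_subset (t := 2) (hl_mer_K D)
  obtain ⟨dual, h3⟩ := hl_dual D hT σ hσ deg ρ₀ r hr hρ ρ hρR hg hu m mpos
  obtain ⟨z3J, z3K⟩ := h3 z0J z0K
  have zr : ∀ {S S' : Set (ℂ × ℂ)} {q : ℕ}, HV (cs T ρ (Tr k m)) S S' q → hm T ρ m S S' q = 0 := by
    intro S S' q h
    have : Subsingleton (H (cs T ρ (Tr k m)) S S' q) := HV_iff_subsingleton.1 h
    exact Module.finrank_zero_of_subsingleton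
  have a0 := zr z0X
  have a1 := zr z0J
  have a2 := zr z0K
  have a3 := zr z3J
  have a4 := zr z3K
  rw [nX 0 (by norm_num)] at a0
  rw [nJ 0 (by norm_num)] at a1
  rw [nK 0 (by norm_num)] at a2
  rw [nJ 3 (by norm_num)] at a3
  rw [nK 3 (by norm_num)] at a4
  have d0 := dual 0 4 rfl
  have d1 := dual 1 3 rfl
  have d2 := dual 2 2 rfl
  rw [nX 0 (by norm_num), nR 4 (by norm_num)] at d0
  rw [nX 1 (by norm_num), nR 3 (by norm_num)] at d1
  rw [nX 2 (by norm_num), nR 2 (by norm_num)] at d2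
  norm_num at a0 a1 a2 a3 a4 d0 d1 d2
  -- the ends together
  have nE : ∀ q, hR T ρ (D.EJ ∪ D.EK) ∅ q = hR T ρ D.EJ ∅ q + hR T ρ D.EK ∅ q := by
    intro q
    have h5 := disj_bij (T := cs T ρ (PowerSeries k)) D.isClosed_EJ D.isClosed_EK D.disj_EJ_EK q
    have i1 := (gJ q).1
    have i2 := (gK q).1
    let e := (LinearEquiv.ofBijective _ h5).restrictScalars k
    exact (LinearEquiv.finrank_eq e).trans (Module.finrank_prod)
  have i2 := (gX 2).1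
  have i3 := (gX 3).1
  have iE1 := (gE 1).1
  have iE2 := (gE 2).1
  have iE3 := (gE 3).1
  have iR3 := (gR 3).1
  have sE1 : Subsingleton (H (cs T ρ (PowerSeries k)) (D.EJ ∪ D.EK) ∅ 1) := by
    have : hR T ρ (D.EJ ∪ D.EK) ∅ 1 = 0 := by rw [nE]; omega
    exact Module.finrank_zero_iff.1 this
  have sE3 : Subsingleton (H (cs T ρ (PowerSeries k)) (D.EJ ∪ D.EK) ∅ 3) := by
    have : hR T ρ (D.EJ ∪ D.EK) ∅ 3 = 0 := by rw [nE]; omega
    exact Module.finrank_zero_iff.1 this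
  have cX := cs_flat (M := PowerSeries k) fX ρ
  obtain ⟨r', s', e1, e2, e3, e4⟩ := hl_five (k := k)
    ((Hres (cs T ρ (PowerSeries k)) (le_refl D.X) (empty_subset _) 2 :
      H (cs T ρ (PowerSeries k)) D.X (D.EJ ∪ D.EK) 2 →ₗ[PowerSeries k] H (cs T ρ (PowerSeries k)) D.X ∅ 2).restrictScalars k)
    ((Hres (cs T ρ (PowerSeries k)) hEX (le_refl ∅) 2 :
      H (cs T ρ (PowerSeries k)) D.X ∅ 2 →ₗ[PowerSeries k] H (cs T ρ (PowerSeries k)) (D.EJ ∪ D.EK) ∅ 2).restrictScalars k)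
    ((Hd (cs T ρ (PowerSeries k)) cX hEX 2 :
      H (cs T ρ (PowerSeries k)) (D.EJ ∪ D.EK) ∅ 2 →ₗ[PowerSeries k] H (cs T ρ (PowerSeries k)) D.X (D.EJ ∪ D.EK) 3).restrictScalars k)
    ((Hres (cs T ρ (PowerSeries k)) (le_refl D.X) (empty_subset _) 3 :
      H (cs T ρ (PowerSeries k)) D.X (D.EJ ∪ D.EK) 3 →ₗ[PowerSeries k] H (cs T ρ (PowerSeries k)) D.X ∅ 3).restrictScalars k)
    (by
      rw [LinearMap.coe_restrictScalars, injective_iff_map_eq_zero]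
      intro x hx
      obtain ⟨y, hy⟩ := (exact_triple3 cX hEX (empty_subset _) 1 x).1 hx
      rw [← hy, sE1.elim y 0, map_zero])
    (exact_triple1 cX hEX (empty_subset _) 2) (exact_triple2 cX hEX (empty_subset _) 2)
    (exact_triple3 cX hEX (empty_subset _) 2)
    (by
      intro y
      exact (exact_triple1 cX hEX (empty_subset _) 3 y).1 (sE3.elim _ _))
  have e1' : hR T ρ D.X ∅ 2 = r' + hR T ρ D.X (D.EJ ∪ D.EK) 2 := e1
  have e2' : hR T ρ (D.EJ ∪ D.EK) ∅ 2 = s' + r' := e2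
  have e3' : hR T ρ D.X (D.EJ ∪ D.EK) 3 = hR T ρ D.X ∅ 3 + s' := e3
  rw [nE] at e2'
  have tot : hm T ρ m D.EJ ∅ 1 + hm T ρ m D.EK ∅ 1 = r' + r' := by
    rw [nJ 1 (by norm_num), nK 1 (by norm_num)]
    norm_num
    omega
  rw [tot]
  refine ⟨⟨r', rfl⟩, fun hpos => ?_⟩
  obtain ⟨x, hx⟩ := e4 (by omega)
  obtain ⟨c, rfl⟩ := H.mk_surjective 2 x
  refine hl_lift D hT ρ m c.2 (tX 2 (Finset.mem_range.2 (by omega))) ?_
  by_contra hcon
  push Not at hcon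
  apply hx
  have h6 := hl_union_mem D.isClosed_EJ D.isClosed_EK D.disj_EJ_EK
    (Zc_mono hEX (le_refl ∅) 2 c.2) hcon.1 hcon.2
  exact (H.mk_eq_zero (T := cs T ρ (PowerSeries k)) ⟨(c : List (ℂ × ℂ) → (Fin n → PowerSeries k)),
    Zc_mono hEX (le_refl ∅) 2 c.2⟩).2 h6

end HL

end Pool.Agent.Helper60.Geo
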