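import Pool.Agent.Helper60.Geo.AcycAux

/-! Acyclicity of `(X, EJ)` and `(X, EK)` for representations of groups `Γ` with a homomorphism to `ℤ`
whose kernel is a finite 5-group (paper, (5.1) and (6.1)). -/

set_option autoImplicit false

namespace Pool.Agent.Helper60.Geo

open Set AS Alg

section chain

variable {D : Tube}

/-- step 1: `A = F₅[t^{±1}]`, the system `t^{T₀}` has torsion cohomology killed by some `s ≡ 1 mod (t-1)` -/
theorem chain1 {T₀ : ℂ × ℂ → ℂ × ℂ → Multiplicative ℤ} (hT : GFlat T₀ D.O) {E : Set (ℂ × ℂ)}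
    (hE : E = D.EJ ∨ E = D.EK)
    (ρ : Multiplicative ℤ →* Matrix (Fin 1) (Fin 1) (LaurentPolynomial (ZMod 5)))
    (hρ : ∀ n : ℤ, ρ (Multiplicative.ofAdd n) = fun _ _ => LaurentPolynomial.T n) (q : ℕ) :
    ∃ s : LaurentPolynomial (ZMod 5), s ≠ 0 ∧ KV (cs T₀ ρ (LaurentPolynomial (ZMod 5))) D.X E q s :=
  AcycAux.chain1' hT hE ρ hρ q

/-- step 2: rank one systems over a field `K` of characteristic 5 with transcendental `τ` -/
theorem chain2 {T₀ : ℂ × ℂ → ℂ × ℂ → Multiplicative ℤ} (hT : GFlat T₀ D.O) {E : Set (ℂ × ℂ)}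
    (hE : E = D.EJ ∨ E = D.EK) {K : Type*} [Field K] [Algebra (ZMod 5) K] (τ : Kˣ)
    (hτ : Transcendental (ZMod 5) (τ : K)) (ρ : Multiplicative ℤ →* Matrix (Fin 1) (Fin 1) K)
    (hρ : ∀ n : ℤ, ρ (Multiplicative.ofAdd n) = fun _ _ => ((τ ^ n : Kˣ) : K)) (q : ℕ) :
    HV (cs T₀ ρ K) D.X E q :=
  AcycAux.chain2' hT hE τ hτ ρ hρ q

variable {G : Type*} [Group G] (deg : G →* Multiplicative ℤ) (hf : Finite deg.ker)
  (hp : IsPGroup 5 deg.ker) {T : ℂ × ℂ → ℂ × ℂ → G}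

include hf hp in
/-- step 3: over `K ⊇` an algebraically closed field `k` of characteristic 5, `τ ∈ K` transcendental over
`k`, the system `τ^{deg} ⊗ ρ₀` with `ρ₀` over `k` is acyclic (triangularise `ρ₀`). -/
theorem chain3 (hT : GFlat T D.O) {E : Set (ℂ × ℂ)} (hE : E = D.EJ ∨ E = D.EK) {k K : Type*} [Field k]
    [IsAlgClosed k] [CharP k 5] [Field K] [Algebra k K] (τ : Kˣ) (hτ : Transcendental k (τ : K)) {n : ℕ}
    (ρ₀ : G →* Matrix (Fin n) (Fin n) k) (ρ : G →* Matrix (Fin n) (Fin n) K)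
    (hρ : ∀ g, ρ g = ((τ ^ (Multiplicative.toAdd (deg g)) : Kˣ) : K) • (ρ₀ g).map (algebraMap k K)) (q : ℕ) :
    HV (cs T ρ K) D.X E q :=
  AcycAux.chain3' deg hf hp hT hE τ hτ ρ₀ ρ hρ q

include hf hp in
/-- step 4: over `F₅[t^{±1}]` the system `t^{deg} ⊗ ρ̄` is killed by a nonzero element -/
theorem chain4 (hT : GFlat T D.O) {E : Set (ℂ × ℂ)} (hE : E = D.EJ ∨ E = D.EK) {n : ℕ}
    (ρ₀ : G →* Matrix (Fin n) (Fin n) (ZMod 5))
    (ρ : G →* Matrix (Fin n) (Fin n) (LaurentPolynomial (ZMod 5)))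
    (hρ : ∀ g, ρ g = (LaurentPolynomial.T (Multiplicative.toAdd (deg g)) : LaurentPolynomial (ZMod 5)) •
      (ρ₀ g).map LaurentPolynomial.C)
    (q : ℕ) : ∃ s : LaurentPolynomial (ZMod 5), s ≠ 0 ∧
      KV (cs T ρ (LaurentPolynomial (ZMod 5))) D.X E q s :=
  AcycAux.chain4' deg hf hp hT hE ρ₀ ρ hρ q

include hf hp in
/-- step 5 (main result of the chain), characteristic zero -/
theorem chain5 (hT : GFlat T D.O) {E : Set (ℂ × ℂ)} (hE : E = D.EJ ∨ E = D.EK) {n : ℕ} (M : Mono G n)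
    (r : ℂˣ) (z : ℂ) (hz : z ^ 5 = 1) (hz1 : z ≠ 1)
    (ρ : G →* Matrix (Fin n) (Fin n) (PowerSeries ℂ)) (hρ : ρ = repR deg (M.rep z hz) r) (q : ℕ) :
    HV (cs T ρ (LaurentSeries ℂ)) D.X E q :=
  AcycAux.chain5' deg hf hp hT hE M r z hz hz1 ρ hρ q

/-- rank one, characteristic 5 (special case of step 2 with `K` the Laurent series field) -/
theorem chain_one {T₀ : ℂ × ℂ → ℂ × ℂ → Multiplicative ℤ} (hT : GFlat T₀ D.O) {E : Set (ℂ × ℂ)}
    (hE : E = D.EJ ∨ E = D.EK) {k : Type*} [Field k] [Algebra (ZMod 5) k] (r : kˣ)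
    (ρ : Multiplicative ℤ →* Matrix (Fin 1) (Fin 1) (PowerSeries k))
    (hρ : ρ = repR (MonoidHom.id _) (1 : Multiplicative ℤ →* Matrix (Fin 1) (Fin 1) k) r) (q : ℕ) : HV (cs T₀ ρ (LaurentSeries k)) D.X E q :=
  AcycAux.chain_one' hT hE r ρ hρ q

end chain

end Pool.Agent.Helper60.Geo
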