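import Pool.Agent.Helper60.Geo.Tref
import Pool.Agent.Helper60.AS.Tri

/-! `H¹` of the trefoil exterior with twisted coefficients in terms of the pair `(U, W)`. -/

set_option autoImplicit false

namespace Pool.Agent.Helper60.Geo

open Set AS

variable {G : Type*} [Group G] {T : ℂ × ℂ → ℂ × ℂ → G} {k V : Type*} [CommRing k] [AddCommGroup V]
  [Module k V] {ρ : G →* (V →ₗ[k] V)}

/-- the section `G → Aff ρ` -/
def th1_sec (ρ : G →* (V →ₗ[k] V)) : G →* Aff ρ where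
  toFun g := ⟨0, g⟩
  map_one' := rfl
  map_mul' a b := by ext <;> simp

@[simp] theorem th1_sec_v (g : G) : (th1_sec ρ g).v = 0 := rfl
@[simp] theorem th1_sec_g (g : G) : (th1_sec ρ g).g = g := rfl
@[simp] theorem th1_proj (a : Aff ρ) : Aff.proj ρ a = a.g := rfl

theorem th1_eq_sec {a : Aff ρ} (h : a.v = 0) : a = th1_sec ρ a.g := by
  ext
  · exact h
  · rfl

/-- conjugates of `th1_sec ρ g` -/
theorem th1_conj_v (x : V) (a g : G) :
    ((⟨x, a⟩ : Aff ρ) * th1_sec ρ g * (⟨x, a⟩ : Aff ρ)⁻¹).v = x - ρ (a * g * a⁻¹) x := by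
  simp only [Aff.mul_v, Aff.mul_g, Aff.inv_v, th1_sec_v, th1_sec_g, map_zero, add_zero, map_neg,
    sub_eq_add_neg]
  rw [← Module.End.mul_apply, ← map_mul]

/-- transports of functions without translation part have no translation part -/
theorem th1_hasTr {F : ℂ × ℂ → ℂ × ℂ → Aff ρ} (hv : ∀ x y, (F x y).v = 0) {γ : ℝ → ℂ × ℂ} {h : Aff ρ}
    (hF : HasTr F γ h) : h.v = 0 := by
  have h1 := (hF.map (Aff.proj ρ)).map (th1_sec ρ)
  have h2 : (fun x y => th1_sec ρ (Aff.proj ρ (F x y))) = F := by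
    funext x y
    exact (th1_eq_sec (hv x y)).symm
  rw [h2] at h1
  rw [hF.unique h1]
  rfl

theorem th1_UW {F : ℂ × ℂ → ℂ × ℂ → Aff ρ} (hv : ∀ x y, (F x y).v = 0) {U W : Aff ρ} (h : UW F U W) :
    U.v = 0 ∧ W.v = 0 := by
  obtain ⟨p, gU, q, gW, h1, h2, h3, h4, rfl, rfl⟩ := h
  have e1 := th1_hasTr hv h1
  have e2 := th1_hasTr hv h2
  have e3 := th1_hasTr hv h3
  have e4 := th1_hasTr hv h4
  constructor
  · simp [e1, e2]
  · simp [e3, e4]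

theorem th1_Ex_sub : Ex ⊆ {z | nrm z ≠ 0 ∧ ∀ k ∈ Kn, z ≠ nrm z • k} := by
  intro z hz
  have hn : nrm z = 1 := hz.1
  refine ⟨by rw [hn]; exact one_ne_zero, ?_⟩
  rintro k ⟨u, hu, rfl⟩ he
  rw [hn, one_smul] at he
  exact hz.2 ⟨u, 0, hu, by simp, he⟩

/-- (T1), (T3): a flat `Aff ρ`-valued function on `Ex` with pair `(U, W)` is trivial iff the
translation parts have the form `x - ρ(·) x` -/
theorem tref_tri {F : ℂ × ℂ → ℂ × ℂ → Aff ρ} (hF : GFlat F Ex) {U W : Aff ρ} (h : UW F U W) :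
    Tri F Ex ↔ ∃ x : V, U.v = x - ρ U.g x ∧ W.v = x - ρ W.g x := by
  constructor
  · rintro ⟨F', ⟨u, hu⟩, hv⟩
    have h1 := h.gauge hF hu
    obtain ⟨e1, e2⟩ := th1_UW hv h1
    have key : ∀ Y : Aff ρ, ((u x0)⁻¹ * Y * u x0).v = 0 → Y.v = (u x0).v - ρ Y.g (u x0).v := by
      intro Y hY
      have h2 : Y = (⟨(u x0).v, (u x0).g⟩ : Aff ρ) * th1_sec ρ ((u x0)⁻¹ * Y * u x0).g *
          (⟨(u x0).v, (u x0).g⟩ : Aff ρ)⁻¹ := by
        rw [← th1_eq_sec hY]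
        show Y = u x0 * ((u x0)⁻¹ * Y * u x0) * (u x0)⁻¹
        group
      have h3 := congrArg Aff.v h2
      rw [th1_conj_v] at h3
      rw [h3]
      congr 3
      simp only [Aff.mul_g, Aff.inv_g]
      group
    exact ⟨(u x0).v, key U e1, key W e2⟩
  · rintro ⟨x, hU, hW⟩
    -- the function without translation part
    have hF0 : GFlat (fun y z => th1_sec ρ (Aff.proj ρ (F y z))) Ex := (hF.map (Aff.proj ρ)).map (th1_sec ρ)
    have h0 : UW (fun y z => th1_sec ρ (Aff.proj ρ (F y z))) (th1_sec ρ U.g) (th1_sec ρ W.g) :=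
      (h.map (Aff.proj ρ)).map (th1_sec ρ)
    -- conjugate by a constant
    have hg : GaugeBy (fun y z => th1_sec ρ (Aff.proj ρ (F y z)))
        (fun y z => ((⟨x, 1⟩ : Aff ρ)⁻¹)⁻¹ * th1_sec ρ (Aff.proj ρ (F y z)) * (⟨x, 1⟩ : Aff ρ)⁻¹) Ex
        (fun _ => (⟨x, 1⟩ : Aff ρ)⁻¹) := fun a _ => ⟨1, one_pos, fun _ _ _ _ => rfl⟩
    have h1 := h0.gauge hF0 hg
    have hF1 : GFlat (fun y z => ((⟨x, 1⟩ : Aff ρ)⁻¹)⁻¹ * th1_sec ρ (Aff.proj ρ (F y z)) *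
        (⟨x, 1⟩ : Aff ρ)⁻¹) Ex := GaugeEq.flat ⟨_, hg⟩ hF0
    have key : ∀ Y : Aff ρ, Y.v = x - ρ Y.g x →
        ((⟨x, 1⟩ : Aff ρ)⁻¹)⁻¹ * th1_sec ρ Y.g * (⟨x, 1⟩ : Aff ρ)⁻¹ = Y := by
      intro Y hY
      rw [inv_inv]
      ext
      · rw [th1_conj_v, hY]; simp
      · simp
    rw [key U hU, key W hW] at h1
    obtain ⟨u, hu, -⟩ := tref_inj hF hF1 h h1
    refine ⟨fun y z => th1_sec ρ (Aff.proj ρ (F y z)), ?_, fun _ _ => rfl⟩
    exact GaugeEq.trans ⟨u, hu⟩ (GaugeEq.symm ⟨_, hg⟩)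

/-- (T2): every lift of the pair of `T` is realised by a cocycle -/
theorem tref_lift (hT : GFlat T Ex) {U W : Aff ρ} (h : UW T U.g W.g) (hUW : U ^ 2 = W ^ 3) :
    ∃ c ∈ Zc (sys T ρ) Ex ∅ 1, UW (aff ρ T c) U W := by
  obtain ⟨F, hF, hFUW⟩ := tref_exists hUW
  have hF' : GFlat F Ex := hF.mono th1_Ex_sub
  have h1 : UW (fun x y => Aff.proj ρ (F x y)) U.g W.g := hFUW.map (Aff.proj ρ)
  obtain ⟨u, hu, hu0⟩ := tref_inj (hF'.map (Aff.proj ρ)) hT h1 h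
  let c : List (ℂ × ℂ) → V := fun l => match l with
    | [x, y] => ((th1_sec ρ (u x))⁻¹ * F x y * th1_sec ρ (u y)).v
    | _ => 0
  have hg : GaugeBy F (aff ρ T c) Ex (fun x => th1_sec ρ (u x)) := by
    intro a ha
    obtain ⟨e, he, hu⟩ := hu a ha
    refine ⟨e, he, fun x y hx hy => ?_⟩
    ext
    · rfl
    · rw [aff_g, hu x y hx hy]
      rfl
  refine ⟨c, (gflat_aff ρ hT).1 (GaugeEq.flat ⟨_, hg⟩ hF'), ?_⟩
  have h2 := hFUW.gauge hF' hg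
  have h3 : th1_sec ρ (u x0) = 1 := by rw [hu0, map_one]
  simpa only [h3, inv_one, one_mul, mul_one] using h2

end Pool.Agent.Helper60.Geo
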