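import Pool.Agent.Helper60.Geo.Pat
import Pool.Agent.Helper60.AS.H1

/-! Twisted `H¹` of the complement of the pattern for commuting holonomies. -/

set_option autoImplicit false

namespace Pool.Agent.Helper60.Geo

open Set AS

variable {G k V : Type*} [Group G] [CommRing k] [AddCommGroup V] [Module k V]
  {T : ℂ × ℂ → ℂ × ℂ → G} (ρ : G →* (V →ₗ[k] V))

/-- `D(B, L) = 1 - B - L + BL - B²L - BL² + B²L²` -/
def Dop (B L : V →ₗ[k] V) : V →ₗ[k] V :=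
  LinearMap.id - B - L + B ∘ₗ L - B ∘ₗ B ∘ₗ L - B ∘ₗ L ∘ₗ L + B ∘ₗ B ∘ₗ L ∘ₗ L

/-! ### the loops -/

theorem ph1_norm_ee (s : ℝ) : ‖ee s‖ = 1 := by
  have : ee s = Complex.exp ((2 * Real.pi * s : ℝ) * Complex.I) := by
    unfold ee; push_cast; rfl
  rw [this, Complex.norm_exp_ofReal_mul_I]

theorem ph1_continuous_ee : Continuous ee := by
  unfold ee; fun_prop

theorem ph1_ee_zero : ee 0 = 1 := by simp [ee]

theorem ph1_ee_one : ee 1 = 1 := by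
  unfold ee
  rw [Complex.ofReal_one, mul_one, Complex.exp_two_pi_mul_I]

theorem ph1_ee_half : ee (1/2) = -1 := by
  unfold ee
  have : (2 * Real.pi * ((1/2 : ℝ) : ℂ) * Complex.I) = Real.pi * Complex.I := by
    push_cast; ring
  rw [this, Complex.exp_pi_mul_I]

theorem ph1_pat_norm {p : ℂ × ℂ} (hp : p ∈ Pat) : ‖p.2‖ < 1 := by
  rcases hp with ⟨r, ⟨h0, h1⟩, rfl⟩ | ⟨r, ⟨h0, h1⟩, rfl⟩
  · show ‖((r - 1/2 : ℝ) : ℂ)‖ < 1
    rw [Complex.norm_real, Real.norm_eq_abs, abs_lt]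
    constructor <;> linarith
  · show ‖((r - 1/2 : ℝ) : ℂ) + (hh r : ℂ) * Complex.I‖ < 1
    have hh1 : |hh r| ≤ 1/2 := by
      unfold hh
      have h2 : 0 ≤ r * (1 - r) := mul_nonneg h0 (by linarith)
      have h3 : r * (1 - r) ≤ 1/4 := by nlinarith [sq_nonneg (r - 1/2)]
      have h4 : |3 * r - 1| ≤ 2 := by rw [abs_le]; constructor <;> linarith
      rw [abs_mul, abs_of_nonneg h2]
      calc r * (1 - r) * |3 * r - 1| ≤ 1/4 * 2 :=
            mul_le_mul h3 h4 (abs_nonneg _) (by norm_num)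
        _ = 1/2 := by norm_num
    have h5 : ‖((r - 1/2 : ℝ) : ℂ) + (hh r : ℂ) * Complex.I‖ ^ 2 = (r - 1/2)^2 + (hh r)^2 := by
      rw [Complex.sq_norm, Complex.normSq_add_mul_I]
    have h6 : (hh r)^2 ≤ 1/4 := by
      have := sq_abs (hh r)
      nlinarith [abs_nonneg (hh r)]
    have h7 : (r - 1/2)^2 ≤ 1/4 := by nlinarith
    by_contra hcon
    push Not at hcon
    nlinarith [norm_nonneg (((r - 1/2 : ℝ) : ℂ) + (hh r : ℂ) * Complex.I)]

theorem ph1_bdry {p : ℂ × ℂ} (h1 : ‖p.1‖ = 1) (h2 : ‖p.2‖ = 1) : p ∈ VP :=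
  ⟨⟨h1, h2.le⟩, fun h => by have := ph1_pat_norm h; linarith⟩

theorem ph1_gl_mem (s : ℝ) : gl s ∈ VP :=
  ph1_bdry (by show ‖-ee s‖ = 1; rw [norm_neg, ph1_norm_ee]) (by show ‖Complex.I‖ = 1; simp)

theorem ph1_pL_mem (s : ℝ) : pL s ∈ VP :=
  ph1_bdry (by show ‖(-1 : ℂ)‖ = 1; simp)
    (by show ‖Complex.I * ee (s/2)‖ = 1; rw [norm_mul, ph1_norm_ee]; simp)

theorem ph1_pD_mem {s : ℝ} (hs : s ∈ Icc (0:ℝ) 1) : pD s ∈ VP := by
  refine ⟨⟨by show ‖(-1 : ℂ)‖ = 1; simp, ?_⟩, ?_⟩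
  · show ‖((1 - 2 * s : ℝ) : ℂ) * Complex.I‖ ≤ 1
    rw [norm_mul, Complex.norm_I, mul_one, Complex.norm_real, Real.norm_eq_abs, abs_le]
    constructor <;> linarith [hs.1, hs.2]
  · rintro (⟨r, hr, h⟩ | ⟨r, hr, h⟩)
    · have h1 : ee (sg r) = -1 := congrArg Prod.fst h
      have h2 : ((r - 1/2 : ℝ) : ℂ) = ((1 - 2 * s : ℝ) : ℂ) * Complex.I := congrArg Prod.snd h
      have h3 : r - 1/2 = 0 := by
        have := congrArg Complex.re h2
        simpa using this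
      have h4 : r = 1/2 := by linarith
      have h5 : sg r = -5/4 := by rw [h4]; unfold sg; norm_num
      rw [h5] at h1
      have h6 : ee (-5/4) = -Complex.I := by
        unfold ee
        have : (2 * Real.pi * ((-5/4 : ℝ) : ℂ) * Complex.I) =
            -(Real.pi / 2 * Complex.I) - 2 * Real.pi * Complex.I := by
          push_cast; ring
        rw [this, Complex.exp_sub, Complex.exp_two_pi_mul_I, div_one, Complex.exp_neg,
          Complex.exp_pi_div_two_mul_I, Complex.inv_I]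
      rw [h6] at h1
      have h7 := congrArg Complex.re h1
      simp at h7
    · have h1 : (1 : ℂ) = -1 := congrArg Prod.fst h
      have h7 := congrArg Complex.re h1
      norm_num at h7

theorem ph1_gl_cont : Continuous gl := by
  unfold gl
  exact (ph1_continuous_ee.neg).prodMk continuous_const
theorem ph1_pD_cont : Continuous pD := by
  unfold pD; fun_prop
theorem ph1_pL_cont : Continuous pL := by
  unfold pL
  exact continuous_const.prodMk (continuous_const.mul (ph1_continuous_ee.comp (by fun_prop)))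

theorem ph1_gl_zero : gl 0 = v0 := by simp [gl, v0, ph1_ee_zero]
theorem ph1_gl_one : gl 1 = v0 := by simp [gl, v0, ph1_ee_one]
theorem ph1_pD_zero : pD 0 = v0 := by simp [pD, v0]
theorem ph1_pL_zero : pL 0 = v0 := by simp [pL, v0, ph1_ee_zero]
theorem ph1_pD_one : pD 1 = pL 1 := by
  simp only [pD, pL, ph1_ee_half]
  norm_num

/-! ### transports of a flat function that is gauge equivalent to a model -/

section general

variable {A : Type*} [Group A] {F : ℂ × ℂ → ℂ × ℂ → A}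

theorem ph1_tr {b l : A} (h : Rel b l) {u : ℂ × ℂ → A}
    (hu : GaugeBy F (patT b l) VP u) {g d e : A} (hg : HasTr F gl g) (hd : HasTr F pD d)
    (he : HasTr F pL e) : g = u v0 * l * (u v0)⁻¹ ∧ d * e⁻¹ = u v0 * b * (u v0)⁻¹ := by
  have h1 := (HasTr.gauge hu ph1_gl_cont.continuousOn (fun s _ => ph1_gl_mem s) hg).unique
    (patT_gl h)
  have h2 := (HasTr.gauge hu ph1_pD_cont.continuousOn (fun s hs => ph1_pD_mem hs) hd).unique
    (patT_pD h)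
  have h3 := (HasTr.gauge hu ph1_pL_cont.continuousOn (fun s _ => ph1_pL_mem s) he).unique
    (patT_pL h)
  rw [ph1_gl_zero, ph1_gl_one] at h1
  rw [ph1_pD_zero, ph1_pD_one] at h2
  rw [ph1_pL_zero] at h3
  constructor
  · rw [← h1]; group
  · have h4 : e = u v0 * (u (pL 1))⁻¹ := by
      have : e = u v0 * ((u v0)⁻¹ * e * u (pL 1)) * (u (pL 1))⁻¹ := by group
      rw [this, h3, mul_one]
    rw [← h2, h4]; group

theorem ph1_exists_tr (hF : GFlat F VP) :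
    ∃ g d e : A, HasTr F gl g ∧ HasTr F pD d ∧ HasTr F pL e := by
  obtain ⟨g, hg⟩ := exists_hasTr hF ph1_gl_cont.continuousOn (fun s _ => ph1_gl_mem s)
  obtain ⟨d, hd⟩ := exists_hasTr hF ph1_pD_cont.continuousOn (fun s hs => ph1_pD_mem hs)
  obtain ⟨e, he⟩ := exists_hasTr hF ph1_pL_cont.continuousOn (fun s _ => ph1_pL_mem s)
  exact ⟨g, d, e, hg, hd, he⟩

/-- two models of the same flat function -/
theorem ph1_conj (hF : GFlat F VP) {b l b' l' : A} (h : Rel b l) (h' : Rel b' l')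
    {u u' : ℂ × ℂ → A} (hu : GaugeBy F (patT b l) VP u) (hu' : GaugeBy F (patT b' l') VP u')
    (h1 : u' v0 = 1) : b' = u v0 * b * (u v0)⁻¹ ∧ l' = u v0 * l * (u v0)⁻¹ := by
  obtain ⟨g, d, e, hg, hd, he⟩ := ph1_exists_tr hF
  obtain ⟨h2, h3⟩ := ph1_tr h hu hg hd he
  obtain ⟨h4, h5⟩ := ph1_tr h' hu' hg hd he
  rw [h1] at h4 h5
  rw [← h3, ← h2, h4, h5]
  constructor <;> group

end general

/-! ### homomorphisms between the groups `Aff` -/

/-- inclusion of `G` -/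
def ph1inc : G →* Aff ρ where
  toFun g := ⟨0, g⟩
  map_one' := rfl
  map_mul' a b := by ext <;> simp

@[simp] theorem ph1inc_apply (g : G) : ph1inc ρ g = ⟨0, g⟩ := rfl

/-- map induced by an equivariant linear map -/
def ph1map {W : Type*} [AddCommGroup W] [Module k W] {ρ : G →* (V →ₗ[k] V)} {ρ' : G →* (W →ₗ[k] W)}
    (φ : V →ₗ[k] W) (h : ∀ g v, ρ' g (φ v) = φ (ρ g v)) : Aff ρ →* Aff ρ' where
  toFun a := ⟨φ a.v, a.g⟩
  map_one' := by ext <;> simp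
  map_mul' a b := by ext <;> simp [h]

/-- the diagonal representation on `V × V` -/
def ph1two : G →* (V × V →ₗ[k] V × V) where
  toFun g := (ρ g).prodMap (ρ g)
  map_one' := by ext <;> simp
  map_mul' a b := by ext <;> simp

theorem ph1two_apply (g : G) (v : V × V) : ph1two ρ g v = (ρ g v.1, ρ g v.2) := rfl

/-- conjugation of the model by the element `⟨m, 1⟩` -/
theorem ph1_patT_conj {A : Type*} [Group A] (n b l : A) (x y : ℂ × ℂ) :
    n * patT b l x y * n⁻¹ = patT (n * b * n⁻¹) (n * l * n⁻¹) x y := by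
  have := patT_map (MulAut.conj n).toMonoidHom b l x y
  simpa using this

theorem ph1_rel_conj {A : Type*} [Group A] (n : A) {b l : A} (h : Rel b l) :
    Rel (n * b * n⁻¹) (n * l * n⁻¹) := by
  have h1 := h.map (MulAut.conj n)
  have h2 : (MulAut.conj n) ((beta b l)⁻¹ * (beta b l)⁻¹ * b) =
      (beta (n * b * n⁻¹) (n * l * n⁻¹))⁻¹ * (beta (n * b * n⁻¹) (n * l * n⁻¹))⁻¹ *
        (n * b * n⁻¹) := by
    simp only [MulAut.conj_apply, beta]; group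
  rw [h2, MulAut.conj_apply] at h1
  exact h1

/-! ### the predicate -/

/-- `(x, y)` are the `V`-components of the pair of the cocycle `c` over `T ~ (b, l)` -/
def PC (T : ℂ × ℂ → ℂ × ℂ → G) (b l : G) (c : List (ℂ × ℂ) → V) (x y : V) : Prop :=
  Rel (⟨x, b⟩ : Aff ρ) ⟨y, l⟩ ∧
    ∃ u : ℂ × ℂ → Aff ρ, GaugeBy (aff ρ T c) (patT (⟨x, b⟩ : Aff ρ) ⟨y, l⟩) VP u ∧ u v0 = 1

theorem ph1_gauge_map {A A' : Type*} [Group A] [Group A'] (φ : A →* A')
    {F F' : ℂ × ℂ → ℂ × ℂ → A} {S : Set (ℂ × ℂ)} {u : ℂ × ℂ → A} (h : GaugeBy F F' S u) :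
    GaugeBy (fun x y => φ (F x y)) (fun x y => φ (F' x y)) S (fun x => φ (u x)) := by
  intro a ha
  obtain ⟨e, he, h⟩ := h a ha
  refine ⟨e, he, fun x y hx hy => ?_⟩
  show φ (F' x y) = _
  rw [h x y hx hy, map_mul, map_mul, map_inv]

theorem ph1_rel_map {A A' : Type*} [Group A] [Group A'] (φ : A →* A') {b l : A} (h : Rel b l) :
    Rel (φ b) (φ l) := by
  have h1 := h.map φ
  simpa [beta, Rel] using h1

variable {ρ}

theorem PC_unique {b l : G} {c : List (ℂ × ℂ) → V} (hT : GFlat T VP)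
    (hc : c ∈ Zc (sys T ρ) VP ∅ 1) {x y x' y' : V} (h : PC ρ T b l c x y)
    (h' : PC ρ T b l c x' y') : x = x' ∧ y = y' := by
  obtain ⟨hr, u, hu, h1⟩ := h
  obtain ⟨hr', u', hu', h1'⟩ := h'
  obtain ⟨e1, e2⟩ := ph1_conj ((gflat_aff ρ hT).2 hc) hr hr' hu hu' h1'
  rw [h1] at e1 e2
  simp only [one_mul, inv_one, mul_one] at e1 e2
  exact ⟨(congrArg Aff.v e1).symm, (congrArg Aff.v e2).symm⟩

theorem PC_exists {b l : G} {c : List (ℂ × ℂ) → V} (hT : GFlat T VP) (hr : Rel b l)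
    {w : ℂ × ℂ → G} (hw : GaugeBy T (patT b l) VP w) (hw1 : w v0 = 1)
    (hc : c ∈ Zc (sys T ρ) VP ∅ 1) : ∃ x y, PC ρ T b l c x y := by
  obtain ⟨b', l', hr', u, hu, h1⟩ := pat_classify ((gflat_aff ρ hT).2 hc)
  have h2 := ph1_gauge_map (Aff.proj ρ) hu
  have h3 : (fun x y => (Aff.proj ρ) (patT b' l' x y)) = patT b'.g l'.g := by
    funext x y
    exact patT_map (Aff.proj ρ) b' l' x y
  rw [h3] at h2
  have h4 : GaugeBy T (patT b'.g l'.g) VP (fun x => (Aff.proj ρ) (u x)) := h2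
  have h5 : Rel b'.g l'.g := ph1_rel_map (Aff.proj ρ) hr'
  have h6 : (fun x => (Aff.proj ρ) (u x)) v0 = 1 := by
    show (u v0).g = 1
    rw [h1]; rfl
  obtain ⟨e1, e2⟩ := ph1_conj hT hr h5 hw h4 h6
  rw [hw1] at e1 e2
  simp only [one_mul, inv_one, mul_one] at e1 e2
  have e3 : b' = ⟨b'.v, b⟩ := by ext; rfl; exact e1
  have e4 : l' = ⟨l'.v, l⟩ := by ext; rfl; exact e2
  refine ⟨b'.v, l'.v, ?_, u, ?_, h1⟩
  · rw [← e3, ← e4]; exact hr'
  · rw [← e3, ← e4]; exact hu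

theorem PC_lin {b l : G} {c c' : List (ℂ × ℂ) → V} (hT : GFlat T VP) (hr : Rel b l)
    {w : ℂ × ℂ → G} (hw : GaugeBy T (patT b l) VP w) (hw1 : w v0 = 1)
    (hc : c ∈ Zc (sys T ρ) VP ∅ 1) (hc' : c' ∈ Zc (sys T ρ) VP ∅ 1) {x y x' y' : V}
    (h : PC ρ T b l c x y) (h' : PC ρ T b l c' x' y') (s t : k) :
    PC ρ T b l (s • c + t • c') (s • x + t • x') (s • y + t • y') := by
  let d : List (ℂ × ℂ) → V × V := fun m => (c m, c' m)
  have hd : d ∈ Zc (sys T (ph1two ρ)) VP ∅ 1 := by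
    rw [← gflat_aff (ph1two ρ) hT]
    have f1 := (gflat_aff ρ hT).2 hc
    have f2 := (gflat_aff ρ hT).2 hc'
    intro a ha
    obtain ⟨e1, he1, f1⟩ := f1 a ha
    obtain ⟨e2, he2, f2⟩ := f2 a ha
    refine ⟨min e1 e2, lt_min he1 he2, fun x y z hx hy hz => ?_⟩
    have g1 := f1 x y z (hx.trans_le (min_le_left _ _)) (hy.trans_le (min_le_left _ _))
      (hz.trans_le (min_le_left _ _))
    have g2 := f2 x y z (hx.trans_le (min_le_right _ _)) (hy.trans_le (min_le_right _ _))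
      (hz.trans_le (min_le_right _ _))
    have g1v := congrArg Aff.v g1
    have g2v := congrArg Aff.v g2
    have g1g := congrArg Aff.g g1
    simp only [Aff.mul_v, Aff.mul_g, aff_v, aff_g] at g1v g2v g1g
    ext
    · exact g1v
    · exact g2v
    · exact g1g
  obtain ⟨x2, y2, hr2, u, hu, h1⟩ := PC_exists hT hr hw hw1 hd
  -- projections
  have key : ∀ (φ : V × V →ₗ[k] V) (hφ : ∀ g v, ρ g (φ v) = φ (ph1two ρ g v)),
      PC ρ T b l (fun m => φ (d m)) (φ x2) (φ y2) := by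
    intro φ hφ
    refine ⟨ph1_rel_map (ph1map (ρ := ph1two ρ) (ρ' := ρ) φ hφ) hr2,
      fun x => ph1map (ρ := ph1two ρ) (ρ' := ρ) φ hφ (u x), ?_, ?_⟩
    · have h2 := ph1_gauge_map (ph1map (ρ := ph1two ρ) (ρ' := ρ) φ hφ) hu
      have h3 : (fun x y => (ph1map (ρ := ph1two ρ) (ρ' := ρ) φ hφ)
          (patT (⟨x2, b⟩ : Aff (ph1two ρ)) ⟨y2, l⟩ x y)) =
          patT (⟨φ x2, b⟩ : Aff ρ) ⟨φ y2, l⟩ := by
        funext x y
        exact patT_map _ _ _ x y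
      rw [h3] at h2
      exact h2
    · show ph1map (ρ := ph1two ρ) (ρ' := ρ) φ hφ (u v0) = 1
      rw [h1, map_one]
  have k1 := key (LinearMap.fst k V V) (fun g v => rfl)
  have k2 := key (LinearMap.snd k V V) (fun g v => rfl)
  have k3 := key (s • LinearMap.fst k V V + t • LinearMap.snd k V V)
    (fun g v => by simp [ph1two_apply])
  obtain ⟨a1, a2⟩ := PC_unique hT hc (show PC ρ T b l c (x2.1) (y2.1) from k1) h
  obtain ⟨a3, a4⟩ := PC_unique hT hc' (show PC ρ T b l c' (x2.2) (y2.2) from k2) h'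
  rw [← a1, ← a2, ← a3, ← a4]
  exact k3

/-- if the pair is the pair of a coboundary, then `c` is a coboundary -/
theorem PC_Bc {b l : G} {c : List (ℂ × ℂ) → V} (hT : GFlat T VP) {x y m : V}
    (h : PC ρ T b l c x y) (hx : x = ρ b m - m) (hy : y = ρ l m - m) :
    c ∈ Bc (sys T ρ) VP ∅ 1 := by
  obtain ⟨hr, u, hu, h1⟩ := h
  -- the model in terms of the model of `G`
  have hb : (⟨x, b⟩ : Aff ρ) = (⟨-m, 1⟩ : Aff ρ) * ph1inc ρ b * (⟨-m, 1⟩ : Aff ρ)⁻¹ := by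
    ext
    · simp [hx]; abel
    · simp
  have hl : (⟨y, l⟩ : Aff ρ) = (⟨-m, 1⟩ : Aff ρ) * ph1inc ρ l * (⟨-m, 1⟩ : Aff ρ)⁻¹ := by
    ext
    · simp [hy]; abel
    · simp
  have hP : ∀ p q, patT (⟨x, b⟩ : Aff ρ) ⟨y, l⟩ p q =
      (⟨-m, 1⟩ : Aff ρ) * ph1inc ρ (patT b l p q) * (⟨-m, 1⟩ : Aff ρ)⁻¹ := by
    intro p q
    rw [hb, hl, ← ph1_patT_conj, patT_map]
  rw [mem_Bc_one ρ hT]
  refine ⟨fun p => (ph1inc ρ (u p).g * (⟨-m, 1⟩ : Aff ρ)⁻¹ * (u p)⁻¹).v, fun a ha => ?_⟩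
  obtain ⟨e, he, hu⟩ := hu a ha
  refine ⟨e, he, fun p q hp hq => ?_⟩
  have h2 := hu p q hp hq
  rw [hP] at h2
  have h4 : patT b l p q = (u p).g⁻¹ * T p q * (u q).g := by
    have := congrArg Aff.g h2
    simpa using this
  rw [h4, map_mul, map_mul, map_inv] at h2
  have h3 : (ph1inc ρ (u p).g * (⟨-m, 1⟩ : Aff ρ)⁻¹ * (u p)⁻¹) * aff ρ T c p q =
      ph1inc ρ (T p q) * (ph1inc ρ (u q).g * (⟨-m, 1⟩ : Aff ρ)⁻¹ * (u q)⁻¹) := by
    have : aff ρ T c p q = u p * ((u p)⁻¹ * aff ρ T c p q * u q) * (u q)⁻¹ := by group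
    rw [this, ← h2]; group
  have h6 : (ph1inc ρ (u p).g * (⟨-m, 1⟩ : Aff ρ)⁻¹ * (u p)⁻¹).g = 1 := by simp
  have h5 : (ph1inc ρ (u p).g * (⟨-m, 1⟩ : Aff ρ)⁻¹ * (u p)⁻¹).v + c [p, q] =
      ρ (T p q) (ph1inc ρ (u q).g * (⟨-m, 1⟩ : Aff ρ)⁻¹ * (u q)⁻¹).v := by
    have h7 := congrArg Aff.v h3
    rw [Aff.mul_v (ph1inc ρ (u p).g * (⟨-m, 1⟩ : Aff ρ)⁻¹ * (u p)⁻¹), h6, map_one,
      Module.End.one_apply, aff_v, Aff.mul_v (ph1inc ρ (T p q))] at h7
    rw [h7]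
    show (0 : V) + _ = _
    rw [zero_add]
    rfl
  rw [eq_sub_iff_add_eq, add_comm]
  exact h5

/-- the pair of a coboundary -/
theorem PC_of_Bc {b l : G} {c : List (ℂ × ℂ) → V} (hT : GFlat T VP) (hr : Rel b l)
    {w : ℂ × ℂ → G} (hw : GaugeBy T (patT b l) VP w) (hw1 : w v0 = 1)
    (hc : c ∈ Bc (sys T ρ) VP ∅ 1) : ∃ m, PC ρ T b l c (ρ b m - m) (ρ l m - m) := by
  obtain ⟨h, hh⟩ := (mem_Bc_one ρ hT).1 hc
  refine ⟨h v0, ?_⟩
  have hb : (⟨ρ b (h v0) - h v0, b⟩ : Aff ρ) =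
      (⟨-h v0, 1⟩ : Aff ρ) * ph1inc ρ b * (⟨-h v0, 1⟩ : Aff ρ)⁻¹ := by
    ext
    · simp; abel
    · simp
  have hl : (⟨ρ l (h v0) - h v0, l⟩ : Aff ρ) =
      (⟨-h v0, 1⟩ : Aff ρ) * ph1inc ρ l * (⟨-h v0, 1⟩ : Aff ρ)⁻¹ := by
    ext
    · simp; abel
    · simp
  refine ⟨?_, fun p => (⟨h p, 1⟩ : Aff ρ)⁻¹ * ph1inc ρ (w p) * (⟨-h v0, 1⟩ : Aff ρ)⁻¹, ?_, ?_⟩
  · rw [hb, hl]
    exact ph1_rel_conj _ (ph1_rel_map (ph1inc ρ) hr)
  · intro a ha
    obtain ⟨e1, he1, hh⟩ := hh a ha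
    obtain ⟨e2, he2, hw⟩ := hw a ha
    refine ⟨min e1 e2, lt_min he1 he2, fun p q hp hq => ?_⟩
    have h1 := hh p q (hp.trans_le (min_le_left _ _)) (hq.trans_le (min_le_left _ _))
    have h2 := hw p q (hp.trans_le (min_le_right _ _)) (hq.trans_le (min_le_right _ _))
    have h3 : aff ρ T c p q = (⟨h p, 1⟩ : Aff ρ)⁻¹ * ph1inc ρ (T p q) * (⟨h q, 1⟩ : Aff ρ) := by
      ext
      · simp [h1]; abel
      · simp
    rw [hb, hl, ← ph1_patT_conj, ← patT_map, h2, h3, map_mul, map_mul, map_inv]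
    group
  · show (⟨h v0, 1⟩ : Aff ρ)⁻¹ * ph1inc ρ (w v0) * (⟨-h v0, 1⟩ : Aff ρ)⁻¹ = 1
    rw [hw1]
    ext <;> simp

theorem ph1_inj {f : V →ₗ[k] V} (hu : IsUnit (f - 1)) {v : V} (h : f v = v) : v = 0 := by
  have h4 : (f - 1) v = 0 := by
    rw [LinearMap.sub_apply, Module.End.one_apply, h, sub_self]
  have h5 := congrArg (Ring.inverse (f - 1) : Module.End k V) h4
  rwa [← Module.End.mul_apply, Ring.inverse_mul_cancel _ hu, Module.End.one_apply,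
    map_zero] at h5

theorem ph1_inj' (g : G) {v : V} (h : ρ g v = 0) : v = 0 := by
  have h5 := congrArg (ρ g⁻¹) h
  rwa [← Module.End.mul_apply, ← map_mul, inv_mul_cancel, map_one, Module.End.one_apply,
    map_zero] at h5

/-- the relation in `Aff` for `l = ⟨0, l⟩` -/
theorem ph1_rel_iff {b l : G} (hc : Commute b l) (hu : IsUnit (ρ l - 1)) (z : V) :
    Rel (⟨z, b⟩ : Aff ρ) ⟨0, l⟩ ↔ Dop (ρ b) (ρ l) z = 0 := by
  have e1 : l * b * l⁻¹ = b := by rw [← hc.eq]; group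
  have hβ : beta (⟨z, b⟩ : Aff ρ) ⟨0, l⟩ = ⟨ρ l z + ρ b z - ρ b (ρ l z), b * l⟩ := by
    unfold beta
    have e2 : l * b * l⁻¹ * b * l * b⁻¹ = b * l := by rw [e1, mul_assoc b b l, hc.eq]; group; rw [hc.eq]
    ext
    · simp only [Aff.mul_v, Aff.mul_g, Aff.inv_v, Aff.inv_g, map_zero, neg_zero, add_zero,
        zero_add, map_neg]
      rw [← Module.End.mul_apply, ← map_mul, e2, e1, map_mul, Module.End.mul_apply]
      abel
    · exact e2
  have hβg : (beta (⟨z, b⟩ : Aff ρ) ⟨0, l⟩).g = b * l := by rw [hβ]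
  have hβv : (beta (⟨z, b⟩ : Aff ρ) ⟨0, l⟩).v = ρ l z + ρ b z - ρ b (ρ l z) := by rw [hβ]
  unfold Rel
  obtain ⟨W, hW⟩ : ∃ W : Aff ρ, W = (beta (⟨z, b⟩ : Aff ρ) ⟨0, l⟩)⁻¹ *
    (beta (⟨z, b⟩ : Aff ρ) ⟨0, l⟩)⁻¹ * ⟨z, b⟩ := ⟨_, rfl⟩
  have hWg : W.g = (b * l)⁻¹ * (b * l)⁻¹ * b := by
    rw [hW, Aff.mul_g, Aff.mul_g, Aff.inv_g, hβg]
  have h1 : beta (⟨z, b⟩ : Aff ρ) ⟨0, l⟩ * (beta (⟨z, b⟩ : Aff ρ) ⟨0, l⟩ * W) = ⟨z, b⟩ := by
    rw [hW]; group
  rw [← hW]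
  have h2 : ρ l z + ρ b z - ρ b (ρ l z) + ρ (b * l) (ρ l z + ρ b z - ρ b (ρ l z) +
      ρ (b * l) W.v) = z := by
    have := congrArg Aff.v h1
    rw [Aff.mul_v, Aff.mul_v, hβg, hβv] at this
    exact this
  have h3 : Dop (ρ b) (ρ l) z = ρ (b * l) (ρ (b * l) W.v) := by
    have hcz : ∀ v, ρ l (ρ b v) = ρ b (ρ l v) := by
      intro v
      rw [← Module.End.mul_apply, ← Module.End.mul_apply, ← map_mul, ← map_mul, hc.eq]
    have h5 : ρ (b * l) (ρ (b * l) W.v) = z - (ρ l z + ρ b z - ρ b (ρ l z)) -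
        ρ (b * l) (ρ l z + ρ b z - ρ b (ρ l z)) := by
      rw [map_add] at h2
      have h6 : ρ (b * l) (ρ (b * l) W.v) = (ρ l z + ρ b z - ρ b (ρ l z) +
        (ρ (b * l) (ρ l z + ρ b z - ρ b (ρ l z)) + ρ (b * l) (ρ (b * l) W.v))) -
        (ρ l z + ρ b z - ρ b (ρ l z)) - ρ (b * l) (ρ l z + ρ b z - ρ b (ρ l z)) := by abel
      rw [h6, h2]
    rw [h5]
    simp only [Dop, LinearMap.sub_apply, LinearMap.add_apply, LinearMap.comp_apply,
      LinearMap.id_apply, map_mul, Module.End.mul_apply, map_sub, map_add, hcz]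
    abel
  rw [h3]
  constructor
  · intro h
    have h4 := congrArg Aff.v h.eq
    rw [Aff.mul_v, Aff.mul_v, map_zero, zero_add, add_zero] at h4
    have h5 : W.v = 0 := ph1_inj hu h4
    rw [h5, map_zero, map_zero]
  · intro h
    have h4 : W.v = 0 := ph1_inj' _ (ph1_inj' _ h)
    show (⟨0, l⟩ : Aff ρ) * W = W * ⟨0, l⟩
    ext
    · rw [Aff.mul_v, Aff.mul_v, h4, map_zero, map_zero]
    · rw [Aff.mul_g, Aff.mul_g, hWg]
      have h5 : Commute l (b * l) := (hc.symm).mul_right (Commute.refl l)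
      exact ((h5.inv_right.mul_right h5.inv_right).mul_right hc.symm).eq

/-- main construction: every pair over `(b, l)` occurs -/
theorem PC_surj {b l : G} (hT : GFlat T VP) {w : ℂ × ℂ → G} (hw : GaugeBy T (patT b l) VP w)
    (hw1 : w v0 = 1) {x y : V} (hR : Rel (⟨x, b⟩ : Aff ρ) ⟨y, l⟩) :
    ∃ c ∈ Zc (sys T ρ) VP ∅ 1, PC ρ T b l c x y := by
  have hP := patT_flat hR
  have hPg : ∀ p q, (patT (⟨x, b⟩ : Aff ρ) ⟨y, l⟩ p q).g = patT b l p q := fun p q =>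
    patT_map (Aff.proj ρ) _ _ p q
  let F : ℂ × ℂ → ℂ × ℂ → Aff ρ := fun p q =>
    ⟨(ph1inc ρ (w p) * patT (⟨x, b⟩ : Aff ρ) ⟨y, l⟩ p q * (ph1inc ρ (w q))⁻¹).v, T p q⟩
  have hF : ∀ a ∈ VP, ∃ e > 0, ∀ p q, dist p a < e → dist q a < e →
      F p q = ph1inc ρ (w p) * patT (⟨x, b⟩ : Aff ρ) ⟨y, l⟩ p q * (ph1inc ρ (w q))⁻¹ := by
    intro a ha
    obtain ⟨e, he, hw⟩ := hw a ha
    refine ⟨e, he, fun p q hp hq => ?_⟩
    have h1 := hw p q hp hq
    ext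
    · rfl
    · show T p q = w p * (patT (⟨x, b⟩ : Aff ρ) ⟨y, l⟩ p q).g * (w q)⁻¹
      rw [hPg, h1]; group
  have hFf : GFlat F VP := by
    intro a ha
    obtain ⟨e1, he1, hF⟩ := hF a ha
    obtain ⟨e2, he2, hP⟩ := hP a ha
    refine ⟨min e1 e2, lt_min he1 he2, fun p q r hp hq hr => ?_⟩
    have h1 := hP p q r (hp.trans_le (min_le_right _ _)) (hq.trans_le (min_le_right _ _))
      (hr.trans_le (min_le_right _ _))
    rw [hF p q (hp.trans_le (min_le_left _ _)) (hq.trans_le (min_le_left _ _)),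
      hF q r (hq.trans_le (min_le_left _ _)) (hr.trans_le (min_le_left _ _)),
      hF p r (hp.trans_le (min_le_left _ _)) (hr.trans_le (min_le_left _ _)), ← h1]
    group
  obtain ⟨hm, he⟩ := unaff_mem (ρ := ρ) hT hFf (fun p q => rfl)
  refine ⟨unaff F, hm, hR, fun p => ph1inc ρ (w p), ?_, ?_⟩
  · rw [he]
    intro a ha
    obtain ⟨e1, he1, hF⟩ := hF a ha
    refine ⟨e1, he1, fun p q hp hq => ?_⟩
    rw [hF p q hp hq]
    group
  · show ph1inc ρ (w v0) = 1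
    rw [hw1, map_one]

theorem ph1_inv_mul {f : V →ₗ[k] V} (hu : IsUnit (f - 1)) (v : V) :
    f (Ring.inverse (f - 1) v) - Ring.inverse (f - 1) v = v := by
  have h : (f - 1) (Ring.inverse (f - 1) v) = v := by
    rw [← Module.End.mul_apply, Ring.mul_inverse_cancel _ hu, Module.End.one_apply]
  rwa [LinearMap.sub_apply, Module.End.one_apply] at h

theorem ph1_mul_inv {f : V →ₗ[k] V} (hu : IsUnit (f - 1)) (v : V) :
    Ring.inverse (f - 1) (f v - v) = v := by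
  have h : Ring.inverse (f - 1) ((f - 1) v) = v := by
    rw [← Module.End.mul_apply, Ring.inverse_mul_cancel _ hu, Module.End.one_apply]
  rwa [LinearMap.sub_apply, Module.End.one_apply] at h

variable (ρ)

theorem ph1_main {b l : G} (hT : GFlat T VP) {w : ℂ × ℂ → G} (hw : GaugeBy T (patT b l) VP w)
    (hw1 : w v0 = 1) (hr : Rel b l) (hc : Commute b l) (hu : IsUnit (ρ l - 1)) :
    Nonempty (H (sys T ρ) VP ∅ 1 ≃ₗ[k] LinearMap.ker (Dop (ρ b) (ρ l))) := by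
  classical
  -- the two components
  choose X Y hXY using fun c : Zc (sys T ρ) VP ∅ 1 => PC_exists hT hr hw hw1 c.2
  let J : V →ₗ[k] V := Ring.inverse (ρ l - 1)
  -- normalised component
  let Φ : Zc (sys T ρ) VP ∅ 1 → V := fun c => X c - (ρ b (J (Y c)) - J (Y c))
  have hlin : ∀ (s t : k) (c d : Zc (sys T ρ) VP ∅ 1), X (s • c + t • d) = s • X c + t • X d ∧
      Y (s • c + t • d) = s • Y c + t • Y d := by
    intro s t c d
    exact PC_unique hT (s • c + t • d).2 (hXY _) (PC_lin hT hr hw hw1 c.2 d.2 (hXY c) (hXY d) s t)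
  have hΦlin : ∀ (s t : k) (c d : Zc (sys T ρ) VP ∅ 1), Φ (s • c + t • d) = s • Φ c + t • Φ d := by
    intro s t c d
    obtain ⟨h1, h2⟩ := hlin s t c d
    show X _ - (ρ b (J (Y _)) - J (Y _)) = _
    rw [h1, h2]
    simp only [map_add, map_smul, Φ, smul_sub]
    abel
  -- the relation holds for the normalised pair
  have hker : ∀ c, Dop (ρ b) (ρ l) (Φ c) = 0 := by
    intro c
    rw [← ph1_rel_iff hc hu]
    have h1 := ph1_rel_conj (⟨J (Y c), 1⟩ : Aff ρ) (hXY c).1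
    have h2 : (⟨J (Y c), 1⟩ : Aff ρ) * ⟨X c, b⟩ * (⟨J (Y c), 1⟩ : Aff ρ)⁻¹ = ⟨Φ c, b⟩ := by
      ext
      · simp [Φ]; abel
      · simp
    have h3 : (⟨J (Y c), 1⟩ : Aff ρ) * ⟨Y c, l⟩ * (⟨J (Y c), 1⟩ : Aff ρ)⁻¹ = ⟨0, l⟩ := by
      ext
      · have h4 := ph1_inv_mul hu (Y c)
        simp only [Aff.mul_v, Aff.mul_g, Aff.inv_v, map_one, Module.End.one_apply, inv_one,
          one_mul, map_neg]
        show J (Y c) + Y c + -(ρ l (J (Y c))) = 0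
        have h5 : ρ l (J (Y c)) = Y c + J (Y c) := by
          rw [← sub_eq_iff_eq_add]; exact h4
        rw [h5]; abel
      · simp
    rw [h2, h3] at h1
    exact h1
  let Ψ : Zc (sys T ρ) VP ∅ 1 →ₗ[k] LinearMap.ker (Dop (ρ b) (ρ l)) :=
    { toFun := fun c => ⟨Φ c, hker c⟩
      map_add' := fun c d => by
        apply Subtype.ext
        have := hΦlin 1 1 c d
        simpa using this
      map_smul' := fun s c => by
        apply Subtype.ext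
        have := hΦlin s 0 c 0
        simpa using this }
  have hsurj : Function.Surjective Ψ := by
    rintro ⟨z, hz⟩
    have hR : Rel (⟨z, b⟩ : Aff ρ) ⟨0, l⟩ := (ph1_rel_iff hc hu z).2 hz
    obtain ⟨c, hcm, hPC⟩ := PC_surj hT hw hw1 hR
    refine ⟨⟨c, hcm⟩, ?_⟩
    obtain ⟨h1, h2⟩ := PC_unique hT hcm (hXY ⟨c, hcm⟩) hPC
    apply Subtype.ext
    show X ⟨c, hcm⟩ - (ρ b (J (Y ⟨c, hcm⟩)) - J (Y ⟨c, hcm⟩)) = z
    rw [h1, h2]; simp
  have hkerΨ : LinearMap.ker Ψ = (Bc (sys T ρ) VP ∅ 1).comap (Zc (sys T ρ) VP ∅ 1).subtype := by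
    ext c
    rw [LinearMap.mem_ker, Submodule.mem_comap, Submodule.subtype_apply]
    constructor
    · intro h
      have h1 : Φ c = 0 := congrArg Subtype.val h
      have h4 := ph1_inv_mul hu (Y c)
      refine PC_Bc hT (hXY c) (m := J (Y c)) ?_ h4.symm
      exact sub_eq_zero.1 h1
    · intro h
      obtain ⟨m, hm⟩ := PC_of_Bc hT hr hw hw1 h
      obtain ⟨h1, h2⟩ := PC_unique hT c.2 (hXY c) hm
      apply Subtype.ext
      show X c - (ρ b (J (Y c)) - J (Y c)) = 0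
      have h3 : J (ρ l m - m) = m := ph1_mul_inv hu m
      rw [h1, h2, h3, sub_self]
  have e1 := LinearMap.quotKerEquivOfSurjective Ψ hsurj
  exact ⟨(Submodule.quotEquivOfEq _ _ hkerΨ.symm).trans e1⟩

theorem H1_VP {b l : G} (hT : GFlat T VP) (hg : GaugeEq T (patT b l) VP) (hr : Rel b l)
    (hc : Commute b l) (hu : IsUnit (ρ l - 1)) :
    Nonempty (H (sys T ρ) VP ∅ 1 ≃ₗ[k] LinearMap.ker (Dop (ρ b) (ρ l))) := by
  obtain ⟨w, hw⟩ := hg
  obtain ⟨b', l', hr', u, hu', h1⟩ := pat_classify hT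
  obtain ⟨e1, e2⟩ := ph1_conj hT hr hr' hw hu' h1
  have hc' : Commute b' l' := by
    rw [e1, e2]
    have := hc.map (MulAut.conj (w v0))
    simpa using this
  have hconj : ∀ g : G, ρ (w v0 * g * (w v0)⁻¹) = ρ (w v0) * ρ g * ρ (w v0)⁻¹ := by
    intro g; rw [map_mul, map_mul]
  have hui : IsUnit (ρ l' - 1) := by
    have h5 : ρ l' - 1 = ρ (w v0) * (ρ l - 1) * ρ (w v0)⁻¹ := by
      rw [e2, hconj, mul_sub, sub_mul, mul_one, ← map_mul ρ (w v0) (w v0)⁻¹, mul_inv_cancel, map_one]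
    rw [h5]
    exact (((Group.isUnit (w v0)).map ρ).mul hu).mul ((Group.isUnit (w v0)⁻¹).map ρ)
  obtain ⟨E⟩ := ph1_main ρ hT hu' h1 hr' hc' hui
  let e : V ≃ₗ[k] V := LinearEquiv.ofLinearMap (ρ (w v0)) (ρ (w v0)⁻¹)
    (by rw [← Module.End.mul_eq_comp, ← map_mul, mul_inv_cancel, map_one]; rfl)
    (by rw [← Module.End.mul_eq_comp, ← map_mul, inv_mul_cancel, map_one]; rfl)
  have he : ∀ v, e v = ρ (w v0) v := fun v => rfl
  have hD : ∀ v, Dop (ρ b') (ρ l') (ρ (w v0) v) = ρ (w v0) (Dop (ρ b) (ρ l) v) := by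
    intro v
    have hb : ∀ v, ρ b' (ρ (w v0) v) = ρ (w v0) (ρ b v) := by
      intro v
      rw [← Module.End.mul_apply, ← Module.End.mul_apply, ← map_mul, ← map_mul, e1]
      congr 2; group
    have hl : ∀ v, ρ l' (ρ (w v0) v) = ρ (w v0) (ρ l v) := by
      intro v
      rw [← Module.End.mul_apply, ← Module.End.mul_apply, ← map_mul, ← map_mul, e2]
      congr 2; group
    simp only [Dop, LinearMap.sub_apply, LinearMap.add_apply, LinearMap.comp_apply,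
      LinearMap.id_apply, map_sub, map_add, hb, hl]
  have hk : (LinearMap.ker (Dop (ρ b) (ρ l))).map (e : V →ₗ[k] V) = LinearMap.ker (Dop (ρ b') (ρ l')) := by
    ext v
    rw [Submodule.mem_map]
    constructor
    · rintro ⟨z, hz, rfl⟩
      rw [LinearMap.mem_ker] at hz ⊢
      show Dop (ρ b') (ρ l') (ρ (w v0) z) = 0
      rw [hD, hz, map_zero]
    · intro hv
      refine ⟨e.symm v, ?_, e.apply_symm_apply v⟩
      rw [LinearMap.mem_ker] at hv ⊢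
      have h7 := hD (e.symm v)
      rw [← he, e.apply_symm_apply, hv] at h7
      exact ph1_inj' _ h7.symm
  exact ⟨E.trans ((e.submoduleMap _).trans (LinearEquiv.ofEq _ _ hk)).symm⟩

theorem H1_VP_zero {b : G} (hT : GFlat T VP) (hg : GaugeEq T (patT b 1) VP)
    (hu : IsUnit (ρ b - 1)) : HV (sys T ρ) VP ∅ 1 := by
  obtain ⟨w, hw⟩ := hg
  have hr : Rel b (1 : G) := Commute.one_left _
  obtain ⟨b', l', hr', u, hu', h1⟩ := pat_classify hT
  obtain ⟨e1, e2⟩ := ph1_conj hT hr hr' hw hu' h1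
  rw [mul_one, mul_inv_cancel] at e2
  subst e2
  have hui : IsUnit (ρ b' - 1) := by
    have h5 : ρ b' - 1 = ρ (w v0) * (ρ b - 1) * ρ (w v0)⁻¹ := by
      rw [e1, map_mul, map_mul, mul_sub, sub_mul, mul_one, ← map_mul ρ (w v0) (w v0)⁻¹,
        mul_inv_cancel, map_one]
    rw [h5]
    exact (((Group.isUnit (w v0)).map ρ).mul hu).mul ((Group.isUnit (w v0)⁻¹).map ρ)
  intro c hc
  obtain ⟨x, y, hxy⟩ := PC_exists (ρ := ρ) hT hr' hu' h1 hc
  let m : V := Ring.inverse (ρ b' - 1) x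
  have hm : ρ b' m - m = x := ph1_inv_mul hui x
  refine PC_Bc hT hxy (m := m) hm.symm ?_
  rw [map_one, Module.End.one_apply, sub_self]
  -- the relation gives `y = 0`
  have h2 := ph1_rel_conj (⟨m, 1⟩ : Aff ρ) hxy.1
  have h3 : (⟨m, 1⟩ : Aff ρ) * ⟨x, b'⟩ * (⟨m, 1⟩ : Aff ρ)⁻¹ = ⟨0, b'⟩ := by
    ext
    · simp only [Aff.mul_v, Aff.mul_g, Aff.inv_v, map_one, Module.End.one_apply, inv_one,
        one_mul, map_neg]
      rw [← hm]; abel
    · simp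
  have h4 : (⟨m, 1⟩ : Aff ρ) * ⟨y, 1⟩ * (⟨m, 1⟩ : Aff ρ)⁻¹ = ⟨y, 1⟩ := by
    ext
    · simp
    · simp
  rw [h3, h4] at h2
  have h2' : Commute (⟨y, 1⟩ : Aff ρ) ((beta (⟨0, b'⟩ : Aff ρ) ⟨y, 1⟩)⁻¹ *
      (beta (⟨0, b'⟩ : Aff ρ) ⟨y, 1⟩)⁻¹ * (⟨0, b'⟩ : Aff ρ)) := h2
  have h6 : ((beta (⟨0, b'⟩ : Aff ρ) ⟨y, 1⟩)⁻¹ * (beta (⟨0, b'⟩ : Aff ρ) ⟨y, 1⟩)⁻¹ *
      (⟨0, b'⟩ : Aff ρ)).g = b'⁻¹ := by
    simp [beta]
  generalize (beta (⟨0, b'⟩ : Aff ρ) ⟨y, 1⟩)⁻¹ * (beta (⟨0, b'⟩ : Aff ρ) ⟨y, 1⟩)⁻¹ *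
      (⟨0, b'⟩ : Aff ρ) = W at h2' h6
  have h5 := congrArg Aff.v h2'.eq
  rw [Aff.mul_v, Aff.mul_v, map_one, Module.End.one_apply, h6, add_comm] at h5
  have h7 : ρ b'⁻¹ y = y := (add_left_cancel h5).symm
  have h8 := congrArg (ρ b') h7
  rw [← Module.End.mul_apply, ← map_mul, mul_inv_cancel, map_one, Module.End.one_apply] at h8
  exact ph1_inj hui h8.symm

end Pool.Agent.Helper60.Geo
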