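import Pool.Agent.Helper60.Geo.HL
import Pool.Agent.Helper60.Geo.PatH1

/-! The algebraic number `θ` and the parity count (paper, (6.3)). -/

set_option autoImplicit false

namespace Pool.Agent.Helper60.Geo

open Set AS

namespace Parity

/-- the relation of a primitive fifth root of unity -/
theorem five_rel {z : ℂ} (hz : IsPrimitiveRoot z 5) : 1 + z + z ^ 2 + z ^ 3 + z ^ 4 = 0 := by
  have h := hz.geom_sum_eq_zero (by norm_num)
  simp only [Finset.sum_range_succ, Finset.range_zero, Finset.sum_empty, pow_zero, pow_one,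
    zero_add] at h
  exact h

/-- `z - 1` is not a unit of the ring of algebraic integers -/
theorem not_integral {z u : ℂ} (hz : IsPrimitiveRoot z 5) (h : (z - 1) * u = 1)
    (hu : IsIntegral ℤ u) : False := by
  have h5 := five_rel hz
  have e : (5 : ℂ) * -(u + 2 * u ^ 2 + 2 * u ^ 3 + u ^ 4) = 1 := by
    -- with `w = z - 1`: `w⁴ + 5w³ + 10w² + 10w + 5 = 0`
    have hw : (z - 1) ^ 4 + 5 * (z - 1) ^ 3 + 10 * (z - 1) ^ 2 + 10 * (z - 1) + 5 = 0 := by
      linear_combination h5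
    have h2 : (z - 1) ^ 2 * u ^ 2 = 1 := by rw [← mul_pow, h, one_pow]
    have h3 : (z - 1) ^ 3 * u ^ 3 = 1 := by rw [← mul_pow, h, one_pow]
    have h4 : (z - 1) ^ 4 * u ^ 4 = 1 := by rw [← mul_pow, h, one_pow]
    have h5 : u ^ 4 * ((z - 1) ^ 4 + 5 * (z - 1) ^ 3 + 10 * (z - 1) ^ 2 + 10 * (z - 1) + 5) = 0 := by
      rw [hw, mul_zero]
    linear_combination -h5 + h4 + 5 * u * h3 + 10 * u ^ 2 * h2 + 10 * u ^ 3 * h
  have hi : IsIntegral ℤ (algebraMap ℚ ℂ (1 / 5)) := by
    have : algebraMap ℚ ℂ (1 / 5) = -(u + 2 * u ^ 2 + 2 * u ^ 3 + u ^ 4) := by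
      have : (algebraMap ℚ ℂ (1 / 5)) = 1 / 5 := by simp
      rw [this]
      linear_combination -(1 / 5 : ℂ) * e
    rw [this]
    have h2 : IsIntegral ℤ (2 : ℂ) := by
      have := isIntegral_algebraMap (R := ℤ) (A := ℂ) (x := 2)
      simpa using this
    exact (((hu.add (h2.mul (hu.pow 2))).add (h2.mul (hu.pow 3))).add (hu.pow 4)).neg
  have hq : IsIntegral ℤ (1 / 5 : ℚ) :=
    (isIntegral_algebraMap_iff (algebraMap ℚ ℂ).injective).1 hi
  obtain ⟨y, hy⟩ := IsIntegrallyClosed.isIntegral_iff.1 hq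
  have hy' : (y : ℚ) = 1 / 5 := by simpa using hy
  have h5 : (5 : ℚ) * y = 1 := by rw [hy']; norm_num
  have h6 : (5 : ℤ) * y = 1 := by exact_mod_cast h5
  omega

end Parity

/-- the unit circle root `θ` of `D(x, ζ)`, which is not a root of unity; the other root is `-1/(ζθ)` -/
theorem exists_theta (z : ℂ) (hz : IsPrimitiveRoot z 5) : ∃ θ : ℂ, ‖θ‖ = 1 ∧
    (∀ N : ℕ, 0 < N → θ ^ N ≠ 1) ∧
    ∀ x : ℂ, 1 - x - z + x * z - x ^ 2 * z - x * z ^ 2 + x ^ 2 * z ^ 2 =
      (z ^ 2 - z) * (x - θ) * (x + 1 / (z * θ)) := by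
  have h5 := Parity.five_rel hz
  have hz0 : z ≠ 0 := hz.ne_zero (by norm_num)
  have hz1 : z ≠ 1 := hz.ne_one (by norm_num)
  have hz1' : z - 1 ≠ 0 := sub_ne_zero.2 hz1
  have hn : ‖z‖ = 1 := hz.norm'_eq_one (by norm_num)
  have hz5 : z ^ 5 = 1 := hz.pow_eq_one
  -- the real number `g = z + 1/z`
  have hinv : z⁻¹ = (starRingEnd ℂ) z := by
    rw [Complex.inv_def, Complex.normSq_eq_norm_sq, hn]
    simp
  set g : ℝ := 2 * z.re with hg
  have hgz : (g : ℂ) = z + z⁻¹ := by
    rw [hinv, Complex.add_conj, hg]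
  have hgg : g ^ 2 + g - 1 = 0 := by
    have : ((g ^ 2 + g - 1 : ℝ) : ℂ) = 0 := by
      push_cast
      rw [hgz]
      have e : (z + z⁻¹) ^ 2 + (z + z⁻¹) - 1 = (1 + z + z ^ 2 + z ^ 3 + z ^ 4) / z ^ 2 := by
        field_simp
        ring
      rw [e, h5, zero_div]
    exact_mod_cast this
  have hg2 : g ≤ 2 := by
    have : z.re ≤ ‖z‖ := Complex.re_le_norm z
    rw [hn] at this
    linarith
  have hpos : 0 ≤ 6 - g := by linarith
  set s : ℝ := Real.sqrt (6 - g) with hs
  have hss : s ^ 2 = 6 - g := Real.sq_sqrt hpos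
  set θ : ℂ := ((g - 1 : ℝ) + (s : ℝ) * Complex.I) / (2 * (z - 1)) with hθ
  have hden : (2 : ℂ) * (z - 1) ≠ 0 := mul_ne_zero two_ne_zero hz1'
  -- the quadratic equation
  have hnum : θ * (2 * (z - 1)) = (g - 1 : ℝ) + (s : ℝ) * Complex.I := by
    rw [hθ]; field_simp
  have hzz : z * z⁻¹ = 1 := mul_inv_cancel₀ hz0
  have hsC : ((s : ℝ) : ℂ) ^ 2 = 6 - (z + z⁻¹) := by
    rw [← hgz]; exact_mod_cast hss
  have hggC : (z + z⁻¹) ^ 2 + (z + z⁻¹) - 1 = 0 := by
    rw [← hgz]; exact_mod_cast hgg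
  have hquad : (z - 1) * θ ^ 2 - (z + z⁻¹ - 1) * θ + (z⁻¹ - 1) = 0 := by
    have e1 : 2 * (z - 1) * θ - (z + z⁻¹ - 1) = (s : ℝ) * Complex.I := by
      have := hnum
      push_cast at this
      rw [hgz] at this
      linear_combination this
    have e2 : (2 * (z - 1) * θ - (z + z⁻¹ - 1)) ^ 2 = -(6 - (z + z⁻¹)) := by
      rw [e1, mul_pow, Complex.I_sq, hsC]; ring
    have e3 : (4 * (z - 1)) * ((z - 1) * θ ^ 2 - (z + z⁻¹ - 1) * θ + (z⁻¹ - 1)) = 0 := by
      linear_combination e2 + (-1 : ℂ) * hggC + 4 * hzz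
    exact (mul_eq_zero.1 e3).resolve_left (mul_ne_zero (by norm_num) hz1')
  have hnormθ : ‖θ‖ = 1 := by
    have h1 : ‖θ‖ ^ 2 = 1 := by
      rw [hθ, norm_div, div_pow, norm_mul, mul_pow]
      have n1 : ‖((g - 1 : ℝ) : ℂ) + (s : ℝ) * Complex.I‖ ^ 2 = (g - 1) ^ 2 + s ^ 2 := by
        rw [← Complex.normSq_eq_norm_sq, Complex.normSq_add_mul_I]
      have n2 : ‖z - 1‖ ^ 2 = 2 - g := by
        rw [← Complex.normSq_eq_norm_sq, Complex.normSq_apply]
        have n3 : z.re ^ 2 + z.im ^ 2 = 1 := by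
          have := Complex.normSq_eq_norm_sq z
          rw [hn, Complex.normSq_apply] at this
          linarith
        simp only [Complex.sub_re, Complex.sub_im, Complex.one_re, Complex.one_im]
        rw [hg]
        linarith
      rw [n1, n2, hss]
      have n4 : ‖(2 : ℂ)‖ = 2 := by simp
      rw [n4]
      have n5 : (0 : ℝ) < 2 - g := by
        rw [← n2]
        exact pow_pos (norm_pos_iff.2 hz1') 2
      rw [div_eq_one_iff_eq (by positivity)]
      linarith
    have h2 : 0 ≤ ‖θ‖ := norm_nonneg _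
    nlinarith
  have hθ0 : θ ≠ 0 := by
    intro h
    rw [h, norm_zero] at hnormθ
    exact zero_ne_one hnormθ
  have hsum : (z - 1) * (θ - z⁻¹ * θ⁻¹) = z + z⁻¹ - 1 := by
    have e : θ * ((z - 1) * (θ - z⁻¹ * θ⁻¹)) = θ * (z + z⁻¹ - 1) := by
      have hth : θ * θ⁻¹ = 1 := mul_inv_cancel₀ hθ0
      linear_combination hquad + (-(z - 1) * z⁻¹) * hth - hzz
    exact mul_left_cancel₀ hθ0 e
  refine ⟨θ, hnormθ, fun N hN hone => ?_, fun x => ?_⟩
  · have hθi : θ⁻¹ = θ ^ (N - 1) := by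
      have : θ * θ ^ (N - 1) = 1 := by
        rw [← pow_succ', Nat.sub_add_cancel hN, hone]
      exact (eq_inv_of_mul_eq_one_right this).symm
    have hzi : z⁻¹ = z ^ 4 := by
      have : z * z ^ 4 = 1 := by rw [← pow_succ', hz5]
      exact (eq_inv_of_mul_eq_one_right this).symm
    have iθ : IsIntegral ℤ θ := by
      refine IsIntegral.of_pow hN ?_
      rw [hone]
      exact isIntegral_one
    have iz : IsIntegral ℤ z := hz.isIntegral (by norm_num)
    refine Parity.not_integral hz (u := θ - z⁻¹ * θ⁻¹ - (1 - z⁻¹)) ?_ ?_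
    · linear_combination hsum + hzz
    · rw [hzi, hθi]
      exact (iθ.sub ((iz.pow 4).mul (iθ.pow _))).sub (isIntegral_one.sub (iz.pow 4))
  · have e1 : (1 : ℂ) / (z * θ) = z⁻¹ * θ⁻¹ := by
      rw [one_div, mul_inv]
    rw [e1]
    have hth : θ * θ⁻¹ = 1 := mul_inv_cancel₀ hθ0
    linear_combination (x * z) * hsum + ((z ^ 2 - z) * z⁻¹) * hth + (x + z - 1) * hzz

namespace Parity

theorem exists_odd {n : ℕ} (hn : Odd n) (B : Matrix (Fin n) (Fin n) ℂ) {N : ℕ} (hN : 0 < N)
    (hB : B ^ N = 1) :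
    ∃ μ : ℂ, Odd (Module.finrank ℂ (Module.End.eigenspace (Matrix.toLin' B) μ)) := by
  set f : Module.End ℂ (Fin n → ℂ) := Matrix.toLin' B with hfd
  have hf : f ^ N = 1 := by
    rw [hfd, ← Matrix.toLin'_pow, hB, Matrix.toLin'_one]
    rfl
  have hss : f.IsSemisimple := by
    refine Module.End.isSemisimple_of_squarefree_aeval_eq_zero
      (p := (Polynomial.X ^ N - 1 : Polynomial ℂ)) ?_ ?_
    · refine (Polynomial.X_pow_sub_one_separable_iff.2 ?_).squarefree
      exact_mod_cast hN.ne'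
    · simp [hf]
  have h1 : ∀ μ, Module.finrank ℂ (f.eigenspace μ) = f.charpoly.rootMultiplicity μ := by
    intro μ
    rw [← LinearMap.finrank_maxGenEigenspace_eq,
      hss.isFinitelySemisimple.maxGenEigenspace_eq_eigenspace]
  have h2 : f.charpoly.roots.card = n := by
    rw [← (IsAlgClosed.splits f.charpoly).natDegree_eq_card_roots, LinearMap.charpoly_natDegree,
      Module.finrank_fin_fun]
  by_contra hc
  push Not at hc
  have h3 : Even (f.charpoly.roots.card) := by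
    rw [← Multiset.toFinset_sum_count_eq]
    refine Finset.even_sum _ fun μ _ => ?_
    rw [Polynomial.count_roots, ← h1 μ]
    exact Nat.not_odd_iff_even.1 (hc μ)
  rw [h2] at h3
  exact (Nat.not_even_iff_odd.2 hn) h3

variable {n m : ℕ}

/-- a power series with nonzero constant coefficient acts injectively -/
theorem smul_inj {M : Type*} [AddCommGroup M] [Module (PowerSeries ℂ) M] {a : PowerSeries ℂ}
    (ha : PowerSeries.constantCoeff a ≠ 0) {w : M} (h : a • w = 0) : w = 0 := by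
  have h1 : (a⁻¹ * a) • w = 0 := by rw [mul_smul, h, smul_zero]
  rwa [PowerSeries.inv_mul_cancel a ha, one_smul] at h1

/-- the action of `B` with constant coefficients -/
noncomputable def bet (B : Matrix (Fin n) (Fin n) ℂ) (m : ℕ) :
    (Fin n → Tr ℂ m) →ₗ[PowerSeries ℂ] (Fin n → Tr ℂ m) := matAct (Tr ℂ m) (B.map PowerSeries.C)

theorem bet_pow {B : Matrix (Fin n) (Fin n) ℂ} {w : Fin n → Tr ℂ m} {a : PowerSeries ℂ}
    (h : bet B m w = a • w) (j : ℕ) : bet (B ^ j) m w = a ^ j • w := by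
  induction j with
  | zero =>
    rw [pow_zero, pow_zero, one_smul, bet, Matrix.map_one _ (map_zero _) (map_one _), matAct_one]
    rfl
  | succ j ih =>
    have e : bet (B ^ (j + 1)) m w = bet (B ^ j) m (bet B m w) := by
      rw [bet, pow_succ, Matrix.map_mul, matAct_mul]
      rfl
    rw [e, h, map_smul, ih, smul_smul, ← pow_succ']

theorem bet_fix {B : Matrix (Fin n) (Fin n) ℂ} {N : ℕ} (hB : B ^ N = 1) {w : Fin n → Tr ℂ m}
    {a : PowerSeries ℂ} (h : bet B m w = a • w) : (a ^ N - 1) • w = 0 := by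
  have h1 := bet_pow h N
  rw [hB] at h1
  have h2 : bet (1 : Matrix (Fin n) (Fin n) ℂ) m w = w := by
    rw [bet, Matrix.map_one _ (map_zero _) (map_one _), matAct_one]
    rfl
  rw [sub_smul, one_smul, ← h1, h2, sub_self]

theorem bet_zero {B : Matrix (Fin n) (Fin n) ℂ} {N : ℕ} (hB : B ^ N = 1) {w : Fin n → Tr ℂ m}
    {a : PowerSeries ℂ} (h : bet B m w = a • w) (ha : PowerSeries.constantCoeff a ^ N ≠ 1) :
    w = 0 := by
  refine smul_inj ?_ (bet_fix hB h)
  rw [map_sub, map_pow, map_one]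
  exact sub_ne_zero.2 ha

theorem bet_eig {B : Matrix (Fin n) (Fin n) ℂ} {N : ℕ} (hN : 0 < N) (hB : B ^ N = 1)
    {w : Fin n → Tr ℂ m} {a : PowerSeries ℂ} (h : bet B m w = a • w) {ξ : ℂ}
    (ha : PowerSeries.constantCoeff a = ξ) (hξ : ξ ^ N = 1) : (a - PowerSeries.C ξ) • w = 0 := by
  have h1 := bet_fix hB h
  have e : a ^ N - 1 = (∑ i ∈ Finset.range N, a ^ i * (PowerSeries.C ξ) ^ (N - 1 - i)) *
      (a - PowerSeries.C ξ) := by
    rw [(Commute.all a (PowerSeries.C ξ)).geom_sum₂_mul, ← map_pow, hξ, map_one]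
  rw [e, mul_smul] at h1
  refine smul_inj ?_ h1
  have hξ0 : ξ ≠ 0 := by
    intro h0
    rw [h0, zero_pow hN.ne'] at hξ
    exact zero_ne_one hξ
  rw [map_sum]
  have e2 : ∀ i ∈ Finset.range N, PowerSeries.constantCoeff
      (a ^ i * (PowerSeries.C ξ) ^ (N - 1 - i)) = ξ ^ (N - 1) := by
    intro i hi
    rw [map_mul, map_pow, map_pow, ha, PowerSeries.constantCoeff_C, ← pow_add]
    congr 1
    have := Finset.mem_range.1 hi
    omega
  rw [Finset.sum_congr rfl e2, Finset.sum_const, Finset.card_range, nsmul_eq_mul]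
  exact mul_ne_zero (by exact_mod_cast hN.ne') (pow_ne_zero _ hξ0)

/-- the socle generator -/
noncomputable def soc (m : ℕ) : Tr ℂ m :=
  Ideal.Quotient.mk _ ((PowerSeries.X : PowerSeries ℂ) ^ (m - 1))

theorem X_soc (hm : 0 < m) : (PowerSeries.X : PowerSeries ℂ) • soc m = 0 := by
  have e : (PowerSeries.X : PowerSeries ℂ) • soc m =
      Ideal.Quotient.mk _ (PowerSeries.X * (PowerSeries.X : PowerSeries ℂ) ^ (m - 1)) := rfl
  rw [e, ← pow_succ', Nat.sub_add_cancel hm, Ideal.Quotient.eq_zero_iff_mem]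
  exact Ideal.mem_span_singleton_self _

theorem smul_soc (c : ℂ) : c • soc m = (PowerSeries.C c : PowerSeries ℂ) • soc m := by
  have e1 : c • soc m = Ideal.Quotient.mk _ (c • (PowerSeries.X : PowerSeries ℂ) ^ (m - 1)) := rfl
  have e2 : (PowerSeries.C c : PowerSeries ℂ) • soc m =
      Ideal.Quotient.mk _ (PowerSeries.C c * (PowerSeries.X : PowerSeries ℂ) ^ (m - 1)) := rfl
  rw [e1, e2, PowerSeries.smul_eq_C_mul]

theorem soc_inj (hm : 0 < m) {c : ℂ} (h : c • soc m = 0) : c = 0 := by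
  have e1 : c • soc m = Ideal.Quotient.mk _ (c • (PowerSeries.X : PowerSeries ℂ) ^ (m - 1)) := rfl
  rw [e1, Ideal.Quotient.eq_zero_iff_mem, Ideal.mem_span_singleton, PowerSeries.X_pow_dvd_iff] at h
  have h1 := h (m - 1) (by omega)
  simpa [PowerSeries.coeff_X_pow] using h1

theorem soc_surj (hm : 0 < m) {w : Tr ℂ m} (h : (PowerSeries.X : PowerSeries ℂ) • w = 0) :
    ∃ c : ℂ, w = c • soc m := by
  obtain ⟨p, rfl⟩ := Ideal.Quotient.mk_surjective w
  have e : (PowerSeries.X : PowerSeries ℂ) • (Ideal.Quotient.mk (Ideal.span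
      {(PowerSeries.X : PowerSeries ℂ) ^ m}) p) = Ideal.Quotient.mk _ (PowerSeries.X * p) := rfl
  rw [e, Ideal.Quotient.eq_zero_iff_mem, Ideal.mem_span_singleton] at h
  refine ⟨PowerSeries.coeff (m - 1) p, ?_⟩
  have e1 : PowerSeries.coeff (m - 1) p • soc m = Ideal.Quotient.mk _
      (PowerSeries.coeff (m - 1) p • (PowerSeries.X : PowerSeries ℂ) ^ (m - 1)) := rfl
  rw [e1, Ideal.Quotient.eq, Ideal.mem_span_singleton, PowerSeries.X_pow_dvd_iff]
  intro i hi
  rw [map_sub]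
  rw [PowerSeries.X_pow_dvd_iff] at h
  rcases Nat.lt_or_ge i (m - 1) with h1 | h1
  · have h2 := h (i + 1) (by omega)
    rw [PowerSeries.coeff_succ_X_mul] at h2
    rw [h2]
    simp [PowerSeries.coeff_X_pow, h1.ne]
  · have h2 : i = m - 1 := by omega
    subst h2
    simp [PowerSeries.coeff_X_pow]

/-- the kernel has the dimension of the eigenspace -/
theorem finrank_of_ker (hm : 0 < m) (B : Matrix (Fin n) (Fin n) ℂ) (ξ : ℂ)
    (K : Submodule (PowerSeries ℂ) (Fin n → Tr ℂ m))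
    (hK : ∀ w, w ∈ K ↔ (PowerSeries.X : PowerSeries ℂ) • w = 0 ∧
      bet B m w = (PowerSeries.C ξ : PowerSeries ℂ) • w) :
    Module.finrank ℂ K = Module.finrank ℂ (Module.End.eigenspace (Matrix.toLin' B) ξ) := by
  set Φ : (Fin n → ℂ) → (Fin n → Tr ℂ m) := fun v i => v i • soc m with hΦ
  have hX : ∀ v, (PowerSeries.X : PowerSeries ℂ) • Φ v = 0 := by
    intro v
    funext i
    show (PowerSeries.X : PowerSeries ℂ) • (v i • soc m) = 0
    rw [smul_soc, smul_comm, X_soc hm, smul_zero]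
  have hb : ∀ v, bet B m (Φ v) = Φ (B.mulVec v) := by
    intro v
    funext i
    show ∑ j, (B.map PowerSeries.C) i j • (v j • soc m) = (∑ j, B i j * v j) • soc m
    rw [Finset.sum_smul]
    refine Finset.sum_congr rfl fun j _ => ?_
    rw [Matrix.map_apply, smul_soc (v j), smul_smul, ← map_mul, ← smul_soc]
  have hc : ∀ v, (PowerSeries.C ξ : PowerSeries ℂ) • Φ v = Φ (ξ • v) := by
    intro v
    funext i
    show (PowerSeries.C ξ : PowerSeries ℂ) • (v i • soc m) = (ξ * v i) • soc m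
    rw [smul_soc, smul_soc, smul_smul, ← map_mul]
  have hinj : Function.Injective Φ := by
    intro v w h
    funext i
    have h1 : v i • soc m = w i • soc m := congrFun h i
    have h2 : (v i - w i) • soc m = 0 := by rw [sub_smul, h1, sub_self]
    exact sub_eq_zero.1 (soc_inj hm h2)
  have hmem : ∀ v, Φ v ∈ K ↔ v ∈ Module.End.eigenspace (Matrix.toLin' B) ξ := by
    intro v
    rw [hK, Module.End.mem_eigenspace_iff, Matrix.toLin'_apply, hb, hc]
    exact ⟨fun h => hinj h.2, fun h => ⟨hX v, by rw [h]⟩⟩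
  let F : (Module.End.eigenspace (Matrix.toLin' B) ξ) →ₗ[ℂ] K :=
    { toFun := fun v => ⟨Φ v.1, (hmem v.1).2 v.2⟩
      map_add' := fun v w => by
        apply Subtype.ext
        funext i
        exact add_smul _ _ _
      map_smul' := fun c v => by
        apply Subtype.ext
        funext i
        exact mul_smul _ _ _ }
  refine (LinearEquiv.finrank_eq (LinearEquiv.ofBijective F ⟨?_, ?_⟩)).symm
  · intro v w h
    exact Subtype.ext (hinj (congrArg Subtype.val h))
  · rintro ⟨w, hw⟩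
    have h1 := ((hK w).1 hw).1
    choose v hv using fun i => soc_surj hm (w := w i) (congrFun h1 i)
    have h2 : Φ v = w := by
      funext i
      exact (hv i).symm
    exact ⟨⟨v, (hmem v).1 (h2 ▸ hw)⟩, Subtype.ext h2⟩

theorem tU_val (r : ℂˣ) : ((tU r : (PowerSeries ℂ)ˣ) : PowerSeries ℂ) =
    PowerSeries.C (r : ℂ) + PowerSeries.X := rfl

theorem const_tU (r : ℂˣ) (e : ℤ) : PowerSeries.constantCoeff
    (((tU r) ^ e : (PowerSeries ℂ)ˣ) : PowerSeries ℂ) = ((r ^ e : ℂˣ) : ℂ) := by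
  have h1 : Units.map (PowerSeries.constantCoeff (R := ℂ)).toMonoidHom (tU r) = r := by
    apply Units.ext
    show PowerSeries.constantCoeff (PowerSeries.C (r : ℂ) + PowerSeries.X) = (r : ℂ)
    simp
  have h2 : Units.map (PowerSeries.constantCoeff (R := ℂ)).toMonoidHom ((tU r) ^ e) = r ^ e := by
    rw [map_zpow, h1]
  exact congrArg Units.val h2

theorem exists_u {θ : ℂ} (hθ : θ ≠ 0) (r : ℂˣ) (ε : ℤ) (hε : ε = 1 ∨ ε = -1) :
    ∃ u : PowerSeries ℂ, PowerSeries.constantCoeff u ≠ 0 ∧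
      PowerSeries.C θ * (((tU r) ^ (-ε) : (PowerSeries ℂ)ˣ) : PowerSeries ℂ) -
        PowerSeries.C (θ * ((r ^ (-ε) : ℂˣ) : ℂ)) = u * PowerSeries.X := by
  rcases hε with rfl | rfl
  · refine ⟨(((tU r)⁻¹ : (PowerSeries ℂ)ˣ) : PowerSeries ℂ) *
      (-PowerSeries.C (θ * ((r⁻¹ : ℂˣ) : ℂ))), ?_, ?_⟩
    · rw [map_mul, map_neg, PowerSeries.constantCoeff_C]
      have h1 := const_tU r (-1)
      rw [zpow_neg_one, zpow_neg_one] at h1
      rw [h1]
      exact mul_ne_zero (Units.ne_zero _) (neg_ne_zero.2 (mul_ne_zero hθ (Units.ne_zero _)))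
    · rw [zpow_neg_one, zpow_neg_one]
      have h1 : (((tU r)⁻¹ : (PowerSeries ℂ)ˣ) : PowerSeries ℂ) *
          (PowerSeries.C (r : ℂ) + PowerSeries.X) = 1 := by
        rw [← tU_val]
        exact Units.inv_mul _
      have h2 : PowerSeries.C (θ * ((r⁻¹ : ℂˣ) : ℂ)) * PowerSeries.C (r : ℂ) = PowerSeries.C θ := by
        rw [← map_mul, mul_assoc, Units.inv_mul, mul_one]
      linear_combination (PowerSeries.C (θ * ((r⁻¹ : ℂˣ) : ℂ))) * h1 -
        (((tU r)⁻¹ : (PowerSeries ℂ)ˣ) : PowerSeries ℂ) * h2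
  · refine ⟨PowerSeries.C θ, ?_, ?_⟩
    · rw [PowerSeries.constantCoeff_C]
      exact hθ
    · rw [neg_neg, zpow_one, zpow_one, tU_val, map_mul]
      ring

theorem matAct_smul {n m : ℕ} (a : PowerSeries ℂ) (B : Matrix (Fin n) (Fin n) (PowerSeries ℂ))
    (w : Fin n → Tr ℂ m) : matAct (Tr ℂ m) (a • B) w = a • matAct (Tr ℂ m) B w := by
  funext i
  show ∑ j, (a * B i j) • w j = a • ∑ j, B i j • w j
  rw [Finset.smul_sum]
  exact Finset.sum_congr rfl fun j _ => mul_smul _ _ _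

end Parity

/-- the parity count: `B` of finite order and odd size; there is `r` on the unit circle, not a root of
unity, such that the kernel of `D(t^ε B, ζ)` on `(ℂ[[X]]/X^m)^n`, `t = r + X`, has odd dimension for all `m ≥ 1` -/
theorem exists_r (z : ℂ) (hz : IsPrimitiveRoot z 5) {n : ℕ} (hn : Odd n) (B : Matrix (Fin n) (Fin n) ℂ)
    (hB : ∃ N : ℕ, 0 < N ∧ B ^ N = 1) (ε : ℤ) (hε : ε = 1 ∨ ε = -1) :
    ∃ r : ℂˣ, ‖(r : ℂ)‖ = 1 ∧ (∀ N : ℕ, 0 < N → (r : ℂ) ^ N ≠ 1) ∧ ∀ m : ℕ, 0 < m →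
      ∀ Bt Zt : Matrix (Fin n) (Fin n) (PowerSeries ℂ),
        Bt = (((tU r) ^ ε : (PowerSeries ℂ)ˣ) : PowerSeries ℂ) • B.map PowerSeries.C →
        Zt = (PowerSeries.C z : PowerSeries ℂ) • 1 →
        Odd (Module.finrank ℂ (LinearMap.ker (Dop (matAct (Tr ℂ m) Bt) (matAct (Tr ℂ m) Zt)))) := by
  classical
  obtain ⟨θ, hθn, hθ, hD⟩ := exists_theta z hz
  obtain ⟨N, hN, hBN⟩ := hB
  obtain ⟨ξ, hodd⟩ := Parity.exists_odd hn B hN hBN
  have hz0 : z ≠ 0 := hz.ne_zero (by norm_num)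
  have hz1 : z ≠ 1 := hz.ne_one (by norm_num)
  have hz5 : z ^ 5 = 1 := hz.pow_eq_one
  have hθ0 : θ ≠ 0 := by
    intro h
    rw [h, norm_zero] at hθn
    exact zero_ne_one hθn
  -- `ξ` is a root of unity
  have hξN : ξ ^ N = 1 := by
    obtain ⟨v, hv, hv0⟩ : ∃ v ∈ Module.End.eigenspace (Matrix.toLin' B) ξ, v ≠ 0 := by
      by_contra hcon
      push Not at hcon
      have h1 : Module.End.eigenspace (Matrix.toLin' B) ξ = ⊥ :=
        (Submodule.eq_bot_iff _).2 hcon
      rw [h1, finrank_bot] at hodd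
      exact Nat.not_odd_zero hodd
    rw [Module.End.mem_eigenspace_iff] at hv
    have h2 : ∀ j : ℕ, (Matrix.toLin' B ^ j) v = ξ ^ j • v := by
      intro j
      induction j with
      | zero => simp
      | succ j ih =>
        rw [pow_succ, Module.End.mul_apply, hv, map_smul, ih, smul_smul, ← pow_succ']
    have h3 := h2 N
    rw [← Matrix.toLin'_pow, hBN, Matrix.toLin'_one] at h3
    have h4 : (ξ ^ N - 1) • v = 0 := by
      rw [sub_smul, one_smul, ← h3]
      simp
    exact sub_eq_zero.1 ((smul_eq_zero.1 h4).resolve_right hv0)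
  have hξ0 : ξ ≠ 0 := by
    intro h0
    rw [h0, zero_pow hN.ne'] at hξN
    exact zero_ne_one hξN
  have hξn : ‖ξ‖ = 1 := Complex.norm_eq_one_of_pow_eq_one hξN hN.ne'
  -- the radius
  set q : ℂˣ := Units.mk0 (θ / ξ) (div_ne_zero hθ0 hξ0) with hq
  have hqn : ‖(q : ℂ)‖ = 1 := by
    rw [hq, Units.val_mk0, norm_div, hθn, hξn, div_one]
  have hqr : ∀ M : ℕ, 0 < M → (q : ℂ) ^ M ≠ 1 := by
    intro M hM h
    rw [hq, Units.val_mk0] at h
    refine hθ (M * N) (Nat.mul_pos hM hN) ?_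
    have h1 : θ ^ M = ξ ^ M := by
      rw [div_pow, div_eq_one_iff_eq (pow_ne_zero _ hξ0)] at h
      exact h
    rw [pow_mul, h1, ← pow_mul, mul_comm, pow_mul, hξN, one_pow]
  have hre : ∀ e : ℤ, (e = 1 ∨ e = -1) → (q ^ e) ^ e = q := by
    intro e he
    rcases he with rfl | rfl
    · simp
    · simp
  refine ⟨q ^ ε, ?_, ?_, ?_⟩
  · rcases hε with rfl | rfl
    · rw [zpow_one]; exact hqn
    · rw [zpow_neg_one, Units.val_inv_eq_inv_val, norm_inv, hqn, inv_one]
  · intro M hM h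
    rcases hε with rfl | rfl
    · rw [zpow_one] at h
      exact hqr M hM h
    · rw [zpow_neg_one, Units.val_inv_eq_inv_val, inv_pow, inv_eq_one] at h
      exact hqr M hM h
  intro m hm Bt Zt hBt hZt
  set r : ℂˣ := q ^ ε with hr
  have hrq : r ^ ε = q := hre ε hε
  set T : (PowerSeries ℂ)ˣ := (tU r) ^ ε with hT
  have hTi : ((T⁻¹ : (PowerSeries ℂ)ˣ) : PowerSeries ℂ) * (T : PowerSeries ℂ) = 1 := Units.inv_mul _
  have hTi' : (T : PowerSeries ℂ) * ((T⁻¹ : (PowerSeries ℂ)ˣ) : PowerSeries ℂ) = 1 := Units.mul_inv _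
  have hTc : PowerSeries.constantCoeff ((T⁻¹ : (PowerSeries ℂ)ˣ) : PowerSeries ℂ) =
      ((q⁻¹ : ℂˣ) : ℂ) := by
    have h1 := Parity.const_tU r (-ε)
    rw [zpow_neg, zpow_neg, hrq] at h1
    exact h1
  obtain ⟨u, hu, hau⟩ := Parity.exists_u hθ0 r ε hε
  rw [zpow_neg, zpow_neg, hrq] at hau
  have hξq : θ * ((q⁻¹ : ℂˣ) : ℂ) = ξ := by
    rw [Units.val_inv_eq_inv_val, hq, Units.val_mk0]
    field_simp
  rw [hξq] at hau
  set a : PowerSeries ℂ := PowerSeries.C θ * ((T⁻¹ : (PowerSeries ℂ)ˣ) : PowerSeries ℂ) with ha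
  have hac : PowerSeries.constantCoeff a = ξ := by
    rw [ha, map_mul, PowerSeries.constantCoeff_C, hTc, hξq]
  -- the operators
  have hP : ∀ w : Fin n → Tr ℂ m, matAct (Tr ℂ m) Bt w = (T : PowerSeries ℂ) • Parity.bet B m w := by
    intro w
    rw [hBt, Parity.matAct_smul]
    rfl
  have hZ : ∀ w : Fin n → Tr ℂ m, matAct (Tr ℂ m) Zt w = (PowerSeries.C z : PowerSeries ℂ) • w := by
    intro w
    rw [hZt, Parity.matAct_smul, matAct_one]
    rfl
  set c : ℂ := 1 / (z * θ) with hc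
  have i0 : 1 - z = (z ^ 2 - z) * (-θ * c) := by
    have := hD 0
    linear_combination this
  have i1 : -1 + z - z ^ 2 = (z ^ 2 - z) * (c - θ) := by
    have h0 := hD 0
    have h1 := hD 1
    linear_combination h1 - h0
  set P := matAct (Tr ℂ m) Bt with hPd
  set Z := matAct (Tr ℂ m) Zt with hZd
  have hDop : ∀ w, Dop P Z w = (PowerSeries.C (z ^ 2 - z) : PowerSeries ℂ) •
      (P (P w - (PowerSeries.C θ : PowerSeries ℂ) • w) +
        (PowerSeries.C c : PowerSeries ℂ) • (P w - (PowerSeries.C θ : PowerSeries ℂ) • w)) := by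
    intro w
    have e1 : Dop P Z w = w - P w - Z w + P (Z w) - P (P (Z w)) - P (Z (Z w)) +
      P (P (Z (Z w))) := rfl
    rw [e1, hZ (Z w), hZ w]
    simp only [map_smul, map_sub P, smul_smul]
    have j0 : (1 : PowerSeries ℂ) - PowerSeries.C z =
        PowerSeries.C (z ^ 2 - z) * (-(PowerSeries.C θ * PowerSeries.C c)) := by
      rw [← map_one (PowerSeries.C (R := ℂ)), ← map_sub, i0, ← map_mul, ← map_neg, ← map_mul]
      congr 1
      ring
    have j1 : (-1 : PowerSeries ℂ) + PowerSeries.C z - PowerSeries.C z * PowerSeries.C z =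
        PowerSeries.C (z ^ 2 - z) * (PowerSeries.C c - PowerSeries.C θ) := by
      have h1 := congrArg (PowerSeries.C (R := ℂ)) i1
      rw [map_mul, map_sub PowerSeries.C c θ] at h1
      rw [← h1]
      simp only [map_add, map_sub, map_neg, map_one, map_pow]
      ring
    have j2 : (PowerSeries.C (z ^ 2 - z) : PowerSeries ℂ) =
        PowerSeries.C z * PowerSeries.C z - PowerSeries.C z := by
      simp only [map_sub, map_pow]
      ring
    generalize P (P w) = B2
    generalize P w = B1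
    have e2 : w - B1 - (PowerSeries.C z : PowerSeries ℂ) • w + (PowerSeries.C z : PowerSeries ℂ) • B1 -
        (PowerSeries.C z : PowerSeries ℂ) • B2 -
        ((PowerSeries.C z : PowerSeries ℂ) * PowerSeries.C z) • B1 +
        ((PowerSeries.C z : PowerSeries ℂ) * PowerSeries.C z) • B2 =
        ((1 : PowerSeries ℂ) - PowerSeries.C z) • w +
        ((-1 : PowerSeries ℂ) + PowerSeries.C z - PowerSeries.C z * PowerSeries.C z) • B1 +
        ((PowerSeries.C z : PowerSeries ℂ) * PowerSeries.C z - PowerSeries.C z) • B2 := by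
      simp only [sub_smul, add_smul, neg_smul, one_smul]
      abel
    rw [e2, j0, j1, ← j2]
    generalize (PowerSeries.C (z ^ 2 - z) : PowerSeries ℂ) = D
    have e3 : (D * -((PowerSeries.C θ : PowerSeries ℂ) * PowerSeries.C c)) • w =
        -(D • ((PowerSeries.C c : PowerSeries ℂ) * PowerSeries.C θ) • w) := by
      rw [mul_neg, neg_smul, mul_smul, mul_comm (PowerSeries.C θ)]
    have e4 : (D * ((PowerSeries.C c : PowerSeries ℂ) - PowerSeries.C θ)) • B1 =
        D • (PowerSeries.C c : PowerSeries ℂ) • B1 - D • (PowerSeries.C θ : PowerSeries ℂ) • B1 := by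
      rw [mul_smul, sub_smul, smul_sub]
    rw [e3, e4]
    simp only [smul_add, smul_sub, mul_smul]
    abel
  have hz2 : z ^ 2 - z ≠ 0 := by
    have : z ^ 2 - z = z * (z - 1) := by ring
    rw [this]
    exact mul_ne_zero hz0 (sub_ne_zero.2 hz1)
  have hK : ∀ w, w ∈ LinearMap.ker (Dop P Z) ↔ (PowerSeries.X : PowerSeries ℂ) • w = 0 ∧
      Parity.bet B m w = (PowerSeries.C ξ : PowerSeries ℂ) • w := by
    intro w
    rw [LinearMap.mem_ker, hDop]
    constructor
    · intro h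
      have h1 := Parity.smul_inj (by rw [PowerSeries.constantCoeff_C]; exact hz2) h
      set y := P w - (PowerSeries.C θ : PowerSeries ℂ) • w with hy
      have h2 : Parity.bet B m y =
          (((T⁻¹ : (PowerSeries ℂ)ˣ) : PowerSeries ℂ) * (-PowerSeries.C c)) • y := by
        have h3 : (T : PowerSeries ℂ) • Parity.bet B m y = (-PowerSeries.C c : PowerSeries ℂ) • y := by
          rw [← hP y, neg_smul]
          exact eq_neg_of_add_eq_zero_left h1
        rw [mul_smul, ← h3, smul_smul, hTi, one_smul]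
      have hy0 : y = 0 := by
        refine Parity.bet_zero hBN h2 ?_
        rw [map_mul, map_neg, PowerSeries.constantCoeff_C, hTc]
        intro h4
        refine hθ (20 * N) (by omega) ?_
        have h5 : (((q⁻¹ : ℂˣ) : ℂ) * -c) = -ξ / (z * θ ^ 2) := by
          rw [Units.val_inv_eq_inv_val, hq, Units.val_mk0, hc]
          field_simp
        rw [h5] at h4
        have h6 : (-ξ / (z * θ ^ 2)) ^ (10 * N) = 1 := by
          rw [mul_comm 10 N, pow_mul, h4, one_pow]
        rw [div_pow, div_eq_one_iff_eq (pow_ne_zero _ (mul_ne_zero hz0 (pow_ne_zero _ hθ0)))] at h6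
        have h7 : (-ξ) ^ (10 * N) = 1 := by
          rw [mul_comm 10 N, pow_mul, neg_pow, hξN, mul_one, ← pow_mul, mul_comm N 10, pow_mul]
          norm_num
        have h8 : z ^ (10 * N) = 1 := by
          have : 10 * N = 5 * (2 * N) := by ring
          rw [this, pow_mul, hz5, one_pow]
        rw [h7, mul_pow, h8, one_mul, ← pow_mul] at h6
        have : 20 * N = 2 * (10 * N) := by ring
        rw [this, ← h6]
      have h9 : Parity.bet B m w = a • w := by
        have h10 : (T : PowerSeries ℂ) • Parity.bet B m w = (PowerSeries.C θ : PowerSeries ℂ) • w := by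
          rw [← hP w]
          exact sub_eq_zero.1 hy0
        rw [ha, mul_comm, mul_smul, ← h10, smul_smul, hTi, one_smul]
      have h11 := Parity.bet_eig hN hBN h9 hac hξN
      have h12 : (PowerSeries.X : PowerSeries ℂ) • w = 0 := by
        rw [hau, mul_smul] at h11
        exact Parity.smul_inj hu h11
      refine ⟨h12, ?_⟩
      rw [h9]
      rw [sub_smul] at h11
      exact sub_eq_zero.1 h11
    · rintro ⟨h1, h2⟩
      have h3 : a • w = (PowerSeries.C ξ : PowerSeries ℂ) • w := by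
        have : (a - PowerSeries.C ξ) • w = 0 := by rw [hau, mul_smul, h1, smul_zero]
        rw [sub_smul] at this
        exact sub_eq_zero.1 this
      have h4 : P w - (PowerSeries.C θ : PowerSeries ℂ) • w = 0 := by
        rw [hP, h2, ← h3, smul_smul, ha]
        have : (T : PowerSeries ℂ) * (PowerSeries.C θ * ((T⁻¹ : (PowerSeries ℂ)ˣ) : PowerSeries ℂ)) =
            PowerSeries.C θ := by
          linear_combination (PowerSeries.C θ) * hTi'
        rw [this, sub_self]
      rw [h4, map_zero, smul_zero, add_zero, smul_zero]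
  rw [Parity.finrank_of_ker hm B ξ _ hK]
  exact hodd

end Pool.Agent.Helper60.Geo
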