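import Pool.Agent.Helper60.Geo.HL
import Pool.Agent.Helper60.Alg.Mono

/-! Proof of the acyclicity chain of `Geo/Acyc.lean` (paper, (5.1) and (6.1)). -/

set_option autoImplicit false
set_option linter.unusedSectionVars false

namespace Pool.Agent.Helper60.Geo.AcycAux

open Set AS Alg

theorem lp_noeth (R : Type*) [CommRing R] [IsNoetherianRing R] : IsNoetherianRing (LaurentPolynomial R) :=
  IsLocalization.isNoetherianRing (Submonoid.powers (Polynomial.X : Polynomial R)) _ inferInstance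

theorem flat_field (A K : Type*) [CommRing A] [IsDomain A] [Field K] [Algebra A K]
    (h : Function.Injective (algebraMap A K)) : Module.Flat A K := by
  let F := FractionRing A
  let _ : Algebra F K := (IsFractionRing.lift (K := F) h).toAlgebra
  have : IsScalarTower A F K := IsScalarTower.of_algebraMap_eq fun a => by
    show _ = IsFractionRing.lift h (algebraMap A F a)
    rw [IsFractionRing.lift_algebraMap]
  have : Module.Flat A F := IsLocalization.flat F (nonZeroDivisors A)
  exact Module.Flat.trans A F K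

theorem lp_eval_inj {R K : Type*} [CommRing R] [Field K] [Algebra R K] (τ : Kˣ)
    (hτ : Transcendental R (τ : K)) :
    Function.Injective (LaurentPolynomial.eval₂ (algebraMap R K) τ) := by
  rw [injective_iff_map_eq_zero]
  intro f hf
  obtain ⟨n, p, hp⟩ := LaurentPolynomial.exists_T_pow f
  have h1 : Polynomial.aeval (τ : K) p = 0 := by
    rw [Polynomial.aeval_def, ← LaurentPolynomial.eval₂_toLaurent, hp, map_mul, hf, zero_mul]
  have h2 : p = 0 := (transcendental_iff.1 hτ) p h1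
  rw [h2, map_zero] at hp
  exact (LaurentPolynomial.isUnit_T (R := R) n).mul_left_eq_zero.1 hp.symm


instance fact5 : Fact (Nat.Prime 5) := ⟨by norm_num⟩

theorem X_sub_O (D : Tube) : D.X ⊆ D.O := D.Xar_subset_O (by norm_num)

theorem CR_X' (D : Tube) : CR D.X := D.CR_X
theorem CR_E {D : Tube} {E : Set (ℂ × ℂ)} (hE : E = D.EJ ∨ E = D.EK) : CR E := by
  rcases hE with rfl | rfl
  exacts [D.CR_EJ, D.CR_EK]
theorem E_sub {D : Tube} {E : Set (ℂ × ℂ)} (hE : E = D.EJ ∨ E = D.EK) : E ⊆ D.X := by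
  rcases hE with rfl | rfl
  exacts [D.EJ_subset, D.EK_subset]
theorem acyclic_E {D : Tube} {E : Set (ℂ × ℂ)} (hE : E = D.EJ ∨ E = D.EK)
    {k V : Type*} [CommRing k] [AddCommGroup V] [Module k V] (q : ℕ) :
    HV (cT : ℂ × ℂ → ℂ × ℂ → (V →ₗ[k] V)) D.X E q := by
  rcases hE with rfl | rfl
  exacts [D.acyclic_EJ q, D.acyclic_EK q]

/-- step 1: `A = F₅[t^{±1}]`, the system `t^{T₀}` has torsion cohomology killed by some `s ≡ 1 mod (t-1)` -/
theorem chain1' {D : Tube} {T₀ : ℂ × ℂ → ℂ × ℂ → Multiplicative ℤ} (hT : GFlat T₀ D.O) {E : Set (ℂ × ℂ)}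
    (hE : E = D.EJ ∨ E = D.EK)
    (ρ : Multiplicative ℤ →* Matrix (Fin 1) (Fin 1) (LaurentPolynomial (ZMod 5)))
    (hρ : ∀ n : ℤ, ρ (Multiplicative.ofAdd n) = fun _ _ => LaurentPolynomial.T n) (q : ℕ) :
    ∃ s : LaurentPolynomial (ZMod 5), s ≠ 0 ∧ KV (cs T₀ ρ (LaurentPolynomial (ZMod 5))) D.X E q s := by
  have := lp_noeth (ZMod 5)
  have hTX : GFlat T₀ D.X := hT.mono (X_sub_O D)
  let ev : LaurentPolynomial (ZMod 5) →+* ZMod 5 := LaurentPolynomial.eval₂ (RingHom.id _) 1
  let π : LaurentPolynomial (ZMod 5) := LaurentPolynomial.T 1 - 1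
  have hevT : ∀ n : ℤ, ev (LaurentPolynomial.T n) = 1 := by
    intro n
    show LaurentPolynomial.eval₂ (RingHom.id _) 1 (LaurentPolynomial.T n) = 1
    rw [LaurentPolynomial.eval₂_T, one_zpow, Units.val_one]
  have hπ0 : π ≠ 0 := by
    intro h
    have h2 := congrArg (LaurentPolynomial.eval₂ (RingHom.id (ZMod 5)) (Units.mk0 2 (by decide))) h
    have h3 : LaurentPolynomial.eval₂ (RingHom.id (ZMod 5)) (Units.mk0 2 (by decide)) π = 2 - 1 := by
      show LaurentPolynomial.eval₂ _ _ (LaurentPolynomial.T 1 - 1) = _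
      rw [map_sub, map_one, LaurentPolynomial.eval₂_T, zpow_one, Units.val_mk0]
    rw [h3, map_zero] at h2
    revert h2
    decide
  have hdvd : ∀ n : ℤ, π ∣ LaurentPolynomial.T n - 1 := by
    intro n
    induction n using Int.induction_on with
    | zero => simp
    | succ i ih =>
      rw [LaurentPolynomial.T_add]
      have : (LaurentPolynomial.T i * LaurentPolynomial.T 1 - 1 : LaurentPolynomial (ZMod 5)) =
          LaurentPolynomial.T i * π + (LaurentPolynomial.T i - 1) := by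
        show _ = LaurentPolynomial.T i * (LaurentPolynomial.T 1 - 1) + (LaurentPolynomial.T i - 1)
        ring
      rw [this]
      exact dvd_add (dvd_mul_left _ _) ih
    | pred i ih =>
      have : (LaurentPolynomial.T (-i - 1) - 1 : LaurentPolynomial (ZMod 5)) =
          (LaurentPolynomial.T (-i) - 1) - LaurentPolynomial.T (-i - 1) * π := by
        show _ = _ - LaurentPolynomial.T (-i - 1) * (LaurentPolynomial.T 1 - 1)
        rw [mul_sub, ← LaurentPolynomial.T_add, mul_one, sub_add_cancel]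
        ring
      rw [this]
      exact dvd_sub ih (dvd_mul_left _ _)
  -- modulo `π` the system is constant
  have hc : cs T₀ ρ (LaurentPolynomial (ZMod 5) ⧸ Ideal.span {π}) = cT := by
    funext x y
    apply LinearMap.ext
    intro v
    funext i
    show ∑ j, ρ (T₀ x y) i j • v j = v i
    rw [Fin.sum_univ_one]
    have h1 : ρ (T₀ x y) i 0 = LaurentPolynomial.T (Multiplicative.toAdd (T₀ x y)) := by
      have := hρ (Multiplicative.toAdd (T₀ x y))
      rw [ofAdd_toAdd] at this
      rw [this]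
    rw [h1, Subsingleton.elim i 0]
    obtain ⟨c, hc⟩ := hdvd (Multiplicative.toAdd (T₀ x y))
    have h2 : (LaurentPolynomial.T (Multiplicative.toAdd (T₀ x y)) : LaurentPolynomial (ZMod 5)) = 1 + π * c := by
      rw [← hc]; ring
    rw [h2, add_smul, one_smul]
    obtain ⟨w, hw⟩ := Ideal.Quotient.mk_surjective (v 0)
    rw [← hw]
    have h3 : (π * c) • (Ideal.Quotient.mk (Ideal.span {π}) w) = 0 := by
      rw [← Ideal.Quotient.mk_eq_mk, ← Submodule.Quotient.mk_smul]
      refine (Submodule.Quotient.mk_eq_zero _).2 ?_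
      exact Ideal.mul_mem_right _ _ (Ideal.mul_mem_right _ _ (Ideal.mem_span_singleton_self _))
    rw [h3, add_zero]
  have hfg : Module.Finite (LaurentPolynomial (ZMod 5)) (H (cs T₀ ρ (LaurentPolynomial (ZMod 5))) D.X E q) :=
    FG_iff.1 (FG_CR_rel D.CR_X (CR_E hE) (E_sub hE) (cs_flat hTX ρ) q)
  obtain ⟨N, a, hk⟩ := nakayama hTX (E_sub hE) ρ π 1 (fun a ha => by
    rcases mul_eq_zero.1 ha with h | h
    exacts [absurd h hπ0, h]) q hfg (by
      intro c hc'
      rw [hc] at hc' ⊢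
      rw [one_smul]
      exact acyclic_E hE q hc')
  refine ⟨1 ^ N + π * a, ?_, hk⟩
  intro h0
  have h1 := congrArg ev h0
  rw [map_add, map_pow, map_one, one_pow, map_mul, map_zero] at h1
  have h2 : ev π = 0 := by
    show ev (LaurentPolynomial.T 1 - 1) = 0
    rw [map_sub, hevT, map_one, sub_self]
  rw [h2, zero_mul, add_zero] at h1
  exact one_ne_zero h1


/-- the tautological rank one representation over the Laurent polynomials -/
noncomputable def rho1 (R : Type*) [CommRing R] :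
    Multiplicative ℤ →* Matrix (Fin 1) (Fin 1) (LaurentPolynomial R) where
  toFun g := fun _ _ => LaurentPolynomial.T (Multiplicative.toAdd g)
  map_one' := by
    funext i j
    rw [toAdd_one, LaurentPolynomial.T_zero, Subsingleton.elim i j, Matrix.one_apply_eq]
  map_mul' g h := by
    funext i j
    refine Eq.trans ?_ (Matrix.mul_apply).symm
    rw [Fin.sum_univ_one, toAdd_mul, LaurentPolynomial.T_add]

theorem smul_bij {A K : Type*} [CommRing A] [Field K] [Algebra A K]
    (h : Function.Injective (algebraMap A K)) {s : A} (hs : s ≠ 0) :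
    Function.Bijective (fun m : K => s • m) := by
  have h1 : algebraMap A K s ≠ 0 := by
    intro h0
    exact hs (h (by rw [h0, map_zero]))
  have h2 : (fun m : K => s • m) = fun m => algebraMap A K s * m := by
    funext m; exact Algebra.smul_def _ _
  rw [h2]
  exact mulLeft_bijective₀ _ h1

/-- step 2: rank one systems over a field `K` of characteristic 5 with transcendental `τ` -/
theorem chain2' {D : Tube} {T₀ : ℂ × ℂ → ℂ × ℂ → Multiplicative ℤ} (hT : GFlat T₀ D.O) {E : Set (ℂ × ℂ)}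
    (hE : E = D.EJ ∨ E = D.EK) {K : Type*} [Field K] [Algebra (ZMod 5) K] (τ : Kˣ)
    (hτ : Transcendental (ZMod 5) (τ : K)) (ρ : Multiplicative ℤ →* Matrix (Fin 1) (Fin 1) K)
    (hρ : ∀ n : ℤ, ρ (Multiplicative.ofAdd n) = fun _ _ => ((τ ^ n : Kˣ) : K)) (q : ℕ) :
    HV (cs T₀ ρ K) D.X E q := by
  have hTX : GFlat T₀ D.X := hT.mono (X_sub_O D)
  let φ : LaurentPolynomial (ZMod 5) →+* K := LaurentPolynomial.eval₂ (algebraMap (ZMod 5) K) τ
  have hφ : Function.Injective φ := lp_eval_inj τ hτ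
  obtain ⟨s, hs, hk⟩ := chain1' hT hE (rho1 (ZMod 5)) (fun n => rfl) q
  let _ : Algebra (LaurentPolynomial (ZMod 5)) K := φ.toAlgebra
  have : Module.Flat (LaurentPolynomial (ZMod 5)) K := flat_field _ _ hφ
  have h1 := flat_HV D.CR_X.1 (CR_E hE).1.isClosed (E_sub hE) hTX (rho1 (ZMod 5)) K s (smul_bij hφ hs) q hk
  refine (HV_cs_map φ (rho1 (ZMod 5)) ρ ?_ K (fun a m => (Algebra.smul_def a m).symm) q).1 h1
  intro g
  have := hρ (Multiplicative.toAdd g)
  rw [ofAdd_toAdd] at this
  rw [this]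
  ext i j
  rw [Matrix.map_apply]
  exact (LaurentPolynomial.eval₂_T _ _ _).symm

/-- a finite 5-group acting linearly in characteristic 5 has a nonzero fixed vector -/
theorem exists_fixed {P k V : Type*} [Group P] [Finite P] (hp : IsPGroup 5 P) [Field k] [CharP k 5]
    [AddCommGroup V] [Module k V] [Nontrivial V] (ρ : P →* (V →ₗ[k] V)) :
    ∃ v : V, v ≠ 0 ∧ ∀ p, ρ p v = v := by
  obtain ⟨v₀, hv₀⟩ := exists_ne (0 : V)
  have h5 : ∀ x : V, (5:ℕ) • x = 0 := by
    intro x
    rw [← Nat.cast_smul_eq_nsmul k, CharP.cast_eq_zero k 5, zero_smul]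
  let _ : Module (ZMod 5) V := AddCommGroup.zmodModule h5
  let M : Submodule (ZMod 5) V := Submodule.span (ZMod 5) (range fun p : P => ρ p v₀)
  have hfin : Module.Finite (ZMod 5) M := Module.Finite.span_of_finite _ (finite_range _)
  have hfM : Finite M := Module.finite_of_finite (ZMod 5)
  have hM : ∀ (p : P), ∀ m ∈ M, ρ p m ∈ M := by
    intro p m hm
    induction hm using Submodule.span_induction with
    | mem x hx =>
      obtain ⟨p', rfl⟩ := hx
      refine Submodule.subset_span ⟨p * p', ?_⟩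
      show ρ (p * p') v₀ = _
      rw [map_mul]; rfl
    | zero => rw [map_zero]; exact M.zero_mem
    | add x y _ _ hx hy => rw [map_add]; exact M.add_mem hx hy
    | smul a x _ hx => rw [ZMod.map_smul]; exact M.smul_mem _ hx
  have hv₀M : v₀ ∈ M := Submodule.subset_span ⟨1, by simp⟩
  let _ : MulAction P M :=
    { smul := fun p m => ⟨ρ p m, hM p m m.2⟩
      one_smul := fun m => by
        apply Subtype.ext
        show ρ 1 (m : V) = m
        rw [map_one]; rfl
      mul_smul := fun p p' m => by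
        apply Subtype.ext
        show ρ (p * p') (m : V) = ρ p (ρ p' m)
        rw [map_mul]; rfl }
  have hcard : 5 ∣ Nat.card M := by
    have h1 : addOrderOf (⟨v₀, hv₀M⟩ : M) = 5 := by
      apply addOrderOf_eq_prime
      · apply Subtype.ext; exact h5 v₀
      · intro h
        exact hv₀ (congrArg Subtype.val h)
    have h2 := addOrderOf_dvd_natCard (⟨v₀, hv₀M⟩ : M)
    rwa [h1] at h2
  obtain ⟨b, hb, hb0⟩ := hp.exists_fixed_point_of_prime_dvd_card_of_fixed_point M hcard (a := 0) (by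
    intro p
    apply Subtype.ext
    show ρ p 0 = 0
    rw [map_zero])
  refine ⟨b, ?_, fun p => congrArg Subtype.val (hb p)⟩
  intro h
  exact hb0 (Subtype.ext h.symm)

/-- a common eigenvector -/
theorem exists_eig {G k V : Type*} [Group G] (deg : G →* Multiplicative ℤ) (hf : Finite deg.ker)
    (hp : IsPGroup 5 deg.ker) [Field k] [IsAlgClosed k] [CharP k 5]
    [AddCommGroup V] [Module k V] [FiniteDimensional k V] [Nontrivial V] (ρ : G →* (V →ₗ[k] V)) :
    ∃ v : V, v ≠ 0 ∧ ∃ c : kˣ, ∀ g, ρ g v = ((c ^ (Multiplicative.toAdd (deg g)) : kˣ) : k) • v := by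
  let F : Submodule k V :=
    { carrier := {v | ∀ p ∈ deg.ker, ρ p v = v}
      add_mem' := fun {a b} ha hb p hp => by rw [map_add, ha p hp, hb p hp]
      zero_mem' := fun p _ => map_zero _
      smul_mem' := fun a v hv p hp => by rw [map_smul, hv p hp] }
  have hmul : ∀ g h v, ρ (g * h) v = ρ g (ρ h v) := fun g h v => by rw [map_mul]; rfl
  have hF : ∀ g, ∀ v ∈ F, ρ g v ∈ F := by
    intro g v hv p hp
    rw [← hmul]
    have : p * g = g * (g⁻¹ * p * g) := by group
    rw [this, hmul, hv (g⁻¹ * p * g)]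
    have := (inferInstance : deg.ker.Normal).conj_mem p hp g⁻¹
    rwa [inv_inv] at this
  have hFn : Nontrivial F := by
    obtain ⟨v, hv, hv'⟩ := exists_fixed hp (ρ.comp deg.ker.subtype)
    exact ⟨⟨⟨v, fun p hp => hv' ⟨p, hp⟩⟩, 0, fun h => hv (congrArg Subtype.val h)⟩⟩
  -- a generator of the image
  have hcyc : IsCyclic deg.range := inferInstance
  obtain ⟨⟨x, hx⟩, hgen⟩ := hcyc.exists_generator
  obtain ⟨g₁, hg₁⟩ := hx
  obtain ⟨μ, hμ⟩ := Module.End.exists_eigenvalue ((ρ g₁).restrict (hF g₁))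
  obtain ⟨⟨v, hvF⟩, hv⟩ := hμ.exists_hasEigenvector
  have hv0 : v ≠ 0 := fun h => hv.2 (Subtype.ext h)
  have hv1 : ρ g₁ v = μ • v := congrArg Subtype.val hv.apply_eq_smul
  have hμ0 : μ ≠ 0 := by
    rintro rfl
    rw [zero_smul] at hv1
    apply hv0
    have : ρ (g₁⁻¹ * g₁) v = 0 := by rw [hmul, hv1, map_zero]
    rwa [inv_mul_cancel, map_one] at this
  set d : ℤ := Multiplicative.toAdd (deg g₁) with hd
  obtain ⟨c, hc⟩ : ∃ c : kˣ, ρ g₁ v = ((c ^ d : kˣ) : k) • v := by
    by_cases h0 : d = 0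
    · refine ⟨1, ?_⟩
      have : g₁ ∈ deg.ker := by
        rw [MonoidHom.mem_ker]
        exact toAdd_eq_zero.1 h0
      rw [one_zpow, Units.val_one, one_smul]
      exact hvF g₁ this
    · obtain ⟨z, hz⟩ := IsAlgClosed.exists_pow_nat_eq μ (Int.natAbs_pos.2 h0)
      have hz0 : z ≠ 0 := by
        rintro rfl
        rw [zero_pow (Int.natAbs_ne_zero.2 h0)] at hz
        exact hμ0 hz.symm
      rw [hv1]
      rcases Int.natAbs_eq d with h | h
      · refine ⟨Units.mk0 z hz0, ?_⟩
        rw [h, zpow_natCast, Units.val_pow_eq_pow_val, Units.val_mk0, hz]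
      · refine ⟨(Units.mk0 z hz0)⁻¹, ?_⟩
        rw [h, zpow_neg, inv_zpow, inv_inv, zpow_natCast, Units.val_pow_eq_pow_val, Units.val_mk0, hz]
  refine ⟨v, hv0, c, ?_⟩
  let S : Subgroup G :=
    { carrier := {g | ρ g v = ((c ^ (Multiplicative.toAdd (deg g)) : kˣ) : k) • v}
      mul_mem' := fun {a b} ha hb => by
        show ρ (a * b) v = _
        rw [hmul, hb, map_smul, ha, smul_smul, map_mul, toAdd_mul, zpow_add, Units.val_mul, mul_comm]
      one_mem' := by
        show ρ 1 v = _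
        rw [map_one, map_one, toAdd_one, zpow_zero, Units.val_one, one_smul]; rfl
      inv_mem' := fun {a} ha => by
        show ρ a⁻¹ v = _
        have h1 : ρ (a⁻¹ * a) v = v := by rw [inv_mul_cancel, map_one]; rfl
        rw [hmul, ha, map_smul] at h1
        rw [map_inv deg a, toAdd_inv, zpow_neg]
        conv_rhs => rw [← h1]
        rw [smul_smul, Units.inv_mul, one_smul] }
  have hker : ∀ g ∈ deg.ker, g ∈ S := by
    intro g hg
    show ρ g v = _
    rw [hvF g hg, MonoidHom.mem_ker.1 hg, toAdd_one, zpow_zero, Units.val_one, one_smul]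
  have h1S : g₁ ∈ S := hc
  intro g
  obtain ⟨j, hj⟩ := Subgroup.mem_zpowers_iff.1 (hgen ⟨deg g, ⟨g, rfl⟩⟩)
  have hj' : x ^ j = deg g := congrArg Subtype.val hj
  have h2 : (g₁ ^ j)⁻¹ * g ∈ deg.ker := by
    rw [MonoidHom.mem_ker, map_mul, map_inv, map_zpow, hg₁, hj', inv_mul_cancel]
  have h3 : g ∈ S := by
    have := S.mul_mem (S.zpow_mem h1S j) (hker _ h2)
    rwa [mul_inv_cancel_left] at this
  exact h3


open TensorProduct

section chain3
variable {G k K V : Type*} [Group G] [Field k] [Field K] [Algebra k K] [AddCommGroup V] [Module k V]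

/-- the twisted base change of a representation -/
noncomputable def repT (deg : G →* Multiplicative ℤ) (τ : Kˣ) (ρ : G →* (V →ₗ[k] V)) :
    G →* (K ⊗[k] V →ₗ[K] K ⊗[k] V) where
  toFun g := ((τ ^ (Multiplicative.toAdd (deg g)) : Kˣ) : K) • (ρ g).baseChange K
  map_one' := by
    rw [deg.map_one, ρ.map_one, toAdd_one, zpow_zero, Units.val_one, one_smul]
    exact LinearMap.baseChange_id
  map_mul' g h := by
    rw [deg.map_mul, ρ.map_mul, toAdd_mul, zpow_add, Units.val_mul]
    have : (ρ g * ρ h).baseChange K = (ρ g).baseChange K * (ρ h).baseChange K :=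
      LinearMap.baseChange_comp _ _
    rw [this, smul_mul_smul_comm]

theorem repT_tmul (deg : G →* Multiplicative ℤ) (τ : Kˣ) (ρ : G →* (V →ₗ[k] V)) (g : G) (a : K) (v : V) :
    repT deg τ ρ g (a ⊗ₜ[k] v) = (((τ ^ (Multiplicative.toAdd (deg g)) : Kˣ) : K) * a) ⊗ₜ[k] (ρ g v) := by
  show ((τ ^ (Multiplicative.toAdd (deg g)) : Kˣ) : K) • (ρ g).baseChange K (a ⊗ₜ[k] v) = _
  rw [LinearMap.baseChange_tmul, TensorProduct.smul_tmul', smul_eq_mul]

/-- rank one representation over a field -/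
noncomputable def rho1K (τ : Kˣ) : Multiplicative ℤ →* Matrix (Fin 1) (Fin 1) K where
  toFun g := fun _ _ => ((τ ^ (Multiplicative.toAdd g) : Kˣ) : K)
  map_one' := by
    funext i j
    rw [toAdd_one, zpow_zero, Units.val_one, Subsingleton.elim i j, Matrix.one_apply_eq]
  map_mul' g h := by
    funext i j
    refine Eq.trans ?_ (Matrix.mul_apply).symm
    rw [Fin.sum_univ_one, toAdd_mul, zpow_add, Units.val_mul]

theorem transc_mul (τ : Kˣ) (hτ : Transcendental k (τ : K)) (c : kˣ) :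
    Transcendental k ((Units.map (algebraMap k K : k →* K) c * τ : Kˣ) : K) := by
  intro h
  apply hτ
  have h1 : (τ : K) = algebraMap k K ((c⁻¹ : kˣ) : k) * ((Units.map (algebraMap k K : k →* K) c * τ : Kˣ) : K) := by
    rw [Units.val_mul, Units.coe_map, MonoidHom.coe_coe, ← mul_assoc, ← map_mul, Units.inv_mul, map_one, one_mul]
  rw [h1]
  exact (isAlgebraic_algebraMap _).mul h

theorem tmul_ne {v : V} (hv : v ≠ 0) : (1 : K) ⊗ₜ[k] v ≠ 0 := by
  obtain ⟨f, hf⟩ : ∃ f : Module.Dual k V, f v ≠ 0 := by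
    by_contra h
    push Not at h
    exact hv ((Module.forall_dual_apply_eq_zero_iff k v).1 h)
  intro h
  have h1 := congrArg (TensorProduct.rid k K) (congrArg (LinearMap.lTensor K f) h)
  rw [LinearMap.lTensor_tmul, map_zero, map_zero, TensorProduct.rid_tmul, Algebra.smul_def, mul_one] at h1
  exact hf ((algebraMap k K).injective (by rw [h1, map_zero]))

theorem HV_subsing {Ω k' W : Type*} [PseudoMetricSpace Ω] [CommRing k'] [AddCommGroup W] [Module k' W]
    [Subsingleton W] (T : Ω → Ω → (W →ₗ[k'] W)) (S S' : Set Ω) (q : ℕ) : HV T S S' q := by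
  intro c _
  have : c = 0 := by funext l; exact Subsingleton.elim _ _
  rw [this]
  exact Submodule.zero_mem _

theorem transc_zmod [CharP k 5] [Algebra (ZMod 5) K] {x : K} (h : Transcendental k x) :
    Transcendental (ZMod 5) x := by
  let _ : Algebra (ZMod 5) k := ZMod.algebra k 5
  have : IsScalarTower (ZMod 5) k K := IsScalarTower.of_algebraMap_eq' (RingHom.ext_zmod _ _)
  intro ha
  exact h (ha.tower_top k)

theorem chain3_aux {D : Tube} (deg : G →* Multiplicative ℤ) (hf : Finite deg.ker)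
    (hp : IsPGroup 5 deg.ker) {T : ℂ × ℂ → ℂ × ℂ → G}
    (hT : GFlat T D.O) {E : Set (ℂ × ℂ)} (hE : E = D.EJ ∨ E = D.EK)
    [IsAlgClosed k] [CharP k 5] (τ : Kˣ) (hτ : Transcendental k (τ : K)) (q : ℕ) (n : ℕ) :
    ∀ (V : Type*) [AddCommGroup V] [Module k V] [FiniteDimensional k V] (ρ : G →* (V →ₗ[k] V)),
      Module.finrank k V = n → HV (sys T (repT deg τ ρ)) D.X E q := by
  have hTX : GFlat T D.X := hT.mono (X_sub_O D)
  induction n with
  | zero =>
    intro V _ _ _ ρ hn
    have : Subsingleton V := Module.finrank_zero_iff.1 hn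
    have : Subsingleton (K ⊗[k] V) := by
      refine ⟨fun a b => ?_⟩
      have h0 : ∀ z : K ⊗[k] V, z = 0 := by
        intro z
        induction z using TensorProduct.induction_on with
        | zero => rfl
        | tmul a v => rw [Subsingleton.elim v 0, TensorProduct.tmul_zero]
        | add x y hx hy => rw [hx, hy, add_zero]
      rw [h0 a, h0 b]
    exact HV_subsing _ _ _ _
  | succ n ih =>
    intro V _ _ _ ρ hn
    have hnt : Nontrivial V := Module.nontrivial_of_finrank_pos (R := k) (by omega)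
    obtain ⟨v, hv, c, hc⟩ := exists_eig deg hf hp ρ
    let V' : Submodule k V := Submodule.span k {v}
    have hV' : ∀ g, V' ≤ V'.comap (ρ g) := by
      intro g x hx
      obtain ⟨a, rfl⟩ := Submodule.mem_span_singleton.1 hx
      rw [Submodule.mem_comap, map_smul, hc]
      exact V'.smul_mem _ (V'.smul_mem _ (Submodule.mem_span_singleton_self v))
    let ρ' : G →* ((V ⧸ V') →ₗ[k] (V ⧸ V')) :=
      { toFun := fun g => V'.mapQ V' (ρ g) (hV' g)
        map_one' := by
          apply LinearMap.ext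
          intro x
          obtain ⟨x, rfl⟩ := V'.mkQ_surjective x
          rw [Submodule.mkQ_apply, Submodule.mapQ_apply, map_one]; rfl
        map_mul' := fun g h => by
          apply LinearMap.ext
          intro x
          obtain ⟨x, rfl⟩ := V'.mkQ_surjective x
          rw [Submodule.mkQ_apply, Submodule.mapQ_apply, map_mul]; rfl }
    have hfr : Module.finrank k (V ⧸ V') = n := by
      have h1 := V'.finrank_quotient_add_finrank
      rw [finrank_span_singleton hv] at h1
      omega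
    have h2 := ih (V ⧸ V') ρ' hfr
    let τ' : Kˣ := Units.map (algebraMap k K : k →* K) c * τ
    have hCK : CharP K 5 := charP_of_injective_algebraMap (algebraMap k K).injective 5
    let _ : Algebra (ZMod 5) K := ZMod.algebra K 5
    have h1 : HV (cs (fun x y => deg (T x y)) (rho1K τ') K) D.X E q :=
      chain2' (GFlat.map deg hT) hE τ' (transc_zmod (transc_mul τ hτ c)) (rho1K τ') (fun n => rfl) q
    let i : (Fin 1 → K) →ₗ[K] K ⊗[k] V :=
      (LinearMap.toSpanSingleton K (K ⊗[k] V) ((1 : K) ⊗ₜ[k] v)) ∘ₗ (LinearMap.proj 0)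
    have hi0 : ∀ f, i f = (f 0) ⊗ₜ[k] v := by
      intro f
      show (f 0) • ((1 : K) ⊗ₜ[k] v) = _
      rw [TensorProduct.smul_tmul', smul_eq_mul, mul_one]
    let p : K ⊗[k] V →ₗ[K] K ⊗[k] (V ⧸ V') := V'.mkQ.baseChange K
    have hp0 : ∀ a x, p (a ⊗ₜ[k] x) = a ⊗ₜ[k] (V'.mkQ x) := fun a x => LinearMap.baseChange_tmul _ _ _
    refine HV_ext (T := cs (fun x y => deg (T x y)) (rho1K τ') K) (TW := sys T (repT deg τ ρ))
      (TU := sys T (repT deg τ ρ')) i p ?_ ?_ ?_ ?_ ?_ (hTX.sys _) (E_sub hE) h1 h2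
    · intro x y
      apply LinearMap.ext
      intro f
      show repT deg τ ρ (T x y) (i f) = i (matAct K (rho1K τ' (deg (T x y))) f)
      rw [hi0, hi0, repT_tmul, hc, TensorProduct.tmul_smul, TensorProduct.smul_tmul']
      congr 1
      show _ = ∑ j, rho1K τ' (deg (T x y)) 0 j • f j
      rw [Fin.sum_univ_one]
      show _ = ((τ' ^ (Multiplicative.toAdd (deg (T x y))) : Kˣ) : K) * f 0
      rw [Algebra.smul_def, ← mul_assoc]
      congr 1
      rw [show τ' = Units.map (algebraMap k K : k →* K) c * τ from rfl, mul_zpow, Units.val_mul, ← map_zpow]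
      rfl
    · intro x y
      apply TensorProduct.AlgebraTensorModule.ext
      intro a w
      show repT deg τ ρ' (T x y) (p (a ⊗ₜ[k] w)) = p (repT deg τ ρ (T x y) (a ⊗ₜ[k] w))
      rw [hp0, repT_tmul, repT_tmul, hp0]
      rfl
    · rw [injective_iff_map_eq_zero]
      intro f hf0
      have h3 : (f 0) • ((1 : K) ⊗ₜ[k] v) = 0 := hf0
      rcases smul_eq_zero.1 h3 with h | h
      · funext j; rw [Subsingleton.elim j 0]; exact h
      · exact absurd h (tmul_ne hv)
    · exact LinearMap.lTensor_surjective K V'.mkQ_surjective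
    · have hex : Function.Exact (LinearMap.lTensor K V'.subtype) (LinearMap.lTensor K V'.mkQ) :=
        lTensor_exact K (LinearMap.exact_subtype_mkQ V') V'.mkQ_surjective
      intro z
      constructor
      · intro hz
        obtain ⟨y, rfl⟩ := (hex z).1 hz
        clear hz
        induction y using TensorProduct.induction_on with
        | zero => exact ⟨0, by rw [map_zero, map_zero]⟩
        | tmul a w =>
          obtain ⟨b, hb⟩ := Submodule.mem_span_singleton.1 w.2
          refine ⟨fun _ => b • a, ?_⟩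
          rw [hi0, LinearMap.lTensor_tmul, Submodule.subtype_apply, ← hb, TensorProduct.tmul_smul,
            TensorProduct.smul_tmul']
        | add x y hx hy =>
          obtain ⟨x', hx'⟩ := hx
          obtain ⟨y', hy'⟩ := hy
          exact ⟨x' + y', by rw [map_add, map_add, hx', hy']⟩
      · rintro ⟨f, rfl⟩
        rw [hi0, hp0]
        have : V'.mkQ v = 0 := (Submodule.Quotient.mk_eq_zero _).2 (Submodule.mem_span_singleton_self v)
        rw [this, TensorProduct.tmul_zero]

end chain3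


section chain3'
variable {G k K : Type*} [Group G] [Field k] [Field K] [Algebra k K]

theorem chain3' {D : Tube} (deg : G →* Multiplicative ℤ) (hf : Finite deg.ker)
    (hp : IsPGroup 5 deg.ker) {T : ℂ × ℂ → ℂ × ℂ → G}
    (hT : GFlat T D.O) {E : Set (ℂ × ℂ)} (hE : E = D.EJ ∨ E = D.EK)
    [IsAlgClosed k] [CharP k 5] (τ : Kˣ) (hτ : Transcendental k (τ : K)) {n : ℕ}
    (ρ₀ : G →* Matrix (Fin n) (Fin n) k) (ρ : G →* Matrix (Fin n) (Fin n) K)
    (hρ : ∀ g, ρ g = ((τ ^ (Multiplicative.toAdd (deg g)) : Kˣ) : K) • (ρ₀ g).map (algebraMap k K)) (q : ℕ) :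
    HV (cs T ρ K) D.X E q := by
  have h1 := chain3_aux deg hf hp hT hE τ hτ q n (Fin n → k) (repM k ρ₀) (by simp)
  let e : K ⊗[k] (Fin n → k) ≃ₗ[K] (Fin n → K) := TensorProduct.piScalarRight k K K (Fin n)
  have he : ∀ x y, cs T ρ K x y ∘ₗ (e : K ⊗[k] (Fin n → k) →ₗ[K] (Fin n → K)) =
      (e : K ⊗[k] (Fin n → k) →ₗ[K] (Fin n → K)) ∘ₗ sys T (repT deg τ (repM k ρ₀)) x y := by
    intro x y
    apply TensorProduct.AlgebraTensorModule.ext
    intro a f
    show matAct K (ρ (T x y)) (e (a ⊗ₜ[k] f)) = e (repT deg τ (repM k ρ₀) (T x y) (a ⊗ₜ[k] f))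
    rw [repT_tmul]
    have he1 : ∀ (a : K) (f : Fin n → k), e (a ⊗ₜ[k] f) = fun j => f j • a := fun a f => by
      show TensorProduct.piScalarRight k K K (Fin n) (a ⊗ₜ[k] f) = _
      rw [TensorProduct.piScalarRight_apply, TensorProduct.piScalarRightHom_tmul]
    rw [he1, he1, hρ]
    funext i
    show ∑ j, (((τ ^ (Multiplicative.toAdd (deg (T x y))) : Kˣ) : K) * algebraMap k K (ρ₀ (T x y) i j)) *
      (f j • a) = (∑ j, ρ₀ (T x y) i j • f j) • (((τ ^ (Multiplicative.toAdd (deg (T x y))) : Kˣ) : K) * a)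
    rw [Finset.sum_smul]
    refine Finset.sum_congr rfl fun j _ => ?_
    rw [Algebra.smul_def, Algebra.smul_def, smul_eq_mul, map_mul]
    ring
  have he' : ∀ x y, sys T (repT deg τ (repM k ρ₀)) x y ∘ₗ (e.symm : (Fin n → K) →ₗ[K] K ⊗[k] (Fin n → k)) =
      (e.symm : (Fin n → K) →ₗ[K] K ⊗[k] (Fin n → k)) ∘ₗ cs T ρ K x y := by
    intro x y
    apply LinearMap.ext
    intro f
    apply e.injective
    have h2 := congrArg (fun φ => φ (e.symm f)) (he x y)
    simp only [LinearMap.comp_apply, LinearEquiv.coe_coe, LinearEquiv.apply_symm_apply] at h2 ⊢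
    exact h2.symm
  intro c hc
  have h3 := cm_mem_Bc (e : K ⊗[k] (Fin n → k) →ₗ[K] (Fin n → K)) he
    (h1 (cm_mem_Zc (e.symm : (Fin n → K) →ₗ[K] K ⊗[k] (Fin n → k)) he' hc))
  have e3 : cm (e : K ⊗[k] (Fin n → k) →ₗ[K] (Fin n → K))
      (cm (e.symm : (Fin n → K) →ₗ[K] K ⊗[k] (Fin n → k)) c) = c := by
    funext l
    exact e.apply_symm_apply _
  rwa [e3] at h3

theorem lp_inj_of {R : Type*} [CommRing R] (g : R →+* k) (hg : Function.Injective g) (τ : Kˣ)
    (hτ : Transcendental k (τ : K)) :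
    Function.Injective (LaurentPolynomial.eval₂ ((algebraMap k K).comp g) τ) := by
  rw [injective_iff_map_eq_zero]
  intro f hf
  obtain ⟨n, p, hp⟩ := LaurentPolynomial.exists_T_pow f
  have h1 : Polynomial.aeval (τ : K) (p.map g) = 0 := by
    rw [Polynomial.aeval_def, Polynomial.eval₂_map, ← LaurentPolynomial.eval₂_toLaurent, hp, map_mul, hf,
      zero_mul]
  have h2 : p.map g = 0 := (transcendental_iff.1 hτ) _ h1
  have h3 : p = 0 := (Polynomial.map_eq_zero_iff hg).1 h2
  rw [h3, map_zero] at hp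
  exact (LaurentPolynomial.isUnit_T (R := R) n).mul_left_eq_zero.1 hp.symm

/-- step 4 -/
theorem chain4' {D : Tube} (deg : G →* Multiplicative ℤ) (hf : Finite deg.ker)
    (hp : IsPGroup 5 deg.ker) {T : ℂ × ℂ → ℂ × ℂ → G}
    (hT : GFlat T D.O) {E : Set (ℂ × ℂ)} (hE : E = D.EJ ∨ E = D.EK) {n : ℕ}
    (ρ₀ : G →* Matrix (Fin n) (Fin n) (ZMod 5))
    (ρ : G →* Matrix (Fin n) (Fin n) (LaurentPolynomial (ZMod 5)))
    (hρ : ∀ g, ρ g = (LaurentPolynomial.T (Multiplicative.toAdd (deg g)) : LaurentPolynomial (ZMod 5)) •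
      (ρ₀ g).map LaurentPolynomial.C)
    (q : ℕ) : ∃ s : LaurentPolynomial (ZMod 5), s ≠ 0 ∧
      KV (cs T ρ (LaurentPolynomial (ZMod 5))) D.X E q s := by
  have hno := lp_noeth (ZMod 5)
  have hTX : GFlat T D.X := hT.mono (X_sub_O D)
  let k := AlgebraicClosure (ZMod 5)
  let K := RatFunc k
  have hCk : CharP k 5 := charP_of_injective_algebraMap (algebraMap (ZMod 5) k).injective 5
  have hX0 : (RatFunc.X : K) ≠ 0 := RatFunc.X_ne_zero
  let τ : Kˣ := Units.mk0 RatFunc.X hX0
  have hτ : Transcendental k (τ : K) := RatFunc.transcendental_X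
  let B := LaurentPolynomial (ZMod 5)
  let F := FractionRing B
  let ρK : G →* Matrix (Fin n) (Fin n) K :=
    { toFun := fun g => ((τ ^ (Multiplicative.toAdd (deg g)) : Kˣ) : K) • (((ρ₀ g).map (algebraMap (ZMod 5) k)).map (algebraMap k K))
      map_one' := by
        rw [deg.map_one, ρ₀.map_one, toAdd_one, zpow_zero, Units.val_one, one_smul,
          Matrix.map_one _ (map_zero _) (map_one _), Matrix.map_one _ (map_zero _) (map_one _)]
      map_mul' := fun g h => by
        rw [deg.map_mul, ρ₀.map_mul, toAdd_mul, zpow_add, Units.val_mul, Matrix.map_mul, Matrix.map_mul,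
          Matrix.smul_mul, Matrix.mul_smul, smul_smul] }
  let ρk : G →* Matrix (Fin n) (Fin n) k :=
    { toFun := fun g => (ρ₀ g).map (algebraMap (ZMod 5) k)
      map_one' := by rw [ρ₀.map_one, Matrix.map_one _ (map_zero _) (map_one _)]
      map_mul' := fun g h => by rw [ρ₀.map_mul, Matrix.map_mul] }
  have h1 : HV (cs T ρK K) D.X E q := chain3' deg hf hp hT hE τ hτ ρk ρK (fun g => rfl) q
  let φ : B →+* K := LaurentPolynomial.eval₂ ((algebraMap k K).comp (algebraMap (ZMod 5) k)) τ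
  have hφ : Function.Injective φ := lp_inj_of _ (algebraMap (ZMod 5) k).injective τ hτ
  let _ : Algebra B K := φ.toAlgebra
  have h2 : HV (cs T ρ K) D.X E q := by
    refine (HV_cs_map φ ρ ρK ?_ K (fun a m => (Algebra.smul_def a m).symm) q).2 h1
    intro g
    rw [hρ]
    ext i j
    rw [Matrix.map_apply, Matrix.smul_apply, smul_eq_mul, map_mul, Matrix.map_apply]
    show _ = LaurentPolynomial.eval₂ _ _ _ * LaurentPolynomial.eval₂ _ _ _
    rw [LaurentPolynomial.eval₂_T, LaurentPolynomial.eval₂_C]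
    rfl
  let _ : Algebra F K := (IsFractionRing.lift (K := F) hφ).toAlgebra
  have htow : IsScalarTower B F K := IsScalarTower.of_algebraMap_eq fun a => by
    show _ = IsFractionRing.lift hφ (algebraMap B F a)
    rw [IsFractionRing.lift_algebraMap]; rfl
  obtain ⟨r, hr⟩ := LinearMap.exists_leftInverse_of_injective (Algebra.linearMap F K)
    (LinearMap.ker_eq_bot.2 (algebraMap F K).injective)
  have h3 : HV (cs T ρ F) D.X E q :=
    HV_cs_retract ρ F K ((Algebra.linearMap F K).restrictScalars B) (r.restrictScalars B)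
      (fun m => congrArg (fun f => f m) hr) q h2
  exact KV_of_frac D.CR_X.1 (CR_E hE).1.isClosed (E_sub hE) hTX ρ q h3
    (FG_CR_rel D.CR_X (CR_E hE) (E_sub hE) (cs_flat hTX ρ) q)

end chain3'




theorem transc_tU {k : Type*} [Field k] (r : kˣ) :
    Transcendental k (algebraMap (PowerSeries k) (LaurentSeries k) (tU r : PowerSeries k)) := by
  rw [transcendental_iff]
  intro p hp
  have h1 : Polynomial.aeval (tU r : PowerSeries k) p = 0 := by
    apply IsFractionRing.injective (PowerSeries k) (LaurentSeries k)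
    rw [map_zero, ← hp, Polynomial.aeval_def, Polynomial.aeval_def, Polynomial.hom_eval₂]
    rfl
  have h2 : Polynomial.aeval (tU r : PowerSeries k) p = ((Polynomial.taylor (r : k) p : Polynomial k) : PowerSeries k) := by
    have h3 : (Polynomial.aeval (tU r : PowerSeries k) : Polynomial k →ₐ[k] PowerSeries k) =
        (Polynomial.coeToPowerSeries.algHom k).comp (Polynomial.taylorAlgHom (r : k)) := by
      apply Polynomial.algHom_ext
      rw [Polynomial.aeval_X]
      show PowerSeries.C (r : k) + PowerSeries.X = Polynomial.coeToPowerSeries.algHom k (Polynomial.taylor (r : k) Polynomial.X)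
      rw [Polynomial.taylor_X, Polynomial.coeToPowerSeries.algHom_apply, Algebra.algebraMap_self, PowerSeries.map_id]
      simp [add_comm]
    rw [DFunLike.congr_fun h3 p]
    show Polynomial.coeToPowerSeries.algHom k (Polynomial.taylor (r : k) p) = _
    rw [Polynomial.coeToPowerSeries.algHom_apply, Algebra.algebraMap_self, PowerSeries.map_id]
    rfl
  rw [h2] at h1
  have h5 : Polynomial.taylor (r : k) p = 0 := by
    exact_mod_cast h1
  exact (Polynomial.taylor_injective (r : k)) (by rw [h5, map_zero])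


/-- the ring `ℤ[ζ₅]` -/
abbrev OO : Type := AdjoinRoot (Polynomial.cyclotomic 5 ℤ)

noncomputable def ze : OO := AdjoinRoot.root (Polynomial.cyclotomic 5 ℤ)

theorem cyc_eval {R : Type*} [CommRing R] (z : R) :
    (Polynomial.cyclotomic 5 ℤ).eval₂ (Int.castRingHom R) z = z ^ 4 + z ^ 3 + z ^ 2 + z + 1 := by
  rw [Polynomial.eval₂_eq_eval_map, Polynomial.map_cyclotomic, Polynomial.cyclotomic_prime]
  simp [Finset.sum_range_succ]
  ring

theorem cyc_of_pow {z : ℂ} (hz : z ^ 5 = 1) (hz1 : z ≠ 1) : z ^ 4 + z ^ 3 + z ^ 2 + z + 1 = 0 := by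
  have : (z - 1) * (z ^ 4 + z ^ 3 + z ^ 2 + z + 1) = 0 := by
    have : (z - 1) * (z ^ 4 + z ^ 3 + z ^ 2 + z + 1) = z ^ 5 - 1 := by ring
    rw [this, hz, sub_self]
  rcases mul_eq_zero.1 this with h | h
  · exact absurd (sub_eq_zero.1 h) hz1
  · exact h

theorem ze_cyc : ze ^ 4 + ze ^ 3 + ze ^ 2 + ze + 1 = 0 := by
  rw [← cyc_eval]
  have h := AdjoinRoot.eval₂_root (Polynomial.cyclotomic 5 ℤ)
  rwa [show AdjoinRoot.of (Polynomial.cyclotomic 5 ℤ) = Int.castRingHom OO from RingHom.ext_int _ _] at h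

theorem ze_pow : ze ^ 5 = 1 := by
  have h1 := ze_cyc
  have : ze ^ 5 - 1 = (ze - 1) * (ze ^ 4 + ze ^ 3 + ze ^ 2 + ze + 1) := by ring
  rw [h1, mul_zero] at this
  exact sub_eq_zero.1 this

noncomputable def gC (z : ℂ) (hz : z ^ 5 = 1) (hz1 : z ≠ 1) : OO →+* ℂ :=
  AdjoinRoot.lift (Int.castRingHom ℂ) z (by rw [cyc_eval]; exact cyc_of_pow hz hz1)

theorem gC_ze (z : ℂ) (hz : z ^ 5 = 1) (hz1 : z ≠ 1) : gC z hz hz1 ze = z := AdjoinRoot.lift_root _

theorem gC_inj (z : ℂ) (hz : z ^ 5 = 1) (hz1 : z ≠ 1) : Function.Injective (gC z hz hz1) := by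
  rw [injective_iff_map_eq_zero]
  intro x hx
  obtain ⟨p, rfl⟩ := AdjoinRoot.mk_surjective x
  have hprim : IsPrimitiveRoot z 5 := by
    have hp : Nat.Prime 5 := by norm_num
    exact (IsPrimitiveRoot.iff_def z 5).2 ⟨hz, fun l hl => by
      have h1 : orderOf z = 5 := orderOf_eq_prime (hp := ⟨hp⟩) hz hz1
      rw [← h1]
      exact orderOf_dvd_of_pow_eq_one hl⟩
  rw [AdjoinRoot.mk_eq_zero, Polynomial.cyclotomic_eq_minpoly hprim (by norm_num)]
  apply minpoly.isIntegrallyClosed_dvd (hprim.isIntegral (by norm_num))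
  rw [← hx]
  show _ = AdjoinRoot.lift (Int.castRingHom ℂ) z _ (AdjoinRoot.mk _ p)
  rw [AdjoinRoot.lift_mk]
  rfl

instance dom_OO : IsDomain OO :=
  (gC_inj (Complex.exp (2 * Real.pi * Complex.I / 5)) (by
    have := (Complex.isPrimitiveRoot_exp 5 (by norm_num)).pow_eq_one
    exact_mod_cast this) (by
    have := (Complex.isPrimitiveRoot_exp 5 (by norm_num)).ne_one (by norm_num)
    exact_mod_cast this)).isDomain _

instance noeth_OO : IsNoetherianRing OO := inferInstance

noncomputable def gF : OO →+* ZMod 5 :=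
  AdjoinRoot.lift (Int.castRingHom (ZMod 5)) 1 (by rw [cyc_eval]; decide)

theorem gF_ze : gF ze = 1 := AdjoinRoot.lift_root _

theorem five_mem : (5 : OO) ∈ Ideal.span {1 - ze} := by
  have h1 := ze_cyc
  rw [Ideal.mem_span_singleton]
  refine ⟨ze ^ 3 + 2 * ze ^ 2 + 3 * ze + 4, ?_⟩
  have : (1 - ze) * (ze ^ 3 + 2 * ze ^ 2 + 3 * ze + 4) = 5 - (ze ^ 4 + ze ^ 3 + ze ^ 2 + ze + 1) := by ring
  rw [this, h1, sub_zero]

theorem ker_gF {x : OO} (hx : gF x = 0) : x ∈ Ideal.span {1 - ze} := by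
  obtain ⟨p, rfl⟩ := AdjoinRoot.mk_surjective x
  have h1 : gF (AdjoinRoot.mk _ p) = ((p.eval 1 : ℤ) : ZMod 5) := by
    show AdjoinRoot.lift (Int.castRingHom (ZMod 5)) 1 _ (AdjoinRoot.mk _ p) = _
    rw [AdjoinRoot.lift_mk, Polynomial.eval₂_at_one]
    rfl
  rw [h1, ZMod.intCast_zmod_eq_zero_iff_dvd] at hx
  obtain ⟨m, hm⟩ := hx
  obtain ⟨h, hh⟩ := Polynomial.X_sub_C_dvd_sub_C_eval (p := p) (a := 1)
  have h2 : p = Polynomial.C (p.eval 1) + (Polynomial.X - Polynomial.C 1) * h := by rw [← hh]; ring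
  rw [h2, map_add, map_mul, hm]
  refine Ideal.add_mem _ ?_ ?_
  · have : AdjoinRoot.mk (Polynomial.cyclotomic 5 ℤ) (Polynomial.C (((5:ℕ):ℤ) * m)) = 5 * (m : OO) := by
      have h3 := DFunLike.congr_fun (RingHom.ext_int
        ((AdjoinRoot.mk (Polynomial.cyclotomic 5 ℤ)).comp Polynomial.C) (Int.castRingHom OO)) (((5:ℕ):ℤ) * m)
      rw [RingHom.comp_apply] at h3
      rw [h3]
      push_cast
      simp
    rw [this]
    exact Ideal.mul_mem_right _ _ five_mem
  · refine Ideal.mul_mem_right _ _ ?_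
    rw [Ideal.mem_span_singleton]
    refine ⟨-1, ?_⟩
    rw [map_sub, map_one, map_one, AdjoinRoot.mk_X]
    show ze - 1 = _
    ring

/-- reduction on Laurent polynomials -/
noncomputable def psi : LaurentPolynomial OO →+* LaurentPolynomial (ZMod 5) :=
  LaurentPolynomial.eval₂ (LaurentPolynomial.C.comp gF) (LaurentPolynomial.isUnit_T 1).unit

theorem psi_T (n : ℤ) : psi (LaurentPolynomial.T n) = LaurentPolynomial.T n := by
  have h : ∀ n : ℕ, psi (LaurentPolynomial.T n) = LaurentPolynomial.T n := by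
    intro n
    rw [psi, LaurentPolynomial.eval₂_T, zpow_natCast, Units.val_pow_eq_pow_val, IsUnit.unit_spec,
      LaurentPolynomial.T_pow, mul_one]
  rcases Int.eq_nat_or_neg n with ⟨m, rfl | rfl⟩
  · exact h m
  · have h1 : psi (LaurentPolynomial.T (-(m:ℤ))) * LaurentPolynomial.T m = 1 := by
      rw [← h, ← map_mul, ← LaurentPolynomial.T_add, neg_add_cancel, LaurentPolynomial.T_zero, map_one]
    have h2 : (LaurentPolynomial.T (m:ℤ) : LaurentPolynomial (ZMod 5)) * LaurentPolynomial.T (-(m:ℤ)) = 1 := by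
      rw [← LaurentPolynomial.T_add, add_neg_cancel, LaurentPolynomial.T_zero]
    calc psi (LaurentPolynomial.T (-(m:ℤ))) = psi (LaurentPolynomial.T (-(m:ℤ))) *
          (LaurentPolynomial.T (m:ℤ) * LaurentPolynomial.T (-(m:ℤ))) := by rw [h2, mul_one]
      _ = LaurentPolynomial.T (-(m:ℤ)) := by rw [← mul_assoc, h1, one_mul]

theorem psi_C (a : OO) : psi (LaurentPolynomial.C a) = LaurentPolynomial.C (gF a) := by
  rw [psi, LaurentPolynomial.eval₂_C]; rfl

theorem gF_surj : Function.Surjective gF := by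
  intro x
  refine ⟨(x.val : OO), ?_⟩
  rw [map_natCast, ZMod.natCast_val, ZMod.cast_id]

theorem psi_toLaurent (p : Polynomial OO) : psi (Polynomial.toLaurent p) = Polynomial.toLaurent (p.map gF) := by
  have : psi.comp (Polynomial.toLaurent : Polynomial OO →+* LaurentPolynomial OO) =
      (Polynomial.toLaurent : Polynomial (ZMod 5) →+* LaurentPolynomial (ZMod 5)).comp (Polynomial.mapRingHom gF) := by
    apply Polynomial.ringHom_ext
    · intro a
      simp only [RingHom.comp_apply, Polynomial.coe_mapRingHom, Polynomial.map_C, Polynomial.toLaurent_C, psi_C]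
    · simp only [RingHom.comp_apply, Polynomial.coe_mapRingHom, Polynomial.map_X, Polynomial.toLaurent_X, psi_T]
  exact DFunLike.congr_fun this p

theorem psi_surj : Function.Surjective psi := by
  intro f
  obtain ⟨n, p, hp⟩ := LaurentPolynomial.exists_T_pow f
  obtain ⟨p', hp'⟩ := Polynomial.map_surjective gF gF_surj p
  refine ⟨Polynomial.toLaurent p' * LaurentPolynomial.T (-(n:ℤ)), ?_⟩
  rw [map_mul, psi_toLaurent, hp', hp, psi_T, mul_assoc, ← LaurentPolynomial.T_add, add_neg_cancel,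
    LaurentPolynomial.T_zero, mul_one]

theorem ker_psi : RingHom.ker psi = Ideal.span {LaurentPolynomial.C (1 - ze)} := by
  apply le_antisymm
  · intro f hf
    rw [RingHom.mem_ker] at hf
    obtain ⟨n, p, hp⟩ := LaurentPolynomial.exists_T_pow f
    have h1 : Polynomial.toLaurent (p.map gF) = 0 := by
      rw [← psi_toLaurent, hp, map_mul, hf, zero_mul]
    have h2 : p.map gF = 0 := Polynomial.toLaurent_injective (by rw [h1, map_zero])
    have h3 : Polynomial.C (1 - ze) ∣ p := by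
      rw [Polynomial.C_dvd_iff_dvd_coeff]
      intro i
      rw [← Ideal.mem_span_singleton]
      apply ker_gF
      have := congrArg (fun q => Polynomial.coeff q i) h2
      simpa using this
    obtain ⟨r, hr⟩ := h3
    have h4 : f = Polynomial.toLaurent p * LaurentPolynomial.T (-(n:ℤ)) := by
      rw [hp, mul_assoc, ← LaurentPolynomial.T_add, add_neg_cancel, LaurentPolynomial.T_zero, mul_one]
    rw [h4, hr, map_mul, Polynomial.toLaurent_C, mul_assoc]
    exact Ideal.mul_mem_right _ _ (Ideal.mem_span_singleton_self _)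
  · rw [Ideal.span_le]
    rintro x rfl
    show psi _ = 0
    rw [psi_C, map_sub, map_one, gF_ze, sub_self, map_zero]


section scal
variable {Ω k k' V : Type*} [PseudoMetricSpace Ω] [CommRing k] [CommRing k'] [AddCommGroup V] [Module k V]
  [Module k' V] {T : Ω → Ω → (V →ₗ[k] V)} {T' : Ω → Ω → (V →ₗ[k'] V)}

omit [PseudoMetricSpace Ω] in
theorem dT_scal (h : ∀ x y v, T x y v = T' x y v) (c : List Ω → V) : dT T c = dT T' c := by
  funext l
  cases l with
  | nil => rfl
  | cons x l =>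
    rw [dT_cons, dT_cons]
    congr 1
    cases l with
    | nil => rfl
    | cons y l => exact h x y _

theorem Zc_scal (h : ∀ x y v, T x y v = T' x y v) (S S' : Set Ω) (q : ℕ) (c : List Ω → V) :
    c ∈ Zc T S S' q ↔ c ∈ Zc T' S S' q := by
  rw [mem_Zc, mem_Zc, dT_scal h]

theorem Bc_scal (h : ∀ x y v, T x y v = T' x y v) (S S' : Set Ω) (q : ℕ) (c : List Ω → V) :
    c ∈ Bc T S S' q ↔ c ∈ Bc T' S S' q := by
  rw [mem_Bc, mem_Bc]
  simp only [dT_scal h]

end scal

/-- `g ↦ t^(deg g) ⊗ ρ₀ g` over the Laurent polynomials -/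
noncomputable def lpRep {G R : Type*} [Group G] [CommRing R] {n : ℕ} (deg : G →* Multiplicative ℤ)
    (ρ₀ : G →* Matrix (Fin n) (Fin n) R) : G →* Matrix (Fin n) (Fin n) (LaurentPolynomial R) where
  toFun g := (LaurentPolynomial.T (Multiplicative.toAdd (deg g)) : LaurentPolynomial R) •
      (ρ₀ g).map LaurentPolynomial.C
  map_one' := by
    rw [deg.map_one, ρ₀.map_one, toAdd_one, LaurentPolynomial.T_zero, one_smul,
      Matrix.map_one _ (map_zero _) (map_one _)]
  map_mul' g h := by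
    rw [deg.map_mul, ρ₀.map_mul, toAdd_mul, LaurentPolynomial.T_add, Matrix.map_mul,
      Matrix.smul_mul, Matrix.mul_smul, smul_smul]

theorem lpRep_apply {G R : Type*} [Group G] [CommRing R] {n : ℕ} (deg : G →* Multiplicative ℤ)
    (ρ₀ : G →* Matrix (Fin n) (Fin n) R) (g : G) (i j : Fin n) :
    lpRep deg ρ₀ g i j = LaurentPolynomial.T (Multiplicative.toAdd (deg g)) * LaurentPolynomial.C (ρ₀ g i j) := rfl

theorem rho12 {G : Type*} [Group G] (deg : G →* Multiplicative ℤ) {n : ℕ} (M : Alg.Mono G n) (g : G) :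
    lpRep deg (M.rep (1 : ZMod 5) (one_pow 5)) g = (lpRep deg (M.rep ze ze_pow) g).map psi := by
  ext i j : 1
  rw [Matrix.map_apply]
  rw [lpRep_apply, lpRep_apply, map_mul, psi_T, psi_C]
  have h1 := M.rep_map gF ze ze_pow (by rw [gF_ze, one_pow]) g
  have h2 := congrFun (congrFun h1 i) j
  rw [Matrix.map_apply] at h2
  rw [h2]
  congr 3
  simp only [gF_ze]

/-- over `ℤ[ζ][t^{±1}]` the cohomology is killed by a nonzero element -/
theorem chain5a {G : Type*} [Group G] {D : Tube} (deg : G →* Multiplicative ℤ) (hf : Finite deg.ker)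
    (hp : IsPGroup 5 deg.ker) {T : ℂ × ℂ → ℂ × ℂ → G} (hT : GFlat T D.O) {E : Set (ℂ × ℂ)}
    (hE : E = D.EJ ∨ E = D.EK) {n : ℕ} (M : Alg.Mono G n) (q : ℕ) :
    ∃ s0 : LaurentPolynomial OO, psi s0 ≠ 0 ∧
      KV (cs T (lpRep deg (M.rep ze ze_pow)) (LaurentPolynomial OO ⧸ Ideal.span
        {(LaurentPolynomial.C (1 - ze) : LaurentPolynomial OO)})) D.X E q s0 := by
  obtain ⟨s1, hs1, hk1⟩ := chain4' deg hf hp hT hE (M.rep (1 : ZMod 5) (one_pow 5))
    (lpRep deg (M.rep (1 : ZMod 5) (one_pow 5))) (fun g => rfl) q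
  obtain ⟨s0, hs0⟩ := psi_surj s1
  refine ⟨s0, by rw [hs0]; exact hs1, ?_⟩
  -- `B` as an `A`-module
  let _ : Algebra (LaurentPolynomial OO) (LaurentPolynomial (ZMod 5)) := psi.toAlgebra
  have hscal : ∀ x y (v : Fin n → LaurentPolynomial (ZMod 5)),
      cs T (lpRep deg (M.rep ze ze_pow)) (LaurentPolynomial (ZMod 5)) x y v =
      cs T (lpRep deg (M.rep (1 : ZMod 5) (one_pow 5))) (LaurentPolynomial (ZMod 5)) x y v := by
    intro x y v
    funext i
    show ∑ j, lpRep deg (M.rep ze ze_pow) (T x y) i j • v j =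
      ∑ j, lpRep deg (M.rep (1 : ZMod 5) (one_pow 5)) (T x y) i j • v j
    refine Finset.sum_congr rfl fun j _ => ?_
    rw [rho12, Matrix.map_apply, smul_eq_mul]
    exact Algebra.smul_def _ _
  have hkB : KV (cs T (lpRep deg (M.rep ze ze_pow)) (LaurentPolynomial (ZMod 5))) D.X E q s0 := by
    intro c hc
    rw [Bc_scal hscal]
    have h3 := hk1 c ((Zc_scal hscal _ _ _ _).1 hc)
    have h4 : s0 • c = s1 • c := by
      funext l i
      show s0 • c l i = s1 • c l i
      rw [← hs0, smul_eq_mul]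
      exact Algebra.smul_def _ _
    rwa [h4]
  -- `A / π ≃ B`
  let e0 : (LaurentPolynomial OO ⧸ Ideal.span {(LaurentPolynomial.C (1 - ze) : LaurentPolynomial OO)})
      ≃ₗ[LaurentPolynomial OO] LaurentPolynomial (ZMod 5) :=
    (Submodule.quotEquivOfEq _ _ (by
      ext x
      rw [← ker_psi]
      rfl : Ideal.span {(LaurentPolynomial.C (1 - ze) : LaurentPolynomial OO)} =
        LinearMap.ker (Algebra.linearMap (LaurentPolynomial OO) (LaurentPolynomial (ZMod 5))))).trans
      ((Algebra.linearMap (LaurentPolynomial OO) (LaurentPolynomial (ZMod 5))).quotKerEquivOfSurjective psi_surj)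
  intro c hc
  have h3 := hkB _ (cm_mem_Zc (TW := cs T (lpRep deg (M.rep ze ze_pow)) (LaurentPolynomial (ZMod 5)))
    (e0.toLinearMap.compLeft (Fin n)) (fun x y => cs_compLeft e0.toLinearMap _ x y) hc)
  have h4 := cm_mem_Bc (TW := cs T (lpRep deg (M.rep ze ze_pow)) (LaurentPolynomial OO ⧸ Ideal.span
        {(LaurentPolynomial.C (1 - ze) : LaurentPolynomial OO)}))
    (e0.symm.toLinearMap.compLeft (Fin n)) (fun x y => cs_compLeft e0.symm.toLinearMap _ x y) h3
  have h5 : cm (e0.symm.toLinearMap.compLeft (Fin n)) (s0 • cm (e0.toLinearMap.compLeft (Fin n)) c) = s0 • c := by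
    funext l i
    show e0.symm (s0 • e0 (c l i)) = s0 • c l i
    rw [map_smul, LinearEquiv.symm_apply_apply]
  rwa [h5] at h4


theorem ze_ne : (LaurentPolynomial.C (1 - ze) : LaurentPolynomial OO) ≠ 0 := by
  have hz : ((1 : OO) - ze) ≠ 0 := by
    intro h
    have hz5 : (Complex.exp (2 * Real.pi * Complex.I / 5)) ^ 5 = 1 := by
      have := (Complex.isPrimitiveRoot_exp 5 (by norm_num)).pow_eq_one
      exact_mod_cast this
    have hz1 : (Complex.exp (2 * Real.pi * Complex.I / 5)) ≠ 1 := by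
      have := (Complex.isPrimitiveRoot_exp 5 (by norm_num)).ne_one (by norm_num)
      exact_mod_cast this
    have := congrArg (gC _ hz5 hz1) h
    rw [map_sub, map_one, gC_ze, map_zero, sub_eq_zero] at this
    exact hz1 this.symm
  intro h
  have h1 : (Polynomial.toLaurent (Polynomial.C (1 - ze)) : LaurentPolynomial OO) = 0 := by
    rw [Polynomial.toLaurent_C]; exact h
  have h2 := Polynomial.toLaurent_injective (h1.trans (map_zero _).symm)
  exact hz (Polynomial.C_eq_zero.1 h2)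

theorem chain5b {G : Type*} [Group G] {D : Tube} (deg : G →* Multiplicative ℤ) (hf : Finite deg.ker)
    (hp : IsPGroup 5 deg.ker) {T : ℂ × ℂ → ℂ × ℂ → G} (hT : GFlat T D.O) {E : Set (ℂ × ℂ)}
    (hE : E = D.EJ ∨ E = D.EK) {n : ℕ} (M : Alg.Mono G n) (q : ℕ) :
    ∃ s : LaurentPolynomial OO, s ≠ 0 ∧
      KV (cs T (lpRep deg (M.rep ze ze_pow)) (LaurentPolynomial OO)) D.X E q s := by
  have hno := lp_noeth OO
  have hTX : GFlat T D.X := hT.mono (X_sub_O D)
  obtain ⟨s0, hs0, hkq⟩ := chain5a deg hf hp hT hE M q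
  have hfg : FG (cs T (lpRep deg (M.rep ze ze_pow)) (LaurentPolynomial OO)) D.X E q :=
    FG_CR_rel D.CR_X (CR_E hE) (E_sub hE) (cs_flat hTX _) q
  obtain ⟨N, a, hk⟩ := nakayama hTX (E_sub hE) (lpRep deg (M.rep ze ze_pow)) _ s0 (fun a ha => by
    rcases mul_eq_zero.1 ha with h | h
    exacts [absurd h ze_ne, h]) q (FG_iff.1 hfg) hkq
  refine ⟨_, ?_, hk⟩
  intro h
  have h1 := congrArg psi h
  have h2 : psi (LaurentPolynomial.C (1 - ze)) = 0 := by
    rw [psi_C, map_sub, map_one, gF_ze, sub_self, map_zero]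
  rw [map_add, map_pow, map_mul, h2, zero_mul, add_zero, map_zero] at h1
  exact pow_ne_zero N hs0 h1


theorem chain5c {G : Type*} [Group G] {D : Tube} (deg : G →* Multiplicative ℤ) (hf : Finite deg.ker)
    (hp : IsPGroup 5 deg.ker) {T : ℂ × ℂ → ℂ × ℂ → G} (hT : GFlat T D.O) {E : Set (ℂ × ℂ)}
    (hE : E = D.EJ ∨ E = D.EK) {n : ℕ} (M : Alg.Mono G n) (q : ℕ) {K : Type*} [Field K]
    (φ : LaurentPolynomial OO →+* K) (hφ : Function.Injective φ) (ρK : G →* Matrix (Fin n) (Fin n) K)
    (hρK : ∀ g, ρK g = (lpRep deg (M.rep ze ze_pow) g).map φ) :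
    HV (cs T ρK K) D.X E q := by
  have hTX : GFlat T D.X := hT.mono (X_sub_O D)
  obtain ⟨s, hs, hk⟩ := chain5b deg hf hp hT hE M q
  let _ : Algebra (LaurentPolynomial OO) K := φ.toAlgebra
  have hfl : Module.Flat (LaurentPolynomial OO) K := flat_field _ _ hφ
  have h1 : HV (cs T (lpRep deg (M.rep ze ze_pow)) K) D.X E q :=
    flat_HV D.CR_X.1 (CR_E hE).1.isClosed (E_sub hE) hTX _ K _ (smul_bij hφ hs) q hk
  exact (HV_cs_map φ (lpRep deg (M.rep ze ze_pow)) ρK hρK K (fun a m => (Algebra.smul_def a m).symm) q).1 h1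

/-- matrices over a subring `A` of a field `K` -/
theorem chain5d {G : Type*} [Group G] {D : Tube} (deg : G →* Multiplicative ℤ) (hf : Finite deg.ker)
    (hp : IsPGroup 5 deg.ker) {T : ℂ × ℂ → ℂ × ℂ → G} (hT : GFlat T D.O) {E : Set (ℂ × ℂ)}
    (hE : E = D.EJ ∨ E = D.EK) {n : ℕ} (M : Alg.Mono G n) (q : ℕ) {K A : Type*} [Field K] [CommRing A]
    [Algebra A K] (f : ℂ →+* A) (t : Aˣ) (z : ℂ) (hz : z ^ 5 = 1) (hz1 : z ≠ 1)
    (hφ : Function.Injective (LaurentPolynomial.eval₂ (((algebraMap A K).comp f).comp (gC z hz hz1))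
      (Units.map (algebraMap A K : A →* K) t)))
    (ρ : G →* Matrix (Fin n) (Fin n) A)
    (hρ : ∀ g i j, ρ g i j = ((t ^ (Multiplicative.toAdd (deg g)) : Aˣ) : A) * f (M.rep z hz g i j)) :
    HV (cs T ρ K) D.X E q := by
  let ρK : G →* Matrix (Fin n) (Fin n) K :=
    { toFun := fun g => (ρ g).map (algebraMap A K)
      map_one' := by rw [ρ.map_one, Matrix.map_one _ (map_zero _) (map_one _)]
      map_mul' := fun g h => by rw [ρ.map_mul, Matrix.map_mul] }
  refine (HV_cs_map (algebraMap A K) ρ ρK (fun g => rfl) K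
    (fun a m => (Algebra.smul_def a m).symm) q).2 (chain5c deg hf hp hT hE M q _ hφ ρK ?_)
  intro g
  ext i j : 1
  rw [Matrix.map_apply, lpRep_apply]
  show algebraMap A K (ρ g i j) = _
  rw [map_mul, LaurentPolynomial.eval₂_T, LaurentPolynomial.eval₂_C, hρ, map_mul, ← map_zpow]
  have h5 := M.rep_map (gC z hz hz1) ze ze_pow (by rw [gC_ze, hz]) g
  have h6 := congrFun (congrFun h5 i) j
  rw [Matrix.map_apply] at h6
  rw [RingHom.comp_apply, h6]
  simp only [gC_ze]
  rfl

theorem lp_inj_of' {k K R : Type*} [Field k] [Field K] [CommRing R] (h : k →+* K) (g : R →+* k) (hg : Function.Injective g) (τ : Kˣ)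
    (hτ : ∀ p : Polynomial k, p.eval₂ h (τ : K) = 0 → p = 0) :
    Function.Injective (LaurentPolynomial.eval₂ (h.comp g) τ) := by
  let _ : Algebra k K := h.toAlgebra
  exact lp_inj_of g hg τ (transcendental_iff.2 hτ)

theorem tU_ev {k : Type*} [Field k] (r : kˣ) (p : Polynomial k)
    (hp : p.eval₂ ((algebraMap (PowerSeries k) (LaurentSeries k)).comp PowerSeries.C)
      (algebraMap (PowerSeries k) (LaurentSeries k) (tU r : PowerSeries k)) = 0) : p = 0 :=
  transcendental_iff.1 (transc_tU r) p hp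

/-- step 5 (main result of the chain), characteristic zero -/
theorem chain5' {G : Type*} [Group G] {D : Tube} (deg : G →* Multiplicative ℤ) (hf : Finite deg.ker)
    (hp : IsPGroup 5 deg.ker) {T : ℂ × ℂ → ℂ × ℂ → G} (hT : GFlat T D.O) {E : Set (ℂ × ℂ)}
    (hE : E = D.EJ ∨ E = D.EK) {n : ℕ} (M : Alg.Mono G n)
    (r : ℂˣ) (z : ℂ) (hz : z ^ 5 = 1) (hz1 : z ≠ 1)
    (ρ : G →* Matrix (Fin n) (Fin n) (PowerSeries ℂ)) (hρ : ρ = repR deg (M.rep z hz) r) (q : ℕ) :
    HV (cs T ρ (LaurentSeries ℂ)) D.X E q := by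
  refine chain5d deg hf hp hT hE M q (K := LaurentSeries ℂ) (A := PowerSeries ℂ) PowerSeries.C (tU r) z hz hz1
    (lp_inj_of' _ _ (gC_inj z hz hz1) _ (tU_ev r)) ρ ?_
  intro g i j
  rw [hρ]
  rfl


theorem chain_one_gen {D : Tube} {T₀ : ℂ × ℂ → ℂ × ℂ → Multiplicative ℤ} (hT : GFlat T₀ D.O) {E : Set (ℂ × ℂ)}
    (hE : E = D.EJ ∨ E = D.EK) {k K A : Type*} [Field k] [Algebra (ZMod 5) k] [Field K] [CommRing A]
    [Algebra A K] (f : k →+* A) (t : Aˣ)
    (htr : ∀ p : Polynomial k, p.eval₂ ((algebraMap A K).comp f) (algebraMap A K (t : A)) = 0 → p = 0)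
    (ρ : Multiplicative ℤ →* Matrix (Fin 1) (Fin 1) A)
    (hρ : ∀ g i j, ρ g i j = ((t ^ (Multiplicative.toAdd g) : Aˣ) : A)) (q : ℕ) :
    HV (cs T₀ ρ K) D.X E q := by
  let _ : Algebra (ZMod 5) K := (((algebraMap A K).comp f).comp (algebraMap (ZMod 5) k)).toAlgebra
  let τ : Kˣ := Units.map (algebraMap A K : A →* K) t
  have hτ : Transcendental (ZMod 5) (τ : K) := by
    rw [transcendental_iff]
    intro p hp
    have h1 : (p.map (algebraMap (ZMod 5) k)).eval₂ ((algebraMap A K).comp f) (algebraMap A K (t : A)) = 0 := by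
      rw [Polynomial.eval₂_map]; exact hp
    exact (Polynomial.map_eq_zero_iff (algebraMap (ZMod 5) k).injective).1 (htr _ h1)
  refine (HV_cs_map (algebraMap A K) ρ (rho1K τ) ?_ K
    (fun a m => (Algebra.smul_def a m).symm) q).2 (chain2' hT hE τ hτ (rho1K τ) (fun n => rfl) q)
  intro g
  ext i j : 1
  rw [Matrix.map_apply, hρ]
  show ((τ ^ (Multiplicative.toAdd g) : Kˣ) : K) = _
  rw [show τ = Units.map (algebraMap A K : A →* K) t from rfl, ← map_zpow]
  rfl

/-- rank one, characteristic 5 -/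
theorem chain_one' {D : Tube} {T₀ : ℂ × ℂ → ℂ × ℂ → Multiplicative ℤ} (hT : GFlat T₀ D.O) {E : Set (ℂ × ℂ)}
    (hE : E = D.EJ ∨ E = D.EK) {k : Type*} [Field k] [Algebra (ZMod 5) k] (r : kˣ)
    (ρ : Multiplicative ℤ →* Matrix (Fin 1) (Fin 1) (PowerSeries k))
    (hρ : ρ = repR (MonoidHom.id _) (1 : Multiplicative ℤ →* Matrix (Fin 1) (Fin 1) k) r) (q : ℕ) :
    HV (cs T₀ ρ (LaurentSeries k)) D.X E q := by
  refine chain_one_gen hT hE (K := LaurentSeries k) (A := PowerSeries k) PowerSeries.C (tU r) (tU_ev r) ρ ?_ q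
  intro g i j
  rw [hρ]
  show (((tU r) ^ (Multiplicative.toAdd g) : (PowerSeries k)ˣ) : PowerSeries k) *
    PowerSeries.C ((1 : Matrix (Fin 1) (Fin 1) k) i j) = _
  rw [Subsingleton.elim i j, Matrix.one_apply_eq, map_one, mul_one]

end Pool.Agent.Helper60.Geo.AcycAux
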