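import Pool.Agent.Helper60.AS.Tr
import Pool.Agent.Helper60.AS.H1

/-! The concrete pattern `P`, the trefoil `K`, the embedding `e` of the solid torus. All objects are
subsets of / functions on `ℂ × ℂ`; the solid torus is `{(u, w) | |u| = 1, |w| ≤ 1}`, the 3-sphere is
`{z | nrm z = 1}`. -/

set_option autoImplicit false

namespace Pool.Agent.Helper60.Geo

open Set AS

/-- Euclidean norm on `ℂ × ℂ` -/
noncomputable def nrm (z : ℂ × ℂ) : ℝ := Real.sqrt (‖z.1‖ ^ 2 + ‖z.2‖ ^ 2)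

/-- `e^{2π i s}` -/
noncomputable def ee (s : ℝ) : ℂ := Complex.exp (2 * Real.pi * s * Complex.I)

/-! ### pattern -/

def sg (r : ℝ) : ℝ := 7 * r ^ 2 - 6 * r
def hh (r : ℝ) : ℝ := r * (1 - r) * (3 * r - 1)
noncomputable def Gc (r : ℝ) : ℂ × ℂ := (ee (sg r), ((r - 1/2 : ℝ) : ℂ))
noncomputable def Ac (r : ℝ) : ℂ × ℂ := (1, ((r - 1/2 : ℝ) : ℂ) + (hh r : ℂ) * Complex.I)
/-- the pattern -/
def Pat : Set (ℂ × ℂ) := Gc '' Icc 0 1 ∪ Ac '' Icc 0 1
/-- the solid torus and its boundary -/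
def ST : Set (ℂ × ℂ) := {p | ‖p.1‖ = 1 ∧ ‖p.2‖ ≤ 1}
def dST : Set (ℂ × ℂ) := {p | ‖p.1‖ = 1 ∧ ‖p.2‖ = 1}
/-- complement of the pattern -/
def VP : Set (ℂ × ℂ) := ST \ Pat

/-! ### companion -/

/-- circle action `u · (z₁, z₂) = (u² z₁, u³ z₂)` -/
def act (u : ℂ) (z : ℂ × ℂ) : ℂ × ℂ := (u ^ 2 * z.1, u ^ 3 * z.2)
/-- slice through the trefoil, `δ = 1/10` -/
noncomputable def sl (w : ℂ) : ℂ × ℂ :=
  ((Real.cos (Real.pi / 4 - w.re / 10) : ℂ) * Complex.exp ((w.im / 10 : ℝ) * Complex.I),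
   (Real.sin (Real.pi / 4 - w.re / 10) : ℂ) * Complex.exp ((w.im / 10 : ℝ) * Complex.I))
/-- the embedding of the solid torus (`u⁻⁶ = conj u ^ 6` for `|u| = 1`) -/
noncomputable def eV (p : ℂ × ℂ) : ℂ × ℂ := act p.1 (sl ((starRingEnd ℂ p.1) ^ 6 * p.2))
/-- trefoil -/
def Kn : Set (ℂ × ℂ) := {z | ∃ u : ℂ, ‖u‖ = 1 ∧ z = eV (u, 0)}
/-- `J = e(P)` -/
def Jn : Set (ℂ × ℂ) := eV '' Pat
/-- unit sphere -/
def Sph : Set (ℂ × ℂ) := {z | nrm z = 1}
/-- exterior of the image of the open solid torus of radius `r` -/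
def Exr (r : ℝ) : Set (ℂ × ℂ) := Sph \ {z | ∃ u w : ℂ, ‖u‖ = 1 ∧ ‖w‖ < r ∧ z = eV (u, w)}
def Ex : Set (ℂ × ℂ) := Exr 1
/-- meridian and longitude of `e`, of radius `r` -/
noncomputable def merE (r : ℝ) : ℝ → ℂ × ℂ := fun s => eV (1, (r : ℂ) * ee s)
noncomputable def lonE (r : ℝ) : ℝ → ℂ × ℂ := fun s => eV (ee s, r)
/-- the function vanishing exactly on the cone over `K` -/
noncomputable def fK (z : ℂ × ℂ) : ℂ := z.1 ^ 3 - (nrm z / Real.sqrt 2 : ℝ) * z.2 ^ 2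
/-- the integer class of the trefoil complement -/
noncomputable def cf : ℂ × ℂ → ℂ × ℂ → Multiplicative ℤ := mint (ang fK)
/-- an orbit of the circle action -/
noncomputable def orb (x : ℂ × ℂ) : ℝ → ℂ × ℂ := fun s => act (ee s) x

/-! ### basic facts about `e` -/

theorem continuous_sl : Continuous sl := by
  unfold sl
  refine Continuous.prodMk ?_ ?_
  · refine Continuous.mul ?_ ?_
    · exact Complex.continuous_ofReal.comp (Real.continuous_cos.comp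
        (continuous_const.sub (Complex.continuous_re.div_const _)))
    · exact Complex.continuous_exp.comp ((Complex.continuous_ofReal.comp
        (Complex.continuous_im.div_const _)).mul continuous_const)
  · refine Continuous.mul ?_ ?_
    · exact Complex.continuous_ofReal.comp (Real.continuous_sin.comp
        (continuous_const.sub (Complex.continuous_re.div_const _)))
    · exact Complex.continuous_exp.comp ((Complex.continuous_ofReal.comp
        (Complex.continuous_im.div_const _)).mul continuous_const)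

theorem continuous_act {X : Type*} [TopologicalSpace X] {f : X → ℂ} {g : X → ℂ × ℂ}
    (hf : Continuous f) (hg : Continuous g) : Continuous fun x => act (f x) (g x) :=
  ((hf.pow 2).mul (continuous_fst.comp hg)).prodMk ((hf.pow 3).mul (continuous_snd.comp hg))

theorem continuous_eV : Continuous eV :=
  continuous_act continuous_fst (continuous_sl.comp
    (((Complex.continuous_conj.comp continuous_fst).pow 6).mul continuous_snd))

theorem continuous_nrm : Continuous nrm :=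
  Real.continuous_sqrt.comp (((continuous_norm.comp continuous_fst).pow 2).add
    ((continuous_norm.comp continuous_snd).pow 2))

theorem nrm_sq (z : ℂ × ℂ) : nrm z ^ 2 = ‖z.1‖ ^ 2 + ‖z.2‖ ^ 2 :=
  Real.sq_sqrt (by positivity)

theorem nrm_nonneg (z : ℂ × ℂ) : 0 ≤ nrm z := Real.sqrt_nonneg _

theorem norm_unit_exp (t : ℝ) : ‖Complex.exp ((t : ℂ) * Complex.I)‖ = 1 :=
  Complex.norm_exp_ofReal_mul_I t

/-- the angle of a point of the slice lies in the open first quadrant -/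
theorem cos_pos' {t : ℝ} (h : |t| ≤ 1) : 0 < Real.cos (Real.pi / 4 - t / 10) := by
  have h1 := Real.pi_gt_three
  obtain ⟨h2, h3⟩ := abs_le.1 h
  exact Real.cos_pos_of_mem_Ioo ⟨by linarith, by linarith⟩

theorem sin_pos' {t : ℝ} (h : |t| ≤ 1) : 0 < Real.sin (Real.pi / 4 - t / 10) := by
  have h1 := Real.pi_gt_three
  obtain ⟨h2, h3⟩ := abs_le.1 h
  exact Real.sin_pos_of_pos_of_lt_pi (by linarith) (by linarith)

theorem norm_sl_fst {w : ℂ} (hw : ‖w‖ ≤ 1) : ‖(sl w).1‖ = Real.cos (Real.pi / 4 - w.re / 10) := by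
  have h := cos_pos' ((Complex.abs_re_le_norm w).trans hw)
  unfold sl
  rw [norm_mul, norm_unit_exp, mul_one, Complex.norm_real, Real.norm_eq_abs, abs_of_pos h]

theorem norm_sl_snd {w : ℂ} (hw : ‖w‖ ≤ 1) : ‖(sl w).2‖ = Real.sin (Real.pi / 4 - w.re / 10) := by
  have h := sin_pos' ((Complex.abs_re_le_norm w).trans hw)
  unfold sl
  rw [norm_mul, norm_unit_exp, mul_one, Complex.norm_real, Real.norm_eq_abs, abs_of_pos h]

theorem conj_mul_self {u : ℂ} (hu : ‖u‖ = 1) : starRingEnd ℂ u * u = 1 := by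
  rw [Complex.conj_mul', hu]
  norm_num

theorem norm_w0 {u w : ℂ} (hu : ‖u‖ = 1) : ‖(starRingEnd ℂ u) ^ 6 * w‖ = ‖w‖ := by
  rw [norm_mul, norm_pow, Complex.norm_conj, hu, one_pow, one_mul]

theorem nrm_act {u : ℂ} (hu : ‖u‖ = 1) (z : ℂ × ℂ) : nrm (act u z) = nrm z := by
  unfold nrm act
  rw [norm_mul, norm_mul, norm_pow, norm_pow, hu, one_pow, one_pow, one_mul, one_mul]

theorem nrm_sl (w : ℂ) : nrm (sl w) = 1 := by
  unfold nrm sl
  rw [norm_mul, norm_mul, norm_unit_exp, mul_one, mul_one, Complex.norm_real, Complex.norm_real,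
    Real.norm_eq_abs, Real.norm_eq_abs, sq_abs, sq_abs, Real.cos_sq_add_sin_sq, Real.sqrt_one]

theorem nrm_eV {p : ℂ × ℂ} (hp : ‖p.1‖ = 1) : nrm (eV p) = 1 := by
  unfold eV
  rw [nrm_act hp, nrm_sl]

theorem eV_sph {p : ℂ × ℂ} (hp : p ∈ ST) : eV p ∈ Sph := nrm_eV hp.1

/-- explicit (scale invariant) inverse, continuous near the image of `e` -/
noncomputable def eInv (z : ℂ × ℂ) : ℂ × ℂ :=
  let u : ℂ := (z.2 * starRingEnd ℂ z.1) / (‖z.2‖ * ‖z.1‖ : ℝ)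
  let w' : ℂ := ⟨10 * (Real.pi / 4 - Real.arctan (‖z.2‖ / ‖z.1‖)),
    10 * Complex.arg (z.1 / u ^ 2)⟩
  (u, u ^ 6 * w')

/-- the first component of the inverse -/
noncomputable def eU (z : ℂ × ℂ) : ℂ := (z.2 * starRingEnd ℂ z.1) / (‖z.2‖ * ‖z.1‖ : ℝ)
/-- the point of the slice -/
noncomputable def eW (z : ℂ × ℂ) : ℂ := ⟨10 * (Real.pi / 4 - Real.arctan (‖z.2‖ / ‖z.1‖)),
    10 * Complex.arg (z.1 / eU z ^ 2)⟩

theorem eInv_eq (z : ℂ × ℂ) : eInv z = (eU z, eU z ^ 6 * eW z) := rfl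

/-- coordinates of `eV p` -/
theorem eV_coord {u w : ℂ} (hu : ‖u‖ = 1) (hw : ‖w‖ ≤ 1) :
    ∃ a b t : ℝ, 0 < a ∧ 0 < b ∧
      a = Real.cos (Real.pi / 4 - ((starRingEnd ℂ u) ^ 6 * w).re / 10) ∧
      b = Real.sin (Real.pi / 4 - ((starRingEnd ℂ u) ^ 6 * w).re / 10) ∧
      t = ((starRingEnd ℂ u) ^ 6 * w).im / 10 ∧
      eV (u, w) = (u ^ 2 * ((a : ℂ) * Complex.exp ((t : ℂ) * Complex.I)),
        u ^ 3 * ((b : ℂ) * Complex.exp ((t : ℂ) * Complex.I))) := by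
  have h1 : ‖(starRingEnd ℂ u) ^ 6 * w‖ ≤ 1 := by rw [norm_w0 hu]; exact hw
  have h2 := (Complex.abs_re_le_norm _).trans h1
  exact ⟨_, _, _, cos_pos' h2, sin_pos' h2, rfl, rfl, rfl, rfl⟩

theorem exp_conj (t : ℝ) : Complex.exp ((t : ℂ) * Complex.I) *
    starRingEnd ℂ (Complex.exp ((t : ℂ) * Complex.I)) = 1 := by
  rw [Complex.mul_conj', norm_unit_exp]
  norm_num

theorem eU_eV {u w : ℂ} (hu : ‖u‖ = 1) (hw : ‖w‖ ≤ 1) : eU (eV (u, w)) = u := by
  obtain ⟨a, b, t, ha, hb, -, -, -, he⟩ := eV_coord hu hw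
  have hn1 : ‖u ^ 2 * ((a : ℂ) * Complex.exp ((t : ℂ) * Complex.I))‖ = a := by
    rw [norm_mul, norm_mul, norm_pow, hu, norm_unit_exp, Complex.norm_real, Real.norm_eq_abs,
      abs_of_pos ha]
    ring
  have hn2 : ‖u ^ 3 * ((b : ℂ) * Complex.exp ((t : ℂ) * Complex.I))‖ = b := by
    rw [norm_mul, norm_mul, norm_pow, hu, norm_unit_exp, Complex.norm_real, Real.norm_eq_abs,
      abs_of_pos hb]
    ring
  unfold eU
  rw [he]
  simp only
  rw [hn1, hn2]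
  have hab : ((b * a : ℝ) : ℂ) ≠ 0 := by
    have : b * a ≠ 0 := (mul_pos hb ha).ne'
    exact_mod_cast this
  rw [div_eq_iff hab]
  have h1 := exp_conj t
  have h2 : u * starRingEnd ℂ u = 1 := by rw [mul_comm]; exact conj_mul_self hu
  simp only [map_mul, map_pow, Complex.conj_ofReal]
  generalize Complex.exp ((t : ℂ) * Complex.I) = E at h1 ⊢
  have h3 : u ^ 3 * ((b : ℂ) * E) * ((starRingEnd ℂ u) ^ 2 * ((a : ℂ) * starRingEnd ℂ E)) =
      u * (u * starRingEnd ℂ u) ^ 2 * (E * starRingEnd ℂ E) * (b * a) := by ring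
  rw [h3, h1, h2]
  push_cast
  ring

theorem eW_eV {u w : ℂ} (hu : ‖u‖ = 1) (hw : ‖w‖ ≤ 1) :
    eW (eV (u, w)) = (starRingEnd ℂ u) ^ 6 * w := by
  obtain ⟨a, b, t, ha, hb, ha', hb', ht, he⟩ := eV_coord hu hw
  have h1 : ‖(starRingEnd ℂ u) ^ 6 * w‖ ≤ 1 := by rw [norm_w0 hu]; exact hw
  have h2 := (Complex.abs_re_le_norm _).trans h1
  have h3 := (Complex.abs_im_le_norm _).trans h1
  set W := (starRingEnd ℂ u) ^ 6 * w with hW
  have hpi := Real.pi_gt_three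
  obtain ⟨h4, h5⟩ := abs_le.1 h2
  obtain ⟨h6, h7⟩ := abs_le.1 h3
  have hu0 : u ≠ 0 := by
    rintro rfl
    rw [norm_zero] at hu
    exact zero_ne_one hu
  have hn1 : ‖u ^ 2 * ((a : ℂ) * Complex.exp ((t : ℂ) * Complex.I))‖ = a := by
    rw [norm_mul, norm_mul, norm_pow, hu, norm_unit_exp, Complex.norm_real, Real.norm_eq_abs,
      abs_of_pos ha]
    ring
  have hn2 : ‖u ^ 3 * ((b : ℂ) * Complex.exp ((t : ℂ) * Complex.I))‖ = b := by
    rw [norm_mul, norm_mul, norm_pow, hu, norm_unit_exp, Complex.norm_real, Real.norm_eq_abs,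
      abs_of_pos hb]
    ring
  apply Complex.ext
  · change 10 * (Real.pi / 4 - Real.arctan (‖(eV (u, w)).2‖ / ‖(eV (u, w)).1‖)) = W.re
    rw [he]
    simp only
    rw [hn1, hn2, ha', hb', ← Real.tan_eq_sin_div_cos, Real.arctan_tan (by linarith) (by linarith)]
    ring
  · change 10 * Complex.arg ((eV (u, w)).1 / eU (eV (u, w)) ^ 2) = W.im
    rw [eU_eV hu hw, he]
    simp only
    rw [mul_div_cancel_left₀ _ (pow_ne_zero 2 hu0), Complex.arg_real_mul _ ha,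
      Complex.arg_exp_mul_I, toIocMod_eq_self Real.two_pi_pos |>.2 ⟨by rw [ht]; linarith, by
        rw [ht]; linarith⟩, ht]
    ring

theorem eInv_eV {p : ℂ × ℂ} (hp : p ∈ ST) : eInv (eV p) = p := by
  obtain ⟨u, w⟩ := p
  have hu : ‖u‖ = 1 := hp.1
  have hw : ‖w‖ ≤ 1 := hp.2
  rw [eInv_eq, eU_eV hu hw, eW_eV hu hw]
  have h2 : u * starRingEnd ℂ u = 1 := by rw [mul_comm]; exact conj_mul_self hu
  have h3 : u ^ 6 * ((starRingEnd ℂ u) ^ 6 * w) = (u * starRingEnd ℂ u) ^ 6 * w := by ring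
  rw [h3, h2, one_pow, one_mul]

theorem injOn_eV : InjOn eV ST := by
  intro p hp q hq h
  rw [← eInv_eV hp, ← eInv_eV hq, h]

theorem eU_smul (z : ℂ × ℂ) {c : ℝ} (hc : 0 < c) : eU (c • z) = eU z := by
  unfold eU
  have hc' : ((c : ℂ) ^ 2) ≠ 0 := by
    have : (c : ℂ) ≠ 0 := by exact_mod_cast hc.ne'
    exact pow_ne_zero 2 this
  rw [Prod.smul_fst, Prod.smul_snd, norm_smul, norm_smul, Real.norm_eq_abs, abs_of_pos hc,
    Complex.real_smul, Complex.real_smul, map_mul, Complex.conj_ofReal]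
  have h1 : (c : ℂ) * z.2 * ((c : ℂ) * starRingEnd ℂ z.1) =
      (c : ℂ) ^ 2 * (z.2 * starRingEnd ℂ z.1) := by ring
  have h2 : ((c * ‖z.2‖ * (c * ‖z.1‖) : ℝ) : ℂ) = (c : ℂ) ^ 2 * ((‖z.2‖ * ‖z.1‖ : ℝ) : ℂ) := by
    push_cast
    ring
  rw [h1, h2, mul_div_mul_left _ _ hc']

theorem eW_smul (z : ℂ × ℂ) {c : ℝ} (hc : 0 < c) : eW (c • z) = eW z := by
  apply Complex.ext
  · change 10 * (Real.pi / 4 - Real.arctan (‖(c • z).2‖ / ‖(c • z).1‖)) =
      10 * (Real.pi / 4 - Real.arctan (‖z.2‖ / ‖z.1‖))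
    rw [Prod.smul_fst, Prod.smul_snd, norm_smul, norm_smul, mul_div_mul_left]
    rw [Real.norm_eq_abs, abs_of_pos hc]
    exact hc.ne'
  · change 10 * Complex.arg ((c • z).1 / eU (c • z) ^ 2) = 10 * Complex.arg (z.1 / eU z ^ 2)
    rw [eU_smul z hc, Prod.smul_fst, Complex.real_smul, mul_div_assoc, Complex.arg_real_mul _ hc]

theorem eInv_smul (z : ℂ × ℂ) {c : ℝ} (hc : 0 < c) : eInv (c • z) = eInv z := by
  rw [eInv_eq, eInv_eq, eU_smul z hc, eW_smul z hc]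

/-- the coordinates of `eV p` do not vanish -/
theorem eV_ne {p : ℂ × ℂ} (hp : p ∈ ST) : (eV p).1 ≠ 0 ∧ (eV p).2 ≠ 0 := by
  obtain ⟨u, w⟩ := p
  have hu : ‖u‖ = 1 := hp.1
  have hw : ‖w‖ ≤ 1 := hp.2
  have hu0 : u ≠ 0 := by
    rintro rfl
    rw [norm_zero] at hu
    exact zero_ne_one hu
  obtain ⟨a, b, t, ha, hb, -, -, -, he⟩ := eV_coord hu hw
  rw [he]
  have ha0 : (a : ℂ) ≠ 0 := by exact_mod_cast ha.ne'
  have hb0 : (b : ℂ) ≠ 0 := by exact_mod_cast hb.ne'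
  exact ⟨mul_ne_zero (pow_ne_zero 2 hu0) (mul_ne_zero ha0 (Complex.exp_ne_zero _)),
    mul_ne_zero (pow_ne_zero 3 hu0) (mul_ne_zero hb0 (Complex.exp_ne_zero _))⟩

theorem continuousAt_eU {z : ℂ × ℂ} (h1 : z.1 ≠ 0) (h2 : z.2 ≠ 0) : ContinuousAt eU z := by
  unfold eU
  refine ContinuousAt.div ?_ ?_ ?_
  · exact (continuous_snd.mul (Complex.continuous_conj.comp continuous_fst)).continuousAt
  · exact (Complex.continuous_ofReal.comp ((continuous_norm.comp continuous_snd).mul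
      (continuous_norm.comp continuous_fst))).continuousAt
  · have : ‖z.2‖ * ‖z.1‖ ≠ 0 := mul_ne_zero (norm_ne_zero_iff.2 h2) (norm_ne_zero_iff.2 h1)
    exact_mod_cast this

theorem norm_eU {z : ℂ × ℂ} (h1 : z.1 ≠ 0) (h2 : z.2 ≠ 0) : ‖eU z‖ = 1 := by
  unfold eU
  have h3 : 0 < ‖z.2‖ * ‖z.1‖ := mul_pos (norm_pos_iff.2 h2) (norm_pos_iff.2 h1)
  rw [norm_div, norm_mul, Complex.norm_conj, Complex.norm_real, Real.norm_eq_abs, abs_of_pos h3,
    div_self h3.ne']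

theorem continuousAt_eInv_aux {z : ℂ × ℂ} (h1 : z.1 ≠ 0) (h2 : z.2 ≠ 0)
    (h3 : z.1 / eU z ^ 2 ∈ Complex.slitPlane) : ContinuousAt eInv z := by
  have hU := continuousAt_eU h1 h2
  have hU0 : eU z ≠ 0 := by
    intro h
    have := norm_eU h1 h2
    rw [h, norm_zero] at this
    exact zero_ne_one this
  have hW : ContinuousAt eW z := by
    have hre : ContinuousAt (fun z : ℂ × ℂ =>
        10 * (Real.pi / 4 - Real.arctan (‖z.2‖ / ‖z.1‖))) z := by
      refine continuousAt_const.mul (continuousAt_const.sub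
        (Real.continuous_arctan.continuousAt.comp ?_))
      exact (continuous_norm.comp continuous_snd).continuousAt.div
        (continuous_norm.comp continuous_fst).continuousAt (norm_ne_zero_iff.2 h1)
    have him : ContinuousAt (fun z : ℂ × ℂ => 10 * Complex.arg (z.1 / eU z ^ 2)) z := by
      refine continuousAt_const.mul ?_
      have h4 : ContinuousAt (fun z : ℂ × ℂ => z.1 / eU z ^ 2) z :=
        continuous_fst.continuousAt.div (hU.pow 2) (pow_ne_zero 2 hU0)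
      exact (Complex.continuousAt_arg h3).comp (f := fun z : ℂ × ℂ => z.1 / eU z ^ 2) h4
    have h5 : eW = fun z : ℂ × ℂ => ((10 * (Real.pi / 4 - Real.arctan (‖z.2‖ / ‖z.1‖)) : ℝ) : ℂ) +
        ((10 * Complex.arg (z.1 / eU z ^ 2) : ℝ) : ℂ) * Complex.I := by
      funext z
      rw [← Complex.mk_eq_add_mul_I]
      rfl
    rw [h5]
    exact (Complex.continuous_ofReal.continuousAt.comp hre).add
      ((Complex.continuous_ofReal.continuousAt.comp him).mul continuousAt_const)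
  exact hU.prodMk ((hU.pow 6).mul hW)

theorem slit_eV {u w : ℂ} (hu : ‖u‖ = 1) (hw : ‖w‖ ≤ 1) :
    (eV (u, w)).1 / u ^ 2 ∈ Complex.slitPlane := by
  obtain ⟨a, b, t, ha, hb, -, -, ht, he⟩ := eV_coord hu hw
  have h1 : ‖(starRingEnd ℂ u) ^ 6 * w‖ ≤ 1 := by rw [norm_w0 hu]; exact hw
  have h3 := (Complex.abs_im_le_norm _).trans h1
  obtain ⟨h6, h7⟩ := abs_le.1 h3
  have hpi := Real.pi_gt_three
  have hu0 : u ≠ 0 := by
    rintro rfl
    rw [norm_zero] at hu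
    exact zero_ne_one hu
  rw [he]
  simp only
  rw [mul_div_cancel_left₀ _ (pow_ne_zero 2 hu0), Complex.mem_slitPlane_iff]
  left
  rw [Complex.re_ofReal_mul, Complex.exp_ofReal_mul_I_re]
  refine mul_pos ha (Real.cos_pos_of_mem_Ioo ⟨?_, ?_⟩)
  · rw [ht]; linarith
  · rw [ht]; linarith

theorem continuousAt_eInv {p : ℂ × ℂ} (hp : p ∈ ST) {c : ℝ} (hc : 0 < c) :
    ContinuousAt eInv (c • eV p) := by
  obtain ⟨h1, h2⟩ := eV_ne hp
  have hc0 : (c : ℂ) ≠ 0 := by exact_mod_cast hc.ne'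
  refine continuousAt_eInv_aux ?_ ?_ ?_
  · rw [Prod.smul_fst, Complex.real_smul]
    exact mul_ne_zero hc0 h1
  · rw [Prod.smul_snd, Complex.real_smul]
    exact mul_ne_zero hc0 h2
  · obtain ⟨u, w⟩ := p
    rw [eU_smul _ hc, eU_eV hp.1 hp.2, Prod.smul_fst, Complex.real_smul, mul_div_assoc]
    have h3 := slit_eV (u := u) (w := w) hp.1 hp.2
    rw [Complex.mem_slitPlane_iff] at h3 ⊢
    rcases h3 with h3 | h3
    · left
      rw [Complex.re_ofReal_mul]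
      exact mul_pos hc h3
    · right
      rw [Complex.im_ofReal_mul]
      exact mul_ne_zero hc.ne' h3

theorem eV_eInv' {z : ℂ × ℂ} (h1 : z.1 ≠ 0) (h2 : z.2 ≠ 0) :
    z = nrm z • eV (eInv z) := by
  have n1 : 0 < ‖z.1‖ := norm_pos_iff.2 h1
  have n2 : 0 < ‖z.2‖ := norm_pos_iff.2 h2
  have hN : 0 < nrm z := Real.sqrt_pos.2 (by positivity)
  have hU := norm_eU h1 h2
  have hU0 : eU z ≠ 0 := by
    intro h
    rw [h, norm_zero] at hU
    exact zero_ne_one hU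
  have hw0 : (starRingEnd ℂ (eU z)) ^ 6 * (eU z ^ 6 * eW z) = eW z := by
    have h3 : (starRingEnd ℂ (eU z)) ^ 6 * (eU z ^ 6 * eW z) =
        (starRingEnd ℂ (eU z) * eU z) ^ 6 * eW z := by ring
    rw [h3, conj_mul_self hU, one_pow, one_mul]
  have he : eV (eInv z) = act (eU z) (sl (eW z)) := by
    rw [eInv_eq]
    change act (eU z) (sl ((starRingEnd ℂ (eU z)) ^ 6 * (eU z ^ 6 * eW z))) = _
    rw [hw0]
  rw [he]
  have hα : Real.pi / 4 - (eW z).re / 10 = Real.arctan (‖z.2‖ / ‖z.1‖) := by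
    change Real.pi / 4 - (10 * (Real.pi / 4 - Real.arctan (‖z.2‖ / ‖z.1‖))) / 10 = _
    ring
  have hβ : (eW z).im / 10 = Complex.arg (z.1 / eU z ^ 2) := by
    change (10 * Complex.arg (z.1 / eU z ^ 2)) / 10 = _
    ring
  have hsq : Real.sqrt (1 + (‖z.2‖ / ‖z.1‖) ^ 2) = nrm z / ‖z.1‖ := by
    rw [← Real.sqrt_sq (div_nonneg hN.le n1.le)]
    congr 1
    rw [div_pow, div_pow, nrm_sq]
    field_simp
  have hcos : Real.cos (Real.arctan (‖z.2‖ / ‖z.1‖)) = ‖z.1‖ / nrm z := by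
    rw [Real.cos_arctan, hsq, one_div_div]
  have hsin : Real.sin (Real.arctan (‖z.2‖ / ‖z.1‖)) = ‖z.2‖ / nrm z := by
    rw [Real.sin_arctan, hsq]
    field_simp
  have hz1 : z.1 = eU z ^ 2 * (‖z.1‖ * Complex.exp (Complex.arg (z.1 / eU z ^ 2) * Complex.I)) := by
    have h3 := Complex.norm_mul_exp_arg_mul_I (z.1 / eU z ^ 2)
    rw [norm_div, norm_pow, hU, one_pow, div_one] at h3
    rw [h3, mul_div_cancel₀]
    exact pow_ne_zero 2 hU0
  have hz2 : z.2 = eU z ^ 3 * (‖z.2‖ * Complex.exp (Complex.arg (z.1 / eU z ^ 2) * Complex.I)) := by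
    have h3 : eU z * ((‖z.2‖ * ‖z.1‖ : ℝ) : ℂ) = z.2 * starRingEnd ℂ z.1 := by
      unfold eU
      rw [div_mul_cancel₀]
      have : ‖z.2‖ * ‖z.1‖ ≠ 0 := (mul_pos n2 n1).ne'
      exact_mod_cast this
    have h4 : z.2 * ((‖z.1‖ : ℂ) ^ 2) = eU z * ((‖z.2‖ * ‖z.1‖ : ℝ) : ℂ) * z.1 := by
      rw [h3, mul_assoc, Complex.conj_mul']
    have hn1 : (‖z.1‖ : ℂ) ≠ 0 := by exact_mod_cast n1.ne'
    have h5 : z.2 * ((‖z.1‖ : ℂ) ^ 2) = eU z ^ 3 * (‖z.2‖ *
        Complex.exp (Complex.arg (z.1 / eU z ^ 2) * Complex.I)) * ((‖z.1‖ : ℂ) ^ 2) := by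
      have h6 : eU z * ((‖z.2‖ * ‖z.1‖ : ℝ) : ℂ) * z.1 = eU z * ((‖z.2‖ * ‖z.1‖ : ℝ) : ℂ) *
          (eU z ^ 2 * (‖z.1‖ * Complex.exp (Complex.arg (z.1 / eU z ^ 2) * Complex.I))) :=
        congrArg (fun t => eU z * ((‖z.2‖ * ‖z.1‖ : ℝ) : ℂ) * t) hz1
      rw [h4, h6]
      push_cast
      ring
    exact mul_right_cancel₀ (pow_ne_zero 2 hn1) h5
  have hNc : (nrm z : ℂ) ≠ 0 := by exact_mod_cast hN.ne'
  apply Prod.ext
  · rw [Prod.smul_fst, Complex.real_smul]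
    change z.1 = (nrm z : ℂ) * (eU z ^ 2 * ((Real.cos (Real.pi / 4 - (eW z).re / 10) : ℂ) *
      Complex.exp (((eW z).im / 10 : ℝ) * Complex.I)))
    rw [hα, hβ, hcos]
    conv_lhs => rw [hz1]
    push_cast
    field_simp
  · rw [Prod.smul_snd, Complex.real_smul]
    change z.2 = (nrm z : ℂ) * (eU z ^ 3 * ((Real.sin (Real.pi / 4 - (eW z).re / 10) : ℂ) *
      Complex.exp (((eW z).im / 10 : ℝ) * Complex.I)))
    rw [hα, hβ, hsin]
    conv_lhs => rw [hz2]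
    push_cast
    field_simp

/-- if `eInv z` lies in the solid torus then `z` is a multiple of `eV (eInv z)` -/
theorem eV_eInv {z : ℂ × ℂ} (h1 : z.1 ≠ 0) (h2 : z.2 ≠ 0) (h : eInv z ∈ ST) :
    z = nrm z • eV (eInv z) := eV_eInv' h1 h2

theorem isCompact_Sph : IsCompact Sph := by
  refine Metric.isCompact_of_isClosed_isBounded ?_ ?_
  · exact isClosed_singleton.preimage continuous_nrm
  · refine (Metric.isBounded_closedBall (x := (0 : ℂ × ℂ)) (r := 1)).subset ?_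
    intro z hz
    have hz' : nrm z = 1 := hz
    have h1 := nrm_sq z
    rw [hz', one_pow] at h1
    rw [mem_closedBall_zero_iff, Prod.norm_def]
    refine max_le ?_ ?_
    · nlinarith [norm_nonneg z.1, sq_nonneg ‖z.2‖]
    · nlinarith [norm_nonneg z.2, sq_nonneg ‖z.1‖]

theorem isClosed_Exr {r : ℝ} (hr : 0 < r) (hr1 : r ≤ 1) : IsCompact (Exr r) := by
  refine isCompact_Sph.of_isClosed_subset ?_ sdiff_subset
  rw [← isOpen_compl_iff, isOpen_iff_mem_nhds]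
  intro z hz
  by_cases hS : z ∈ Sph
  · -- `z` lies in the open tube
    have hz' : ∃ u w : ℂ, ‖u‖ = 1 ∧ ‖w‖ < r ∧ z = eV (u, w) := by
      by_contra hcon
      exact hz ⟨hS, hcon⟩
    obtain ⟨u, w, hu, hw, rfl⟩ := hz'
    have hp : (u, w) ∈ ST := ⟨hu, (hw.trans_le hr1).le⟩
    have hc := continuousAt_eInv hp one_pos
    rw [one_smul] at hc
    have e1 : ∀ᶠ y in nhds (eV (u, w)), ‖(eInv y).2‖ < r := by
      have h3 : ContinuousAt (fun y => ‖(eInv y).2‖) (eV (u, w)) :=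
        (continuous_norm.comp continuous_snd).continuousAt.comp hc
      refine h3.eventually_lt continuousAt_const ?_
      rw [eInv_eV hp]
      exact hw
    have e2 : ∀ᶠ y : ℂ × ℂ in nhds (eV (u, w)), y.1 ≠ 0 :=
      continuous_fst.continuousAt.eventually_ne (eV_ne hp).1
    have e3 : ∀ᶠ y : ℂ × ℂ in nhds (eV (u, w)), y.2 ≠ 0 :=
      continuous_snd.continuousAt.eventually_ne (eV_ne hp).2
    filter_upwards [e1, e2, e3] with y h1 h2 h3
    rintro ⟨hyS, hy⟩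
    refine hy ⟨(eInv y).1, (eInv y).2, norm_eU h2 h3, h1, ?_⟩
    have h4 := eV_eInv' h2 h3
    rw [show nrm y = 1 from hyS, one_smul] at h4
    exact h4
  · have h1 : IsOpen Sphᶜ := (isClosed_singleton.preimage continuous_nrm).isOpen_compl
    exact Filter.mem_of_superset (h1.mem_nhds hS) fun y hy hy' => hy hy'.1

theorem fK_ne {z : ℂ × ℂ} (hz : z ≠ 0) (h : ∀ k ∈ Kn, z ≠ nrm z • k) : fK z ≠ 0 := by
  intro hf
  unfold fK at hf
  have hs2 : (0 : ℝ) < Real.sqrt 2 := by positivity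
  have hs2' : Real.sqrt 2 ^ 2 = 2 := Real.sq_sqrt (by norm_num)
  -- the norm is positive
  have hN0 : 0 < nrm z := by
    rcases (nrm_nonneg z).eq_or_lt with h0 | h0
    · exfalso
      apply hz
      have h1 := nrm_sq z
      rw [← h0] at h1
      have h2 : ‖z.1‖ = 0 := by nlinarith [sq_nonneg ‖z.1‖, sq_nonneg ‖z.2‖]
      have h3 : ‖z.2‖ = 0 := by nlinarith [sq_nonneg ‖z.1‖, sq_nonneg ‖z.2‖]
      exact Prod.ext (norm_eq_zero.1 h2) (norm_eq_zero.1 h3)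
    · exact h0
  set N := nrm z with hN
  have hsq : N ^ 2 = ‖z.1‖ ^ 2 + ‖z.2‖ ^ 2 := nrm_sq z
  have heq : z.1 ^ 3 = ((N / Real.sqrt 2 : ℝ) : ℂ) * z.2 ^ 2 := sub_eq_zero.1 hf
  -- norms
  have hnorm : ‖z.1‖ ^ 3 = N / Real.sqrt 2 * ‖z.2‖ ^ 2 := by
    have h1 := congrArg norm heq
    rw [norm_pow, norm_mul, norm_pow, Complex.norm_real, Real.norm_eq_abs,
      abs_of_pos (div_pos hN0 hs2)] at h1
    exact h1
  have ha : ‖z.1‖ = N / Real.sqrt 2 := by
    set a := ‖z.1‖ with ha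
    have ha0 : 0 ≤ a := norm_nonneg _
    set c := N / Real.sqrt 2 with hc
    have hc0 : 0 < c := div_pos hN0 hs2
    have hc2 : N ^ 2 = 2 * c ^ 2 := by
      rw [hc, div_pow, hs2']
      ring
    have h1 : a ^ 3 = c * (2 * c ^ 2 - a ^ 2) := by
      rw [hnorm]
      have : ‖z.2‖ ^ 2 = 2 * c ^ 2 - a ^ 2 := by rw [← hc2, hsq]; ring
      rw [this]
    have h2 : (a - c) * (a ^ 2 + 2 * a * c + 2 * c ^ 2) = 0 := by nlinarith
    rcases mul_eq_zero.1 h2 with h3 | h3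
    · linarith
    · nlinarith [mul_nonneg ha0 hc0.le, sq_nonneg a, pow_pos hc0 2]
  have hb : ‖z.2‖ = N / Real.sqrt 2 := by
    have h1 : ‖z.2‖ ^ 2 = (N / Real.sqrt 2) ^ 2 := by
      have h2 : (N / Real.sqrt 2) ^ 2 = N ^ 2 / 2 := by rw [div_pow, hs2']
      rw [ha, h2] at hsq
      rw [h2]
      linarith
    exact (pow_left_inj₀ (norm_nonneg _) (div_pos hN0 hs2).le two_ne_zero).1 h1
  have hc0 : 0 < N / Real.sqrt 2 := div_pos hN0 hs2
  set c := N / Real.sqrt 2 with hc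
  have hcc : (c : ℂ) ≠ 0 := by exact_mod_cast hc0.ne'
  have hz1 : z.1 ≠ 0 := by
    intro h1
    rw [h1, norm_zero] at ha
    exact hc0.ne ha
  have hz2 : z.2 ≠ 0 := by
    intro h1
    rw [h1, norm_zero] at hb
    exact hc0.ne hb
  -- the point of the circle
  set u : ℂ := z.2 / z.1 with hu
  have hun : ‖u‖ = 1 := by
    rw [hu, norm_div, ha, hb, div_self hc0.ne']
  have hu2 : (c : ℂ) * u ^ 2 = z.1 := by
    rw [hu, div_pow]
    field_simp
    rw [heq]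
  have hu3 : (c : ℂ) * u ^ 3 = z.2 := by
    have h1 : (c : ℂ) * u ^ 3 = (c : ℂ) * u ^ 2 * u := by ring
    rw [h1, hu2, hu]
    field_simp
  refine h (eV (u, 0)) ⟨u, hun, rfl⟩ ?_
  have hcos : Real.cos (Real.pi / 4) = 1 / Real.sqrt 2 := by
    rw [Real.cos_pi_div_four]
    field_simp
    exact hs2'
  have hsin : Real.sin (Real.pi / 4) = 1 / Real.sqrt 2 := by
    rw [Real.sin_pi_div_four]
    field_simp
    exact hs2'
  have he : eV (u, 0) = (u ^ 2 * ((1 / Real.sqrt 2 : ℝ) : ℂ), u ^ 3 * ((1 / Real.sqrt 2 : ℝ) : ℂ)) := by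
    unfold eV act sl
    simp only [mul_zero, Complex.zero_re, Complex.zero_im, zero_div, sub_zero, Complex.ofReal_zero,
      zero_mul, Complex.exp_zero, mul_one, hcos, hsin]
  rw [he]
  have hNc : (N : ℂ) * ((1 / Real.sqrt 2 : ℝ) : ℂ) = (c : ℂ) := by
    rw [hc]
    push_cast
    ring
  apply Prod.ext
  · rw [Prod.smul_fst, Complex.real_smul]
    change z.1 = (N : ℂ) * (u ^ 2 * ((1 / Real.sqrt 2 : ℝ) : ℂ))
    rw [← hu2, ← hNc]
    ring
  · rw [Prod.smul_snd, Complex.real_smul]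
    change z.2 = (N : ℂ) * (u ^ 3 * ((1 / Real.sqrt 2 : ℝ) : ℂ))
    rw [← hu3, ← hNc]
    ring

end Pool.Agent.Helper60.Geo
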