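import Pool.Agent.Helper60.Geo.Conc

/-! Pullback by a homeomorphism of subsets, Mayer-Vietoris for `A ∪ B'` with `A`, `B ⊇ B'` closed,
and the decomposition `S³ ∖ J = Ex ∪ e(V ∖ P)` (project 68, part 5). -/

set_option autoImplicit false
set_option linter.unusedSectionVars false
set_option linter.unusedVariables false

namespace Pool.Agent.Helper60.Geo

open Set AS

section general

variable {Ω Ω' k V : Type*} [PseudoMetricSpace Ω] [PseudoMetricSpace Ω'] [CommRing k]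
  [AddCommGroup V] [Module k V]
variable {T T' : Ω → Ω → (V →ₗ[k] V)} {S A B B' : Set Ω} {R : Set Ω'} {f : Ω' → Ω} {g : Ω → Ω'}
  {q : ℕ}

theorem jm_near {n : ℕ} {c c' : List Ω → V} (h : NZ S n c)
    (h' : ∀ a ∈ S, ∃ ε > 0, ∀ l : List Ω, l.length = n → (∀ x ∈ l, dist x a < ε) → c l = 0 →
      c' l = 0) : NZ S n c' := by
  intro a ha
  obtain ⟨e1, h1, h⟩ := h a ha
  obtain ⟨e2, h2, h'⟩ := h' a ha
  refine ⟨min e1 e2, lt_min h1 h2, fun l hl hx => ?_⟩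
  exact h' l hl (fun x hxl => (hx x hxl).trans_le (min_le_right _ _))
    (h l hl (fun x hxl => (hx x hxl).trans_le (min_le_left _ _)))

theorem gm_mem_Zc {u : Ω → (V →ₗ[k] V)}
    (h : ∀ a ∈ S, ∃ ε > 0, ∀ x y, dist x a < ε → dist y a < ε →
      T' x y ∘ₗ u y = u x ∘ₗ T x y) {c : List Ω → V} (hc : c ∈ Zc T S ∅ q) :
    gm u c ∈ Zc T' S ∅ q := by
  refine ⟨NZ.empty, jm_near hc.2 ?_⟩
  intro a ha
  obtain ⟨e, he, h⟩ := h a ha
  refine ⟨e, he, fun l hl hx h0 => ?_⟩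
  rw [dT_gm T T' u c l (fun x hx' y hy => h x y (hx x hx') (hx y hy))]
  cases l with
  | nil => rfl
  | cons x l => rw [gm_cons, h0, map_zero]

theorem gm_mem_Bc {u : Ω → (V →ₗ[k] V)}
    (h : ∀ a ∈ S, ∃ ε > 0, ∀ x y, dist x a < ε → dist y a < ε →
      T' x y ∘ₗ u y = u x ∘ₗ T x y) {c : List Ω → V} (hc : c ∈ Bc T S ∅ q) :
    gm u c ∈ Bc T' S ∅ q := by
  obtain ⟨b, -, hb⟩ := hc
  refine ⟨gm u b, NZ.empty, jm_near hb ?_⟩
  intro a ha
  obtain ⟨e, he, h⟩ := h a ha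
  refine ⟨e, he, fun l hl hx h0 => ?_⟩
  rw [Pi.sub_apply, dT_gm T T' u b l (fun x hx' y hy => h x y (hx x hx') (hx y hy))]
  cases l with
  | nil => simp
  | cons x l => rw [gm_cons, gm_cons, ← map_sub, ← Pi.sub_apply, h0, map_zero]

/-- the gauge from `pT F T` to `T` for a map `F` which is the identity on `S` -/
theorem tg_gauge (hT : Flat T S) {F : Ω → Ω} (hF : ∀ a ∈ S, ContinuousAt F a ∧ F a = a) :
    ∀ a ∈ S, ∃ ε > 0, ∀ x y, dist x a < ε → dist y a < ε →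
      T x y ∘ₗ tg T F y = tg T F x ∘ₗ pT F T x y := by
  intro a ha
  obtain ⟨e, he, h⟩ := hT a ha
  obtain ⟨d, hd, hFd⟩ := Metric.continuousAt_iff.1 (hF a ha).1 e he
  rw [(hF a ha).2] at hFd
  refine ⟨min e d, lt_min he hd, fun x y hx hy => ?_⟩
  have hx1 := hx.trans_le (min_le_left _ _)
  have hy1 := hy.trans_le (min_le_left _ _)
  have hx2 := hFd (hx.trans_le (min_le_right _ _))
  have hy2 := hFd (hy.trans_le (min_le_right _ _))
  have e1 := (h x y (F y) hx1 hy1 hy2).1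
  have e2 := (h x (F x) (F y) hx1 hx2 hy2).1
  show T x y ∘ₗ T y (F y) = T x (F x) ∘ₗ T (F x) (F y)
  rw [e1, e2]

theorem pb_surj (hT : Flat T S) (hf : ∀ a ∈ R, ContinuousAt f a) (hm : MapsTo f R S)
    (hg : ∀ a ∈ S, ContinuousAt g a) (hm' : MapsTo g S R) (hfg : ∀ a ∈ S, f (g a) = a)
    (hgf : ∀ a ∈ R, g (f a) = a) {c : List Ω' → V} (hc : c ∈ Zc (pT f T) R ∅ q) :
    ∃ c' ∈ Zc T S ∅ q, pb f c' - c ∈ Bc (pT f T) R ∅ q := by
  have hF : ∀ a ∈ S, ContinuousAt (fun x => f (g x)) a ∧ f (g a) = a := fun a ha =>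
    ⟨ContinuousAt.comp (f := g) (g := f) (hf _ (hm' ha)) (hg a ha), hfg a ha⟩
  have hF' : ∀ a ∈ R, ContinuousAt (fun x => g (f x)) a ∧ g (f a) = a := fun a ha =>
    ⟨ContinuousAt.comp (f := f) (g := g) (hg _ (hm ha)) (hf a ha), hgf a ha⟩
  have h1 : pb g c ∈ Zc (pT g (pT f T)) S ∅ q :=
    pb_mem_Zc hg (fun a ha => ha.elim) hm' (fun a ha => ha.elim) hc
  have hTR : Flat (pT f T) R := hT.pT hf hm
  refine ⟨gm (tg T (fun x => f (g x))) (pb g c), gm_mem_Zc (tg_gauge hT hF) h1, ?_⟩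
  have h2 := contig (q := q) hTR (empty_subset R) (F := fun x => g (f x)) hF' hc
  have h3 : c - gm (tg (pT f T) (fun x => g (f x))) (pb (fun x => g (f x)) c) =
      - (gm (tg (pT f T) (fun x => g (f x))) (pb (fun x => g (f x)) c) - c) := by abel
  rw [h3] at h2
  have h4 := (Submodule.neg_mem_iff _).1 h2
  obtain ⟨b, hb, h5⟩ := h4
  refine ⟨b, hb, jm_near h5 ?_⟩
  intro a ha
  refine ⟨1, one_pos, fun l hl hx h0 => ?_⟩
  cases l with
  | nil => simp at hl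
  | cons x l =>
    rw [← h0]
    simp only [Pi.sub_apply, gm_cons, pb, List.map_cons, tg, pT, List.map_map]
    rfl

theorem pb_inj (hT : Flat T S) (hf : ∀ a ∈ R, ContinuousAt f a) (hm : MapsTo f R S)
    (hg : ∀ a ∈ S, ContinuousAt g a) (hm' : MapsTo g S R) (hfg : ∀ a ∈ S, f (g a) = a)
    {c : List Ω → V} (hc : c ∈ Zc T S ∅ q) (h : pb f c ∈ Bc (pT f T) R ∅ q) :
    c ∈ Bc T S ∅ q := by
  have hF : ∀ a ∈ S, ContinuousAt (fun x => f (g x)) a ∧ f (g a) = a := fun a ha =>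
    ⟨ContinuousAt.comp (f := g) (g := f) (hf _ (hm' ha)) (hg a ha), hfg a ha⟩
  have h1 : pb g (pb f c) ∈ Bc (pT g (pT f T)) S ∅ q :=
    pb_mem_Bc hg (fun a ha => ha.elim) hm' (fun a ha => ha.elim) h
  have h2 := gm_mem_Bc (tg_gauge hT hF) h1
  have h3 := contig hT (empty_subset S) (F := fun x => f (g x)) hF hc
  have h4 : gm (tg T (fun x => f (g x))) (pb g (pb f c)) =
      gm (tg T (fun x => f (g x))) (pb (fun x => f (g x)) c) := by
    funext l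
    cases l with
    | nil => rfl
    | cons x l =>
      simp only [gm_cons, pb, List.map_cons, List.map_map]
      rfl
  rw [h4] at h2
  have h5 := Submodule.add_mem _ h3 h2
  rwa [sub_add_cancel] at h5

/-- pullback in cohomology is an isomorphism if it is injective and surjective elementwise -/
theorem Hpb_equiv (hf : ∀ a ∈ R, ContinuousAt f a) (hm : MapsTo f R S)
    (inj : ∀ c ∈ Zc T S ∅ q, pb f c ∈ Bc (pT f T) R ∅ q → c ∈ Bc T S ∅ q)
    (surj : ∀ c ∈ Zc (pT f T) R ∅ q, ∃ c' ∈ Zc T S ∅ q, pb f c' - c ∈ Bc (pT f T) R ∅ q) :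
    Nonempty (H T S ∅ q ≃ₗ[k] H (pT f T) R ∅ q) := by
  let φ : Zc T S ∅ q →ₗ[k] Zc (pT f T) R ∅ q :=
    { toFun := fun c => ⟨pb f c.1, pb_mem_Zc hf (fun a ha => ha.elim) hm (fun a ha => ha.elim) c.2⟩
      map_add' := fun a b => by ext l; rfl
      map_smul' := fun r a => by ext l; rfl }
  let Φ : H T S ∅ q →ₗ[k] H (pT f T) R ∅ q := Submodule.mapQ _ _ φ (fun c hc =>
    pb_mem_Bc hf (fun a ha => ha.elim) hm (fun a ha => ha.elim) hc)
  have hΦ : ∀ c, Φ (H.mk T S ∅ q c) = H.mk (pT f T) R ∅ q (φ c) := fun c => rfl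
  refine ⟨LinearEquiv.ofBijective Φ ⟨?_, ?_⟩⟩
  · rw [injective_iff_map_eq_zero]
    intro x hx
    obtain ⟨c, rfl⟩ := H.mk_surjective q x
    rw [hΦ, H.mk_eq_zero] at hx
    rw [H.mk_eq_zero]
    exact inj _ c.2 hx
  · intro y
    obtain ⟨c, rfl⟩ := H.mk_surjective q y
    obtain ⟨c', hc', h⟩ := surj c.1 c.2
    refine ⟨H.mk T S ∅ q ⟨c', hc'⟩, ?_⟩
    rw [hΦ, ← sub_eq_zero, ← map_sub, H.mk_eq_zero]
    exact h

/-- Mayer-Vietoris, injectivity -/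
theorem mvo_inj (cA : IsClosed A) (cB : IsClosed B) (hB : B' ⊆ B) (hAB : A ∩ B ⊆ B')
    (hT : Flat T (A ∪ B')) (v : HV T (A ∩ B) ∅ q) {c : List Ω → V} (h1 : c ∈ Bc T A ∅ (q + 1))
    (h2 : c ∈ Bc T B' ∅ (q + 1)) : c ∈ Bc T (A ∪ B') ∅ (q + 1) := by
  obtain ⟨b1, -, h1⟩ := h1
  obtain ⟨b2, -, h2⟩ := h2
  have h3 : b1 - b2 ∈ Zc T (A ∩ B) ∅ q := by
    refine ⟨NZ.empty, ?_⟩
    have : dT T (b1 - b2) = (c - dT T b2) - (c - dT T b1) := by rw [dT_sub]; abel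
    rw [this]
    exact (h2.mono hAB).sub (h1.mono inter_subset_left)
  obtain ⟨e, -, h4⟩ := v h3
  obtain ⟨d1, d2, hd, hd1, hd2⟩ := NZ.inter_split cA cB (by omega) h4
  refine ⟨b1 - d1, NZ.empty, NZ.union ?_ ?_⟩
  · have : c - dT T (b1 - d1) = (c - dT T b1) + dT T d1 := by rw [dT_sub]; abel
    rw [this]
    exact h1.add (hd1.dT T)
  · have h5 : b1 - d1 = b2 + dT T e + d2 := by
      have : b1 - d1 = (b1 - b2 - dT T e) - d1 + b2 + dT T e := by abel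
      rw [this, hd]; abel
    have : c - dT T (b1 - d1) = (c - dT T b2) - dT T (dT T e) - dT T d2 := by
      rw [h5, dT_add, dT_add]; abel
    rw [this]
    exact (h2.sub (nz_dT_dT (hT.mono subset_union_right) e _)).sub ((hd2.mono hB).dT T)

/-- Mayer-Vietoris, extension by zero over `A` of a cocycle on `B'` -/
theorem mvo_surj (cA : IsClosed A) (cB : IsClosed B) (hB : B' ⊆ B) (hAB : A ∩ B ⊆ B')
    (hT : Flat T (A ∪ B')) (v : HV T (A ∩ B) ∅ q) {c : List Ω → V} (hc : c ∈ Zc T B' ∅ q) :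
    ∃ c' ∈ Zc T (A ∪ B') ∅ q, c' - c ∈ Bc T B' ∅ q ∧ NZ A (q + 1) c' := by
  obtain ⟨e, -, h4⟩ := v (Zc_mono hAB (le_refl _) q hc)
  obtain ⟨d1, d2, hd, hd1, hd2⟩ := NZ.inter_split cA cB (by omega) h4
  have h5 : d1 = c - dT T e - d2 := by rw [hd]; abel
  refine ⟨d1, ⟨NZ.empty, NZ.union (hd1.dT T) ?_⟩, ⟨-e, NZ.empty, ?_⟩, hd1⟩
  · have : dT T d1 = dT T c - dT T (dT T e) - dT T d2 := by rw [h5, dT_sub, dT_sub]
    rw [this]
    exact (hc.2.sub (nz_dT_dT (hT.mono subset_union_right) e _)).sub ((hd2.mono hB).dT T)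
  · have : d1 - c - dT T (-e) = - d2 := by rw [h5, dT_neg]; abel
    rw [this]
    exact (hd2.mono hB).neg

end general

/-! ### the decomposition of the sphere -/

theorem continuous_ee : Continuous ee := by unfold ee; fun_prop

@[simp] theorem norm_ee (s : ℝ) : ‖ee s‖ = 1 := by
  unfold ee
  rw [Complex.norm_exp]
  simp

theorem ee_zero : ee 0 = 1 := by simp [ee]
theorem ee_one : ee 1 = 1 := by
  unfold ee
  rw [Complex.ofReal_one, mul_one]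
  exact Complex.exp_two_pi_mul_I
theorem jmv_ee_add (s t : ℝ) : ee (s + t) = ee s * ee t := by
  unfold ee
  rw [← Complex.exp_add]
  congr 1
  push_cast
  ring

theorem exists_ee {u : ℂ} (hu : ‖u‖ = 1) : ∃ s : ℝ, u = ee s := by
  refine ⟨Complex.arg u / (2 * Real.pi), ?_⟩
  have h1 := Complex.norm_mul_exp_arg_mul_I u
  rw [hu, Complex.ofReal_one, one_mul] at h1
  rw [← h1]
  unfold ee
  congr 1
  push_cast
  have : (Real.pi : ℂ) ≠ 0 := by exact_mod_cast Real.pi_ne_zero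
  field_simp
  rw [h1]

theorem isCompact_ST : IsCompact ST := by
  have h : ST = Metric.sphere (0:ℂ) 1 ×ˢ Metric.closedBall (0:ℂ) 1 := by
    ext p
    simp [ST]
  rw [h]
  exact (isCompact_sphere _ _).prod (isCompact_closedBall _ _)

theorem isClosed_eVST : IsClosed (eV '' ST) := (isCompact_ST.image continuous_eV).isClosed

theorem dST_subset : dST ⊆ ST := fun p hp => ⟨hp.1, hp.2.le⟩

theorem isCompact_Pat : IsCompact Pat := by
  apply IsCompact.union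
  · apply isCompact_Icc.image
    unfold Gc sg
    exact (continuous_ee.comp (by fun_prop)).prodMk (by fun_prop)
  · apply isCompact_Icc.image
    unfold Ac hh
    fun_prop

theorem Pat_norm {p : ℂ × ℂ} (hp : p ∈ Pat) : ‖p.1‖ = 1 ∧ ‖p.2‖ < 1 := by
  rcases hp with ⟨r, hr, rfl⟩ | ⟨r, hr, rfl⟩
  · refine ⟨norm_ee _, ?_⟩
    show ‖((r - 1/2 : ℝ) : ℂ)‖ < 1
    rw [Complex.norm_real, Real.norm_eq_abs, abs_lt]
    constructor <;> linarith [hr.1, hr.2]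
  · refine ⟨by simp [Ac], ?_⟩
    show ‖((r - 1/2 : ℝ) : ℂ) + (hh r : ℂ) * Complex.I‖ < 1
    have h1 : ‖((r - 1/2 : ℝ) : ℂ) + (hh r : ℂ) * Complex.I‖ ^ 2 < 1 := by
      rw [← Complex.normSq_eq_norm_sq, Complex.normSq_add_mul_I]
      have h2 : |hh r| ≤ 1/2 := by
        unfold hh
        have h3 : 0 ≤ r * (1 - r) := mul_nonneg hr.1 (by linarith [hr.2])
        have h4 : r * (1 - r) ≤ 1/4 := by nlinarith [sq_nonneg (r - 1/2)]
        rw [abs_mul, abs_of_nonneg h3]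
        have h5 : |3 * r - 1| ≤ 2 := by
          rw [abs_le]; constructor <;> linarith [hr.1, hr.2]
        nlinarith [abs_nonneg (3 * r - 1)]
      have h3 : (hh r) ^ 2 ≤ 1/4 := by
        rw [← sq_abs]
        nlinarith [abs_nonneg (hh r)]
      have h4 : (r - 1/2) ^ 2 ≤ 1/4 := by nlinarith [hr.1, hr.2]
      nlinarith
    nlinarith [norm_nonneg (((r - 1/2 : ℝ) : ℂ) + (hh r : ℂ) * Complex.I)]

theorem Pat_subset : Pat ⊆ ST := fun p hp => ⟨(Pat_norm hp).1, (Pat_norm hp).2.le⟩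

theorem Jn_subset : Jn ⊆ Sph := by
  rintro _ ⟨p, hp, rfl⟩
  exact eV_sph (Pat_subset hp)

theorem mem_Exr_eV {p : ℂ × ℂ} (hp : p ∈ ST) : eV p ∈ Ex ↔ ‖p.2‖ = 1 := by
  constructor
  · rintro ⟨-, h⟩
    by_contra hne
    exact h ⟨p.1, p.2, hp.1, lt_of_le_of_ne hp.2 hne, rfl⟩
  · intro h
    refine ⟨eV_sph hp, ?_⟩
    rintro ⟨u, w, hu, hw, he⟩
    have h1 := injOn_eV hp (⟨hu, hw.le⟩ : ((u, w) : ℂ × ℂ) ∈ ST) he
    rw [h1] at h
    exact absurd h hw.ne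

theorem Ex_inter : Ex ∩ eV '' ST = eV '' dST := by
  ext z
  constructor
  · rintro ⟨h1, p, hp, rfl⟩
    exact ⟨p, ⟨hp.1, (mem_Exr_eV hp).1 h1⟩, rfl⟩
  · rintro ⟨p, hp, rfl⟩
    exact ⟨(mem_Exr_eV (dST_subset hp)).2 hp.2, p, dST_subset hp, rfl⟩

theorem dST_VP : dST ⊆ VP := by
  intro p hp
  refine ⟨dST_subset hp, fun h => ?_⟩
  exact absurd hp.2 (Pat_norm h).2.ne

theorem SphJ_eq : Sph \ Jn = Ex ∪ eV '' VP := by
  ext z
  constructor
  · rintro ⟨h1, h2⟩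
    by_cases h3 : z ∈ Ex
    · exact Or.inl h3
    · right
      have h4 : z ∈ {z | ∃ u w : ℂ, ‖u‖ = 1 ∧ ‖w‖ < 1 ∧ z = eV (u, w)} := by
        by_contra h5
        exact h3 ⟨h1, h5⟩
      obtain ⟨u, w, hu, hw, rfl⟩ := h4
      exact ⟨(u, w), ⟨⟨hu, hw.le⟩, fun h => h2 ⟨_, h, rfl⟩⟩, rfl⟩
  · rintro (h | ⟨p, hp, rfl⟩)
    · refine ⟨h.1, ?_⟩
      rintro ⟨p, hp, rfl⟩
      exact absurd ((mem_Exr_eV (Pat_subset hp)).1 h) (Pat_norm hp).2.ne
    · refine ⟨eV_sph hp.1, ?_⟩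
      rintro ⟨p', hp', he⟩
      have := injOn_eV (Pat_subset hp') hp.1 he
      exact hp.2 (this ▸ hp')

theorem isClosed_Ex : IsClosed Ex := (isClosed_Exr one_pos le_rfl).isClosed

/-! ### the torus -/

/-- rotations of the solid torus -/
def rot (a b : ℂ) (p : ℂ × ℂ) : ℂ × ℂ := (a * p.1, b * p.2)

/-- the ambient homotopy lifting `rot` -/
noncomputable def KR (a b : ℝ → ℂ) (s : ℝ) (z : ℂ × ℂ) : ℂ × ℂ :=
  z + (eV (rot (a s) (b s) (eInv z)) - eV (eInv z))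

theorem KR_one {a b : ℝ → ℂ} {s : ℝ} (ha : a s = 1) (hb : b s = 1) (z : ℂ × ℂ) :
    KR a b s z = z := by
  unfold KR rot
  rw [ha, hb, one_mul, one_mul, sub_self, add_zero]

theorem KR_eV {a b : ℝ → ℂ} {s : ℝ} {p : ℂ × ℂ} (hp : p ∈ ST) :
    KR a b s (eV p) = eV (rot (a s) (b s) p) := by
  unfold KR
  rw [eInv_eV hp]
  abel

theorem KR_cont {a b : ℝ → ℂ} (ha : Continuous a) (hb : Continuous b) {s : ℝ} {p : ℂ × ℂ}
    (hp : p ∈ ST) : ContinuousAt (fun x : ℝ × (ℂ × ℂ) => KR a b x.1 x.2) (s, eV p) := by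
  have h0 := continuousAt_eInv hp one_pos
  rw [one_smul] at h0
  have h1 : ContinuousAt (fun x : ℝ × (ℂ × ℂ) => eInv x.2) (s, eV p) :=
    ContinuousAt.comp (f := fun x : ℝ × (ℂ × ℂ) => x.2) (g := eInv) h0 continuousAt_snd
  have h2 : ContinuousAt (fun x : ℝ × (ℂ × ℂ) => rot (a x.1) (b x.1) (eInv x.2)) (s, eV p) := by
    unfold rot
    apply ContinuousAt.prodMk
    · exact ((ha.comp continuous_fst).continuousAt).mul h1.fst
    · exact ((hb.comp continuous_fst).continuousAt).mul h1.snd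
  unfold KR
  apply ContinuousAt.add continuousAt_snd
  apply ContinuousAt.sub
  · exact continuous_eV.continuousAt.comp h2
  · exact continuous_eV.continuousAt.comp h1

theorem rot_dST {a b : ℂ} (ha : ‖a‖ = 1) (hb : ‖b‖ = 1) {p : ℂ × ℂ} (hp : p ∈ dST) :
    rot a b p ∈ dST := by
  refine ⟨?_, ?_⟩
  · show ‖a * p.1‖ = 1
    rw [norm_mul, ha, hp.1, one_mul]
  · show ‖b * p.2‖ = 1
    rw [norm_mul, hb, hp.2, one_mul]

variable {G k V : Type*} [Group G] {T : ℂ × ℂ → ℂ × ℂ → G}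
  [CommRing k] [AddCommGroup V] [Module k V] (ρ : G →* (V →ₗ[k] V))

theorem isUnit_conj {g g' a : G} (h : g' = a⁻¹ * g * a) (hu : IsUnit (1 - ρ g')) :
    IsUnit (1 - ρ g) := by
  have h1 : g = a * g' * a⁻¹ := by rw [h]; group
  have h2 : 1 - ρ g = ρ a * (1 - ρ g') * ρ a⁻¹ := by
    rw [h1, map_mul, map_mul, mul_sub, sub_mul, mul_one, ← map_mul ρ a a⁻¹,
      mul_inv_cancel, map_one]
  rw [h2]
  exact (((Group.isUnit a).map ρ).mul hu).mul ((Group.isUnit a⁻¹).map ρ)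

/-- loops on the torus in the class `(m, n)` -/
theorem torus_loop {S : Set (ℂ × ℂ)} (hT : GFlat T S) (hS : eV '' dST ⊆ S) {m n : ℤ} {g g' : G}
    {p : ℂ × ℂ} (hp : p ∈ dST)
    (hg : HasTr T (fun s => eV (rot (ee (m * s)) (ee (n * s)) p)) g)
    (hg' : HasTr T (fun s => eV (ee (m * s), ee (n * s))) g') : ∃ a, g' = a⁻¹ * g * a := by
  obtain ⟨α, hα⟩ := exists_ee hp.1
  obtain ⟨β, hβ⟩ := exists_ee hp.2
  have hint : ∀ j : ℤ, ee j = 1 := by
    intro j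
    unfold ee
    rw [Complex.exp_eq_one_iff]
    exact ⟨j, by push_cast; ring⟩
  have key := HasTr.free_homotopic (T := T) (S := S)
    (K := fun t s => eV (ee (m * s + (1 - t) * α), ee (n * s + (1 - t) * β))) hT
    (by
      apply Continuous.continuousOn
      apply continuous_eV.comp
      exact (continuous_ee.comp (by fun_prop)).prodMk (continuous_ee.comp (by fun_prop)))
    (by
      intro s _ t _
      exact hS ⟨_, ⟨norm_ee _, norm_ee _⟩, rfl⟩)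
    (by
      intro t _
      simp only [mul_zero, mul_one, jmv_ee_add, hint, ee_zero])
    (g₀ := g) (g₁ := g')
    (by
      refine hg.congr (fun s _ => ?_)
      simp only [rot, sub_zero, one_mul, jmv_ee_add, hα, hβ])
    (by
      refine hg'.congr (fun s _ => ?_)
      simp only [sub_self, zero_mul, add_zero])
  obtain ⟨a, -, h⟩ := key
  exact ⟨a, h⟩

/-- the torus is acyclic in degrees `0`, `1` if some loop `(m, n)` has `1 - ρ g` invertible -/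
theorem torus_HV {S : Set (ℂ × ℂ)} (hT : GFlat T S) (hS : eV '' dST ⊆ S) {m n : ℤ} {g : G}
    (hg : HasTr T (fun s => eV (ee (m * s), ee (n * s))) g) (hu : IsUnit (1 - ρ g)) :
    HV (sys T ρ) (eV '' dST) ∅ 0 ∧ HV (sys T ρ) (eV '' dST) ∅ 1 := by
  have hint : ∀ j : ℤ, ee j = 1 := by
    intro j
    unfold ee
    rw [Complex.exp_eq_one_iff]
    exact ⟨j, by push_cast; ring⟩
  let K : ℝ → ℂ × ℂ → ℂ × ℂ := KR (fun s => ee (m * s)) (fun s => ee (n * s))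
  have hK : ∀ s ∈ Icc (0:ℝ) 1, ∀ a ∈ eV '' dST,
      ContinuousAt (fun p : ℝ × (ℂ × ℂ) => K p.1 p.2) (s, a) := by
    rintro s _ _ ⟨p, hp, rfl⟩
    exact KR_cont (continuous_ee.comp (by fun_prop)) (continuous_ee.comp (by fun_prop))
      (dST_subset hp)
  have hm : ∀ s ∈ Icc (0:ℝ) 1, ∀ a ∈ eV '' dST, K s a ∈ eV '' dST := by
    rintro s _ _ ⟨p, hp, rfl⟩
    rw [show K s (eV p) = _ from KR_eV (dST_subset hp)]
    exact ⟨_, rot_dST (norm_ee _) (norm_ee _) hp, rfl⟩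
  have h0 : ∀ x, K 0 x = x := by
    intro x
    apply KR_one <;> simp only [mul_zero, ee_zero]
  have h1 : ∀ x, K 1 x = x := by
    intro x
    apply KR_one <;> simp only [mul_one, hint]
  have hΦ : ∀ x ∈ eV '' dST, ∀ g, HasTr T (fun s => K s x) g → IsUnit (1 - ρ g) := by
    rintro _ ⟨p, hp, rfl⟩ g₀ hg₀
    have hcg : HasTr T (fun s => eV (rot (ee (m * s)) (ee (n * s)) p)) g₀ := by
      refine HasTr.congr hg₀ ?_
      intro s _
      exact (KR_eV (a := fun s => ee (m * s)) (b := fun s => ee (n * s)) (s := s)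
        (dST_subset hp)).symm
    obtain ⟨a, ha⟩ := torus_loop (m := m) (n := n) hT hS hp hcg hg
    exact isUnit_conj ρ ha hu
  exact ⟨circle_lemma_zero ρ (hT.mono hS) hK hm h0 h1 hΦ,
    circle_lemma_one ρ (hT.mono hS) hK hm h0 h1 hΦ⟩

theorem torus_mer {S : Set (ℂ × ℂ)} (hT : GFlat T S) (hS : eV '' dST ⊆ S) {g : G}
    (hg : HasTr T (merE 1) g) (hu : IsUnit (1 - ρ g)) :
    HV (sys T ρ) (eV '' dST) ∅ 0 ∧ HV (sys T ρ) (eV '' dST) ∅ 1 := by
  refine torus_HV ρ hT hS (m := 0) (n := 1) (g := g) (hg.congr (fun s _ => ?_)) hu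
  simp only [merE, Int.cast_zero, zero_mul, ee_zero, Int.cast_one, one_mul, Complex.ofReal_one]

theorem torus_lon {S : Set (ℂ × ℂ)} (hT : GFlat T S) (hS : eV '' dST ⊆ S) {g : G}
    (hg : HasTr T (lonE 1) g) (hu : IsUnit (1 - ρ g)) :
    HV (sys T ρ) (eV '' dST) ∅ 0 ∧ HV (sys T ρ) (eV '' dST) ∅ 1 := by
  refine torus_HV ρ hT hS (m := 1) (n := 0) (g := g) (hg.congr (fun s _ => ?_)) hu
  simp only [lonE, Int.cast_zero, zero_mul, ee_zero, Int.cast_one, one_mul, Complex.ofReal_one]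

/-! ### Mayer-Vietoris for `S³ ∖ J` -/

theorem dST_SphJ : eV '' dST ⊆ Sph \ Jn := by
  rw [SphJ_eq]
  exact (image_mono dST_VP).trans subset_union_right

theorem eV_VP_data :
    (∀ a ∈ VP, ContinuousAt eV a) ∧ MapsTo eV VP (eV '' VP) ∧ (∀ a ∈ eV '' VP, ContinuousAt eInv a) ∧
      MapsTo eInv (eV '' VP) VP ∧ (∀ a ∈ eV '' VP, eV (eInv a) = a) ∧
      (∀ a ∈ VP, eInv (eV a) = a) := by
  refine ⟨fun a _ => continuous_eV.continuousAt, mapsTo_image _ _, ?_, ?_, ?_, ?_⟩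
  · rintro _ ⟨p, hp, rfl⟩
    have h0 := continuousAt_eInv hp.1 one_pos
    rwa [one_smul] at h0
  · rintro _ ⟨p, hp, rfl⟩
    rw [eInv_eV hp.1]
    exact hp
  · rintro _ ⟨p, hp, rfl⟩
    rw [eInv_eV hp.1]
  · intro p hp
    exact eInv_eV hp.1

theorem jmv_inj_gen (hT : GFlat T (Sph \ Jn)) (v : HV (sys T ρ) (eV '' dST) ∅ 0)
    {c : List (ℂ × ℂ) → V} (hc : c ∈ Zc (sys T ρ) (Sph \ Jn) ∅ 1) (h1 : c ∈ Bc (sys T ρ) Ex ∅ 1)
    (h2 : pb eV c ∈ Bc (pT eV (sys T ρ)) VP ∅ 1) : c ∈ Bc (sys T ρ) (Sph \ Jn) ∅ 1 := by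
  obtain ⟨d1, d2, d3, d4, d5, d6⟩ := eV_VP_data
  rw [SphJ_eq] at hT hc ⊢
  have hF := hT.sys ρ
  have h3 : c ∈ Bc (sys T ρ) (eV '' VP) ∅ 1 :=
    pb_inj (hF.mono subset_union_right) d1 d2 d3 d4 d5 (Zc_mono subset_union_right (le_refl _) 1 hc) h2
  rw [← Ex_inter] at v
  refine mvo_inj isClosed_Ex isClosed_eVST (image_mono sdiff_subset) ?_ hF v h1 h3
  rw [Ex_inter]
  exact image_mono dST_VP

theorem J_mv_inj' (hT : GFlat T (Sph \ Jn)) {g : G} (hg : HasTr T (merE 1) g)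
    (hu : IsUnit (1 - ρ g)) {c : List (ℂ × ℂ) → V} (hc : c ∈ Zc (sys T ρ) (Sph \ Jn) ∅ 1)
    (h1 : c ∈ Bc (sys T ρ) Ex ∅ 1) (h2 : pb eV c ∈ Bc (pT eV (sys T ρ)) VP ∅ 1) :
    c ∈ Bc (sys T ρ) (Sph \ Jn) ∅ 1 :=
  jmv_inj_gen ρ hT (torus_mer ρ hT dST_SphJ hg hu).1 hc h1 h2

theorem J_mv_iso' (hT : GFlat T (Sph \ Jn)) {g : G} (hg : HasTr T (lonE 1) g)
    (hu : IsUnit (1 - ρ g)) (h1 : HV (sys T ρ) Ex ∅ 1) :
    Nonempty (H (sys T ρ) (Sph \ Jn) ∅ 1 ≃ₗ[k] H (pT eV (sys T ρ)) VP ∅ 1) := by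
  obtain ⟨v0, v1⟩ := torus_lon ρ hT dST_SphJ hg hu
  obtain ⟨d1, d2, d3, d4, d5, d6⟩ := eV_VP_data
  have hm : MapsTo eV VP (Sph \ Jn) := by
    rw [SphJ_eq]
    exact fun p hp => Or.inr (d2 hp)
  have hsub : Ex ⊆ Sph \ Jn := by rw [SphJ_eq]; exact subset_union_left
  apply Hpb_equiv d1 hm
  · intro c hc h2
    exact jmv_inj_gen ρ hT v0 hc (h1 (Zc_mono hsub (le_refl _) 1 hc)) h2
  · intro c hc
    have hF := hT.sys ρ
    have hF2 : Flat (sys T ρ) (eV '' VP) := hF.mono (by rw [SphJ_eq]; exact subset_union_right)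
    obtain ⟨c2, hc2, hb2⟩ := pb_surj hF2 d1 d2 d3 d4 d5 d6 hc
    have hF' := hF
    rw [SphJ_eq] at hF' ⊢
    rw [← Ex_inter] at v1
    obtain ⟨c3, hc3, hb3, -⟩ := mvo_surj isClosed_Ex isClosed_eVST (image_mono sdiff_subset)
      (by rw [Ex_inter]; exact image_mono dST_VP) hF' v1 hc2
    refine ⟨c3, hc3, ?_⟩
    have h4 : pb eV (c3 - c2) ∈ Bc (pT eV (sys T ρ)) VP ∅ 1 :=
      pb_mem_Bc d1 (fun a ha => ha.elim) d2 (fun a ha => ha.elim) hb3
    have h5 : pb eV c3 - c = pb eV (c3 - c2) + (pb eV c2 - c) := by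
      have : pb eV (c3 - c2) = pb eV c3 - pb eV c2 := rfl
      rw [this]; abel
    rw [h5]
    exact Submodule.add_mem _ h4 hb2

end Pool.Agent.Helper60.Geo
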