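import Pool.Agent.Helper60.Geo.JEndA
import Pool.Agent.Helper60.Geo.JMv

/-! The lower end `J = e(P)`: decomposition `S³ ∖ J = Ex ∪ e(V ∖ P)`. -/

set_option autoImplicit false

namespace Pool.Agent.Helper60.Geo

open Set AS

variable {D : Tube} {G : Type*} [Group G] {T : ℂ × ℂ → ℂ × ℂ → G}

section
variable {k V : Type*} [CommRing k] [AddCommGroup V] [Module k V] (ρ : G →* (V →ₗ[k] V))

/-- Mayer-Vietoris injectivity -/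
theorem J_mv_inj (hT : GFlat T (Sph \ Jn)) {g : G} (hg : HasTr T (merE 1) g) (hu : IsUnit (1 - ρ g))
    {c : List (ℂ × ℂ) → V} (hc : c ∈ Zc (sys T ρ) (Sph \ Jn) ∅ 1) (h1 : c ∈ Bc (sys T ρ) Ex ∅ 1)
    (h2 : pb eV c ∈ Bc (sys (TV T) ρ) VP ∅ 1) : c ∈ Bc (sys T ρ) (Sph \ Jn) ∅ 1 :=
  J_mv_inj' ρ hT hg hu hc h1 h2

/-- Mayer-Vietoris isomorphism if `Ex` and the torus are acyclic -/
theorem J_mv_iso (hT : GFlat T (Sph \ Jn)) {g : G} (hg : HasTr T (lonE 1) g) (hu : IsUnit (1 - ρ g))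
    (h1 : HV (sys T ρ) Ex ∅ 1) :
    Nonempty (H (sys T ρ) (Sph \ Jn) ∅ 1 ≃ₗ[k] H (sys (TV T) ρ) VP ∅ 1) :=
  J_mv_iso' ρ hT hg hu h1

end

end Pool.Agent.Helper60.Geo
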