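import Pool.Agent.Helper60.Geo.TrefTube
import Pool.Agent.Helper60.Geo.PatH1

/-! The lower end `J = e(P)`: elementary facts, longitudes and meridians. -/

set_option autoImplicit false

namespace Pool.Agent.Helper60.Geo

open Set AS

variable {D : Tube} {G : Type*} [Group G] {T : ℂ × ℂ → ℂ × ℂ → G}

/-- pullback of `T` to the solid torus -/
noncomputable def TV (T : ℂ × ℂ → ℂ × ℂ → G) (x y : ℂ × ℂ) : G := T (eV x) (eV y)

theorem Pat_subset_ST : Pat ⊆ ST := by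
  intro p hp
  refine ⟨?_, (ph1_pat_norm hp).le⟩
  rcases hp with ⟨r, -, rfl⟩ | ⟨r, -, rfl⟩
  · exact ph1_norm_ee _
  · show ‖(1 : ℂ)‖ = 1
    simp

theorem eV_mem_of_VP {p : ℂ × ℂ} (hp : p ∈ VP) : eV p ∈ Sph \ Jn := by
  refine ⟨eV_sph hp.1, ?_⟩
  rintro ⟨q, hq, h⟩
  exact hp.2 (injOn_eV (Pat_subset_ST hq) hp.1 h ▸ hq)

theorem SJ_eq (h : StartsJ D) : D.SJ = Sph \ Jn := by
  ext z
  constructor
  · rintro ⟨h1, h2⟩
    refine ⟨h1, fun h3 => h2 ?_⟩
    rw [← h] at h3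
    obtain ⟨u, hu, rfl⟩ := h3
    exact ⟨u, 0, hu, rfl⟩
  · rintro ⟨h1, h2⟩
    refine ⟨h1, ?_⟩
    rintro ⟨u, t, hu, rfl⟩
    apply h2
    rw [← h]
    refine ⟨u, hu, ?_⟩
    have h3 : nrm (D.f (u, t, 0)) = 1 := h1
    have h4 : ¬ 0 < t := fun h4 => by
      have := D.one_lt_nrm_f (w := 0) hu (by simp) h4
      linarith
    push Not at h4
    rw [D.nrm_f_of_nonpos hu (by simp) h4, Real.exp_eq_one_iff] at h3
    rw [h3]

theorem TV_flat (hT : GFlat T (Sph \ Jn)) : GFlat (TV T) VP :=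
  GFlat.pull (F := eV) hT (fun _ _ => continuous_eV.continuousAt) (fun _ hp => eV_mem_of_VP hp)

theorem Ex_subset : Ex ⊆ Sph \ Jn := by
  rintro z ⟨h1, h2⟩
  refine ⟨h1, ?_⟩
  rintro ⟨p, hp, rfl⟩
  exact h2 ⟨p.1, p.2, (Pat_subset_ST hp).1, ph1_pat_norm hp, rfl⟩

theorem ee_add (s t : ℝ) : ee (s + t) = ee s * ee t := by
  unfold ee
  rw [← Complex.exp_add]
  congr 1
  push_cast; ring

theorem ee_quarter : ee (1/4) = Complex.I := by
  unfold ee
  have : (2 * Real.pi * ((1/4 : ℝ) : ℂ) * Complex.I) = Real.pi / 2 * Complex.I := by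
    push_cast; ring
  rw [this, Complex.exp_pi_div_two_mul_I]

theorem ee_add_half (s : ℝ) : ee (s + 1/2) = - ee s := by
  rw [ee_add, ph1_ee_half]; ring

/-- the longitude `lonE 1` and the loop `gl`, the meridian `merE 1` and the loop `gm0` -/
theorem lonE_gl (hT : GFlat T (Sph \ Jn)) {g l : G} (hg : HasTr T (lonE 1) g)
    (hl : HasTr (TV T) gl l) : ∃ a, g = a⁻¹ * l * a := by
  have hl' : HasTr T (fun s => eV (gl s)) l := hl
  let K : ℝ → ℝ → ℂ × ℂ := fun s t => eV (ee (t + (1 - s) * (1/2)), ee ((1 - s) * (1/4)))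
  have hK : Continuous (fun p : ℝ × ℝ => K p.1 p.2) := by
    refine continuous_eV.comp ?_
    exact (ph1_continuous_ee.comp (by fun_prop)).prodMk (ph1_continuous_ee.comp (by fun_prop))
  obtain ⟨a, -, ha⟩ := HasTr.free_homotopic (K := K) hT hK.continuousOn
    (fun s _ t _ => eV_mem_of_VP (ph1_bdry (ph1_norm_ee _) (ph1_norm_ee _)))
    (fun s _ => by
      show eV _ = eV _
      congr 2
      rw [zero_add, add_comm (1:ℝ), ee_add, ph1_ee_one, mul_one])
    (g₀ := l) (g₁ := g)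
    (hl'.congr (fun t _ => by
      show eV _ = eV (-ee t, Complex.I)
      rw [sub_zero, one_mul, one_mul, ee_add_half, ee_quarter]))
    (hg.congr (fun t _ => by
      show eV _ = eV (ee t, ((1 : ℝ) : ℂ))
      rw [sub_self, zero_mul, zero_mul, add_zero, ph1_ee_zero, Complex.ofReal_one]))
  exact ⟨a, ha⟩

theorem merE_gm0 (hT : GFlat T (Sph \ Jn)) {g l : G} (hg : HasTr T (merE 1) g)
    (hl : HasTr (TV T) gm0 l) : ∃ a, g = a⁻¹ * l * a := by
  have hl' : HasTr T (fun s => eV (gm0 s)) l := hl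
  let K : ℝ → ℝ → ℂ × ℂ := fun s t => eV (ee ((1 - s) * (1/2)), ee t)
  have hK : Continuous (fun p : ℝ × ℝ => K p.1 p.2) := by
    refine continuous_eV.comp ?_
    exact (ph1_continuous_ee.comp (by fun_prop)).prodMk (ph1_continuous_ee.comp (by fun_prop))
  obtain ⟨a, -, ha⟩ := HasTr.free_homotopic (K := K) hT hK.continuousOn
    (fun s _ t _ => eV_mem_of_VP (ph1_bdry (ph1_norm_ee _) (ph1_norm_ee _)))
    (fun s _ => by
      show eV _ = eV _
      rw [ph1_ee_zero, ph1_ee_one])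
    (g₀ := l) (g₁ := g)
    (hl'.congr (fun t _ => by
      show eV _ = eV (-1, ee t)
      rw [sub_zero, one_mul, ph1_ee_half]))
    (hg.congr (fun t _ => by
      show eV _ = eV (1, ((1 : ℝ) : ℂ) * ee t)
      rw [sub_self, zero_mul, ph1_ee_zero, Complex.ofReal_one, one_mul]))
  exact ⟨a, ha⟩

/-! ### small tubes around `J` lie in the solid torus -/

theorem jend_small (h : StartsJ D) : ∃ r > 0, r ≤ 1 ∧ ∀ u w : ℂ, ‖u‖ = 1 → ‖w‖ ≤ r →
    D.f (u, 0, w) ∉ Ex := by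
  let C₀ : Set (ℂ × ℂ) := {p | ‖p.1‖ = 1 ∧ ‖p.2‖ ≤ 1}
  have hC₀ : IsClosed C₀ := (isClosed_eq (by fun_prop) continuous_const).inter
    (isClosed_le (f := fun p : ℂ × ℂ => ‖p.2‖) (by fun_prop) continuous_const)
  have hC₀c : IsCompact C₀ := by
    refine ((isCompact_closedBall (0:ℂ) 1).prod (isCompact_closedBall (0:ℂ) 1)).of_isClosed_subset
      hC₀ ?_
    rintro ⟨u, w⟩ ⟨hu, hw⟩
    simp only [mem_prod, mem_closedBall_zero_iff] at *
    exact ⟨hu.le, hw⟩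
  have hg : ContinuousOn (fun p : ℂ × ℂ => D.f (p.1, 0, p.2)) C₀ := by
    refine D.cont.comp (Continuous.continuousOn (by fun_prop)) ?_
    rintro ⟨u, w⟩ ⟨hu, hw⟩
    exact ⟨hu, hw⟩
  let C : Set (ℂ × ℂ) := C₀ ∩ (fun p : ℂ × ℂ => D.f (p.1, 0, p.2)) ⁻¹' Ex
  have hExc : IsClosed Ex := (isClosed_Exr one_pos le_rfl).isClosed
  have hCc : IsCompact C := hC₀c.of_isClosed_subset (hg.preimage_isClosed_of_isClosed hC₀ hExc)
    inter_subset_left
  have hpos : ∀ p ∈ C, 0 < ‖p.2‖ := by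
    rintro ⟨u, w⟩ ⟨⟨hu, hw⟩, hx⟩
    rw [norm_pos_iff]
    rintro rfl
    have h1 : D.f (u, 0, 0) ∈ Ex := hx
    apply (Ex_subset h1).2
    rw [← h]
    exact ⟨u, hu, rfl⟩
  rcases C.eq_empty_or_nonempty with he | hne
  · refine ⟨1, one_pos, le_rfl, fun u w hu hw hx => ?_⟩
    have : (u, w) ∈ C := ⟨⟨hu, hw⟩, hx⟩
    rw [he] at this
    exact this
  · obtain ⟨p, hp, hmin⟩ := hCc.exists_isMinOn hne
      (f := fun p : ℂ × ℂ => ‖p.2‖) (Continuous.continuousOn (by fun_prop))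
    have hp0 := hpos p hp
    refine ⟨min (‖p.2‖ / 2) 1, lt_min (by positivity) one_pos, min_le_right _ _,
      fun u w hu hw hx => ?_⟩
    have h1 : (u, w) ∈ C := ⟨⟨hu, hw.trans (min_le_right _ _)⟩, hx⟩
    have h2 : ‖p.2‖ ≤ ‖w‖ := hmin h1
    have h3 := hw.trans (min_le_left _ _)
    linarith

/-- a loop near `J` comes from a loop in the solid torus -/
theorem jend_lift (h : StartsJ D) {r : ℝ} (hr : 0 < r) (hr1 : r ≤ 1)
    (hs : ∀ u w : ℂ, ‖u‖ = 1 → ‖w‖ ≤ r → D.f (u, 0, w) ∉ Ex) {δ : ℝ → ℂ × ℂ}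
    (hδ : Continuous δ) {u w : ℝ → ℂ} (hδe : ∀ s, δ s = D.f (u s, 0, w s)) (hu : ∀ s, ‖u s‖ = 1)
    (hw : ∀ s, ‖w s‖ = r) : Continuous (fun s => eInv (δ s)) ∧ (∀ s, eInv (δ s) ∈ VP) ∧
      ∀ s, eV (eInv (δ s)) = δ s := by
  have h1 : ∀ s, ∃ p ∈ ST, δ s = eV p := by
    intro s
    have h2 := hs (u s) (w s) (hu s) (hw s).le
    rw [← hδe] at h2
    have h3 : δ s ∈ Sph := by
      rw [hδe]
      exact D.nrm0 _ _ (hu s) ((hw s).le.trans hr1)
    by_contra hcon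
    apply h2
    refine ⟨h3, ?_⟩
    rintro ⟨u', w', hu', hw', he⟩
    exact hcon ⟨(u', w'), ⟨hu', hw'.le⟩, he⟩
  have h4 : ∀ s, eV (eInv (δ s)) = δ s := by
    intro s
    obtain ⟨p, hp, he⟩ := h1 s
    rw [he, eInv_eV hp]
  refine ⟨?_, ?_, h4⟩
  · rw [continuous_iff_continuousAt]
    intro s
    obtain ⟨p, hp, he⟩ := h1 s
    have h5 : ContinuousAt eInv (δ s) := by
      have := continuousAt_eInv hp one_pos
      rwa [one_smul, ← he] at this
    exact ContinuousAt.comp h5 hδ.continuousAt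
  · intro s
    obtain ⟨p, hp, he⟩ := h1 s
    have h5 : eInv (δ s) = p := by rw [he, eInv_eV hp]
    rw [h5]
    refine ⟨hp, fun hP => ?_⟩
    have h6 : δ s ∈ Jn := ⟨p, hP, he.symm⟩
    rw [← h] at h6
    obtain ⟨u', hu', h7⟩ := h6
    rw [hδe] at h7
    have h8 := D.inj (show (u s, (0:ℝ), w s) ∈ Dom from ⟨hu s, (hw s).le.trans hr1⟩)
      (show (u', (0:ℝ), (0:ℂ)) ∈ Dom from ⟨hu', by simp⟩) h7
    have h9 : w s = 0 := by
      have := congrArg (fun q : ℂ × ℝ × ℂ => q.2.2) h8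
      exact this
    have h10 := hw s
    rw [h9, norm_zero] at h10
    linarith

/-- transports of the model of `(b, 1)` around loops are powers of `b` -/
theorem jend_pow {b : G} (hg : GaugeEq (TV T) (patT b 1) VP) {γ : ℝ → ℂ × ℂ} (hγ : Continuous γ)
    (hm : ∀ s, γ s ∈ VP) (hl : γ 0 = γ 1) {g : G} (h : HasTr (TV T) γ g) :
    ∃ (a : G) (N : ℤ), g = a⁻¹ * b ^ N * a := by
  obtain ⟨u, hu⟩ := hg
  have h1 := HasTr.gauge hu hγ.continuousOn (fun s _ => hm s) h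
  have hR : Rel (Multiplicative.ofAdd (1:ℤ)) 1 := Commute.one_left _
  obtain ⟨N, hN⟩ := exists_hasTr (patT_flat hR) hγ.continuousOn (fun s _ => hm s)
  have h2 := hN.map (zpowersHom G b)
  have h3 : (fun x y => (zpowersHom G b) (patT (Multiplicative.ofAdd (1:ℤ)) 1 x y)) = patT b 1 := by
    funext x y
    have e1 : (zpowersHom G b) (Multiplicative.ofAdd (1:ℤ)) = b := by
      rw [zpowersHom_apply, toAdd_ofAdd, zpow_one]
    have e2 : (zpowersHom G b) 1 = 1 := map_one _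
    rw [patT_map, e1, e2]
  rw [h3] at h2
  have h4 := h1.unique h2
  rw [zpowersHom_apply, ← hl] at h4
  refine ⟨(u (γ 0))⁻¹, Multiplicative.toAdd N, ?_⟩
  rw [← h4]; group

theorem Sph_diff_subset_O (h : StartsJ D) : Sph \ Jn ⊆ D.O := by
  rw [← SJ_eq h]
  rintro z ⟨h1, h2⟩
  refine ⟨?_, h2⟩
  rintro rfl
  rw [nrm_zero] at h1
  exact zero_ne_one h1

/-- the longitudes of the tube at `J`: if `T` restricted to the complement of the pattern is the
model of `(b, 1)` then their transports are conjugate to powers of `b` -/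
theorem jend_lon (h : StartsJ D) (hT : GFlat T D.O) {b : G} (hg : GaugeEq (TV T) (patT b 1) VP)
    {m : ℤ} {r : ℝ} (hr : 0 < r) (hr1 : r ≤ 1) {g : G} (hl : HasTr T (D.lon m 0 r) g) :
    ∃ (a : G) (N : ℤ), g = a⁻¹ * b ^ N * a := by
  obtain ⟨ρ, hρ, hρ1, hs⟩ := jend_small h
  obtain ⟨g', hg'⟩ := exists_hasTr hT (D.lon_cont (m := m) (t := 0) hρ hρ1).continuousOn
    (fun s _ => D.lon_mem hρ hρ1 s)
  obtain ⟨a, ha⟩ := D.lon_conj hT hρ hρ1 hr hr1 hg' hl
  obtain ⟨h1, h2, h3⟩ := jend_lift h hρ hρ1 hs (D.lon_cont (m := m) (t := 0) hρ hρ1)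
    (u := fun s => Complex.exp (2 * Real.pi * s * Complex.I))
    (w := fun s => (ρ : ℂ) * Complex.exp (2 * Real.pi * (m * s) * Complex.I))
    (fun s => rfl) (fun s => ph1_norm_ee s) (fun s => by
      have := ph1_norm_ee (m * s)
      unfold ee at this
      push_cast at this
      rw [norm_mul, this, mul_one, Complex.norm_real, Real.norm_of_nonneg hρ.le])
  have h4 : HasTr (TV T) (fun s => eInv (D.lon m 0 ρ s)) g' :=
    hg'.congr (γ' := fun s => eV (eInv (D.lon m 0 ρ s))) (fun s _ => h3 s)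
  have hloop : D.lon m 0 ρ 0 = D.lon m 0 ρ 1 := by
    unfold Tube.lon
    have e1 : Complex.exp (2 * Real.pi * ((1:ℝ):ℂ) * Complex.I) = 1 := by
      rw [Complex.ofReal_one, mul_one, Complex.exp_two_pi_mul_I]
    have e2 : Complex.exp (2 * Real.pi * (m * ((1:ℝ):ℂ)) * Complex.I) = 1 := by
      rw [Complex.ofReal_one, mul_one]
      have : (2 * Real.pi * (m:ℂ) * Complex.I) = m * (2 * Real.pi * Complex.I) := by ring
      rw [this, Complex.exp_int_mul_two_pi_mul_I]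
    simp only [e1, e2]
    simp
  obtain ⟨a', N, hN⟩ := jend_pow hg h1 h2 (congrArg eInv hloop) h4
  refine ⟨a' * a, N, ?_⟩
  rw [ha, hN]; group

/-- divisibility: if an integer class has `(b, l) = (c, 0)` on the complement of the pattern and the
value `ε = ± 1` on the meridian of the tube then `c = ± 1` -/
theorem jend_unit (h : StartsJ D) {T₀ : ℂ × ℂ → ℂ × ℂ → Multiplicative ℤ} (hT : GFlat T₀ D.O) {c : ℤ}
    (hg : GaugeEq (TV T₀) (patT (Multiplicative.ofAdd c) 1) VP) {r : ℝ} (hr : 0 < r) (hr1 : r ≤ 1)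
    {ε : ℤ} (hε : ε = 1 ∨ ε = -1) (hm : HasTr T₀ (D.mer 1 0 r) (Multiplicative.ofAdd ε)) :
    c = 1 ∨ c = -1 := by
  obtain ⟨ρ, hρ, hρ1, hs⟩ := jend_small h
  have hu1 : ‖(1:ℂ)‖ = 1 := by simp
  obtain ⟨g', hg'⟩ := exists_hasTr hT (D.mer_cont (t := 0) hu1 hρ hρ1).continuousOn
    (fun s _ => D.mer_mem hu1 hρ hρ1 s)
  obtain ⟨a, ha⟩ := D.mer_conj hT hu1 hu1 hρ hρ1 hr hr1 hg' hm
  obtain ⟨h1, h2, h3⟩ := jend_lift h hρ hρ1 hs (D.mer_cont (t := 0) hu1 hρ hρ1)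
    (u := fun s => 1)
    (w := fun s => (ρ : ℂ) * Complex.exp (2 * Real.pi * s * Complex.I))
    (fun s => rfl) (fun s => hu1) (fun s => by
      have := ph1_norm_ee s
      unfold ee at this
      rw [norm_mul, this, mul_one, Complex.norm_real, Real.norm_of_nonneg hρ.le])
  have h4 : HasTr (TV T₀) (fun s => eInv (D.mer 1 0 ρ s)) g' :=
    hg'.congr (γ' := fun s => eV (eInv (D.mer 1 0 ρ s))) (fun s _ => h3 s)
  have hloop : D.mer 1 0 ρ 0 = D.mer 1 0 ρ 1 := by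
    unfold Tube.mer
    have e1 : Complex.exp (2 * Real.pi * ((1:ℝ):ℂ) * Complex.I) = 1 := by
      rw [Complex.ofReal_one, mul_one, Complex.exp_two_pi_mul_I]
    simp only [e1]
    simp
  obtain ⟨a', N, hN⟩ := jend_pow hg h1 h2 (congrArg eInv hloop) h4
  have h5 : Multiplicative.ofAdd ε = (Multiplicative.ofAdd c) ^ N := by
    rw [ha, hN]
    rw [mul_comm a⁻¹, mul_assoc, inv_mul_cancel, mul_one, mul_comm a'⁻¹, mul_assoc, inv_mul_cancel,
      mul_one]
  have h6 : ε = N * c := by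
    have := congrArg Multiplicative.toAdd h5
    simpa using this
  have h7 : IsUnit c := by
    apply isUnit_of_mul_isUnit_right (x := N)
    rw [← h6]
    rcases hε with rfl | rfl <;> simp
  exact Int.isUnit_iff.1 h7

end Pool.Agent.Helper60.Geo
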