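import Pool.Agent.Helper60.Geo.PatFin

/-! The complement of the pattern `P` in the solid torus: flat functions are classified by pairs
`(b, l)` with `[l, β⁻² b] = 1`, `β = l b l⁻¹ b l b⁻¹`. -/

set_option autoImplicit false

namespace Pool.Agent.Helper60.Geo

open Set AS

variable {G G' : Type*} [Group G] [Group G'] {T T' : ℂ × ℂ → ℂ × ℂ → G}

theorem jumps_of (J : Jumps G) : ∃ h : Rel J.rb J.al, J = jumps J.rb J.al h := PT.jumps_of J

theorem patT_flat {b l : G} (h : Rel b l) : GFlat (patT b l) VP := PT.flat h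

theorem patT_map (φ : G →* G') (b l : G) (x y : ℂ × ℂ) :
    φ (patT b l x y) = patT (φ b) (φ l) x y := PT.map φ b l x y

theorem patT_mem (H : Subgroup G) {b l : G} (hb : b ∈ H) (hl : l ∈ H) (x y : ℂ × ℂ) :
    patT b l x y ∈ H := PT.mem H hb hl x y

theorem patT_gl {b l : G} (h : Rel b l) : HasTr (patT b l) gl l := PT.tr_gl b l
theorem patT_pD {b l : G} (h : Rel b l) : HasTr (patT b l) pD b := PT.tr_pD b l
theorem patT_pL {b l : G} (h : Rel b l) : HasTr (patT b l) pL 1 := PT.tr_pL b l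
theorem patT_gm0 {b l : G} (h : Rel b l) :
    HasTr (patT b l) gm0 ((beta b l)⁻¹ * (beta b l)⁻¹ * b * l * l)⁻¹ := PT.tr_gm0 b l

/-- classification -/
theorem pat_classify (hT : GFlat T VP) :
    ∃ b l : G, Rel b l ∧ ∃ u, GaugeBy T (patT b l) VP u ∧ u v0 = 1 := PC.classify hT

/-- injectivity: the based transports `b`, `l` determine `T` up to a gauge which is `1` at `v0` -/
theorem pat_inj (hT : GFlat T VP) (hT' : GFlat T' VP) {l b₁ b₂ b₁' b₂' : G} (hl : HasTr T gl l)
    (hl' : HasTr T' gl l) (h1 : HasTr T pD b₁) (h2 : HasTr T pL b₂) (h1' : HasTr T' pD b₁')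
    (h2' : HasTr T' pL b₂') (hb : b₁ * b₂⁻¹ = b₁' * b₂'⁻¹) :
    ∃ u, GaugeBy T T' VP u ∧ u v0 = 1 := PC.inj hT hT' hl hl' h1 h2 h1' h2' hb

theorem preconnected_VP : IsPreconnected VP := PC.preconnected

end Pool.Agent.Helper60.Geo
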