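import Pool.Agent.Helper60.Geo.PatFib

/-! Classification of flat functions on the complement of the pattern in the solid torus. -/

set_option autoImplicit false

namespace Pool.Agent.Helper60.Geo.PC

open Set AS Pool.Agent.Helper60.Geo Filter Topology

variable {G : Type*} [Group G] {T T' : ℂ × ℂ → ℂ × ℂ → G}

theorem PP_shift {y r : ℝ} : PP 1 y r ↔ PP 0 y r := by
  unfold PP
  refine and_congr_right fun _ => and_congr_right fun _ => or_congr ?_ ?_
  · refine and_congr_right fun _ => ⟨?_, ?_⟩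
    · rintro ⟨n, hn⟩; exact ⟨n - 1, by push_cast; linarith⟩
    · rintro ⟨n, hn⟩; exact ⟨n + 1, by push_cast; linarith⟩
  · refine and_congr_left fun _ => ⟨fun _ => ⟨0, by norm_num⟩, fun _ => ⟨1, by norm_num⟩⟩

/-- the covering map of the solid torus (extended to a neighbourhood) -/
noncomputable def pi3 (p : ℝ × ℝ × ℂ) : ℂ × ℂ := ((p.2.1 : ℂ) * ee p.1, p.2.2)

theorem continuous_pi3 : Continuous pi3 := by
  unfold pi3
  exact ((Complex.continuous_ofReal.comp (continuous_fst.comp continuous_snd)).mul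
    (continuous_ee.comp continuous_fst)).prodMk (continuous_snd.comp continuous_snd)

/-- the box over the upper (`e = 1`) or lower (`e = -1`) half disc, without the pattern -/
def Box (e : ℝ) : Set (ℝ × ℝ × ℂ) :=
  {p | p.1 ∈ Icc (0:ℝ) 1 ∧ p.2.1 = 1 ∧ ‖p.2.2‖ ≤ 1 ∧ 0 ≤ e * p.2.2.im ∧
    ¬ PP p.1 p.2.2.im (p.2.2.re + 1 / 2)}

theorem pi3_mem {e : ℝ} {p : ℝ × ℝ × ℂ} (hp : p ∈ Box e) : pi3 p ∈ VP := by
  obtain ⟨_, h2, h3, _, h5⟩ := hp
  unfold pi3
  rw [h2, Complex.ofReal_one, one_mul]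
  exact mem_VP_iff.2 ⟨h3, h5⟩

/-- centre of the box -/
noncomputable def cen (e : ℝ) : ℝ × ℝ × ℂ := (1/2, 1, ⟨0, e/2⟩)

theorem box_star {e : ℝ} (he : e = 1 ∨ e = -1) {p : ℝ × ℝ × ℂ} (hp : p ∈ Box e) {t : ℝ}
    (ht : t ∈ Icc (0:ℝ) 1) : (1 - t) • p + t • cen e ∈ Box e := by
  rcases ht.1.eq_or_lt with rfl | ht0
  · simpa using hp
  obtain ⟨⟨h1, h1'⟩, h2, h3, h4, h5⟩ := hp
  have he2 : e * e = 1 := by rcases he with rfl | rfl <;> norm_num
  have e1 : ((1 - t) • p + t • cen e).1 = (1 - t) * p.1 + t * (1/2) := rfl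
  have e2 : ((1 - t) • p + t • cen e).2.1 = (1 - t) * p.2.1 + t * 1 := rfl
  have e3 : ((1 - t) • p + t • cen e).2.2 = (1 - t) • p.2.2 + t • (⟨0, e/2⟩ : ℂ) := rfl
  have e4 : ((1 - t) • p + t • cen e).2.2.im = (1 - t) * p.2.2.im + t * (e / 2) := by
    rw [e3, Complex.add_im, Complex.smul_im, Complex.smul_im]; rfl
  have ht1 := ht.2
  have s0 : 0 < (1 - t) * p.1 + t * (1/2) := by
    nlinarith [mul_nonneg (sub_nonneg.2 ht1) h1]
  have s1 : (1 - t) * p.1 + t * (1/2) < 1 := by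
    nlinarith [mul_nonneg (sub_nonneg.2 ht1) (sub_nonneg.2 h1')]
  have y0 : 0 < e * ((1 - t) * p.2.2.im + t * (e / 2)) := by
    have : e * ((1 - t) * p.2.2.im + t * (e / 2)) = (1 - t) * (e * p.2.2.im) + t * (e * e) / 2 := by
      ring
    rw [this, he2]
    nlinarith [mul_nonneg (sub_nonneg.2 ht1) h4]
  refine ⟨?_, ?_, ?_, ?_, ?_⟩
  · rw [e1]; exact ⟨s0.le, s1.le⟩
  · rw [e2, h2]; ring
  · rw [e3]
    have hn : ‖(⟨0, e/2⟩ : ℂ)‖ ≤ 1 := by
      have : (⟨0, e/2⟩ : ℂ) = ((e / 2 : ℝ) : ℂ) * Complex.I := by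
        apply Complex.ext <;> simp
      rw [this, norm_mul, Complex.norm_I, mul_one, Complex.norm_real, Real.norm_eq_abs]
      rcases he with rfl | rfl <;> norm_num [abs_le]
    calc ‖(1 - t) • p.2.2 + t • (⟨0, e/2⟩ : ℂ)‖ ≤ ‖(1 - t) • p.2.2‖ + ‖t • (⟨0, e/2⟩ : ℂ)‖ :=
          norm_add_le _ _
      _ = (1 - t) * ‖p.2.2‖ + t * ‖(⟨0, e/2⟩ : ℂ)‖ := by
          rw [norm_smul, norm_smul, Real.norm_eq_abs, Real.norm_eq_abs, abs_of_nonneg ht.1,
            abs_of_nonneg (sub_nonneg.2 ht1)]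
      _ ≤ (1 - t) * 1 + t * 1 := by
          gcongr
      _ = 1 := by ring
  · rw [e4]; exact y0.le
  · rw [e1, e4]
    rintro ⟨_, _, ⟨h6, _⟩ | ⟨⟨n, hn⟩, _⟩⟩
    · rw [h6, mul_zero] at y0; exact lt_irrefl _ y0
    · rw [hn] at s0 s1
      have a1 : 0 < n := by exact_mod_cast s0
      have a2 : n < 1 := by exact_mod_cast s1
      omega

/-- primitive of `T ∘ pi3` near the points of `S` -/
def IsPr (T : ℂ × ℂ → ℂ × ℂ → G) (v : ℝ × ℝ × ℂ → G) (a : ℝ × ℝ × ℂ) : Prop :=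
  ∃ ε > 0, ∀ x y, dist x a < ε → dist y a < ε → T (pi3 x) (pi3 y) = (v x)⁻¹ * v y

theorem exists_box_prim (hT : GFlat T VP) {e : ℝ} (he : e = 1 ∨ e = -1) :
    ∃ v : ℝ × ℝ × ℂ → G, ∀ a ∈ Box e, IsPr T v a := by
  have hflat : GFlat (fun x y => T (pi3 x) (pi3 y)) (Box e) :=
    hT.pull (fun _ _ => continuous_pi3.continuousAt) (fun _ h => pi3_mem h)
  exact gauge_trivial (K := fun t x => (1 - t) • x + t • cen e) (p := cen e) hflat
    (fun s _ a _ => Continuous.continuousAt (by fun_prop)) (fun s hs a ha => box_star he ha hs)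
    (fun x => by simp) (fun x => by simp)

theorem IsPr.left {v : ℝ × ℝ × ℂ → G} {a : ℝ × ℝ × ℂ} (h : IsPr T v a) (c : G) :
    IsPr T (fun x => c * v x) a := by
  obtain ⟨e, he, h⟩ := h
  exact ⟨e, he, fun x y hx hy => by rw [h x y hx hy]; group⟩

theorem pr_comp {v v' : ℝ × ℝ × ℂ → G} {a : ℝ × ℝ × ℂ} (h : IsPr T v a) (h' : IsPr T v' a) :
    ∀ᶠ x in 𝓝 a, v x = v a * (v' a)⁻¹ * v' x := by
  obtain ⟨e, he, h⟩ := h
  obtain ⟨e', he', h'⟩ := h'
  filter_upwards [Metric.ball_mem_nhds a (lt_min he he')] with x hx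
  have hx1 : dist x a < e := lt_of_lt_of_le hx (min_le_left _ _)
  have hx2 : dist x a < e' := lt_of_lt_of_le hx (min_le_right _ _)
  have e1 := h a x (by simpa using he) hx1
  have e2 := h' a x (by simpa using he') hx2
  have e3 : v x = v a * T (pi3 a) (pi3 x) := by rw [e1]; group
  rw [e3, e2]; group

/-- deck transformation -/
def sh : ℝ × ℝ × ℂ := (1, 0, 0)

theorem pi3_shift (x : ℝ × ℝ × ℂ) : pi3 (x + sh) = pi3 x := by
  unfold pi3 sh
  ext1
  · show ((x.2.1 + 0 : ℝ) : ℂ) * ee (x.1 + 1) = (x.2.1 : ℂ) * ee x.1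
    rw [add_zero, ee_add]
    have := ee_int 1
    rw [Int.cast_one] at this
    rw [this, mul_one]
  · show x.2.2 + 0 = x.2.2
    rw [add_zero]

theorem IsPr.shift {v : ℝ × ℝ × ℂ → G} {a : ℝ × ℝ × ℂ} (h : IsPr T v (a + sh)) :
    IsPr T (fun x => v (x + sh)) a := by
  obtain ⟨e, he, h⟩ := h
  refine ⟨e, he, fun x y hx hy => ?_⟩
  rw [← h (x + sh) (y + sh) (by rwa [dist_add_right]) (by rwa [dist_add_right]), pi3_shift, pi3_shift]

/-- points of the boxes in coordinates -/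
noncomputable def emb (s y r : ℝ) : ℝ × ℝ × ℂ := (s, 1, ⟨r - 1/2, y⟩)

theorem continuous_emb {X : Type*} [TopologicalSpace X] {f g h : X → ℝ} (hf : Continuous f)
    (hg : Continuous g) (hh : Continuous h) : Continuous (fun x => emb (f x) (g x) (h x)) := by
  have : (fun x => emb (f x) (g x) (h x)) =
      fun x => (f x, (1:ℝ), (((h x - 1/2 : ℝ) : ℂ) + (g x : ℂ) * Complex.I)) := by
    funext x
    unfold emb
    congr 2
    apply Complex.ext <;> simp
  rw [this]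
  fun_prop

theorem norm_le_one_iff {x y : ℝ} : ‖(⟨x, y⟩ : ℂ)‖ ≤ 1 ↔ y ^ 2 + x ^ 2 ≤ 1 := by
  rw [← sq_le_one_iff₀ (norm_nonneg _), Complex.sq_norm, Complex.normSq_mk]
  constructor <;> intro h <;> nlinarith

theorem emb_mem {e s y r : ℝ} (hs : s ∈ Icc (0:ℝ) 1) (hy : 0 ≤ e * y)
    (hn : y ^ 2 + (r - 1/2) ^ 2 ≤ 1) (hP : ¬ PP s y r) : emb s y r ∈ Box e := by
  refine ⟨hs, rfl, norm_le_one_iff.2 hn, hy, ?_⟩
  show ¬ PP s y (r - 1/2 + 1/2)
  rwa [sub_add_cancel]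

theorem emb_rect {e : ℝ} {p : ℝ × ℝ} (hp : p ∈ RectD) : emb p.1 0 p.2 ∈ Box e :=
  emb_mem hp.1 (by rw [mul_zero]) (by nlinarith [hp.2.1.1, hp.2.1.2]) hp.2.2

theorem emb_DU {p : ℝ × ℝ} (hp : p ∈ DU) {s : ℝ} (hs : s = 0 ∨ s = 1) : emb s p.1 p.2 ∈ Box 1 := by
  refine emb_mem ?_ (by rw [one_mul]; exact hp.1) hp.2.1 ?_
  · rcases hs with rfl | rfl <;> constructor <;> norm_num
  · rcases hs with rfl | rfl
    · exact hp.2.2
    · rw [PP_shift]; exact hp.2.2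

theorem emb_DL {p : ℝ × ℝ} (hp : p ∈ DL) {s : ℝ} (hs : s = 0 ∨ s = 1) : emb s p.1 p.2 ∈ Box (-1) := by
  refine emb_mem ?_ (by have := hp.1; linarith) hp.2.1 ?_
  · rcases hs with rfl | rfl <;> constructor <;> norm_num
  · rcases hs with rfl | rfl
    · exact hp.2.2
    · rw [PP_shift]; exact hp.2.2

theorem emb_shift (y r : ℝ) : emb 0 y r + sh = emb 1 y r := by
  unfold emb sh
  ext <;> simp

/-! ### the jump functions of a pair of primitives -/

section jump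

variable (vu vl : ℝ × ℝ × ℂ → G)

noncomputable def rho (p : ℝ × ℝ) : G := vu (emb p.1 0 p.2) * (vl (emb p.1 0 p.2))⁻¹
noncomputable def dD (v : ℝ × ℝ × ℂ → G) (p : ℝ × ℝ) : G := v (emb 1 p.1 p.2) * (v (emb 0 p.1 p.2))⁻¹

variable {vu vl}

theorem rho_ev {p : ℝ × ℝ} (hp : p ∈ RectD) (hu : ∀ a ∈ Box 1, IsPr T vu a)
    (hl : ∀ a ∈ Box (-1), IsPr T vl a) :
    ∀ᶠ x in 𝓝 (emb p.1 0 p.2), vu x = rho vu vl p * vl x :=
  pr_comp (hu _ (emb_rect hp)) (hl _ (emb_rect hp))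

theorem rho_LCo (hu : ∀ a ∈ Box 1, IsPr T vu a) (hl : ∀ a ∈ Box (-1), IsPr T vl a) :
    LCo (rho vu vl) RectD := by
  intro p hp
  have h := rho_ev hp hu hl
  have hc : ContinuousAt (fun q : ℝ × ℝ => emb q.1 0 q.2) p :=
    (continuous_emb continuous_fst continuous_const continuous_snd).continuousAt
  obtain ⟨e, he, h'⟩ := Metric.eventually_nhds_iff.1 (hc.eventually h)
  refine ⟨e, he, fun q _ hq => ?_⟩
  have := h' hq
  unfold rho at this ⊢
  rw [this]; group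

theorem dD_ev {v : ℝ × ℝ × ℂ → G} {y r : ℝ} (h0 : IsPr T v (emb 0 y r)) (h1 : IsPr T v (emb 1 y r)) :
    ∀ᶠ x in 𝓝 (emb 0 y r), v (x + sh) = dD v (y, r) * v x := by
  rw [← emb_shift] at h1
  have := pr_comp h1.shift h0
  rw [emb_shift] at this
  exact this

theorem dD_LCo {v : ℝ × ℝ × ℂ → G} {D : Set (ℝ × ℝ)}
    (h : ∀ p ∈ D, ∀ s : ℝ, s = 0 ∨ s = 1 → IsPr T v (emb s p.1 p.2)) : LCo (dD v) D := by
  intro p hp
  have h := dD_ev (h p hp 0 (Or.inl rfl)) (h p hp 1 (Or.inr rfl))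
  have hc : ContinuousAt (fun q : ℝ × ℝ => emb 0 q.1 q.2) p :=
    (continuous_emb continuous_const continuous_fst continuous_snd).continuousAt
  obtain ⟨e, he, h'⟩ := Metric.eventually_nhds_iff.1 (hc.eventually h)
  refine ⟨e, he, fun q _ hq => ?_⟩
  have := h' hq
  rw [emb_shift] at this
  unfold dD at this ⊢
  rw [this]; group

theorem edge_rel (r : ℝ) : dD vu (0, r) * rho vu vl (0, r) = rho vu vl (1, r) * dD vl (0, r) := by
  unfold dD rho; group

end jump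

/-- `r` is not on the pattern along the edge -/
theorem edge_mem {r : ℝ} (h0 : -(1/2) ≤ r) (h1 : r ≤ 3/2) (h : ¬ PP 0 0 r) :
    ((0:ℝ), r) ∈ RectD ∧ ((1:ℝ), r) ∈ RectD ∧ ((0:ℝ), r) ∈ DU ∧ ((0:ℝ), r) ∈ DL := by
  have hn : (0:ℝ) ^ 2 + (r - 1/2) ^ 2 ≤ 1 := by nlinarith
  exact ⟨⟨by norm_num, ⟨h0, h1⟩, h⟩, ⟨by norm_num, ⟨h0, h1⟩, by rw [PP_shift]; exact h⟩,
    ⟨le_rfl, hn, h⟩, ⟨le_rfl, hn, h⟩⟩

theorem jumps_solve (J : Jumps G) : ∃ h : Rel J.rb J.al, J = jumps J.rb J.al h := by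
  obtain ⟨al, be, ga, de, rb, rc, ra, ri, e1, e2, e3, e4, e5, e6, e7⟩ := J
  subst e1
  have hde : de = rb⁻¹ * al := by rw [e2]; group
  subst hde
  have hrc : rc = al * rb * al⁻¹ * rb := by
    have : rc = al * rb * (rb⁻¹ * al)⁻¹ := by rw [e3]; group
    rw [this]; group
  subst hrc
  have hbe : be = beta rb al := by
    have : be = (be * rb) * rb⁻¹ := by group
    rw [this, e4]; unfold beta; group
  subst hbe
  have hra : ra = (beta rb al)⁻¹ * rb * al := by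
    have : ra = (beta rb al)⁻¹ * (beta rb al * ra) := by group
    rw [this, e5]; group
  subst hra
  have hri : ri = (beta rb al)⁻¹ * (beta rb al)⁻¹ * rb * al * al := by
    have : ri = (beta rb al)⁻¹ * (beta rb al * ri) := by group
    rw [this, e6]; group
  subst hri
  have hR : Rel rb al := by
    unfold Rel Commute SemiconjBy
    have h := e7
    have h2 : al * ((beta rb al)⁻¹ * (beta rb al)⁻¹ * rb) * (al * al) =
        ((beta rb al)⁻¹ * (beta rb al)⁻¹ * rb) * al * (al * al) := by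
      have h3 : al * ((beta rb al)⁻¹ * (beta rb al)⁻¹ * rb) * (al * al) =
        al * ((beta rb al)⁻¹ * (beta rb al)⁻¹ * rb * al * al) := by group
      have h4 : ((beta rb al)⁻¹ * (beta rb al)⁻¹ * rb) * al * (al * al) =
        ((beta rb al)⁻¹ * (beta rb al)⁻¹ * rb * al * al) * al := by group
      rw [h3, h4, h]
    exact mul_right_cancel h2
  exact ⟨hR, rfl⟩

/-- the jumps of a pair of normalised primitives -/
theorem exists_jumps {vu vl : ℝ × ℝ × ℂ → G}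
    (hu : ∀ a ∈ Box 1, IsPr T vu a) (hl : ∀ a ∈ Box (-1), IsPr T vl a)
    (hout : rho vu vl (1/2, -(1/2)) = 1) :
    ∃ b l : G, Rel b l ∧ (∀ p ∈ RectD, rho vu vl p = Rg b l p.1 p.2) ∧
      (∀ p ∈ DU, dD vu p = Dup b l ⟨p.2 - 1/2, p.1⟩) ∧
      (∀ p ∈ DL, dD vl p = Ddn b l ⟨p.2 - 1/2, p.1⟩) := by
  have hr := rho_LCo hu hl
  have hdU : LCo (dD vu) DU := dD_LCo fun p hp s hs => hu _ (emb_DU hp hs)
  have hdL : LCo (dD vl) DL := dD_LCo fun p hp s hs => hl _ (emb_DL hp hs)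
  -- sample points
  have m1 := edge_mem (r := -(1/4)) (by norm_num) (by norm_num) d_outU.2.2
  have m2 := edge_mem (r := 1/5) (by norm_num) (by norm_num)
    (notPP_of_rat (n := 0) (by simp only [sg]; norm_num) (by simp only [sg]; norm_num)
      (by simp only [hh]; norm_num))
  have m3 := edge_mem (r := 1/4) (by norm_num) (by norm_num) d_inL.2.2
  have m4 := edge_mem (r := 1/2) (by norm_num) (by norm_num) r_rb.2.2
  have m5 := edge_mem (r := 3/4) (by norm_num) (by norm_num) r_ra.2.2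
  have m6 := edge_mem (r := 9/10) (by norm_num) (by norm_num)
    (notPP_of_rat (n := -1) (by simp only [sg]; norm_num) (by simp only [sg]; norm_num)
      (by simp only [hh]; norm_num))
  have m7 := edge_mem (r := 5/4) (by norm_num) (by norm_num) r_ri.2.2
  let J : Jumps G :=
    { al := dD vu (0, -(1/4)), be := dD vu (0, 1/2), ga := dD vl (0, -(1/4)), de := dD vl (0, 1/4)
      rb := rho vu vl (0, 1/2), rc := rho vu vl (1, 1/2), ra := rho vu vl (0, 3/4)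
      ri := rho vu vl (0, 5/4)
      e1 := by
        have h := edge_rel (vu := vu) (vl := vl) (-(1/4))
        rw [rect_const_out hr m1.1 (by simp only [sg]; norm_num) (by norm_num),
          rect_const_out hr m1.2.1 (by simp only [sg]; norm_num) (by norm_num), hout, mul_one,
          one_mul] at h
        exact h
      e2 := by
        have h := edge_rel (vu := vu) (vl := vl) (1/5)
        rw [rect_const_out hr m2.1 (by simp only [sg]; norm_num) (by norm_num), hout, mul_one,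
          rect_const_rb hr m2.2.1 (by simp only [sg]; norm_num) (by simp only [sg]; norm_num),
          disc_const_outU hdU m2.2.2.1 (by norm_num),
          disc_const_inL hdL m2.2.2.2 (by norm_num) (by simp only [hh]; norm_num)] at h
        exact h
      e3 := by
        have h := edge_rel (vu := vu) (vl := vl) (1/4)
        rw [rect_const_rb hr m3.1 (by simp only [sg]; norm_num) (by simp only [sg]; norm_num),
          rect_const_rc hr m3.2.1 (by simp only [sg]; norm_num),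
          disc_const_outU hdU m3.2.2.1 (by norm_num)] at h
        exact h
      e4 := by
        have h := edge_rel (vu := vu) (vl := vl) (1/2)
        rw [disc_const_outL hdL m4.2.2.2 (by norm_num)] at h
        exact h
      e5 := by
        have h := edge_rel (vu := vu) (vl := vl) (3/4)
        rw [rect_const_rb hr m5.2.1 (by simp only [sg]; norm_num) (by simp only [sg]; norm_num),
          disc_const_inU hdU m5.2.2.1 (by norm_num) (by simp only [hh]; norm_num),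
          disc_const_outL hdL m5.2.2.2 (by norm_num)] at h
        exact h
      e6 := by
        have h := edge_rel (vu := vu) (vl := vl) (9/10)
        rw [rect_const_ri hr m6.1 (by simp only [sg]; norm_num) (by norm_num),
          rect_const_ra hr m6.2.1 (by simp only [sg]; norm_num) (by simp only [sg]; norm_num)
            (by norm_num),
          disc_const_inU hdU m6.2.2.1 (by norm_num) (by simp only [hh]; norm_num),
          disc_const_outL hdL m6.2.2.2 (by norm_num)] at h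
        exact h
      e7 := by
        have h := edge_rel (vu := vu) (vl := vl) (5/4)
        rw [rect_const_ri hr m7.2.1 (by simp only [sg]; norm_num) (by norm_num),
          disc_const_outU hdU m7.2.2.1 (by simp only [hh]; norm_num),
          disc_const_outL hdL m7.2.2.2 (by norm_num)] at h
        exact h }
  obtain ⟨hR, hJ⟩ := jumps_solve J
  have jbe : dD vu (0, 1/2) = beta J.rb J.al := congrArg Jumps.be hJ
  have jga : dD vl (0, -(1/4)) = J.al := congrArg Jumps.ga hJ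
  have jde : dD vl (0, 1/4) = J.rb⁻¹ * J.al := congrArg Jumps.de hJ
  have jrc : rho vu vl (1, 1/2) = J.al * J.rb * J.al⁻¹ * J.rb := congrArg Jumps.rc hJ
  have jra : rho vu vl (0, 3/4) = (beta J.rb J.al)⁻¹ * J.rb * J.al := congrArg Jumps.ra hJ
  have jri : rho vu vl (0, 5/4) = (beta J.rb J.al)⁻¹ * (beta J.rb J.al)⁻¹ * J.rb * J.al * J.al :=
    congrArg Jumps.ri hJ
  refine ⟨J.rb, J.al, hR, ?_, ?_, ?_⟩
  · rintro ⟨s, r⟩ hp
    rcases rect_cases hp with ⟨h1, _⟩ | ⟨h1, h2, _⟩ | ⟨h1, h2, _⟩ | ⟨h1, h2, h3, _⟩ | ⟨h1, h2, _⟩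
    · rw [Rg_rc _ _ h1.le, rect_const_rc hr hp h1, jrc]
    · rw [Rg_rb _ _ h1.le h2, rect_const_rb hr hp h1 h2]
    · rw [Rg_out _ _ h1 h2, rect_const_out hr hp h1 h2, hout]
    · rw [Rg_ra _ _ h2 h3.le h1.le, rect_const_ra hr hp h1 h2 h3, jra]
    · rw [Rg_ri _ _ h1 h2.le, rect_const_ri hr hp h1 h2, jri]
  · rintro ⟨y, r⟩ hp
    unfold Dup
    simp only [sub_add_cancel]
    split_ifs with h
    · rw [disc_const_inU hdU hp h.1 h.2, jbe]
    · rw [disc_const_outU hdU hp h]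
  · rintro ⟨y, r⟩ hp
    unfold Ddn
    simp only [sub_add_cancel]
    split_ifs with h
    · rw [disc_const_inL hdL hp h.1 h.2, jde]
    · rw [disc_const_outL hdL hp h, jga]

/-! ### lifting neighbourhoods -/

theorem VP_norm {a : ℂ × ℂ} (ha : a ∈ VP) : ‖a.1‖ = 1 := ha.1.1

theorem VP_ne {a : ℂ × ℂ} (ha : a ∈ VP) : a.1 ≠ 0 := by
  intro h
  have := VP_norm ha
  rw [h, norm_zero] at this
  exact zero_ne_one this

theorem VP_ee {a : ℂ × ℂ} (ha : a ∈ VP) : ee (sa a) = a.1 := by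
  have := norm_mul_ee_sa a
  rwa [VP_norm ha, Complex.ofReal_one, one_mul] at this

theorem VP_PP {a : ℂ × ℂ} (ha : a ∈ VP) : ‖a.2‖ ≤ 1 ∧ ¬ PP (sa a) a.2.im (a.2.re + 1 / 2) := by
  rw [← mem_VP_iff, VP_ee ha]; exact ha

/-- the lift with angle in `[0,1)` -/
noncomputable def Lf (x : ℂ × ℂ) : ℝ × ℝ × ℂ := (sa x, ‖x.1‖, x.2)

theorem Lf_eq {a : ℂ × ℂ} (ha : a ∈ VP) : Lf a = emb (sa a) a.2.im (a.2.re + 1 / 2) := by
  unfold Lf emb
  rw [VP_norm ha]
  congr 2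
  apply Complex.ext <;> simp

theorem VP_disc {a : ℂ × ℂ} (ha : a ∈ VP) : a.2.im ^ 2 + (a.2.re + 1 / 2 - 1/2) ^ 2 ≤ 1 := by
  have := (VP_PP ha).1
  rw [show a.2 = (⟨a.2.re, a.2.im⟩ : ℂ) from (Complex.eta _).symm, norm_le_one_iff] at this
  rw [add_sub_cancel_right]; exact this

theorem lift_near {a : ℂ × ℂ} (ha : a ∈ VP) {U : Set (ℝ × ℝ × ℂ)} (hU : U ∈ 𝓝 (Lf a)) :
    ∃ δ > 0, ∀ x, dist x a < δ → ∃ P ∈ U, ∃ n : ℤ, pi3 P = x ∧ Lf x = P + n • sh ∧
      (n = 0 ∨ (n = 1 ∧ sa a = 0)) := by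
  obtain ⟨ε, hε, hU⟩ := Metric.mem_nhds_iff.1 hU
  have hc1 : ContinuousAt (fun x : ℂ × ℂ => ‖x.1‖) a := by fun_prop
  obtain ⟨δ₁, hδ₁, h1⟩ := Metric.continuousAt_iff.1 hc1 ε hε
  have hn : ∃ δ > 0, ∀ x, dist x a < δ → ∃ n : ℤ, (n = 0 ∨ (n = 1 ∧ sa a = 0)) ∧
      |sa x - n - sa a| < ε := by
    by_cases h0 : sa a = 0
    · obtain ⟨δ, hδ, h⟩ := sa_near_zero (VP_ne ha) h0 hε
      refine ⟨δ, hδ, fun x hx => ?_⟩
      obtain ⟨n, hn, h⟩ := h x hx
      refine ⟨n, ?_, by rw [h0, sub_zero]; exact h⟩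
      rcases hn with hn | hn
      · exact Or.inl hn
      · exact Or.inr ⟨hn, h0⟩
    · obtain ⟨δ, hδ, h⟩ := Metric.continuousAt_iff.1 (sa_cont (VP_ne ha) h0) ε hε
      refine ⟨δ, hδ, fun x hx => ⟨0, Or.inl rfl, ?_⟩⟩
      have := h hx
      rw [Real.dist_eq] at this
      simpa using this
  obtain ⟨δ₂, hδ₂, h2⟩ := hn
  refine ⟨min (min δ₁ δ₂) ε, lt_min (lt_min hδ₁ hδ₂) hε, fun x hx => ?_⟩
  have hx1 := hx.trans_le ((min_le_left _ _).trans (min_le_left _ _))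
  have hx2 := hx.trans_le ((min_le_left _ _).trans (min_le_right _ _))
  have hx3 := hx.trans_le (min_le_right _ _)
  obtain ⟨n, hn, h3⟩ := h2 x hx2
  refine ⟨(sa x - n, ‖x.1‖, x.2), hU ?_, n, ?_, ?_, hn⟩
  · rw [Metric.mem_ball, Prod.dist_eq]
    refine max_lt ?_ ?_
    · rw [Real.dist_eq]; exact h3
    · rw [Prod.dist_eq]
      refine max_lt (h1 hx1) ?_
      exact (le_max_right _ _).trans_lt hx3
  · unfold pi3
    ext1
    · show (‖x.1‖ : ℂ) * ee (sa x - n) = x.1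
      rw [ee_sub_int, norm_mul_ee_sa]
    · rfl
  · unfold Lf sh
    ext <;> simp

theorem cint_of {x x' : ℂ × ℂ} {P P' : ℝ × ℝ × ℂ} {n n' : ℤ} {s : ℝ} (h : Lf x = P + n • sh)
    (h' : Lf x' = P' + n' • sh) (e : |P.1 - s| < 1/4) (e' : |P'.1 - s| < 1/4) :
    cint sa x x' = n - n' := by
  have h1 : sa x = P.1 + n := by
    have : (Lf x).1 = (P + n • sh).1 := by rw [h]
    simpa [Lf, sh] using this
  have h2 : sa x' = P'.1 + n' := by
    have : (Lf x').1 = (P' + n' • sh).1 := by rw [h']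
    simpa [Lf, sh] using this
  unfold cint
  apply round_eq_of_abs_lt
  rw [h1, h2]
  push_cast
  rw [abs_lt] at e e' ⊢
  constructor <;> linarith [e.1, e.2, e'.1, e'.2]

theorem vshift {v : ℝ × ℝ × ℂ → G} {D : G} {P : ℝ × ℝ × ℂ} {n : ℤ} {s : ℝ}
    (hn : n = 0 ∨ (n = 1 ∧ s = 0)) (h : s = 0 → v (P + sh) = D * v P) :
    v (P + n • sh) = D ^ n * v P := by
  rcases hn with rfl | ⟨rfl, hs⟩
  · simp
  · simp [h hs]

theorem powc {D E : G} {n n' : ℤ} {s : ℝ} (hn : n = 0 ∨ (n = 1 ∧ s = 0))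
    (hn' : n' = 0 ∨ (n' = 1 ∧ s = 0)) (h : s = 0 → E = D) : E ^ (n - n') = D ^ (n - n') := by
  by_cases hs : s = 0
  · rw [h hs]
  · have e1 : n = 0 := by
      rcases hn with h | h
      · exact h
      · exact absurd h.2 hs
    have e2 : n' = 0 := by
      rcases hn' with h | h
      · exact h
      · exact absurd h.2 hs
    rw [e1, e2]; simp

open Classical in
/-- the combined potential -/
noncomputable def vv (vu vl : ℝ × ℝ × ℂ → G) (x : ℂ × ℂ) : G :=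
  if 0 ≤ x.2.im then vu (Lf x) else vl (Lf x)

theorem gauge_main {vu vl : ℝ × ℝ × ℂ → G} {b l : G}
    (hu : ∀ a ∈ Box 1, IsPr T vu a) (hl : ∀ a ∈ Box (-1), IsPr T vl a)
    (h1 : ∀ p ∈ RectD, rho vu vl p = Rg b l p.1 p.2)
    (h2 : ∀ p ∈ DU, dD vu p = Dup b l ⟨p.2 - 1/2, p.1⟩)
    (h3 : ∀ p ∈ DL, dD vl p = Ddn b l ⟨p.2 - 1/2, p.1⟩) :
    GaugeBy T (patT b l) VP (fun x => (vv vu vl x)⁻¹) := by
  intro a ha
  have hd := VP_disc ha
  have hP := (VP_PP ha).2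
  have hs : sa a ∈ Icc (0:ℝ) 1 := ⟨sa_nonneg a, (sa_lt_one a).le⟩
  have hA := Lf_eq ha
  set y := a.2.im with hy
  set r := a.2.re + 1 / 2 with hr
  set s := sa a with hs'
  have ea : (⟨r - 1/2, y⟩ : ℂ) = a.2 := by
    apply Complex.ext
    · show r - 1/2 = a.2.re
      rw [hr]; ring
    · rfl
  have E4 : ∀ᶠ P : ℝ × ℝ × ℂ in 𝓝 (Lf a), |P.1 - s| < 1/4 := by
    have hc : ContinuousAt (fun P : ℝ × ℝ × ℂ => |P.1 - s|) (Lf a) := by fun_prop
    refine hc.eventually_lt continuousAt_const ?_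
    show |sa a - s| < 1/4
    rw [← hs', sub_self, abs_zero]; norm_num
  -- facts in the upper half
  have up : 0 ≤ y → Lf a ∈ Box 1 ∧ (s = 0 → (y, r) ∈ DU ∧
      ∀ᶠ P in 𝓝 (Lf a), vu (P + sh) = Dup b l a.2 * vu P ∧ Dup b l P.2.2 = Dup b l a.2) := by
    intro hy0
    refine ⟨by rw [hA]; exact emb_mem hs (by rw [one_mul]; exact hy0) hd hP, fun h0 => ?_⟩
    have hDU : (y, r) ∈ DU := ⟨hy0, hd, by rw [← h0]; exact hP⟩
    refine ⟨hDU, ?_⟩
    have e1 := dD_ev (hu _ (emb_DU hDU (Or.inl rfl))) (hu _ (emb_DU hDU (Or.inr rfl)))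
    rw [h2 _ hDU, ea] at e1
    have hA0 : Lf a = emb 0 y r := by rw [hA, h0]
    rw [hA0]
    have e2 : ∀ᶠ P : ℝ × ℝ × ℂ in 𝓝 (emb 0 y r), Dup b l P.2.2 = Dup b l a.2 := by
      have hc : ContinuousAt (fun P : ℝ × ℝ × ℂ => P.2.2) (emb 0 y r) := by fun_prop
      have hv : (fun P : ℝ × ℝ × ℂ => P.2.2) (emb 0 y r) = a.2 := ea
      have := Dup_lc b l (w₀ := a.2) hDU
      rw [← hv] at this
      have h4 := hc.eventually this
      rw [hv] at h4
      exact h4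
    exact e1.and e2
  have dn : y ≤ 0 → Lf a ∈ Box (-1) ∧ (s = 0 → (y, r) ∈ DL ∧
      ∀ᶠ P in 𝓝 (Lf a), vl (P + sh) = Ddn b l a.2 * vl P ∧ Ddn b l P.2.2 = Ddn b l a.2) := by
    intro hy0
    refine ⟨by rw [hA]; exact emb_mem hs (by linarith) hd hP, fun h0 => ?_⟩
    have hDL : (y, r) ∈ DL := ⟨hy0, hd, by rw [← h0]; exact hP⟩
    refine ⟨hDL, ?_⟩
    have e1 := dD_ev (hl _ (emb_DL hDL (Or.inl rfl))) (hl _ (emb_DL hDL (Or.inr rfl)))
    rw [h3 _ hDL, ea] at e1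
    have hA0 : Lf a = emb 0 y r := by rw [hA, h0]
    rw [hA0]
    have e2 : ∀ᶠ P : ℝ × ℝ × ℂ in 𝓝 (emb 0 y r), Ddn b l P.2.2 = Ddn b l a.2 := by
      have hc : ContinuousAt (fun P : ℝ × ℝ × ℂ => P.2.2) (emb 0 y r) := by fun_prop
      have hv : (fun P : ℝ × ℝ × ℂ => P.2.2) (emb 0 y r) = a.2 := ea
      have := Ddn_lc b l (w₀ := a.2) hDL
      rw [← hv] at this
      have h4 := hc.eventually this
      rw [hv] at h4
      exact h4
    exact e1.and e2
  have him : ContinuousAt (fun P : ℝ × ℝ × ℂ => P.2.2.im) (Lf a) := by fun_prop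
  rcases lt_trichotomy y 0 with hyn | hy0 | hyp
  · -- lower half
    obtain ⟨hB, hD⟩ := dn hyn.le
    obtain ⟨ε, hε, hpr⟩ := hl _ hB
    have E5 : ∀ᶠ P : ℝ × ℝ × ℂ in 𝓝 (Lf a), P.2.2.im < 0 :=
      him.eventually_lt continuousAt_const hyn
    have E6 : ∀ᶠ P : ℝ × ℝ × ℂ in 𝓝 (Lf a), s = 0 → vl (P + sh) = Ddn b l a.2 * vl P ∧
        Ddn b l P.2.2 = Ddn b l a.2 := by
      by_cases h0 : s = 0
      · filter_upwards [(hD h0).2] with P hP _ using hP
      · exact Filter.Eventually.of_forall fun P h => absurd h h0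
    obtain ⟨δ, hδ, H⟩ := lift_near ha
      (Filter.inter_mem (Metric.ball_mem_nhds (Lf a) hε) (E4.and (E5.and E6)))
    refine ⟨δ, hδ, fun x x' hx hx' => ?_⟩
    obtain ⟨P, ⟨p1, p2, p3, p4⟩, n, p5, p6, p7⟩ := H x hx
    obtain ⟨P', ⟨q1, q2, q3, q4⟩, n', q5, q6, q7⟩ := H x' hx'
    have hk := cint_of p6 q6 p2 q2
    have hT := hpr P P' p1 q1
    rw [p5, q5] at hT
    have hx2 : x.2 = P.2.2 := by rw [← p5]; rfl
    have hx2' : x'.2 = P'.2.2 := by rw [← q5]; rfl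
    have tx : ¬ 0 ≤ x.2.im := by rw [hx2]; exact not_le.2 p3
    have tx' : ¬ 0 ≤ x'.2.im := by rw [hx2']; exact not_le.2 q3
    show patT b l x x' = ((vv vu vl x)⁻¹)⁻¹ * T x x' * (vv vu vl x')⁻¹
    unfold patT vv
    rw [if_neg tx, if_neg tx', if_neg tx, if_neg tx', hk, hT, p6, q6,
      vshift p7 (fun h => (p4 h).1), vshift q7 (fun h => (q4 h).1), hx2,
      powc p7 q7 (fun h => (p4 h).2)]
    group
  · -- the annulus
    obtain ⟨hB, hD⟩ := up hy0.ge
    obtain ⟨hB', hD'⟩ := dn hy0.le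
    obtain ⟨ε, hε, hpr⟩ := hu _ hB
    have hP0 : ¬ PP s 0 r := by rw [← hy0]; exact hP
    have hrr : r ∈ Icc (-(1/2):ℝ) (3/2) := by
      rw [hy0] at hd
      have h5 : (r - 1/2) ^ 2 ≤ 1 := by nlinarith
      have h6 := abs_le.1 ((sq_le_one_iff_abs_le_one _).1 h5)
      exact ⟨by linarith [h6.1], by linarith [h6.2]⟩
    have hRD : (s, r) ∈ RectD := ⟨hs, hrr, hP0⟩
    have hRD1 : s = 0 → ((1:ℝ), r) ∈ RectD := fun h0 =>
      ⟨by norm_num, hrr, fun hp => hP0 (by rw [h0]; exact PP_shift.1 hp)⟩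
    have hA' : Lf a = emb s 0 r := by rw [hA, hy0]
    -- comparison of the two primitives
    have F1 : ∀ᶠ P in 𝓝 (Lf a), vu P = Rg b l s r * vl P := by
      rw [hA']
      have := rho_ev hRD hu hl
      rw [h1 _ hRD] at this
      exact this
    have F2 : ∀ᶠ P : ℝ × ℝ × ℂ in 𝓝 (Lf a), Rg b l P.1 (P.2.2.re + 1/2) = Rg b l s r := by
      have hc : ContinuousAt (fun P : ℝ × ℝ × ℂ => (P.1, P.2.2.re + 1/2)) (Lf a) := by fun_prop
      have hv : (fun P : ℝ × ℝ × ℂ => (P.1, P.2.2.re + 1/2)) (Lf a) = (s, r) := rfl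
      have := Rg_lc b l hRD
      rw [← hv] at this
      exact hc.eventually this
    have F3 : s = 0 → ∀ᶠ P : ℝ × ℝ × ℂ in 𝓝 (Lf a), Rg b l (P.1 + 1) (P.2.2.re + 1/2) =
        Dup b l a.2 * Rg b l s r * (Ddn b l a.2)⁻¹ := by
      intro h0
      have e1 := edge_rel (vu := vu) (vl := vl) r
      have eU : ((0:ℝ), r) ∈ DU := by have := (hD h0).1; rwa [hy0] at this
      have eL : ((0:ℝ), r) ∈ DL := by have := (hD' h0).1; rwa [hy0] at this
      have ea' : (⟨r - 1/2, 0⟩ : ℂ) = a.2 := by rw [← ea, hy0]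
      rw [h2 _ eU, h3 _ eL, h1 _ (by rw [← h0]; exact hRD : ((0:ℝ), r) ∈ RectD), h1 _ (hRD1 h0)] at e1
      simp only [ea'] at e1
      have e2 : Rg b l 1 r = Dup b l a.2 * Rg b l s r * (Ddn b l a.2)⁻¹ := by
        rw [h0, e1]; group
      rw [← e2]
      have hc : ContinuousAt (fun P : ℝ × ℝ × ℂ => (P.1 + 1, P.2.2.re + 1/2)) (Lf a) := by fun_prop
      have hv : (fun P : ℝ × ℝ × ℂ => (P.1 + 1, P.2.2.re + 1/2)) (Lf a) = (1, r) := by
        show (s + 1, r) = (1, r)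
        rw [h0, zero_add]
      have := Rg_lc b l (hRD1 h0)
      rw [← hv] at this
      have h4 := hc.eventually this
      rw [hv] at h4
      exact h4
    have E6 : ∀ᶠ P : ℝ × ℝ × ℂ in 𝓝 (Lf a), s = 0 → (vu (P + sh) = Dup b l a.2 * vu P ∧
        Dup b l P.2.2 = Dup b l a.2) ∧ (vl (P + sh) = Ddn b l a.2 * vl P ∧
        Ddn b l P.2.2 = Ddn b l a.2) ∧ Rg b l (P.1 + 1) (P.2.2.re + 1/2) =
        Dup b l a.2 * Rg b l s r * (Ddn b l a.2)⁻¹ := by
      by_cases h0 : s = 0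
      · filter_upwards [(hD h0).2, (hD' h0).2, F3 h0] with P g1 g2 g3 _ using ⟨g1, g2, g3⟩
      · exact Filter.Eventually.of_forall fun P h => absurd h h0
    obtain ⟨δ, hδ, H⟩ := lift_near ha
      (Filter.inter_mem (Metric.ball_mem_nhds (Lf a) hε) (E4.and (E6.and (F1.and F2))))
    refine ⟨δ, hδ, fun x x' hx hx' => ?_⟩
    obtain ⟨P, ⟨p1, p2, p4, p8, p9⟩, n, p5, p6, p7⟩ := H x hx
    obtain ⟨P', ⟨q1, q2, q4, q8, q9⟩, n', q5, q6, q7⟩ := H x' hx'
    have hk := cint_of p6 q6 p2 q2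
    have hT := hpr P P' p1 q1
    rw [p5, q5] at hT
    have hx2 : x.2 = P.2.2 := by rw [← p5]; rfl
    have hx2' : x'.2 = P'.2.2 := by rw [← q5]; rfl
    have hRx : Rg b l (sa x) (x.2.re + 1/2) = (Dup b l a.2) ^ n * Rg b l s r * (Ddn b l a.2) ^ (-n) := by
      have e1 : sa x = P.1 + n := by
        have : (Lf x).1 = (P + n • sh).1 := by rw [p6]
        simpa [Lf, sh] using this
      rw [e1, hx2]
      rcases p7 with rfl | ⟨rfl, h0⟩
      · simpa using p9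
      · have := (p4 h0).2.2
        simpa using this
    have hRx' : Rg b l (sa x') (x'.2.re + 1/2) =
        (Dup b l a.2) ^ n' * Rg b l s r * (Ddn b l a.2) ^ (-n') := by
      have e1 : sa x' = P'.1 + n' := by
        have : (Lf x').1 = (P' + n' • sh).1 := by rw [q6]
        simpa [Lf, sh] using this
      rw [e1, hx2']
      rcases q7 with rfl | ⟨rfl, h0⟩
      · simpa using q9
      · have := (q4 h0).2.2
        simpa using this
    have w1 := vshift (v := vu) p7 (fun h => (p4 h).1.1)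
    have w1' := vshift (v := vu) q7 (fun h => (q4 h).1.1)
    have w2 := vshift (v := vl) p7 (fun h => (p4 h).2.1.1)
    have w2' := vshift (v := vl) q7 (fun h => (q4 h).2.1.1)
    have k1 := powc (D := Dup b l a.2) (E := Dup b l x.2) p7 q7 (fun h => by rw [hx2]; exact (p4 h).1.2)
    have k2 := powc (D := Ddn b l a.2) (E := Ddn b l x.2) p7 q7 (fun h => by rw [hx2]; exact (p4 h).2.1.2)
    have k2' := powc (D := Ddn b l a.2) (E := Ddn b l x'.2) p7 q7 (fun h => by rw [hx2']; exact (q4 h).2.1.2)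
    show patT b l x x' = ((vv vu vl x)⁻¹)⁻¹ * T x x' * (vv vu vl x')⁻¹
    unfold patT vv
    rw [hk, hT, p6, q6, w1, w1', w2, w2', hRx, hRx', k1, k2, k2', p8, q8]
    split_ifs <;> group
  · -- upper half
    obtain ⟨hB, hD⟩ := up hyp.le
    obtain ⟨ε, hε, hpr⟩ := hu _ hB
    have E5 : ∀ᶠ P : ℝ × ℝ × ℂ in 𝓝 (Lf a), 0 < P.2.2.im :=
      continuousAt_const.eventually_lt him hyp
    have E6 : ∀ᶠ P : ℝ × ℝ × ℂ in 𝓝 (Lf a), s = 0 → vu (P + sh) = Dup b l a.2 * vu P ∧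
        Dup b l P.2.2 = Dup b l a.2 := by
      by_cases h0 : s = 0
      · filter_upwards [(hD h0).2] with P hP _ using hP
      · exact Filter.Eventually.of_forall fun P h => absurd h h0
    obtain ⟨δ, hδ, H⟩ := lift_near ha
      (Filter.inter_mem (Metric.ball_mem_nhds (Lf a) hε) (E4.and (E5.and E6)))
    refine ⟨δ, hδ, fun x x' hx hx' => ?_⟩
    obtain ⟨P, ⟨p1, p2, p3, p4⟩, n, p5, p6, p7⟩ := H x hx
    obtain ⟨P', ⟨q1, q2, q3, q4⟩, n', q5, q6, q7⟩ := H x' hx'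
    have hk := cint_of p6 q6 p2 q2
    have hT := hpr P P' p1 q1
    rw [p5, q5] at hT
    have hx2 : x.2 = P.2.2 := by rw [← p5]; rfl
    have hx2' : x'.2 = P'.2.2 := by rw [← q5]; rfl
    have tx : 0 ≤ x.2.im := by rw [hx2]; exact p3.le
    have tx' : 0 ≤ x'.2.im := by rw [hx2']; exact q3.le
    show patT b l x x' = ((vv vu vl x)⁻¹)⁻¹ * T x x' * (vv vu vl x')⁻¹
    unfold patT vv
    rw [if_pos tx, if_pos tx', if_pos tx, if_pos tx', hk, hT, p6, q6,
      vshift p7 (fun h => (p4 h).1), vshift q7 (fun h => (q4 h).1), hx2,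
      powc p7 q7 (fun h => (p4 h).2)]
    group

end Pool.Agent.Helper60.Geo.PC
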