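import Pool.Agent.Helper60.Geo.Conc

/-! Definitions for the complement of the pattern `P` in the solid torus. -/

set_option autoImplicit false

namespace Pool.Agent.Helper60.Geo

open Set AS

variable {G G' : Type*} [Group G] [Group G'] {T T' : ℂ × ℂ → ℂ × ℂ → G}

def beta (b l : G) : G := l * b * l⁻¹ * b * l * b⁻¹

/-- the relation -/
def Rel (b l : G) : Prop := Commute l ((beta b l)⁻¹ * (beta b l)⁻¹ * b)

/-- the jumps. Cut the solid torus along the disc `u = 1` and the annulus `Im w = 0`.
`al, be`: crossing the disc in the direction of increasing angle, upper half, outside/inside of the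
lens between the arc `A` and the real axis; `ga, de`: the same for the lower half; `out = 1`,
`rb, rc, ra, ri`: crossing the annulus from `Im w ≥ 0` to `Im w < 0` in the regions cut out by `G`. -/
structure Jumps (G : Type*) [Group G] where
  al : G
  be : G
  ga : G
  de : G
  rb : G
  rc : G
  ra : G
  ri : G
  e1 : al = ga
  e2 : al = rb * de
  e3 : al * rb = rc * de
  e4 : be * rb = rc * ga
  e5 : be * ra = rb * ga
  e6 : be * ri = ra * ga
  e7 : al * ri = ri * ga

/-- the jumps of a pair -/
def jumps (b l : G) (h : Rel b l) : Jumps G where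
  al := l
  be := beta b l
  ga := l
  de := b⁻¹ * l
  rb := b
  rc := l * b * l⁻¹ * b
  ra := (beta b l)⁻¹ * b * l
  ri := (beta b l)⁻¹ * (beta b l)⁻¹ * b * l * l
  e1 := rfl
  e2 := by group
  e3 := by group
  e4 := by unfold beta; group
  e5 := by group
  e6 := by group
  e7 := by
    have h' := h.eq
    simp only [← mul_assoc] at h' ⊢
    rw [h']

/-- angle of the first coordinate divided by `2π`, in `[0,1)` -/
noncomputable def sa (x : ℂ × ℂ) : ℝ := Int.fract (ang Prod.fst x)

open Classical in
/-- jump across the disc `u = 1` in the upper half -/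
noncomputable def Dup (b l : G) (w : ℂ) : G :=
  if 1 / 3 < w.re + 1 / 2 ∧ w.im < hh (w.re + 1 / 2) then beta b l else l

open Classical in
/-- jump across the disc `u = 1` in the lower half -/
noncomputable def Ddn (b l : G) (w : ℂ) : G :=
  if w.re + 1 / 2 < 1 / 3 ∧ hh (w.re + 1 / 2) < w.im then b⁻¹ * l else l

open Classical in
/-- jump across the annulus `Im w = 0` at `(s, r)`, `r = Re w + 1/2` -/
noncomputable def Rg (b l : G) (s r : ℝ) : G :=
  if 2 ≤ s - sg r then l * b * l⁻¹ * b
  else if 1 ≤ s - sg r then b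
  else if r < 3 / 7 then 1
  else if 0 ≤ s - sg r then (beta b l)⁻¹ * b * l
  else (beta b l)⁻¹ * (beta b l)⁻¹ * b * l * l

open Classical in
/-- the model flat function of a pair -/
noncomputable def patT (b l : G) (x y : ℂ × ℂ) : G :=
  if 0 ≤ x.2.im then
    (if 0 ≤ y.2.im then Dup b l x.2 ^ cint sa x y
      else Rg b l (sa x) (x.2.re + 1 / 2) * Ddn b l y.2 ^ cint sa x y)
  else
    (if 0 ≤ y.2.im then Ddn b l x.2 ^ cint sa x y * (Rg b l (sa y) (y.2.re + 1 / 2))⁻¹
      else Ddn b l x.2 ^ cint sa x y)

/-- base point `(-1, i)` of the loops below -/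
noncomputable def v0 : ℂ × ℂ := (-1, Complex.I)
/-- longitude on the boundary -/
noncomputable def gl (s : ℝ) : ℂ × ℂ := (-ee s, Complex.I)
/-- from `(-1, i)` straight down to `(-1, -i)` -/
noncomputable def pD (s : ℝ) : ℂ × ℂ := (-1, ((1 - 2 * s : ℝ) : ℂ) * Complex.I)
/-- from `(-1, i)` along the left half of the boundary circle to `(-1, -i)` -/
noncomputable def pL (s : ℝ) : ℂ × ℂ := (-1, Complex.I * ee (s / 2))
/-- boundary of the meridian disc `u = -1` -/
noncomputable def gm0 (s : ℝ) : ℂ × ℂ := (-1, ee s)

end Pool.Agent.Helper60.Geo
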