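import Pool.Agent.Helper60.Geo.PatReg

/-! Connectedness of the regions of the cut annulus and of the cut discs, in the form: locally constant
functions are constant on each region. -/

set_option autoImplicit false

namespace Pool.Agent.Helper60.Geo.PC

open Set AS Pool.Agent.Helper60.Geo

variable {X : Type*}

/-- locally constant on `D` -/
def LCo (f : ℝ × ℝ → X) (D : Set (ℝ × ℝ)) : Prop :=
  ∀ p ∈ D, ∃ ε > 0, ∀ q ∈ D, dist q p < ε → f q = f p

theorem LCo.mono {f : ℝ × ℝ → X} {D D' : Set (ℝ × ℝ)} (h : LCo f D) (h' : D' ⊆ D) : LCo f D' := by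
  intro p hp
  obtain ⟨e, he, hh⟩ := h p (h' hp)
  exact ⟨e, he, fun q hq => hh q (h' hq)⟩

/-- locally constant functions on a set that is fibrewise star shaped about a curve -/
theorem fib_const {f : ℝ × ℝ → X} {D : Set (ℝ × ℝ)} (hf : LCo f D)
    {I : Set ℝ} (hI : IsPreconnected I) {m : ℝ → ℝ} (hm : ContinuousOn m I)
    (h1 : ∀ p ∈ D, p.2 ∈ I) (h2 : ∀ r ∈ I, (m r, r) ∈ D)
    (h3 : ∀ p ∈ D, ∀ t ∈ Icc (0:ℝ) 1, (p.1 + t * (m p.2 - p.1), p.2) ∈ D) :
    ∀ p ∈ D, ∀ q ∈ D, f p = f q := by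
  have A : ∀ p ∈ D, f p = f (m p.2, p.2) := by
    intro p hp
    have key := eq_of_loc_const (f := fun t : ℝ => f (p.1 + t * (m p.2 - p.1), p.2)) (by
      intro s hs
      obtain ⟨e, he, h⟩ := hf _ (h3 p hp s hs)
      have hc : Continuous (fun t : ℝ => ((p.1 + t * (m p.2 - p.1), p.2) : ℝ × ℝ)) := by fun_prop
      obtain ⟨δ, hδ, hd⟩ := Metric.continuousAt_iff.1 (hc.continuousAt (x := s)) e he
      refine ⟨δ, hδ, fun t ht t' ht' e1 e2 => ?_⟩
      show f (p.1 + t * (m p.2 - p.1), p.2) = f (p.1 + t' * (m p.2 - p.1), p.2)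
      rw [h _ (h3 p hp t ht) (hd e1), h _ (h3 p hp t' ht') (hd e2)]) 1
      (right_mem_Icc.2 zero_le_one)
    simp only [one_mul, zero_mul, add_zero] at key
    rw [← key]; congr 2; ring
  have B : ∀ r ∈ I, ∀ r' ∈ I, f (m r, r) = f (m r', r') := by
    have hl : IsLocallyConstant (fun r : I => f (m r, r)) := by
      rw [IsLocallyConstant.iff_eventually_eq]
      intro r
      obtain ⟨e, he, h⟩ := hf _ (h2 r r.2)
      obtain ⟨δ, hδ, hd⟩ := Metric.continuousOn_iff.1 hm r r.2 e he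
      filter_upwards [Metric.ball_mem_nhds r (lt_min hδ he)] with t ht
      have ht' : dist (t : ℝ) (r : ℝ) < min δ e := ht
      apply h _ (h2 t t.2)
      rw [Prod.dist_eq]
      exact max_lt (hd t t.2 (ht'.trans_le (min_le_left _ _))) (ht'.trans_le (min_le_right _ _))
    have : PreconnectedSpace I := Subtype.preconnectedSpace hI
    intro r hr r' hr'
    exact hl.apply_eq_of_preconnectedSpace ⟨r, hr⟩ ⟨r', hr'⟩
  intro p hp q hq
  rw [A p hp, A q hq, B _ (h1 p hp) _ (h1 q hq)]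

/-! ### the annulus -/

theorem rect_mem {m r : ℝ} (hr : r ∈ Icc (-(1/2):ℝ) (3/2)) (hm0 : 0 < m) (hm1 : m < 1)
    (hn : 0 ≤ r → r ≤ 1 → ∃ n : ℤ, (n:ℝ) < m - sg r ∧ m - sg r < n + 1) : (m, r) ∈ RectD := by
  refine ⟨⟨hm0.le, hm1.le⟩, hr, ?_⟩
  rintro ⟨h0, h1, ⟨_, k, hk⟩ | ⟨⟨k, hk⟩, _⟩⟩
  · obtain ⟨n, n1, n2⟩ := hn h0 h1
    simp only at hk
    rw [hk] at n1 n2
    have e1 : n < k := by exact_mod_cast n1
    have e2 : k < n + 1 := by exact_mod_cast n2
    omega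
  · simp only at hk
    rw [hk] at hm0 hm1
    have e1 : 0 < k := by exact_mod_cast hm0
    have e2 : k < 1 := by exact_mod_cast hm1
    omega

theorem seg_mem {s m r t : ℝ} (h : (s, r) ∈ RectD) (hm0 : 0 < m) (hm1 : m < 1)
    (hn : 0 ≤ r → r ≤ 1 → ∃ n : ℤ, (n:ℝ) < m - sg r ∧ m - sg r < n + 1 ∧ (n:ℝ) ≤ s - sg r ∧
      s - sg r ≤ n + 1) (ht : t ∈ Icc (0:ℝ) 1) : (s + t * (m - s), r) ∈ RectD := by
  rcases ht.1.eq_or_lt with rfl | ht0
  · simpa using h
  · have hs := h.1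
    simp only [mem_Icc] at hs
    have ht1 := ht.2
    refine rect_mem h.2.1 ?_ ?_ ?_
    · nlinarith [mul_pos ht0 hm0, mul_nonneg (sub_nonneg.2 ht1) hs.1]
    · nlinarith [mul_pos ht0 (sub_pos.2 hm1), mul_nonneg (sub_nonneg.2 ht1) (sub_nonneg.2 hs.2)]
    · intro h0 h1
      obtain ⟨n, n1, n2, n3, n4⟩ := hn h0 h1
      refine ⟨n, ?_, ?_⟩
      · nlinarith [mul_pos ht0 (sub_pos.2 n1), mul_nonneg (sub_nonneg.2 ht1) (sub_nonneg.2 n3)]
      · nlinarith [mul_pos ht0 (sub_pos.2 n2), mul_nonneg (sub_nonneg.2 ht1) (sub_nonneg.2 n4)]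

theorem ord_conv {s : Set ℝ} (h : ∀ x ∈ s, ∀ y ∈ s, ∀ z, x ≤ z → z ≤ y → z ∈ s) : IsPreconnected s :=
  (Set.ordConnected_iff.2 (fun x hx y hy _ z hz => h x hx y hy z hz.1 hz.2)).isPreconnected

theorem r_rc : ((1:ℝ), (1/2:ℝ)) ∈ RectD := by
  refine ⟨by norm_num, by norm_num, ?_⟩
  rintro ⟨_, _, ⟨_, k, hk⟩ | ⟨_, h⟩⟩
  · simp only [sg] at hk
    have : (9:ℝ) / 4 = k := by rw [← hk]; norm_num
    have h1 : (2:ℝ) < k := by rw [← this]; norm_num
    have h2 : (k:ℝ) < 3 := by rw [← this]; norm_num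
    have h1' : 2 < k := by exact_mod_cast h1
    have h2' : k < 3 := by exact_mod_cast h2
    omega
  · simp only [hh] at h; norm_num at h

theorem r_rb : ((0:ℝ), (1/2:ℝ)) ∈ RectD := by
  refine ⟨by norm_num, by norm_num, ?_⟩
  rintro ⟨_, _, ⟨_, k, hk⟩ | ⟨_, h⟩⟩
  · simp only [sg] at hk
    have : (5:ℝ) / 4 = k := by rw [← hk]; norm_num
    have h1 : (1:ℝ) < k := by rw [← this]; norm_num
    have h2 : (k:ℝ) < 2 := by rw [← this]; norm_num
    have h1' : 1 < k := by exact_mod_cast h1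
    have h2' : k < 2 := by exact_mod_cast h2
    omega
  · simp only [hh] at h; norm_num at h

theorem r_out : ((1/2:ℝ), (-(1/2):ℝ)) ∈ RectD := by
  refine ⟨by norm_num, by norm_num, ?_⟩
  rintro ⟨h, _⟩
  norm_num at h

theorem r_ra : ((0:ℝ), (3/4:ℝ)) ∈ RectD := by
  refine ⟨by norm_num, by norm_num, ?_⟩
  rintro ⟨_, _, ⟨_, k, hk⟩ | ⟨_, h⟩⟩
  · simp only [sg] at hk
    have : (9:ℝ) / 16 = k := by rw [← hk]; norm_num
    have h1 : (0:ℝ) < k := by rw [← this]; norm_num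
    have h2 : (k:ℝ) < 1 := by rw [← this]; norm_num
    have h1' : 0 < k := by exact_mod_cast h1
    have h2' : k < 1 := by exact_mod_cast h2
    omega
  · simp only [hh] at h; norm_num at h

theorem r_ri : ((0:ℝ), (5/4:ℝ)) ∈ RectD := by
  refine ⟨by norm_num, by norm_num, ?_⟩
  rintro ⟨_, h, _⟩
  norm_num at h

theorem rect_const_rc {f : ℝ × ℝ → X} (hf : LCo f RectD) {p : ℝ × ℝ} (hp : p ∈ RectD)
    (h : 2 < p.1 - sg p.2) : f p = f (1, 1/2) := by
  refine fib_const (D := {p | p ∈ RectD ∧ 2 < p.1 - sg p.2}) (hf.mono fun _ h => h.1)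
    (I := {r | sg r < -1}) (m := fun r => (3 + sg r) / 2) ?_ ?_ ?_ ?_ ?_ p ⟨hp, h⟩ (1, 1/2)
    ⟨r_rc, by simp only [sg]; norm_num⟩
  · apply ord_conv
    intro x hx y hy z hxz hzy
    simp only [mem_ofPred_eq] at hx hy ⊢
    rcases le_total z (3/7) with hz | hz
    · exact (sg_anti hxz hz).trans_lt hx
    · exact (sg_mono hzy hz).trans_lt hy
  · exact ((continuous_const.add continuous_sg).div_const 2).continuousOn
  · rintro ⟨s, r⟩ ⟨hq, h⟩
    have := hq.1.2
    simp only [mem_ofPred_eq] at this h ⊢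
    linarith
  · intro r hr
    simp only [mem_ofPred_eq] at hr
    have h1 := sg_lower r
    have h2 := sg_nonpos (by linarith : sg r ≤ 0)
    refine ⟨rect_mem ⟨by linarith [h2.1], by linarith [h2.2]⟩ (by linarith) (by linarith) ?_, ?_⟩
    · intro _ _
      exact ⟨2, by push_cast; linarith, by push_cast; linarith⟩
    · show 2 < (3 + sg r) / 2 - sg r
      linarith
  · rintro ⟨s, r⟩ ⟨hq, h⟩ t ht
    have hs := hq.1.2
    have h1 := sg_lower r
    simp only at hs h ⊢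
    have hs1 : sg r < -1 := by linarith
    refine ⟨seg_mem hq (by linarith) (by linarith) ?_ ht, ?_⟩
    · intro _ _
      exact ⟨2, by push_cast; linarith, by push_cast; linarith, by push_cast; linarith,
        by push_cast; linarith⟩
    · show 2 < s + t * ((3 + sg r) / 2 - s) - sg r
      nlinarith [mul_nonneg ht.1 (by linarith : (0:ℝ) ≤ (3 + sg r) / 2 - sg r - 2),
        mul_nonneg (sub_nonneg.2 ht.2) (by linarith : (0:ℝ) ≤ s - sg r - 2), ht.1, ht.2]

theorem rect_const_rb {f : ℝ × ℝ → X} (hf : LCo f RectD) {p : ℝ × ℝ} (hp : p ∈ RectD)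
    (h : 1 < p.1 - sg p.2) (h' : p.1 - sg p.2 < 2) : f p = f (0, 1/2) := by
  refine fib_const (D := {p | p ∈ RectD ∧ 1 < p.1 - sg p.2 ∧ p.1 - sg p.2 < 2})
    (hf.mono fun _ h => h.1)
    (I := {r | sg r < 0}) (m := fun r => 1 + sg r / 2) ?_ ?_ ?_ ?_ ?_ p ⟨hp, h, h'⟩ (0, 1/2)
    ⟨r_rb, by simp only [sg]; norm_num, by simp only [sg]; norm_num⟩
  · apply ord_conv
    intro x hx y hy z hxz hzy
    simp only [mem_ofPred_eq] at hx hy ⊢
    rcases le_total z (3/7) with hz | hz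
    · exact (sg_anti hxz hz).trans_lt hx
    · exact (sg_mono hzy hz).trans_lt hy
  · exact (continuous_const.add (continuous_sg.div_const 2)).continuousOn
  · rintro ⟨s, r⟩ ⟨hq, h, h'⟩
    have := hq.1.2
    simp only [mem_ofPred_eq] at this h ⊢
    linarith
  · intro r hr
    simp only [mem_ofPred_eq] at hr
    have h1 := sg_lower r
    have h2 := sg_nonpos (by linarith : sg r ≤ 0)
    refine ⟨rect_mem ⟨by linarith [h2.1], by linarith [h2.2]⟩ (by linarith) (by linarith) ?_, ?_, ?_⟩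
    · intro _ _
      exact ⟨1, by push_cast; linarith, by push_cast; linarith⟩
    · show 1 < 1 + sg r / 2 - sg r
      linarith
    · show 1 + sg r / 2 - sg r < 2
      linarith
  · rintro ⟨s, r⟩ ⟨hq, h, h'⟩ t ht
    have hs := hq.1.2
    have h1 := sg_lower r
    simp only at hs h h' ⊢
    have hs1 : sg r < 0 := by linarith
    refine ⟨seg_mem hq (by linarith) (by linarith) ?_ ht, ?_, ?_⟩
    · intro _ _
      exact ⟨1, by push_cast; linarith, by push_cast; linarith, by push_cast; linarith,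
        by push_cast; linarith⟩
    · show 1 < s + t * (1 + sg r / 2 - s) - sg r
      rcases ht.1.eq_or_lt with rfl | ht0
      · linarith
      · nlinarith [mul_pos ht0 (by linarith : (0:ℝ) < 1 + sg r / 2 - sg r - 1),
          mul_nonneg (sub_nonneg.2 ht.2) (by linarith : (0:ℝ) ≤ s - sg r - 1)]
    · show s + t * (1 + sg r / 2 - s) - sg r < 2
      rcases ht.1.eq_or_lt with rfl | ht0
      · linarith
      · nlinarith [mul_pos ht0 (by linarith : (0:ℝ) < 2 - (1 + sg r / 2 - sg r)),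
          mul_nonneg (sub_nonneg.2 ht.2) (by linarith : (0:ℝ) ≤ 2 - (s - sg r))]

theorem rect_const_out {f : ℝ × ℝ → X} (hf : LCo f RectD) {p : ℝ × ℝ} (hp : p ∈ RectD)
    (h : p.1 - sg p.2 < 1) (h' : p.2 < 3 / 7) : f p = f (1/2, -(1/2)) := by
  refine fib_const (D := {p | p ∈ RectD ∧ p.1 - sg p.2 < 1 ∧ p.2 < 3 / 7})
    (hf.mono fun _ h => h.1)
    (I := {r | -(1/2) ≤ r ∧ r < 3 / 7 ∧ -1 < sg r}) (m := fun r => (1 + min (sg r) 0) / 2)
    ?_ ?_ ?_ ?_ ?_ p ⟨hp, h, h'⟩ (1/2, -(1/2))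
    ⟨r_out, by simp only [sg]; norm_num, by norm_num⟩
  · apply ord_conv
    intro x hx y hy z hxz hzy
    simp only [mem_ofPred_eq] at hx hy ⊢
    exact ⟨hx.1.trans hxz, hzy.trans_lt hy.2.1, hy.2.2.trans_le (sg_anti hzy hy.2.1.le)⟩
  · exact ((continuous_const.add (continuous_sg.min continuous_const)).div_const 2).continuousOn
  · rintro ⟨s, r⟩ ⟨hq, h, h'⟩
    have h0 := hq.1.1
    have h1 := hq.2.1.1
    simp only [mem_ofPred_eq] at h0 h1 h h' ⊢
    exact ⟨h1, h', by linarith⟩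
  · intro r hr
    simp only [mem_ofPred_eq] at hr
    have m1 : min (sg r) 0 ≤ 0 := min_le_right _ _
    have m2 : -1 < min (sg r) 0 := lt_min hr.2.2 (by norm_num)
    have m3 : min (sg r) 0 ≤ sg r := min_le_left _ _
    refine ⟨rect_mem ⟨hr.1, by linarith⟩ (by linarith) (by linarith) ?_, ?_, hr.2.1⟩
    · intro h0 _
      have h3 : sg r ≤ 0 := by rw [← sg_zero]; exact sg_anti h0 hr.2.1.le
      rw [min_eq_left h3]
      exact ⟨0, by push_cast; linarith, by push_cast; linarith⟩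
    · show (1 + min (sg r) 0) / 2 - sg r < 1
      have := hr.2.2
      linarith
  · rintro ⟨s, r⟩ ⟨hq, h, h'⟩ t ht
    have hs := hq.1
    simp only [mem_Icc] at hs h h' ⊢
    have h2 : -1 < sg r := by linarith
    have m1 : min (sg r) 0 ≤ 0 := min_le_right _ _
    have m2 : -1 < min (sg r) 0 := lt_min h2 (by norm_num)
    have m3 : min (sg r) 0 ≤ sg r := min_le_left _ _
    refine ⟨seg_mem hq (by linarith) (by linarith) ?_ ht, ?_, h'⟩
    · intro h0 _
      have h3 : sg r ≤ 0 := by rw [← sg_zero]; exact sg_anti h0 h'.le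
      rw [min_eq_left h3]
      exact ⟨0, by push_cast; linarith, by push_cast; linarith, by push_cast; linarith,
        by push_cast; linarith⟩
    · show s + t * ((1 + min (sg r) 0) / 2 - s) - sg r < 1
      rcases ht.1.eq_or_lt with rfl | ht0
      · linarith
      · nlinarith [mul_pos ht0 (by linarith : (0:ℝ) < 1 - ((1 + min (sg r) 0) / 2 - sg r)),
          mul_nonneg (sub_nonneg.2 ht.2) (by linarith : (0:ℝ) ≤ 1 - (s - sg r))]

theorem rect_const_ra {f : ℝ × ℝ → X} (hf : LCo f RectD) {p : ℝ × ℝ} (hp : p ∈ RectD)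
    (h0 : 0 < p.1 - sg p.2) (h : p.1 - sg p.2 < 1) (h' : 3 / 7 < p.2) : f p = f (0, 3/4) := by
  refine fib_const (D := {p | p ∈ RectD ∧ 0 < p.1 - sg p.2 ∧ p.1 - sg p.2 < 1 ∧ 3 / 7 < p.2})
    (hf.mono fun _ h => h.1)
    (I := {r | 3 / 7 < r ∧ -1 < sg r ∧ sg r < 1}) (m := fun r => (1 + sg r) / 2)
    ?_ ?_ ?_ ?_ ?_ p ⟨hp, h0, h, h'⟩ (0, 3/4)
    ⟨r_ra, by simp only [sg]; norm_num, by simp only [sg]; norm_num, by norm_num⟩
  · apply ord_conv
    intro x hx y hy z hxz hzy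
    simp only [mem_ofPred_eq] at hx hy ⊢
    exact ⟨hx.1.trans_le hxz, hx.2.1.trans_le (sg_mono hxz hx.1.le),
      (sg_mono hzy (hx.1.le.trans hxz)).trans_lt hy.2.2⟩
  · exact ((continuous_const.add continuous_sg).div_const 2).continuousOn
  · rintro ⟨s, r⟩ ⟨hq, h0, h, h'⟩
    have e0 := hq.1.1
    have e1 := hq.1.2
    simp only [mem_ofPred_eq] at e0 e1 h0 h h' ⊢
    exact ⟨h', by linarith, by linarith⟩
  · intro r hr
    simp only [mem_ofPred_eq] at hr
    have h1 := sg_le_one hr.2.2.le hr.1.le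
    refine ⟨rect_mem ⟨by linarith [hr.1], by linarith⟩ (by linarith) (by linarith) ?_, ?_, ?_, hr.1⟩
    · intro h0 _
      exact ⟨0, by push_cast; linarith, by push_cast; linarith⟩
    · show 0 < (1 + sg r) / 2 - sg r
      linarith
    · show (1 + sg r) / 2 - sg r < 1
      linarith
  · rintro ⟨s, r⟩ ⟨hq, h0, h, h'⟩ t ht
    have hs := hq.1
    simp only [mem_Icc] at hs h0 h h' ⊢
    have h2 : -1 < sg r := by linarith
    have h3 : sg r < 1 := by linarith
    refine ⟨seg_mem hq (by linarith) (by linarith) ?_ ht, ?_, ?_, h'⟩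
    · intro _ _
      exact ⟨0, by push_cast; linarith, by push_cast; linarith, by push_cast; linarith,
        by push_cast; linarith⟩
    · show 0 < s + t * ((1 + sg r) / 2 - s) - sg r
      rcases ht.1.eq_or_lt with rfl | ht0
      · linarith
      · nlinarith [mul_pos ht0 (by linarith : (0:ℝ) < (1 + sg r) / 2 - sg r),
          mul_nonneg (sub_nonneg.2 ht.2) (by linarith : (0:ℝ) ≤ s - sg r)]
    · show s + t * ((1 + sg r) / 2 - s) - sg r < 1
      rcases ht.1.eq_or_lt with rfl | ht0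
      · linarith
      · nlinarith [mul_pos ht0 (by linarith : (0:ℝ) < 1 - ((1 + sg r) / 2 - sg r)),
          mul_nonneg (sub_nonneg.2 ht.2) (by linarith : (0:ℝ) ≤ 1 - (s - sg r))]

theorem rect_const_ri {f : ℝ × ℝ → X} (hf : LCo f RectD) {p : ℝ × ℝ} (hp : p ∈ RectD)
    (h : p.1 - sg p.2 < 0) (h' : 3 / 7 < p.2) : f p = f (0, 5/4) := by
  refine fib_const (D := {p | p ∈ RectD ∧ p.1 - sg p.2 < 0 ∧ 3 / 7 < p.2})
    (hf.mono fun _ h => h.1)
    (I := {r | 3 / 7 < r ∧ r ≤ 3 / 2 ∧ 0 < sg r}) (m := fun r => min (sg r) 1 / 2)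
    ?_ ?_ ?_ ?_ ?_ p ⟨hp, h, h'⟩ (0, 5/4)
    ⟨r_ri, by simp only [sg]; norm_num, by norm_num⟩
  · apply ord_conv
    intro x hx y hy z hxz hzy
    simp only [mem_ofPred_eq] at hx hy ⊢
    exact ⟨hx.1.trans_le hxz, hzy.trans hy.2.1, hx.2.2.trans_le (sg_mono hxz hx.1.le)⟩
  · exact ((continuous_sg.min continuous_const).div_const 2).continuousOn
  · rintro ⟨s, r⟩ ⟨hq, h, h'⟩
    have e0 := hq.1.1
    have e1 := hq.2.1.2
    simp only [mem_ofPred_eq] at e0 e1 h h' ⊢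
    exact ⟨h', e1, by linarith⟩
  · intro r hr
    simp only [mem_ofPred_eq] at hr
    have m1 : min (sg r) 1 ≤ 1 := min_le_right _ _
    have m2 : 0 < min (sg r) 1 := lt_min hr.2.2 (by norm_num)
    have m3 : min (sg r) 1 ≤ sg r := min_le_left _ _
    refine ⟨rect_mem ⟨by linarith [hr.1], hr.2.1⟩ (by linarith) (by linarith) ?_, ?_, hr.1⟩
    · intro _ h1
      have h3 : sg r ≤ 1 := by rw [← sg_one]; exact sg_mono h1 hr.1.le
      rw [min_eq_left h3]
      exact ⟨-1, by push_cast; linarith, by push_cast; linarith [hr.2.2]⟩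
    · show min (sg r) 1 / 2 - sg r < 0
      linarith
  · rintro ⟨s, r⟩ ⟨hq, h, h'⟩ t ht
    have hs := hq.1
    simp only [mem_Icc] at hs h h' ⊢
    have h2 : 0 < sg r := by linarith
    have m1 : min (sg r) 1 ≤ 1 := min_le_right _ _
    have m2 : 0 < min (sg r) 1 := lt_min h2 (by norm_num)
    have m3 : min (sg r) 1 ≤ sg r := min_le_left _ _
    refine ⟨seg_mem hq (by linarith) (by linarith) ?_ ht, ?_, h'⟩
    · intro _ h1
      have h3 : sg r ≤ 1 := by rw [← sg_one]; exact sg_mono h1 h'.le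
      rw [min_eq_left h3]
      exact ⟨-1, by push_cast; linarith, by push_cast; linarith, by push_cast; linarith,
        by push_cast; linarith⟩
    · show s + t * (min (sg r) 1 / 2 - s) - sg r < 0
      rcases ht.1.eq_or_lt with rfl | ht0
      · linarith
      · nlinarith [mul_pos ht0 (by linarith : (0:ℝ) < -(min (sg r) 1 / 2 - sg r)),
          mul_nonneg (sub_nonneg.2 ht.2) (by linarith : (0:ℝ) ≤ -(s - sg r))]

/-! ### the half discs -/

theorem d_outU : ((0:ℝ), (-(1/4):ℝ)) ∈ DU := by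
  refine ⟨le_rfl, by norm_num, ?_⟩
  rintro ⟨h, _⟩
  norm_num at h

theorem d_outL : ((0:ℝ), (-(1/4):ℝ)) ∈ DL := by
  refine ⟨le_rfl, by norm_num, ?_⟩
  rintro ⟨h, _⟩
  norm_num at h

theorem d_inU : ((0:ℝ), (1/2:ℝ)) ∈ DU := by
  refine ⟨le_rfl, by norm_num, ?_⟩
  exact r_rb.2.2

theorem notPP_of_rat {r : ℝ} {n : ℤ} (h1 : (n:ℝ) < 0 - sg r) (h2 : 0 - sg r < n + 1) (h3 : hh r ≠ 0) :
    ¬ PP 0 0 r := by
  rintro ⟨_, _, ⟨_, k, hk⟩ | ⟨_, h⟩⟩
  · rw [hk] at h1 h2
    have h1' : n < k := by exact_mod_cast h1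
    have h2' : k < n + 1 := by exact_mod_cast h2
    omega
  · exact h3 h.symm

theorem d_inL : ((0:ℝ), (1/4:ℝ)) ∈ DL := by
  refine ⟨le_rfl, by norm_num, ?_⟩
  refine notPP_of_rat (n := 1) ?_ ?_ ?_ <;> simp only [sg, hh] <;> norm_num

theorem disc_const_inU {f : ℝ × ℝ → X} (hf : LCo f DU) {p : ℝ × ℝ} (hp : p ∈ DU)
    (h : 1 / 3 < p.2) (h' : p.1 < hh p.2) : f p = f (0, 1/2) := by
  refine fib_const (D := {p | p ∈ DU ∧ 1 / 3 < p.2 ∧ p.1 < hh p.2}) (hf.mono fun _ h => h.1)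
    (I := Ioo (1/3) 1) (m := fun r => hh r / 2) isPreconnected_Ioo
    (continuous_hh.div_const 2).continuousOn ?_ ?_ ?_ p ⟨hp, h, h'⟩ (0, 1/2)
    ⟨d_inU, by norm_num, by simp only [hh]; norm_num⟩
  · rintro ⟨y, r⟩ ⟨hq, h, h'⟩
    refine ⟨h, ?_⟩
    rcases DU_cases hq with h2 | h2
    · exact h2.2.2
    · exact absurd ⟨h, h'⟩ h2.1
  · intro r hr
    have h1 := hh_pos hr.1 hr.2
    have h2 := abs_le.1 (hh_le (by linarith [hr.1] : 0 ≤ r) hr.2.le)
    refine ⟨⟨by simp only; linarith, ?_, ?_⟩, hr.1, by simp only; linarith⟩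
    · simp only
      nlinarith [hr.1, hr.2]
    · rintro ⟨_, _, ⟨h3, _⟩ | ⟨_, h3⟩⟩
      · simp only at h3; linarith
      · simp only at h3; linarith
  · rintro ⟨y, r⟩ ⟨hq, h, h'⟩ t ht
    have hr1 : r < 1 := by
      rcases DU_cases hq with h2 | h2
      · exact h2.2.2
      · exact absurd ⟨h, h'⟩ h2.1
    have h1 := hh_pos h hr1
    have h2 := abs_le.1 (hh_le (by simp only at h; linarith : 0 ≤ r) hr1.le)
    have hy := hq.1
    simp only at h h' hy ⊢
    rcases ht.1.eq_or_lt with rfl | ht0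
    · rw [zero_mul, add_zero]; exact ⟨hq, h, h'⟩
    · have hy0 : 0 < y + t * (hh r / 2 - y) := by
        nlinarith [mul_pos ht0 h1, mul_nonneg (sub_nonneg.2 ht.2) hy]
      have hy1 : y + t * (hh r / 2 - y) < hh r := by
        nlinarith [mul_pos ht0 h1, mul_nonneg (sub_nonneg.2 ht.2) (sub_nonneg.2 h'.le)]
      refine ⟨⟨hy0.le, ?_, ?_⟩, h, hy1⟩
      · simp only
        nlinarith [hr1, h]
      · rintro ⟨_, _, ⟨h3, _⟩ | ⟨_, h3⟩⟩
        · simp only at h3; linarith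
        · simp only at h3; linarith

theorem disc_const_inL {f : ℝ × ℝ → X} (hf : LCo f DL) {p : ℝ × ℝ} (hp : p ∈ DL)
    (h : p.2 < 1 / 3) (h' : hh p.2 < p.1) : f p = f (0, 1/4) := by
  refine fib_const (D := {p | p ∈ DL ∧ p.2 < 1 / 3 ∧ hh p.2 < p.1}) (hf.mono fun _ h => h.1)
    (I := Ioo 0 (1/3)) (m := fun r => hh r / 2) isPreconnected_Ioo
    (continuous_hh.div_const 2).continuousOn ?_ ?_ ?_ p ⟨hp, h, h'⟩ (0, 1/4)
    ⟨d_inL, by norm_num, by simp only [hh]; norm_num⟩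
  · rintro ⟨y, r⟩ ⟨hq, h, h'⟩
    refine ⟨?_, h⟩
    rcases DL_cases hq with h2 | h2
    · exact h2.2.2
    · exact absurd ⟨h, h'⟩ h2.1
  · intro r hr
    have h1 := hh_neg hr.1 hr.2
    have h2 := abs_le.1 (hh_le hr.1.le (by linarith [hr.2] : r ≤ 1))
    refine ⟨⟨by simp only; linarith, ?_, ?_⟩, hr.2, by simp only; linarith⟩
    · simp only
      nlinarith [hr.1, hr.2]
    · rintro ⟨_, _, ⟨h3, _⟩ | ⟨_, h3⟩⟩
      · simp only at h3; linarith
      · simp only at h3; linarith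
  · rintro ⟨y, r⟩ ⟨hq, h, h'⟩ t ht
    have hr1 : 0 < r := by
      rcases DL_cases hq with h2 | h2
      · exact h2.2.2
      · exact absurd ⟨h, h'⟩ h2.1
    have h1 := hh_neg hr1 h
    have h2 := abs_le.1 (hh_le hr1.le (by simp only at h; linarith : r ≤ 1))
    have hy := hq.1
    simp only at h h' hy ⊢
    rcases ht.1.eq_or_lt with rfl | ht0
    · rw [zero_mul, add_zero]; exact ⟨hq, h, h'⟩
    · have hy0 : y + t * (hh r / 2 - y) < 0 := by
        nlinarith [mul_pos ht0 (neg_pos.2 h1), mul_nonneg (sub_nonneg.2 ht.2) (neg_nonneg.2 hy)]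
      have hy1 : hh r < y + t * (hh r / 2 - y) := by
        nlinarith [mul_pos ht0 (neg_pos.2 h1), mul_nonneg (sub_nonneg.2 ht.2) (sub_nonneg.2 h'.le)]
      refine ⟨⟨hy0.le, ?_, ?_⟩, h, hy1⟩
      · simp only
        nlinarith [hr1, h]
      · rintro ⟨_, _, ⟨h3, _⟩ | ⟨_, h3⟩⟩
        · simp only at h3; linarith
        · simp only at h3; linarith

theorem disc_const_outU {f : ℝ × ℝ → X} (hf : LCo f DU) {p : ℝ × ℝ} (hp : p ∈ DU)
    (h : ¬ (1 / 3 < p.2 ∧ p.1 < hh p.2)) : f p = f (0, -(1/4)) := by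
  refine fib_const (D := {p | p ∈ DU ∧ ¬ (1 / 3 < p.2 ∧ p.1 < hh p.2)}) (hf.mono fun _ h => h.1)
    (I := Icc (-(1/2)) (3/2)) (m := fun r => Real.sqrt (1 - (r - 1/2) ^ 2)) isPreconnected_Icc
    (by fun_prop) ?_ ?_ ?_ p ⟨hp, h⟩ (0, -(1/4))
    ⟨d_outU, by norm_num⟩
  · rintro ⟨y, r⟩ ⟨hq, h⟩
    have h1 := hq.2.1
    simp only at h1
    have h2 : (r - 1/2) ^ 2 ≤ 1 := by nlinarith [sq_nonneg y]
    have h3 := abs_le.1 ((sq_le_one_iff_abs_le_one _).1 h2)
    exact ⟨by linarith [h3.1], by linarith [h3.2]⟩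
  · intro r hr
    have h0 : 0 ≤ 1 - (r - 1/2) ^ 2 := by nlinarith [hr.1, hr.2]
    have h1 := Real.sqrt_nonneg (1 - (r - 1/2) ^ 2)
    have h2 := Real.sq_sqrt h0
    have h4 : 0 ≤ r → r ≤ 1 → 1 / 2 < Real.sqrt (1 - (r - 1/2) ^ 2) := by
      intro e0 e1
      apply Real.lt_sqrt_of_sq_lt
      nlinarith
    refine ⟨⟨h1, ?_, ?_⟩, ?_⟩
    · show Real.sqrt (1 - (r - 1/2) ^ 2) ^ 2 + (r - 1/2) ^ 2 ≤ 1
      rw [h2]; linarith
    · rintro ⟨e0, e1, ⟨h3, _⟩ | ⟨_, h3⟩⟩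
      · have := h4 e0 e1
        simp only at h3; linarith
      · have := h4 e0 e1
        have h5 := abs_le.1 (hh_le e0 e1)
        simp only at h3; linarith
    · rintro ⟨e0, e1⟩
      simp only at e0 e1
      by_cases e2 : r ≤ 1
      · have := h4 (by linarith) e2
        have h5 := abs_le.1 (hh_le (by linarith : 0 ≤ r) e2)
        linarith
      · push Not at e2
        linarith [hh_neg_of_one_lt e2]
  · rintro ⟨y, r⟩ ⟨hq, h⟩ t ht
    have hy := hq.1
    have hd := hq.2.1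
    simp only at h hy hd ⊢
    set m := Real.sqrt (1 - (r - 1/2) ^ 2) with hm
    have hym : y ≤ m := Real.le_sqrt_of_sq_le (by linarith)
    have h0 : 0 ≤ 1 - (r - 1/2) ^ 2 := by nlinarith [sq_nonneg y]
    have hm2 : m ^ 2 = 1 - (r - 1/2) ^ 2 := Real.sq_sqrt h0
    have hm0 : 0 ≤ m := Real.sqrt_nonneg _
    have hle : y ≤ y + t * (m - y) := by nlinarith [mul_nonneg ht.1 (sub_nonneg.2 hym)]
    rcases hle.eq_or_lt with he | hlt
    · rw [← he]; exact ⟨hq, h⟩
    · have hle' : y + t * (m - y) ≤ m := by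
        nlinarith [mul_nonneg (sub_nonneg.2 ht.2) (sub_nonneg.2 hym)]
      set y' := y + t * (m - y) with hy'
      have key : 1 / 3 < r → hh r ≤ y := by
        intro e; by_contra e'; push Not at e'; exact h ⟨e, e'⟩
      refine ⟨⟨by simp only; linarith, ?_, ?_⟩, ?_⟩
      · simp only
        nlinarith
      · rintro ⟨e0, e1, ⟨h3, _⟩ | ⟨_, h3⟩⟩
        · simp only at h3; linarith
        · simp only at h3
          by_cases e2 : 1 / 3 < r
          · linarith [key e2]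
          · push Not at e2
            linarith [hh_nonpos e0 e2]
      · rintro ⟨e0, e1⟩
        simp only at e0 e1
        linarith [key e0]

theorem disc_const_outL {f : ℝ × ℝ → X} (hf : LCo f DL) {p : ℝ × ℝ} (hp : p ∈ DL)
    (h : ¬ (p.2 < 1 / 3 ∧ hh p.2 < p.1)) : f p = f (0, -(1/4)) := by
  refine fib_const (D := {p | p ∈ DL ∧ ¬ (p.2 < 1 / 3 ∧ hh p.2 < p.1)}) (hf.mono fun _ h => h.1)
    (I := Icc (-(1/2)) (3/2)) (m := fun r => -Real.sqrt (1 - (r - 1/2) ^ 2)) isPreconnected_Icc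
    (by fun_prop) ?_ ?_ ?_ p ⟨hp, h⟩ (0, -(1/4))
    ⟨d_outL, by simp only [hh]; norm_num⟩
  · rintro ⟨y, r⟩ ⟨hq, h⟩
    have h1 := hq.2.1
    simp only at h1
    have h2 : (r - 1/2) ^ 2 ≤ 1 := by nlinarith [sq_nonneg y]
    have h3 := abs_le.1 ((sq_le_one_iff_abs_le_one _).1 h2)
    exact ⟨by linarith [h3.1], by linarith [h3.2]⟩
  · intro r hr
    have h0 : 0 ≤ 1 - (r - 1/2) ^ 2 := by nlinarith [hr.1, hr.2]
    have h1 := Real.sqrt_nonneg (1 - (r - 1/2) ^ 2)
    have h2 := Real.sq_sqrt h0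
    have h4 : 0 ≤ r → r ≤ 1 → 1 / 2 < Real.sqrt (1 - (r - 1/2) ^ 2) := by
      intro e0 e1
      apply Real.lt_sqrt_of_sq_lt
      nlinarith
    refine ⟨⟨by simp only; linarith, ?_, ?_⟩, ?_⟩
    · show (-Real.sqrt (1 - (r - 1/2) ^ 2)) ^ 2 + (r - 1/2) ^ 2 ≤ 1
      rw [neg_sq, h2]; linarith
    · rintro ⟨e0, e1, ⟨h3, _⟩ | ⟨_, h3⟩⟩
      · have := h4 e0 e1
        simp only at h3; linarith
      · have := h4 e0 e1
        have h5 := abs_le.1 (hh_le e0 e1)
        simp only at h3; linarith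
    · rintro ⟨e0, e1⟩
      simp only at e0 e1
      by_cases e2 : 0 ≤ r
      · have := h4 e2 (by linarith)
        have h5 := abs_le.1 (hh_le e2 (by linarith : r ≤ 1))
        linarith
      · push Not at e2
        linarith [hh_pos_of_neg e2]
  · rintro ⟨y, r⟩ ⟨hq, h⟩ t ht
    have hy := hq.1
    have hd := hq.2.1
    simp only at h hy hd ⊢
    set m := Real.sqrt (1 - (r - 1/2) ^ 2) with hm
    have hym : -y ≤ m := Real.le_sqrt_of_sq_le (by rw [neg_sq]; linarith)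
    have h0 : 0 ≤ 1 - (r - 1/2) ^ 2 := by nlinarith [sq_nonneg y]
    have hm2 : m ^ 2 = 1 - (r - 1/2) ^ 2 := Real.sq_sqrt h0
    have hm0 : 0 ≤ m := Real.sqrt_nonneg _
    have hle : y + t * (-m - y) ≤ y := by nlinarith [mul_nonneg ht.1 (by linarith : 0 ≤ y + m)]
    rcases hle.eq_or_lt with he | hlt
    · rw [he]; exact ⟨hq, h⟩
    · have hle' : -m ≤ y + t * (-m - y) := by
        nlinarith [mul_nonneg (sub_nonneg.2 ht.2) (by linarith : 0 ≤ y + m)]
      set y' := y + t * (-m - y) with hy'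
      have key : r < 1 / 3 → y ≤ hh r := by
        intro e; by_contra e'; push Not at e'; exact h ⟨e, e'⟩
      refine ⟨⟨by simp only; linarith, ?_, ?_⟩, ?_⟩
      · simp only
        nlinarith
      · rintro ⟨e0, e1, ⟨h3, _⟩ | ⟨_, h3⟩⟩
        · simp only at h3; linarith
        · simp only at h3
          by_cases e2 : r < 1 / 3
          · linarith [key e2]
          · push Not at e2
            linarith [hh_nonneg e2 e1]
      · rintro ⟨e0, e1⟩
        simp only at e0 e1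
        linarith [key e0]

end Pool.Agent.Helper60.Geo.PC
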