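import Pool.Agent.Helper60.Geo.PatReg

/-! The model flat function `patT b l`: flatness on the complement of the pattern, naturality and
the transports along the standard paths. -/

set_option autoImplicit false

namespace Pool.Agent.Helper60.Geo

open Set AS PC

namespace PT

variable {G : Type*} [Group G]

/-- the jump relation across the edge `s = 0`, `Im w = 0` -/
theorem jump_rel {b l : G} (h : Rel b l) {w : ℂ} (hw : w.im = 0) (hP : ¬ PP 0 0 (w.re + 1/2)) :
    Dup b l w * Rg b l 0 (w.re + 1/2) = Rg b l 1 (w.re + 1/2) * Ddn b l w := by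
  set r := w.re + 1/2 with hr
  have key : 0 ≤ r → r ≤ 1 → ∀ n : ℤ, sg r ≠ n := by
    intro h0 h1 n hn
    exact hP ⟨h0, h1, Or.inl ⟨rfl, -n, by push_cast; linarith⟩⟩
  have key2 : 0 ≤ r → r ≤ 1 → hh r ≠ 0 := by
    intro h0 h1 hn
    exact hP ⟨h0, h1, Or.inr ⟨⟨0, by norm_num⟩, hn.symm⟩⟩
  have hlow := sg_lower r
  have dup1 : (1 / 3 < r ∧ 0 < hh r) → Dup b l w = beta b l := by
    intro h1; unfold Dup; rw [← hr, hw, if_pos h1]
  have dup2 : ¬ (1 / 3 < r ∧ 0 < hh r) → Dup b l w = l := by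
    intro h1; unfold Dup; rw [← hr, hw, if_neg h1]
  have ddn1 : (r < 1 / 3 ∧ hh r < 0) → Ddn b l w = b⁻¹ * l := by
    intro h1; unfold Ddn; rw [← hr, hw, if_pos h1]
  have ddn2 : ¬ (r < 1 / 3 ∧ hh r < 0) → Ddn b l w = l := by
    intro h1; unfold Ddn; rw [← hr, hw, if_neg h1]
  rcases lt_or_ge r 0 with c | c
  · have hs : 0 < sg r := by unfold sg; nlinarith
    rw [dup2 (fun h1 => by linarith [h1.1]), ddn2 (fun h1 => by linarith [h1.2, hh_pos_of_neg c]),
      Rg_out b l (by linarith) (by linarith), Rg_out b l (by linarith) (by linarith)]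
    simp
  rcases lt_or_ge 1 r with c1 | c1
  · have hs : 1 < sg r := by unfold sg; nlinarith
    rw [dup2 (fun h1 => by linarith [h1.2, hh_neg_of_one_lt c1]),
      ddn2 (fun h1 => by linarith [h1.1]),
      Rg_ri b l (by linarith) (by linarith), Rg_ri b l (by linarith) (by linarith)]
    exact (jumps b l h).e7
  have k0 := key c c1 0
  have km := key c c1 (-1)
  have k1 := key c c1 1
  push_cast at k0 km k1
  have k2 := key2 c c1
  have r0 : r ≠ 0 := by intro h0; rw [h0] at k0; exact k0 sg_zero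
  have r1 : r ≠ 1 := by intro h0; rw [h0] at k1; exact k1 sg_one
  have r3 : r ≠ 1 / 3 := by intro h0; rw [h0] at k2; exact k2 hh_third
  have c' : 0 < r := lt_of_le_of_ne c (Ne.symm r0)
  have c1' : r < 1 := lt_of_le_of_ne c1 r1
  have hs1 : sg r < 1 := by unfold sg; nlinarith
  rcases lt_or_gt_of_ne r3 with c3 | c3
  · have hs0 : sg r < 0 := by unfold sg; nlinarith
    rw [dup2 (fun h1 => by linarith [h1.1]), ddn1 ⟨c3, hh_neg c' c3⟩]
    rcases lt_or_gt_of_ne km with c4 | c4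
    · rw [Rg_rb b l (by linarith) (by linarith), Rg_rc b l (by linarith)]
      group
    · rw [Rg_out b l (by linarith) (by linarith), Rg_rb b l (by linarith) (by linarith)]
      group
  · rw [dup1 ⟨c3, hh_pos c3 c1'⟩, ddn2 (fun h1 => by linarith [h1.1])]
    rcases lt_or_gt_of_ne km with c4 | c4
    · rw [Rg_rb b l (by linarith) (by linarith), Rg_rc b l (by linarith)]
      unfold beta; group
    · have c5 : 3 / 7 ≤ r := by
        by_contra h5
        push Not at h5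
        unfold sg at c4
        nlinarith
      rcases lt_or_gt_of_ne k0 with c6 | c6
      · rw [Rg_ra b l (by linarith) c5 (by linarith), Rg_rb b l (by linarith) (by linarith)]
        group
      · rw [Rg_ri b l (by linarith) c5, Rg_ra b l (by linarith) c5 (by linarith)]
        group

theorem a_eq {a : ℂ × ℂ} (ha : a ∈ VP) : a = (ee (sa a), a.2) := by
  have h1 := norm_mul_ee_sa a
  rw [ha.1.1] at h1
  ext1
  · simpa using h1.symm
  · rfl

theorem a_PP {a : ℂ × ℂ} (ha : a ∈ VP) : ‖a.2‖ ≤ 1 ∧ ¬ PP (sa a) a.2.im (a.2.re + 1 / 2) := by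
  have h := a_eq ha
  rw [h] at ha
  have := mem_VP_iff.1 ha
  exact this

theorem a_sq {w : ℂ} (h : ‖w‖ ≤ 1) : w.im ^ 2 + (w.re + 1/2 - 1/2) ^ 2 ≤ 1 := by
  have h1 : w.re * w.re + w.im * w.im = ‖w‖ ^ 2 := by
    rw [← Complex.normSq_apply, Complex.normSq_eq_norm_sq]
  nlinarith [norm_nonneg w]

theorem a_re {w : ℂ} (h : ‖w‖ ≤ 1) : w.re + 1/2 ∈ Icc (-(1/2):ℝ) (3/2) := by
  have h1 := abs_le.1 ((Complex.abs_re_le_norm w).trans h)
  constructor <;> linarith [h1.1, h1.2]

/-- the side of the disc `u = 1` -/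
noncomputable def side (x : ℂ × ℂ) : ℤ := if sa x < 1/2 then 1 else 0

theorem cint_side {x y : ℂ × ℂ} (hx : ∃ n : ℤ, (n = 0 ∨ n = 1) ∧ |sa x - n| < 1/4)
    (hy : ∃ n : ℤ, (n = 0 ∨ n = 1) ∧ |sa y - n| < 1/4) : cint sa x y = side y - side x := by
  have key : ∀ z : ℂ × ℂ, (∃ n : ℤ, (n = 0 ∨ n = 1) ∧ |sa z - n| < 1/4) →
      |sa z - (1 - side z : ℤ)| < 1/4 := by
    rintro z ⟨n, hn, h⟩
    have h' := abs_lt.1 h
    unfold side
    rcases hn with rfl | rfl
    · push_cast at h'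
      rw [if_pos (by linarith [h'.2])]; simpa using h
    · push_cast at h'
      rw [if_neg (by linarith [h'.1])]; simpa using h
  have h1 := abs_lt.1 (key x hx)
  have h2 := abs_lt.1 (key y hy)
  push_cast at h1 h2
  refine round_eq_of_abs_lt ?_
  push_cast
  rw [abs_lt]
  constructor <;> linarith [h1.1, h1.2, h2.1, h2.2]

open Filter Topology

theorem ev_im_pos {a : ℂ × ℂ} (h : 0 < a.2.im) : ∀ᶠ x : ℂ × ℂ in 𝓝 a, 0 < x.2.im := by
  have c : ContinuousAt (fun x : ℂ × ℂ => x.2.im) a := by fun_prop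
  exact continuousAt_const.eventually_lt c h

theorem ev_im_neg {a : ℂ × ℂ} (h : a.2.im < 0) : ∀ᶠ x : ℂ × ℂ in 𝓝 a, x.2.im < 0 := by
  have c : ContinuousAt (fun x : ℂ × ℂ => x.2.im) a := by fun_prop
  exact c.eventually_lt continuousAt_const h

theorem ev_snd {a : ℂ × ℂ} {P : ℂ → Prop} (h : ∀ᶠ w in 𝓝 a.2, P w) : ∀ᶠ x : ℂ × ℂ in 𝓝 a, P x.2 :=
  (continuousAt_snd (p := a)).eventually h

theorem ev_near_zero {a : ℂ × ℂ} (ha : a.1 ≠ 0) (h0 : sa a = 0) {ε : ℝ} (hε : 0 < ε) :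
    ∀ᶠ x in 𝓝 a, ∃ n : ℤ, (n = 0 ∨ n = 1) ∧ |sa x - n| < ε := by
  obtain ⟨δ, hδ, h⟩ := sa_near_zero ha h0 hε
  exact Metric.eventually_nhds_iff.2 ⟨δ, hδ, fun {x} hx => h x hx⟩

theorem im_zero_PP {a : ℂ × ℂ} (h : ¬ PP 0 0 (a.2.re + 1/2)) : ¬ PP 1 0 (a.2.re + 1/2) := by
  rintro ⟨h0, h1, ⟨_, n, hn⟩ | ⟨_, hy⟩⟩
  · exact h ⟨h0, h1, Or.inl ⟨rfl, n - 1, by push_cast; linarith⟩⟩
  · exact h ⟨h0, h1, Or.inr ⟨⟨0, by norm_num⟩, hy⟩⟩

/-- `Rg` on both sides of the disc `u = 1` -/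
theorem ev_Rg_side (b l : G) {a : ℂ × ℂ} (ha : a.1 ≠ 0) (h0 : sa a = 0) (hn : ‖a.2‖ ≤ 1)
    (hP : ¬ PP 0 0 (a.2.re + 1/2)) :
    ∀ᶠ x in 𝓝 a, Rg b l (sa x) (x.2.re + 1/2) =
      if sa x < 1/2 then Rg b l 0 (a.2.re + 1/2) else Rg b l 1 (a.2.re + 1/2) := by
  have m0 : ((0:ℝ), a.2.re + 1/2) ∈ RectD := ⟨⟨le_rfl, zero_le_one⟩, a_re hn, hP⟩
  have m1 : ((1:ℝ), a.2.re + 1/2) ∈ RectD := ⟨⟨zero_le_one, le_rfl⟩, a_re hn, im_zero_PP hP⟩
  obtain ⟨e0, he0, h0'⟩ := Metric.eventually_nhds_iff.1 (Rg_lc b l m0)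
  obtain ⟨e1, he1, h1'⟩ := Metric.eventually_nhds_iff.1 (Rg_lc b l m1)
  have hε : 0 < min (min e0 e1) (1/4) := lt_min (lt_min he0 he1) (by norm_num)
  have c : ContinuousAt (fun x : ℂ × ℂ => x.2.re + 1/2) a := by fun_prop
  have h2 : ∀ᶠ x : ℂ × ℂ in 𝓝 a, dist (x.2.re + 1/2) (a.2.re + 1/2) < min (min e0 e1) (1/4) :=
    c.eventually (Metric.ball_mem_nhds _ hε)
  filter_upwards [ev_near_zero ha h0 hε, h2] with x hx hx2
  obtain ⟨n, hn, hx⟩ := hx
  have hx3 := hx.trans_le ((min_le_left _ _).trans (min_le_left _ _))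
  have hx4 := hx.trans_le ((min_le_left _ _).trans (min_le_right _ _))
  have hx5 := abs_lt.1 (hx.trans_le (min_le_right _ _))
  have hy3 := hx2.trans_le ((min_le_left _ _).trans (min_le_left _ _))
  have hy4 := hx2.trans_le ((min_le_left _ _).trans (min_le_right _ _))
  rcases hn with rfl | rfl
  · push_cast at hx3 hx5
    rw [if_pos (by linarith [hx5.2])]
    refine h0' (y := (sa x, x.2.re + 1/2)) ?_
    rw [Prod.dist_eq, max_lt_iff]
    exact ⟨by rwa [Real.dist_eq], hy3⟩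
  · push_cast at hx4 hx5
    rw [if_neg (by linarith [hx5.1])]
    refine h1' (y := (sa x, x.2.re + 1/2)) ?_
    rw [Prod.dist_eq, max_lt_iff]
    exact ⟨by rwa [Real.dist_eq], hy4⟩

theorem ev_Rg (b l : G) {a : ℂ × ℂ} (ha : a.1 ≠ 0) (h0 : sa a ≠ 0) (hn : ‖a.2‖ ≤ 1)
    (hP : ¬ PP (sa a) 0 (a.2.re + 1/2)) :
    ∀ᶠ x in 𝓝 a, Rg b l (sa x) (x.2.re + 1/2) = Rg b l (sa a) (a.2.re + 1/2) := by
  have m0 : (sa a, a.2.re + 1/2) ∈ RectD := ⟨⟨sa_nonneg a, (sa_lt_one a).le⟩, a_re hn, hP⟩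
  have c1 : ContinuousAt (fun x : ℂ × ℂ => (sa x, x.2.re + 1/2)) a :=
    (sa_cont ha h0).prodMk (by fun_prop)
  exact c1.eventually (Rg_lc b l m0)

/-- local potential for `patT` -/
theorem loc_pot {b l : G} (h : Rel b l) {a : ℂ × ℂ} (ha : a ∈ VP) :
    ∃ v : ℂ × ℂ → G, ∃ ε > 0, ∀ x y, dist x a < ε → dist y a < ε → patT b l x y = (v x)⁻¹ * v y := by
  obtain ⟨hn, hP⟩ := a_PP ha
  have ha1 : a.1 ≠ 0 := by
    intro h1; have := ha.1.1; rw [h1, norm_zero] at this; exact zero_ne_one this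
  by_cases h0 : sa a = 0
  · rw [h0] at hP
    rcases lt_trichotomy a.2.im 0 with him | him | him
    · have hD : (a.2.im, a.2.re + 1/2) ∈ DL := ⟨him.le, a_sq hn, hP⟩
      obtain ⟨ε, hε, hev⟩ := Metric.eventually_nhds_iff.1 ((ev_near_zero ha1 h0
        (by norm_num : (0:ℝ) < 1/4)).and ((ev_im_neg him).and (ev_snd (Ddn_lc b l hD))))
      refine ⟨fun x => Ddn b l a.2 ^ side x, ε, hε, fun x y hx hy => ?_⟩
      obtain ⟨x1, x2, x3⟩ := hev hx
      obtain ⟨y1, y2, y3⟩ := hev hy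
      unfold patT
      rw [if_neg (not_le.2 x2), if_neg (not_le.2 y2), x3, cint_side x1 y1, sub_eq_neg_add, zpow_add,
        zpow_neg]
    · have hD1 : (a.2.im, a.2.re + 1/2) ∈ DL := ⟨him.le, a_sq hn, hP⟩
      have hD2 : (a.2.im, a.2.re + 1/2) ∈ DU := ⟨him.ge, a_sq hn, hP⟩
      rw [him] at hP
      have hrel := jump_rel h him hP
      obtain ⟨ε, hε, hev⟩ := Metric.eventually_nhds_iff.1 ((ev_near_zero ha1 h0
        (by norm_num : (0:ℝ) < 1/4)).and ((ev_snd (Dup_lc b l hD2)).and ((ev_snd (Ddn_lc b l hD1)).and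
          (ev_Rg_side b l ha1 h0 hn hP))))
      generalize hR0 : Rg b l 0 (a.2.re + 1/2) = R0 at *
      generalize hR1 : Rg b l 1 (a.2.re + 1/2) = R1 at *
      generalize hDu : Dup b l a.2 = D1 at *
      generalize hDd : Ddn b l a.2 = D2 at *
      have hrel2 : R0 = D1⁻¹ * R1 * D2 := by
        have : D1⁻¹ * (D1 * R0) = D1⁻¹ * (R1 * D2) := by rw [hrel]
        rw [inv_mul_cancel_left] at this
        rw [this, mul_assoc]
      refine ⟨fun x => if 0 ≤ x.2.im then D1 ^ side x else R1 * D2 ^ side x, ε, hε,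
        fun x y hx hy => ?_⟩
      obtain ⟨x1, x2, x3, x4⟩ := hev hx
      obtain ⟨y1, y2, y3, y4⟩ := hev hy
      unfold patT
      rw [x4, y4, x2, x3, y3, cint_side x1 y1]
      have hsx : (if sa x < 1/2 then R0 else R1) = D1⁻¹ ^ side x * R1 * D2 ^ side x := by
        unfold side; split_ifs
        · simpa using hrel2
        · simp
      have hsy : (if sa y < 1/2 then R0 else R1) = D1⁻¹ ^ side y * R1 * D2 ^ side y := by
        unfold side; split_ifs
        · simpa using hrel2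
        · simp
      rw [hsx, hsy]
      simp only [inv_zpow']
      by_cases tx : 0 ≤ x.2.im <;> by_cases ty : 0 ≤ y.2.im <;> simp only [tx, ty, if_true, if_false]
      · group
      · group
      · group
      · group
    · have hD : (a.2.im, a.2.re + 1/2) ∈ DU := ⟨him.le, a_sq hn, hP⟩
      obtain ⟨ε, hε, hev⟩ := Metric.eventually_nhds_iff.1 ((ev_near_zero ha1 h0
        (by norm_num : (0:ℝ) < 1/4)).and ((ev_im_pos him).and (ev_snd (Dup_lc b l hD))))
      refine ⟨fun x => Dup b l a.2 ^ side x, ε, hε, fun x y hx hy => ?_⟩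
      obtain ⟨x1, x2, x3⟩ := hev hx
      obtain ⟨y1, y2, y3⟩ := hev hy
      unfold patT
      rw [if_pos x2.le, if_pos y2.le, x3, cint_side x1 y1, sub_eq_neg_add, zpow_add,
        zpow_neg]
  · -- away from the disc `u = 1`
    have hc : ∀ᶠ x in 𝓝 a, |sa x - sa a| < 1/4 := by
      have := (sa_cont ha1 h0).eventually (Metric.ball_mem_nhds _ (by norm_num : (0:ℝ) < 1/4))
      exact this
    have hcint : ∀ x y : ℂ × ℂ, |sa x - sa a| < 1/4 → |sa y - sa a| < 1/4 → cint sa x y = 0 := by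
      intro x y hx hy
      have h1 := abs_lt.1 hx
      have h2 := abs_lt.1 hy
      refine round_eq_of_abs_lt ?_
      push_cast
      rw [abs_lt]
      constructor <;> linarith [h1.1, h1.2, h2.1, h2.2]
    rcases lt_trichotomy a.2.im 0 with him | him | him
    · obtain ⟨ε, hε, hev⟩ := Metric.eventually_nhds_iff.1 (hc.and (ev_im_neg him))
      refine ⟨fun _ => 1, ε, hε, fun x y hx hy => ?_⟩
      obtain ⟨x1, x2⟩ := hev hx
      obtain ⟨y1, y2⟩ := hev hy
      unfold patT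
      rw [if_neg (not_le.2 x2), if_neg (not_le.2 y2), hcint x y x1 y1]
      simp
    · rw [him] at hP
      obtain ⟨ε, hε, hev⟩ := Metric.eventually_nhds_iff.1 (hc.and (ev_Rg b l ha1 h0 hn hP))
      refine ⟨fun x => if 0 ≤ x.2.im then 1 else Rg b l (sa a) (a.2.re + 1/2), ε, hε,
        fun x y hx hy => ?_⟩
      obtain ⟨x1, x2⟩ := hev hx
      obtain ⟨y1, y2⟩ := hev hy
      unfold patT
      rw [x2, y2, hcint x y x1 y1]
      by_cases tx : 0 ≤ x.2.im <;> by_cases ty : 0 ≤ y.2.im <;> simp [tx, ty]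
    · obtain ⟨ε, hε, hev⟩ := Metric.eventually_nhds_iff.1 (hc.and (ev_im_pos him))
      refine ⟨fun _ => 1, ε, hε, fun x y hx hy => ?_⟩
      obtain ⟨x1, x2⟩ := hev hx
      obtain ⟨y1, y2⟩ := hev hy
      unfold patT
      rw [if_pos x2.le, if_pos y2.le, hcint x y x1 y1]
      simp

theorem flat {b l : G} (h : Rel b l) : GFlat (patT b l) VP := by
  intro a ha
  obtain ⟨v, ε, hε, hv⟩ := loc_pot h ha
  refine ⟨ε, hε, fun x y z hx hy hz => ?_⟩
  rw [hv x y hx hy, hv y z hy hz, hv x z hx hz]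
  group

/-! ### naturality -/

theorem map {G' : Type*} [Group G'] (φ : G →* G') (b l : G) (x y : ℂ × ℂ) :
    φ (patT b l x y) = patT (φ b) (φ l) x y := by
  have hb : φ (beta b l) = beta (φ b) (φ l) := by simp [beta]
  have hu : ∀ w, φ (Dup b l w) = Dup (φ b) (φ l) w := by
    intro w; unfold Dup; split_ifs <;> simp [hb]
  have hd : ∀ w, φ (Ddn b l w) = Ddn (φ b) (φ l) w := by
    intro w; unfold Ddn; split_ifs <;> simp
  have hr : ∀ s r, φ (Rg b l s r) = Rg (φ b) (φ l) s r := by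
    intro s r; unfold Rg; split_ifs <;> simp [hb]
  unfold patT
  split_ifs <;> simp [hu, hd, hr]

theorem mem (H : Subgroup G) {b l : G} (hb : b ∈ H) (hl : l ∈ H) (x y : ℂ × ℂ) :
    patT b l x y ∈ H := by
  have hB : beta b l ∈ H := by
    unfold beta
    exact H.mul_mem (H.mul_mem (H.mul_mem (H.mul_mem (H.mul_mem hl hb) (H.inv_mem hl)) hb) hl)
      (H.inv_mem hb)
  have hB' := H.inv_mem hB
  have hu : ∀ w, Dup b l w ∈ H := by
    intro w; unfold Dup; split_ifs
    exacts [hB, hl]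
  have hd : ∀ w, Ddn b l w ∈ H := by
    intro w; unfold Ddn; split_ifs
    exacts [H.mul_mem (H.inv_mem hb) hl, hl]
  have hr : ∀ s r, Rg b l s r ∈ H := by
    intro s r; unfold Rg; split_ifs
    · exact H.mul_mem (H.mul_mem (H.mul_mem hl hb) (H.inv_mem hl)) hb
    · exact hb
    · exact H.one_mem
    · exact H.mul_mem (H.mul_mem hB' hb) hl
    · exact H.mul_mem (H.mul_mem (H.mul_mem (H.mul_mem hB' hB') hb) hl) hl
  unfold patT
  split_ifs
  · exact H.zpow_mem (hu _) _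
  · exact H.mul_mem (hr _ _) (H.zpow_mem (hd _) _)
  · exact H.mul_mem (H.zpow_mem (hd _) _) (H.inv_mem (hr _ _))
  · exact H.zpow_mem (hd _) _

/-! ### transports -/

theorem sa_ee (s : ℝ) (w : ℂ) : sa (ee s, w) = Int.fract s := by
  have h1 : ee (sa (ee s, w)) = ee s := by
    have := norm_mul_ee_sa (ee s, w)
    simpa [norm_ee] using this
  obtain ⟨n, hn⟩ := ee_eq.1 h1
  have h2 : sa (ee s, w) = s + n := by linarith
  have h3 : Int.fract (sa (ee s, w)) = sa (ee s, w) := Int.fract_eq_self.2 ⟨sa_nonneg _, sa_lt_one _⟩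
  rw [← h3, h2, Int.fract_add_intCast]

theorem ee_half : ee (1/2) = -1 := by
  unfold ee
  rw [show (2 * Real.pi * ((1/2 : ℝ) : ℂ) * Complex.I : ℂ) = Real.pi * Complex.I by push_cast; ring]
  exact Complex.exp_pi_mul_I

theorem sa_neg_one (w : ℂ) : sa ((-1 : ℂ), w) = 1/2 := by
  rw [← ee_half, sa_ee, Int.fract_eq_self]
  norm_num

theorem cint_self (x y : ℂ × ℂ) (h : sa x = sa y) : cint sa x y = 0 := by
  unfold cint; rw [h, sub_self]; simp

/-- `patT` at points over `u = -1` -/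
theorem patT_neg_one (b l : G) (w w' : ℂ) : patT b l ((-1 : ℂ), w) ((-1 : ℂ), w') =
    if 0 ≤ w.im then (if 0 ≤ w'.im then 1 else Rg b l (1/2) (w.re + 1/2))
      else (if 0 ≤ w'.im then (Rg b l (1/2) (w'.re + 1/2))⁻¹ else 1) := by
  unfold patT
  rw [cint_self _ _ (by rw [sa_neg_one, sa_neg_one]), sa_neg_one, sa_neg_one]
  simp

/-- a local criterion for transports -/
theorem hasTr_of_ev {Ω : Type*} {T : Ω → Ω → G} {γ : ℝ → Ω} {g : G} (F : ℝ → G) (h0 : F 0 = 1)
    (h1 : F 1 = g) (h : ∀ s ∈ Icc (0:ℝ) 1, ∃ P : ℝ → Prop, (∀ᶠ t in 𝓝 s, t ∈ Icc (0:ℝ) 1 → P t) ∧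
      ∀ t t', t ∈ Icc (0:ℝ) 1 → t' ∈ Icc (0:ℝ) 1 → P t → P t' → T (γ t) (γ t') = (F t)⁻¹ * F t') :
    HasTr T γ g := by
  refine ⟨F, h0, h1, fun s hs => ?_⟩
  obtain ⟨P, hP, hT⟩ := h s hs
  obtain ⟨ε, hε, hev⟩ := Metric.eventually_nhds_iff.1 hP
  exact ⟨ε, hε, fun t ht t' ht' e1 e2 => hT t t' ht ht' (hev (by rwa [Real.dist_eq]) ht)
    (hev (by rwa [Real.dist_eq]) ht')⟩

theorem tr_gl (b l : G) : HasTr (patT b l) gl l := by
  have hgl : ∀ s, gl s = (ee (s + 1/2), Complex.I) := by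
    intro s; unfold gl; rw [ee_add, ee_half]; simp
  have hD : Dup b l Complex.I = l := by
    unfold Dup hh
    rw [if_neg]
    rintro ⟨_, h⟩
    norm_num at h
  have hsa : ∀ s ∈ Icc (0:ℝ) 1, sa (gl s) = if s < 1/2 then s + 1/2 else s - 1/2 := by
    intro s hs
    rw [hgl, sa_ee, Int.fract_eq_iff]
    split_ifs with h
    · exact ⟨by linarith [hs.1], by linarith, 0, by norm_num⟩
    · push Not at h
      exact ⟨by linarith, by linarith [hs.2], 1, by norm_num⟩
  have him : ∀ s, 0 ≤ (gl s).2.im := by intro s; unfold gl; simp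
  have hp : ∀ t t', patT b l (gl t) (gl t') = l ^ cint sa (gl t) (gl t') := by
    intro t t'
    unfold patT
    rw [if_pos (him t), if_pos (him t')]
    exact congrArg (· ^ cint sa (gl t) (gl t')) hD
  refine ⟨fun s => if s < 1/2 then 1 else l, by norm_num, by norm_num, fun s _ =>
    ⟨1/4, by norm_num, fun t ht t' ht' h1 h2 => ?_⟩⟩
  have h3 : |t - t'| < 1/2 := by
    have := abs_sub_lt_iff.1 h1
    have := abs_sub_lt_iff.1 h2
    rw [abs_sub_lt_iff]
    constructor <;> linarith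
  have h4 := abs_lt.1 h3
  rw [hp]
  have hc : ∀ m : ℤ, |sa (gl t) - sa (gl t') - m| < 1/2 → cint sa (gl t) (gl t') = m := by
    intro m hm; exact round_eq_of_abs_lt hm
  by_cases c : t < 1/2 <;> by_cases c' : t' < 1/2
  · rw [hc 0 (by rw [hsa t ht, hsa t' ht', if_pos c, if_pos c', abs_lt]; push_cast; constructor <;> linarith)]
    simp only [c, c', if_true, if_false]
    simp
  · rw [hc 1 (by rw [hsa t ht, hsa t' ht', if_pos c, if_neg c', abs_lt]; push_cast; constructor <;> linarith)]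
    simp only [c, c', if_true, if_false]
    simp
  · rw [hc (-1) (by rw [hsa t ht, hsa t' ht', if_neg c, if_pos c', abs_lt]; push_cast; constructor <;> linarith)]
    simp only [c, c', if_true, if_false]
    simp
  · rw [hc 0 (by rw [hsa t ht, hsa t' ht', if_neg c, if_neg c', abs_lt]; push_cast; constructor <;> linarith)]
    simp only [c, c', if_true, if_false]
    simp

theorem tr_pD (b l : G) : HasTr (patT b l) pD b := by
  have hR : Rg b l (1/2) (1/2) = b := by
    apply Rg_rb <;> (unfold sg; norm_num)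
  have him : ∀ s : ℝ, (((1 - 2 * s : ℝ) : ℂ) * Complex.I).im = 1 - 2 * s := by intro s; simp
  have hre : ∀ s : ℝ, (((1 - 2 * s : ℝ) : ℂ) * Complex.I).re + 1/2 = 1/2 := by intro s; simp
  refine ⟨fun s => if s ≤ 1/2 then 1 else b, by norm_num, by norm_num, fun s _ =>
    ⟨1, one_pos, fun t _ t' _ _ _ => ?_⟩⟩
  unfold pD
  rw [patT_neg_one, him, him, hre, hre, hR]
  have e : ∀ t : ℝ, (0 ≤ 1 - 2 * t) ↔ t ≤ 1/2 := by
    intro t; constructor <;> intro h <;> linarith
  simp only [e]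
  by_cases c : t ≤ 1/2 <;> by_cases c' : t' ≤ 1/2 <;> simp only [c, c', if_true, if_false] <;> simp

theorem Rg_half_neg (b l : G) {r : ℝ} (h : r < 0) : Rg b l (1/2) r = 1 := by
  apply Rg_out
  · unfold sg; nlinarith
  · linarith

theorem Rg_half_one (b l : G) {r : ℝ} (h : 1 < r) :
    Rg b l (1/2) r = (beta b l)⁻¹ * (beta b l)⁻¹ * b * l * l := by
  apply Rg_ri
  · unfold sg; nlinarith
  · linarith

theorem ee_re (s : ℝ) : (ee s).re = Real.cos (2 * Real.pi * s) := by
  unfold ee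
  rw [show (2 * Real.pi * s * Complex.I : ℂ) = ((2 * Real.pi * s : ℝ) : ℂ) * Complex.I by push_cast; ring,
    Complex.exp_ofReal_mul_I_re]

theorem ee_im (s : ℝ) : (ee s).im = Real.sin (2 * Real.pi * s) := by
  unfold ee
  rw [show (2 * Real.pi * s * Complex.I : ℂ) = ((2 * Real.pi * s : ℝ) : ℂ) * Complex.I by push_cast; ring,
    Complex.exp_ofReal_mul_I_im]

theorem tr_pL (b l : G) : HasTr (patT b l) pL 1 := by
  have him : ∀ s : ℝ, (Complex.I * ee (s / 2)).im = Real.cos (Real.pi * s) := by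
    intro s
    rw [Complex.I_mul_im, ee_re]; congr 1; ring
  have hre : ∀ s : ℝ, (Complex.I * ee (s / 2)).re = - Real.sin (Real.pi * s) := by
    intro s
    rw [Complex.I_mul_re, ee_im]; congr 2; ring
  have hpi := Real.pi_pos
  have htop : ∀ s ∈ Icc (0:ℝ) 1, (0 ≤ (Complex.I * ee (s / 2)).im ↔ s ≤ 1/2) := by
    intro s hs
    rw [him]
    constructor
    · intro h
      by_contra h1
      push Not at h1
      have := Real.cos_neg_of_pi_div_two_lt_of_lt (x := Real.pi * s) (by nlinarith)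
        (by nlinarith [hs.2])
      linarith
    · intro h
      exact Real.cos_nonneg_of_mem_Icc ⟨by nlinarith [hs.1], by nlinarith⟩
  refine hasTr_of_ev (fun _ => 1) rfl rfl fun s hs => ?_
  rcases lt_trichotomy s (1/2) with c | c | c
  · refine ⟨fun t => t < 1/2, ?_, fun t t' ht ht' e1 e2 => ?_⟩
    · filter_upwards [eventually_lt_nhds c] with t ht _ using ht
    · unfold pL
      rw [patT_neg_one, if_pos ((htop t ht).2 e1.le), if_pos ((htop t' ht').2 e2.le)]
      simp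
  · refine ⟨fun t => (Complex.I * ee (t / 2)).re + 1/2 < 0, ?_, fun t t' ht ht' e1 e2 => ?_⟩
    · have hc : ContinuousAt (fun t : ℝ => (Complex.I * ee (t / 2)).re + 1/2) s := by
        simp only [hre]; fun_prop
      have : (Complex.I * ee (s / 2)).re + 1/2 < 0 := by
        rw [hre, c, show Real.pi * (1/2) = Real.pi / 2 by ring, Real.sin_pi_div_two]; norm_num
      filter_upwards [hc.eventually_lt continuousAt_const this] with t ht _ using ht
    · unfold pL
      rw [patT_neg_one, Rg_half_neg b l e1, Rg_half_neg b l e2]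
      simp
  · refine ⟨fun t => 1/2 < t, ?_, fun t t' ht ht' e1 e2 => ?_⟩
    · filter_upwards [eventually_gt_nhds c] with t ht _ using ht
    · unfold pL
      rw [patT_neg_one, if_neg (fun h => absurd ((htop t ht).1 h) (not_le.2 e1)),
        if_neg (fun h => absurd ((htop t' ht').1 h) (not_le.2 e2))]
      simp

theorem tr_gm0 (b l : G) :
    HasTr (patT b l) gm0 ((beta b l)⁻¹ * (beta b l)⁻¹ * b * l * l)⁻¹ := by
  have hpi := Real.pi_pos
  have htop1 : ∀ s : ℝ, 0 ≤ s → s ≤ 1/2 → 0 ≤ (ee s).im := by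
    intro s h0 h1
    rw [ee_im]
    exact Real.sin_nonneg_of_mem_Icc ⟨by positivity, by nlinarith⟩
  have htop2 : 0 ≤ (ee 1).im := by
    rw [ee_im, mul_one, Real.sin_two_pi]
  have hbot : ∀ s : ℝ, 1/2 < s → s < 1 → ¬ 0 ≤ (ee s).im := by
    intro s h0 h1
    rw [ee_im, not_le, show 2 * Real.pi * s = (2 * Real.pi * s - 2 * Real.pi) + 2 * Real.pi by ring,
      Real.sin_add_two_pi]
    exact Real.sin_neg_of_neg_of_neg_pi_lt (by nlinarith) (by nlinarith)
  refine hasTr_of_ev (fun s => if s < 1 then 1 else ((beta b l)⁻¹ * (beta b l)⁻¹ * b * l * l)⁻¹)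
    (by norm_num) (by norm_num) fun s hs => ?_
  have hc : ContinuousAt (fun t : ℝ => (ee t).re + 1/2) s := by
    simp only [ee_re]; fun_prop
  rcases lt_trichotomy s (1/2) with c | c | c
  · refine ⟨fun t => t < 1/2, ?_, fun t t' ht ht' e1 e2 => ?_⟩
    · filter_upwards [eventually_lt_nhds c] with t ht _ using ht
    · unfold gm0
      rw [patT_neg_one, if_pos (htop1 t ht.1 e1.le), if_pos (htop1 t' ht'.1 e2.le),
        if_pos (by linarith), if_pos (by linarith)]
      simp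
  · refine ⟨fun t => (ee t).re + 1/2 < 0 ∧ t < 1, ?_, fun t t' ht ht' e1 e2 => ?_⟩
    · have : (ee s).re + 1/2 < 0 := by
        rw [ee_re, c, show 2 * Real.pi * (1/2) = Real.pi by ring, Real.cos_pi]; norm_num
      filter_upwards [hc.eventually_lt continuousAt_const this,
        eventually_lt_nhds (show s < 1 by linarith)] with t ht ht' _ using ⟨ht, ht'⟩
    · unfold gm0
      rw [patT_neg_one, Rg_half_neg b l e1.1, Rg_half_neg b l e2.1, if_pos e1.2, if_pos e2.2]
      simp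
  · rcases hs.2.lt_or_eq with c' | c'
    · refine ⟨fun t => 1/2 < t ∧ t < 1, ?_, fun t t' ht ht' e1 e2 => ?_⟩
      · filter_upwards [eventually_gt_nhds c, eventually_lt_nhds c'] with t ht ht' _ using ⟨ht, ht'⟩
      · unfold gm0
        rw [patT_neg_one, if_neg (hbot t e1.1 e1.2), if_neg (hbot t' e2.1 e2.2), if_pos e1.2,
          if_pos e2.2]
        simp
    · refine ⟨fun t => 1 < (ee t).re + 1/2 ∧ 1/2 < t ∧ t ≤ 1, ?_, fun t t' ht ht' e1 e2 => ?_⟩
      · have : 1 < (ee s).re + 1/2 := by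
          rw [ee_re, c', mul_one, Real.cos_two_pi]; norm_num
        filter_upwards [continuousAt_const.eventually_lt hc this, eventually_gt_nhds c]
          with t ht ht' ht'' using ⟨ht, ht', ht''.2⟩
      · unfold gm0
        rw [patT_neg_one, Rg_half_one b l e1.1, Rg_half_one b l e2.1]
        rcases e1.2.2.lt_or_eq with d | d <;> rcases e2.2.2.lt_or_eq with d' | d'
        · rw [if_neg (hbot t e1.2.1 d), if_neg (hbot t' e2.2.1 d'), if_pos d, if_pos d']
          simp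
        · rw [if_neg (hbot t e1.2.1 d), d', if_pos htop2, if_pos d, if_neg (lt_irrefl _)]
          simp
        · rw [d, if_pos htop2, if_neg (hbot t' e2.2.1 d'), if_neg (lt_irrefl _), if_pos d']
          simp
        · rw [d, d', if_pos htop2, if_pos htop2, if_neg (lt_irrefl _)]
          simp

theorem jumps_of (J : Jumps G) : ∃ h : Rel J.rb J.al, J = jumps J.rb J.al h := by
  obtain ⟨al, be, ga, de, rb, rc, ra, ri, e1, e2, e3, e4, e5, e6, e7⟩ := J
  subst e1
  have hde : de = rb⁻¹ * al := by rw [e2]; group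
  subst hde
  have hrc : rc = al * rb * al⁻¹ * rb := by
    have : al * rb * (rb⁻¹ * al)⁻¹ = rc := by rw [e3]; group
    rw [← this]; group
  subst hrc
  have hbe : be = beta rb al := by
    have : be = al * rb * al⁻¹ * rb * al * rb⁻¹ := by rw [← e4]; group
    exact this
  subst hbe
  have hra : ra = (beta rb al)⁻¹ * rb * al := by
    rw [mul_assoc, ← e5]; group
  subst hra
  have hri : ri = (beta rb al)⁻¹ * (beta rb al)⁻¹ * rb * al * al := by
    have : ri = (beta rb al)⁻¹ * ((beta rb al)⁻¹ * rb * al * al) := by rw [← e6]; group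
    rw [this]; group
  subst hri
  have hR : Rel rb al := by
    unfold Rel
    show al * ((beta rb al)⁻¹ * (beta rb al)⁻¹ * rb) = (beta rb al)⁻¹ * (beta rb al)⁻¹ * rb * al
    have h7 : al * ((beta rb al)⁻¹ * (beta rb al)⁻¹ * rb) * al * al =
        ((beta rb al)⁻¹ * (beta rb al)⁻¹ * rb * al) * al * al := by
      have : al * ((beta rb al)⁻¹ * (beta rb al)⁻¹ * rb) * al * al =
        al * ((beta rb al)⁻¹ * (beta rb al)⁻¹ * rb * al * al) := by group
      rw [this, e7]
    exact mul_right_cancel (mul_right_cancel h7)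
  exact ⟨hR, rfl⟩

end PT

end Pool.Agent.Helper60.Geo
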