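import Pool.Agent.Helper60.Geo.PatClass
import Pool.Agent.Helper60.Geo.PatT

/-! `pat_classify`, `pat_inj`, `preconnected_VP`. -/

set_option autoImplicit false

namespace Pool.Agent.Helper60.Geo.PC

open Set AS Pool.Agent.Helper60.Geo Filter Topology

variable {G : Type*} [Group G] {T T' : ℂ × ℂ → ℂ × ℂ → G}

theorem classify (hT : GFlat T VP) :
    ∃ b l : G, Rel b l ∧ ∃ u, GaugeBy T (patT b l) VP u ∧ u v0 = 1 := by
  obtain ⟨vu₀, hu₀⟩ := exists_box_prim hT (Or.inl rfl : (1:ℝ) = 1 ∨ (1:ℝ) = -1)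
  obtain ⟨vl₀, hl₀⟩ := exists_box_prim hT (Or.inr rfl : (-1:ℝ) = 1 ∨ (-1:ℝ) = -1)
  set vu : ℝ × ℝ × ℂ → G := fun x => (vu₀ (Lf v0))⁻¹ * vu₀ x with hvu
  set d : G := vu (emb (1/2) 0 (-(1/2))) * (vl₀ (emb (1/2) 0 (-(1/2))))⁻¹ with hd
  set vl : ℝ × ℝ × ℂ → G := fun x => d * vl₀ x with hvl
  have hu : ∀ a ∈ Box 1, IsPr T vu a := fun a ha => (hu₀ a ha).left _
  have hl : ∀ a ∈ Box (-1), IsPr T vl a := fun a ha => (hl₀ a ha).left _
  have hout : rho vu vl (1/2, -(1/2)) = 1 := by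
    show vu (emb (1/2) 0 (-(1/2))) * (d * vl₀ (emb (1/2) 0 (-(1/2))))⁻¹ = 1
    rw [hd]; group
  obtain ⟨b, l, hR, h1, h2, h3⟩ := exists_jumps hu hl hout
  refine ⟨b, l, hR, _, gauge_main hu hl h1 h2 h3, ?_⟩
  show (vv vu vl v0)⁻¹ = 1
  have h0 : (0:ℝ) ≤ v0.2.im := by
    show (0:ℝ) ≤ Complex.I.im
    rw [Complex.I_im]; norm_num
  unfold vv
  rw [if_pos h0, hvu]
  group

theorem VP_eq : VP = pi3 '' Box 1 ∪ pi3 '' Box (-1) := by
  apply Subset.antisymm
  · intro a ha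
    have hd := VP_disc ha
    have hP := (VP_PP ha).2
    have hs : sa a ∈ Icc (0:ℝ) 1 := ⟨sa_nonneg a, (sa_lt_one a).le⟩
    have hA := Lf_eq ha
    have hpi : pi3 (Lf a) = a := by
      unfold pi3 Lf
      ext1
      · exact norm_mul_ee_sa a
      · rfl
    rcases le_total 0 a.2.im with h | h
    · exact Or.inl ⟨Lf a, by rw [hA]; exact emb_mem hs (by rw [one_mul]; exact h) hd hP, hpi⟩
    · exact Or.inr ⟨Lf a, by rw [hA]; exact emb_mem hs (by linarith) hd hP, hpi⟩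
  · rintro _ (⟨p, hp, rfl⟩ | ⟨p, hp, rfl⟩)
    · exact pi3_mem hp
    · exact pi3_mem hp

theorem box_preconnected {e : ℝ} (he : e = 1 ∨ e = -1) : IsPreconnected (Box e) := by
  rcases (Box e).eq_empty_or_nonempty with h | ⟨p₀, hp₀⟩
  · rw [h]; exact isPreconnected_empty
  have hc : cen e ∈ Box e := by
    have := box_star he hp₀ (t := 1) (right_mem_Icc.2 zero_le_one)
    simpa using this
  refine isPreconnected_of_forall (cen e) fun p hp => ?_
  refine ⟨(fun t : ℝ => (1 - t) • p + t • cen e) '' Icc 0 1, ?_, ?_, ?_, ?_⟩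
  · rintro _ ⟨t, ht, rfl⟩
    exact box_star he hp ht
  · exact ⟨1, right_mem_Icc.2 zero_le_one, by simp⟩
  · exact ⟨0, left_mem_Icc.2 zero_le_one, by simp⟩
  · exact isPreconnected_Icc.image _ (by fun_prop)

theorem preconnected : IsPreconnected VP := by
  rw [VP_eq]
  have h1 : emb (1/2) 0 (-(1/2)) ∈ Box 1 := emb_rect r_out
  have h2 : emb (1/2) 0 (-(1/2)) ∈ Box (-1) := emb_rect r_out
  exact IsPreconnected.union (pi3 (emb (1/2) 0 (-(1/2)))) ⟨_, h1, rfl⟩ ⟨_, h2, rfl⟩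
    ((box_preconnected (Or.inl rfl)).image _ continuous_pi3.continuousOn)
    ((box_preconnected (Or.inr rfl)).image _ continuous_pi3.continuousOn)

theorem not_half_int : ¬ ∃ n : ℤ, (1/2 : ℝ) = n := by
  rintro ⟨n, hn⟩
  have h1 : (0:ℝ) < n := by rw [← hn]; norm_num
  have h2 : (n:ℝ) < 1 := by rw [← hn]; norm_num
  have h1' : 0 < n := by exact_mod_cast h1
  have h2' : n < 1 := by exact_mod_cast h2
  omega

theorem gl_mem (s : ℝ) : gl s ∈ VP := by
  have e : gl s = (ee (s + 1/2), Complex.I) := by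
    unfold gl
    rw [ee_add, PT.ee_half]
    ext1
    · show -ee s = ee s * -1
      ring
    · rfl
  rw [e, mem_VP_iff]
  refine ⟨by rw [Complex.norm_I], ?_⟩
  rintro ⟨_, _, ⟨h, _⟩ | ⟨_, h⟩⟩
  · rw [Complex.I_im] at h; norm_num at h
  · rw [Complex.I_im, Complex.I_re] at h; simp only [hh] at h; norm_num at h

theorem gl_cont : Continuous gl := by
  unfold gl
  exact (continuous_ee.neg).prodMk continuous_const

theorem neg_one_mem {w : ℂ} (hw : ‖w‖ ≤ 1) (h : w.im = 0 → w.re + 1/2 < 0 ∨ 1 < w.re + 1/2 ∨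
    ∀ n : ℤ, 1/2 - sg (w.re + 1/2) ≠ n) : ((-1 : ℂ), w) ∈ VP := by
  rw [← PT.ee_half, mem_VP_iff]
  refine ⟨hw, ?_⟩
  rintro ⟨h0, h1, ⟨h2, n, hn⟩ | ⟨h2, _⟩⟩
  · rcases h h2 with h3 | h3 | h3
    · linarith
    · linarith
    · exact h3 n hn
  · exact not_half_int h2

theorem pD_mem {s : ℝ} (hs : s ∈ Icc (0:ℝ) 1) : pD s ∈ VP := by
  unfold pD
  refine neg_one_mem ?_ fun _ => Or.inr (Or.inr fun n hn => ?_)
  · rw [norm_mul, Complex.norm_I, mul_one, Complex.norm_real, Real.norm_eq_abs, abs_le]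
    constructor <;> linarith [hs.1, hs.2]
  · have e : ((((1 - 2 * s : ℝ) : ℂ) * Complex.I).re + 1/2 : ℝ) = 1/2 := by simp
    rw [e] at hn
    have h1 : (7:ℝ)/4 = n := by rw [← hn]; simp only [sg]; norm_num
    have h2 : (1:ℝ) < n := by rw [← h1]; norm_num
    have h3 : (n:ℝ) < 2 := by rw [← h1]; norm_num
    have h2' : 1 < n := by exact_mod_cast h2
    have h3' : n < 2 := by exact_mod_cast h3
    omega

theorem pD_cont : Continuous pD := by
  unfold pD; fun_prop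

theorem pL_mem (s : ℝ) : pL s ∈ VP := by
  unfold pL
  have hn : ‖Complex.I * ee (s / 2)‖ = 1 := by rw [norm_mul, Complex.norm_I, norm_ee, one_mul]
  refine neg_one_mem hn.le fun h => ?_
  have h1 : (Complex.I * ee (s / 2)).re ^ 2 = 1 := by
    have h2 := Complex.sq_norm (Complex.I * ee (s / 2))
    rw [hn, Complex.normSq_apply, h] at h2
    nlinarith
  have h3 : (Complex.I * ee (s / 2)).re = 1 ∨ (Complex.I * ee (s / 2)).re = -1 := by
    have h4 : ((Complex.I * ee (s / 2)).re - 1) * ((Complex.I * ee (s / 2)).re + 1) = 0 := by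
      nlinarith
    rcases mul_eq_zero.1 h4 with h5 | h5
    · left; linarith
    · right; linarith
  rcases h3 with h2 | h2
  · right; left; rw [h2]; norm_num
  · left; rw [h2]; norm_num

theorem pL_cont : Continuous pL := by
  unfold pL
  exact continuous_const.prodMk (continuous_const.mul (continuous_ee.comp (by fun_prop)))

theorem gl_zero : gl 0 = v0 := by unfold gl v0; rw [ee_zero]
theorem gl_one : gl 1 = v0 := by
  unfold gl v0
  have := ee_int 1
  rw [Int.cast_one] at this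
  rw [this]
theorem pD_zero : pD 0 = v0 := by unfold pD v0; simp
theorem pL_zero : pL 0 = v0 := by unfold pL v0; rw [zero_div, ee_zero, mul_one]
theorem pL_one : pL 1 = pD 1 := by
  unfold pL pD
  rw [PT.ee_half]
  ext1
  · rfl
  · push_cast
    ring

/-- the pair is determined by the based transports -/
theorem classify' (hT : GFlat T VP) {l b₁ b₂ : G} (hl : HasTr T gl l) (h1 : HasTr T pD b₁)
    (h2 : HasTr T pL b₂) : ∃ u, GaugeBy T (patT (b₁ * b₂⁻¹) l) VP u ∧ u v0 = 1 := by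
  obtain ⟨b, l', _, u, hu, hu0⟩ := classify hT
  have g1 := HasTr.gauge hu gl_cont.continuousOn (fun s _ => gl_mem s) hl
  have g2 := HasTr.gauge hu pD_cont.continuousOn (fun s hs => pD_mem hs) h1
  have g3 := HasTr.gauge hu pL_cont.continuousOn (fun s _ => pL_mem s) h2
  rw [gl_zero, gl_one, hu0, inv_one, one_mul, mul_one] at g1
  rw [pD_zero, hu0, inv_one, one_mul] at g2
  rw [pL_zero, pL_one, hu0, inv_one, one_mul] at g3
  have e1 : l' = l := HasTr.unique (PT.tr_gl b l') g1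
  have e2 : b = b₁ * u (pD 1) := HasTr.unique (PT.tr_pD b l') g2
  have e3 : 1 = b₂ * u (pD 1) := HasTr.unique (PT.tr_pL b l') g3
  have e4 : u (pD 1) = b₂⁻¹ := eq_inv_of_mul_eq_one_right e3.symm
  rw [e4] at e2
  rw [← e1, ← e2]
  exact ⟨u, hu, hu0⟩

theorem inj (hT : GFlat T VP) (hT' : GFlat T' VP) {l b₁ b₂ b₁' b₂' : G} (hl : HasTr T gl l)
    (hl' : HasTr T' gl l) (h1 : HasTr T pD b₁) (h2 : HasTr T pL b₂) (h1' : HasTr T' pD b₁')
    (h2' : HasTr T' pL b₂') (hb : b₁ * b₂⁻¹ = b₁' * b₂'⁻¹) :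
    ∃ u, GaugeBy T T' VP u ∧ u v0 = 1 := by
  obtain ⟨u, hu, hu0⟩ := classify' hT hl h1 h2
  obtain ⟨u', hu', hu0'⟩ := classify' hT' hl' h1' h2'
  rw [← hb] at hu'
  refine ⟨_, hu.trans hu'.symm, ?_⟩
  simp [hu0, hu0']

end Pool.Agent.Helper60.Geo.PC
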