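import Pool.Agent.Helper60.Geo.PatDef

/-! Elementary facts about the pattern: membership criterion, the angle `sa`, local constancy of the
region functions `Dup`, `Ddn`, `Rg`. -/

set_option autoImplicit false

namespace Pool.Agent.Helper60.Geo.PC

open Set AS Pool.Agent.Helper60.Geo

variable {G : Type*} [Group G]

/-! ### `ee` -/

theorem ee_add (s t : ℝ) : ee (s + t) = ee s * ee t := by
  unfold ee; rw [← Complex.exp_add]; congr 1; push_cast; ring

theorem ee_zero : ee 0 = 1 := by unfold ee; simp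

theorem norm_ee (s : ℝ) : ‖ee s‖ = 1 := by
  unfold ee
  rw [show (2 * Real.pi * s * Complex.I : ℂ) = ((2 * Real.pi * s : ℝ) : ℂ) * Complex.I by push_cast; ring]
  exact Complex.norm_exp_ofReal_mul_I _

theorem ee_ne_zero (s : ℝ) : ee s ≠ 0 := by
  intro h; have := norm_ee s; rw [h, norm_zero] at this; exact zero_ne_one this

theorem ee_eq_one {s : ℝ} : ee s = 1 ↔ ∃ n : ℤ, s = n := by
  unfold ee
  rw [Complex.exp_eq_one_iff]
  have hpi : (Real.pi : ℂ) ≠ 0 := by exact_mod_cast Real.pi_ne_zero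
  constructor
  · rintro ⟨n, hn⟩
    refine ⟨n, ?_⟩
    have h1 : (2 * Real.pi * Complex.I : ℂ) * (s : ℂ) = (2 * Real.pi * Complex.I) * n := by
      rw [mul_comm (2 * Real.pi * Complex.I : ℂ) (n : ℂ), ← hn]; ring
    have h2 := mul_left_cancel₀ Complex.two_pi_I_ne_zero h1
    exact_mod_cast h2
  · rintro ⟨n, rfl⟩
    exact ⟨n, by push_cast; ring⟩

theorem ee_int (n : ℤ) : ee n = 1 := ee_eq_one.2 ⟨n, rfl⟩

theorem ee_eq {s t : ℝ} : ee s = ee t ↔ ∃ n : ℤ, s - t = n := by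
  rw [← ee_eq_one, show s = (s - t) + t by ring, ee_add]
  constructor
  · intro h
    have : ee (s - t) * ee t = 1 * ee t := by rw [h, one_mul]
    have := mul_right_cancel₀ (ee_ne_zero t) this
    convert this using 2; ring
  · intro h
    have h' : ee (s - t) = 1 := by convert h using 2; ring
    rw [h', one_mul]

theorem ee_sub_int (s : ℝ) (n : ℤ) : ee (s - n) = ee s := ee_eq.2 ⟨-n, by push_cast; ring⟩

theorem continuous_ee : Continuous ee := by unfold ee; fun_prop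

/-! ### the pattern -/

/-- membership in the pattern, in coordinates: angle `s`, `w = (r - 1/2) + i y` -/
def PP (s y r : ℝ) : Prop :=
  0 ≤ r ∧ r ≤ 1 ∧ ((y = 0 ∧ ∃ n : ℤ, s - sg r = n) ∨ ((∃ n : ℤ, s = n) ∧ y = hh r))

theorem mem_Pat_iff {s : ℝ} {w : ℂ} : ((ee s, w) : ℂ × ℂ) ∈ Pat ↔ PP s w.im (w.re + 1 / 2) := by
  unfold Pat PP
  constructor
  · rintro (⟨r, hr, h⟩ | ⟨r, hr, h⟩)
    · have h1 : ee (sg r) = ee s := congrArg Prod.fst h
      have h2 : ((r - 1/2 : ℝ) : ℂ) = w := congrArg Prod.snd h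
      have h3 : w.re = r - 1/2 := by rw [← h2]; exact Complex.ofReal_re _
      have h4 : w.im = 0 := by rw [← h2]; exact Complex.ofReal_im _
      have h5 : w.re + 1 / 2 = r := by rw [h3]; ring
      rw [h5]
      refine ⟨hr.1, hr.2, Or.inl ⟨h4, ?_⟩⟩
      obtain ⟨n, hn⟩ := ee_eq.1 h1.symm
      exact ⟨n, hn⟩
    · have h1 : (1 : ℂ) = ee s := congrArg Prod.fst h
      have h2 : ((r - 1/2 : ℝ) : ℂ) + (hh r : ℂ) * Complex.I = w := congrArg Prod.snd h
      have h3 : w.re = r - 1/2 := by rw [← h2]; simp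
      have h4 : w.im = hh r := by rw [← h2]; simp
      have h5 : w.re + 1 / 2 = r := by rw [h3]; ring
      rw [h5]
      exact ⟨hr.1, hr.2, Or.inr ⟨ee_eq_one.1 h1.symm, h4⟩⟩
  · rintro ⟨h0, h1, ⟨hy, n, hn⟩ | ⟨⟨n, hn⟩, hy⟩⟩
    · left
      refine ⟨w.re + 1 / 2, ⟨h0, h1⟩, ?_⟩
      unfold Gc
      ext1
      · exact ee_eq.2 ⟨-n, by push_cast; linarith⟩
      · apply Complex.ext
        · simp
        · simp [hy]
    · right
      refine ⟨w.re + 1 / 2, ⟨h0, h1⟩, ?_⟩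
      unfold Ac
      ext1
      · exact (ee_eq_one.2 ⟨n, hn⟩).symm
      · apply Complex.ext
        · simp
        · simp [hy]

theorem mem_VP_iff {s : ℝ} {w : ℂ} :
    ((ee s, w) : ℂ × ℂ) ∈ VP ↔ ‖w‖ ≤ 1 ∧ ¬ PP s w.im (w.re + 1 / 2) := by
  unfold VP ST
  rw [mem_sdiff, mem_Pat_iff]
  constructor
  · rintro ⟨⟨_, h⟩, h2⟩; exact ⟨h, h2⟩
  · rintro ⟨h, h2⟩; exact ⟨⟨norm_ee s, h⟩, h2⟩

/-! ### the angle -/

theorem sa_nonneg (x : ℂ × ℂ) : 0 ≤ sa x := Int.fract_nonneg _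
theorem sa_lt_one (x : ℂ × ℂ) : sa x < 1 := Int.fract_lt_one _

theorem norm_mul_ee_sa (x : ℂ × ℂ) : (‖x.1‖ : ℂ) * ee (sa x) = x.1 := by
  have h1 : ee (sa x) = ee (ang Prod.fst x) := by
    unfold sa Int.fract
    exact ee_sub_int _ _
  rw [h1]
  unfold ee ang
  have hpi : (Real.pi : ℂ) ≠ 0 := by exact_mod_cast Real.pi_ne_zero
  rw [show (2 * Real.pi * ((x.1.arg / (2 * Real.pi) : ℝ) : ℂ) * Complex.I : ℂ) = x.1.arg * Complex.I by
    push_cast; field_simp]
  exact Complex.norm_mul_exp_arg_mul_I _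

/-- `sa` is continuous modulo `1` at points with nonzero first coordinate -/
theorem sa_near {a : ℂ × ℂ} (ha : a.1 ≠ 0) {ε : ℝ} (hε : 0 < ε) : ∃ δ > 0, ∀ x, dist x a < δ →
    ∃ n : ℤ, |sa x - n - sa a| < ε := by
  obtain ⟨δ, hδ, h⟩ := angCont_ang (Ω := ℂ × ℂ) (S := {a}) (f := Prod.fst)
    (fun x _ => continuousAt_fst) (by rintro x rfl; exact ha) a rfl ε hε
  refine ⟨δ, hδ, fun x hx => ?_⟩
  have h1 := h x a hx (by simpa using hδ)
  refine ⟨round (ang Prod.fst x - ang Prod.fst a) - ⌊ang Prod.fst x⌋ + ⌊ang Prod.fst a⌋, ?_⟩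
  unfold sa Int.fract
  push_cast
  convert h1 using 2
  ring

/-- near a point with angle in `(0,1)` the function `sa` is continuous -/
theorem sa_cont {a : ℂ × ℂ} (ha : a.1 ≠ 0) (h0 : sa a ≠ 0) : ContinuousAt sa a := by
  rw [Metric.continuousAt_iff]
  intro ε hε
  have h0' : 0 < sa a := lt_of_le_of_ne (sa_nonneg a) (Ne.symm h0)
  have h1' := sa_lt_one a
  obtain ⟨δ, hδ, h⟩ := sa_near ha (lt_min hε (lt_min h0' (sub_pos.2 h1')))
  refine ⟨δ, hδ, fun x hx => ?_⟩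
  obtain ⟨n, hn⟩ := h x hx
  have hn1 := abs_lt.1 (hn.trans_le (min_le_left _ _))
  have hn2 := abs_lt.1 (hn.trans_le ((min_le_right _ _).trans (min_le_left _ _)))
  have hn3 := abs_lt.1 (hn.trans_le ((min_le_right _ _).trans (min_le_right _ _)))
  have hx0 := sa_nonneg x
  have hx1 := sa_lt_one x
  have a1 : (n : ℝ) < 1 := by linarith [hn2.1]
  have a2 : (-1 : ℝ) < n := by linarith [hn3.2]
  have a1' : n < 1 := by exact_mod_cast a1
  have a2' : -1 < n := by exact_mod_cast a2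
  have hn0 : n = 0 := by omega
  subst hn0
  rw [Real.dist_eq, abs_lt]
  constructor
  · have := hn1.1; push_cast at this; linarith
  · have := hn1.2; push_cast at this; linarith

/-- near a point with angle `0` the function `sa` is close to `0` or to `1` -/
theorem sa_near_zero {a : ℂ × ℂ} (ha : a.1 ≠ 0) (h0 : sa a = 0) {ε : ℝ} (hε : 0 < ε) :
    ∃ δ > 0, ∀ x, dist x a < δ → ∃ n : ℤ, (n = 0 ∨ n = 1) ∧ |sa x - n| < ε := by
  obtain ⟨δ, hδ, h⟩ := sa_near ha (lt_min hε (by norm_num : (0:ℝ) < 1/2))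
  refine ⟨δ, hδ, fun x hx => ?_⟩
  obtain ⟨n, hn⟩ := h x hx
  rw [h0, sub_zero] at hn
  have hn1 := abs_lt.1 (hn.trans_le (min_le_right _ _))
  have hx0 := sa_nonneg x
  have hx1 := sa_lt_one x
  have a1 : (n : ℝ) < 2 := by linarith [hn1.1]
  have a2 : (-1 : ℝ) < n := by linarith [hn1.2]
  have a1' : n < 2 := by exact_mod_cast a1
  have a2' : -1 < n := by exact_mod_cast a2
  exact ⟨n, by omega, hn.trans_le (min_le_left _ _)⟩

/-! ### the functions `sg`, `hh` -/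

theorem continuous_sg : Continuous sg := by unfold sg; fun_prop
theorem continuous_hh : Continuous hh := by unfold hh; fun_prop

theorem sg_lower (r : ℝ) : -(9/7) ≤ sg r := by unfold sg; nlinarith [sq_nonneg (7 * r - 3)]

theorem sg_anti {r r' : ℝ} (h : r ≤ r') (h' : r' ≤ 3 / 7) : sg r' ≤ sg r := by
  unfold sg; nlinarith

theorem sg_mono {r r' : ℝ} (h : r ≤ r') (h' : 3 / 7 ≤ r) : sg r ≤ sg r' := by
  unfold sg; nlinarith

theorem sg_zero : sg 0 = 0 := by unfold sg; norm_num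
theorem sg_one : sg 1 = 1 := by unfold sg; norm_num

/-- `sg r ≤ 0` only for `r ∈ [0, 6/7]` -/
theorem sg_nonpos {r : ℝ} (h : sg r ≤ 0) : 0 ≤ r ∧ r ≤ 6 / 7 := by
  unfold sg at h
  constructor
  · by_contra h1; push Not at h1; nlinarith
  · by_contra h1; push Not at h1; nlinarith

/-- `sg r ≤ 1` and `3/7 ≤ r` give `r ≤ 1` -/
theorem sg_le_one {r : ℝ} (h : sg r ≤ 1) (h' : 3 / 7 ≤ r) : r ≤ 1 := by
  unfold sg at h
  by_contra h1; push Not at h1; nlinarith

theorem sg_mid : sg (3 / 7) = -(9 / 7) := by unfold sg; norm_num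

theorem hh_third : hh (1 / 3) = 0 := by unfold hh; norm_num

theorem hh_pos {r : ℝ} (h : 1 / 3 < r) (h' : r < 1) : 0 < hh r := by
  unfold hh
  have h1 : 0 < r * (1 - r) := by nlinarith
  have h2 : 0 < 3 * r - 1 := by linarith
  positivity

theorem hh_nonneg {r : ℝ} (h : 1 / 3 ≤ r) (h' : r ≤ 1) : 0 ≤ hh r := by
  unfold hh
  have h1 : 0 ≤ r * (1 - r) := by nlinarith
  have h2 : 0 ≤ 3 * r - 1 := by linarith
  positivity

theorem hh_neg {r : ℝ} (h : 0 < r) (h' : r < 1 / 3) : hh r < 0 := by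
  unfold hh
  have h1 : 0 < r * (1 - r) := by nlinarith
  nlinarith

theorem hh_nonpos {r : ℝ} (h : 0 ≤ r) (h' : r ≤ 1 / 3) : hh r ≤ 0 := by
  unfold hh
  have h1 : 0 ≤ r * (1 - r) := by nlinarith
  nlinarith

theorem hh_neg_of_one_lt {r : ℝ} (h : 1 < r) : hh r < 0 := by
  unfold hh
  have h1 : 0 < r * (r - 1) := by nlinarith
  nlinarith

theorem hh_pos_of_neg {r : ℝ} (h : r < 0) : 0 < hh r := by
  unfold hh
  have h1 : 0 < (-r) * (1 - r) := by nlinarith
  nlinarith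

theorem hh_le {r : ℝ} (h : 0 ≤ r) (h' : r ≤ 1) : |hh r| ≤ 1 / 2 := by
  unfold hh
  have h1 : 0 ≤ r * (1 - r) := by nlinarith
  have h2 : r * (1 - r) ≤ 1 / 4 := by nlinarith [sq_nonneg (2 * r - 1)]
  rw [abs_mul, abs_of_nonneg h1]
  have h3 : |3 * r - 1| ≤ 2 := abs_le.2 ⟨by linarith, by linarith⟩
  nlinarith [abs_nonneg (3 * r - 1)]

/-! ### local constancy of the region functions -/

/-- the cut annulus without the pattern, coordinates `(s, r)` -/
def RectD : Set (ℝ × ℝ) := {p | p.1 ∈ Icc (0:ℝ) 1 ∧ p.2 ∈ Icc (-(1/2):ℝ) (3/2) ∧ ¬ PP p.1 0 p.2}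
/-- the upper half disc without the pattern, coordinates `(y, r)` -/
def DU : Set (ℝ × ℝ) := {p | 0 ≤ p.1 ∧ p.1 ^ 2 + (p.2 - 1/2) ^ 2 ≤ 1 ∧ ¬ PP 0 p.1 p.2}
/-- the lower half disc without the pattern -/
def DL : Set (ℝ × ℝ) := {p | p.1 ≤ 0 ∧ p.1 ^ 2 + (p.2 - 1/2) ^ 2 ≤ 1 ∧ ¬ PP 0 p.1 p.2}

/-- the five cases for a point of the cut annulus -/
theorem rect_cases {s r : ℝ} (h : (s, r) ∈ RectD) :
    (2 < s - sg r ∧ sg r < -1) ∨ (1 < s - sg r ∧ s - sg r < 2 ∧ sg r < 0) ∨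
    (s - sg r < 1 ∧ r < 3 / 7 ∧ -1 < sg r) ∨
    (0 < s - sg r ∧ s - sg r < 1 ∧ 3 / 7 < r ∧ -1 < sg r ∧ sg r < 1) ∨
    (s - sg r < 0 ∧ 3 / 7 < r ∧ 0 < sg r) := by
  obtain ⟨⟨hs0, hs1⟩, ⟨hr0, hr1⟩, hP⟩ := h
  simp only at hs0 hs1 hr0 hr1 hP
  have key : 0 ≤ r → r ≤ 1 → ∀ n : ℤ, s - sg r ≠ n := by
    intro h0 h1 n hn
    exact hP ⟨h0, h1, Or.inl ⟨rfl, n, hn⟩⟩
  by_cases c1 : 2 ≤ s - sg r
  · have h1 : sg r ≤ -1 := by linarith
    have h2 := sg_nonpos (by linarith : sg r ≤ 0)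
    have h3 := key h2.1 (by linarith [h2.2]) 2
    have h4 : 2 < s - sg r := lt_of_le_of_ne c1 (by intro h; exact h3 (by rw [← h]; norm_num))
    exact Or.inl ⟨h4, by linarith⟩
  · push Not at c1
    by_cases c2 : 1 ≤ s - sg r
    · have h2 := sg_nonpos (by linarith : sg r ≤ 0)
      have h3 := key h2.1 (by linarith [h2.2]) 1
      have h4 : 1 < s - sg r := lt_of_le_of_ne c2 (by intro h; exact h3 (by rw [← h]; norm_num))
      exact Or.inr (Or.inl ⟨h4, c1, by linarith⟩)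
    · push Not at c2
      by_cases c3 : r < 3 / 7
      · exact Or.inr (Or.inr (Or.inl ⟨c2, c3, by linarith⟩))
      · push Not at c3
        have c4 : 3 / 7 < r := by
          refine lt_of_le_of_ne c3 ?_
          intro h
          rw [← h, sg_mid] at c2
          linarith
        by_cases c5 : 0 ≤ s - sg r
        · have h1 : r ≤ 1 := sg_le_one (by linarith) c3
          have h3 := key (by linarith) h1 0
          have h4 : 0 < s - sg r := lt_of_le_of_ne c5 (by intro h; exact h3 (by rw [← h]; norm_num))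
          exact Or.inr (Or.inr (Or.inr (Or.inl ⟨h4, c2, c4, by linarith, by linarith⟩)))
        · push Not at c5
          exact Or.inr (Or.inr (Or.inr (Or.inr ⟨c5, c4, by linarith⟩)))

theorem Rg_rc (b l : G) {s r : ℝ} (h : 2 ≤ s - sg r) : Rg b l s r = l * b * l⁻¹ * b := if_pos h
theorem Rg_rb (b l : G) {s r : ℝ} (h : 1 ≤ s - sg r) (h' : s - sg r < 2) : Rg b l s r = b := by
  unfold Rg; rw [if_neg (not_le.2 h'), if_pos h]
theorem Rg_out (b l : G) {s r : ℝ} (h : s - sg r < 1) (h' : r < 3 / 7) : Rg b l s r = 1 := by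
  unfold Rg; rw [if_neg (by linarith), if_neg (by linarith), if_pos h']
theorem Rg_ra (b l : G) {s r : ℝ} (h : s - sg r < 1) (h' : 3 / 7 ≤ r) (h0 : 0 ≤ s - sg r) :
    Rg b l s r = (beta b l)⁻¹ * b * l := by
  unfold Rg; rw [if_neg (by linarith), if_neg (by linarith), if_neg (by linarith), if_pos h0]
theorem Rg_ri (b l : G) {s r : ℝ} (h : s - sg r < 0) (h' : 3 / 7 ≤ r) :
    Rg b l s r = (beta b l)⁻¹ * (beta b l)⁻¹ * b * l * l := by
  unfold Rg; rw [if_neg (by linarith), if_neg (by linarith), if_neg (by linarith), if_neg (by linarith)]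

open Filter Topology in
/-- `Rg` is locally constant near the points of `RectD` (in the ambient plane) -/
theorem Rg_lc (b l : G) {p : ℝ × ℝ} (h : p ∈ RectD) : ∀ᶠ q in 𝓝 p, Rg b l q.1 q.2 = Rg b l p.1 p.2 := by
  obtain ⟨s, r⟩ := p
  have c1 : ContinuousAt (fun q : ℝ × ℝ => q.1 - sg q.2) (s, r) :=
    (continuous_fst.sub (continuous_sg.comp continuous_snd)).continuousAt
  have c2 : ContinuousAt (fun q : ℝ × ℝ => q.2) (s, r) := continuousAt_snd
  have lt1 : ∀ {c : ℝ}, s - sg r < c → ∀ᶠ q in 𝓝 (s, r), q.1 - sg q.2 < c := fun hc =>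
    c1.eventually_lt continuousAt_const hc
  have gt1 : ∀ {c : ℝ}, c < s - sg r → ∀ᶠ q in 𝓝 (s, r), c < q.1 - sg q.2 := fun hc =>
    continuousAt_const.eventually_lt c1 hc
  have lt2 : ∀ {c : ℝ}, r < c → ∀ᶠ q : ℝ × ℝ in 𝓝 (s, r), q.2 < c := fun hc =>
    c2.eventually_lt continuousAt_const hc
  have gt2 : ∀ {c : ℝ}, c < r → ∀ᶠ q : ℝ × ℝ in 𝓝 (s, r), c < q.2 := fun hc =>
    continuousAt_const.eventually_lt c2 hc
  rcases rect_cases h with ⟨h1, _⟩ | ⟨h1, h2, _⟩ | ⟨h1, h2, _⟩ | ⟨h1, h2, h3, _⟩ | ⟨h1, h2, _⟩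
  · filter_upwards [gt1 h1] with q hq
    rw [Rg_rc b l hq.le, Rg_rc b l h1.le]
  · filter_upwards [gt1 h1, lt1 h2] with q hq hq'
    rw [Rg_rb b l hq.le hq', Rg_rb b l h1.le h2]
  · filter_upwards [lt1 h1, lt2 h2] with q hq hq'
    rw [Rg_out b l hq hq', Rg_out b l h1 h2]
  · filter_upwards [gt1 h1, lt1 h2, gt2 h3] with q hq hq' hq''
    rw [Rg_ra b l hq' hq''.le hq.le, Rg_ra b l h2 h3.le h1.le]
  · filter_upwards [lt1 h1, gt2 h2] with q hq hq'
    rw [Rg_ri b l hq hq'.le, Rg_ri b l h1 h2.le]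

theorem DU_cases {y r : ℝ} (h : (y, r) ∈ DU) : (1 / 3 < r ∧ y < hh r ∧ r < 1) ∨
    ¬ (1 / 3 < r ∧ y < hh r) ∧ (r < 1 / 3 ∨ hh r < y) := by
  obtain ⟨h0, _, hP⟩ := h
  simp only at h0 hP
  by_cases c : 1 / 3 < r ∧ y < hh r
  · refine Or.inl ⟨c.1, c.2, ?_⟩
    by_contra hr
    push Not at hr
    rcases hr.eq_or_lt with rfl | hr
    · have := c.2; unfold hh at this; norm_num at this; linarith
    · linarith [hh_neg_of_one_lt hr, c.2]
  · refine Or.inr ⟨c, ?_⟩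
    rcases lt_trichotomy r (1/3) with h1 | h1 | h1
    · exact Or.inl h1
    · right
      subst h1
      rw [hh_third]
      refine lt_of_le_of_ne h0 ?_
      intro h2
      exact hP ⟨by norm_num, by norm_num, Or.inr ⟨⟨0, by norm_num⟩, by rw [hh_third]; exact h2.symm⟩⟩
    · right
      have h2 : hh r ≤ y := by
        by_contra h3; push Not at h3; exact c ⟨h1, h3⟩
      by_cases h3 : r ≤ 1
      · refine lt_of_le_of_ne h2 ?_
        intro h4
        exact hP ⟨by linarith, h3, Or.inr ⟨⟨0, by norm_num⟩, h4.symm⟩⟩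
      · push Not at h3
        linarith [hh_neg_of_one_lt h3]

theorem DL_cases {y r : ℝ} (h : (y, r) ∈ DL) : (r < 1 / 3 ∧ hh r < y ∧ 0 < r) ∨
    ¬ (r < 1 / 3 ∧ hh r < y) ∧ (1 / 3 < r ∨ y < hh r) := by
  obtain ⟨h0, _, hP⟩ := h
  simp only at h0 hP
  by_cases c : r < 1 / 3 ∧ hh r < y
  · refine Or.inl ⟨c.1, c.2, ?_⟩
    by_contra hr
    push Not at hr
    rcases hr.eq_or_lt with rfl | hr
    · have := c.2; unfold hh at this; norm_num at this; linarith
    · linarith [hh_pos_of_neg hr, c.2]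
  · refine Or.inr ⟨c, ?_⟩
    rcases lt_trichotomy r (1/3) with h1 | h1 | h1
    · right
      have h2 : y ≤ hh r := by
        by_contra h3; push Not at h3; exact c ⟨h1, h3⟩
      by_cases h3 : 0 ≤ r
      · refine lt_of_le_of_ne h2 ?_
        intro h4
        exact hP ⟨h3, by linarith, Or.inr ⟨⟨0, by norm_num⟩, h4⟩⟩
      · push Not at h3
        linarith [hh_pos_of_neg h3]
    · right
      subst h1
      rw [hh_third]
      refine lt_of_le_of_ne h0 ?_
      intro h2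
      exact hP ⟨by norm_num, by norm_num, Or.inr ⟨⟨0, by norm_num⟩, by rw [hh_third]; exact h2⟩⟩
    · exact Or.inl h1

open Filter Topology in
/-- `Dup` is locally constant near the points of the upper half disc -/
theorem Dup_lc (b l : G) {w₀ : ℂ} (h : (w₀.im, w₀.re + 1/2) ∈ DU) :
    ∀ᶠ w in 𝓝 w₀, Dup b l w = Dup b l w₀ := by
  have c1 : ContinuousAt (fun w : ℂ => w.re + 1 / 2) w₀ := by fun_prop
  have c2 : ContinuousAt (fun w : ℂ => w.im) w₀ := by fun_prop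
  have c3 : ContinuousAt (fun w : ℂ => hh (w.re + 1 / 2)) w₀ :=
    (continuous_hh.comp (by fun_prop)).continuousAt
  rcases DU_cases h with ⟨h1, h2, _⟩ | ⟨h0, h1 | h1⟩
  · filter_upwards [continuousAt_const.eventually_lt c1 h1, c2.eventually_lt c3 h2] with w e1 e2
    unfold Dup; rw [if_pos ⟨e1, e2⟩, if_pos ⟨h1, h2⟩]
  · filter_upwards [c1.eventually_lt continuousAt_const h1] with w e1
    unfold Dup; rw [if_neg (fun h => absurd h.1 (not_lt.2 e1.le)), if_neg h0]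
  · filter_upwards [c3.eventually_lt c2 h1] with w e1
    unfold Dup; rw [if_neg (fun h => absurd h.2 (not_lt.2 e1.le)), if_neg h0]

open Filter Topology in
/-- `Ddn` is locally constant near the points of the lower half disc -/
theorem Ddn_lc (b l : G) {w₀ : ℂ} (h : (w₀.im, w₀.re + 1/2) ∈ DL) :
    ∀ᶠ w in 𝓝 w₀, Ddn b l w = Ddn b l w₀ := by
  have c1 : ContinuousAt (fun w : ℂ => w.re + 1 / 2) w₀ := by fun_prop
  have c2 : ContinuousAt (fun w : ℂ => w.im) w₀ := by fun_prop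
  have c3 : ContinuousAt (fun w : ℂ => hh (w.re + 1 / 2)) w₀ :=
    (continuous_hh.comp (by fun_prop)).continuousAt
  rcases DL_cases h with ⟨h1, h2, _⟩ | ⟨h0, h1 | h1⟩
  · filter_upwards [c1.eventually_lt continuousAt_const h1, c3.eventually_lt c2 h2] with w e1 e2
    unfold Ddn; rw [if_pos ⟨e1, e2⟩, if_pos ⟨h1, h2⟩]
  · filter_upwards [continuousAt_const.eventually_lt c1 h1] with w e1
    unfold Ddn; rw [if_neg (fun h => absurd h.1 (not_lt.2 e1.le)), if_neg h0]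
  · filter_upwards [c2.eventually_lt c3 h1] with w e1
    unfold Ddn; rw [if_neg (fun h => absurd h.2 (not_lt.2 e1.le)), if_neg h0]

end Pool.Agent.Helper60.Geo.PC
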