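import Pool.Agent.Helper60.Geo.TrefBase

/-! The integer class `cf` of the trefoil complement: flatness and the values on the explicit loops. -/

set_option autoImplicit false

namespace Pool.Agent.Helper60.Geo

open Set AS

/-! ### the domain is `fK ≠ 0` -/

theorem tcf_c4 : Real.cos (Real.pi / 4) = 1 / Real.sqrt 2 := by
  rw [Real.cos_pi_div_four]
  have h : Real.sqrt 2 ^ 2 = 2 := Real.sq_sqrt (by norm_num)
  have h2 : (0 : ℝ) < Real.sqrt 2 := by positivity
  field_simp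
  exact h

theorem tcf_s4 : Real.sin (Real.pi / 4) = 1 / Real.sqrt 2 := by
  rw [Real.sin_pi_div_four, ← Real.cos_pi_div_four, tcf_c4]

theorem tcf_fK_act {u : ℂ} (hu : ‖u‖ = 1) (z : ℂ × ℂ) : fK (act u z) = u ^ 6 * fK z := by
  unfold fK
  rw [nrm_act hu]
  unfold act
  simp only
  ring

theorem tcf_fK_smul {c : ℝ} (hc : 0 ≤ c) (z : ℂ × ℂ) : fK (c • z) = (c : ℂ) ^ 3 * fK z := by
  have hn : nrm (c • z) = c * nrm z := by
    unfold nrm
    rw [Prod.smul_fst, Prod.smul_snd, norm_smul, norm_smul, Real.norm_eq_abs, abs_of_nonneg hc]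
    have : (c * ‖z.1‖) ^ 2 + (c * ‖z.2‖) ^ 2 = c ^ 2 * (‖z.1‖ ^ 2 + ‖z.2‖ ^ 2) := by ring
    rw [this, Real.sqrt_mul (sq_nonneg c), Real.sqrt_sq hc]
  unfold fK
  rw [hn, Prod.smul_fst, Prod.smul_snd, Complex.real_smul, Complex.real_smul]
  push_cast
  ring

theorem tcf_fK_sl0 : fK (sl 0) = 0 := by
  have h : nrm (sl 0) = 1 := nrm_sl 0
  unfold fK
  rw [h]
  unfold sl
  simp only [Complex.zero_re, Complex.zero_im, zero_div, sub_zero, Complex.ofReal_zero,
    zero_mul, Complex.exp_zero, mul_one, tcf_c4, tcf_s4]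
  push_cast
  ring

theorem tcf_fK_Kn {k : ℂ × ℂ} (hk : k ∈ Kn) : fK k = 0 := by
  obtain ⟨u, hu, rfl⟩ := hk
  unfold eV
  rw [tcf_fK_act hu]
  simp only [mul_zero]
  rw [tcf_fK_sl0, mul_zero]

theorem tcf_mem {z : ℂ × ℂ} (h : fK z ≠ 0) :
    z ∈ {z | nrm z ≠ 0 ∧ ∀ k ∈ Kn, z ≠ nrm z • k} := by
  refine ⟨?_, ?_⟩
  · intro h0
    apply h
    have h1 := nrm_sq z
    rw [h0] at h1
    have h2 : ‖z.1‖ = 0 := by nlinarith [sq_nonneg ‖z.1‖, sq_nonneg ‖z.2‖]
    have h3 : ‖z.2‖ = 0 := by nlinarith [sq_nonneg ‖z.1‖, sq_nonneg ‖z.2‖]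
    unfold fK
    rw [norm_eq_zero.1 h2, norm_eq_zero.1 h3]
    ring
  · intro k hk he
    apply h
    rw [he, tcf_fK_smul (nrm_nonneg z), tcf_fK_Kn hk, mul_zero]

theorem tcf_ne {z : ℂ × ℂ} (h : z ∈ {z | nrm z ≠ 0 ∧ ∀ k ∈ Kn, z ≠ nrm z • k}) : fK z ≠ 0 := by
  refine fK_ne ?_ h.2
  rintro rfl
  apply h.1
  unfold nrm
  simp

theorem tcf_ne_sph {z : ℂ × ℂ} (h : z ∈ Sph \ Kn) : fK z ≠ 0 := by
  have h1 : nrm z = 1 := h.1
  apply tcf_ne
  refine ⟨by rw [h1]; exact one_ne_zero, ?_⟩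
  intro k hk he
  rw [h1, one_smul] at he
  exact h.2 (he ▸ hk)

theorem tcf_continuous_fK : Continuous fK := by
  unfold fK
  exact (continuous_fst.pow 3).sub ((Complex.continuous_ofReal.comp
    (continuous_nrm.div_const _)).mul (continuous_snd.pow 2))

theorem tcf_ang : AngCont (ang fK) {z | nrm z ≠ 0 ∧ ∀ k ∈ Kn, z ≠ nrm z • k} :=
  angCont_ang (fun _ _ => tcf_continuous_fK.continuousAt) (fun _ hz => tcf_ne hz)

/-- the class `cf` -/
theorem gflat_cf : GFlat cf {z | nrm z ≠ 0 ∧ ∀ k ∈ Kn, z ≠ nrm z • k} := gflat_mint tcf_ang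

/-! ### transports by lifts of the argument -/

theorem tcf_ee_add (s t : ℝ) : ee (s + t) = ee s * ee t := by
  unfold ee
  rw [← Complex.exp_add]
  congr 1
  push_cast
  ring

theorem tcf_ee_int (n : ℤ) : ee n = 1 := by
  unfold ee
  rw [Complex.exp_eq_one_iff]
  exact ⟨n, by push_cast; ring⟩

theorem tcf_ee_zero : ee 0 = 1 := by
  have := tcf_ee_int 0
  simpa using this

theorem tcf_norm_ee (s : ℝ) : ‖ee s‖ = 1 := by
  unfold ee
  rw [show (2 * Real.pi * s * Complex.I : ℂ) = ((2 * Real.pi * s : ℝ) : ℂ) * Complex.I by push_cast; ring]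
  exact Complex.norm_exp_ofReal_mul_I _

theorem tcf_ee_pow (s : ℝ) (n : ℕ) : ee s ^ n = ee (n * s) := by
  unfold ee
  rw [← Complex.exp_nat_mul]
  congr 1
  push_cast
  ring

theorem tcf_continuous_ee : Continuous ee := by
  unfold ee
  fun_prop

theorem tcf_lift {z : ℂ × ℂ} {ρ A : ℝ} (hρ : 0 < ρ) (h : fK z = ρ * ee A) :
    ∃ m : ℤ, A = ang fK z + m := by
  have hpi := Real.pi_pos
  have h1 : ee (ang fK z) * (‖fK z‖ : ℂ) = fK z := by
    unfold ee ang
    have := Complex.norm_mul_exp_arg_mul_I (fK z)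
    rw [mul_comm]
    conv_rhs => rw [← this]
    congr 2
    push_cast
    have : (Real.pi : ℂ) ≠ 0 := by exact_mod_cast hpi.ne'
    field_simp
  have h2 : ‖fK z‖ = ρ := by
    rw [h, norm_mul, tcf_norm_ee, mul_one, Complex.norm_real, Real.norm_eq_abs, abs_of_pos hρ]
  rw [h2] at h1
  have hρ' : (ρ : ℂ) ≠ 0 := by exact_mod_cast hρ.ne'
  have h3 : ee (ang fK z) = ee A := by
    apply mul_right_cancel₀ hρ'
    rw [h1, h]
    ring
  have h4 : ee (A - ang fK z) = 1 := by
    have h5 : ee (A - ang fK z) * ee (ang fK z) = ee A := by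
      rw [← tcf_ee_add]
      congr 1
      ring
    rw [h3] at h5
    have h6 : ee A ≠ 0 := by
      intro h0
      have := tcf_norm_ee A
      rw [h0, norm_zero] at this
      exact zero_ne_one this
    exact mul_right_cancel₀ h6 (by rw [h5, one_mul])
  unfold ee at h4
  rw [Complex.exp_eq_one_iff] at h4
  obtain ⟨m, hm⟩ := h4
  refine ⟨m, ?_⟩
  have h7 : ((A - ang fK z : ℝ) : ℂ) * (2 * Real.pi * Complex.I) = (m : ℂ) * (2 * Real.pi * Complex.I) := by
    rw [← hm]
    push_cast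
    ring
  have h8 : (2 * Real.pi * Complex.I : ℂ) ≠ 0 := by
    have : (Real.pi : ℂ) ≠ 0 := by exact_mod_cast hpi.ne'
    simp [this, Complex.I_ne_zero]
  have h9 := mul_right_cancel₀ h8 h7
  have h10 : A - ang fK z = (m : ℝ) := by exact_mod_cast h9
  linarith

theorem tcf_hasTr {γ : ℝ → ℂ × ℂ} (hγ : ContinuousOn γ (Icc 0 1)) {A ρ : ℝ → ℝ}
    (hA : ContinuousOn A (Icc 0 1)) (hρ : ∀ s ∈ Icc (0:ℝ) 1, 0 < ρ s)
    (h : ∀ s ∈ Icc (0:ℝ) 1, fK (γ s) = ρ s * ee (A s)) (hl : γ 1 = γ 0) (n : ℤ)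
    (hn : A 1 - A 0 = n) : HasTr cf γ (Multiplicative.ofAdd n) := by
  refine hasTr_mint tcf_ang hγ ?_ hA (fun s hs => tcf_lift (hρ s hs) (h s hs)) n hn (by rw [hl])
  intro s hs
  apply tcf_mem
  rw [h s hs]
  have h1 : ee (A s) ≠ 0 := by
    intro h0
    have := tcf_norm_ee (A s)
    rw [h0, norm_zero] at this
    exact zero_ne_one this
  exact mul_ne_zero (by exact_mod_cast (hρ s hs).ne') h1

/-! ### orbits -/

theorem cf_orb {x : ℂ × ℂ} (hx : x ∈ Sph \ Kn) : HasTr cf (orb x) (Multiplicative.ofAdd 6) := by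
  have hne := tcf_ne_sph hx
  have h0 : fK x = (‖fK x‖ : ℝ) * ee (ang fK x) := by
    unfold ee ang
    have := Complex.norm_mul_exp_arg_mul_I (fK x)
    conv_lhs => rw [← this]
    congr 2
    have hpi : (Real.pi : ℂ) ≠ 0 := by exact_mod_cast Real.pi_pos.ne'
    push_cast
    field_simp
  refine tcf_hasTr (A := fun s => 6 * s + ang fK x) (ρ := fun _ => ‖fK x‖) ?_ ?_ ?_ ?_ ?_ 6 ?_
  · exact (continuous_act tcf_continuous_ee continuous_const).continuousOn
  · fun_prop
  · intro s _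
    exact norm_pos_iff.2 hne
  · intro s _
    show fK (act (ee s) x) = _
    rw [tcf_fK_act (tcf_norm_ee s), tcf_ee_pow]
    conv_lhs => rw [h0]
    rw [tcf_ee_add]
    push_cast
    ring
  · show act (ee 1) x = act (ee 0) x
    have : ee 1 = 1 := by
      have := tcf_ee_int 1
      simpa using this
    rw [this, tcf_ee_zero]
  · push_cast
    ring

/-! ### the pair -/

theorem tcf_nrm_one (t : ℝ) : nrm ((Real.cos t : ℂ), (Real.sin t : ℂ) * Complex.I) = 1 := by
  unfold nrm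
  simp only
  rw [norm_mul, Complex.norm_I, mul_one, Complex.norm_real, Complex.norm_real, Real.norm_eq_abs,
    Real.norm_eq_abs, sq_abs, sq_abs, Real.cos_sq_add_sin_sq, Real.sqrt_one]

theorem tcf_fK_quarter {t : ℝ} (h0 : 0 ≤ t) (h1 : t ≤ Real.pi / 2) :
    fK ((Real.cos t : ℂ), (Real.sin t : ℂ) * Complex.I) ≠ 0 := by
  unfold fK
  rw [tcf_nrm_one]
  simp only
  have h2 : ((Real.cos t : ℂ)) ^ 3 - ((1 / Real.sqrt 2 : ℝ) : ℂ) * ((Real.sin t : ℂ) * Complex.I) ^ 2 =
      ((Real.cos t ^ 3 + 1 / Real.sqrt 2 * Real.sin t ^ 2 : ℝ) : ℂ) := by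
    rw [mul_pow, Complex.I_sq]
    push_cast
    ring
  rw [h2]
  have hc : 0 ≤ Real.cos t := Real.cos_nonneg_of_mem_Icc ⟨by linarith [Real.pi_pos], h1⟩
  have hs : 0 ≤ Real.sin t := Real.sin_nonneg_of_nonneg_of_le_pi h0 (by linarith [Real.pi_pos])
  have h3 : 0 < Real.cos t ^ 3 + 1 / Real.sqrt 2 * Real.sin t ^ 2 := by
    rcases hc.eq_or_lt with h4 | h4
    · have h5 := Real.cos_sq_add_sin_sq t
      rw [← h4] at h5 ⊢
      have h6 : Real.sin t ^ 2 = 1 := by linarith
      rw [h6]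
      positivity
    · positivity
  exact_mod_cast h3.ne'

theorem UW_cf : UW cf (Multiplicative.ofAdd 3) (Multiplicative.ofAdd 2) := by
  have hpi := Real.pi_pos
  have hU : HasTr cf loopU (Multiplicative.ofAdd 3) := by
    refine tcf_hasTr (A := fun s => 3 * s) (ρ := fun _ => 1) ?_ ?_ ?_ ?_ ?_ 3 ?_
    · exact (tcf_continuous_ee.prodMk continuous_const).continuousOn
    · fun_prop
    · intro s _
      exact one_pos
    · intro s _
      show fK (ee s, 0) = _
      unfold fK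
      simp only
      rw [tcf_ee_pow]
      push_cast
      ring
    · show (ee 1, (0 : ℂ)) = (ee 0, 0)
      have : ee 1 = 1 := by
        have := tcf_ee_int 1
        simpa using this
      rw [this, tcf_ee_zero]
    · push_cast
      ring
  have hW : HasTr cf loopW (Multiplicative.ofAdd 2) := by
    refine tcf_hasTr (A := fun s => 2 * s) (ρ := fun _ => 1 / Real.sqrt 2) ?_ ?_ ?_ ?_ ?_ 2 ?_
    · exact (continuous_const.prodMk (continuous_const.mul tcf_continuous_ee)).continuousOn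
    · fun_prop
    · intro s _
      positivity
    · intro s _
      have hn : nrm ((0 : ℂ), Complex.I * ee s) = 1 := by
        unfold nrm
        simp only
        rw [norm_mul, Complex.norm_I, tcf_norm_ee, norm_zero]
        norm_num
      show fK (0, Complex.I * ee s) = _
      unfold fK
      rw [hn]
      simp only
      rw [mul_pow, Complex.I_sq, tcf_ee_pow]
      push_cast
      ring
    · show ((0 : ℂ), Complex.I * ee 1) = (0, Complex.I * ee 0)
      have : ee 1 = 1 := by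
        have := tcf_ee_int 1
        simpa using this
      rw [this, tcf_ee_zero]
    · push_cast
      ring
  obtain ⟨p, hp⟩ := exists_hasTr (γ := pU) gflat_cf (by
    apply Continuous.continuousOn
    unfold pU
    fun_prop) (fun s hs => by
    apply tcf_mem
    unfold pU
    exact tcf_fK_quarter (by nlinarith [hs.2]) (by nlinarith [hs.1]))
  obtain ⟨q, hq⟩ := exists_hasTr (γ := pW) gflat_cf (by
    apply Continuous.continuousOn
    unfold pW
    fun_prop) (fun s hs => by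
    apply tcf_mem
    unfold pW
    exact tcf_fK_quarter (by nlinarith [hs.1]) (by nlinarith [hs.2]))
  refine ⟨p, _, q, _, hp, hU, hq, hW, ?_, ?_⟩
  · rw [mul_comm p, mul_assoc, mul_inv_cancel, mul_one]
  · rw [mul_comm q, mul_assoc, mul_inv_cancel, mul_one]

/-! ### meridian and longitude -/

/-- the factor of `fK (sl w)` -/
noncomputable def tcf_g (w : ℂ) : ℂ :=
  (Real.cos (Real.pi / 4 - w.re / 10) ^ 3 : ℝ) * Complex.exp ((w.im / 10 : ℝ) * Complex.I) -
    (1 / Real.sqrt 2 * Real.sin (Real.pi / 4 - w.re / 10) ^ 2 : ℝ)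

theorem tcf_continuous_g : Continuous tcf_g := by
  unfold tcf_g
  have h1 : Continuous fun w : ℂ => Real.cos (Real.pi / 4 - w.re / 10) ^ 3 :=
    (Real.continuous_cos.comp (continuous_const.sub (Complex.continuous_re.div_const _))).pow 3
  have h2 : Continuous fun w : ℂ => 1 / Real.sqrt 2 * Real.sin (Real.pi / 4 - w.re / 10) ^ 2 :=
    continuous_const.mul
      ((Real.continuous_sin.comp (continuous_const.sub (Complex.continuous_re.div_const _))).pow 2)
  have h3 : Continuous fun w : ℂ => w.im / 10 := Complex.continuous_im.div_const _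
  exact ((Complex.continuous_ofReal.comp h1).mul (Complex.continuous_exp.comp
    ((Complex.continuous_ofReal.comp h3).mul continuous_const))).sub (Complex.continuous_ofReal.comp h2)

theorem tcf_fK_sl (w : ℂ) : fK (sl w) = ee (w.im / (10 * Real.pi)) * tcf_g w := by
  have hpi : (Real.pi : ℂ) ≠ 0 := by exact_mod_cast Real.pi_pos.ne'
  have h1 : ee (w.im / (10 * Real.pi)) = Complex.exp ((w.im / 10 : ℝ) * Complex.I) ^ 2 := by
    unfold ee
    rw [← Complex.exp_nat_mul]
    congr 1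
    push_cast
    field_simp
  rw [h1]
  unfold fK
  rw [nrm_sl]
  unfold sl tcf_g
  simp only
  generalize Complex.exp ((w.im / 10 : ℝ) * Complex.I) = E
  push_cast
  ring

theorem tcf_g_im (w : ℂ) : (tcf_g w).im =
    Real.cos (Real.pi / 4 - w.re / 10) ^ 3 * Real.sin (w.im / 10) := by
  unfold tcf_g
  rw [Complex.sub_im, Complex.ofReal_im, sub_zero, Complex.im_ofReal_mul, Complex.exp_ofReal_mul_I_im]

theorem tcf_g_re (w : ℂ) : (tcf_g w).re =
    Real.cos (Real.pi / 4 - w.re / 10) ^ 3 * Real.cos (w.im / 10) -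
      1 / Real.sqrt 2 * Real.sin (Real.pi / 4 - w.re / 10) ^ 2 := by
  unfold tcf_g
  rw [Complex.sub_re, Complex.ofReal_re, Complex.re_ofReal_mul, Complex.exp_ofReal_mul_I_re]

/-- sign of the real part on the real axis -/
theorem tcf_g_real {x : ℝ} (hx : |x| ≤ 1) (hx0 : x ≠ 0) :
    0 < (Real.cos (Real.pi / 4 - x / 10) ^ 3 - 1 / Real.sqrt 2 * Real.sin (Real.pi / 4 - x / 10) ^ 2) * x := by
  have hpi := Real.pi_gt_three
  obtain ⟨h1, h2⟩ := abs_le.1 hx
  have hc0 := cos_pos' hx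
  have hs0 := sin_pos' hx
  have hs2 : (0 : ℝ) < 1 / Real.sqrt 2 := by positivity
  have h4 : (1 / Real.sqrt 2) * (1 / Real.sqrt 2) ^ 2 = (1 / Real.sqrt 2) ^ 3 := by ring
  rcases lt_or_gt_of_ne hx0 with h | h
  · have hc : Real.cos (Real.pi / 4 - x / 10) < 1 / Real.sqrt 2 := by
      rw [← tcf_c4]
      exact Real.cos_lt_cos_of_nonneg_of_le_pi (by linarith) (by linarith) (by linarith)
    have hs : 1 / Real.sqrt 2 < Real.sin (Real.pi / 4 - x / 10) := by
      rw [← tcf_s4]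
      exact Real.sin_lt_sin_of_lt_of_le_pi_div_two (by linarith) (by linarith) (by linarith)
    have e1 : Real.cos (Real.pi / 4 - x / 10) ^ 3 < (1 / Real.sqrt 2) ^ 3 :=
      pow_lt_pow_left₀ hc hc0.le (by norm_num)
    have e2 : (1 / Real.sqrt 2) ^ 2 < Real.sin (Real.pi / 4 - x / 10) ^ 2 :=
      pow_lt_pow_left₀ hs hs2.le (by norm_num)
    have e3 := mul_lt_mul_of_pos_left e2 hs2
    exact mul_pos_of_neg_of_neg (by linarith) h
  · have hc : 1 / Real.sqrt 2 < Real.cos (Real.pi / 4 - x / 10) := by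
      rw [← tcf_c4]
      exact Real.cos_lt_cos_of_nonneg_of_le_pi (by linarith) (by linarith) (by linarith)
    have hs : Real.sin (Real.pi / 4 - x / 10) < 1 / Real.sqrt 2 := by
      rw [← tcf_s4]
      exact Real.sin_lt_sin_of_lt_of_le_pi_div_two (by linarith) (by linarith) (by linarith)
    have e1 : (1 / Real.sqrt 2) ^ 3 < Real.cos (Real.pi / 4 - x / 10) ^ 3 :=
      pow_lt_pow_left₀ hc hs2.le (by norm_num)
    have e2 : Real.sin (Real.pi / 4 - x / 10) ^ 2 < (1 / Real.sqrt 2) ^ 2 :=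
      pow_lt_pow_left₀ hs hs0.le (by norm_num)
    have e3 := mul_lt_mul_of_pos_left e2 hs2
    exact mul_pos (by linarith) h

/-- `g w` is never a negative multiple of `w` -/
theorem tcf_slit {w : ℂ} (hw : ‖w‖ ≤ 1) (hw0 : w ≠ 0) : tcf_g w * starRingEnd ℂ w ∈ Complex.slitPlane := by
  have h1 := (Complex.abs_re_le_norm w).trans hw
  have h2 := (Complex.abs_im_le_norm w).trans hw
  have hc := cos_pos' h1
  obtain ⟨h3, h4⟩ := abs_le.1 h2
  have hpi := Real.pi_gt_three
  rw [Complex.mem_slitPlane_iff]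
  have hre : (tcf_g w * starRingEnd ℂ w).re = (tcf_g w).re * w.re + (tcf_g w).im * w.im := by
    rw [Complex.mul_re, Complex.conj_re, Complex.conj_im]
    ring
  have him : (tcf_g w * starRingEnd ℂ w).im = (tcf_g w).im * w.re - (tcf_g w).re * w.im := by
    rw [Complex.mul_im, Complex.conj_re, Complex.conj_im]
    ring
  rw [hre, him]
  by_cases hy : w.im = 0
  · left
    have hx0 : w.re ≠ 0 := by
      intro h
      exact hw0 (Complex.ext h hy)
    rw [hy, mul_zero, add_zero, tcf_g_re, hy, zero_div, Real.cos_zero, mul_one]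
    exact tcf_g_real h1 hx0
  · -- the imaginary part of `g` has the sign of the imaginary part of `w`
    have hs : 0 < (tcf_g w).im * w.im := by
      rw [tcf_g_im]
      rcases lt_or_gt_of_ne hy with h | h
      · have : Real.sin (w.im / 10) < 0 := Real.sin_neg_of_neg_of_neg_pi_lt (by linarith) (by linarith)
        exact mul_pos_of_neg_of_neg (mul_neg_of_pos_of_neg (pow_pos hc 3) this) h
      · have : 0 < Real.sin (w.im / 10) := Real.sin_pos_of_pos_of_lt_pi (by linarith) (by linarith)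
        exact mul_pos (mul_pos (pow_pos hc 3) this) h
    by_contra hcon
    push Not at hcon
    obtain ⟨hcon1, hcon2⟩ := hcon
    -- `im = 0` and `re ≤ 0`: then `g w * |w|² = (g w * conj w) * w`
    have hk : (tcf_g w).im * (w.re ^ 2 + w.im ^ 2) =
        ((tcf_g w).re * w.re + (tcf_g w).im * w.im) * w.im +
          ((tcf_g w).im * w.re - (tcf_g w).re * w.im) * w.re := by ring
    rw [hcon2, zero_mul, add_zero] at hk
    have h5 : (tcf_g w).im * w.im * (w.re ^ 2 + w.im ^ 2) =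
        ((tcf_g w).re * w.re + (tcf_g w).im * w.im) * w.im ^ 2 := by
      calc (tcf_g w).im * w.im * (w.re ^ 2 + w.im ^ 2) =
          ((tcf_g w).im * (w.re ^ 2 + w.im ^ 2)) * w.im := by ring
        _ = _ := by rw [hk]; ring
    have hi2 : 0 < w.im ^ 2 := by positivity
    have h6 : 0 < (tcf_g w).im * w.im * (w.re ^ 2 + w.im ^ 2) := by
      refine mul_pos hs ?_
      nlinarith [sq_nonneg w.re]
    rw [h5] at h6
    nlinarith [mul_nonneg (sub_nonneg.2 hcon1) hi2.le]

/-- argument of `fK (sl w)` for `w = r e^{2 π i θ}` -/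
theorem tcf_sl_arg {r : ℝ} (hr : 0 < r) (hr1 : r ≤ 1) (θ : ℝ) :
    fK (sl ((r : ℂ) * ee θ)) = (‖tcf_g ((r : ℂ) * ee θ) * starRingEnd ℂ ((r : ℂ) * ee θ)‖ / r : ℝ) *
      ee (((r : ℂ) * ee θ).im / (10 * Real.pi) +
        Complex.arg (tcf_g ((r : ℂ) * ee θ) * starRingEnd ℂ ((r : ℂ) * ee θ)) / (2 * Real.pi) + θ) := by
  set w : ℂ := (r : ℂ) * ee θ with hw
  have hr' : (r : ℂ) ≠ 0 := by exact_mod_cast hr.ne'
  have h1 : ee (Complex.arg (tcf_g w * starRingEnd ℂ w) / (2 * Real.pi)) *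
      (‖tcf_g w * starRingEnd ℂ w‖ : ℂ) = tcf_g w * starRingEnd ℂ w := by
    unfold ee
    have h2 := Complex.norm_mul_exp_arg_mul_I (tcf_g w * starRingEnd ℂ w)
    rw [mul_comm]
    conv_rhs => rw [← h2]
    congr 2
    have hpi : (Real.pi : ℂ) ≠ 0 := by exact_mod_cast Real.pi_pos.ne'
    push_cast
    field_simp
  have h3 : starRingEnd ℂ (ee θ) * ee θ = 1 := conj_mul_self (tcf_norm_ee θ)
  have h4 : starRingEnd ℂ w = (r : ℂ) * starRingEnd ℂ (ee θ) := by
    rw [hw, map_mul, Complex.conj_ofReal]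
  rw [tcf_fK_sl, tcf_ee_add, tcf_ee_add]
  have h5 : ((‖tcf_g w * starRingEnd ℂ w‖ / r : ℝ) : ℂ) *
      (ee (w.im / (10 * Real.pi)) * ee (Complex.arg (tcf_g w * starRingEnd ℂ w) / (2 * Real.pi)) * ee θ) =
      ee (w.im / (10 * Real.pi)) * (ee (Complex.arg (tcf_g w * starRingEnd ℂ w) / (2 * Real.pi)) *
      (‖tcf_g w * starRingEnd ℂ w‖ : ℂ)) * ee θ / r := by
    push_cast
    ring
  rw [h5, h1, h4]
  field_simp
  rw [mul_assoc (ee (w.im / (10 * Real.pi)) * tcf_g w) _ (ee θ), h3, mul_one]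

theorem tcf_w {r : ℝ} (hr : 0 < r) (hr1 : r ≤ 1) (θ : ℝ) : ‖(r : ℂ) * ee θ‖ ≤ 1 ∧ (r : ℂ) * ee θ ≠ 0 := by
  have h : ‖(r : ℂ) * ee θ‖ = r := by
    rw [norm_mul, tcf_norm_ee, mul_one, Complex.norm_real, Real.norm_eq_abs, abs_of_pos hr]
  refine ⟨by rw [h]; exact hr1, ?_⟩
  intro h0
  rw [h0, norm_zero] at h
  exact hr.ne h

theorem tcf_cont_arg {r : ℝ} (hr : 0 < r) (hr1 : r ≤ 1) : Continuous fun θ : ℝ =>
    ((r : ℂ) * ee θ).im / (10 * Real.pi) +
        Complex.arg (tcf_g ((r : ℂ) * ee θ) * starRingEnd ℂ ((r : ℂ) * ee θ)) / (2 * Real.pi) := by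
  have h0 : Continuous fun θ : ℝ => (r : ℂ) * ee θ := continuous_const.mul tcf_continuous_ee
  refine ((Complex.continuous_im.comp h0).div_const _).add (Continuous.div_const ?_ _)
  rw [continuous_iff_continuousAt]
  intro θ
  have h1 : Continuous fun θ : ℝ => tcf_g ((r : ℂ) * ee θ) * starRingEnd ℂ ((r : ℂ) * ee θ) :=
    (tcf_continuous_g.comp h0).mul (Complex.continuous_conj.comp h0)
  exact (Complex.continuousAt_arg (tcf_slit (tcf_w hr hr1 θ).1 (tcf_w hr hr1 θ).2)).comp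
    (f := fun θ : ℝ => tcf_g ((r : ℂ) * ee θ) * starRingEnd ℂ ((r : ℂ) * ee θ)) h1.continuousAt

theorem tcf_pos {r : ℝ} (hr : 0 < r) (hr1 : r ≤ 1) (θ : ℝ) :
    0 < ‖tcf_g ((r : ℂ) * ee θ) * starRingEnd ℂ ((r : ℂ) * ee θ)‖ / r := by
  refine div_pos (norm_pos_iff.2 ?_) hr
  exact Complex.slitPlane_ne_zero (tcf_slit (tcf_w hr hr1 θ).1 (tcf_w hr hr1 θ).2)

theorem tcf_ee_add_int (θ : ℝ) (n : ℤ) : ee (θ + n) = ee θ := by
  rw [tcf_ee_add, tcf_ee_int, mul_one]

theorem cf_merE {r : ℝ} (hr : 0 < r) (hr1 : r ≤ 1) : HasTr cf (merE r) (Multiplicative.ofAdd 1) := by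
  have hE : ∀ s, merE r s = sl ((r : ℂ) * ee s) := by
    intro s
    unfold merE eV act
    simp
  have e1 : ee 1 = ee 0 := by
    have := tcf_ee_add_int 0 1
    simpa using this
  refine tcf_hasTr
    (A := fun s => ((r : ℂ) * ee s).im / (10 * Real.pi) +
        Complex.arg (tcf_g ((r : ℂ) * ee s) * starRingEnd ℂ ((r : ℂ) * ee s)) / (2 * Real.pi) + s)
    (ρ := fun s => ‖tcf_g ((r : ℂ) * ee s) * starRingEnd ℂ ((r : ℂ) * ee s)‖ / r) ?_ ?_ ?_ ?_ ?_ 1 ?_
  · apply Continuous.continuousOn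
    have : merE r = fun s => sl ((r : ℂ) * ee s) := funext hE
    rw [this]
    exact continuous_sl.comp (continuous_const.mul tcf_continuous_ee)
  · exact ((tcf_cont_arg hr hr1).add continuous_id).continuousOn
  · intro s _
    exact tcf_pos hr hr1 s
  · intro s _
    rw [hE]
    exact tcf_sl_arg hr hr1 s
  · rw [hE, hE, e1]
  · simp only [e1]
    push_cast
    ring

theorem cf_lonE {r : ℝ} (hr : 0 < r) (hr1 : r ≤ 1) : HasTr cf (lonE r) 1 := by
  have hconj : ∀ s : ℝ, (starRingEnd ℂ (ee s)) ^ 6 = ee (-6 * s) := by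
    intro s
    have h1 : starRingEnd ℂ (ee s) = ee (-s) := by
      have h2 : ee (-s) * ee s = 1 := by
        rw [← tcf_ee_add, neg_add_cancel, tcf_ee_zero]
      have h3 := conj_mul_self (tcf_norm_ee s)
      have h4 : ee s ≠ 0 := by
        intro h0
        have := tcf_norm_ee s
        rw [h0, norm_zero] at this
        exact zero_ne_one this
      exact mul_right_cancel₀ h4 (h3.trans h2.symm)
    rw [h1, tcf_ee_pow]
    congr 1
    push_cast
    ring
  have hE : ∀ s, lonE r s = act (ee s) (sl ((r : ℂ) * ee (-6 * s))) := by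
    intro s
    unfold lonE eV
    simp only
    rw [hconj, mul_comm]
  have e1 : ee 1 = ee 0 := by
    have := tcf_ee_add_int 0 1
    simpa using this
  have e6 : ee (-6 * 1) = ee (-6 * 0) := by
    have := tcf_ee_add_int 0 (-6)
    simpa using this
  have key := tcf_hasTr (γ := lonE r)
    (A := fun s => (((r : ℂ) * ee (-6 * s)).im / (10 * Real.pi) +
        Complex.arg (tcf_g ((r : ℂ) * ee (-6 * s)) * starRingEnd ℂ ((r : ℂ) * ee (-6 * s))) / (2 * Real.pi)))
    (ρ := fun s => ‖tcf_g ((r : ℂ) * ee (-6 * s)) * starRingEnd ℂ ((r : ℂ) * ee (-6 * s))‖ / r)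
    ?_ ?_ ?_ ?_ ?_ 0 ?_
  · exact key
  · apply Continuous.continuousOn
    have : lonE r = fun s => act (ee s) (sl ((r : ℂ) * ee (-6 * s))) := funext hE
    rw [this]
    exact continuous_act tcf_continuous_ee (continuous_sl.comp (continuous_const.mul
      (tcf_continuous_ee.comp (continuous_const.mul continuous_id))))
  · exact ((tcf_cont_arg hr hr1).comp (continuous_const.mul continuous_id)).continuousOn
  · intro s _
    exact tcf_pos hr hr1 _
  · intro s _
    rw [hE, tcf_fK_act (tcf_norm_ee s), tcf_sl_arg hr hr1, tcf_ee_pow, tcf_ee_add _ (-6 * s)]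
    have h6 : ee ((6 : ℕ) * s) * ee (-6 * s) = 1 := by
      rw [← tcf_ee_add]
      have : ((6 : ℕ) : ℝ) * s + -6 * s = 0 := by push_cast; ring
      rw [this, tcf_ee_zero]
    set B := ee (((r : ℂ) * ee (-6 * s)).im / (10 * Real.pi) +
        Complex.arg (tcf_g ((r : ℂ) * ee (-6 * s)) * starRingEnd ℂ ((r : ℂ) * ee (-6 * s))) / (2 * Real.pi)) with hB
    rw [show ee ((6 : ℕ) * s) * (((‖tcf_g ((r : ℂ) * ee (-6 * s)) *
        starRingEnd ℂ ((r : ℂ) * ee (-6 * s))‖ / r : ℝ) : ℂ) * (B * ee (-6 * s))) =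
        ((‖tcf_g ((r : ℂ) * ee (-6 * s)) *
        starRingEnd ℂ ((r : ℂ) * ee (-6 * s))‖ / r : ℝ) : ℂ) * B * (ee ((6 : ℕ) * s) * ee (-6 * s)) by ring,
      h6, mul_one]
  · rw [hE, hE, e1, e6]
  · simp only [e6]
    push_cast
    ring

end Pool.Agent.Helper60.Geo
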