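import Pool.Agent.Helper60.Geo.TrefC447
import Pool.Agent.Helper60.Geo.TrefCf

/-! The trefoil exterior: flat functions with the same pair `(U, W)` are gauge equivalent, every pair
with `U² = W³` occurs, `H¹(Ex; ℤ) = ℤ cf`. -/

set_option autoImplicit false

namespace Pool.Agent.Helper60.Geo

open Set AS

namespace TB

variable {G : Type*} [Group G] {T T' : ℂ × ℂ → ℂ × ℂ → G}

/-! ### generalities -/

/-- gauges which agree at a point agree nearby -/
theorem near_eq {Ω : Type*} [PseudoMetricSpace Ω] {T T' : Ω → Ω → G} {S₁ S₂ : Set Ω}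
    {u₁ u₂ : Ω → G} (h1 : GaugeBy T T' S₁ u₁) (h2 : GaugeBy T T' S₂ u₂) {a : Ω} (ha : a ∈ S₁)
    (ha' : a ∈ S₂) (h : u₁ a = u₂ a) : ∃ ε > 0, ∀ x, dist x a < ε → u₁ x = u₂ x := by
  obtain ⟨e, he, k1⟩ := h1 a ha
  obtain ⟨e', he', k2⟩ := h2 a ha'
  refine ⟨min e e', lt_min he he', fun x hx => ?_⟩
  have e1 := k1 x a (hx.trans_le (min_le_left _ _)) (by simpa using he)
  have e2 := k2 x a (hx.trans_le (min_le_right _ _)) (by simpa using he')
  rw [e1, h] at e2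
  exact inv_injective (mul_right_cancel (mul_right_cancel e2))

theorem hasTr_zpow {a : ℂ × ℂ → ℝ} {γ : ℝ → ℂ × ℂ} {n : ℤ}
    (h : HasTr (mint a) γ (Multiplicative.ofAdd n)) (g : G) :
    HasTr (fun x y => g ^ cint a x y) γ (g ^ n) := by
  have := h.map (zpowersHom G g)
  simpa [mint] using this

theorem hasTr_zero {a : ℂ × ℂ → ℝ} {γ : ℝ → ℂ × ℂ}
    (h : ∀ s ∈ Icc (0:ℝ) 1, a (γ s) = 0) (g : G) :
    HasTr (fun x y => g ^ cint a x y) γ 1 := by
  refine ⟨fun _ => 1, rfl, rfl, fun s hs => ⟨1, one_pos, fun t ht t' ht' _ _ => ?_⟩⟩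
  show g ^ cint a (γ t) (γ t') = _
  unfold cint
  rw [h t ht, h t' ht', sub_self]
  simp

theorem lift {f : ℂ × ℂ → ℂ} {z : ℂ × ℂ} {ρ A : ℝ} (hρ : 0 < ρ) (h : f z = ρ * ee A) :
    ∃ m : ℤ, A = ang f z + m := by
  have hρ' : (ρ : ℂ) ≠ 0 := by exact_mod_cast hρ.ne'
  have hee : ee A ≠ 0 := by
    rw [← norm_ne_zero_iff, TC.norm_ee]; exact one_ne_zero
  have hne : f z ≠ 0 := by
    rw [h]; exact mul_ne_zero hρ' hee
  have hn : ‖f z‖ = ρ := by
    rw [h, norm_mul, TC.norm_ee, mul_one, Complex.norm_real, Real.norm_of_nonneg hρ.le]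
  have h1 := TC.ee_ang hne
  rw [hn, h, mul_div_cancel_left₀ _ hρ'] at h1
  have h3 : ee (A - ang f z) = 1 := by
    have h4 : ee (A - ang f z) * ee (ang f z) = ee A := by
      rw [← TC.ee_add]; congr 1; ring
    rw [h1] at h4
    exact mul_right_cancel₀ hee (by rw [h4, one_mul])
  obtain ⟨n, hn⟩ := TC.ee_eq_one h3
  exact ⟨n, by linarith⟩

/-- transport of the class of `f` along a path with a lift of the argument -/
theorem hasTr_lift {f : ℂ × ℂ → ℂ} (hf : Continuous f) {γ : ℝ → ℂ × ℂ} (hγ : ContinuousOn γ (Icc 0 1))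
    {A ρ : ℝ → ℝ} (hA : ContinuousOn A (Icc 0 1)) (hρ : ∀ s ∈ Icc (0:ℝ) 1, 0 < ρ s)
    (h : ∀ s ∈ Icc (0:ℝ) 1, f (γ s) = ρ s * ee (A s)) (hl : γ 1 = γ 0) (n : ℤ)
    (hn : A 1 - A 0 = n) : HasTr (mint (ang f)) γ (Multiplicative.ofAdd n) := by
  refine hasTr_mint (S := {z | f z ≠ 0}) (angCont_ang (fun _ _ => hf.continuousAt) fun _ h => h) hγ ?_ hA
    (fun s hs => lift (hρ s hs) (h s hs)) n hn (by rw [hl])
  intro s hs
  show f (γ s) ≠ 0
  rw [h s hs]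
  refine mul_ne_zero (by exact_mod_cast (hρ s hs).ne') ?_
  rw [← norm_ne_zero_iff, TC.norm_ee]
  exact one_ne_zero

/-- one side -/
theorem side {Y : Set (ℂ × ℂ)} {a : ℂ × ℂ → ℝ} {P L : ℝ → ℂ × ℂ} {p g : G}
    (hT : GaugeEq T (fun x y => g ^ cint a x y) Y) (cP : ContinuousOn P (Icc 0 1))
    (cL : ContinuousOn L (Icc 0 1)) (mP : ∀ s ∈ Icc (0:ℝ) 1, P s ∈ Y)
    (mL : ∀ s ∈ Icc (0:ℝ) 1, L s ∈ Y) (h1 : P 1 = L 0) (h2 : L 1 = L 0)
    (hp : HasTr T P p) (hg : HasTr T L g) (hp' : HasTr (fun x y => g ^ cint a x y) P 1)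
    (hg' : HasTr (fun x y => g ^ cint a x y) L g) :
    ∃ v, GaugeBy T (fun x y => (p * g * p⁻¹) ^ cint a x y) Y v ∧ v (P 0) = 1 := by
  obtain ⟨v, hv⟩ := hT
  set c := v (P 1) with hc
  have k1 := HasTr.unique hp' (hp.gauge hv cP mP)
  have k2 := HasTr.unique hg' (hg.gauge hv cL mL)
  rw [h2, ← h1, ← hc] at k2
  rw [← hc] at k1
  have k3 : v (P 0) = p * c := by
    have : v (P 0) * 1 = v (P 0) * ((v (P 0))⁻¹ * p * c) := by rw [← k1]
    rw [mul_one] at this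
    rw [this]; group
  have k4 : c * g = g * c := by
    have : c * g = c * (c⁻¹ * g * c) := by rw [← k2]
    rw [this]; group
  refine ⟨fun x => v x * c⁻¹ * p⁻¹, ?_, ?_⟩
  · intro b hb
    obtain ⟨e, he, h⟩ := hv b hb
    refine ⟨e, he, fun x y hx hy => ?_⟩
    have h5 := h x y hx hy
    have h6 : (v x * c⁻¹ * p⁻¹)⁻¹ * T x y * (v y * c⁻¹ * p⁻¹) =
        p * (c * ((v x)⁻¹ * T x y * v y) * c⁻¹) * p⁻¹ := by group
    rw [h6, ← h5]
    show (p * g * p⁻¹) ^ cint a x y = p * (c * g ^ cint a x y * c⁻¹) * p⁻¹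
    have h7 : Commute c (g ^ cint a x y) := Commute.zpow_right k4 _
    rw [conj_zpow, h7.eq]; group
  · show v (P 0) * c⁻¹ * p⁻¹ = 1
    rw [k3]; group

/-! ### the two solid tori -/

open Classical in
/-- deformation of `|z₂| ≤ |z₁|` onto the circle `z₂ = 0` -/
noncomputable def Ku (s : ℝ) (z : ℂ × ℂ) : ℂ × ℂ :=
  if z.1 ≠ 0 then ((1 - s) * nrm z + s) • TC.scl 1 (1 - s) z else if s = 0 then z else (1, 0)

open Classical in
/-- deformation of `|z₁| ≤ |z₂|` onto the circle `z₁ = 0` -/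
noncomputable def Kv (s : ℝ) (z : ℂ × ℂ) : ℂ × ℂ :=
  if z.2 ≠ 0 then ((1 - s) * nrm z + s) • TC.scl (1 - s) 1 z else if s = 0 then z else (0, Complex.I)

/-- the second angle -/
noncomputable def f2 (z : ℂ × ℂ) : ℂ := -Complex.I * z.2

theorem ang_zero {f : ℂ × ℂ → ℂ} {z : ℂ × ℂ} (h : f z = 0) : ang f z = 0 := by
  unfold ang
  rw [h]; simp

theorem smul_scl {z : ℂ × ℂ} (h : z.1 ≠ 0 ∨ z.2 ≠ 0) : nrm z • TC.scl 1 1 z = z := by
  unfold TC.scl
  simp only [Complex.ofReal_one, one_mul]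
  rw [show ((z.1, z.2) : ℂ × ℂ) = z from rfl, smul_smul, mul_inv_cancel₀ (TC.nrm_pos' h).ne', one_smul]

theorem Ku_zero (z : ℂ × ℂ) : Ku 0 z = z := by
  unfold Ku
  split_ifs with h h'
  · rw [sub_zero, one_mul, add_zero]
    exact smul_scl (Or.inl h)
  · rfl
  · exact absurd rfl h'

theorem Kv_zero (z : ℂ × ℂ) : Kv 0 z = z := by
  unfold Kv
  split_ifs with h h'
  · rw [sub_zero, one_mul, add_zero]
    exact smul_scl (Or.inr h)
  · rfl
  · exact absurd rfl h'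

theorem Ku_one (z : ℂ × ℂ) : Ku 1 z = loopU (ang Prod.fst z) := by
  unfold Ku loopU
  split_ifs with h h'
  · rw [TC.ee_ang (f := Prod.fst) h]
    unfold TC.scl
    simp only [sub_self, zero_mul, zero_add, one_smul, Complex.ofReal_one, one_mul, Complex.ofReal_zero]
    rw [TC.nrm_left]
    ext
    · simp only [Prod.smul_fst, Complex.real_smul]
      push_cast
      rw [div_eq_inv_mul]
    · simp
  · exact absurd h' one_ne_zero
  · have h0 : z.1 = 0 := not_not.1 h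
    rw [ang_zero (f := Prod.fst) h0, TC.ee_zero]

theorem Kv_one (z : ℂ × ℂ) : Kv 1 z = loopW (ang f2 z) := by
  unfold Kv loopW
  split_ifs with h h'
  · have h2 : f2 z ≠ 0 := mul_ne_zero (neg_ne_zero.2 Complex.I_ne_zero) h
    have hn : ‖f2 z‖ = ‖z.2‖ := by
      unfold f2; rw [norm_mul, norm_neg, Complex.norm_I, one_mul]
    rw [TC.ee_ang h2, hn]
    unfold TC.scl
    simp only [sub_self, zero_mul, zero_add, one_smul, Complex.ofReal_one, one_mul, Complex.ofReal_zero]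
    rw [TC.nrm_right]
    ext
    · simp
    · simp only [Prod.smul_snd, Complex.real_smul]
      unfold f2
      push_cast
      rw [div_eq_inv_mul]
      linear_combination ((‖z.2‖ : ℂ)⁻¹ * z.2) * Complex.I_mul_I
  · exact absurd h' one_ne_zero
  · have h0 : f2 z = 0 := by
      unfold f2; rw [not_not.1 h, mul_zero]
    rw [ang_zero h0, TC.ee_zero, mul_one]

theorem Ku_cont {s : ℝ} {z : ℂ × ℂ} (h : z.1 ≠ 0) :
    ContinuousAt (fun p : ℝ × (ℂ × ℂ) => Ku p.1 p.2) (s, z) := by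
  have hS : ∀ p ∈ {p : ℝ × (ℂ × ℂ) | p.2.1 ≠ 0},
      (((1:ℝ) : ℂ) * p.2.1 ≠ 0) ∨ (((1 - p.1 : ℝ) : ℂ) * p.2.2 ≠ 0) := by
    intro p hp
    left
    rw [Complex.ofReal_one, one_mul]; exact hp
  have h1 : ContinuousAt (fun p : ℝ × (ℂ × ℂ) => TC.scl 1 (1 - p.1) p.2) (s, z) := by
    refine (TC.scl_cont (a := fun _ => 1) (b := fun s => 1 - s) continuous_const (by fun_prop) hS).continuousAt ?_
    refine IsOpen.mem_nhds ?_ h
    exact isOpen_ne_fun (by fun_prop) continuous_const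
  have h2 : ContinuousAt (fun p : ℝ × (ℂ × ℂ) => ((1 - p.1) * nrm p.2 + p.1) • TC.scl 1 (1 - p.1) p.2) (s, z) := by
    have h3 : ContinuousAt (fun p : ℝ × (ℂ × ℂ) => (1 - p.1) * nrm p.2 + p.1) (s, z) :=
      (((continuous_const.sub continuous_fst).mul (continuous_nrm.comp continuous_snd)).add
        continuous_fst).continuousAt
    exact h3.smul h1
  refine h2.congr ?_
  have e1 : ∀ᶠ p : ℝ × (ℂ × ℂ) in nhds (s, z), p.2.1 ≠ 0 :=
    (continuous_fst.comp continuous_snd).continuousAt.eventually_ne h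
  filter_upwards [e1] with p hp
  unfold Ku
  rw [if_pos hp]

theorem Kv_cont {s : ℝ} {z : ℂ × ℂ} (h : z.2 ≠ 0) :
    ContinuousAt (fun p : ℝ × (ℂ × ℂ) => Kv p.1 p.2) (s, z) := by
  have hS : ∀ p ∈ {p : ℝ × (ℂ × ℂ) | p.2.2 ≠ 0},
      (((1 - p.1 : ℝ) : ℂ) * p.2.1 ≠ 0) ∨ (((1:ℝ) : ℂ) * p.2.2 ≠ 0) := by
    intro p hp
    right
    rw [Complex.ofReal_one, one_mul]; exact hp
  have h1 : ContinuousAt (fun p : ℝ × (ℂ × ℂ) => TC.scl (1 - p.1) 1 p.2) (s, z) := by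
    refine (TC.scl_cont (a := fun s => 1 - s) (b := fun _ => 1) (by fun_prop) continuous_const hS).continuousAt ?_
    refine IsOpen.mem_nhds ?_ h
    exact isOpen_ne_fun (by fun_prop) continuous_const
  have h2 : ContinuousAt (fun p : ℝ × (ℂ × ℂ) => ((1 - p.1) * nrm p.2 + p.1) • TC.scl (1 - p.1) 1 p.2) (s, z) := by
    have h3 : ContinuousAt (fun p : ℝ × (ℂ × ℂ) => (1 - p.1) * nrm p.2 + p.1) (s, z) :=
      (((continuous_const.sub continuous_fst).mul (continuous_nrm.comp continuous_snd)).add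
        continuous_fst).continuousAt
    exact h3.smul h1
  refine h2.congr ?_
  have e1 : ∀ᶠ p : ℝ × (ℂ × ℂ) in nhds (s, z), p.2.2 ≠ 0 :=
    (continuous_snd.comp continuous_snd).continuousAt.eventually_ne h
  filter_upwards [e1] with p hp
  unfold Kv
  rw [if_pos hp]

theorem Ku_mem {s : ℝ} (hs : s ∈ Icc (0:ℝ) 1) {z : ℂ × ℂ} (hz : z ∈ TC.Yu 1) : Ku s z ∈ Ex := by
  have n1 := TC.Yu_ne hz
  have h1 : nrm z = 1 := hz.1.1
  unfold Ku
  rw [if_pos n1, h1, mul_one, sub_add_cancel, one_smul]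
  exact TC.scl_mem le_rfl hz.1 zero_le_one (by linarith [hs.2])
    (Or.inl (by rw [Complex.ofReal_one, one_mul]; exact n1)) (Or.inl ⟨hz.2, by linarith [hs.1]⟩)

theorem Kv_mem {s : ℝ} (hs : s ∈ Icc (0:ℝ) 1) {z : ℂ × ℂ} (hz : z ∈ TC.Yv 1) : Kv s z ∈ Ex := by
  have n1 := TC.Yv_ne hz
  have h1 : nrm z = 1 := hz.1.1
  unfold Kv
  rw [if_pos n1, h1, mul_one, sub_add_cancel, one_smul]
  exact TC.scl_mem le_rfl hz.1 (by linarith [hs.2]) zero_le_one
    (Or.inr (by rw [Complex.ofReal_one, one_mul]; exact n1)) (Or.inr ⟨hz.2, by linarith [hs.1]⟩)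

theorem loopU_cont : Continuous loopU := TC.continuous_ee.prodMk continuous_const
theorem loopW_cont : Continuous loopW := continuous_const.prodMk (continuous_const.mul TC.continuous_ee)

theorem loopU_mem (s : ℝ) : loopU s ∈ TC.Yu 1 := TC.circ_sub le_rfl ⟨TC.norm_ee s, rfl⟩
theorem loopW_mem (s : ℝ) : loopW s ∈ TC.Yv 1 := TC.circ'_sub le_rfl ⟨rfl, by
  show ‖Complex.I * ee s‖ = 1
  rw [norm_mul, Complex.norm_I, TC.norm_ee, mul_one]⟩

theorem pU_cont : Continuous pU := by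
  unfold pU
  refine Continuous.prodMk ?_ (Continuous.mul ?_ continuous_const)
  · exact Complex.continuous_ofReal.comp (Real.continuous_cos.comp (by fun_prop))
  · exact Complex.continuous_ofReal.comp (Real.continuous_sin.comp (by fun_prop))

theorem pW_cont : Continuous pW := by
  unfold pW
  refine Continuous.prodMk ?_ (Continuous.mul ?_ continuous_const)
  · exact Complex.continuous_ofReal.comp (Real.continuous_cos.comp (by fun_prop))
  · exact Complex.continuous_ofReal.comp (Real.continuous_sin.comp (by fun_prop))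

/-- points of the quarter circle -/
theorem quarter_mem {t : ℝ} (h0 : 0 ≤ t) (h1 : t ≤ Real.pi / 2) :
    ((Real.cos t : ℂ), (Real.sin t : ℂ) * Complex.I) ∈ Ex := by
  have hpi := Real.pi_gt_three
  refine (TC.mem_Exr le_rfl).2 ⟨tcf_nrm_one t, fun n1 n2 => ?_⟩
  have hc : 0 < Real.cos t := by
    have h : 0 ≤ Real.cos t := Real.cos_nonneg_of_mem_Icc ⟨by linarith, h1⟩
    refine lt_of_le_of_ne h (fun h' => n1 ?_)
    show ((Real.cos t : ℝ) : ℂ) = 0
    rw [← h', Complex.ofReal_zero]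
  have hs : 0 < Real.sin t := by
    have h : 0 ≤ Real.sin t := Real.sin_nonneg_of_nonneg_of_le_pi h0 (by linarith)
    refine lt_of_le_of_ne h (fun h' => n2 ?_)
    show ((Real.sin t : ℝ) : ℂ) * Complex.I = 0
    rw [← h', Complex.ofReal_zero, zero_mul]
  set z : ℂ × ℂ := ((Real.cos t : ℂ), (Real.sin t : ℂ) * Complex.I) with hz
  have hc' : (Real.cos t : ℂ) ≠ 0 := by exact_mod_cast hc.ne'
  have hs' : (Real.sin t : ℂ) ≠ 0 := by exact_mod_cast hs.ne'
  have hU : eU z = Complex.I := by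
    unfold eU
    simp only [hz]
    rw [norm_mul, Complex.norm_I, mul_one, Complex.norm_real, Complex.norm_real, Real.norm_of_nonneg hc.le,
      Real.norm_of_nonneg hs.le, Complex.conj_ofReal]
    push_cast
    have hc2 : Complex.cos (t : ℂ) ≠ 0 := by rw [← Complex.ofReal_cos]; exact hc'
    have hs2 : Complex.sin (t : ℂ) ≠ 0 := by rw [← Complex.ofReal_sin]; exact hs'
    field_simp
  have h2 : (eW z).im = 10 * Real.pi := by
    show 10 * Complex.arg (z.1 / eU z ^ 2) = 10 * Real.pi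
    rw [hU, Complex.I_sq]
    have : z.1 / (-1 : ℂ) = ((-(Real.cos t) : ℝ) : ℂ) := by
      rw [hz]; push_cast; ring
    rw [this, Complex.arg_ofReal_of_neg (by linarith)]
  have h3 := Complex.abs_im_le_norm (eW z)
  rw [h2, abs_of_pos (by positivity)] at h3
  linarith

theorem pU_mem {s : ℝ} (hs : s ∈ Icc (0:ℝ) 1) : pU s ∈ TC.Yu 1 := by
  have hpi := Real.pi_pos
  have h0 : 0 ≤ Real.pi / 4 * (1 - s) := mul_nonneg (by positivity) (by linarith [hs.2])
  have h1 : Real.pi / 4 * (1 - s) ≤ Real.pi / 4 := by nlinarith [hs.1]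
  refine ⟨quarter_mem h0 (by linarith), ?_⟩
  show ‖(Real.sin (Real.pi / 4 * (1 - s)) : ℂ) * Complex.I‖ ≤ ‖(Real.cos (Real.pi / 4 * (1 - s)) : ℂ)‖
  rw [norm_mul, Complex.norm_I, mul_one, Complex.norm_real, Complex.norm_real,
    Real.norm_of_nonneg (Real.sin_nonneg_of_nonneg_of_le_pi h0 (by linarith)),
    Real.norm_of_nonneg (Real.cos_nonneg_of_mem_Icc ⟨by linarith, by linarith⟩),
    ← Real.sin_pi_div_two_sub]
  exact Real.sin_le_sin_of_le_of_le_pi_div_two (by linarith) (by linarith) (by linarith)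

theorem pW_mem {s : ℝ} (hs : s ∈ Icc (0:ℝ) 1) : pW s ∈ TC.Yv 1 := by
  have hpi := Real.pi_pos
  have h0 : Real.pi / 4 ≤ Real.pi / 4 * (1 + s) := by nlinarith [hs.1]
  have h1 : Real.pi / 4 * (1 + s) ≤ Real.pi / 2 := by nlinarith [hs.2]
  refine ⟨quarter_mem (by linarith) h1, ?_⟩
  show ‖(Real.cos (Real.pi / 4 * (1 + s)) : ℂ)‖ ≤ ‖(Real.sin (Real.pi / 4 * (1 + s)) : ℂ) * Complex.I‖
  rw [norm_mul, Complex.norm_I, mul_one, Complex.norm_real, Complex.norm_real,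
    Real.norm_of_nonneg (Real.sin_nonneg_of_nonneg_of_le_pi (by linarith) (by linarith)),
    Real.norm_of_nonneg (Real.cos_nonneg_of_mem_Icc ⟨by linarith, by linarith⟩),
    ← Real.sin_pi_div_two_sub]
  exact Real.sin_le_sin_of_le_of_le_pi_div_two (by linarith) (by linarith) (by linarith)

theorem pU_zero : pU 0 = x0 := by
  unfold pU x0
  rw [sub_zero, mul_one, tcf_c4, tcf_s4]

theorem pW_zero : pW 0 = x0 := by
  unfold pW x0
  rw [add_zero, mul_one, tcf_c4, tcf_s4]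

theorem pU_one : pU 1 = loopU 0 := by
  unfold pU loopU
  rw [sub_self, mul_zero, Real.cos_zero, Real.sin_zero, TC.ee_zero]
  simp

theorem pW_one : pW 1 = loopW 0 := by
  unfold pW loopW
  have : Real.pi / 4 * (1 + 1) = Real.pi / 2 := by ring
  rw [this, Real.cos_pi_div_two, Real.sin_pi_div_two, TC.ee_zero]
  simp

theorem loopU_one : loopU 1 = loopU 0 := by
  unfold loopU; rw [TC.ee_one, TC.ee_zero]

theorem loopW_one : loopW 1 = loopW 0 := by
  unfold loopW; rw [TC.ee_one, TC.ee_zero]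

theorem f2_cont : Continuous f2 := continuous_const.mul continuous_snd

theorem ang_pU {s : ℝ} (hs : s ∈ Icc (0:ℝ) 1) : ang Prod.fst (pU s) = 0 := by
  have hpi := Real.pi_pos
  have h0 : 0 ≤ Real.pi / 4 * (1 - s) := mul_nonneg (by positivity) (by linarith [hs.2])
  have h1 : Real.pi / 4 * (1 - s) ≤ Real.pi / 4 := by nlinarith [hs.1]
  unfold ang
  show Complex.arg ((Real.cos (Real.pi / 4 * (1 - s)) : ℝ) : ℂ) / _ = 0
  rw [Complex.arg_ofReal_of_nonneg (Real.cos_nonneg_of_mem_Icc ⟨by linarith, by linarith⟩), zero_div]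

theorem ang_pW {s : ℝ} (hs : s ∈ Icc (0:ℝ) 1) : ang f2 (pW s) = 0 := by
  have hpi := Real.pi_pos
  have h0 : Real.pi / 4 ≤ Real.pi / 4 * (1 + s) := by nlinarith [hs.1]
  have h1 : Real.pi / 4 * (1 + s) ≤ Real.pi / 2 := by nlinarith [hs.2]
  have h2 : f2 (pW s) = ((Real.sin (Real.pi / 4 * (1 + s)) : ℝ) : ℂ) := by
    show -Complex.I * (((Real.sin (Real.pi / 4 * (1 + s)) : ℝ) : ℂ) * Complex.I) = _
    linear_combination (-((Real.sin (Real.pi / 4 * (1 + s)) : ℝ) : ℂ)) * Complex.I_mul_I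
  unfold ang
  rw [h2, Complex.arg_ofReal_of_nonneg (Real.sin_nonneg_of_nonneg_of_le_pi (by linarith) (by linarith)),
    zero_div]

theorem tr_loopU (g : G) : HasTr (fun x y => g ^ cint (ang Prod.fst) x y) loopU g := by
  have h : HasTr (mint (ang Prod.fst)) loopU (Multiplicative.ofAdd 1) := by
    refine hasTr_lift continuous_fst loopU_cont.continuousOn (A := fun s => s) (ρ := fun _ => 1)
      continuousOn_id (fun _ _ => one_pos) ?_ loopU_one 1 (by norm_num)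
    intro s _
    show ee s = _
    rw [Complex.ofReal_one, one_mul]
  simpa using hasTr_zpow h g

theorem tr_loopW (g : G) : HasTr (fun x y => g ^ cint (ang f2) x y) loopW g := by
  have h : HasTr (mint (ang f2)) loopW (Multiplicative.ofAdd 1) := by
    refine hasTr_lift f2_cont loopW_cont.continuousOn (A := fun s => s) (ρ := fun _ => 1)
      continuousOn_id (fun _ _ => one_pos) ?_ loopW_one 1 (by norm_num)
    intro s _
    show -Complex.I * (Complex.I * ee s) = _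
    rw [Complex.ofReal_one, one_mul]
    linear_combination (-(ee s)) * Complex.I_mul_I
  simpa using hasTr_zpow h g

theorem ang_fst' : AngCont (ang Prod.fst) (TC.Yu 1) := TC.ang_fst

theorem ang_f2 : AngCont (ang f2) (TC.Yv 1) :=
  angCont_ang (fun _ _ => f2_cont.continuousAt)
    (fun _ hz => mul_ne_zero (neg_ne_zero.2 Complex.I_ne_zero) (TC.Yv_ne hz))

theorem loopU_per (s : ℝ) : loopU (s + 1) = loopU s := by
  unfold loopU; rw [TC.ee_add, TC.ee_one, mul_one]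

theorem loopW_per (s : ℝ) : loopW (s + 1) = loopW s := by
  unfold loopW; rw [TC.ee_add, TC.ee_one, mul_one]

theorem sideU (hT : GFlat T Ex) {p g : G} (hp : HasTr T pU p) (hg : HasTr T loopU g) :
    ∃ v, GaugeBy T (fun x y => (p * g * p⁻¹) ^ cint (ang Prod.fst) x y) (TC.Yu 1) v ∧ v x0 = 1 := by
  have h := side (Y := TC.Yu 1) (P := pU) (L := loopU) (p := p)
    (circle_classify (R := TC.Yu 1) hT (K := Ku) (τ := loopU) (fun s _ x hx => Ku_cont (TC.Yu_ne hx))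
      (fun s hs x hx => Ku_mem hs hx) Ku_zero loopU_cont (fun s => (loopU_mem s).1) loopU_per ang_fst'
      Ku_one hg) pU_cont.continuousOn loopU_cont.continuousOn (fun s hs => pU_mem hs)
    (fun s _ => loopU_mem s) pU_one loopU_one hp hg (hasTr_zero (fun s hs => ang_pU hs) g) (tr_loopU g)
  rwa [pU_zero] at h

theorem sideW (hT : GFlat T Ex) {p g : G} (hp : HasTr T pW p) (hg : HasTr T loopW g) :
    ∃ v, GaugeBy T (fun x y => (p * g * p⁻¹) ^ cint (ang f2) x y) (TC.Yv 1) v ∧ v x0 = 1 := by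
  have h := side (Y := TC.Yv 1) (P := pW) (L := loopW) (p := p)
    (circle_classify (R := TC.Yv 1) hT (K := Kv) (τ := loopW) (fun s _ x hx => Kv_cont (TC.Yv_ne hx))
      (fun s hs x hx => Kv_mem hs hx) Kv_zero loopW_cont (fun s => (loopW_mem s).1) loopW_per ang_f2
      Kv_one hg) pW_cont.continuousOn loopW_cont.continuousOn (fun s hs => pW_mem hs)
    (fun s _ => loopW_mem s) pW_one loopW_one hp hg (hasTr_zero (fun s hs => ang_pW hs) g) (tr_loopW g)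
  rwa [pW_zero] at h

theorem tau_x0 : TC.tau (1/4) = x0 := by
  have h1 : ee (1/4) = Complex.I := by
    unfold ee
    have : (2 * (Real.pi : ℂ) * ((1/4 : ℝ) : ℂ) * Complex.I) = (Real.pi : ℂ) / 2 * Complex.I := by
      push_cast; ring
    rw [this, Complex.exp_pi_div_two_mul_I]
  unfold TC.tau act TC.y0 x0
  rw [h1]
  ext
  · simp only
    push_cast
    rw [Complex.I_sq]; ring
  · simp only
    have : Complex.I ^ 3 = -Complex.I := by
      rw [pow_succ, Complex.I_sq]; ring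
    rw [this]
    push_cast
    ring

theorem x0_A : x0 ∈ TC.Yu 1 ∩ TC.Yv 1 := by
  rw [← tau_x0]; exact TC.tau_mem le_rfl _

/-- a gauge transformation of `T` to itself on the annulus with value `1` at `x0` is `1` -/
theorem annulus_one (hT : GFlat T Ex) {u : ℂ × ℂ → G} (hu : GaugeBy T T (TC.Yu 1 ∩ TC.Yv 1) u)
    (h0 : u x0 = 1) {z : ℂ × ℂ} (hz : z ∈ TC.Yu 1 ∩ TC.Yv 1) : u z = 1 := by
  have hT' : GFlat T (TC.Yu 1 ∩ TC.Yv 1) := hT.mono fun z hz => hz.1.1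
  set t := ang eU z with ht
  -- along the orbit
  have c1 : ContinuousOn (fun s : ℝ => TC.tau (1/4 + s * (t - 1/4))) (Icc 0 1) :=
    (TC.tau_cont.comp (by fun_prop : Continuous fun s : ℝ => 1/4 + s * (t - 1/4))).continuousOn
  obtain ⟨g, hg⟩ := exists_hasTr hT' c1 (fun s _ => TC.tau_mem le_rfl _)
  have h1 := hu.along c1 (fun s _ => TC.tau_mem le_rfl _) hg
  simp only [zero_mul, add_zero, one_mul] at h1
  rw [tau_x0, h0, mul_one, inv_mul_cancel, add_sub_cancel] at h1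
  -- along the homotopy
  have c2 : ContinuousOn (fun s : ℝ => TC.KA s z) (Icc 0 1) := by
    intro s _
    refine ContinuousAt.continuousWithinAt ?_
    exact ContinuousAt.comp (f := fun s : ℝ => (s, z)) (g := fun p : ℝ × (ℂ × ℂ) => TC.KA p.1 p.2)
      (TC.KA_cont one_pos le_rfl hz) (by fun_prop)
  have m2 : ∀ s ∈ Icc (0:ℝ) 1, TC.KA s z ∈ TC.Yu 1 ∩ TC.Yv 1 := fun s hs => TC.KA_mem le_rfl hs hz
  obtain ⟨g', hg'⟩ := exists_hasTr hT' c2 m2
  have h2 := hu.along c2 m2 hg'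
  rw [TC.KA_zero, TC.KA_one, ← ht, h1] at h2
  have h3 : u z = g' * (g'⁻¹ * u z * g') * g'⁻¹ := by group
  rw [h3, ← h2]; group

/-! ### gluing with explicit gauge -/

theorem glue {Ω : Type*} [PseudoMetricSpace Ω] {A B D : Set Ω} (cA : IsClosed A) (cB : IsClosed B)
    {T₁ T₂ : Ω → Ω → G} {w : Ω → G} (h1 : GFlat T₁ (A ∩ D)) (h2 : GFlat T₂ (B ∩ D))
    (hw : GaugeBy T₁ T₂ (A ∩ B ∩ D) w) :
    ∃ T : Ω → Ω → G, GFlat T ((A ∪ B) ∩ D) ∧ GaugeBy T T₁ (A ∩ D) (fun _ => 1) ∧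
      GaugeBy T T₂ (B ∩ D) w := by
  classical
  let T : Ω → Ω → G := fun x y => if Metric.infEDist x A ≤ Metric.infEDist x B then T₁ x y
    else w x * T₂ x y * (w y)⁻¹
  have hor : ∀ x y, T x y = T₁ x y ∨ T x y = w x * T₂ x y * (w y)⁻¹ := by
    intro x y
    by_cases hx : Metric.infEDist x A ≤ Metric.infEDist x B
    · exact Or.inl (if_pos hx)
    · exact Or.inr (if_neg hx)
  have k1 : ∀ a ∈ A ∩ D, ∃ ε > 0, ∀ x y, dist x a < ε → dist y a < ε → T x y = T₁ x y := by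
    rintro a ⟨ha, haU⟩
    by_cases hb : a ∈ B
    · obtain ⟨e, he, h'⟩ := hw a ⟨⟨ha, hb⟩, haU⟩
      refine ⟨e, he, fun x y hx hy => ?_⟩
      rcases hor x y with h3 | h3
      · exact h3
      · rw [h3, h' x y hx hy]; group
    · obtain ⟨e, he, h'⟩ := infEDist_aux cB ha hb
      exact ⟨e, he, fun x y hx _ => if_pos (h' x hx).le⟩
  have k2 : ∀ a ∈ B ∩ D, ∃ ε > 0, ∀ x y, dist x a < ε → dist y a < ε →
      T x y = w x * T₂ x y * (w y)⁻¹ := by
    rintro a ⟨ha, haU⟩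
    by_cases hb : a ∈ A
    · obtain ⟨e, he, h'⟩ := hw a ⟨⟨hb, ha⟩, haU⟩
      refine ⟨e, he, fun x y hx hy => ?_⟩
      rcases hor x y with h3 | h3
      · rw [h3, h' x y hx hy]; group
      · exact h3
    · obtain ⟨e, he, h'⟩ := infEDist_aux cA ha hb
      exact ⟨e, he, fun x y hx _ => if_neg (not_le.2 (h' x hx))⟩
  have G1 : GaugeBy T T₁ (A ∩ D) (fun _ => 1) := by
    intro a ha
    obtain ⟨e, he, h⟩ := k1 a ha
    exact ⟨e, he, fun x y hx hy => by rw [h x y hx hy]; simp⟩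
  have G2 : GaugeBy T T₂ (B ∩ D) w := by
    intro a ha
    obtain ⟨e, he, h⟩ := k2 a ha
    exact ⟨e, he, fun x y hx hy => by rw [h x y hx hy]; group⟩
  refine ⟨T, ?_, G1, G2⟩
  rintro a ⟨ha | ha, haU⟩
  · exact (GaugeEq.flat (GaugeEq.symm ⟨_, G1⟩) h1) a ⟨ha, haU⟩
  · exact (GaugeEq.flat (GaugeEq.symm ⟨_, G2⟩) h2) a ⟨ha, haU⟩

/-! ### existence -/

/-- the domain -/
def D : Set (ℂ × ℂ) := {z | nrm z ≠ 0 ∧ ∀ k ∈ Kn, z ≠ nrm z • k}
def A : Set (ℂ × ℂ) := {z | ‖z.2‖ ≤ ‖z.1‖}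
def B : Set (ℂ × ℂ) := {z | ‖z.1‖ ≤ ‖z.2‖}

theorem closed_A : IsClosed A := isClosed_le (by fun_prop) (by fun_prop)
theorem closed_B : IsClosed B := isClosed_le (by fun_prop) (by fun_prop)

theorem A_union_B : A ∪ B = univ := by
  ext z
  simp only [mem_union, mem_univ, iff_true]
  exact le_total ‖z.2‖ ‖z.1‖

theorem AD_ne {z : ℂ × ℂ} (hz : z ∈ A ∩ D) : z.1 ≠ 0 := by
  intro h0
  have h2 : ‖z.2‖ ≤ ‖z.1‖ := hz.1
  rw [h0, norm_zero] at h2
  apply hz.2.1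
  unfold nrm
  rw [h0, norm_zero, le_antisymm h2 (norm_nonneg _)]
  simp

theorem BD_ne {z : ℂ × ℂ} (hz : z ∈ B ∩ D) : z.2 ≠ 0 := by
  intro h0
  have h2 : ‖z.1‖ ≤ ‖z.2‖ := hz.1
  rw [h0, norm_zero] at h2
  apply hz.2.1
  unfold nrm
  rw [h0, norm_zero, le_antisymm h2 (norm_nonneg _)]
  simp

noncomputable def qq (z : ℂ × ℂ) : ℂ := -(z.1 ^ 3 / z.2 ^ 2)

theorem qq_ne {z : ℂ × ℂ} (n1 : z.1 ≠ 0) (n2 : z.2 ≠ 0) : qq z ≠ 0 :=
  neg_ne_zero.2 (div_ne_zero (pow_ne_zero _ n1) (pow_ne_zero _ n2))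

theorem ee_zpow3 {a b c : ℝ} : ee (3 * a - 2 * b - c) * ee c * ee b ^ 2 = ee a ^ 3 := by
  rw [tcf_ee_pow, tcf_ee_pow, ← TC.ee_add, ← TC.ee_add]
  congr 1
  push_cast
  ring

theorem nrel {z : ℂ × ℂ} (n1 : z.1 ≠ 0) (n2 : z.2 ≠ 0) :
    ∃ n : ℤ, 3 * ang Prod.fst z - 2 * ang f2 z - ang qq z = n := by
  apply TC.ee_eq_one
  have h2 : f2 z ≠ 0 := mul_ne_zero (neg_ne_zero.2 Complex.I_ne_zero) n2
  have hn2 : ‖f2 z‖ = ‖z.2‖ := by
    unfold f2; rw [norm_mul, norm_neg, Complex.norm_I, one_mul]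
  have hq := qq_ne n1 n2
  have hnq : ‖qq z‖ = ‖z.1‖ ^ 3 / ‖z.2‖ ^ 2 := by
    unfold qq; rw [norm_neg, norm_div, norm_pow, norm_pow]
  have p1 : (‖z.1‖ : ℂ) ≠ 0 := by exact_mod_cast norm_ne_zero_iff.2 n1
  have p2 : (‖z.2‖ : ℂ) ≠ 0 := by exact_mod_cast norm_ne_zero_iff.2 n2
  have key := ee_zpow3 (a := ang Prod.fst z) (b := ang f2 z) (c := ang qq z)
  rw [TC.ee_ang hq, TC.ee_ang h2, TC.ee_ang (f := Prod.fst) n1, hn2, hnq] at key
  have h3 : qq z / ((‖z.1‖ ^ 3 / ‖z.2‖ ^ 2 : ℝ) : ℂ) * (f2 z / ‖z.2‖) ^ 2 = (z.1 / ‖z.1‖) ^ 3 := by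
    unfold qq f2
    push_cast
    have hI : Complex.I ^ 2 = -1 := Complex.I_sq
    field_simp
    rw [hI]; ring
  rw [mul_assoc, h3] at key
  have h4 : (z.1 / (‖z.1‖ : ℂ)) ^ 3 ≠ 0 := pow_ne_zero _ (div_ne_zero n1 p1)
  exact mul_right_cancel₀ h4 (by rw [key, one_mul])

/-- the integer `N` -/
noncomputable def NN (z : ℂ × ℂ) : ℤ := round (3 * ang Prod.fst z - 2 * ang f2 z - ang qq z)

theorem NN_spec {z : ℂ × ℂ} (n1 : z.1 ≠ 0) (n2 : z.2 ≠ 0) :
    3 * ang Prod.fst z - 2 * ang f2 z - ang qq z = NN z := by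
  obtain ⟨n, hn⟩ := nrel n1 n2
  unfold NN
  rw [hn, round_intCast]

theorem qq_slit {z : ℂ × ℂ} (hz : z ∈ A ∩ B ∩ D) : qq z ∈ Complex.slitPlane := by
  have n1 := AD_ne ⟨hz.1.1, hz.2⟩
  have n2 := BD_ne ⟨hz.1.2, hz.2⟩
  have he : ‖z.1‖ = ‖z.2‖ := le_antisymm hz.1.2 hz.1.1
  have hf := tcf_ne hz.2
  have p2 : (‖z.2‖ : ℂ) ≠ 0 := by exact_mod_cast norm_ne_zero_iff.2 n2
  have hn : nrm z / Real.sqrt 2 = ‖z.2‖ := by
    unfold nrm
    rw [he, ← two_mul, Real.sqrt_mul (by norm_num), Real.sqrt_sq (norm_nonneg _)]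
    have : Real.sqrt 2 ≠ 0 := by positivity
    field_simp
  have hnq : ‖qq z‖ = ‖z.2‖ := by
    unfold qq
    rw [norm_neg, norm_div, norm_pow, norm_pow, he]
    have : ‖z.2‖ ≠ 0 := norm_ne_zero_iff.2 n2
    field_simp
  rw [Complex.mem_slitPlane_iff_arg]
  refine ⟨fun h => hf ?_, qq_ne n1 n2⟩
  have h1 : qq z = -(‖z.2‖ : ℂ) := by
    have h2 := Complex.norm_mul_exp_arg_mul_I (qq z)
    rw [h, hnq, Complex.exp_pi_mul_I] at h2
    rw [← h2]; ring
  unfold qq at h1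
  have h2 : z.1 ^ 3 = (‖z.2‖ : ℂ) * z.2 ^ 2 := by
    have h3 := neg_injective h1
    rwa [div_eq_iff (pow_ne_zero _ n2)] at h3
  unfold fK
  rw [hn, h2, sub_self]

theorem D_eq : D = {z | fK z ≠ 0} := by
  ext z
  exact ⟨fun h => tcf_ne h, fun h => tcf_mem h⟩

theorem open_D : IsOpen D := by
  rw [D_eq]
  exact isOpen_ne_fun tcf_continuous_fK continuous_const

theorem cint_rel {z : ℂ × ℂ} (hz : z ∈ A ∩ B ∩ D) : ∃ ε > 0, ∀ x y, dist x z < ε → dist y z < ε →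
    3 * cint (ang Prod.fst) x y - 2 * cint (ang f2) x y = NN x - NN y := by
  have n1 := AD_ne ⟨hz.1.1, hz.2⟩
  have n2 := BD_ne ⟨hz.1.2, hz.2⟩
  have hA : AngCont (ang Prod.fst) ({z} : Set (ℂ × ℂ)) :=
    angCont_ang (fun _ _ => continuous_fst.continuousAt) (fun x hx => by
      rw [mem_singleton_iff] at hx; rw [hx]; exact n1)
  have hB : AngCont (ang f2) ({z} : Set (ℂ × ℂ)) :=
    angCont_ang (fun _ _ => f2_cont.continuousAt) (fun x hx => by
      rw [mem_singleton_iff] at hx; rw [hx]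
      exact mul_ne_zero (neg_ne_zero.2 Complex.I_ne_zero) n2)
  obtain ⟨e1, he1, h1⟩ := hA z rfl (1/20) (by norm_num)
  obtain ⟨e2, he2, h2⟩ := hB z rfl (1/20) (by norm_num)
  have hq : ContinuousAt (ang qq) z := by
    have hc : ContinuousAt qq z := by
      unfold qq
      exact ((continuous_fst.continuousAt.pow 3).div (continuous_snd.continuousAt.pow 2)
        (pow_ne_zero _ n2)).neg
    exact (ContinuousAt.comp (f := qq) (g := Complex.arg) (Complex.continuousAt_arg (qq_slit hz))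
      hc).div_const _
  obtain ⟨e3, he3, h3⟩ := Metric.continuousAt_iff.1 hq (1/20) (by norm_num)
  obtain ⟨e4, he4, h4⟩ := Metric.eventually_nhds_iff.1
    ((continuous_fst.continuousAt.eventually_ne n1).and (continuous_snd.continuousAt.eventually_ne n2))
  refine ⟨min (min e1 e2) (min e3 e4), lt_min (lt_min he1 he2) (lt_min he3 he4), fun x y hx hy => ?_⟩
  simp only [lt_min_iff] at hx hy
  obtain ⟨⟨x1, x2⟩, x3, x4⟩ := hx
  obtain ⟨⟨y1, y2⟩, y3, y4⟩ := hy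
  have a1 := h1 x y x1 y1
  have a2 := h2 x y x2 y2
  have a3 := h3 x3
  have a4 := h3 y3
  have a5 := NN_spec (h4 x4).1 (h4 x4).2
  have a6 := NN_spec (h4 y4).1 (h4 y4).2
  rw [Real.dist_eq] at a3 a4
  rw [abs_lt] at a1 a2 a3 a4
  have key : |((3 * cint (ang Prod.fst) x y - 2 * cint (ang f2) x y - (NN x - NN y) : ℤ) : ℝ)| < 1 := by
    unfold cint
    push_cast
    rw [← a5, ← a6, abs_lt]
    constructor <;> linarith [a1.1, a1.2, a2.1, a2.2, a3.1, a3.2, a4.1, a4.2]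
  have key2 : |3 * cint (ang Prod.fst) x y - 2 * cint (ang f2) x y - (NN x - NN y)| < 1 := by
    exact_mod_cast key
  have := Int.abs_lt_one_iff.1 key2
  omega

theorem ang_AD : AngCont (ang Prod.fst) (A ∩ D) :=
  angCont_ang (fun _ _ => continuous_fst.continuousAt) (fun _ hz => AD_ne hz)

theorem ang_BD : AngCont (ang f2) (B ∩ D) :=
  angCont_ang (fun _ _ => f2_cont.continuousAt)
    (fun _ hz => mul_ne_zero (neg_ne_zero.2 Complex.I_ne_zero) (BD_ne hz))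

theorem NN_x0 : NN x0 = 0 := by
  have h1 : ang Prod.fst x0 = 0 := by
    rw [← pU_zero]; exact ang_pU ⟨le_rfl, zero_le_one⟩
  have h2 : ang f2 x0 = 0 := by
    rw [← pW_zero]; exact ang_pW ⟨le_rfl, zero_le_one⟩
  have hs : (0:ℝ) < 1 / Real.sqrt 2 := by positivity
  have hs' : ((1 / Real.sqrt 2 : ℝ) : ℂ) ≠ 0 := by exact_mod_cast hs.ne'
  have h3 : qq x0 = ((1 / Real.sqrt 2 : ℝ) : ℂ) := by
    unfold qq x0
    simp only
    rw [mul_pow, Complex.I_sq]
    field_simp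
  have h4 : ang qq x0 = 0 := by
    unfold ang
    rw [h3, Complex.arg_ofReal_of_nonneg hs.le, zero_div]
  unfold NN
  rw [h1, h2, h4]
  simp

theorem gauge_AB {U W : G} (h : U ^ 2 = W ^ 3) :
    GaugeBy (fun x y => U ^ cint (ang Prod.fst) x y) (fun x y => W ^ cint (ang f2) x y) (A ∩ B ∩ D)
      (fun z => U ^ NN z * (W ^ NN z)⁻¹) := by
  intro z hz
  obtain ⟨e, he, h1⟩ := cint_rel hz
  refine ⟨e, he, fun x y hx hy => ?_⟩
  have h2 := h1 x y hx hy
  set a := cint (ang Prod.fst) x y with ha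
  set b := cint (ang f2) x y with hb
  have ea : a = NN x + 2 * (b - a) + (-NN y) := by linarith
  have eb : b = NN x + 3 * (b - a) + (-NN y) := by linarith
  have hU : U ^ a = U ^ NN x * (U ^ 2) ^ (b - a) * (U ^ NN y)⁻¹ := by
    conv_lhs => rw [ea]
    rw [zpow_add, zpow_add, zpow_mul, zpow_neg]
    norm_cast
  have hW : W ^ b = W ^ NN x * (W ^ 3) ^ (b - a) * (W ^ NN y)⁻¹ := by
    conv_lhs => rw [eb]
    rw [zpow_add, zpow_add, zpow_mul, zpow_neg]
    norm_cast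
  show W ^ b = (U ^ NN x * (W ^ NN x)⁻¹)⁻¹ * U ^ a * (U ^ NN y * (W ^ NN y)⁻¹)
  rw [hU, hW, h]
  group

end TB

section main

variable {G : Type*} [Group G] {T T' : ℂ × ℂ → ℂ × ℂ → G}

/-- the pair determines `T` up to a gauge transformation which is `1` at `x0` -/
theorem tref_inj (hT : GFlat T Ex) (hT' : GFlat T' Ex) {U W : G} (h : UW T U W) (h' : UW T' U W) :
    ∃ u, GaugeBy T T' Ex u ∧ u x0 = 1 := by
  obtain ⟨p, gU, q, gW, h1, h2, h3, h4, hU, hW⟩ := h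
  obtain ⟨p', gU', q', gW', h1', h2', h3', h4', hU', hW'⟩ := h'
  obtain ⟨v1, k1, o1⟩ := TB.sideU hT h1 h2
  obtain ⟨v2, k2, o2⟩ := TB.sideW hT h3 h4
  obtain ⟨v1', k1', o1'⟩ := TB.sideU hT' h1' h2'
  obtain ⟨v2', k2', o2'⟩ := TB.sideW hT' h3' h4'
  rw [← hU] at k1
  rw [← hU'] at k1'
  rw [← hW] at k2
  rw [← hW'] at k2'
  have g1 := k1.trans k1'.symm
  have g2 := k2.trans k2'.symm
  set u1 : ℂ × ℂ → G := fun x => v1 x * (v1' x)⁻¹ with hu1
  set u2 : ℂ × ℂ → G := fun x => v2 x * (v2' x)⁻¹ with hu2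
  have z1 : u1 x0 = 1 := by rw [hu1]; simp only; rw [o1, o1']; simp
  have z2 : u2 x0 = 1 := by rw [hu2]; simp only; rw [o2, o2']; simp
  have g3 : GaugeBy T T (TC.Yu 1 ∩ TC.Yv 1) (fun x => u1 x * (u2 x)⁻¹) :=
    (g1.mono inter_subset_left).trans (g2.mono inter_subset_right).symm
  have heq : ∀ z ∈ TC.Yu 1 ∩ TC.Yv 1, u1 z = u2 z := by
    intro z hz
    have := TB.annulus_one hT g3 (by show u1 x0 * (u2 x0)⁻¹ = 1; rw [z1, z2]; simp) hz
    exact mul_inv_eq_one.1 this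
  obtain ⟨u, hu, hor, -, -⟩ := gauge_glue' (T := T) (T' := T') (U := univ)
    (TC.isCompact_Yu one_pos le_rfl).isClosed (TC.isCompact_Yv one_pos le_rfl).isClosed isOpen_univ
    (u₁ := u1) (u₂ := u2) (by simpa using g1) (by simpa using g2) (by
      intro a ha
      exact TB.near_eq g1 g2 ha.1.1 ha.1.2 (heq a ha.1))
  refine ⟨u, ?_, ?_⟩
  · rw [inter_univ, TC.Yu_union] at hu
    exact hu
  · rcases hor x0 with h | h
    · rw [h, z1]
    · rw [h, z2]

/-- the orbit of `x0` -/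
theorem TB.rel (hT : GFlat T Ex) {U W g : G} (h : UW T U W)
    (hg : HasTr T (fun s => TC.tau (1/4 + s)) g) : U ^ 2 = g ∧ W ^ 3 = g := by
  obtain ⟨p, gU, q, gW, h1, h2, h3, h4, hU, hW⟩ := h
  obtain ⟨v1, k1, o1⟩ := TB.sideU hT h1 h2
  obtain ⟨v2, k2, o2⟩ := TB.sideW hT h3 h4
  rw [← hU] at k1
  rw [← hW] at k2
  have c : Continuous (fun s : ℝ => TC.tau (1/4 + s)) :=
    TC.tau_cont.comp (by fun_prop : Continuous fun s : ℝ => 1/4 + s)
  have e0 : TC.tau (1/4 + 0) = x0 := by rw [add_zero, TB.tau_x0]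
  have e1 : TC.tau (1/4 + 1) = x0 := by rw [TC.tau_per, TB.tau_x0]
  have hs : (0:ℝ) < 1 / Real.sqrt 2 := by positivity
  have hh : ee (1/2) = -1 := by
    unfold ee
    have : (2 * (Real.pi : ℂ) * ((1/2 : ℝ) : ℂ) * Complex.I) = (Real.pi : ℂ) * Complex.I := by
      push_cast; ring
    rw [this, Complex.exp_pi_mul_I]
  have hq : ee (1/4) = Complex.I := by
    unfold ee
    have : (2 * (Real.pi : ℂ) * ((1/4 : ℝ) : ℂ) * Complex.I) = (Real.pi : ℂ) / 2 * Complex.I := by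
      push_cast; ring
    rw [this, Complex.exp_pi_div_two_mul_I]
  constructor
  · have hm : HasTr (mint (ang Prod.fst)) (fun s => TC.tau (1/4 + s)) (Multiplicative.ofAdd 2) := by
      refine TB.hasTr_lift continuous_fst c.continuousOn (A := fun s => 2 * (1/4 + s) + 1/2)
        (ρ := fun _ => 1 / Real.sqrt 2) (by fun_prop) (fun _ _ => hs) ?_ (e1.trans e0.symm) 2
        (by norm_num)
      intro s _
      show ee (1/4 + s) ^ 2 * ((-(1 / Real.sqrt 2) : ℝ) : ℂ) = _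
      rw [TC.ee_add (2 * (1/4 + s)) (1/2), hh, tcf_ee_pow]
      push_cast
      ring
    have h5 := HasTr.gauge k1 c.continuousOn (fun s _ => (TC.tau_mem le_rfl _).1) hg
    have h6 := HasTr.unique (TB.hasTr_zpow hm U) h5
    rw [e0, e1, o1] at h6
    simpa using h6
  · have hm : HasTr (mint (ang TB.f2)) (fun s => TC.tau (1/4 + s)) (Multiplicative.ofAdd 3) := by
      refine TB.hasTr_lift TB.f2_cont c.continuousOn (A := fun s => 3 * (1/4 + s) + 1/4)
        (ρ := fun _ => 1 / Real.sqrt 2) (by fun_prop) (fun _ _ => hs) ?_ (e1.trans e0.symm) 3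
        (by norm_num)
      intro s _
      show -Complex.I * (ee (1/4 + s) ^ 3 * ((-(1 / Real.sqrt 2) : ℝ) : ℂ)) = _
      rw [TC.ee_add (3 * (1/4 + s)) (1/4), hq, tcf_ee_pow]
      push_cast
      ring
    have h5 := HasTr.gauge k2 c.continuousOn (fun s _ => (TC.tau_mem le_rfl _).2) hg
    have h6 := HasTr.unique (TB.hasTr_zpow hm W) h5
    rw [e0, e1, o2] at h6
    simpa using h6

theorem TB.exists_UW (hT : GFlat T Ex) : ∃ U W, UW T U W := by
  obtain ⟨p, hp⟩ := exists_hasTr hT TB.pU_cont.continuousOn (fun s hs => (TB.pU_mem hs).1)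
  obtain ⟨q, hq⟩ := exists_hasTr hT TB.pW_cont.continuousOn (fun s hs => (TB.pW_mem hs).1)
  obtain ⟨gU, hgU⟩ := exists_hasTr hT TB.loopU_cont.continuousOn (fun s _ => (TB.loopU_mem s).1)
  obtain ⟨gW, hgW⟩ := exists_hasTr hT TB.loopW_cont.continuousOn (fun s _ => (TB.loopW_mem s).1)
  exact ⟨_, _, p, gU, q, gW, hp, hgU, hq, hgW, rfl, rfl⟩

theorem TB.rel' (hT : GFlat T Ex) {U W : G} (h : UW T U W) : U ^ 2 = W ^ 3 := by
  obtain ⟨g, hg⟩ := exists_hasTr hT (γ := fun s => TC.tau (1/4 + s))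
    (TC.tau_cont.comp (by fun_prop : Continuous fun s : ℝ => 1/4 + s)).continuousOn
    (fun s _ => (TC.tau_mem le_rfl _).1.1)
  obtain ⟨h1, h2⟩ := TB.rel hT h hg
  rw [h1, h2]

theorem TB.UW_map {G' : Type*} [Group G'] (φ : G →* G') {U W : G} (h : UW T U W) :
    UW (fun x y => φ (T x y)) (φ U) (φ W) := by
  obtain ⟨p, gU, q, gW, h1, h2, h3, h4, hU, hW⟩ := h
  refine ⟨φ p, φ gU, φ q, φ gW, h1.map φ, h2.map φ, h3.map φ, h4.map φ, ?_, ?_⟩
  · rw [hU]; simp only [map_mul, map_inv]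
  · rw [hW]; simp only [map_mul, map_inv]

theorem TB.Ex_sub : Ex ⊆ {z | nrm z ≠ 0 ∧ ∀ k ∈ Kn, z ≠ nrm z • k} := by
  rintro z ⟨h1, h2⟩
  have h3 : nrm z = 1 := h1
  refine ⟨by rw [h3]; exact one_ne_zero, ?_⟩
  rintro k ⟨u, hu, rfl⟩ he
  rw [h3, one_smul] at he
  exact h2 ⟨u, 0, hu, by rw [norm_zero]; exact one_pos, he⟩

/-- `H¹(Ex; ℤ) = ℤ cf` -/
theorem tref_int {T : ℂ × ℂ → ℂ × ℂ → Multiplicative ℤ} (hT : GFlat T Ex) :
    ∃ m : ℤ, GaugeEq (fun x y => (cf x y) ^ m) T Ex := by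
  obtain ⟨U, W, hUW⟩ := TB.exists_UW hT
  have hr := TB.rel' hT hUW
  set u : ℤ := Multiplicative.toAdd U with hu
  set w : ℤ := Multiplicative.toAdd W with hw
  have hr' : 2 * u = 3 * w := by
    have := congrArg Multiplicative.toAdd hr
    simpa [hu, hw] using this
  refine ⟨u - w, ?_⟩
  have hc : GFlat (fun x y => (cf x y) ^ (u - w)) Ex :=
    (gflat_cf.mono TB.Ex_sub).map (zpowGroupHom (u - w))
  have h2 := TB.UW_map (zpowGroupHom (u - w)) UW_cf
  have e1 : zpowGroupHom (u - w) (Multiplicative.ofAdd (3 : ℤ)) = U := by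
    show (Multiplicative.ofAdd (3:ℤ)) ^ (u - w) = U
    rw [← ofAdd_zsmul]
    have : (u - w) • (3 : ℤ) = u := by rw [smul_eq_mul]; linarith
    rw [this]; exact ofAdd_toAdd U
  have e2 : zpowGroupHom (u - w) (Multiplicative.ofAdd (2 : ℤ)) = W := by
    show (Multiplicative.ofAdd (2:ℤ)) ^ (u - w) = W
    rw [← ofAdd_zsmul]
    have : (u - w) • (2 : ℤ) = w := by rw [smul_eq_mul]; linarith
    rw [this]; exact ofAdd_toAdd W
  rw [e1, e2] at h2
  obtain ⟨v, hv, -⟩ := tref_inj hc hT h2 hUW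
  exact ⟨v, hv⟩

/-- every pair occurs (on the whole complement of `K`) -/
theorem tref_exists {U W : G} (h : U ^ 2 = W ^ 3) :
    ∃ T : ℂ × ℂ → ℂ × ℂ → G, GFlat T {z | nrm z ≠ 0 ∧ ∀ k ∈ Kn, z ≠ nrm z • k} ∧ UW T U W := by
  obtain ⟨T, hT, g1, g2⟩ := TB.glue (D := TB.D) TB.closed_A TB.closed_B (gflat_zpow TB.ang_AD U)
    (gflat_zpow TB.ang_BD W) (TB.gauge_AB h)
  rw [TB.A_union_B, univ_inter] at hT
  refine ⟨T, hT, ?_⟩
  have hpi := Real.pi_pos
  have mPU : ∀ s ∈ Icc (0:ℝ) 1, pU s ∈ TB.A ∩ TB.D := fun s hs =>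
    ⟨(TB.pU_mem hs).2, TB.Ex_sub (TB.pU_mem hs).1⟩
  have mPW : ∀ s ∈ Icc (0:ℝ) 1, pW s ∈ TB.B ∩ TB.D := fun s hs =>
    ⟨(TB.pW_mem hs).2, TB.Ex_sub (TB.pW_mem hs).1⟩
  have mLU : ∀ s ∈ Icc (0:ℝ) 1, loopU s ∈ TB.A ∩ TB.D := fun s _ =>
    ⟨(TB.loopU_mem s).2, TB.Ex_sub (TB.loopU_mem s).1⟩
  have mLW : ∀ s ∈ Icc (0:ℝ) 1, loopW s ∈ TB.B ∩ TB.D := fun s _ =>
    ⟨(TB.loopW_mem s).2, TB.Ex_sub (TB.loopW_mem s).1⟩
  have t1 := HasTr.gauge g1.symm TB.pU_cont.continuousOn mPU (TB.hasTr_zero (fun s hs => TB.ang_pU hs) U)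
  have t2 := HasTr.gauge g1.symm TB.loopU_cont.continuousOn mLU (TB.tr_loopU U)
  have t3 := HasTr.gauge g2.symm TB.pW_cont.continuousOn mPW (TB.hasTr_zero (fun s hs => TB.ang_pW hs) W)
  have t4 := HasTr.gauge g2.symm TB.loopW_cont.continuousOn mLW (TB.tr_loopW W)
  refine ⟨_, _, _, _, t1, t2, t3, t4, ?_, ?_⟩
  · group
  · rw [TB.loopW_one, ← TB.pW_one, TB.pW_zero, TB.NN_x0]
    group

end main

end Pool.Agent.Helper60.Geo
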