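import Pool.Agent.Helper60.Geo.Conc
import Pool.Agent.Helper60.AS.HI
import Pool.Agent.Helper60.AS.Exact

/-! The trefoil exterior: base point, acyclicity by the circle action, `H² = 0`. -/

set_option autoImplicit false

namespace Pool.Agent.Helper60.Geo

open Set AS

namespace TC

/-! ### membership in `Exr` -/

theorem nrm_smul_pos {c : ℝ} (hc : 0 < c) (z : ℂ × ℂ) : nrm (c • z) = c * nrm z := by
  unfold nrm
  have h1 : ‖(c • z).1‖ = c * ‖z.1‖ := by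
    show ‖c • z.1‖ = _
    rw [norm_smul, Real.norm_eq_abs, abs_of_pos hc]
  have h2 : ‖(c • z).2‖ = c * ‖z.2‖ := by
    show ‖c • z.2‖ = _
    rw [norm_smul, Real.norm_eq_abs, abs_of_pos hc]
  rw [h1, h2]
  have : (c * ‖z.1‖) ^ 2 + (c * ‖z.2‖) ^ 2 = c ^ 2 * (‖z.1‖ ^ 2 + ‖z.2‖ ^ 2) := by ring
  rw [this, Real.sqrt_mul (by positivity), Real.sqrt_sq hc.le]

theorem mem_Exr {r : ℝ} (hr1 : r ≤ 1) {z : ℂ × ℂ} : z ∈ Exr r ↔
    z ∈ Sph ∧ (z.1 ≠ 0 → z.2 ≠ 0 → r ≤ ‖eW z‖) := by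
  constructor
  · rintro ⟨h1, h2⟩
    refine ⟨h1, fun n1 n2 => ?_⟩
    by_contra hlt
    push Not at hlt
    apply h2
    refine ⟨eU z, eU z ^ 6 * eW z, norm_eU n1 n2, ?_, ?_⟩
    · rw [norm_mul, norm_pow, norm_eU n1 n2, one_pow, one_mul]; exact hlt
    · have h3 := eV_eInv' n1 n2
      rw [show nrm z = 1 from h1, one_smul] at h3
      exact h3
  · rintro ⟨h1, h2⟩
    refine ⟨h1, ?_⟩
    rintro ⟨u, w, hu, hw, he⟩
    have hST : ((u, w) : ℂ × ℂ) ∈ ST := ⟨hu, (hw.le.trans hr1)⟩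
    obtain ⟨n1, n2⟩ := eV_ne hST
    rw [← he] at n1 n2
    have h3 := h2 n1 n2
    rw [he, eW_eV hu (hw.le.trans hr1), norm_w0 hu] at h3
    linarith

/-! ### the action -/

theorem norm_ee (s : ℝ) : ‖ee s‖ = 1 := by
  have : ee s = Complex.exp ((2 * Real.pi * s : ℝ) * Complex.I) := by
    unfold ee; push_cast; rfl
  rw [this, Complex.norm_exp_ofReal_mul_I]

theorem continuous_ee : Continuous ee := by
  unfold ee; fun_prop

theorem ee_zero : ee 0 = 1 := by simp [ee]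

theorem ee_one : ee 1 = 1 := by
  unfold ee
  rw [Complex.ofReal_one, mul_one, Complex.exp_two_pi_mul_I]

theorem act_act (u v : ℂ) (z : ℂ × ℂ) : act u (act v z) = act (u * v) z := by
  unfold act
  ext
  · simp only; ring
  · simp only; ring

theorem act_eV {u v w : ℂ} (hu : ‖u‖ = 1) : act u (eV (v, w)) = eV (u * v, u ^ 6 * w) := by
  unfold eV
  rw [act_act]
  congr 2
  simp only [map_mul]
  have h := conj_mul_self hu
  calc (starRingEnd ℂ) v ^ 6 * w = ((starRingEnd ℂ) u * u) ^ 6 * (starRingEnd ℂ) v ^ 6 * w := by rw [h]; ring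
    _ = ((starRingEnd ℂ) u * (starRingEnd ℂ) v) ^ 6 * (u ^ 6 * w) := by ring

theorem act_one (z : ℂ × ℂ) : act 1 z = z := by
  unfold act; simp

theorem act_mem_Exr {r : ℝ} {u : ℂ} (hu : ‖u‖ = 1) {z : ℂ × ℂ} (hz : z ∈ Exr r) : act u z ∈ Exr r := by
  refine ⟨?_, ?_⟩
  · show nrm (act u z) = 1
    rw [nrm_act hu]; exact hz.1
  · rintro ⟨v, w, hv, hw, he⟩
    apply hz.2
    have hc : ‖starRingEnd ℂ u‖ = 1 := by rw [Complex.norm_conj, hu]
    refine ⟨starRingEnd ℂ u * v, starRingEnd ℂ u ^ 6 * w, ?_, ?_, ?_⟩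
    · rw [norm_mul, hc, hv, one_mul]
    · rw [norm_mul, norm_pow, hc, one_pow, one_mul]; exact hw
    · rw [← act_eV hc, ← he, act_act, conj_mul_self hu, act_one]

/-! ### the base point -/

theorem x0_aux : (((1 / Real.sqrt 2 : ℝ) : ℂ), ((1 / Real.sqrt 2 : ℝ) : ℂ) * Complex.I) ∈ Ex := by
  have hs : (0:ℝ) < 1 / Real.sqrt 2 := by positivity
  have hn1 : ‖((1 / Real.sqrt 2 : ℝ) : ℂ)‖ = 1 / Real.sqrt 2 := by
    rw [Complex.norm_real, Real.norm_of_nonneg hs.le]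
  refine (mem_Exr le_rfl).2 ⟨?_, fun _ _ => ?_⟩
  · show nrm _ = 1
    unfold nrm
    rw [norm_mul, Complex.norm_I, mul_one, hn1]
    have : (1 / Real.sqrt 2) ^ 2 + (1 / Real.sqrt 2) ^ 2 = (1:ℝ) := by
      rw [div_pow, Real.sq_sqrt (by norm_num)]; norm_num
    rw [this, Real.sqrt_one]
  · -- `eU = i`, `z₁ / eU² = -1/√2`
    have hU : eU (((1 / Real.sqrt 2 : ℝ) : ℂ), ((1 / Real.sqrt 2 : ℝ) : ℂ) * Complex.I) = Complex.I := by
      unfold eU
      simp only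
      rw [norm_mul, Complex.norm_I, mul_one, hn1, Complex.conj_ofReal]
      have : ((1 / Real.sqrt 2 * (1 / Real.sqrt 2) : ℝ) : ℂ) ≠ 0 := by
        exact_mod_cast (by positivity : (1 / Real.sqrt 2 * (1 / Real.sqrt 2) : ℝ) ≠ 0)
      rw [div_eq_iff this]
      push_cast
      ring
    have hW : (eW (((1 / Real.sqrt 2 : ℝ) : ℂ), ((1 / Real.sqrt 2 : ℝ) : ℂ) * Complex.I)).im = 10 * Real.pi := by
      unfold eW
      rw [hU]
      simp only
      have : ((1 / Real.sqrt 2 : ℝ) : ℂ) / Complex.I ^ 2 = ((-(1 / Real.sqrt 2) : ℝ) : ℂ) := by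
        rw [Complex.I_sq]; push_cast; ring
      rw [this, Complex.arg_ofReal_of_neg (by linarith)]
    have h1 := Complex.abs_im_le_norm (eW (((1 / Real.sqrt 2 : ℝ) : ℂ), ((1 / Real.sqrt 2 : ℝ) : ℂ) * Complex.I))
    rw [hW, abs_of_pos (by positivity)] at h1
    have := Real.pi_gt_three
    linarith

/-! ### acyclicity -/

theorem acyclic_aux {G : Type*} [Group G] {T : ℂ × ℂ → ℂ × ℂ → G} {k V : Type*} [CommRing k]
    [AddCommGroup V] [Module k V] {r : ℝ} (hr : 0 < r)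
    (hr1 : r ≤ 1) (hT : GFlat T (Exr r)) (ρ : G →* (V →ₗ[k] V))
    (hΦ : ∀ x ∈ Exr r, ∀ g, HasTr T (orb x) g → IsUnit (1 - ρ g)) (q : ℕ) :
    HV (sys T ρ) (Exr r) ∅ q := by
  refine circle_lemma (isClosed_Exr hr hr1) isClosed_empty (empty_subset _) hT ρ
    (fun s x => act (ee s) x) ?_ ?_ ?_ ?_ ?_ hΦ q
  · exact (continuous_act (continuous_ee.comp continuous_fst) continuous_snd).continuousOn
  · intro x _
    show act (ee 0) x = x
    rw [ee_zero, act_one]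
  · intro x _
    show act (ee 1) x = x
    rw [ee_one, act_one]
  · intro s _ x hx
    exact act_mem_Exr (norm_ee s) hx
  · intro s _ x hx
    exact hx.elim

/-! ### pushing -/

section push

variable {k V : Type*} [CommRing k] [AddCommGroup V] [Module k V]

theorem HV_of_push {S R : Set (ℂ × ℂ)} (hS : IsCompact S) (cR : IsClosed R) (h2 : R ⊆ S)
    (K : ℝ → ℂ × ℂ → ℂ × ℂ) (hK : ContinuousOn (fun p : ℝ × (ℂ × ℂ) => K p.1 p.2) (Icc 0 1 ×ˢ S))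
    (h0 : ∀ x ∈ S, K 0 x = x) (mS : ∀ s ∈ Icc (0:ℝ) 1, MapsTo (K s) S S)
    (mR : ∀ s ∈ Icc (0:ℝ) 1, MapsTo (K s) R R) (e : MapsTo (K 1) S R) (q : ℕ)
    (h : HV (cT : ℂ × ℂ → ℂ × ℂ → (V →ₗ[k] V)) R ∅ q) :
    HV (cT : ℂ × ℂ → ℂ × ℂ → (V →ₗ[k] V)) S ∅ q := by
  have hb := push_bij (k := k) (V := V) (S := S) (S₁ := ∅) (R := R) (R₁ := ∅) (T := cT) hS isClosed_empty cR isClosed_empty
    (empty_subset _) h2 (le_refl ∅) (empty_subset _) (flat_cT S) K hK h0 mS (fun s _ x hx => hx.elim)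
    mR (fun s _ x hx => hx.elim) e (fun x hx => hx.elim) q
  rw [HV_iff_subsingleton] at h ⊢
  exact hb.1.subsingleton

theorem HV_empty (q : ℕ) : HV (cT : ℂ × ℂ → ℂ × ℂ → (V →ₗ[k] V)) ∅ ∅ q :=
  fun _ _ => ⟨0, NZ.empty, NZ.empty⟩

theorem HV_pt (p : ℂ × ℂ) (q : ℕ) : HV (cT : ℂ × ℂ → ℂ × ℂ → (V →ₗ[k] V)) {p} ∅ (q + 1) :=
  HV_convex (convex_singleton p) isCompact_singleton (flat_cT _) q

theorem HV_un {S₁ S₂ : Set (ℂ × ℂ)} {q : ℕ} (c1 : IsClosed S₁) (c2 : IsClosed S₂)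
    (v1 : HV (cT : ℂ × ℂ → ℂ × ℂ → (V →ₗ[k] V)) S₁ ∅ (q + 1))
    (v2 : HV (cT : ℂ × ℂ → ℂ × ℂ → (V →ₗ[k] V)) S₂ ∅ (q + 1))
    (v : HV (cT : ℂ × ℂ → ℂ × ℂ → (V →ₗ[k] V)) (S₁ ∩ S₂) ∅ q) :
    HV (cT : ℂ × ℂ → ℂ × ℂ → (V →ₗ[k] V)) (S₁ ∪ S₂) ∅ (q + 1) := by
  have h := HV_union (k := k) (V := V) (T := cT) (q := q) c1 c2 isClosed_empty isClosed_empty (empty_subset S₁)
    (empty_subset S₂) (flat_cT _) v1 v2 (by rw [inter_self]; exact v)
  rwa [union_self] at h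

/-- half circles -/
def hc (w : ℂ) : Set (ℂ × ℂ) := {z | ‖z.1‖ = 1 ∧ z.2 = 0 ∧ 0 ≤ (z.1 * starRingEnd ℂ w).re}

/-- the circle `z₂ = 0` -/
def circ : Set (ℂ × ℂ) := {z | ‖z.1‖ = 1 ∧ z.2 = 0}

theorem isCompact_circ : IsCompact circ := by
  refine Metric.isCompact_of_isClosed_isBounded ?_ ?_
  · exact (isClosed_eq (by fun_prop) continuous_const).inter (isClosed_eq continuous_snd continuous_const)
  · refine (Metric.isBounded_closedBall (x := (0 : ℂ × ℂ)) (r := 1)).subset ?_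
    rintro z ⟨h1, h2⟩
    rw [mem_closedBall_zero_iff, Prod.norm_def, h1, h2, norm_zero]
    simp

theorem isClosed_hc (w : ℂ) : IsClosed (hc w) := by
  refine (isClosed_eq (by fun_prop) continuous_const).inter ((isClosed_eq continuous_snd continuous_const).inter ?_)
  exact isClosed_le (f := fun _ : ℂ × ℂ => (0:ℝ)) (g := fun z : ℂ × ℂ => (z.1 * starRingEnd ℂ w).re)
    continuous_const (Complex.continuous_re.comp (continuous_fst.mul continuous_const))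

theorem hc_sub (w : ℂ) : hc w ⊆ circ := fun _ h => ⟨h.1, h.2.1⟩

theorem HV_hc {w : ℂ} (hw : ‖w‖ = 1) (q : ℕ) : HV (cT : ℂ × ℂ → ℂ × ℂ → (V →ₗ[k] V)) (hc w) ∅ (q + 1) := by
  have hww : (w * starRingEnd ℂ w).re = 1 := by
    rw [Complex.mul_conj']; simp [hw]
  have hy : ∀ s ∈ Icc (0:ℝ) 1, ∀ z ∈ hc w, ((1 - s : ℝ) • z.1 + (s : ℝ) • w) ≠ 0 := by
    intro s hs z hz h0
    have h1 := congrArg (fun x => (x * starRingEnd ℂ w).re) h0
    simp only [Complex.real_smul, add_mul, mul_assoc, Complex.add_re, Complex.re_ofReal_mul, zero_mul, Complex.zero_re, hww] at h1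
    have h2 : 0 ≤ (1 - s) * (z.1 * (starRingEnd ℂ) w).re := mul_nonneg (by linarith [hs.2]) hz.2.2
    have h3 : s = 0 := by linarith [hs.1]
    rw [h3] at h0
    simp only [sub_zero, one_smul, zero_smul, add_zero] at h0
    have := hz.1
    rw [h0, norm_zero] at this
    exact zero_ne_one this
  refine HV_of_push (S := hc w) (R := {((w, 0) : ℂ × ℂ)}) (isCompact_circ.of_isClosed_subset (isClosed_hc w) (hc_sub w))
    isClosed_singleton ?_ (fun s z => ((‖(1 - s : ℝ) • z.1 + (s : ℝ) • w‖⁻¹ : ℝ) • ((1 - s : ℝ) • z.1 + (s : ℝ) • w), 0))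
    ?_ ?_ ?_ ?_ ?_ (q + 1) (HV_pt _ q)
  · rintro z rfl
    exact ⟨hw, rfl, by rw [hww]; exact zero_le_one⟩
  · refine ContinuousOn.prodMk ?_ continuousOn_const
    have hcn : Continuous (fun p : ℝ × (ℂ × ℂ) => (1 - p.1 : ℝ) • p.2.1 + (p.1 : ℝ) • w) := by fun_prop
    have hinv : ContinuousOn (fun p : ℝ × (ℂ × ℂ) => (‖(1 - p.1 : ℝ) • p.2.1 + (p.1 : ℝ) • w‖)⁻¹)
        (Icc 0 1 ×ˢ hc w) :=
      ContinuousOn.inv₀ hcn.norm.continuousOn (fun p hp => norm_ne_zero_iff.2 (hy p.1 hp.1 p.2 hp.2))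
    exact hinv.smul hcn.continuousOn
  · rintro ⟨z1, z2⟩ ⟨h1, h2, h3⟩
    simp only at h1 h2
    subst h2
    simp [h1]
  · intro s hs z hz
    have h1 := hy s hs z hz
    refine ⟨?_, rfl, ?_⟩
    · show ‖(‖(1 - s : ℝ) • z.1 + (s : ℝ) • w‖⁻¹ : ℝ) • ((1 - s : ℝ) • z.1 + (s : ℝ) • w)‖ = 1
      rw [norm_smul, norm_inv, norm_norm, inv_mul_cancel₀ (norm_ne_zero_iff.2 h1)]
    · show 0 ≤ (((‖(1 - s : ℝ) • z.1 + (s : ℝ) • w‖⁻¹ : ℝ) • ((1 - s : ℝ) • z.1 + (s : ℝ) • w)) * (starRingEnd ℂ) w).re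
      simp only [Complex.real_smul, mul_assoc, add_mul, Complex.add_re, Complex.re_ofReal_mul, hww]
      have h2 : 0 ≤ (1 - s) * (z.1 * (starRingEnd ℂ) w).re := mul_nonneg (by linarith [hs.2]) hz.2.2
      have h3 : 0 ≤ s := hs.1
      positivity
  · rintro s hs z rfl
    have h1 : (1 - s : ℝ) • w + (s : ℝ) • w = w := by rw [← add_smul]; simp
    show ((‖(1 - s : ℝ) • w + (s : ℝ) • w‖⁻¹ : ℝ) • ((1 - s : ℝ) • w + (s : ℝ) • w), (0:ℂ)) = (w, 0)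
    rw [h1, hw]; simp
  · intro z hz
    show ((‖((1 - 1 : ℝ)) • z.1 + (1 : ℝ) • w‖⁻¹ : ℝ) • ((1 - 1 : ℝ) • z.1 + (1 : ℝ) • w), (0:ℂ)) = (w, 0)
    simp [hw]

theorem HV_circ : HV (cT : ℂ × ℂ → ℂ × ℂ → (V →ₗ[k] V)) circ ∅ 2 := by
  have hu : hc Complex.I ∪ hc (-Complex.I) = circ := by
    ext z
    constructor
    · rintro (h | h)
      exacts [hc_sub _ h, hc_sub _ h]
    · rintro ⟨h1, h2⟩
      rcases le_total 0 ((z.1 * starRingEnd ℂ Complex.I).re) with h | h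
      · exact Or.inl ⟨h1, h2, h⟩
      · refine Or.inr ⟨h1, h2, ?_⟩
        rw [map_neg, mul_neg, Complex.neg_re]
        linarith
  have hi : hc Complex.I ∩ hc (-Complex.I) = {((1:ℂ), (0:ℂ))} ∪ {((-1:ℂ), (0:ℂ))} := by
    ext z
    constructor
    · rintro ⟨⟨h1, h2, h3⟩, -, -, h4⟩
      rw [map_neg, mul_neg, Complex.neg_re] at h4
      have h5 : (z.1 * starRingEnd ℂ Complex.I).re = 0 := by linarith
      have h6 : z.1.im = 0 := by
        rw [Complex.conj_I] at h5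
        simpa using h5
      have h7 : z.1.re ^ 2 = 1 := by
        have := Complex.sq_norm z.1
        rw [h1, Complex.normSq_apply, h6] at this
        nlinarith
      have h8 : (z.1.re - 1) * (z.1.re + 1) = 0 := by nlinarith
      rcases mul_eq_zero.1 h8 with h | h
      · left
        refine Prod.ext (Complex.ext ?_ ?_) h2
        · show z.1.re = 1
          linarith
        · exact h6
      · right
        refine Prod.ext (Complex.ext ?_ ?_) h2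
        · show z.1.re = (-1 : ℂ).re
          rw [Complex.neg_re, Complex.one_re]
          linarith
        · show z.1.im = (-1 : ℂ).im
          rw [Complex.neg_im, Complex.one_im, neg_zero]
          exact h6
    · rintro (rfl | rfl)
      · refine ⟨⟨by simp, rfl, by simp⟩, ⟨by simp, rfl, by simp⟩⟩
      · refine ⟨⟨by simp, rfl, by simp⟩, ⟨by simp, rfl, by simp⟩⟩
  rw [← hu]
  refine HV_un (isClosed_hc _) (isClosed_hc _) (HV_hc (by simp) 1) (HV_hc (by simp) 1) ?_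
  rw [hi]
  refine HV_un isClosed_singleton isClosed_singleton (HV_pt _ 0) (HV_pt _ 0) ?_
  have : ({((1:ℂ), (0:ℂ))} ∩ {((-1:ℂ), (0:ℂ))} : Set (ℂ × ℂ)) = ∅ := by
    rw [singleton_inter_eq_empty]
    intro h
    have := congrArg (fun z : ℂ × ℂ => z.1.re) (mem_singleton_iff.1 h)
    norm_num at this
  rw [this]
  exact HV_empty 0

/-! ### the two solid tori -/

/-- the two halves of the exterior -/
def Yu (r : ℝ) : Set (ℂ × ℂ) := Exr r ∩ {z | ‖z.2‖ ≤ ‖z.1‖}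
def Yv (r : ℝ) : Set (ℂ × ℂ) := Exr r ∩ {z | ‖z.1‖ ≤ ‖z.2‖}
def circ' : Set (ℂ × ℂ) := {z | z.1 = 0 ∧ ‖z.2‖ = 1}

theorem HV_circ' : HV (cT : ℂ × ℂ → ℂ × ℂ → (V →ₗ[k] V)) circ' ∅ 2 := by
  have h := (homeo_HV (Homeomorph.prodComm ℂ ℂ) (cT : ℂ × ℂ → ℂ × ℂ → (V →ₗ[k] V)) circ ∅ 2).1 HV_circ
  have e1 : (Homeomorph.prodComm ℂ ℂ) ⁻¹' circ = circ' := by
    ext z
    constructor
    · rintro ⟨h1, h2⟩; exact ⟨h2, h1⟩
    · rintro ⟨h1, h2⟩; exact ⟨h2, h1⟩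
  rw [e1, preimage_empty] at h
  exact h

theorem isCompact_Yu {r : ℝ} (hr : 0 < r) (hr1 : r ≤ 1) : IsCompact (Yu r) :=
  (isClosed_Exr hr hr1).inter_right (isClosed_le (by fun_prop) (by fun_prop))
theorem isCompact_Yv {r : ℝ} (hr : 0 < r) (hr1 : r ≤ 1) : IsCompact (Yv r) :=
  (isClosed_Exr hr hr1).inter_right (isClosed_le (by fun_prop) (by fun_prop))

theorem Yu_union {r : ℝ} : Yu r ∪ Yv r = Exr r := by
  ext z
  constructor
  · rintro (h | h)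
    exacts [h.1, h.1]
  · intro h
    rcases le_total ‖z.2‖ ‖z.1‖ with h1 | h1
    exacts [Or.inl ⟨h, h1⟩, Or.inr ⟨h, h1⟩]

theorem norm_eW_le {x y : ℂ} (h1 : |x.re| ≤ |y.re|) (h2 : x.im = y.im) : ‖x‖ ≤ ‖y‖ := by
  rw [Complex.norm_eq_sqrt_sq_add_sq, Complex.norm_eq_sqrt_sq_add_sq, h2]
  apply Real.sqrt_le_sqrt
  have := sq_le_sq.2 h1
  linarith

/-- scaling one coordinate towards zero does not enter the tube -/
theorem eW_scale {z : ℂ × ℂ} {a b : ℝ} (ha : 0 < a) (hb : 0 < b) (n1 : z.1 ≠ 0) (n2 : z.2 ≠ 0)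
    (h : (‖z.2‖ ≤ ‖z.1‖ ∧ b ≤ a) ∨ (‖z.1‖ ≤ ‖z.2‖ ∧ a ≤ b)) :
    ‖eW z‖ ≤ ‖eW ((a : ℂ) * z.1, (b : ℂ) * z.2)‖ := by
  have p1 : 0 < ‖z.1‖ := norm_pos_iff.2 n1
  have p2 : 0 < ‖z.2‖ := norm_pos_iff.2 n2
  have hna : ‖(a : ℂ) * z.1‖ = a * ‖z.1‖ := by
    rw [norm_mul, Complex.norm_real, Real.norm_of_nonneg ha.le]
  have hnb : ‖(b : ℂ) * z.2‖ = b * ‖z.2‖ := by
    rw [norm_mul, Complex.norm_real, Real.norm_of_nonneg hb.le]
  have hU : eU ((a : ℂ) * z.1, (b : ℂ) * z.2) = eU z := by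
    unfold eU
    simp only [hna, hnb, map_mul, Complex.conj_ofReal]
    have e1 : (a : ℂ) ≠ 0 := by exact_mod_cast ha.ne'
    have e2 : (b : ℂ) ≠ 0 := by exact_mod_cast hb.ne'
    have e3 : (‖z.1‖ : ℂ) ≠ 0 := by exact_mod_cast p1.ne'
    have e4 : (‖z.2‖ : ℂ) ≠ 0 := by exact_mod_cast p2.ne'
    push_cast
    field_simp
  apply norm_eW_le
  · show |10 * (Real.pi / 4 - Real.arctan (‖z.2‖ / ‖z.1‖))| ≤
      |10 * (Real.pi / 4 - Real.arctan (‖(b : ℂ) * z.2‖ / ‖(a : ℂ) * z.1‖))|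
    rw [hna, hnb]
    rcases h with ⟨h1, h2⟩ | ⟨h1, h2⟩
    · have h3 : ‖z.2‖ / ‖z.1‖ ≤ 1 := (div_le_one p1).2 h1
      have h4 : b * ‖z.2‖ / (a * ‖z.1‖) ≤ ‖z.2‖ / ‖z.1‖ := by
        rw [div_le_div_iff₀ (by positivity) p1]
        have : b * (‖z.2‖ * ‖z.1‖) ≤ a * (‖z.2‖ * ‖z.1‖) := mul_le_mul_of_nonneg_right h2 (by positivity)
        nlinarith
      have h5 := Real.arctan_mono h4
      have h6 := Real.arctan_mono h3
      rw [Real.arctan_one] at h6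
      rw [abs_of_nonneg (by linarith), abs_of_nonneg (by linarith)]
      linarith
    · have h3 : 1 ≤ ‖z.2‖ / ‖z.1‖ := (one_le_div p1).2 h1
      have h4 : ‖z.2‖ / ‖z.1‖ ≤ b * ‖z.2‖ / (a * ‖z.1‖) := by
        rw [div_le_div_iff₀ p1 (by positivity)]
        have : a * (‖z.2‖ * ‖z.1‖) ≤ b * (‖z.2‖ * ‖z.1‖) := mul_le_mul_of_nonneg_right h2 (by positivity)
        nlinarith
      have h5 := Real.arctan_mono h4
      have h6 := Real.arctan_mono h3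
      rw [Real.arctan_one] at h6
      rw [abs_of_nonpos (by linarith), abs_of_nonpos (by linarith)]
      linarith
  · show 10 * Complex.arg (z.1 / eU z ^ 2) = 10 * Complex.arg ((a : ℂ) * z.1 / eU ((a : ℂ) * z.1, (b : ℂ) * z.2) ^ 2)
    rw [hU, mul_div_assoc, Complex.arg_real_mul _ ha]

/-- the scaled and normalised point -/
noncomputable def scl (a b : ℝ) (z : ℂ × ℂ) : ℂ × ℂ :=
  (nrm ((a : ℂ) * z.1, (b : ℂ) * z.2))⁻¹ • (((a : ℂ) * z.1, (b : ℂ) * z.2) : ℂ × ℂ)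

theorem nrm_pos' {z : ℂ × ℂ} (h : z.1 ≠ 0 ∨ z.2 ≠ 0) : 0 < nrm z := by
  unfold nrm
  apply Real.sqrt_pos.2
  rcases h with h | h
  · have := norm_pos_iff.2 h; positivity
  · have := norm_pos_iff.2 h; positivity

theorem scl_mem {r : ℝ} (hr1 : r ≤ 1) {z : ℂ × ℂ} (hz : z ∈ Exr r) {a b : ℝ} (ha : 0 ≤ a) (hb : 0 ≤ b)
    (hn : ((a : ℂ) * z.1 ≠ 0) ∨ ((b : ℂ) * z.2 ≠ 0))
    (h : (‖z.2‖ ≤ ‖z.1‖ ∧ b ≤ a) ∨ (‖z.1‖ ≤ ‖z.2‖ ∧ a ≤ b)) : scl a b z ∈ Exr r := by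
  have hp : 0 < nrm ((a : ℂ) * z.1, (b : ℂ) * z.2) := nrm_pos' hn
  refine (mem_Exr hr1).2 ⟨?_, fun m1 m2 => ?_⟩
  · show nrm (scl a b z) = 1
    unfold scl
    rw [nrm_smul_pos (inv_pos.2 hp), inv_mul_cancel₀ hp.ne']
  · have m1' : (a : ℂ) * z.1 ≠ 0 := by
      intro h0
      apply m1
      show (nrm ((a : ℂ) * z.1, (b : ℂ) * z.2))⁻¹ • ((a : ℂ) * z.1) = 0
      rw [h0, smul_zero]
    have m2' : (b : ℂ) * z.2 ≠ 0 := by
      intro h0
      apply m2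
      show (nrm ((a : ℂ) * z.1, (b : ℂ) * z.2))⁻¹ • ((b : ℂ) * z.2) = 0
      rw [h0, smul_zero]
    have ha' : 0 < a := lt_of_le_of_ne ha (fun h0 => m1' (by rw [← h0]; simp))
    have hb' : 0 < b := lt_of_le_of_ne hb (fun h0 => m2' (by rw [← h0]; simp))
    have n1 : z.1 ≠ 0 := right_ne_zero_of_mul m1'
    have n2 : z.2 ≠ 0 := right_ne_zero_of_mul m2'
    unfold scl
    rw [eW_smul _ (inv_pos.2 hp)]
    exact (((mem_Exr hr1).1 hz).2 n1 n2).trans (eW_scale ha' hb' n1 n2 h)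

theorem scl_cont {S : Set (ℝ × (ℂ × ℂ))} {a b : ℝ → ℝ} (ha : Continuous a) (hb : Continuous b)
    (h : ∀ p ∈ S, ((a p.1 : ℂ) * p.2.1 ≠ 0) ∨ ((b p.1 : ℂ) * p.2.2 ≠ 0)) :
    ContinuousOn (fun p : ℝ × (ℂ × ℂ) => scl (a p.1) (b p.1) p.2) S := by
  have h1 : Continuous (fun p : ℝ × (ℂ × ℂ) => (((a p.1 : ℂ) * p.2.1, (b p.1 : ℂ) * p.2.2) : ℂ × ℂ)) := by
    fun_prop
  have h2 : ContinuousOn (fun p : ℝ × (ℂ × ℂ) => (nrm ((a p.1 : ℂ) * p.2.1, (b p.1 : ℂ) * p.2.2))⁻¹) S :=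
    ContinuousOn.inv₀ (continuous_nrm.comp h1).continuousOn (fun p hp => (nrm_pos' (h p hp)).ne')
  exact h2.smul h1.continuousOn

theorem Yu_ne {r : ℝ} {z : ℂ × ℂ} (hz : z ∈ Yu r) : z.1 ≠ 0 := by
  intro h0
  have h1 : nrm z = 1 := hz.1.1
  have h2 : ‖z.2‖ ≤ ‖z.1‖ := hz.2
  rw [h0, norm_zero] at h2
  have h3 : ‖z.2‖ = 0 := le_antisymm h2 (norm_nonneg _)
  unfold nrm at h1
  rw [h0, h3, norm_zero] at h1
  norm_num at h1

theorem Yv_ne {r : ℝ} {z : ℂ × ℂ} (hz : z ∈ Yv r) : z.2 ≠ 0 := by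
  intro h0
  have h1 : nrm z = 1 := hz.1.1
  have h2 : ‖z.1‖ ≤ ‖z.2‖ := hz.2
  rw [h0, norm_zero] at h2
  have h3 : ‖z.1‖ = 0 := le_antisymm h2 (norm_nonneg _)
  unfold nrm at h1
  rw [h0, h3, norm_zero] at h1
  norm_num at h1

theorem nrm_left (x : ℂ) : nrm (x, 0) = ‖x‖ := by
  unfold nrm
  simp [Real.sqrt_sq (norm_nonneg x)]

theorem nrm_right (x : ℂ) : nrm (0, x) = ‖x‖ := by
  unfold nrm
  simp [Real.sqrt_sq (norm_nonneg x)]

theorem circ_sub {r : ℝ} (hr1 : r ≤ 1) : circ ⊆ Yu r := by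
  rintro ⟨z1, z2⟩ ⟨h1, h2⟩
  simp only at h1 h2
  subst h2
  refine ⟨(mem_Exr hr1).2 ⟨?_, fun _ h => absurd rfl h⟩, ?_⟩
  · show nrm (z1, 0) = 1
    rw [nrm_left, h1]
  · show ‖(0:ℂ)‖ ≤ ‖z1‖
    rw [norm_zero]; exact norm_nonneg _

theorem circ'_sub {r : ℝ} (hr1 : r ≤ 1) : circ' ⊆ Yv r := by
  rintro ⟨z1, z2⟩ ⟨h1, h2⟩
  simp only at h1 h2
  subst h1
  refine ⟨(mem_Exr hr1).2 ⟨?_, fun h _ => absurd rfl h⟩, ?_⟩
  · show nrm (0, z2) = 1
    rw [nrm_right, h2]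
  · show ‖(0:ℂ)‖ ≤ ‖z2‖
    rw [norm_zero]; exact norm_nonneg _

theorem isClosed_circ' : IsClosed circ' :=
  (isClosed_eq continuous_fst continuous_const).inter (isClosed_eq (by fun_prop) continuous_const)

theorem scl_one {z : ℂ × ℂ} (hz : nrm z = 1) : scl 1 1 z = z := by
  unfold scl
  simp only [Complex.ofReal_one, one_mul]
  rw [show ((z.1, z.2) : ℂ × ℂ) = z from rfl, hz, inv_one, one_smul]

theorem scl_fst {a b : ℝ} {z : ℂ × ℂ} : ‖(scl a b z).1‖ = (nrm ((a : ℂ) * z.1, (b : ℂ) * z.2))⁻¹ * (|a| * ‖z.1‖) := by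
  show ‖(nrm ((a : ℂ) * z.1, (b : ℂ) * z.2))⁻¹ • ((a : ℂ) * z.1)‖ = _
  rw [norm_smul, norm_mul, Complex.norm_real, Real.norm_eq_abs, abs_of_nonneg (inv_nonneg.2 (nrm_nonneg _)),
    Real.norm_eq_abs]

theorem scl_snd {a b : ℝ} {z : ℂ × ℂ} : ‖(scl a b z).2‖ = (nrm ((a : ℂ) * z.1, (b : ℂ) * z.2))⁻¹ * (|b| * ‖z.2‖) := by
  show ‖(nrm ((a : ℂ) * z.1, (b : ℂ) * z.2))⁻¹ • ((b : ℂ) * z.2)‖ = _
  rw [norm_smul, norm_mul, Complex.norm_real, Real.norm_eq_abs, abs_of_nonneg (inv_nonneg.2 (nrm_nonneg _)),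
    Real.norm_eq_abs]

theorem HV_Yu {r : ℝ} (hr : 0 < r) (hr1 : r ≤ 1) : HV (cT : ℂ × ℂ → ℂ × ℂ → (V →ₗ[k] V)) (Yu r) ∅ 2 := by
  refine HV_of_push (S := Yu r) (R := circ) (isCompact_Yu hr hr1) isCompact_circ.isClosed (circ_sub hr1)
    (fun s z => scl 1 (1 - s) z) ?_ ?_ ?_ ?_ ?_ 2 HV_circ
  · refine scl_cont (a := fun _ => 1) (b := fun s => 1 - s) continuous_const (by fun_prop) ?_
    rintro ⟨s, z⟩ ⟨-, hz⟩
    left
    simpa using Yu_ne hz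
  · intro z hz
    show scl 1 (1 - 0) z = z
    rw [sub_zero, scl_one hz.1.1]
  · intro s hs z hz
    refine ⟨scl_mem hr1 hz.1 zero_le_one (by linarith [hs.2]) (Or.inl (by simpa using Yu_ne hz))
      (Or.inl ⟨hz.2, by linarith [hs.1]⟩), ?_⟩
    show ‖(scl 1 (1 - s) z).2‖ ≤ ‖(scl 1 (1 - s) z).1‖
    rw [scl_fst, scl_snd]
    refine mul_le_mul_of_nonneg_left ?_ (inv_nonneg.2 (nrm_nonneg _))
    rw [abs_one, one_mul, abs_of_nonneg (by linarith [hs.2])]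
    have h1 : ‖z.2‖ ≤ ‖z.1‖ := hz.2
    have h2 := norm_nonneg z.2
    nlinarith [hs.1, hs.2]
  · rintro s hs ⟨z1, z2⟩ ⟨h1, h2⟩
    simp only at h1 h2
    subst h2
    show scl 1 (1 - s) (z1, 0) ∈ circ
    unfold scl
    simp only [Complex.ofReal_one, one_mul, mul_zero]
    rw [nrm_left, h1, inv_one, one_smul]
    exact ⟨h1, rfl⟩
  · intro z hz
    show scl 1 (1 - 1) z ∈ circ
    have h1 := norm_pos_iff.2 (Yu_ne hz)
    refine ⟨?_, ?_⟩
    · rw [scl_fst]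
      simp only [sub_self, Complex.ofReal_one, one_mul, Complex.ofReal_zero, zero_mul, abs_one]
      rw [nrm_left, inv_mul_cancel₀ h1.ne']
    · show (nrm (((1:ℝ) : ℂ) * z.1, ((1 - 1 : ℝ) : ℂ) * z.2))⁻¹ • (((1 - 1 : ℝ) : ℂ) * z.2) = 0
      simp

theorem HV_Yv {r : ℝ} (hr : 0 < r) (hr1 : r ≤ 1) : HV (cT : ℂ × ℂ → ℂ × ℂ → (V →ₗ[k] V)) (Yv r) ∅ 2 := by
  refine HV_of_push (S := Yv r) (R := circ') (isCompact_Yv hr hr1) isClosed_circ' (circ'_sub hr1)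
    (fun s z => scl (1 - s) 1 z) ?_ ?_ ?_ ?_ ?_ 2 HV_circ'
  · refine scl_cont (a := fun s => 1 - s) (b := fun _ => 1) (by fun_prop) continuous_const ?_
    rintro ⟨s, z⟩ ⟨-, hz⟩
    right
    simpa using Yv_ne hz
  · intro z hz
    show scl (1 - 0) 1 z = z
    rw [sub_zero, scl_one hz.1.1]
  · intro s hs z hz
    refine ⟨scl_mem hr1 hz.1 (by linarith [hs.2]) zero_le_one (Or.inr (by simpa using Yv_ne hz))
      (Or.inr ⟨hz.2, by linarith [hs.1]⟩), ?_⟩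
    show ‖(scl (1 - s) 1 z).1‖ ≤ ‖(scl (1 - s) 1 z).2‖
    rw [scl_fst, scl_snd]
    refine mul_le_mul_of_nonneg_left ?_ (inv_nonneg.2 (nrm_nonneg _))
    rw [abs_one, one_mul, abs_of_nonneg (by linarith [hs.2])]
    have h1 : ‖z.1‖ ≤ ‖z.2‖ := hz.2
    have h2 := norm_nonneg z.1
    nlinarith [hs.1, hs.2]
  · rintro s hs ⟨z1, z2⟩ ⟨h1, h2⟩
    simp only at h1 h2
    subst h1
    show scl (1 - s) 1 (0, z2) ∈ circ'
    unfold scl
    simp only [Complex.ofReal_one, one_mul, mul_zero]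
    rw [nrm_right, h2, inv_one, one_smul]
    exact ⟨rfl, h2⟩
  · intro z hz
    show scl (1 - 1) 1 z ∈ circ'
    have h1 := norm_pos_iff.2 (Yv_ne hz)
    refine ⟨?_, ?_⟩
    · show (nrm (((1 - 1 : ℝ) : ℂ) * z.1, ((1:ℝ) : ℂ) * z.2))⁻¹ • (((1 - 1 : ℝ) : ℂ) * z.1) = 0
      simp
    · rw [scl_snd]
      simp only [sub_self, Complex.ofReal_one, one_mul, Complex.ofReal_zero, zero_mul, abs_one]
      rw [nrm_right, inv_mul_cancel₀ h1.ne']

/-! ### the annulus -/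

/-- the third coordinate angle, the tube is where it is close to the positive real axis -/
noncomputable def bb (z : ℂ × ℂ) : ℂ := z.1 / eU z ^ 2

/-- the twisting angle -/
noncomputable def psi (z : ℂ × ℂ) : ℝ := Complex.arg (-bb z)

noncomputable def y0 : ℂ × ℂ := (((-(1 / Real.sqrt 2) : ℝ) : ℂ), ((-(1 / Real.sqrt 2) : ℝ) : ℂ))

noncomputable def tau (t : ℝ) : ℂ × ℂ := act (ee t) y0

theorem norm_eq_A {r : ℝ} {z : ℂ × ℂ} (hz : z ∈ Yu r ∩ Yv r) : ‖z.1‖ = ‖z.2‖ := le_antisymm hz.2.2 hz.1.2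

theorem norm_A {r : ℝ} {z : ℂ × ℂ} (hz : z ∈ Yu r ∩ Yv r) : ‖z.1‖ = 1 / Real.sqrt 2 ∧ ‖z.2‖ = 1 / Real.sqrt 2 := by
  have h1 := norm_eq_A hz
  have h2 : nrm z = 1 := hz.1.1.1
  have h3 := nrm_sq z
  rw [h2, ← h1] at h3
  have h4 : ‖z.1‖ = 1 / Real.sqrt 2 := by
    rw [eq_div_iff (by positivity)]
    have h5 : (‖z.1‖ * Real.sqrt 2) ^ 2 = 1 := by
      rw [mul_pow, Real.sq_sqrt (by norm_num)]; linarith
    have h6 : 0 ≤ ‖z.1‖ * Real.sqrt 2 := by positivity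
    nlinarith
  exact ⟨h4, by rw [← h1, h4]⟩

theorem norm_eW_A {z : ℂ × ℂ} (n1 : z.1 ≠ 0) (h : ‖z.1‖ = ‖z.2‖) : ‖eW z‖ = 10 * |Complex.arg (bb z)| := by
  have h1 : (eW z).re = 0 := by
    show 10 * (Real.pi / 4 - Real.arctan (‖z.2‖ / ‖z.1‖)) = 0
    rw [← h, div_self (norm_ne_zero_iff.2 n1), Real.arctan_one]
    ring
  have h2 : (eW z).im = 10 * Complex.arg (bb z) := rfl
  rw [Complex.norm_eq_sqrt_sq_add_sq, h1, h2]
  have : (0:ℝ) ^ 2 + (10 * Complex.arg (bb z)) ^ 2 = (10 * |Complex.arg (bb z)|) ^ 2 := by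
    rw [mul_pow, mul_pow, sq_abs]; ring
  rw [this, Real.sqrt_sq (by positivity)]

theorem bb_ne {z : ℂ × ℂ} (n1 : z.1 ≠ 0) (n2 : z.2 ≠ 0) : bb z ≠ 0 := by
  unfold bb
  refine div_ne_zero n1 (pow_ne_zero _ ?_)
  rw [← norm_ne_zero_iff, norm_eU n1 n2]
  exact one_ne_zero

theorem arg_A {r : ℝ} (hr1 : r ≤ 1) {z : ℂ × ℂ} (hz : z ∈ Yu r ∩ Yv r) : r ≤ 10 * |Complex.arg (bb z)| := by
  have n1 := Yu_ne hz.1
  have n2 := Yv_ne hz.2
  rw [← norm_eW_A n1 (norm_eq_A hz)]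
  exact ((mem_Exr hr1).1 hz.1.1).2 n1 n2

theorem slit_A {r : ℝ} (hr : 0 < r) (hr1 : r ≤ 1) {z : ℂ × ℂ} (hz : z ∈ Yu r ∩ Yv r) : -bb z ∈ Complex.slitPlane := by
  have h1 := arg_A hr1 hz
  rw [Complex.mem_slitPlane_iff_arg]
  refine ⟨?_, neg_ne_zero.2 (bb_ne (Yu_ne hz.1) (Yv_ne hz.2))⟩
  intro h2
  rw [Complex.arg_eq_pi_iff] at h2
  have h3 : Complex.arg (bb z) = 0 := by
    rw [Complex.arg_eq_zero_iff]
    obtain ⟨h4, h5⟩ := h2
    rw [Complex.neg_re] at h4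
    rw [Complex.neg_im] at h5
    exact ⟨by linarith, by linarith⟩
  rw [h3, abs_zero, mul_zero] at h1
  linarith

theorem mem_A {r : ℝ} (hr1 : r ≤ 1) {z : ℂ × ℂ} (h1 : nrm z = 1) (h2 : ‖z.1‖ = ‖z.2‖)
    (h3 : r ≤ 10 * |Complex.arg (bb z)|) : z ∈ Yu r ∩ Yv r := by
  have h4 : z ∈ Exr r := (mem_Exr hr1).2 ⟨h1, fun n1 _ => by rw [norm_eW_A n1 h2]; exact h3⟩
  exact ⟨⟨h4, h2.ge⟩, ⟨h4, h2.le⟩⟩

theorem eU_mul {z : ℂ × ℂ} {l : ℂ} (hl : ‖l‖ = 1) : eU (z.1 * l, z.2 * l) = eU z := by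
  unfold eU
  simp only [norm_mul, hl, mul_one, map_mul]
  have h := conj_mul_self hl
  congr 1
  calc z.2 * l * ((starRingEnd ℂ) z.1 * (starRingEnd ℂ) l) = z.2 * (starRingEnd ℂ) z.1 * ((starRingEnd ℂ) l * l) := by ring
    _ = z.2 * (starRingEnd ℂ) z.1 := by rw [h, mul_one]

theorem bb_mul {z : ℂ × ℂ} {l : ℂ} (hl : ‖l‖ = 1) : bb (z.1 * l, z.2 * l) = l * bb z := by
  unfold bb
  rw [eU_mul hl]
  simp only
  ring

theorem abs_arg_le {x y : ℂ} (hx : x ≠ 0) (hn : ‖x‖ = ‖y‖) (h : x.re ≤ y.re) : |Complex.arg y| ≤ |Complex.arg x| := by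
  have hy : y ≠ 0 := by
    rw [← norm_ne_zero_iff, ← hn]; exact norm_ne_zero_iff.2 hx
  by_contra hcon
  push Not at hcon
  have h1 := Real.cos_lt_cos_of_nonneg_of_le_pi (abs_nonneg _) (Complex.abs_arg_le_pi y) hcon
  rw [Real.cos_abs, Real.cos_abs, Complex.cos_arg hx, Complex.cos_arg hy, hn] at h1
  have h2 : x.re / ‖y‖ ≤ y.re / ‖y‖ := div_le_div_of_nonneg_right h (norm_nonneg _)
  linarith

/-- rotation away from the tube -/
theorem abs_arg_rot {b : ℂ} (hb : b ≠ 0) {s : ℝ} (hs : s ∈ Icc (0:ℝ) 1) :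
    |Complex.arg b| ≤ |Complex.arg (Complex.exp ((-(s * Complex.arg (-b)) : ℝ) * Complex.I) * b)| := by
  have hnb : -b ≠ 0 := neg_ne_zero.2 hb
  have h1 : b = -(‖b‖ * Complex.exp (Complex.arg (-b) * Complex.I)) := by
    have := Complex.norm_mul_exp_arg_mul_I (-b)
    rw [norm_neg] at this
    rw [this, neg_neg]
  have hl : ‖Complex.exp ((-(s * Complex.arg (-b)) : ℝ) * Complex.I)‖ = 1 := Complex.norm_exp_ofReal_mul_I _
  refine abs_arg_le (mul_ne_zero (Complex.exp_ne_zero _) hb) (by rw [norm_mul, hl, one_mul]) ?_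
  have h2 : Complex.exp ((-(s * Complex.arg (-b)) : ℝ) * Complex.I) * b =
      -(‖b‖ * Complex.exp (((1 - s) * Complex.arg (-b) : ℝ) * Complex.I)) := by
    nth_rewrite 2 [h1]
    have : Complex.exp (((1 - s) * Complex.arg (-b) : ℝ) * Complex.I) =
        Complex.exp ((-(s * Complex.arg (-b)) : ℝ) * Complex.I) * Complex.exp (Complex.arg (-b) * Complex.I) := by
      rw [← Complex.exp_add]
      congr 1
      push_cast
      ring
    rw [this]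
    ring
  have h3 : b.re = -(‖b‖ * Real.cos (Complex.arg (-b))) := by
    have h5 := congrArg Complex.re h1
    rw [Complex.neg_re, Complex.re_ofReal_mul, Complex.exp_ofReal_mul_I_re] at h5
    exact h5
  rw [h2, h3, Complex.neg_re, Complex.re_ofReal_mul, Complex.exp_ofReal_mul_I_re]
  have h4 : Real.cos (Complex.arg (-b)) ≤ Real.cos ((1 - s) * Complex.arg (-b)) := by
    rw [← Real.cos_abs (Complex.arg (-b)), ← Real.cos_abs ((1 - s) * Complex.arg (-b))]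
    refine Real.cos_le_cos_of_nonneg_of_le_pi (abs_nonneg _) (Complex.abs_arg_le_pi _) ?_
    rw [abs_mul, abs_of_nonneg (by linarith [hs.2] : 0 ≤ 1 - s)]
    have := abs_nonneg (Complex.arg (-b))
    nlinarith [hs.1]
  have := mul_le_mul_of_nonneg_left h4 (norm_nonneg b)
  linarith

/-- the formula of the homotopy -/
noncomputable def KA0 (s : ℝ) (z : ℂ × ℂ) : ℂ × ℂ :=
  (((1 - s) + s / (Real.sqrt 2 * ‖z.1‖) : ℝ) * (z.1 * Complex.exp ((-(s * psi z) : ℝ) * Complex.I)),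
   ((1 - s) + s / (Real.sqrt 2 * ‖z.2‖) : ℝ) * (z.2 * Complex.exp ((-(s * psi z) : ℝ) * Complex.I)))

open Classical in
/-- the homotopy -/
noncomputable def KA (s : ℝ) (z : ℂ × ℂ) : ℂ × ℂ :=
  if z.1 ≠ 0 ∧ z.2 ≠ 0 then KA0 s z else if s = 0 then z else tau (ang eU z)

theorem KA_zero (z : ℂ × ℂ) : KA 0 z = z := by
  unfold KA
  by_cases h1 : z.1 ≠ 0 ∧ z.2 ≠ 0
  · rw [if_pos h1]
    unfold KA0
    simp
  · rw [if_neg h1, if_pos rfl]

theorem KA0_A {r : ℝ} {z : ℂ × ℂ} (hz : z ∈ Yu r ∩ Yv r) (s : ℝ) :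
    KA0 s z = (z.1 * Complex.exp ((-(s * psi z) : ℝ) * Complex.I), z.2 * Complex.exp ((-(s * psi z) : ℝ) * Complex.I)) := by
  obtain ⟨h1, h2⟩ := norm_A hz
  have h3 : (1 - s) + s / (Real.sqrt 2 * (1 / Real.sqrt 2)) = 1 := by
    have : Real.sqrt 2 * (1 / Real.sqrt 2) = 1 := mul_one_div_cancel (by positivity)
    rw [this]; ring
  unfold KA0
  rw [h1, h2, h3, Complex.ofReal_one, one_mul, one_mul]

theorem KA_mem {r : ℝ} (hr1 : r ≤ 1) {s : ℝ} (hs : s ∈ Icc (0:ℝ) 1) {z : ℂ × ℂ} (hz : z ∈ Yu r ∩ Yv r) :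
    KA s z ∈ Yu r ∩ Yv r := by
  have n1 := Yu_ne hz.1
  have n2 := Yv_ne hz.2
  have hl : ‖Complex.exp ((-(s * psi z) : ℝ) * Complex.I)‖ = 1 := Complex.norm_exp_ofReal_mul_I _
  unfold KA
  rw [if_pos ⟨n1, n2⟩, KA0_A hz]
  refine mem_A hr1 ?_ ?_ ?_
  · have h1 : nrm z = 1 := hz.1.1.1
    unfold nrm at h1 ⊢
    rw [norm_mul, norm_mul, hl, mul_one, mul_one, h1]
  · rw [norm_mul, norm_mul, norm_eq_A hz]
  · rw [bb_mul hl]
    refine (arg_A hr1 hz).trans ?_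
    have := abs_arg_rot (bb_ne n1 n2) hs
    unfold psi
    linarith

theorem ee_ang {f : ℂ × ℂ → ℂ} {z : ℂ × ℂ} (h : f z ≠ 0) : ee (ang f z) = f z / ‖f z‖ := by
  have hn : (‖f z‖ : ℂ) ≠ 0 := by exact_mod_cast norm_ne_zero_iff.2 h
  rw [eq_div_iff hn]
  have h1 := Complex.norm_mul_exp_arg_mul_I (f z)
  unfold ee ang
  have h2 : 2 * (Real.pi : ℂ) * ((Complex.arg (f z) / (2 * Real.pi) : ℝ) : ℂ) * Complex.I = Complex.arg (f z) * Complex.I := by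
    have : (Real.pi : ℂ) ≠ 0 := by exact_mod_cast Real.pi_ne_zero
    push_cast
    field_simp
  rw [h2, mul_comm, h1]

theorem KA_one (z : ℂ × ℂ) : KA 1 z = tau (ang eU z) := by
  unfold KA
  split_ifs with h1 h2
  · obtain ⟨n1, n2⟩ := h1
    have hU := norm_eU n1 n2
    have hU0 : eU z ≠ 0 := by rw [← norm_ne_zero_iff, hU]; exact one_ne_zero
    have he : ee (ang eU z) = eU z := by rw [ee_ang hU0, hU]; simp
    have p1 : (‖z.1‖ : ℂ) ≠ 0 := by exact_mod_cast norm_ne_zero_iff.2 n1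
    have p2 : (‖z.2‖ : ℂ) ≠ 0 := by exact_mod_cast norm_ne_zero_iff.2 n2
    have hs : ((Real.sqrt 2 : ℝ) : ℂ) ≠ 0 := by
      exact_mod_cast (by positivity : Real.sqrt 2 ≠ 0)
    have hb := bb_ne n1 n2
    have hbn : ‖bb z‖ = ‖z.1‖ := by
      unfold bb
      rw [norm_div, norm_pow, hU, one_pow, div_one]
    -- the rotation
    have h3 : Complex.exp ((-(1 * psi z) : ℝ) * Complex.I) = -(‖z.1‖ * eU z ^ 2 / z.1) := by
      have h4 := Complex.norm_mul_exp_arg_mul_I (-bb z)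
      rw [norm_neg, hbn] at h4
      have h5 : Complex.exp ((-(1 * psi z) : ℝ) * Complex.I) = (Complex.exp (Complex.arg (-bb z) * Complex.I))⁻¹ := by
        rw [← Complex.exp_neg]
        congr 1
        unfold psi
        push_cast
        ring
      have h6 : Complex.exp (Complex.arg (-bb z) * Complex.I) = -bb z / ‖z.1‖ := by
        rw [eq_div_iff p1, mul_comm]; exact h4
      rw [h5, h6]
      unfold bb
      field_simp
    have hUU : eU z = z.2 * ‖z.1‖ / (‖z.2‖ * z.1) := by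
      unfold eU
      have h7 : starRingEnd ℂ z.1 * z.1 = (‖z.1‖ : ℂ) ^ 2 := Complex.conj_mul' z.1
      push_cast
      rw [div_eq_div_iff (mul_ne_zero p2 p1) (mul_ne_zero p2 n1)]
      calc z.2 * (starRingEnd ℂ) z.1 * (‖z.2‖ * z.1) = z.2 * ‖z.2‖ * ((starRingEnd ℂ) z.1 * z.1) := by ring
        _ = z.2 * ‖z.1‖ * (‖z.2‖ * ‖z.1‖) := by rw [h7]; ring
    unfold KA0 tau act y0
    rw [he, h3]
    ext
    · simp only
      push_cast
      field_simp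
      ring
    · simp only
      have h8 : eU z ^ 3 = eU z ^ 2 * (z.2 * ‖z.1‖ / (‖z.2‖ * z.1)) := by
        rw [← hUU]; ring
      rw [h8]
      push_cast
      field_simp
      ring
  · exact absurd h2 one_ne_zero
  · rfl

theorem KA_cont {r : ℝ} (hr : 0 < r) (hr1 : r ≤ 1) {s : ℝ} {z : ℂ × ℂ} (hz : z ∈ Yu r ∩ Yv r) :
    ContinuousAt (fun p : ℝ × (ℂ × ℂ) => KA p.1 p.2) (s, z) := by
  have n1 := Yu_ne hz.1
  have n2 := Yv_ne hz.2
  have hpsi : ContinuousAt psi z := by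
    have h1 : ContinuousAt bb z := by
      unfold bb
      refine ContinuousAt.div continuous_fst.continuousAt ((continuousAt_eU n1 n2).pow 2) (pow_ne_zero _ ?_)
      rw [← norm_ne_zero_iff, norm_eU n1 n2]
      exact one_ne_zero
    exact ContinuousAt.comp (f := fun z => -bb z) (g := Complex.arg) (Complex.continuousAt_arg (slit_A hr hr1 hz)) h1.neg
  have hp : ContinuousAt (fun p : ℝ × (ℂ × ℂ) => psi p.2) (s, z) :=
    ContinuousAt.comp (f := fun p : ℝ × (ℂ × ℂ) => p.2) (g := psi) (by exact hpsi) continuous_snd.continuousAt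
  have h0 : ContinuousAt (fun p : ℝ × (ℂ × ℂ) => KA0 p.1 p.2) (s, z) := by
    unfold KA0
    have he : ContinuousAt (fun p : ℝ × (ℂ × ℂ) => Complex.exp ((-(p.1 * psi p.2) : ℝ) * Complex.I)) (s, z) := by
      refine Complex.continuous_exp.continuousAt.comp ?_
      refine ContinuousAt.mul ?_ continuousAt_const
      exact Complex.continuous_ofReal.continuousAt.comp ((continuous_fst.continuousAt.mul hp).neg)
    refine ContinuousAt.prodMk ?_ ?_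
    · refine ContinuousAt.mul ?_ (ContinuousAt.mul (by fun_prop) he)
      refine Complex.continuous_ofReal.continuousAt.comp ?_
      refine ContinuousAt.add (by fun_prop) (ContinuousAt.div (by fun_prop) (by fun_prop) ?_)
      have := norm_pos_iff.2 n1
      have h2 : 0 < Real.sqrt 2 := by positivity
      exact (mul_pos h2 this).ne'
    · refine ContinuousAt.mul ?_ (ContinuousAt.mul (by fun_prop) he)
      refine Complex.continuous_ofReal.continuousAt.comp ?_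
      refine ContinuousAt.add (by fun_prop) (ContinuousAt.div (by fun_prop) (by fun_prop) ?_)
      have := norm_pos_iff.2 n2
      have h2 : 0 < Real.sqrt 2 := by positivity
      exact (mul_pos h2 this).ne'
  refine h0.congr ?_
  have e1 : ∀ᶠ p : ℝ × (ℂ × ℂ) in nhds (s, z), p.2.1 ≠ 0 :=
    (continuous_fst.comp continuous_snd).continuousAt.eventually_ne n1
  have e2 : ∀ᶠ p : ℝ × (ℂ × ℂ) in nhds (s, z), p.2.2 ≠ 0 :=
    (continuous_snd.comp continuous_snd).continuousAt.eventually_ne n2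
  filter_upwards [e1, e2] with p h1 h2
  unfold KA
  rw [if_pos ⟨h1, h2⟩]

theorem y0_mem {r : ℝ} (hr1 : r ≤ 1) : y0 ∈ Yu r ∩ Yv r := by
  have hs : (0:ℝ) < 1 / Real.sqrt 2 := by positivity
  have hn : ‖((-(1 / Real.sqrt 2) : ℝ) : ℂ)‖ = 1 / Real.sqrt 2 := by
    rw [Complex.norm_real, Real.norm_eq_abs, abs_neg, abs_of_pos hs]
  refine mem_A hr1 ?_ rfl ?_
  · unfold nrm y0
    rw [hn]
    have : (1 / Real.sqrt 2) ^ 2 + (1 / Real.sqrt 2) ^ 2 = (1:ℝ) := by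
      rw [div_pow, Real.sq_sqrt (by norm_num)]; norm_num
    rw [this, Real.sqrt_one]
  · have hU : eU y0 = 1 := by
      unfold eU y0
      simp only
      rw [hn, Complex.conj_ofReal]
      have : ((1 / Real.sqrt 2 * (1 / Real.sqrt 2) : ℝ) : ℂ) ≠ 0 := by
        exact_mod_cast (by positivity : (1 / Real.sqrt 2 * (1 / Real.sqrt 2) : ℝ) ≠ 0)
      rw [div_eq_iff this]
      push_cast
      ring
    have hb : bb y0 = ((-(1 / Real.sqrt 2) : ℝ) : ℂ) := by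
      unfold bb
      rw [hU, one_pow, div_one]
      rfl
    rw [hb, Complex.arg_ofReal_of_neg (by linarith), abs_of_pos Real.pi_pos]
    have := Real.pi_gt_three
    linarith

theorem act_A {r : ℝ} {u : ℂ} (hu : ‖u‖ = 1) {z : ℂ × ℂ} (hz : z ∈ Yu r ∩ Yv r) : act u z ∈ Yu r ∩ Yv r := by
  have h1 := act_mem_Exr hu hz.1.1
  have h2 : ‖(act u z).1‖ = ‖z.1‖ := by
    unfold act
    simp only
    rw [norm_mul, norm_pow, hu, one_pow, one_mul]
  have h3 : ‖(act u z).2‖ = ‖z.2‖ := by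
    unfold act
    simp only
    rw [norm_mul, norm_pow, hu, one_pow, one_mul]
  refine ⟨⟨h1, ?_⟩, ⟨h1, ?_⟩⟩
  · show ‖(act u z).2‖ ≤ ‖(act u z).1‖
    rw [h2, h3]; exact hz.1.2
  · show ‖(act u z).1‖ ≤ ‖(act u z).2‖
    rw [h2, h3]; exact hz.2.2

theorem tau_mem {r : ℝ} (hr1 : r ≤ 1) (t : ℝ) : tau t ∈ Yu r ∩ Yv r := act_A (norm_ee t) (y0_mem hr1)

theorem tau_cont : Continuous tau := continuous_act continuous_ee continuous_const

theorem ee_add (s t : ℝ) : ee (s + t) = ee s * ee t := by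
  unfold ee
  rw [← Complex.exp_add]
  congr 1
  push_cast; ring

theorem tau_per (t : ℝ) : tau (t + 1) = tau t := by
  unfold tau
  rw [ee_add, ee_one, mul_one]

/-! ### the angles -/

theorem ang_eU {r : ℝ} : AngCont (ang eU) (Yu r ∩ Yv r) :=
  angCont_ang (fun z hz => continuousAt_eU (Yu_ne hz.1) (Yv_ne hz.2)) (fun z hz => by
    rw [← norm_ne_zero_iff, norm_eU (Yu_ne hz.1) (Yv_ne hz.2)]; exact one_ne_zero)

theorem ang_fst {r : ℝ} : AngCont (ang Prod.fst) (Yu r) :=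
  angCont_ang (fun _ _ => continuous_fst.continuousAt) (fun _ hz => Yu_ne hz)

theorem ang_snd {r : ℝ} : AngCont (ang Prod.snd) (Yv r) :=
  angCont_ang (fun _ _ => continuous_snd.continuousAt) (fun _ hz => Yv_ne hz)

theorem ee_eq_one {x : ℝ} (h : ee x = 1) : ∃ n : ℤ, x = n := by
  unfold ee at h
  rw [Complex.exp_eq_one_iff] at h
  obtain ⟨n, hn⟩ := h
  refine ⟨n, ?_⟩
  have h1 : (2 * (Real.pi : ℂ) * Complex.I) ≠ 0 := Complex.two_pi_I_ne_zero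
  have h2 : (x : ℂ) * (2 * (Real.pi : ℂ) * Complex.I) = n * (2 * (Real.pi : ℂ) * Complex.I) := by
    rw [← hn]; ring
  have h3 := mul_right_cancel₀ h1 h2
  exact_mod_cast h3

theorem ang_rel {z : ℂ × ℂ} (n1 : z.1 ≠ 0) (n2 : z.2 ≠ 0) :
    ∃ n : ℤ, ang Prod.snd z - ang Prod.fst z - ang eU z = n := by
  apply ee_eq_one
  have hU := norm_eU n1 n2
  have hU0 : eU z ≠ 0 := by rw [← norm_ne_zero_iff, hU]; exact one_ne_zero
  have p1 : (‖z.1‖ : ℂ) ≠ 0 := by exact_mod_cast norm_ne_zero_iff.2 n1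
  have p2 : (‖z.2‖ : ℂ) ≠ 0 := by exact_mod_cast norm_ne_zero_iff.2 n2
  have h1 : ee (ang Prod.snd z - ang Prod.fst z - ang eU z) * ee (ang eU z) * ee (ang Prod.fst z) = ee (ang Prod.snd z) := by
    rw [← ee_add, ← ee_add]; congr 1; ring
  rw [ee_ang hU0, ee_ang (f := Prod.fst) n1, ee_ang (f := Prod.snd) n2, hU] at h1
  have h2 : eU z / ((1:ℝ) : ℂ) * (z.1 / ‖z.1‖) = z.2 / ‖z.2‖ := by
    unfold eU
    have h7 : starRingEnd ℂ z.1 * z.1 = (‖z.1‖ : ℂ) ^ 2 := Complex.conj_mul' z.1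
    push_cast
    rw [div_one, div_mul_div_comm, div_eq_div_iff (mul_ne_zero (mul_ne_zero p2 p1) p1) p2]
    calc z.2 * (starRingEnd ℂ) z.1 * z.1 * ‖z.2‖ = z.2 * ‖z.2‖ * ((starRingEnd ℂ) z.1 * z.1) := by ring
      _ = z.2 * (‖z.2‖ * ‖z.1‖ * ‖z.1‖) := by rw [h7]; ring
  rw [mul_assoc, h2] at h1
  have h3 : z.2 / (‖z.2‖ : ℂ) ≠ 0 := div_ne_zero n2 p2
  exact mul_right_cancel₀ h3 (by rw [h1, one_mul])

open Classical in
/-- the integer difference of the angles -/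
noncomputable def nn (z : ℂ × ℂ) : ℤ := if h : z.1 ≠ 0 ∧ z.2 ≠ 0 then (ang_rel h.1 h.2).choose else 0

theorem nn_spec {z : ℂ × ℂ} (n1 : z.1 ≠ 0) (n2 : z.2 ≠ 0) :
    ang Prod.snd z - ang Prod.fst z - ang eU z = nn z := by
  unfold nn
  rw [dif_pos ⟨n1, n2⟩]
  exact (ang_rel n1 n2).choose_spec

theorem cint_rel {r : ℝ} {a : ℂ × ℂ} (ha : a ∈ Yu r ∩ Yv r) : ∃ ε > 0, ∀ x y, dist x a < ε → dist y a < ε →
    cint (ang eU) x y = cint (ang Prod.snd) x y - cint (ang Prod.fst) x y - (nn x - nn y) := by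
  obtain ⟨e1, he1, h1⟩ := ang_fst a ha.1 (1/4) (by norm_num)
  obtain ⟨e2, he2, h2⟩ := ang_snd a ha.2 (1/4) (by norm_num)
  have n1 := Yu_ne ha.1
  have n2 := Yv_ne ha.2
  obtain ⟨e3, he3, h3⟩ := Metric.eventually_nhds_iff.1
    ((continuous_fst.continuousAt.eventually_ne n1).and (continuous_snd.continuousAt.eventually_ne n2))
  refine ⟨min e1 (min e2 e3), lt_min he1 (lt_min he2 he3), fun x y hx hy => ?_⟩
  obtain ⟨hx1, hx2, hx3⟩ : dist x a < e1 ∧ dist x a < e2 ∧ dist x a < e3 := by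
    simpa [lt_min_iff] using hx
  obtain ⟨hy1, hy2, hy3⟩ : dist y a < e1 ∧ dist y a < e2 ∧ dist y a < e3 := by
    simpa [lt_min_iff] using hy
  have a1 := h1 x y hx1 hy1
  have a2 := h2 x y hx2 hy2
  have a3 := nn_spec (h3 hx3).1 (h3 hx3).2
  have a4 := nn_spec (h3 hy3).1 (h3 hy3).2
  unfold cint
  apply round_eq_of_abs_lt
  push_cast
  rw [← a3, ← a4]
  rw [abs_lt] at a1 a2 ⊢
  constructor <;> linarith

/-! ### the second cohomology -/

/-- integer class times a vector, as a cochain -/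
noncomputable def cch (a : ℂ × ℂ → ℝ) (v : V) : List (ℂ × ℂ) → V
  | [x, y] => cint a x y • v
  | _ => 0

theorem cch_mem {S : Set (ℂ × ℂ)} {a : ℂ × ℂ → ℝ} (ha : AngCont a S) (v : V) :
    cch a v ∈ Zc (cT : ℂ × ℂ → ℂ × ℂ → (V →ₗ[k] V)) S ∅ 1 := by
  refine ⟨NZ.empty, fun p hp => ?_⟩
  obtain ⟨e, he, h⟩ := ha.cint_add p hp
  refine ⟨e, he, fun l hl hx => ?_⟩
  match l, hl with
  | [x, y, z], _ =>
    have h1 := h x y z (hx x (by simp)) (hx y (by simp)) (hx z (by simp))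
    rw [dT_three]
    show cint a y z • v - cint a x z • v + cint a x y • v = 0
    rw [← h1, add_smul]
    abel

theorem H2_aux {r : ℝ} (hr : 0 < r) (hr1 : r ≤ 1) : HV (cT : ℂ × ℂ → ℂ × ℂ → (V →ₗ[k] V)) (Exr r) ∅ 2 := by
  intro c hc
  have cu := (isCompact_Yu hr hr1).isClosed
  have cv := (isCompact_Yv hr hr1).isClosed
  have e1 : (∅ ∪ ∅ : Set (ℂ × ℂ)) = ∅ := union_self _
  have hc' : c ∈ Zc (cT : ℂ × ℂ → ℂ × ℂ → (V →ₗ[k] V)) (Yu r ∪ Yv r) (∅ ∪ ∅) (1 + 1) := by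
    rw [e1, Yu_union]; exact hc
  have hcu : c ∈ Bc (cT : ℂ × ℂ → ℂ × ℂ → (V →ₗ[k] V)) (Yu r) ∅ (1 + 1) :=
    HV_Yu hr hr1 (Zc_mono (fun z hz => hz.1) (le_refl _) _ hc)
  have hcv : c ∈ Bc (cT : ℂ × ℂ → ℂ × ℂ → (V →ₗ[k] V)) (Yv r) ∅ (1 + 1) :=
    HV_Yv hr hr1 (Zc_mono (fun z hz => hz.1) (le_refl _) _ hc)
  obtain ⟨h, hh, hd⟩ := mvd_of_zero cu cv isClosed_empty isClosed_empty (empty_subset _) (empty_subset _)
    (flat_cT _) hc' hcu hcv
  have key := (mvd_eq_zero cu cv isClosed_empty isClosed_empty (empty_subset _) (empty_subset _)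
    (flat_cT _) hh hd).2
  rw [e1, Yu_union] at key
  apply key
  -- classify `h`
  let T : ℂ × ℂ → ℂ × ℂ → Multiplicative V := fun x y => Multiplicative.ofAdd (h [x, y])
  have hT : GFlat T (Yu r ∩ Yv r) := by
    intro a ha
    obtain ⟨e, he, h1⟩ := hh.2 a ha
    refine ⟨e, he, fun x y z hx hy hz => ?_⟩
    have h2 := h1 [x, y, z] rfl (by
      intro w hw
      simp only [List.mem_cons, List.not_mem_nil, or_false] at hw
      rcases hw with rfl | rfl | rfl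
      exacts [hx, hy, hz])
    rw [dT_three] at h2
    show Multiplicative.ofAdd (h [x, y]) * Multiplicative.ofAdd (h [y, z]) = Multiplicative.ofAdd (h [x, z])
    rw [← ofAdd_add]
    congr 1
    have h3 : h [y, z] - h [x, z] + h [x, y] = 0 := h2
    have h4 : h [x, y] + h [y, z] = (h [y, z] - h [x, z] + h [x, y]) + h [x, z] := by abel
    rw [h4, h3, zero_add]
  obtain ⟨g, hg⟩ := exists_hasTr hT tau_cont.continuousOn (fun s _ => tau_mem hr1 s)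
  obtain ⟨u, hu⟩ := circle_classify (R := Yu r ∩ Yv r) hT (K := KA) (τ := tau) (a := ang eU)
    (fun s _ x hx => KA_cont hr hr1 hx) (fun s hs x hx => KA_mem hr1 hs hx) KA_zero tau_cont
    (tau_mem hr1) tau_per ang_eU KA_one hg
  let v : V := Multiplicative.toAdd g
  refine ⟨-cch (ang Prod.fst) v, Submodule.neg_mem _ (cch_mem ang_fst v), -cch (ang Prod.snd) v,
    Submodule.neg_mem _ (cch_mem ang_snd v), ?_⟩
  rw [inter_self]
  refine ⟨fun l => match l with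
    | [x] => -(Multiplicative.toAdd (u x)) + nn x • v
    | _ => 0, NZ.empty, fun a ha => ?_⟩
  obtain ⟨e2, he2, h2⟩ := hu a ha
  obtain ⟨e3, he3, h3⟩ := cint_rel ha
  refine ⟨min e2 e3, lt_min he2 he3, fun l hl hx => ?_⟩
  match l, hl with
  | [x, y], _ =>
    have hx' := hx x (by simp)
    have hy' := hx y (by simp)
    have h4 := h2 x y (hx'.trans_le (min_le_left _ _)) (hy'.trans_le (min_le_left _ _))
    have h5 := h3 x y (hx'.trans_le (min_le_right _ _)) (hy'.trans_le (min_le_right _ _))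
    have h6 : cint (ang eU) x y • v = -(Multiplicative.toAdd (u x)) + h [x, y] + Multiplicative.toAdd (u y) := by
      have := congrArg Multiplicative.toAdd h4
      simpa [T, v] using this
    rw [h5, sub_smul, sub_smul, sub_smul] at h6
    rw [Pi.sub_apply, dT_two]
    show h [x, y] - (-(cint (ang Prod.fst) x y • v) - -(cint (ang Prod.snd) x y • v)) -
      ((-(Multiplicative.toAdd (u y)) + nn y • v) - (-(Multiplicative.toAdd (u x)) + nn x • v)) = 0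
    have h7 : h [x, y] = cint (ang Prod.snd) x y • v - cint (ang Prod.fst) x y • v - (nn x • v - nn y • v) +
        Multiplicative.toAdd (u x) - Multiplicative.toAdd (u y) := by
      rw [h6]; abel
    rw [h7]
    abel

end push

end TC

end Pool.Agent.Helper60.Geo
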