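import Pool.Agent.Helper60.Geo.TrefCf
import Pool.Agent.Helper60.Geo.TrefC447
import Pool.Agent.Helper60.AS.Tr

/-! The trefoil exterior: the pair of holonomies `(U, W)`, relation, meridian, longitude, orbit. -/

set_option autoImplicit false

namespace Pool.Agent.Helper60.Geo

open Set AS

variable {G : Type*} [Group G] {T T' : ℂ × ℂ → ℂ × ℂ → G}

namespace TB371

/-! ### the slice -/

/-- points of the slice, real coordinates -/
noncomputable def pt (x y : ℝ) : ℂ × ℂ := sl ((x : ℂ) + (y : ℂ) * Complex.I)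

theorem pt_eq (x y : ℝ) : pt x y =
    ((Real.cos (Real.pi / 4 - x / 10) : ℂ) * Complex.exp ((y / 10 : ℝ) * Complex.I),
     (Real.sin (Real.pi / 4 - x / 10) : ℂ) * Complex.exp ((y / 10 : ℝ) * Complex.I)) := by
  unfold pt sl
  have h1 : ((x : ℂ) + (y : ℂ) * Complex.I).re = x := by simp
  have h2 : ((x : ℂ) + (y : ℂ) * Complex.I).im = y := by simp
  rw [h1, h2]

theorem continuous_pt {X : Type*} [TopologicalSpace X] {f g : X → ℝ} (hf : Continuous f)
    (hg : Continuous g) : Continuous fun a => pt (f a) (g a) :=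
  continuous_sl.comp (by fun_prop)

theorem pt_sph (x y : ℝ) : pt x y ∈ Sph := nrm_sl _

theorem pt_flip (x : ℝ) : pt x (-(10 * Real.pi)) = pt x (10 * Real.pi) := by
  rw [pt_eq, pt_eq]
  have h : Complex.exp (((-(10 * Real.pi) / 10 : ℝ) : ℂ) * Complex.I) =
      Complex.exp (((10 * Real.pi / 10 : ℝ) : ℂ) * Complex.I) := by
    rw [show (-(10 * Real.pi) / 10 : ℝ) = -Real.pi by ring, show (10 * Real.pi / 10 : ℝ) = Real.pi by ring,
      Complex.exp_pi_mul_I]
    push_cast
    rw [neg_mul, Complex.exp_neg, Complex.exp_pi_mul_I]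
    norm_num
  rw [h]

theorem pt_mem_aux {x y : ℝ} (hx : |x| ≤ 10 * (Real.pi / 4)) (hy : -(10 * Real.pi) < y)
    (hy' : y ≤ 10 * Real.pi) (h : 1 ≤ x ^ 2 + y ^ 2) : pt x y ∈ Ex := by
  refine (TC.mem_Exr le_rfl).2 ⟨pt_sph x y, ?_⟩
  rw [pt_eq]
  intro n1 n2
  simp only at n1 n2
  have hpi := Real.pi_pos
  obtain ⟨hx1, hx2⟩ := abs_le.1 hx
  set θ := Real.pi / 4 - x / 10 with hθ
  have hθ0 : 0 ≤ θ := by rw [hθ]; linarith
  have hθ1 : θ ≤ Real.pi / 2 := by rw [hθ]; linarith
  have c0 : Real.cos θ ≠ 0 := by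
    intro h0; apply n1; rw [h0]; simp
  have s0 : Real.sin θ ≠ 0 := by
    intro h0; apply n2; rw [h0]; simp
  have hc : 0 < Real.cos θ := lt_of_le_of_ne (Real.cos_nonneg_of_mem_Icc ⟨by linarith, hθ1⟩) c0.symm
  have hs : 0 < Real.sin θ := lt_of_le_of_ne (Real.sin_nonneg_of_nonneg_of_le_pi hθ0 (by linarith)) s0.symm
  have hθ1' : θ < Real.pi / 2 := by
    refine lt_of_le_of_ne hθ1 ?_
    intro h0; apply c0; rw [h0]; exact Real.cos_pi_div_two
  set t := y / 10 with ht
  have hn1 : ‖(Real.cos θ : ℂ) * Complex.exp ((t : ℂ) * Complex.I)‖ = Real.cos θ := by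
    rw [norm_mul, norm_unit_exp, Complex.norm_real, Real.norm_eq_abs, abs_of_pos hc, mul_one]
  have hn2 : ‖(Real.sin θ : ℂ) * Complex.exp ((t : ℂ) * Complex.I)‖ = Real.sin θ := by
    rw [norm_mul, norm_unit_exp, Complex.norm_real, Real.norm_eq_abs, abs_of_pos hs, mul_one]
  have hU : eU ((Real.cos θ : ℂ) * Complex.exp ((t : ℂ) * Complex.I),
      (Real.sin θ : ℂ) * Complex.exp ((t : ℂ) * Complex.I)) = 1 := by
    unfold eU
    simp only
    rw [hn1, hn2]
    have hab : ((Real.sin θ * Real.cos θ : ℝ) : ℂ) ≠ 0 := by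
      exact_mod_cast (mul_pos hs hc).ne'
    rw [div_eq_iff hab]
    have h1 := exp_conj t
    simp only [map_mul, Complex.conj_ofReal]
    generalize Complex.exp ((t : ℂ) * Complex.I) = E at h1 ⊢
    calc (Real.sin θ : ℂ) * E * ((Real.cos θ : ℂ) * starRingEnd ℂ E) =
        (E * starRingEnd ℂ E) * (Real.sin θ * Real.cos θ) := by ring
      _ = _ := by rw [h1]; push_cast; ring
  set z : ℂ × ℂ := ((Real.cos θ : ℂ) * Complex.exp ((t : ℂ) * Complex.I),
      (Real.sin θ : ℂ) * Complex.exp ((t : ℂ) * Complex.I)) with hz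
  have hW : eW z = (⟨x, y⟩ : ℂ) := by
    apply Complex.ext
    · change 10 * (Real.pi / 4 - Real.arctan (‖z.2‖ / ‖z.1‖)) = x
      rw [hz]
      simp only
      rw [hn1, hn2, ← Real.tan_eq_sin_div_cos, Real.arctan_tan (by linarith) hθ1', hθ]
      ring
    · change 10 * Complex.arg (z.1 / eU z ^ 2) = y
      rw [hU, hz]
      simp only
      rw [one_pow, div_one, Complex.arg_real_mul _ hc,
        Complex.arg_exp_mul_I, toIocMod_eq_self Real.two_pi_pos |>.2 ⟨by rw [ht]; linarith, by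
          rw [ht]; linarith⟩, ht]
      ring
  rw [hW]
  have h2 : ‖(⟨x, y⟩ : ℂ)‖ ^ 2 = x ^ 2 + y ^ 2 := by
    rw [Complex.sq_norm, Complex.normSq_mk]; ring
  have h3 : 0 ≤ ‖(⟨x, y⟩ : ℂ)‖ := norm_nonneg _
  nlinarith

theorem pt_mem {x y : ℝ} (hx : |x| ≤ 10 * (Real.pi / 4)) (hy : |y| ≤ 10 * Real.pi)
    (h : 1 ≤ x ^ 2 + y ^ 2) : pt x y ∈ Ex := by
  obtain ⟨h1, h2⟩ := abs_le.1 hy
  rcases h1.eq_or_lt with h1 | h1
  · rw [← h1, pt_flip]
    refine pt_mem_aux hx (by linarith [Real.pi_pos]) le_rfl ?_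
    rw [← h1, neg_sq] at h
    exact h
  · exact pt_mem_aux hx h1 h2 h

/-! ### the four paths -/

/-- the quarter circle from `(1,0)` to `(0,i)` -/
noncomputable def qc (φ : ℝ) : ℂ × ℂ := ((Real.cos φ : ℂ), (Real.sin φ : ℂ) * Complex.I)

theorem act_qc (φ : ℝ) : act (-Complex.I) (qc φ) = pt (10 * (Real.pi / 4 - φ)) (10 * Real.pi) := by
  rw [pt_eq]
  unfold act qc
  have h : Complex.exp (((10 * Real.pi / 10 : ℝ) : ℂ) * Complex.I) = -1 := by
    rw [show (10 * Real.pi / 10 : ℝ) = Real.pi by ring, Complex.exp_pi_mul_I]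
  rw [h, show Real.pi / 4 - 10 * (Real.pi / 4 - φ) / 10 = φ by ring]
  have h2 : Complex.I ^ 2 = -1 := Complex.I_sq
  have h4 : Complex.I ^ 4 = 1 := Complex.I_pow_four
  refine Prod.ext ?_ ?_
  · simp only
    linear_combination (Real.cos φ : ℂ) * h2
  · simp only
    linear_combination -(Real.sin φ : ℂ) * h4

theorem qc_eq (φ : ℝ) : qc φ = act Complex.I (pt (10 * (Real.pi / 4 - φ)) (10 * Real.pi)) := by
  rw [← act_qc, TC.act_act]
  have : Complex.I * -Complex.I = 1 := by rw [mul_neg, Complex.I_mul_I]; ring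
  rw [this, TC.act_one]

theorem qc_mem {φ : ℝ} (h0 : 0 ≤ φ) (h1 : φ ≤ Real.pi / 2) : qc φ ∈ Ex := by
  rw [qc_eq]
  refine TC.act_mem_Exr Complex.norm_I (pt_mem ?_ ?_ ?_)
  · rw [abs_le]; constructor <;> linarith
  · rw [abs_of_pos (by linarith [Real.pi_pos])]
  · nlinarith [Real.pi_gt_three, sq_nonneg (10 * (Real.pi / 4 - φ))]

theorem continuous_qc : Continuous qc := by
  unfold qc; fun_prop

theorem continuous_pU : Continuous pU := by
  unfold pU; fun_prop

theorem continuous_pW : Continuous pW := by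
  unfold pW; fun_prop

theorem pU_qc (s : ℝ) : pU s = qc (Real.pi / 4 * (1 - s)) := rfl
theorem pW_qc (s : ℝ) : pW s = qc (Real.pi / 4 * (1 + s)) := rfl

theorem pU_mem {s : ℝ} (hs : s ∈ Icc (0:ℝ) 1) : pU s ∈ Ex := by
  have := Real.pi_pos
  rw [pU_qc]
  refine qc_mem ?_ ?_
  · exact mul_nonneg (by positivity) (by linarith [hs.2])
  · nlinarith [hs.1]

theorem pW_mem {s : ℝ} (hs : s ∈ Icc (0:ℝ) 1) : pW s ∈ Ex := by
  have := Real.pi_pos
  rw [pW_qc]
  refine qc_mem ?_ ?_
  · exact mul_nonneg (by positivity) (by linarith [hs.1])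
  · nlinarith [hs.2]

theorem continuous_loopU : Continuous loopU := by
  unfold loopU
  exact tcf_continuous_ee.prodMk continuous_const

theorem continuous_loopW : Continuous loopW := by
  unfold loopW
  exact continuous_const.prodMk (continuous_const.mul tcf_continuous_ee)

theorem loopU_mem (s : ℝ) : loopU s ∈ Ex := by
  refine (TC.mem_Exr le_rfl).2 ⟨?_, fun _ h => absurd rfl h⟩
  show nrm _ = 1
  unfold nrm loopU
  simp [tcf_norm_ee]

theorem loopW_mem (s : ℝ) : loopW s ∈ Ex := by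
  refine (TC.mem_Exr le_rfl).2 ⟨?_, fun h => absurd rfl h⟩
  show nrm _ = 1
  unfold nrm loopW
  simp [tcf_norm_ee]

theorem pU_zero : pU 0 = x0 := by
  unfold pU x0
  rw [sub_zero, mul_one, tcf_c4, tcf_s4]

theorem pW_zero : pW 0 = x0 := by
  unfold pW x0
  rw [add_zero, mul_one, tcf_c4, tcf_s4]

theorem pU_one : pU 1 = (1, 0) := by
  unfold pU
  simp

theorem pW_one : pW 1 = (0, Complex.I) := by
  unfold pW
  rw [show Real.pi / 4 * (1 + 1) = Real.pi / 2 by ring, Real.cos_pi_div_two, Real.sin_pi_div_two]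
  simp

theorem loopU_zero : loopU 0 = (1, 0) := by
  unfold loopU; rw [tcf_ee_zero]

theorem loopU_one : loopU 1 = (1, 0) := by
  unfold loopU
  have := tcf_ee_int 1
  push_cast at this
  rw [this]

theorem loopW_zero : loopW 0 = (0, Complex.I) := by
  unfold loopW; rw [tcf_ee_zero, mul_one]

theorem loopW_one : loopW 1 = (0, Complex.I) := by
  unfold loopW
  have := tcf_ee_int 1
  push_cast at this
  rw [this, mul_one]

theorem ee_add_one (s : ℝ) : ee (s + 1) = ee s := by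
  have := tcf_ee_add_int s 1
  push_cast at this
  exact this

end TB371

open TB371

theorem exists_UW (hT : GFlat T Ex) : ∃ U W, UW T U W := by
  obtain ⟨p, hp⟩ := exists_hasTr hT continuous_pU.continuousOn (fun s hs => pU_mem hs)
  obtain ⟨gU, hgU⟩ := exists_hasTr hT continuous_loopU.continuousOn (fun s _ => loopU_mem s)
  obtain ⟨q, hq⟩ := exists_hasTr hT continuous_pW.continuousOn (fun s hs => pW_mem hs)
  obtain ⟨gW, hgW⟩ := exists_hasTr hT continuous_loopW.continuousOn (fun s _ => loopW_mem s)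
  exact ⟨_, _, p, gU, q, gW, hp, hgU, hq, hgW, rfl, rfl⟩

theorem UW.unique (_hT : GFlat T Ex) {U W U' W' : G} (h : UW T U W) (h' : UW T U' W') :
    U = U' ∧ W = W' := by
  obtain ⟨p, gU, q, gW, hp, hU, hq, hW, rfl, rfl⟩ := h
  obtain ⟨p', gU', q', gW', hp', hU', hq', hW', rfl, rfl⟩ := h'
  rw [hp.unique hp', hU.unique hU', hq.unique hq', hW.unique hW']
  exact ⟨rfl, rfl⟩

theorem UW.map {G' : Type*} [Group G'] (φ : G →* G') {U W : G} (h : UW T U W) :
    UW (fun x y => φ (T x y)) (φ U) (φ W) := by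
  obtain ⟨p, gU, q, gW, hp, hU, hq, hW, rfl, rfl⟩ := h
  exact ⟨φ p, φ gU, φ q, φ gW, hp.map φ, hU.map φ, hq.map φ, hW.map φ, by simp, by simp⟩

/-- gauge transformations conjugate the pair -/
theorem UW.gauge (_hT : GFlat T Ex) {U W : G} (h : UW T U W) {u : ℂ × ℂ → G} (hu : GaugeBy T T' Ex u) :
    UW T' ((u x0)⁻¹ * U * u x0) ((u x0)⁻¹ * W * u x0) := by
  obtain ⟨p, gU, q, gW, hp, hU, hq, hW, rfl, rfl⟩ := h
  refine ⟨_, _, _, _, HasTr.gauge hu continuous_pU.continuousOn (fun s hs => pU_mem hs) hp,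
    HasTr.gauge hu continuous_loopU.continuousOn (fun s _ => loopU_mem s) hU,
    HasTr.gauge hu continuous_pW.continuousOn (fun s hs => pW_mem hs) hq,
    HasTr.gauge hu continuous_loopW.continuousOn (fun s _ => loopW_mem s) hW, ?_, ?_⟩
  · rw [pU_zero, pU_one, loopU_zero, loopU_one]; group
  · rw [pW_zero, pW_one, loopW_zero, loopW_one]; group

namespace TB371

/-! ### iterated loops and orbits -/

theorem hasTr_nfold {Ω : Type*} [PseudoMetricSpace Ω] {S : Set Ω} {T : Ω → Ω → G} (hT : GFlat T S) {γ : ℝ → Ω} (hγ : Continuous γ)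
    (hm : ∀ s, γ s ∈ S) (hper : ∀ s, γ (s + 1) = γ s) {g : G} (h : HasTr T γ g) {n : ℕ} (hn : 1 ≤ n) :
    HasTr T (fun s => γ (n * s)) (g ^ n) := by
  induction n, hn using Nat.le_induction with
  | base => rw [pow_one]; exact h.congr fun s _ => by simp
  | succ n hn ih =>
    have hn0 : (0:ℝ) < n := by exact_mod_cast hn
    rw [pow_succ']
    refine HasTr.split (c := 1 / ((n:ℝ) + 1)) (by positivity) ?_ hT
      (Continuous.continuousOn (by fun_prop)) (hm _) (h.congr ?_) (ih.congr ?_)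
    · rw [div_lt_one (by positivity)]; linarith
    · intro s _
      show γ (((n + 1 : ℕ) : ℝ) * (1 / ((n:ℝ) + 1) * s)) = γ s
      congr 1
      push_cast
      field_simp
    · intro s _
      show γ (((n + 1 : ℕ) : ℝ) * (1 / ((n:ℝ) + 1) + (1 - 1 / ((n:ℝ) + 1)) * s)) = γ (n * s)
      rw [← hper (n * s)]
      congr 1
      push_cast
      field_simp
      ring

theorem ee_one : ee 1 = 1 := by
  have := tcf_ee_int 1
  push_cast at this
  exact this

theorem orb_one (x : ℂ × ℂ) : orb x 1 = x := by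
  unfold orb; rw [ee_one, TC.act_one]

theorem orb_zero (x : ℂ × ℂ) : orb x 0 = x := by
  unfold orb; rw [tcf_ee_zero, TC.act_one]

/-- moving an orbit along a path -/
theorem orb_move (hT : GFlat T Ex) {δ : ℝ → ℂ × ℂ} (hδ : Continuous δ)
    (hm : ∀ s ∈ Icc (0:ℝ) 1, δ s ∈ Ex) {d o : G} (hd : HasTr T δ d) (ho : HasTr T (orb (δ 0)) o) :
    HasTr T (orb (δ 1)) (d⁻¹ * o * d) := by
  have hc : Continuous fun p : ℝ × ℝ => act (ee p.2) (δ p.1) :=
    continuous_act (tcf_continuous_ee.comp continuous_snd) (hδ.comp continuous_fst)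
  obtain ⟨o1, ho1⟩ := exists_hasTr (γ := orb (δ 1)) hT
    (Continuous.continuousOn (continuous_act tcf_continuous_ee continuous_const))
    (fun s _ => TC.act_mem_Exr (tcf_norm_ee s) (hm 1 (right_mem_Icc.2 zero_le_one)))
  have key := HasTr.square (K := fun s t => act (ee t) (δ s)) hT hc.continuousOn
    (fun s hs t _ => TC.act_mem_Exr (tcf_norm_ee t) (hm s hs)) ho ho1
    (hd.congr fun s _ => by rw [tcf_ee_zero, TC.act_one])
    (hd.congr fun s _ => by rw [ee_one, TC.act_one])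
  have : o1 = d⁻¹ * o * d := by
    rw [← mul_right_inj d, key]; group
  rw [← this]; exact ho1

/-- the quarter turn of the action -/
noncomputable def qt (s : ℝ) (z : ℂ × ℂ) : ℂ × ℂ := act (ee (-s / 4)) z

theorem qt_zero (z : ℂ × ℂ) : qt 0 z = z := by
  unfold qt; rw [neg_zero, zero_div, tcf_ee_zero, TC.act_one]

theorem ee_quarter : ee (-1 / 4) = -Complex.I := by
  unfold ee
  rw [show (2 * (Real.pi : ℂ) * ((-1 / 4 : ℝ) : ℂ) * Complex.I) = -(Real.pi / 2 * Complex.I) by push_cast; ring,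
    Complex.exp_neg, Complex.exp_pi_div_two_mul_I, Complex.inv_I]

theorem qt_one (z : ℂ × ℂ) : qt 1 z = act (-Complex.I) z := by
  unfold qt; rw [ee_quarter]

theorem qt_mem {z : ℂ × ℂ} (s : ℝ) (hz : z ∈ Ex) : qt s z ∈ Ex :=
  TC.act_mem_Exr (tcf_norm_ee _) hz

theorem continuous_qt {X : Type*} [TopologicalSpace X] {f : X → ℝ} {g : X → ℂ × ℂ} (hf : Continuous f)
    (hg : Continuous g) : Continuous fun x => qt (f x) (g x) := by
  unfold qt
  exact continuous_act (tcf_continuous_ee.comp (by fun_prop)) hg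

theorem qt_move (hT : GFlat T Ex) {γ : ℝ → ℂ × ℂ} (hγ : Continuous γ)
    (hm : ∀ s ∈ Icc (0:ℝ) 1, γ s ∈ Ex) {g a b : G} (hg : HasTr T γ g)
    (ha : HasTr T (fun s => qt s (γ 0)) a) (hb : HasTr T (fun s => qt s (γ 1)) b) :
    HasTr T (fun t => act (-Complex.I) (γ t)) (a⁻¹ * g * b) := by
  have hc : Continuous fun p : ℝ × ℝ => qt p.1 (γ p.2) :=
    continuous_qt continuous_fst (hγ.comp continuous_snd)
  obtain ⟨g1, hg1⟩ := exists_hasTr (γ := fun t => qt 1 (γ t)) hT
    (Continuous.continuousOn (continuous_qt continuous_const hγ))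
    (fun s hs => qt_mem 1 (hm s hs))
  have key := HasTr.square (K := fun s t => qt s (γ t)) hT hc.continuousOn
    (fun s _ t ht => qt_mem s (hm t ht)) (hg.congr fun s _ => by rw [qt_zero]) hg1 ha hb
  have : g1 = a⁻¹ * g * b := by
    rw [← mul_right_inj a, key]; group
  rw [← this]; exact hg1.congr fun s _ => by rw [qt_one]

/-! ### the rectangle in the slice -/

/-- real coordinates of the right homotopy -/
noncomputable def rx (s t : ℝ) : ℝ := (1 - s) * (10 * (Real.pi / 4)) + s * Real.cos (Real.pi * (t - 1/2))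
noncomputable def ry (s t : ℝ) : ℝ := (1 - s) * (10 * Real.pi * (2 * t - 1)) + s * Real.sin (Real.pi * (t - 1/2))

theorem rxy {s t : ℝ} (hs : s ∈ Icc (0:ℝ) 1) (ht : t ∈ Icc (0:ℝ) 1) :
    0 ≤ rx s t ∧ rx s t ≤ 10 * (Real.pi / 4) ∧ |ry s t| ≤ 10 * Real.pi ∧ 1 ≤ rx s t ^ 2 + ry s t ^ 2 := by
  have hpi := Real.pi_gt_three
  obtain ⟨s0, s1⟩ := hs
  obtain ⟨t0, t1⟩ := ht
  set c := Real.cos (Real.pi * (t - 1/2)) with hc
  set d := Real.sin (Real.pi * (t - 1/2)) with hd
  have hcd : c ^ 2 + d ^ 2 = 1 := by rw [hc, hd]; exact Real.cos_sq_add_sin_sq _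
  have c0 : 0 ≤ c := Real.cos_nonneg_of_mem_Icc ⟨by nlinarith, by nlinarith⟩
  have c1 : c ≤ 1 := Real.cos_le_one _
  have d1 : |d| ≤ 1 := Real.abs_sin_le_one _
  obtain ⟨d2, d3⟩ := abs_le.1 d1
  have hτd : d ^ 2 ≤ 10 * Real.pi * (2 * t - 1) * d := by
    rcases le_total 0 (2 * t - 1) with h | h
    · have e1 : 0 ≤ d := Real.sin_nonneg_of_nonneg_of_le_pi (by nlinarith) (by nlinarith)
      have e2 : d ≤ Real.pi * (t - 1/2) := Real.sin_le (by nlinarith)
      have e3 : d ≤ 10 * Real.pi * (2 * t - 1) := by nlinarith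
      nlinarith
    · have e0 : -d = Real.sin (-(Real.pi * (t - 1/2))) := by rw [Real.sin_neg]
      have e1 : 0 ≤ -d := by
        rw [e0]; exact Real.sin_nonneg_of_nonneg_of_le_pi (by nlinarith) (by nlinarith)
      have e2 : -d ≤ -(Real.pi * (t - 1/2)) := by
        rw [e0]; exact Real.sin_le (by nlinarith)
      have e3 : -d ≤ -(10 * Real.pi * (2 * t - 1)) := by nlinarith
      nlinarith
  have hXc : c ^ 2 ≤ 10 * (Real.pi / 4) * c := by nlinarith
  have hrx : rx s t = (1 - s) * (10 * (Real.pi / 4)) + s * c := rfl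
  have hry : ry s t = (1 - s) * (10 * Real.pi * (2 * t - 1)) + s * d := rfl
  rw [hrx, hry]
  have hs' : 0 ≤ 1 - s := by linarith
  set X := 10 * (Real.pi / 4) with hX
  have hX1 : 1 ≤ X := by rw [hX]; linarith
  set Y := 10 * Real.pi * (2 * t - 1) with hY
  have hY1 : |Y| ≤ 10 * Real.pi := by
    rw [hY, abs_le]; constructor <;> nlinarith
  obtain ⟨hY2, hY3⟩ := abs_le.1 hY1
  refine ⟨by positivity, ?_, ?_, ?_⟩
  · have e1 : s * c ≤ s * X := mul_le_mul_of_nonneg_left (by linarith) s0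
    nlinarith
  · rw [abs_le]
    have e1 : s * d ≤ s * (10 * Real.pi) := mul_le_mul_of_nonneg_left (by linarith) s0
    have e2 : s * (-(10 * Real.pi)) ≤ s * d := mul_le_mul_of_nonneg_left (by linarith) s0
    have e3 : (1 - s) * Y ≤ (1 - s) * (10 * Real.pi) := mul_le_mul_of_nonneg_left hY3 hs'
    have e4 : (1 - s) * (-(10 * Real.pi)) ≤ (1 - s) * Y := mul_le_mul_of_nonneg_left hY2 hs'
    constructor <;> nlinarith
  · have e1 : 1 ≤ X * c + Y * d := by nlinarith
    have e2 : 1 ≤ X ^ 2 + Y ^ 2 := by nlinarith [sq_nonneg Y]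
    have e3 : ((1 - s) * X + s * c) ^ 2 + ((1 - s) * Y + s * d) ^ 2 =
        (1 - s) ^ 2 * (X ^ 2 + Y ^ 2) + 2 * (s * (1 - s)) * (X * c + Y * d) + s ^ 2 * (c ^ 2 + d ^ 2) := by
      ring
    rw [e3, hcd]
    have e4 : (1 - s) ^ 2 * 1 ≤ (1 - s) ^ 2 * (X ^ 2 + Y ^ 2) := mul_le_mul_of_nonneg_left e2 (sq_nonneg _)
    have e5 : 2 * (s * (1 - s)) * 1 ≤ 2 * (s * (1 - s)) * (X * c + Y * d) :=
      mul_le_mul_of_nonneg_left e1 (by positivity)
    nlinarith

theorem KR_mem {s t : ℝ} (hs : s ∈ Icc (0:ℝ) 1) (ht : t ∈ Icc (0:ℝ) 1) : pt (rx s t) (ry s t) ∈ Ex := by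
  obtain ⟨h1, h2, h3, h4⟩ := rxy hs ht
  exact pt_mem (by rw [abs_of_nonneg h1]; exact h2) h3 h4

theorem KL_mem {s t : ℝ} (hs : s ∈ Icc (0:ℝ) 1) (ht : t ∈ Icc (0:ℝ) 1) : pt (-rx s t) (ry s t) ∈ Ex := by
  obtain ⟨h1, h2, h3, h4⟩ := rxy hs ht
  exact pt_mem (by rw [abs_neg, abs_of_nonneg h1]; exact h2) h3 (by rw [neg_sq]; exact h4)

theorem continuous_rx {X : Type*} [TopologicalSpace X] {f g : X → ℝ} (hf : Continuous f)
    (hg : Continuous g) : Continuous fun x => rx (f x) (g x) := by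
  unfold rx; fun_prop

theorem continuous_ry {X : Type*} [TopologicalSpace X] {f g : X → ℝ} (hf : Continuous f)
    (hg : Continuous g) : Continuous fun x => ry (f x) (g x) := by
  unfold ry; fun_prop

/-- the tops of the two homotopies -/
theorem top_mem {s t : ℝ} (hs : s ∈ Icc (0:ℝ) 1) (ht : t ∈ Icc (0:ℝ) 1) {e : ℝ} (he : e = 1 ∨ e = -1) :
    pt ((1 - s) * (10 * (Real.pi / 4) * (1 - 2 * t))) (e * ((1 - s) * (10 * Real.pi) + s)) ∈ Ex := by
  have hpi := Real.pi_gt_three
  obtain ⟨s0, s1⟩ := hs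
  obtain ⟨t0, t1⟩ := ht
  have hs' : 0 ≤ 1 - s := by linarith
  have h1 : |(1 - s) * (10 * (Real.pi / 4) * (1 - 2 * t))| ≤ 10 * (Real.pi / 4) := by
    rw [abs_mul, abs_of_nonneg hs', abs_mul, abs_of_pos (by positivity)]
    have : |1 - 2 * t| ≤ 1 := by rw [abs_le]; constructor <;> linarith
    have h2 : 0 ≤ |1 - 2 * t| := abs_nonneg _
    have h3 : 10 * (Real.pi / 4) * |1 - 2 * t| ≤ 10 * (Real.pi / 4) * 1 :=
      mul_le_mul_of_nonneg_left this (by positivity)
    have h4 : (1 - s) * (10 * (Real.pi / 4) * |1 - 2 * t|) ≤ 1 * (10 * (Real.pi / 4) * |1 - 2 * t|) :=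
      mul_le_mul_of_nonneg_right (by linarith) (by positivity)
    linarith
  have hb0 : 1 ≤ (1 - s) * (10 * Real.pi) + s := by nlinarith
  have hb1 : (1 - s) * (10 * Real.pi) + s ≤ 10 * Real.pi := by nlinarith
  have he2 : e ^ 2 = 1 := by rcases he with rfl | rfl <;> norm_num
  have he3 : |e| = 1 := by rcases he with rfl | rfl <;> norm_num
  refine pt_mem h1 ?_ ?_
  · rw [abs_mul, he3, one_mul, abs_of_nonneg (by linarith)]; exact hb1
  · rw [mul_pow e, he2, one_mul]
    nlinarith [sq_nonneg ((1 - s) * (10 * (Real.pi / 4) * (1 - 2 * t)))]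

end TB371

namespace TB371

/-! ### the main computation -/

theorem rx0 (t : ℝ) : rx 0 t = 10 * (Real.pi / 4) := by unfold rx; ring
theorem ry0 (t : ℝ) : ry 0 t = 10 * Real.pi * (2 * t - 1) := by unfold ry; ring
theorem rx1 (t : ℝ) : rx 1 t = Real.cos (Real.pi * (t - 1/2)) := by unfold rx; ring
theorem ry1 (t : ℝ) : ry 1 t = Real.sin (Real.pi * (t - 1/2)) := by unfold ry; ring
theorem rxe (s : ℝ) {t : ℝ} (ht : t = 0 ∨ t = 1) : rx s t = (1 - s) * (10 * (Real.pi / 4)) := by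
  unfold rx
  rcases ht with rfl | rfl
  · rw [show Real.pi * (0 - 1/2) = -(Real.pi / 2) by ring, Real.cos_neg, Real.cos_pi_div_two]; ring
  · rw [show Real.pi * (1 - 1/2) = Real.pi / 2 by ring, Real.cos_pi_div_two]; ring
theorem ryt (s : ℝ) : ry s 1 = 1 * ((1 - s) * (10 * Real.pi) + s) := by
  unfold ry
  rw [show Real.pi * (1 - 1/2) = Real.pi / 2 by ring, Real.sin_pi_div_two]; ring
theorem ryb (s : ℝ) : ry s 0 = -1 * ((1 - s) * (10 * Real.pi) + s) := by
  unfold ry
  rw [show Real.pi * (0 - 1/2) = -(Real.pi / 2) by ring, Real.sin_neg, Real.sin_pi_div_two]; ring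

theorem ee_eq (s : ℝ) : ee s = (Real.cos (2 * Real.pi * s) : ℂ) + (Real.sin (2 * Real.pi * s) : ℂ) * Complex.I := by
  unfold ee
  rw [show (2 * (Real.pi : ℂ) * (s : ℂ) * Complex.I) = ((2 * Real.pi * s : ℝ) : ℂ) * Complex.I by push_cast; ring,
    Complex.exp_mul_I]
  push_cast
  rfl

theorem sl_ee (s : ℝ) : sl (ee s) = pt (Real.cos (2 * Real.pi * s)) (Real.sin (2 * Real.pi * s)) := by
  unfold pt; rw [ee_eq]

/-- the two outer loops -/
theorem outU (t : ℝ) : act (-Complex.I) (loopU t) = pt (10 * (Real.pi / 4)) (10 * Real.pi * (2 * t - 1)) := by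
  rw [pt_eq, show Real.pi / 4 - 10 * (Real.pi / 4) / 10 = 0 by ring, Real.cos_zero, Real.sin_zero]
  unfold act loopU
  have h : Complex.exp (((10 * Real.pi * (2 * t - 1) / 10 : ℝ) : ℂ) * Complex.I) = -ee t := by
    unfold ee
    rw [show (((10 * Real.pi * (2 * t - 1) / 10 : ℝ) : ℂ) * Complex.I) =
      2 * Real.pi * t * Complex.I - Real.pi * Complex.I by push_cast; ring, Complex.exp_sub,
      Complex.exp_pi_mul_I]
    ring
  rw [h]
  refine Prod.ext ?_ ?_
  · simp only
    push_cast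
    linear_combination (ee t) * Complex.I_sq
  · simp

theorem outW (t : ℝ) : act (-Complex.I) (loopW t) = pt (-(10 * (Real.pi / 4))) (10 * Real.pi * (2 * t - 1)) := by
  rw [pt_eq, show Real.pi / 4 - -(10 * (Real.pi / 4)) / 10 = Real.pi / 2 by ring, Real.cos_pi_div_two,
    Real.sin_pi_div_two]
  unfold act loopW
  have h : Complex.exp (((10 * Real.pi * (2 * t - 1) / 10 : ℝ) : ℂ) * Complex.I) = -ee t := by
    unfold ee
    rw [show (((10 * Real.pi * (2 * t - 1) / 10 : ℝ) : ℂ) * Complex.I) =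
      2 * Real.pi * t * Complex.I - Real.pi * Complex.I by push_cast; ring, Complex.exp_sub,
      Complex.exp_pi_mul_I]
    ring
  rw [h]
  refine Prod.ext ?_ ?_
  · simp
  · simp only
    push_cast
    linear_combination -(ee t) * Complex.I_pow_four

theorem merE_eq (s : ℝ) : merE 1 s = sl (ee s) := by
  unfold merE eV
  simp only
  rw [TC.act_one, map_one, one_pow, one_mul, Complex.ofReal_one, one_mul]

theorem sl_ee_mem (s : ℝ) : sl (ee s) ∈ Ex := by
  rw [sl_ee]
  have hpi := Real.pi_gt_three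
  have h1 := Real.abs_cos_le_one (2 * Real.pi * s)
  have h2 := Real.abs_sin_le_one (2 * Real.pi * s)
  refine pt_mem (by linarith) (by linarith) ?_
  rw [Real.cos_sq_add_sin_sq]

theorem continuous_sl_ee {X : Type*} [TopologicalSpace X] {f : X → ℝ} (hf : Continuous f) :
    Continuous fun x => sl (ee (f x)) := continuous_sl.comp (tcf_continuous_ee.comp hf)

/-- meridian and orbit at `sl 1`, conjugated by the same element -/
theorem main (hT : GFlat T Ex) {U W : G} (h : UW T U W) :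
    HasTr T (orb x0) (U ^ 2) ∧ U ^ 2 = W ^ 3 ∧
    ∃ a, HasTr T (merE 1) (a⁻¹ * (U * W⁻¹) * a) ∧ HasTr T (orb (sl 1)) (a⁻¹ * U ^ 2 * a) := by
  obtain ⟨p, gU, q, gW, hp, hU, hq, hW, rfl, rfl⟩ := h
  have z : (0:ℝ) ∈ Icc (0:ℝ) 1 := left_mem_Icc.2 zero_le_one
  have o : (1:ℝ) ∈ Icc (0:ℝ) 1 := right_mem_Icc.2 zero_le_one
  -- orbits of the two exceptional fibres
  have hU2 : HasTr T (orb (pU 1)) (gU ^ 2) := by
    have := hasTr_nfold hT continuous_loopU loopU_mem (fun s => by unfold loopU; rw [ee_add_one]) hU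
      (n := 2) (by norm_num)
    refine this.congr fun s _ => ?_
    rw [pU_one]
    unfold orb act loopU
    rw [tcf_ee_pow]
    simp
  have hW3 : HasTr T (orb (pW 1)) (gW ^ 3) := by
    have := hasTr_nfold hT continuous_loopW loopW_mem (fun s => by unfold loopW; rw [ee_add_one]) hW
      (n := 3) (by norm_num)
    refine this.congr fun s _ => ?_
    rw [pW_one]
    unfold orb act loopW
    refine Prod.ext ?_ ?_
    · simp
    · simp only [tcf_ee_pow]
      rw [mul_comm]
  obtain ⟨oo, hoo⟩ := exists_hasTr (γ := orb x0) hT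
    (Continuous.continuousOn (continuous_act tcf_continuous_ee continuous_const))
    (fun s _ => TC.act_mem_Exr (tcf_norm_ee s) TC.x0_aux)
  have e1 := (orb_move hT continuous_pU (fun s hs => pU_mem hs) hp (by rw [pU_zero]; exact hoo)).unique hU2
  have e2 := (orb_move hT continuous_pW (fun s hs => pW_mem hs) hq (by rw [pW_zero]; exact hoo)).unique hW3
  have eo1 : oo = (p * gU * p⁻¹) ^ 2 := by
    have : (p * gU * p⁻¹) ^ 2 = p * gU ^ 2 * p⁻¹ := by rw [conj_pow]
    rw [this, ← e1]; group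
  have eo2 : oo = (q * gW * q⁻¹) ^ 3 := by
    have : (q * gW * q⁻¹) ^ 3 = q * gW ^ 3 * q⁻¹ := by rw [conj_pow]
    rw [this, ← e2]; group
  refine ⟨eo1 ▸ hoo, by rw [← eo1, ← eo2], ?_⟩
  -- transports of the quarter turns
  obtain ⟨aU, haU⟩ := exists_hasTr (γ := fun s => qt s (1, 0)) hT
    (Continuous.continuousOn (continuous_qt continuous_id continuous_const))
    (fun s _ => qt_mem s (by rw [← loopU_zero]; exact loopU_mem 0))
  obtain ⟨aW, haW⟩ := exists_hasTr (γ := fun s => qt s (0, Complex.I)) hT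
    (Continuous.continuousOn (continuous_qt continuous_id continuous_const))
    (fun s _ => qt_mem s (by rw [← loopW_zero]; exact loopW_mem 0))
  have hU' : HasTr T (fun t => pt (rx 0 t) (ry 0 t)) (aU⁻¹ * gU * aU) := by
    refine (qt_move hT continuous_loopU (fun s _ => loopU_mem s) hU (by rw [loopU_zero]; exact haU)
      (by rw [loopU_one]; exact haU)).congr fun t _ => ?_
    rw [rx0, ry0, outU]
  have hW' : HasTr T (fun t => pt (-rx 0 t) (ry 0 t)) (aW⁻¹ * gW * aW) := by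
    refine (qt_move hT continuous_loopW (fun s _ => loopW_mem s) hW (by rw [loopW_zero]; exact haW)
      (by rw [loopW_one]; exact haW)).congr fun t _ => ?_
    rw [rx0, ry0, outW]
  -- the quarter circle
  have hqc : HasTr T (fun t => qc (Real.pi / 2 * t)) (p⁻¹ * q) := by
    refine HasTr.split (c := 1/2) (by norm_num) (by norm_num) hT
      (continuous_qc.comp (by fun_prop)).continuousOn (qc_mem (by positivity) (by linarith [Real.pi_pos]))
      (hp.symm.congr fun s _ => ?_) (hq.congr fun s _ => ?_)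
    · rw [pU_qc]; congr 1; ring
    · rw [pW_qc]; congr 1; ring
  have hr : HasTr T (fun t => pt (10 * (Real.pi / 4) * (1 - 2 * t)) (10 * Real.pi)) (aU⁻¹ * (p⁻¹ * q) * aW) := by
    refine (qt_move hT (γ := fun t => qc (Real.pi / 2 * t)) (continuous_qc.comp (by fun_prop))
      (fun s hs => qc_mem (mul_nonneg (by positivity) hs.1) (by nlinarith [hs.2, Real.pi_pos])) hqc
      (haU.congr fun s _ => ?_) (haW.congr fun s _ => ?_)).congr fun t _ => ?_
    · congr 1; unfold qc; simp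
    · congr 1; unfold qc
      rw [mul_one, Real.cos_pi_div_two, Real.sin_pi_div_two]; simp
    · rw [act_qc]; congr 1; ring
  -- tracks
  have cR : Continuous fun p : ℝ × ℝ => pt (rx p.1 p.2) (ry p.1 p.2) :=
    continuous_pt (continuous_rx continuous_fst continuous_snd) (continuous_ry continuous_fst continuous_snd)
  have cL : Continuous fun p : ℝ × ℝ => pt (-rx p.1 p.2) (ry p.1 p.2) :=
    continuous_pt (continuous_rx continuous_fst continuous_snd).neg (continuous_ry continuous_fst continuous_snd)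
  obtain ⟨am, ham⟩ := exists_hasTr (γ := fun s => pt (rx s 0) (ry s 0)) hT
    (cR.comp (f := fun s : ℝ => (s, (0:ℝ))) (by fun_prop)).continuousOn (fun s hs => KR_mem hs z)
  obtain ⟨ap, hap⟩ := exists_hasTr (γ := fun s => pt (rx s 1) (ry s 1)) hT
    (cR.comp (f := fun s : ℝ => (s, (1:ℝ))) (by fun_prop)).continuousOn (fun s hs => KR_mem hs o)
  obtain ⟨bm, hbm⟩ := exists_hasTr (γ := fun s => pt (-rx s 0) (ry s 0)) hT
    (cL.comp (f := fun s : ℝ => (s, (0:ℝ))) (by fun_prop)).continuousOn (fun s hs => KL_mem hs z)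
  obtain ⟨bp, hbp⟩ := exists_hasTr (γ := fun s => pt (-rx s 1) (ry s 1)) hT
    (cL.comp (f := fun s : ℝ => (s, (1:ℝ))) (by fun_prop)).continuousOn (fun s hs => KL_mem hs o)
  obtain ⟨gR, hgR⟩ := exists_hasTr (γ := fun t => pt (rx 1 t) (ry 1 t)) hT
    (cR.comp (f := fun s : ℝ => ((1:ℝ), s)) (by fun_prop)).continuousOn (fun s hs => KR_mem o hs)
  obtain ⟨gL, hgL⟩ := exists_hasTr (γ := fun t => pt (-rx 1 t) (ry 1 t)) hT
    (cL.comp (f := fun s : ℝ => ((1:ℝ), s)) (by fun_prop)).continuousOn (fun s hs => KL_mem o hs)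
  have sR := HasTr.square (K := fun s t => pt (rx s t) (ry s t)) hT cR.continuousOn
    (fun s hs t ht => KR_mem hs ht) hU' hgR ham hap
  have sL := HasTr.square (K := fun s t => pt (-rx s t) (ry s t)) hT cL.continuousOn
    (fun s hs t ht => KL_mem hs ht) hW' hgL hbm hbp
  have cT : Continuous fun p : ℝ × ℝ => pt ((1 - p.1) * (10 * (Real.pi / 4) * (1 - 2 * p.2)))
      (1 * ((1 - p.1) * (10 * Real.pi) + p.1)) := continuous_pt (by fun_prop) (by fun_prop)
  have cB : Continuous fun p : ℝ × ℝ => pt ((1 - p.1) * (10 * (Real.pi / 4) * (1 - 2 * p.2)))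
      (-1 * ((1 - p.1) * (10 * Real.pi) + p.1)) := continuous_pt (by fun_prop) (by fun_prop)
  have sT := HasTr.square (K := fun s t => pt ((1 - s) * (10 * (Real.pi / 4) * (1 - 2 * t)))
      (1 * ((1 - s) * (10 * Real.pi) + s))) hT cT.continuousOn
    (fun s hs t ht => top_mem hs ht (Or.inl rfl))
    (hr.congr fun t _ => by congr 1 <;> ring)
    ((HasTr.const hT (top_mem o z (Or.inl rfl))).congr fun t _ => by congr 1; ring)
    (hap.congr fun s _ => by rw [rxe s (Or.inr rfl), ryt]; congr 1; ring)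
    (hbp.congr fun s _ => by rw [rxe s (Or.inr rfl), ryt]; congr 1; ring)
  have sB := HasTr.square (K := fun s t => pt ((1 - s) * (10 * (Real.pi / 4) * (1 - 2 * t)))
      (-1 * ((1 - s) * (10 * Real.pi) + s))) hT cB.continuousOn
    (fun s hs t ht => top_mem hs ht (Or.inr rfl))
    (hr.congr fun t _ => by rw [← pt_flip]; congr 1 <;> ring)
    ((HasTr.const hT (top_mem o z (Or.inr rfl))).congr fun t _ => by congr 1; ring)
    (ham.congr fun s _ => by rw [rxe s (Or.inl rfl), ryb]; congr 1; ring)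
    (hbm.congr fun s _ => by rw [rxe s (Or.inl rfl), ryb]; congr 1; ring)
  -- the loop through `sl (-i)`
  have hloop : HasTr T (fun t => sl (ee (-1/4 + t))) (gR * gL⁻¹) := by
    refine HasTr.split (c := 1/2) (by norm_num) (by norm_num) hT
      (continuous_sl_ee (by fun_prop)).continuousOn (sl_ee_mem _) (hgR.congr fun s _ => ?_)
      (hgL.symm.congr fun s _ => ?_)
    · rw [sl_ee, rx1, ry1]
      congr 2 <;> ring
    · rw [sl_ee, rx1, ry1]
      have e1 : 2 * Real.pi * (-1/4 + (1/2 + (1 - 1/2) * s)) = Real.pi - Real.pi * (1 - s - 1/2) := by ring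
      rw [e1, Real.cos_pi_sub, Real.sin_pi_sub]
  obtain ⟨M, hM⟩ := exists_hasTr (γ := merE 1) hT (by
      refine Continuous.continuousOn ?_
      have : merE 1 = fun s => sl (ee s) := funext merE_eq
      rw [this]; exact continuous_sl_ee continuous_id)
    (fun s _ => by rw [merE_eq]; exact sl_ee_mem s)
  obtain ⟨c, hc, eM⟩ := HasTr.free_homotopic (K := fun s t => sl (ee (-1/4 + s/4 + t))) hT
    (continuous_sl_ee (by fun_prop)).continuousOn (fun s _ t _ => sl_ee_mem _)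
    (fun s _ => by rw [ee_add_one, add_zero])
    (hloop.congr fun s _ => by rw [zero_div, add_zero])
    (hM.congr fun s _ => by rw [merE_eq]; congr 2; ring)
  refine ⟨p * aU * am * c, ?_, ?_⟩
  · have : M = (p * aU * am * c)⁻¹ * (p * gU * p⁻¹ * (q * gW * q⁻¹)⁻¹) * (p * aU * am * c) := by
      rw [eM]
      have x1 : gR = am⁻¹ * (aU⁻¹ * gU * aU) * ap := by rw [← mul_right_inj am, sR]; group
      have x2 : gL = bm⁻¹ * (aW⁻¹ * gW * aW) * bp := by rw [← mul_right_inj bm, sL]; group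
      have x3 : ap = aU⁻¹ * (p⁻¹ * q) * aW * bp := by rw [← sT]; group
      have x4 : am = aU⁻¹ * (p⁻¹ * q) * aW * bm := by rw [← sB]; group
      rw [x1, x2, x3, x4]
      group
    rw [← this]; exact hM
  · have o1 := orb_move hT (continuous_pU) (fun s hs => pU_mem hs) hp (by rw [pU_zero]; exact eo1 ▸ hoo)
    have o2 := orb_move hT (δ := fun s => qt s (1, 0)) (continuous_qt continuous_id continuous_const)
      (fun s _ => qt_mem s (by rw [← loopU_zero]; exact loopU_mem 0)) haU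
      (by rw [qt_zero, ← pU_one]; exact o1)
    have o3 := orb_move hT (δ := fun s => pt (rx s 0) (ry s 0))
      (cR.comp (f := fun s : ℝ => (s, (0:ℝ))) (by fun_prop)) (fun s hs => KR_mem hs z) ham
      (by
        have : pt (rx 0 0) (ry 0 0) = qt 1 (1, 0) := by
          rw [qt_one, ← loopU_zero, outU, rx0, ry0]
        rw [this]; exact o2)
    have o4 := orb_move hT (δ := fun s => sl (ee (-1/4 + s/4 + 0))) (continuous_sl_ee (by fun_prop))
      (fun s _ => sl_ee_mem _) hc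
      (by
        have : sl (ee (-1/4 + 0/4 + 0)) = pt (rx 1 0) (ry 1 0) := by
          rw [sl_ee, rx1, ry1]
          congr 2 <;> ring
        rw [this]; exact o3)
    have e3 : sl (ee (-1/4 + 1/4 + 0)) = sl 1 := by
      congr 1
      rw [show (-1/4 + 1/4 + 0 : ℝ) = 0 by norm_num, tcf_ee_zero]
    rw [e3] at o4
    have e4 : (p * aU * am * c)⁻¹ * (p * gU * p⁻¹) ^ 2 * (p * aU * am * c) =
        c⁻¹ * (am⁻¹ * (aU⁻¹ * (p⁻¹ * (p * gU * p⁻¹) ^ 2 * p) * aU) * am) * c := by group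
    rw [e4]; exact o4

end TB371

/-- relation, meridian, longitude, orbit -/
theorem tref_rel (hT : GFlat T Ex) {U W : G} (h : UW T U W) :
    U ^ 2 = W ^ 3 ∧ (∀ g, HasTr T (orb x0) g → g = U ^ 2) ∧
    (∀ g, HasTr T (merE 1) g → ∃ a, g = a⁻¹ * (U * W⁻¹) * a) ∧
    (∀ g, HasTr T (lonE 1) g → ∃ a, g = a⁻¹ * (U ^ 2 * ((U * W⁻¹) ^ 6)⁻¹) * a) := by
  obtain ⟨h1, h2, a, hM, hO⟩ := TB371.main hT h
  refine ⟨h2, fun g hg => hg.unique h1, fun g hg => ⟨a, hg.unique hM⟩, fun g hg => ⟨a, ?_⟩⟩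
  have z : (0:ℝ) ∈ Icc (0:ℝ) 1 := left_mem_Icc.2 zero_le_one
  have hM' : HasTr T (fun s => sl (ee s)) (a⁻¹ * (U * W⁻¹) * a) := hM.congr fun s _ => (TB371.merE_eq s).symm
  have h6 := TB371.hasTr_nfold hT (γ := fun s => sl (ee s)) (TB371.continuous_sl_ee continuous_id) TB371.sl_ee_mem
    (fun s => by rw [TB371.ee_add_one]) hM' (n := 6) (by norm_num)
  have h6' : HasTr T (fun s => sl (ee (-6 * s))) ((a⁻¹ * (U * W⁻¹) * a) ^ 6)⁻¹ := by
    refine h6.symm.congr fun s _ => ?_
    have := tcf_ee_add_int (-6 * s) 6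
    rw [← this]
    congr 2
    push_cast
    ring
  have hconj : ∀ s : ℝ, (starRingEnd ℂ (ee s)) ^ 6 = ee (-6 * s) := by
    intro s
    have h1 : starRingEnd ℂ (ee s) = ee (-s) := by
      unfold ee
      rw [← Complex.exp_conj]
      congr 1
      simp only [map_mul, Complex.conj_ofReal, Complex.conj_I, map_ofNat]
      push_cast
      ring
    rw [h1, tcf_ee_pow]
    congr 1
    push_cast
    ring
  have hc : Continuous fun p : ℝ × ℝ => act (ee p.2) (sl (ee (-6 * p.1 * p.2))) :=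
    continuous_act (tcf_continuous_ee.comp continuous_snd) (TB371.continuous_sl_ee (by fun_prop))
  have key := HasTr.square (K := fun s t => act (ee t) (sl (ee (-6 * s * t)))) hT hc.continuousOn
    (fun s _ t _ => TC.act_mem_Exr (tcf_norm_ee t) (TB371.sl_ee_mem _))
    (hO.congr fun t _ => by
      show act (ee t) (sl (ee (-6 * 0 * t))) = act (ee t) (sl 1)
      rw [mul_zero, zero_mul, tcf_ee_zero])
    (hg.congr fun t _ => by
      show act (ee t) (sl (ee (-6 * 1 * t))) = act (ee t) (sl ((starRingEnd ℂ (ee t)) ^ 6 * ((1:ℝ) : ℂ)))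
      rw [hconj, Complex.ofReal_one, mul_one, mul_one])
    ((HasTr.const hT (TB371.sl_ee_mem 0)).congr fun s _ => by
      rw [mul_zero, tcf_ee_zero, TC.act_one])
    (h6'.congr fun s _ => by rw [TB371.ee_one, TC.act_one, mul_one])
  rw [one_mul] at key
  rw [key]
  have : (a⁻¹ * (U * W⁻¹) * a) ^ 6 = a⁻¹ * (U * W⁻¹) ^ 6 * a := by
    have := conj_pow (a := a⁻¹) (b := U * W⁻¹) (i := 6)
    rwa [inv_inv] at this
  rw [this]
  group

end Pool.Agent.Helper60.Geo
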