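import Pool.Agent.Helper60.Geo.JMv

/-! Connectedness of `S³ ∖ K`, conjugacy of orbit transports, deformation of `S³ ∖ K` into `Ex`. -/

set_option autoImplicit false

namespace Pool.Agent.Helper60.Geo

open Set AS Topology

namespace C388

/-! ### The trefoil and the action -/

theorem sl_zero : sl 0 = (((1 / Real.sqrt 2 : ℝ) : ℂ), ((1 / Real.sqrt 2 : ℝ) : ℂ)) := by
  have h1 : Real.sqrt 2 / 2 = 1 / Real.sqrt 2 := by
    have : Real.sqrt 2 * Real.sqrt 2 = 2 := Real.mul_self_sqrt (by norm_num)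
    field_simp
    nlinarith
  unfold sl
  simp only [Complex.zero_re, Complex.zero_im, zero_div, sub_zero, Complex.ofReal_zero, zero_mul,
    Complex.exp_zero, mul_one, Real.cos_pi_div_four, Real.sin_pi_div_four, h1]

theorem act_act (u v : ℂ) (z : ℂ × ℂ) : act u (act v z) = act (u * v) z := by
  unfold act
  ext <;> simp only <;> ring

theorem act_one (z : ℂ × ℂ) : act 1 z = z := by
  unfold act
  simp

theorem mem_Kn_iff {z : ℂ × ℂ} : z ∈ Kn ↔ ∃ u : ℂ, ‖u‖ = 1 ∧ z = act u (sl 0) := by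
  unfold Kn eV
  simp only [mem_ofPred_eq, mul_zero]

theorem act_Kn {u : ℂ} (hu : ‖u‖ = 1) {z : ℂ × ℂ} (hz : z ∈ Kn) : act u z ∈ Kn := by
  obtain ⟨v, hv, rfl⟩ := mem_Kn_iff.1 hz
  rw [act_act]
  exact mem_Kn_iff.2 ⟨u * v, by rw [norm_mul, hu, hv, one_mul], rfl⟩

theorem act_compl {u : ℂ} (hu : ‖u‖ = 1) {z : ℂ × ℂ} (hz : z ∈ Sph \ Kn) : act u z ∈ Sph \ Kn := by
  have hu0 : u ≠ 0 := by
    rintro rfl
    rw [norm_zero] at hu
    exact zero_ne_one hu
  refine ⟨?_, fun h => hz.2 ?_⟩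
  · show nrm (act u z) = 1
    rw [nrm_act hu]
    exact hz.1
  · have h1 : act u⁻¹ (act u z) ∈ Kn := act_Kn (by rw [norm_inv, hu, inv_one]) h
    rwa [act_act, inv_mul_cancel₀ hu0, act_one] at h1

theorem norm_Kn {z : ℂ × ℂ} (hz : z ∈ Kn) : ‖z.1‖ = ‖z.2‖ := by
  obtain ⟨u, hu, rfl⟩ := mem_Kn_iff.1 hz
  rw [sl_zero]
  unfold act
  simp only [norm_mul, norm_pow, hu, one_pow, one_mul]

/-! ### Paths -/

/-- the path on the join -/
noncomputable def jn (p q : ℂ) (φ : ℝ) : ℂ × ℂ := ((Real.cos φ : ℂ) * p, (Real.sin φ : ℂ) * q)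

theorem jn_cont (p q : ℂ) : Continuous (jn p q) := by
  unfold jn
  fun_prop

theorem jn_sph {p q : ℂ} (hp : ‖p‖ = 1) (hq : ‖q‖ = 1) (φ : ℝ) : jn p q φ ∈ Sph := by
  show nrm _ = 1
  unfold nrm jn
  simp only [norm_mul, hp, hq, mul_one, Complex.norm_real, Real.norm_eq_abs, sq_abs,
    Real.cos_sq_add_sin_sq, Real.sqrt_one]

theorem jn_notMem {p q : ℂ} (hp : ‖p‖ = 1) (hq : ‖q‖ = 1) {φ : ℝ}
    (h : |Real.cos φ| ≠ |Real.sin φ|) : jn p q φ ∉ Kn := by
  intro hK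
  have := norm_Kn hK
  unfold jn at this
  simp only [norm_mul, hp, hq, mul_one, Complex.norm_real, Real.norm_eq_abs] at this
  exact h this

theorem cos_lt {φ : ℝ} (h0 : 0 ≤ φ) (h1 : φ < Real.pi / 4) : |Real.cos φ| ≠ |Real.sin φ| := by
  have hpi := Real.pi_pos
  have h2 : Real.sin φ < Real.sin (Real.pi / 4) :=
    Real.sin_lt_sin_of_lt_of_le_pi_div_two (by linarith) (by linarith) h1
  have h3 : Real.cos (Real.pi / 4) < Real.cos φ :=
    Real.cos_lt_cos_of_nonneg_of_le_pi_div_two h0 (by linarith) h1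
  rw [Real.sin_pi_div_four] at h2
  rw [Real.cos_pi_div_four] at h3
  have h4 : 0 ≤ Real.sin φ := Real.sin_nonneg_of_nonneg_of_le_pi h0 (by linarith)
  rw [abs_of_nonneg h4, abs_of_nonneg (by linarith)]
  intro h5
  linarith

theorem sin_lt {φ : ℝ} (h0 : Real.pi / 4 < φ) (h1 : φ ≤ Real.pi / 2) :
    |Real.cos φ| ≠ |Real.sin φ| := by
  have hpi := Real.pi_pos
  have h2 : Real.sin (Real.pi / 4) < Real.sin φ :=
    Real.sin_lt_sin_of_lt_of_le_pi_div_two (by linarith) h1 h0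
  have h3 : Real.cos φ < Real.cos (Real.pi / 4) :=
    Real.cos_lt_cos_of_nonneg_of_le_pi_div_two (by linarith) h1 h0
  rw [Real.sin_pi_div_four] at h2
  rw [Real.cos_pi_div_four] at h3
  have h4 : 0 ≤ Real.cos φ := Real.cos_nonneg_of_mem_Icc ⟨by linarith, h1⟩
  rw [abs_of_nonneg h4, abs_of_nonneg (by linarith [Real.sqrt_nonneg 2])]
  intro h5
  linarith

theorem exists_jn {z : ℂ × ℂ} (hz : z ∈ Sph) : ∃ p q : ℂ, ∃ φ : ℝ, ‖p‖ = 1 ∧ ‖q‖ = 1 ∧
    0 ≤ φ ∧ φ ≤ Real.pi / 2 ∧ z = jn p q φ := by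
  have hz1 : ‖z.1‖ ^ 2 + ‖z.2‖ ^ 2 = 1 := by
    have := nrm_sq z
    have h1 : nrm z = 1 := hz
    rw [h1] at this
    linarith
  have hpol : ∀ w : ℂ, ∃ p : ℂ, ‖p‖ = 1 ∧ w = (‖w‖ : ℂ) * p := by
    intro w
    refine ⟨Complex.exp (w.arg * Complex.I), Complex.norm_exp_ofReal_mul_I _, ?_⟩
    exact (Complex.norm_mul_exp_arg_mul_I w).symm
  obtain ⟨p, hp, hp'⟩ := hpol z.1
  obtain ⟨q, hq, hq'⟩ := hpol z.2
  refine ⟨p, q, Real.arccos ‖z.1‖, hp, hq, Real.arccos_nonneg _, ?_, ?_⟩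
  · exact Real.arccos_le_pi_div_two.2 (norm_nonneg _)
  · have h1 : ‖z.1‖ ≤ 1 := by nlinarith [norm_nonneg z.1, sq_nonneg ‖z.2‖]
    have h2 : Real.cos (Real.arccos ‖z.1‖) = ‖z.1‖ :=
      Real.cos_arccos (by linarith [norm_nonneg z.1]) h1
    have h3 : Real.sin (Real.arccos ‖z.1‖) = ‖z.2‖ := by
      rw [Real.sin_arccos]
      have : 1 - ‖z.1‖ ^ 2 = ‖z.2‖ ^ 2 := by linarith
      rw [this, Real.sqrt_sq (norm_nonneg _)]
    unfold jn
    rw [h2, h3, ← hp', ← hq']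

/-- a path as a function on the real line gives `JoinedIn` -/
theorem joined_of {S : Set (ℂ × ℂ)} {f : ℝ → ℂ × ℂ} (hf : Continuous f)
    (h : ∀ s ∈ Icc (0:ℝ) 1, f s ∈ S) : JoinedIn S (f 0) (f 1) :=
  JoinedIn.ofLine hf.continuousOn rfl rfl (by
    rintro _ ⟨s, hs, rfl⟩
    exact h s hs)

theorem jn_zero (p q : ℂ) : jn p q 0 = (p, 0) := by
  unfold jn
  simp

theorem jn_half (p q : ℂ) : jn p q (Real.pi / 2) = (0, q) := by
  unfold jn
  simp

theorem join_A {p : ℂ} (hp : ‖p‖ = 1) : JoinedIn (Sph \ Kn) (p, 0) (1, 0) := by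
  obtain ⟨α, rfl⟩ := exists_ee hp
  have h := joined_of (S := Sph \ Kn) (f := fun s => (ee ((1 - s) * α), 0))
    ((continuous_ee.comp (by fun_prop)).prodMk continuous_const) (by
      intro s _
      have h1 : ((ee ((1 - s) * α), 0) : ℂ × ℂ) = jn (ee ((1 - s) * α)) 1 0 := by
        rw [jn_zero]
      rw [h1]
      exact ⟨jn_sph (norm_ee _) (by simp) _, jn_notMem (norm_ee _) (by simp) (by simp)⟩)
  simpa [ee_zero] using h

theorem join_B {q : ℂ} (hq : ‖q‖ = 1) : JoinedIn (Sph \ Kn) (0, q) (0, Complex.I) := by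
  have hq' : ‖q * (-Complex.I)‖ = 1 := by simp [hq]
  obtain ⟨α, hα⟩ := exists_ee hq'
  have hq2 : q = Complex.I * ee α := by
    rw [← hα]
    have := Complex.I_mul_I
    linear_combination q * this
  have h := joined_of (S := Sph \ Kn) (f := fun s => (0, Complex.I * ee ((1 - s) * α)))
    (continuous_const.prodMk (continuous_const.mul (continuous_ee.comp (by fun_prop)))) (by
      intro s _
      have h1 : ((0, Complex.I * ee ((1 - s) * α)) : ℂ × ℂ) =
          jn 1 (Complex.I * ee ((1 - s) * α)) (Real.pi / 2) := by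
        rw [jn_half]
      rw [h1]
      exact ⟨jn_sph (by simp) (by simp) _, jn_notMem (by simp) (by simp) (by simp)⟩)
  simpa [ee_zero, ← hq2] using h

theorem join_AB : JoinedIn (Sph \ Kn) (0, Complex.I) (1, 0) := by
  have h := joined_of (S := Sph \ Kn) (f := fun s => jn 1 Complex.I ((1 - s) * (Real.pi / 2)))
    ((jn_cont _ _).comp (by fun_prop)) (by
      rintro s ⟨hs0, hs1⟩
      refine ⟨jn_sph (by simp) (by simp) _, ?_⟩
      intro hK
      obtain ⟨u, hu, he⟩ := mem_Kn_iff.1 hK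
      rw [sl_zero] at he
      unfold jn act at he
      rw [Prod.mk.injEq] at he
      obtain ⟨e1, e2⟩ := he
      have hr : ((1 / Real.sqrt 2 : ℝ) : ℂ) ≠ 0 := by
        have : (1 / Real.sqrt 2 : ℝ) ≠ 0 := by positivity
        exact_mod_cast this
      set φ := (1 - s) * (Real.pi / 2) with hφ
      have hn := norm_Kn hK
      unfold jn at hn
      have hc : 0 ≤ Real.cos φ := Real.cos_nonneg_of_mem_Icc
        ⟨by nlinarith [Real.pi_pos], by nlinarith [Real.pi_pos]⟩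
      have hs : 0 ≤ Real.sin φ := Real.sin_nonneg_of_nonneg_of_le_pi
        (by nlinarith [Real.pi_pos]) (by nlinarith [Real.pi_pos])
      simp only [norm_mul, Complex.norm_I, mul_one, Complex.norm_real, Real.norm_eq_abs,
        abs_of_nonneg hc, abs_of_nonneg hs] at hn
      have hcs := Real.cos_sq_add_sin_sq φ
      have hc2 : Real.cos φ ^ 2 = 1 / 2 := by rw [← hn] at hcs; linarith
      -- cube and square
      have h6 : ((Real.cos φ : ℂ) * 1) ^ 3 * ((1 / Real.sqrt 2 : ℝ) : ℂ) ^ 2 =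
          ((Real.sin φ : ℂ) * Complex.I) ^ 2 * ((1 / Real.sqrt 2 : ℝ) : ℂ) ^ 3 := by
        rw [e1, e2]
        ring
      rw [← hn] at h6
      have h7 : ((Real.cos φ : ℂ)) ^ 2 = 1 / 2 := by
        have : ((Real.cos φ ^ 2 : ℝ) : ℂ) = ((1 / 2 : ℝ) : ℂ) := by rw [hc2]
        push_cast at this
        push_cast
        exact this
      have h8 : (Real.cos φ : ℂ) * ((1 / Real.sqrt 2 : ℝ) : ℂ) ^ 2 =
          - ((1 / Real.sqrt 2 : ℝ) : ℂ) ^ 3 := by
        have h9 : (1 / 2 : ℂ) * ((Real.cos φ : ℂ) * ((1 / Real.sqrt 2 : ℝ) : ℂ) ^ 2) =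
            (1 / 2 : ℂ) * (- ((1 / Real.sqrt 2 : ℝ) : ℂ) ^ 3) := by
          rw [← h7]
          have hI : Complex.I ^ 2 = -1 := Complex.I_sq
          linear_combination h6 + (Real.cos φ : ℂ) ^ 2 * ((1 / Real.sqrt 2 : ℝ) : ℂ) ^ 3 * hI
        exact mul_left_cancel₀ (by norm_num) h9
      have h10 : (Real.cos φ : ℂ) = - ((1 / Real.sqrt 2 : ℝ) : ℂ) := by
        have h11 : ((1 / Real.sqrt 2 : ℝ) : ℂ) ^ 2 ≠ 0 := pow_ne_zero 2 hr
        apply mul_right_cancel₀ h11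
        rw [h8]
        ring
      have h12 : Real.cos φ = - (1 / Real.sqrt 2) := by exact_mod_cast h10
      have h13 : 0 < 1 / Real.sqrt 2 := by positivity
      linarith)
  have e0 : (1 - (0:ℝ)) * (Real.pi / 2) = Real.pi / 2 := by ring
  have e1 : (1 - (1:ℝ)) * (Real.pi / 2) = 0 := by ring
  simp only [e0, e1, jn_zero, jn_half] at h
  exact h

theorem join_all {z : ℂ × ℂ} (hz : z ∈ Sph \ Kn) : JoinedIn (Sph \ Kn) z (1, 0) := by
  obtain ⟨p, q, φ, hp, hq, h0, h1, rfl⟩ := exists_jn hz.1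
  rcases le_or_gt φ (Real.pi / 4) with h | h
  · refine JoinedIn.trans ?_ (join_A hp)
    have h := joined_of (S := Sph \ Kn) (f := fun s => jn p q ((1 - s) * φ))
      ((jn_cont _ _).comp (by fun_prop)) (by
        rintro s ⟨hs0, hs1⟩
        refine ⟨jn_sph hp hq _, ?_⟩
        rcases hs0.eq_or_lt with rfl | hs0
        · simpa using hz.2
        · apply jn_notMem hp hq
          apply cos_lt
          · exact mul_nonneg (by linarith) h0
          · nlinarith [Real.pi_pos])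
    simpa [jn_zero] using h
  · refine JoinedIn.trans ?_ ((join_B hq).trans join_AB)
    have h := joined_of (S := Sph \ Kn) (f := fun s => jn p q (φ + s * (Real.pi / 2 - φ)))
      ((jn_cont _ _).comp (by fun_prop)) (by
        rintro s ⟨hs0, hs1⟩
        refine ⟨jn_sph hp hq _, ?_⟩
        apply jn_notMem hp hq
        apply sin_lt
        · nlinarith
        · nlinarith)
    have e1 : φ + 1 * (Real.pi / 2 - φ) = Real.pi / 2 := by ring
    simp only [zero_mul, add_zero, e1, jn_half] at h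
    exact h

theorem base_mem : ((1, 0) : ℂ × ℂ) ∈ Sph \ Kn := by
  have := join_AB.target_mem
  exact this

theorem pathConn : IsPathConnected (Sph \ Kn) :=
  ⟨(1, 0), base_mem, fun {_} hy => (join_all hy).symm⟩

end C388

theorem preconnected_Kn_compl : IsPreconnected (Sph \ Kn) :=
  C388.pathConn.isConnected.isPreconnected

variable {G : Type*} [Group G] {T : ℂ × ℂ → ℂ × ℂ → G}

/-- all orbits have conjugate transports -/
theorem orb_conj (hT : GFlat T (Sph \ Kn)) {x y : ℂ × ℂ} (hx : x ∈ Sph \ Kn) (hy : y ∈ Sph \ Kn)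
    {g h : G} (hg : HasTr T (orb x) g) (hh : HasTr T (orb y) h) : ∃ a, h = a⁻¹ * g * a := by
  obtain ⟨γ, hγ⟩ := C388.pathConn.joinedIn x hx y hy
  have key := HasTr.free_homotopic (T := T) (S := Sph \ Kn)
    (K := fun s t => act (ee t) (γ.extend s)) hT
    (by
      apply Continuous.continuousOn
      exact continuous_act (continuous_ee.comp continuous_snd)
        (γ.continuous_extend.comp continuous_fst))
    (by
      intro s hs t _
      apply C388.act_compl (norm_ee t)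
      rw [γ.extend_apply hs]
      exact hγ _)
    (by
      intro s _
      show act (ee 0) _ = act (ee 1) _
      rw [ee_zero, ee_one])
    (g₀ := g) (g₁ := h)
    (by
      refine hg.congr (fun s _ => ?_)
      show act (ee s) _ = _
      rw [γ.extend_zero]
      rfl)
    (by
      refine hh.congr (fun s _ => ?_)
      show act (ee s) _ = _
      rw [γ.extend_one]
      rfl)
  obtain ⟨a, -, ha⟩ := key
  exact ⟨a, ha⟩

namespace C388

/-! ### The radial push -/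

/-- the condition: `z` is on a ray through the closed solid torus -/
def Cn (z : ℂ × ℂ) : Prop := z.1 ≠ 0 ∧ z.2 ≠ 0 ∧ ‖(eInv z).2‖ ≤ 1

/-- the push inside the solid torus -/
noncomputable def pu (s : ℝ) (p : ℂ × ℂ) : ℂ × ℂ :=
  (p.1, ((((1 - s) * ‖p.2‖ + s) / ‖p.2‖ : ℝ) : ℂ) * p.2)

noncomputable def Fp (s : ℝ) (z : ℂ × ℂ) : ℂ × ℂ := nrm z • eV (pu s (eInv z))

open Classical in
/-- the ambient radial push -/
noncomputable def Kp (s : ℝ) (z : ℂ × ℂ) : ℂ × ℂ := if Cn z then Fp s z else z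

theorem norm_pu {s : ℝ} (hs : s ∈ Icc (0:ℝ) 1) {p : ℂ × ℂ} (hp : p.2 ≠ 0) :
    ‖(pu s p).2‖ = (1 - s) * ‖p.2‖ + s := by
  have h1 : 0 < ‖p.2‖ := norm_pos_iff.2 hp
  have h2 : 0 ≤ (1 - s) * ‖p.2‖ + s := by nlinarith [hs.1, hs.2]
  unfold pu
  simp only
  rw [norm_mul, Complex.norm_real, Real.norm_eq_abs, abs_of_nonneg (div_nonneg h2 h1.le),
    div_mul_cancel₀ _ h1.ne']

theorem eInv_fst {z : ℂ × ℂ} (h1 : z.1 ≠ 0) (h2 : z.2 ≠ 0) : ‖(eInv z).1‖ = 1 := by
  rw [eInv_eq]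
  exact norm_eU h1 h2

theorem Cn_ST {z : ℂ × ℂ} (h : Cn z) : eInv z ∈ ST := ⟨eInv_fst h.1 h.2.1, h.2.2⟩

theorem Cn_eV {p : ℂ × ℂ} (hp : p ∈ ST) : Cn (eV p) := by
  refine ⟨(eV_ne hp).1, (eV_ne hp).2, ?_⟩
  rw [eInv_eV hp]
  exact hp.2

theorem Kp_zero (z : ℂ × ℂ) : Kp 0 z = z := by
  unfold Kp
  split_ifs with h
  · unfold Fp
    have h1 : pu 0 (eInv z) = eInv z := by
      unfold pu
      by_cases h0 : (eInv z).2 = 0
      · rw [h0, mul_zero, ← h0]
      · have : ‖(eInv z).2‖ ≠ 0 := norm_ne_zero_iff.2 h0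
        rw [sub_zero, one_mul, add_zero, div_self this, Complex.ofReal_one, one_mul]
    rw [h1]
    exact (eV_eInv' h.1 h.2.1).symm
  · rfl

theorem ite_tendsto {X Y : Type*} [TopologicalSpace X] [TopologicalSpace Y] {P : X → Prop}
    [DecidablePred P] {f g : X → Y} {x : X} {y : Y} (hf : Filter.Tendsto f (𝓝 x) (𝓝 y))
    (hg : Filter.Tendsto g (𝓝 x) (𝓝 y)) :
    Filter.Tendsto (fun z => if P z then f z else g z) (𝓝 x) (𝓝 y) := by
  intro s hs
  have h1 : ∀ᶠ z in 𝓝 x, f z ∈ s := hf hs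
  have h2 : ∀ᶠ z in 𝓝 x, g z ∈ s := hg hs
  have h3 : ∀ᶠ z in 𝓝 x, (if P z then f z else g z) ∈ s := by
    filter_upwards [h1, h2] with z h1 h2
    split_ifs
    · exact h1
    · exact h2
  exact h3

theorem Fp_cont {s : ℝ} {p : ℂ × ℂ} (hp : p ∈ ST) (h0 : p.2 ≠ 0) :
    ContinuousAt (fun x : ℝ × (ℂ × ℂ) => Fp x.1 x.2) (s, eV p) := by
  have c0 := continuousAt_eInv hp one_pos
  rw [one_smul] at c0
  have c1 : ContinuousAt (fun x : ℝ × (ℂ × ℂ) => eInv x.2) (s, eV p) :=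
    ContinuousAt.comp (f := fun x : ℝ × (ℂ × ℂ) => x.2) (g := eInv) c0 continuousAt_snd
  have c2 : ContinuousAt (fun x : ℝ × (ℂ × ℂ) => pu x.1 (eInv x.2)) (s, eV p) := by
    unfold pu
    apply ContinuousAt.prodMk c1.fst
    apply ContinuousAt.mul _ c1.snd
    apply Complex.continuous_ofReal.continuousAt.comp
    apply ContinuousAt.div
    · exact ((continuousAt_const.sub continuousAt_fst).mul c1.snd.norm).add continuousAt_fst
    · exact c1.snd.norm
    · simp only [eInv_eV hp]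
      exact norm_ne_zero_iff.2 h0
  unfold Fp
  exact ((continuous_nrm.comp continuous_snd).continuousAt).smul
    (continuous_eV.continuousAt.comp c2)

theorem Fp_eV_one {s : ℝ} {p : ℂ × ℂ} (hp : p ∈ ST) (h1 : ‖p.2‖ = 1) : Fp s (eV p) = eV p := by
  unfold Fp
  rw [nrm_eV hp.1, one_smul, eInv_eV hp]
  unfold pu
  rw [h1]
  have : ((1 - s) * 1 + s) / 1 = 1 := by ring
  rw [this, Complex.ofReal_one, one_mul]

theorem notMem_Kn_eV {p : ℂ × ℂ} (hp : p ∈ ST) : eV p ∉ Kn ↔ p.2 ≠ 0 := by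
  constructor
  · intro h h0
    exact h ⟨p.1, hp.1, by rw [← h0]⟩
  · rintro h ⟨u, hu, he⟩
    have := injOn_eV hp (⟨hu, by simp⟩ : ((u, 0) : ℂ × ℂ) ∈ ST) he
    rw [this] at h
    exact h rfl

theorem Kp_cont {s : ℝ} {a : ℂ × ℂ} (ha : a ∈ Sph \ Kn) :
    ContinuousAt (fun x : ℝ × (ℂ × ℂ) => Kp x.1 x.2) (s, a) := by
  classical
  have ha1 : nrm a = 1 := ha.1
  by_cases hC : Cn a
  · have hST := Cn_ST hC
    have hae : a = eV (eInv a) := by
      have := eV_eInv' hC.1 hC.2.1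
      rwa [ha1, one_smul] at this
    have h0 : (eInv a).2 ≠ 0 := by
      rw [← notMem_Kn_eV hST, ← hae]
      exact ha.2
    have cF := Fp_cont (s := s) hST h0
    rw [← hae] at cF
    by_cases h1 : ‖(eInv a).2‖ = 1
    · -- boundary
      have e1 : Fp s a = a := by
        have := Fp_eV_one (s := s) hST h1
        rwa [← hae] at this
      have e2 : Kp s a = a := by
        unfold Kp
        rw [if_pos hC, e1]
      unfold ContinuousAt at cF ⊢
      simp only [e1] at cF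
      simp only [e2]
      unfold Kp
      exact ite_tendsto cF continuousAt_snd
    · -- interior
      have hlt : ‖(eInv a).2‖ < 1 := lt_of_le_of_ne hC.2.2 h1
      have c0 := continuousAt_eInv hST one_pos
      rw [one_smul, ← hae] at c0
      have ev : ∀ᶠ x : ℝ × (ℂ × ℂ) in 𝓝 (s, a), Cn x.2 := by
        have e1 : ∀ᶠ z in 𝓝 a, z.1 ≠ 0 := continuousAt_fst.eventually_ne hC.1
        have e2 : ∀ᶠ z in 𝓝 a, z.2 ≠ 0 := continuousAt_snd.eventually_ne hC.2.1
        have e3 : ∀ᶠ z in 𝓝 a, ‖(eInv z).2‖ < 1 :=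
          (c0.snd.norm).eventually (gt_mem_nhds hlt)
        have e4 : ∀ᶠ z in 𝓝 a, Cn z := by
          filter_upwards [e1, e2, e3] with z h1 h2 h3
          exact ⟨h1, h2, h3.le⟩
        exact (continuousAt_snd (p := (s, a))).eventually e4
      apply cF.congr
      filter_upwards [ev] with x hx
      unfold Kp
      rw [if_pos hx]
  · -- outside
    have hn : a ∉ eV '' ST := by
      rintro ⟨p, hp, rfl⟩
      exact hC (Cn_eV hp)
    have ha0 : nrm a ≠ 0 := by rw [ha1]; exact one_ne_zero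
    have cs : ContinuousAt (fun z : ℂ × ℂ => (nrm z)⁻¹ • z) a :=
      (continuous_nrm.continuousAt.inv₀ ha0).smul continuousAt_id
    have e1 : ∀ᶠ z in 𝓝 a, (nrm z)⁻¹ • z ∉ eV '' ST := by
      have h2 : (nrm a)⁻¹ • a ∈ (eV '' ST)ᶜ := by
        rw [ha1, inv_one, one_smul]
        exact hn
      exact cs.eventually (isClosed_eVST.isOpen_compl.mem_nhds h2)
    have e2 : ∀ᶠ z in 𝓝 a, nrm z ≠ 0 := continuous_nrm.continuousAt.eventually_ne ha0
    have e3 : ∀ᶠ z in 𝓝 a, ¬ Cn z := by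
      filter_upwards [e1, e2] with z h1 h2 h3
      apply h1
      refine ⟨eInv z, Cn_ST h3, ?_⟩
      have h4 : (nrm z)⁻¹ • (nrm z • eV (eInv z)) = eV (eInv z) := by
        rw [smul_smul, inv_mul_cancel₀ h2, one_smul]
      rw [← eV_eInv' h3.1 h3.2.1] at h4
      exact h4.symm
    have ev : ∀ᶠ x : ℝ × (ℂ × ℂ) in 𝓝 (s, a), ¬ Cn x.2 :=
      (continuousAt_snd (p := (s, a))).eventually e3
    apply (continuousAt_snd (p := (s, a))).congr
    filter_upwards [ev] with x hx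
    unfold Kp
    rw [if_neg hx]

theorem Kp_mem {s : ℝ} (hs : s ∈ Icc (0:ℝ) 1) {a : ℂ × ℂ} (ha : a ∈ Sph \ Kn) :
    Kp s a ∈ Sph \ Kn := by
  classical
  have ha1 : nrm a = 1 := ha.1
  unfold Kp
  split_ifs with hC
  · have hST := Cn_ST hC
    have hae : a = eV (eInv a) := by
      have := eV_eInv' hC.1 hC.2.1
      rwa [ha1, one_smul] at this
    have h0 : (eInv a).2 ≠ 0 := by
      rw [← notMem_Kn_eV hST, ← hae]
      exact ha.2
    have h2 := norm_pu hs h0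
    have h3 : 0 < ‖(eInv a).2‖ := norm_pos_iff.2 h0
    have h4 := hST.2
    have h5 : pu s (eInv a) ∈ ST := by
      refine ⟨hST.1, ?_⟩
      rw [h2]
      nlinarith [hs.1, hs.2]
    unfold Fp
    rw [ha1, one_smul]
    refine ⟨eV_sph h5, ?_⟩
    rw [notMem_Kn_eV h5, ← norm_pos_iff, h2]
    rcases hs.1.eq_or_lt with h | h
    · rw [← h]; simpa using h0
    · nlinarith [hs.2]
  · exact ha

theorem Kp_one_mem {a : ℂ × ℂ} (ha : a ∈ Sph \ Kn) : Kp 1 a ∈ Ex := by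
  classical
  have ha1 : nrm a = 1 := ha.1
  unfold Kp
  split_ifs with hC
  · have hST := Cn_ST hC
    have hae : a = eV (eInv a) := by
      have := eV_eInv' hC.1 hC.2.1
      rwa [ha1, one_smul] at this
    have h0 : (eInv a).2 ≠ 0 := by
      rw [← notMem_Kn_eV hST, ← hae]
      exact ha.2
    have h2 := norm_pu (s := 1) ⟨zero_le_one, le_rfl⟩ h0
    rw [sub_self, zero_mul, zero_add] at h2
    unfold Fp
    have h5 : pu 1 (eInv a) ∈ ST := ⟨hST.1, h2.le⟩
    rw [ha1, one_smul, mem_Exr_eV h5]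
    exact h2
  · refine ⟨ha.1, ?_⟩
    rintro ⟨u, w, hu, hw, rfl⟩
    exact hC (Cn_eV (⟨hu, hw.le⟩ : ((u, w) : ℂ × ℂ) ∈ ST))

end C388

/-- `S³ ∖ K` deforms into `Ex` -/
theorem tref_deform {k V : Type*} [CommRing k] [AddCommGroup V] [Module k V]
    (hT : GFlat T (Sph \ Kn)) (ρ : G →* (V →ₗ[k] V)) {c : List (ℂ × ℂ) → V}
    (hc : c ∈ Zc (sys T ρ) (Sph \ Kn) ∅ 1) (hb : c ∈ Bc (sys T ρ) Ex ∅ 1) :
    c ∈ Bc (sys T ρ) (Sph \ Kn) ∅ 1 := by
  have hsub : Ex ⊆ Sph \ Kn := by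
    intro z hz
    refine ⟨hz.1, ?_⟩
    rintro ⟨u, hu, rfl⟩
    exact hz.2 ⟨u, 0, hu, by simp, rfl⟩
  exact H1_inj ρ hT hsub (K := C388.Kp) (fun s _ a ha => C388.Kp_cont ha)
    (fun s hs a ha => C388.Kp_mem hs ha) C388.Kp_zero (fun a ha => C388.Kp_one_mem ha) hc hb

end Pool.Agent.Helper60.Geo
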