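import Pool.Agent.Helper60.Geo.TrefCf
import Pool.Agent.Helper60.Geo.TrefC388
import Pool.Agent.Helper60.Geo.TrefC447
import Pool.Agent.Helper60.Geo.TrefB302
import Pool.Agent.Helper60.Geo.TrefB371

/-! The trefoil exterior: classification of flat functions by pairs `U² = W³`.
TrefB371: `exists_UW`, `UW.gauge`, `UW.unique`, `UW.map`, `tref_rel`; TrefB302: `tref_inj`, `tref_exists`,
`tref_int`; TrefC388: `preconnected_Kn_compl`, `tref_deform`, `orb_conj`. -/

set_option autoImplicit false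

namespace Pool.Agent.Helper60.Geo

open Set AS

variable {G : Type*} [Group G] {T T' : ℂ × ℂ → ℂ × ℂ → G}

theorem x0_mem : x0 ∈ Ex := TC.x0_aux

/-- second cohomology vanishes (constant coefficients) -/
theorem tref_H2 {k V : Type*} [CommRing k] [AddCommGroup V] [Module k V] {r : ℝ} (hr : 0 < r) (hr1 : r ≤ 1) :
    HV (cT : ℂ × ℂ → ℂ × ℂ → (V →ₗ[k] V)) (Exr r) ∅ 2 := TC.H2_aux hr hr1

/-- acyclicity by the circle action -/
theorem tref_acyclic {k V : Type*} [CommRing k] [AddCommGroup V] [Module k V] {r : ℝ} (hr : 0 < r)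
    (hr1 : r ≤ 1) (hT : GFlat T (Exr r)) (ρ : G →* (V →ₗ[k] V))
    (hΦ : ∀ x ∈ Exr r, ∀ g, HasTr T (orb x) g → IsUnit (1 - ρ g)) (q : ℕ) :
    HV (sys T ρ) (Exr r) ∅ q := TC.acyclic_aux hr hr1 hT ρ hΦ q

end Pool.Agent.Helper60.Geo
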