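import Pool.Agent.Helper60.Geo.Conc
import Pool.Agent.Helper60.AS.HI

/-! The trefoil exterior: base point, paths and the pair of holonomies (definitions of Tref.lean). -/

set_option autoImplicit false

namespace Pool.Agent.Helper60.Geo

open Set AS

variable {G : Type*} [Group G]

/-- base point, on the torus `|z₁| = |z₂|`, far from `K` -/
noncomputable def x0 : ℂ × ℂ := ((1 / Real.sqrt 2 : ℝ), (1 / Real.sqrt 2 : ℝ) * Complex.I)
/-- path from `x0` to `(1,0)` -/
noncomputable def pU (s : ℝ) : ℂ × ℂ :=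
  ((Real.cos (Real.pi / 4 * (1 - s)) : ℂ), (Real.sin (Real.pi / 4 * (1 - s)) : ℂ) * Complex.I)
/-- path from `x0` to `(0,i)` -/
noncomputable def pW (s : ℝ) : ℂ × ℂ :=
  ((Real.cos (Real.pi / 4 * (1 + s)) : ℂ), (Real.sin (Real.pi / 4 * (1 + s)) : ℂ) * Complex.I)
noncomputable def loopU (s : ℝ) : ℂ × ℂ := (ee s, 0)
noncomputable def loopW (s : ℝ) : ℂ × ℂ := (0, Complex.I * ee s)

/-- `(U, W)` is the pair of holonomies of `T` at the base point `x0` -/
def UW (T : ℂ × ℂ → ℂ × ℂ → G) (U W : G) : Prop :=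
  ∃ p gU q gW : G, HasTr T pU p ∧ HasTr T loopU gU ∧ HasTr T pW q ∧ HasTr T loopW gW ∧
    U = p * gU * p⁻¹ ∧ W = q * gW * q⁻¹

end Pool.Agent.Helper60.Geo
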