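import Pool.Agent.Helper60.Geo.Tube
import Pool.Agent.Helper60.Geo.Tref

/-! The upper end of a concordance tube whose core there is the trefoil `K`: comparison of an
arbitrary tube of `K` with the standard tube `e`. -/

set_option autoImplicit false

namespace Pool.Agent.Helper60.Geo

open Set AS

/-- the tube ends at `K` (at the level `nrm = e`) -/
def EndsK (D : Tube) : Prop :=
  {z | ∃ u : ℂ, ‖u‖ = 1 ∧ z = D.f (u, 1, 0)} = {z | ∃ k ∈ Kn, z = Real.exp 1 • k}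

/-- the tube starts at `J` -/
def StartsJ (D : Tube) : Prop := {z | ∃ u : ℂ, ‖u‖ = 1 ∧ z = D.f (u, 0, 0)} = Jn

variable {D : Tube} {G : Type*} [Group G] {T : ℂ × ℂ → ℂ × ℂ → G}

/-- the scaled copy of `T` on `S³ ∖ K` -/
noncomputable def TK (T : ℂ × ℂ → ℂ × ℂ → G) (x y : ℂ × ℂ) : G := T (Real.exp 1 • x) (Real.exp 1 • y)

/-! ### the standard product tube -/

theorem tt_mem_ST {u w : ℂ} (hu : ‖u‖ = 1) (hw : ‖w‖ ≤ 1) : (u, w) ∈ ST := ⟨hu, hw⟩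

theorem tt_nrm_eV {u w : ℂ} (hu : ‖u‖ = 1) (hw : ‖w‖ ≤ 1) : nrm (eV (u, w)) = 1 :=
  eV_sph (tt_mem_ST hu hw)

theorem tt_smul_inj {c : ℝ} (hc : 0 < c) {x y : ℂ × ℂ} (h : c • x = c • y) : x = y := by
  have := congrArg (fun z => c⁻¹ • z) h
  simpa [smul_smul, inv_mul_cancel₀ hc.ne'] using this

/-- the standard product tube over the trefoil -/
noncomputable def eTube : Tube where
  f p := Real.exp p.2.1 • eV (p.1, p.2.2)
  cont := by
    have h := continuous_eV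
    exact Continuous.continuousOn (by fun_prop)
  inj := by
    rintro ⟨u, t, w⟩ ⟨hu, hw⟩ ⟨u', t', w'⟩ ⟨hu', hw'⟩ h
    simp only at hu hw hu' hw' h
    have h3 := congrArg nrm h
    simp only [nrm_smul_of_pos (Real.exp_pos _), tt_nrm_eV hu hw, tt_nrm_eV hu' hw', mul_one,
      Real.exp_eq_exp] at h3
    subst h3
    have h4 := injOn_eV (tt_mem_ST hu hw) (tt_mem_ST hu' hw') (tt_smul_inj (Real.exp_pos _) h)
    simp only [Prod.mk.injEq] at h4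
    rw [h4.1, h4.2]
  low := by
    intro u t w hu hw ht
    simp
  high := by
    intro u t w hu hw ht
    simp only [smul_smul, ← Real.exp_add, sub_add_cancel]
  nrm0 := by
    intro u w hu hw
    simp [tt_nrm_eV hu hw]
  nrm1 := by
    intro u w hu hw
    simp [nrm_smul_of_pos (Real.exp_pos _), tt_nrm_eV hu hw]
  mid := by
    intro u t w hu hw h0 h1
    simp only [nrm_smul_of_pos (Real.exp_pos _), tt_nrm_eV hu hw, mul_one]
    exact ⟨Real.one_lt_exp_iff.2 h0, Real.exp_lt_exp.2 h1⟩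

theorem eTube_f (u w : ℂ) (t : ℝ) : eTube.f (u, t, w) = Real.exp t • eV (u, w) := rfl

theorem endsK_eTube : EndsK eTube := by
  ext z
  constructor
  · rintro ⟨u, hu, rfl⟩
    exact ⟨eV (u, 0), ⟨u, hu, rfl⟩, rfl⟩
  · rintro ⟨k, ⟨u, hu, rfl⟩, rfl⟩
    exact ⟨u, hu, rfl⟩

theorem tt_Kn_sph {k : ℂ × ℂ} (hk : k ∈ Kn) : nrm k = 1 := by
  obtain ⟨u, hu, rfl⟩ := hk
  exact tt_nrm_eV hu (by simp)

/-- levels `≥ 1` of a point of the tube -/
theorem tt_level (D : Tube) {u w : ℂ} {s t : ℝ} (hu : ‖u‖ = 1) (hw : ‖w‖ ≤ 1) (ht : 1 ≤ t)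
    (h : nrm (D.f (u, s, w)) = Real.exp t) : s = t :=
  le_antisymm ((D.nrm_f_le_iff hu hw (Or.inr ht)).1 h.le) ((D.le_nrm_f_iff hu hw (Or.inr ht)).1 h.ge)

theorem tt_core_iff (h : EndsK D) {t : ℝ} (ht : 1 ≤ t) {z : ℂ × ℂ} (hz : nrm z = Real.exp t) :
    z ∈ D.core ↔ ∃ k ∈ Kn, z = Real.exp t • k := by
  have e1 : Real.exp (t - 1) * Real.exp 1 = Real.exp t := by rw [← Real.exp_add, sub_add_cancel]
  constructor
  · rintro ⟨u, s, hu, rfl⟩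
    have hs := tt_level D hu (by simp) ht hz
    subst hs
    have h1 : D.f (u, 1, 0) ∈ {z | ∃ k ∈ Kn, z = Real.exp 1 • k} := by
      rw [← h]; exact ⟨u, hu, rfl⟩
    obtain ⟨k, hk, h2⟩ := h1
    refine ⟨k, hk, ?_⟩
    rw [D.high u s 0 hu (by simp) ht, h2, smul_smul, e1]
  · rintro ⟨k, hk, rfl⟩
    have h1 : Real.exp 1 • k ∈ {z | ∃ u : ℂ, ‖u‖ = 1 ∧ z = D.f (u, 1, 0)} := by
      rw [h]; exact ⟨k, hk, rfl⟩
    obtain ⟨u, hu, h2⟩ := h1
    refine ⟨u, t, hu, ?_⟩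
    rw [D.high u t 0 hu (by simp) ht, ← h2, smul_smul, e1]

theorem tt_core_core {D' : Tube} (h : EndsK D) (h' : EndsK D') {t : ℝ} (ht : 1 ≤ t) {z : ℂ × ℂ}
    (hz : nrm z = Real.exp t) : z ∈ D.core ↔ z ∈ D'.core := by
  rw [tt_core_iff h ht hz, tt_core_iff h' ht hz]

theorem tt_mem_O (h : EndsK D) {t : ℝ} (ht : 1 ≤ t) {x : ℂ × ℂ} (hx : x ∈ Sph \ Kn) :
    Real.exp t • x ∈ D.O := by
  have hn : nrm (Real.exp t • x) = Real.exp t := by
    rw [nrm_smul_of_pos (Real.exp_pos _), show nrm x = 1 from hx.1, mul_one]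
  refine ⟨nrm_pos.1 (by rw [hn]; exact Real.exp_pos t), fun hc => ?_⟩
  obtain ⟨k, hk, h1⟩ := (tt_core_iff h ht hn).1 hc
  rw [tt_smul_inj (Real.exp_pos t) h1] at hx
  exact hx.2 hk

theorem tt_mem_O_iff (h : EndsK D) {t : ℝ} (ht : 1 ≤ t) {z : ℂ × ℂ} (hz : nrm z = Real.exp t)
    (hO : z ∈ D.O) : Real.exp (-t) • z ∈ Sph \ Kn := by
  have e : z = Real.exp t • (Real.exp (-t) • z) := by
    rw [smul_smul, ← Real.exp_add, add_neg_cancel, Real.exp_zero, one_smul]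
  refine ⟨?_, fun hk => hO.2 ((tt_core_iff h ht hz).2 ⟨_, hk, e⟩)⟩
  show nrm _ = 1
  rw [nrm_smul_of_pos (Real.exp_pos _), hz, ← Real.exp_add, neg_add_cancel, Real.exp_zero]

theorem TK_flat (h : EndsK D) (hT : GFlat T D.O) : GFlat (TK T) (Sph \ Kn) := by
  refine hT.pull (F := fun x => Real.exp 1 • x) (fun a _ => by fun_prop) (fun a ha => ?_)
  exact tt_mem_O h le_rfl ha

theorem tt_cone {t : ℝ} {z : ℂ × ℂ} (h : EndsK D) (ht : 1 ≤ t) (hz : nrm z = Real.exp t)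
    (hO : z ∉ D.core) : z ∈ {z | nrm z ≠ 0 ∧ ∀ k ∈ Kn, z ≠ nrm z • k} := by
  refine ⟨by rw [hz]; exact (Real.exp_pos t).ne', fun k hk e => hO ?_⟩
  rw [hz] at e
  exact (tt_core_iff h ht hz).2 ⟨k, hk, e⟩

theorem tt_EK {z : ℂ × ℂ} (hz : z ∈ D.EK) : nrm z = Real.exp 2 ∧ z ∉ D.N (1/2) ∧ z ∈ D.O :=
  ⟨hz.2, hz.1.2, D.X_subset_O hz.1⟩

/-- the integer class restricted to the upper end: any flat `ℤ`-valued function on `EK` -/
theorem kend_int_surj (h : EndsK D) : GFlat cf D.EK :=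
  gflat_cf.mono fun _ hz => tt_cone h (by norm_num) (tt_EK hz).1 (tt_EK hz).2.2.2

theorem kend_preconnected (h : EndsK D) : IsPreconnected D.EK := by
  have e : D.EK = (fun x => D.rad (fun ρ => max (1/2) ρ) (Real.exp 2 • x)) '' (Sph \ Kn) := by
    ext z
    constructor
    · intro hz
      obtain ⟨h1, h2, h3⟩ := tt_EK hz
      refine ⟨Real.exp (-2) • z, tt_mem_O_iff h (by norm_num) h1 h3, ?_⟩
      show D.rad _ (Real.exp 2 • Real.exp (-2) • z) = z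
      rw [smul_smul, ← Real.exp_add, add_neg_cancel, Real.exp_zero, one_smul]
      refine D.rad_of_eq fun hT => ?_
      show max (1/2) _ = _
      refine max_eq_right ?_
      by_contra hlt
      exact h2 ((D.mem_N_iff (by norm_num)).2 ⟨hT, not_le.1 hlt⟩)
    · rintro ⟨x, hx, rfl⟩
      have hO := tt_mem_O h (t := 2) (by norm_num) hx
      have hn : nrm (Real.exp 2 • x) = Real.exp 2 := by
        rw [nrm_smul_of_pos (Real.exp_pos _), show nrm x = 1 from hx.1, mul_one]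
      have hn' : nrm (D.rad (fun ρ => max (1/2) ρ) (Real.exp 2 • x)) = Real.exp 2 :=
        le_antisymm ((D.nrm_rad_le_iff Tube.radOK_half (Or.inr (by norm_num))).2 hn.le)
          ((D.le_nrm_rad_iff Tube.radOK_half (Or.inr (by norm_num))).2 hn.ge)
      refine ⟨(D.mem_X_iff).2 ?_, hn'⟩
      refine ⟨?_, ?_, ?_⟩
      · show _ ≤ nrm (D.rad (fun ρ => max (1/2) ρ) (Real.exp 2 • x))
        rw [hn']; exact Real.exp_le_exp.2 (by norm_num)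
      · show nrm (D.rad (fun ρ => max (1/2) ρ) (Real.exp 2 • x)) ≤ _
        rw [hn']
      · exact D.rad_notMem_N Tube.radOK_half (by norm_num) hO.2 fun _ => le_max_left _ _
  rw [e]
  refine preconnected_Kn_compl.image _ ?_
  refine D.continuousOn_rad_half.comp (f := fun x : ℂ × ℂ => Real.exp 2 • x)
    (Continuous.continuousOn (by fun_prop)) (fun x hx => tt_mem_O h (by norm_num) hx)

/-! ### thin tubes -/

theorem tt_thin {f : ℂ × ℂ → ℂ × ℂ} (hf : ContinuousOn f ST) {V : Set (ℂ × ℂ)} (hV : IsOpen V)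
    (h : ∀ u : ℂ, ‖u‖ = 1 → f (u, 0) ∈ V) {ρ : ℝ} (hρ : 0 < ρ) (hρ1 : ρ ≤ 1) :
    ∃ r, 0 < r ∧ r ≤ ρ ∧ ∀ u w : ℂ, ‖u‖ = 1 → ‖w‖ ≤ r → f (u, w) ∈ V := by
  have hST : IsCompact ST := by
    refine ((isCompact_closedBall (0:ℂ) 1).prod (isCompact_closedBall (0:ℂ) 1)).of_isClosed_subset ?_ ?_
    · exact (isClosed_eq (f := fun p : ℂ × ℂ => ‖p.1‖) (by fun_prop) continuous_const).inter
        (isClosed_le (f := fun p : ℂ × ℂ => ‖p.2‖) (by fun_prop) continuous_const)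
    · rintro ⟨u, w⟩ ⟨hu, hw⟩
      simp only [mem_prod, mem_closedBall_zero_iff] at *
      exact ⟨hu.le, hw⟩
  have hC : IsCompact (ST ∩ f ⁻¹' Vᶜ) :=
    hST.of_isClosed_subset (hf.preimage_isClosed_of_isClosed hST.isClosed hV.isClosed_compl)
      inter_subset_left
  rcases (ST ∩ f ⁻¹' Vᶜ).eq_empty_or_nonempty with he | hne
  · refine ⟨ρ, hρ, le_rfl, fun u w hu hw => ?_⟩
    by_contra hV'
    have : (u, w) ∈ ST ∩ f ⁻¹' Vᶜ := ⟨tt_mem_ST hu (hw.trans hρ1), hV'⟩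
    rw [he] at this
    exact this
  · obtain ⟨p, hp, hmin⟩ := hC.exists_isMinOn hne (f := fun p : ℂ × ℂ => ‖p.2‖)
      (Continuous.continuousOn (by fun_prop))
    have hpos : 0 < ‖p.2‖ := by
      rw [norm_pos_iff]
      intro h0
      have h1 : p = (p.1, 0) := by rw [← h0]
      apply hp.2
      rw [h1]
      exact h _ hp.1.1
    refine ⟨min ρ (‖p.2‖ / 2), lt_min hρ (by positivity), min_le_left _ _, fun u w hu hw => ?_⟩
    by_contra hV'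
    have h2 : ‖p.2‖ ≤ ‖w‖ :=
      hmin (show (u, w) ∈ ST ∩ f ⁻¹' Vᶜ from
        ⟨tt_mem_ST hu ((hw.trans (min_le_left _ _)).trans hρ1), hV'⟩)
    have h3 := hw.trans (min_le_right _ _)
    linarith

theorem tt_thin_tube {D' : Tube} (h : EndsK D) (h' : EndsK D') {t : ℝ} (ht : 1 ≤ t) {r' : ℝ}
    (hr' : 0 < r') (hr1' : r' ≤ 1) {ρ : ℝ} (hρ : 0 < ρ) (hρ1 : ρ ≤ 1) :
    ∃ r, 0 < r ∧ r ≤ ρ ∧ ∀ u w : ℂ, ‖u‖ = 1 → ‖w‖ ≤ r → D.f (u, t, w) ∈ D'.N r' := by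
  refine tt_thin (f := fun p => D.f (p.1, t, p.2)) ?_ (D'.isOpen_N hr' hr1') ?_ hρ hρ1
  · refine D.cont.comp (f := fun p : ℂ × ℂ => (p.1, t, p.2)) (Continuous.continuousOn (by fun_prop)) ?_
    intro p hp
    exact ⟨hp.1, hp.2⟩
  · intro u hu
    apply D'.core_subset_N hr'
    have hn := D.nrm_f_of_one_le (u := u) (w := 0) hu (by simp) ht
    exact (tt_core_core h h' ht hn).1 ⟨u, t, hu, rfl⟩

theorem tt_slab_sub {D' : Tube} {t r r' : ℝ} (ht : 1 ≤ t) (hr1 : r ≤ 1)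
    (h : ∀ u w : ℂ, ‖u‖ = 1 → ‖w‖ ≤ r → D.f (u, t, w) ∈ D'.N r') : D'.Slab t r' ⊆ D.Slab t r := by
  rintro z ⟨hz, hN⟩
  refine ⟨hz, ?_⟩
  rintro ⟨u, s, w, hu, hw, rfl⟩
  have hs := tt_level D hu (hw.le.trans hr1) ht hz
  subst hs
  exact hN (h u w hu hw.le)

/-- vanishing for the standard tube implies vanishing for `EK` -/
theorem kend_vanish {k V : Type*} [CommRing k] [AddCommGroup V] [Module k V] (h : EndsK D)
    {T : ℂ × ℂ → ℂ × ℂ → (V →ₗ[k] V)} (hT : Flat T D.O) (q : ℕ)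
    (hv : ∀ ρ, 0 < ρ → ρ ≤ 1 → HV T (eTube.Slab 2 ρ) ∅ q) : HV T D.EK ∅ q := by
  obtain ⟨ρ, hρ, hρ1, h1⟩ := tt_thin_tube endsK_eTube h (t := 2) (by norm_num)
    (r' := 1/2) (by norm_num) (by norm_num) one_pos le_rfl
  obtain ⟨r, hr, hr1, h2⟩ := tt_thin_tube h endsK_eTube (t := 2) (by norm_num)
    (r' := ρ) hρ hρ1 (ρ := 1/2) (by norm_num) (by norm_num)
  have s1 : D.Slab 2 (1/2) ⊆ eTube.Slab 2 ρ := tt_slab_sub (by norm_num) hρ1 h1
  have s2 : eTube.Slab 2 ρ ⊆ D.Slab 2 r := tt_slab_sub (by norm_num) (by linarith) h2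
  rw [← D.Slab_EK]
  intro c hc
  obtain ⟨x, hx⟩ := (D.Slab_restrict hT (t := 2) (Or.inr (by norm_num)) hr hr1 (by norm_num)
    (s1.trans s2) q).2 (H.mk T _ _ q ⟨c, hc⟩)
  obtain ⟨⟨c', hc'⟩, rfl⟩ := H.mk_surjective q x
  rw [hi_Hres_mk, H.mk_eq_mk] at hx
  have h3 : c' ∈ Bc T (D.Slab 2 (1/2)) ∅ q :=
    Bc_mono s1 le_rfl q (hv ρ hρ hρ1 (Zc_mono s2 le_rfl q hc'))
  have h4 : c = c' - (c' - c) := by abel
  rw [h4]
  exact sub_mem h3 hx

/-- the dilation by `exp t` -/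
noncomputable def tt_dil (t : ℝ) : (ℂ × ℂ) ≃ₜ (ℂ × ℂ) :=
  Homeomorph.smulOfNeZero (Real.exp t) (Real.exp_pos t).ne'

theorem tt_dil_apply (t : ℝ) (x : ℂ × ℂ) : tt_dil t x = Real.exp t • x := rfl

theorem tt_dil_Slab {t ρ : ℝ} (ht : 1 ≤ t) (hρ1 : ρ ≤ 1) : tt_dil t ⁻¹' (eTube.Slab t ρ) = Exr ρ := by
  have hnr : ∀ x : ℂ × ℂ, nrm (Real.exp t • x) = Real.exp t ↔ nrm x = 1 := by
    intro x
    rw [nrm_smul_of_pos (Real.exp_pos _)]
    constructor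
    · intro h
      exact mul_left_cancel₀ (Real.exp_pos t).ne' (by rw [h, mul_one])
    · intro h
      rw [h, mul_one]
  ext x
  constructor
  · rintro ⟨h1, h2⟩
    refine ⟨(hnr x).1 h1, ?_⟩
    rintro ⟨u, w, hu, hw, rfl⟩
    exact h2 ⟨u, t, w, hu, hw, rfl⟩
  · rintro ⟨h1, h2⟩
    have h3 := (hnr x).2 h1
    refine ⟨h3, ?_⟩
    rintro ⟨u, s, w, hu, hw, h4⟩
    apply h2
    have h5 : nrm (eTube.f (u, s, w)) = Real.exp t := by rw [← h4]; exact h3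
    have hs := tt_level eTube hu (hw.le.trans hρ1) ht h5
    subst hs
    exact ⟨u, w, hu, hw, tt_smul_inj (Real.exp_pos s) h4⟩

theorem tt_Exr_sub {ρ : ℝ} (hρ : 0 < ρ) : Exr ρ ⊆ Sph \ Kn := by
  rintro x ⟨h1, h2⟩
  refine ⟨h1, ?_⟩
  rintro ⟨u, hu, rfl⟩
  exact h2 ⟨u, 0, hu, by simpa using hρ, rfl⟩

/-- `H²(EK; const) = 0` -/
theorem kend_H2 {k V : Type*} [CommRing k] [AddCommGroup V] [Module k V] (h : EndsK D) :
    HV (cT : ℂ × ℂ → ℂ × ℂ → (V →ₗ[k] V)) D.EK ∅ 2 := by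
  refine kend_vanish h (flat_cT _) 2 fun ρ hρ hρ1 => ?_
  rw [homeo_HV (tt_dil 2), tt_dil_Slab (by norm_num) hρ1]
  exact tref_H2 hρ hρ1

/-! ### the circle action -/

theorem tt_ee_norm (s : ℝ) : ‖ee s‖ = 1 := by
  unfold ee
  rw [show (2 * Real.pi * s * Complex.I : ℂ) = ((2 * Real.pi * s : ℝ) : ℂ) * Complex.I by push_cast; ring]
  exact Complex.norm_exp_ofReal_mul_I _

theorem tt_act_act (u v : ℂ) (z : ℂ × ℂ) : act u (act v z) = act (u * v) z := by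
  unfold act
  ext <;> simp <;> ring

theorem tt_act_one (z : ℂ × ℂ) : act 1 z = z := by
  unfold act; simp

theorem tt_act_nrm {u : ℂ} (hu : ‖u‖ = 1) (z : ℂ × ℂ) : nrm (act u z) = nrm z := by
  unfold nrm act
  simp [hu]

theorem tt_act_Kn {u : ℂ} (hu : ‖u‖ = 1) {z : ℂ × ℂ} (hz : z ∈ Kn) : act u z ∈ Kn := by
  obtain ⟨v, hv, rfl⟩ := hz
  refine ⟨u * v, by rw [norm_mul, hu, hv, one_mul], ?_⟩
  unfold eV
  simp only [mul_zero]
  rw [tt_act_act]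

theorem tt_orb_mem {x : ℂ × ℂ} (hx : x ∈ Sph \ Kn) (s : ℝ) : orb x s ∈ Sph \ Kn := by
  refine ⟨(tt_act_nrm (tt_ee_norm s) x).trans hx.1, fun hk => hx.2 ?_⟩
  have hn : ‖(ee s)⁻¹‖ = 1 := by rw [norm_inv, tt_ee_norm, inv_one]
  have h1 := tt_act_Kn hn hk
  unfold orb at h1
  rw [tt_act_act, inv_mul_cancel₀ (by rw [← norm_pos_iff, tt_ee_norm]; exact one_pos), tt_act_one] at h1
  exact h1

theorem tt_ee_cont : Continuous ee := by
  unfold ee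
  fun_prop

theorem tt_orb_cont (x : ℂ × ℂ) : Continuous (orb x) := by
  have := tt_ee_cont
  unfold orb act
  fun_prop

theorem tt_unit_conj {k V : Type*} [CommRing k] [AddCommGroup V] [Module k V] (ρ : G →* (V →ₗ[k] V))
    {g a : G} (h : IsUnit (1 - ρ g)) : IsUnit (1 - ρ (a⁻¹ * g * a)) := by
  have h1 : (ρ a⁻¹) * (1 - ρ g) * ρ a = 1 - ρ (a⁻¹ * g * a) := by
    rw [mul_sub, sub_mul, mul_one, ← map_mul, inv_mul_cancel, map_one, map_mul, map_mul]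
  rw [← h1]
  have ha : IsUnit (ρ a) := (Group.isUnit a).map ρ
  have ha' : IsUnit (ρ a⁻¹) := (Group.isUnit a⁻¹).map ρ
  exact (ha'.mul h).mul ha

/-- acyclicity of `EK` -/
theorem kend_acyclic {k V : Type*} [CommRing k] [AddCommGroup V] [Module k V] (h : EndsK D)
    (hT : GFlat T D.O) (ρ : G →* (V →ₗ[k] V))
    (hΦ : ∀ x ∈ Sph \ Kn, ∀ g, HasTr (TK T) (orb x) g → IsUnit (1 - ρ g)) (q : ℕ) :
    HV (sys T ρ) D.EK ∅ q := by
  refine kend_vanish h (hT.sys ρ) q fun r hr hr1 => ?_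
  rw [homeo_HV (tt_dil 2), tt_dil_Slab (by norm_num) hr1]
  have hT2 : GFlat (fun x y => T (tt_dil 2 x) (tt_dil 2 y)) (Exr r) :=
    hT.pull (F := tt_dil 2) (fun a _ => (tt_dil 2).continuous.continuousAt)
      (fun a ha => tt_mem_O h (by norm_num) (tt_Exr_sub hr ha))
  refine tref_acyclic (T := fun x y => T (tt_dil 2 x) (tt_dil 2 y)) hr hr1 hT2 ρ ?_ q
  intro x hx g hg
  have hx' := tt_Exr_sub hr hx
  obtain ⟨g', hg'⟩ := exists_hasTr (TK_flat h hT) (tt_orb_cont x).continuousOn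
    (fun s _ => tt_orb_mem hx' s)
  have hc := tt_orb_cont x
  obtain ⟨a, -, ha⟩ := HasTr.free_homotopic (T := T) (K := fun s t => Real.exp (1 + s) • orb x t)
    (g₀ := g') (g₁ := g) hT (Continuous.continuousOn (by fun_prop))
    (fun s hs t ht => tt_mem_O h (by linarith [hs.1]) (tt_orb_mem hx' t))
    (fun s hs => by
      show _ • orb x 0 = _ • orb x 1
      congr 1
      simp [orb, ee, Complex.exp_two_pi_mul_I])
    (by
      rw [add_zero]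
      exact hg') (by
      have e : (1:ℝ) + 1 = 2 := by norm_num
      rw [e]
      exact hg)
  rw [ha]
  exact tt_unit_conj ρ (hΦ x hx' g' hg')

/-! ### transports in the punctured solid torus -/

theorem tt_ee_ang {z : ℂ} (hz : z ≠ 0) : ee (Complex.arg z / (2 * Real.pi)) = z / ‖z‖ := by
  unfold ee
  have h1 : (2 * Real.pi * ((Complex.arg z / (2 * Real.pi) : ℝ) : ℂ) * Complex.I) =
      (Complex.arg z : ℂ) * Complex.I := by
    push_cast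
    have : (Real.pi : ℂ) ≠ 0 := by exact_mod_cast Real.pi_ne_zero
    field_simp
  rw [h1]
  have h2 := Complex.norm_mul_exp_arg_mul_I z
  have h3 : ((‖z‖ : ℝ) : ℂ) ≠ 0 := by exact_mod_cast (norm_ne_zero_iff.2 hz)
  rw [eq_div_iff h3, mul_comm]
  exact h2

theorem tt_ee_ang_cont {f : ℂ × ℂ → ℂ} {p : ℂ × ℂ} (hf : ContinuousAt f p) (h0 : f p ≠ 0) :
    ContinuousAt (fun q => ee (ang f q)) p := by
  have h1 : (fun q => ee (ang f q)) =ᶠ[nhds p] fun q => f q / ‖f q‖ := by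
    filter_upwards [hf.eventually_ne h0] with q hq
    exact tt_ee_ang hq
  refine ContinuousAt.congr ?_ h1.symm
  refine hf.div (Complex.continuous_ofReal.continuousAt.comp hf.norm) ?_
  exact_mod_cast norm_ne_zero_iff.2 h0

theorem tt_ee_zero : ee 0 = 1 := by simp [ee]
theorem tt_ee_one : ee 1 = 1 := by simp [ee, Complex.exp_two_pi_mul_I]
theorem tt_ee_add_one (s : ℝ) : ee (s + 1) = ee s := by
  have : (2 * Real.pi * ((s + 1 : ℝ) : ℂ) * Complex.I) = 2 * Real.pi * s * Complex.I + 2 * Real.pi * Complex.I := by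
    push_cast; ring
  unfold ee
  rw [this, Complex.exp_add, Complex.exp_two_pi_mul_I, mul_one]

theorem tt_prod_tr {a b : ℂ × ℂ → ℝ} {γ : ℝ → ℂ × ℂ} {x y : G} (hxy : x * y = y * x) {m n : ℤ}
    (hm : HasTr (mint a) γ (Multiplicative.ofAdd m)) (hn : HasTr (mint b) γ (Multiplicative.ofAdd n)) :
    HasTr (fun p q => x ^ cint a p q * y ^ cint b p q) γ (x ^ m * y ^ n) := by
  obtain ⟨F, f0, f1, hF⟩ := hm
  obtain ⟨E, e0, e1, hE⟩ := hn
  refine ⟨fun s => x ^ (Multiplicative.toAdd (F s)) * y ^ (Multiplicative.toAdd (E s)), by simp [f0, e0],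
    by simp [f1, e1], fun s hs => ?_⟩
  obtain ⟨ε, hε, h1⟩ := hF s hs
  obtain ⟨ε', hε', h2⟩ := hE s hs
  refine ⟨min ε ε', lt_min hε hε', fun t ht t' ht' h3 h4 => ?_⟩
  have h5 : cint a (γ t) (γ t') = - Multiplicative.toAdd (F t) + Multiplicative.toAdd (F t') := by
    have := h1 t ht t' ht' (h3.trans_le (min_le_left _ _)) (h4.trans_le (min_le_left _ _))
    unfold mint at this
    rw [← toAdd_ofAdd (cint a (γ t) (γ t')), this, toAdd_mul, toAdd_inv]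
  have h6 : cint b (γ t) (γ t') = - Multiplicative.toAdd (E t) + Multiplicative.toAdd (E t') := by
    have := h2 t ht t' ht' (h3.trans_le (min_le_right _ _)) (h4.trans_le (min_le_right _ _))
    unfold mint at this
    rw [← toAdd_ofAdd (cint b (γ t) (γ t')), this, toAdd_mul, toAdd_inv]
  have hc : Commute x y := hxy
  show x ^ cint a (γ t) (γ t') * y ^ cint b (γ t) (γ t') =
    (x ^ (Multiplicative.toAdd (F t)) * y ^ (Multiplicative.toAdd (E t)))⁻¹ *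
      (x ^ (Multiplicative.toAdd (F t')) * y ^ (Multiplicative.toAdd (E t')))
  rw [h5, h6, zpow_add, zpow_add, mul_inv_rev, zpow_neg, zpow_neg]
  have c1 := (hc.zpow_zpow (Multiplicative.toAdd (F t')) (Multiplicative.toAdd (E t))).inv_right.eq
  have c2 := (hc.zpow_zpow (Multiplicative.toAdd (F t)) (Multiplicative.toAdd (E t))).inv_inv.eq
  have c3 := (hc.zpow_zpow (Multiplicative.toAdd (F t')) (Multiplicative.toAdd (E t'))).eq
  generalize x ^ (Multiplicative.toAdd (F t)) = X at *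
  generalize x ^ (Multiplicative.toAdd (F t')) = X' at *
  generalize y ^ (Multiplicative.toAdd (E t)) = Y at *
  generalize y ^ (Multiplicative.toAdd (E t')) = Y' at *
  calc X⁻¹ * X' * (Y⁻¹ * Y') = X⁻¹ * (X' * Y⁻¹) * Y' := by group
    _ = X⁻¹ * Y⁻¹ * X' * Y' := by rw [c1]; group
    _ = Y⁻¹ * X⁻¹ * (X' * Y') := by rw [c2]; group

/-- punctured solid torus of radius `ρ` -/
def tt_PT (ρ : ℝ) : Set (ℂ × ℂ) := {p | ‖p.1‖ = 1 ∧ p.2 ≠ 0 ∧ ‖p.2‖ ≤ ρ}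

theorem tt_elem {f : ℂ × ℂ → ℂ × ℂ} (hf : Continuous f) {ρ : ℝ} (hρ : 0 < ρ) {S : Set (ℂ × ℂ)}
    (hT : GFlat T S) (hS : ∀ p ∈ tt_PT ρ, f p ∈ S) {x y : G}
    (hx : HasTr T (fun s => f (1, ρ * ee s)) x) (hy : HasTr T (fun s => f (ee s, ρ)) y)
    {γ : ℝ → ℂ × ℂ} (hγ : ContinuousOn γ (Icc 0 1)) (hγm : ∀ s ∈ Icc (0:ℝ) 1, γ s ∈ tt_PT ρ)
    (hγl : γ 0 = γ 1) {m n : ℤ} (hm : HasTr (mint (ang Prod.snd)) γ (Multiplicative.ofAdd m))
    (hn : HasTr (mint (ang Prod.fst)) γ (Multiplicative.ofAdd n)) {g : G}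
    (hg : HasTr T (fun s => f (γ s)) g) : ∃ a, g = a⁻¹ * (x ^ m * y ^ n) * a := by
  have hT' : GFlat (fun p q => T (f p) (f q)) (tt_PT ρ) := hT.pull (fun a _ => hf.continuousAt) hS
  have hρ' : ‖(ρ : ℂ)‖ = ρ := by rw [Complex.norm_real, Real.norm_eq_abs, abs_of_pos hρ]
  have hpt : ∀ p ∈ tt_PT ρ, p.1 ≠ 0 := fun p hp => by
    rw [← norm_pos_iff, hp.1]; exact one_pos
  have hee := tt_ee_cont
  obtain ⟨hxy, u, hu⟩ := torus_classify (T := fun p q => T (f p) (f q)) (S := tt_PT ρ) (R := tt_PT ρ) hT'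
    (K := fun s p => ((1 - s) • p.1 + s • ee (ang Prod.fst p), (1 - s) • p.2 + s • ((ρ : ℂ) * ee (ang Prod.snd p))))
    (τ := fun q => (ee q.2, (ρ : ℂ) * ee q.1)) (a := ang Prod.snd) (b := ang Prod.fst) (g := x) (h := y)
    (fun s _ p hp => by
      have c1 : ContinuousAt (fun q : ℝ × (ℂ × ℂ) => ee (ang Prod.fst q.2)) (s, p) :=
        ContinuousAt.comp (g := fun q => ee (ang Prod.fst q)) (f := fun q : ℝ × (ℂ × ℂ) => q.2)
          (tt_ee_ang_cont (p := p) continuousAt_fst (hpt p hp)) continuousAt_snd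
      have c2 : ContinuousAt (fun q : ℝ × (ℂ × ℂ) => ee (ang Prod.snd q.2)) (s, p) :=
        ContinuousAt.comp (g := fun q => ee (ang Prod.snd q)) (f := fun q : ℝ × (ℂ × ℂ) => q.2)
          (tt_ee_ang_cont (p := p) continuousAt_snd hp.2.1) continuousAt_snd
      fun_prop)
    (fun s hs p hp => by
      have h1 : ee (ang Prod.fst p) = p.1 := by
        have := tt_ee_ang (hpt p hp)
        rw [hp.1, Complex.ofReal_one, div_one] at this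
        exact this
      have h2 : ee (ang Prod.snd p) = p.2 / ‖p.2‖ := tt_ee_ang hp.2.1
      have hn := norm_pos_iff.2 hp.2.1
      have hn' : ((‖p.2‖ : ℝ) : ℂ) ≠ 0 := by exact_mod_cast hn.ne'
      have h3 : (1 - s) • p.2 + s • ((ρ : ℂ) * ee (ang Prod.snd p)) =
          (((1 - s) + s * (ρ / ‖p.2‖) : ℝ) : ℂ) * p.2 := by
        rw [h2, Complex.real_smul, Complex.real_smul]
        push_cast
        ring
      have h4 : 0 < (1 - s) + s * (ρ / ‖p.2‖) := by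
        have h5 : 0 < ρ / ‖p.2‖ := by positivity
        rcases hs.1.eq_or_lt with h6 | h6
        · rw [← h6]; norm_num
        · have := mul_pos h6 h5
          linarith [hs.2]
      refine ⟨?_, ?_, ?_⟩
      · show ‖(1 - s) • p.1 + s • ee (ang Prod.fst p)‖ = 1
        rw [h1, ← add_smul, sub_add_cancel, one_smul]
        exact hp.1
      · show (1 - s) • p.2 + s • ((ρ : ℂ) * ee (ang Prod.snd p)) ≠ 0
        rw [h3]
        exact mul_ne_zero (by exact_mod_cast h4.ne') hp.2.1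
      · show ‖(1 - s) • p.2 + s • ((ρ : ℂ) * ee (ang Prod.snd p))‖ ≤ ρ
        rw [h3, norm_mul, Complex.norm_real, Real.norm_eq_abs, abs_of_pos h4, add_mul, mul_assoc,
          div_mul_cancel₀ _ hn.ne']
        nlinarith [hs.1, hs.2, hp.2.2])
    (fun p => by simp)
    (by fun_prop)
    (fun q => ⟨tt_ee_norm _, by
        rw [← norm_pos_iff, norm_mul, tt_ee_norm, hρ', mul_one]; exact hρ, by
        rw [norm_mul, tt_ee_norm, hρ', mul_one]⟩)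
    (fun s t => by simp only [tt_ee_add_one])
    (fun s t => by simp only [tt_ee_add_one])
    (angCont_ang (fun p _ => continuousAt_snd) fun p hp => hp.2.1)
    (angCont_ang (fun p _ => continuousAt_fst) fun p hp => hpt p hp)
    (fun p => by simp)
    (by simp only [tt_ee_zero]; exact hx)
    (by simp only [tt_ee_zero, mul_one]; exact hy)
  have h1 := HasTr.gauge hu hγ hγm (g := g) hg
  have h2 := (tt_prod_tr hxy hm hn).unique h1
  refine ⟨(u (γ 0))⁻¹, ?_⟩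
  rw [h2, ← hγl]
  group

/-! ### coordinates -/

theorem tt_N_sub (D : Tube) {r : ℝ} (hr1 : r ≤ 1) : D.N r ⊆ D.Tb := fun _ hz => ((D.mem_N_iff hr1).1 hz).1

theorem tt_co_cont (D : Tube) {z : ℂ × ℂ} (hz : z ∈ D.N 1) : ContinuousAt D.co z :=
  D.continuousOn_co.continuousAt
    (Filter.mem_of_superset ((D.isOpen_N one_pos le_rfl).mem_nhds hz) (tt_N_sub D le_rfl))

/-- the coordinates `(u, w)` of a point of the tube -/
noncomputable def tt_co2 (D : Tube) (z : ℂ × ℂ) : ℂ × ℂ := ((D.co z).1, (D.co z).2.2)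

theorem tt_co2_cont (D : Tube) {z : ℂ × ℂ} (hz : z ∈ D.N 1) : ContinuousAt (tt_co2 D) z := by
  have h := tt_co_cont D hz
  unfold tt_co2
  exact h.fst.prodMk h.snd.snd

theorem tt_co2_fst (D : Tube) {z : ℂ × ℂ} (hz : z ∈ D.N 1) : ‖(tt_co2 D z).1‖ = 1 :=
  (Tube.co_mem (tt_N_sub D le_rfl hz)).1

theorem tt_co2_f (D : Tube) {u w : ℂ} {t : ℝ} (hu : ‖u‖ = 1) (hw : ‖w‖ ≤ 1) :
    tt_co2 D (D.f (u, t, w)) = (u, w) := by
  unfold tt_co2
  rw [D.co_f (p := (u, t, w)) ⟨hu, hw⟩]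

theorem tt_flat_fst (D : Tube) : GFlat (mint (ang fun z => (tt_co2 D z).1)) (D.N 1) := by
  refine gflat_mint (angCont_ang (fun z hz => (tt_co2_cont D hz).fst) fun z hz => ?_)
  rw [← norm_pos_iff, tt_co2_fst D hz]
  exact one_pos

theorem tt_flat_snd (D : Tube) : GFlat (mint (ang fun z => (tt_co2 D z).2)) (D.N 1 \ D.core) := by
  refine gflat_mint (angCont_ang (fun z hz => (tt_co2_cont D hz.1).snd) fun z hz h0 => ?_)
  exact hz.2 ((D.mem_core_iff).2 ⟨tt_N_sub D le_rfl hz.1, h0⟩)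

theorem tt_radius {S : Set (ℂ × ℂ)} (hT : GFlat T S) (D : Tube) {t r r' : ℝ} {v w : ℝ → ℂ}
    (hv : Continuous v) (hw : Continuous w) (hv1 : ∀ θ, ‖v θ‖ = 1) (hw1 : ∀ θ, ‖w θ‖ = 1)
    (hv0 : v 0 = v 1) (hw0 : w 0 = w 1) (hr : 0 ≤ r) (hr1 : r ≤ 1) (hr' : 0 ≤ r') (hr1' : r' ≤ 1)
    (hS : ∀ (θ ρ : ℝ), min r r' ≤ ρ → ρ ≤ max r r' → D.f (v θ, t, (ρ:ℂ) * w θ) ∈ S) {g g' : G}
    (hg : HasTr T (fun θ => D.f (v θ, t, (r:ℂ) * w θ)) g)
    (hg' : HasTr T (fun θ => D.f (v θ, t, (r':ℂ) * w θ)) g') : ∃ a, g' = a⁻¹ * g * a := by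
  have hb : ∀ s ∈ Icc (0:ℝ) 1, min r r' ≤ (1 - s) * r + s * r' ∧ (1 - s) * r + s * r' ≤ max r r' := by
    intro s hs
    have h1 := min_le_left r r'
    have h2 := min_le_right r r'
    have h3 := le_max_left r r'
    have h4 := le_max_right r r'
    constructor <;> nlinarith [hs.1, hs.2]
  obtain ⟨a, -, ha⟩ := HasTr.free_homotopic
    (K := fun s θ => D.f (v θ, t, (((1 - s) * r + s * r' : ℝ) : ℂ) * w θ)) (g₀ := g) (g₁ := g') hT
    (by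
      refine D.cont.comp (f := fun p : ℝ × ℝ => (v p.2, t, (((1 - p.1) * r + p.1 * r' : ℝ) : ℂ) * w p.2))
        (Continuous.continuousOn (by fun_prop)) ?_
      rintro ⟨s, θ⟩ ⟨hs, -⟩
      refine ⟨hv1 θ, ?_⟩
      show ‖(((1 - s) * r + s * r' : ℝ) : ℂ) * w θ‖ ≤ 1
      rw [norm_mul, hw1, mul_one, Complex.norm_real, Real.norm_eq_abs, abs_of_nonneg]
      · exact (hb s hs).2.trans (max_le hr1 hr1')
      · exact (le_min hr hr').trans (hb s hs).1)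
    (fun s hs θ _ => hS θ _ (hb s hs).1 (hb s hs).2)
    (fun s _ => by simp only [hv0, hw0])
    (by simpa using hg) (by simpa using hg')
  exact ⟨a, ha⟩

theorem tt_ang_lift (s : ℝ) : ∃ m : ℤ, s = Complex.arg (ee s) / (2 * Real.pi) + m := by
  have h0 : ee s ≠ 0 := by rw [← norm_pos_iff, tt_ee_norm]; exact one_pos
  have h1 := tt_ee_ang h0
  rw [tt_ee_norm, Complex.ofReal_one, div_one] at h1
  have h2 : Complex.exp (2 * Real.pi * s * Complex.I) =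
      Complex.exp (2 * Real.pi * ((Complex.arg (ee s) / (2 * Real.pi) : ℝ) : ℂ) * Complex.I) := h1.symm
  obtain ⟨n, hn⟩ := Complex.exp_eq_exp_iff_exists_int.1 h2
  refine ⟨n, ?_⟩
  have h3 : (2 * Real.pi * Complex.I : ℂ) ≠ 0 := Complex.two_pi_I_ne_zero
  have h4 : (2 * Real.pi * Complex.I : ℂ) * (s : ℂ) =
      (2 * Real.pi * Complex.I : ℂ) * ((Complex.arg (ee s) / (2 * Real.pi) + n : ℝ) : ℂ) := by
    push_cast at hn ⊢
    rw [mul_add]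
    linear_combination hn
  exact_mod_cast mul_left_cancel₀ h3 h4

theorem tt_tr_fst {w : ℝ → ℂ} (hw : Continuous w) :
    HasTr (mint (ang Prod.fst)) (fun s => (ee s, w s)) (Multiplicative.ofAdd 1) := by
  have hee := tt_ee_cont
  refine hasTr_mint (S := {p : ℂ × ℂ | p.1 ≠ 0}) (angCont_ang (fun p _ => continuousAt_fst) fun p hp => hp)
    (Continuous.continuousOn (by fun_prop)) (fun s _ => ?_) (A := fun s => s) continuousOn_id
    (fun s _ => ?_) 1 (by norm_num) ?_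
  · show ee s ≠ 0
    rw [← norm_pos_iff, tt_ee_norm]; exact one_pos
  · exact tt_ang_lift s
  · show Complex.arg (ee 1) / _ = Complex.arg (ee 0) / _
    rw [tt_ee_one, tt_ee_zero]

theorem tt_tr_snd {r : ℝ} (hr : 0 < r) :
    HasTr (mint (ang Prod.snd)) (fun s => ((1:ℂ), (r:ℂ) * ee s)) (Multiplicative.ofAdd 1) := by
  have hee := tt_ee_cont
  refine hasTr_mint (S := {p : ℂ × ℂ | p.2 ≠ 0}) (angCont_ang (fun p _ => continuousAt_snd) fun p hp => hp)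
    (Continuous.continuousOn (by fun_prop)) (fun s _ => ?_) (A := fun s => s) continuousOn_id
    (fun s _ => ?_) 1 (by norm_num) ?_
  · show (r:ℂ) * ee s ≠ 0
    rw [← norm_pos_iff, norm_mul, tt_ee_norm, mul_one, Complex.norm_real, Real.norm_eq_abs, abs_of_pos hr]
    exact hr
  · obtain ⟨m, hm⟩ := tt_ang_lift s
    refine ⟨m, ?_⟩
    show s = Complex.arg ((r:ℂ) * ee s) / (2 * Real.pi) + m
    rw [Complex.arg_real_mul _ hr]
    exact hm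
  · show Complex.arg ((r:ℂ) * ee 1) / _ = Complex.arg ((r:ℂ) * ee 0) / _
    rw [tt_ee_one, tt_ee_zero]

/-! ### comparison of the loops -/

theorem tt_mer_eq (D : Tube) (t r : ℝ) : D.mer 1 t r = fun s => D.f (1, t, (r:ℂ) * ee s) := rfl

theorem tt_lon_w (k : ℤ) (s : ℝ) : Complex.exp (2 * Real.pi * (k * s) * Complex.I) = ee (k * s) := by
  unfold ee
  push_cast
  ring_nf

theorem tt_lon_eq (D : Tube) (k : ℤ) (t r : ℝ) :
    D.lon k t r = fun s => D.f (ee s, t, (r:ℂ) * ee (k * s)) := by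
  funext s
  unfold Tube.lon
  rw [tt_lon_w]
  rfl

theorem tt_ee_int (k : ℤ) : ee k = 1 := by
  unfold ee
  rw [Complex.exp_eq_one_iff]
  exact ⟨k, by push_cast; ring⟩

theorem tt_norm_r {r : ℝ} (hr : 0 ≤ r) {w : ℂ} (hw : ‖w‖ = 1) : ‖(r:ℂ) * w‖ = r := by
  rw [norm_mul, hw, mul_one, Complex.norm_real, Real.norm_eq_abs, abs_of_nonneg hr]

/-- the meridian is null homotopic in the tube `D'` -/
theorem tt_null {D' : Tube} {t r : ℝ} (hr : 0 ≤ r) (hr1 : r ≤ 1)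
    (h2 : ∀ u w : ℂ, ‖u‖ = 1 → ‖w‖ ≤ r → D.f (u, t, w) ∈ D'.N 1) :
    HasTr (mint (ang fun z => (tt_co2 D' z).1)) (fun s => D.f (1, t, (r:ℂ) * ee s)) 1 := by
  have hee := tt_ee_cont
  have hS : ∀ (θ ρ : ℝ), min 0 r ≤ ρ → ρ ≤ max 0 r → D.f ((1:ℂ), t, (ρ:ℂ) * ee θ) ∈ D'.N 1 := by
    intro θ ρ h3 h4
    rw [min_eq_left hr] at h3
    rw [max_eq_right hr] at h4
    exact h2 _ _ (by simp) (by rw [tt_norm_r h3 (tt_ee_norm _)]; exact h4)
  obtain ⟨g, hg⟩ := exists_hasTr (γ := fun s => D.f (1, t, (r:ℂ) * ee s)) (tt_flat_fst D') (by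
      refine D.cont.comp (f := fun s : ℝ => ((1:ℂ), t, (r:ℂ) * ee s)) (Continuous.continuousOn (by fun_prop)) ?_
      intro s _
      exact ⟨by simp, by rw [tt_norm_r hr (tt_ee_norm _)]; exact hr1⟩)
    (fun s _ => hS s r (min_le_right _ _) (le_max_right _ _))
  have h0 : HasTr (mint (ang fun z => (tt_co2 D' z).1)) (fun s => D.f (1, t, ((0:ℝ):ℂ) * ee s)) 1 := by
    have h3 := HasTr.const (tt_flat_fst D') (hS 0 0 (min_le_left _ _) (le_max_left _ _))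
    refine h3.congr fun s _ => by simp
  obtain ⟨a, ha⟩ := tt_radius (tt_flat_fst D') D (v := fun _ => (1:ℂ)) (w := ee) continuous_const tt_ee_cont
    (fun _ => by simp) tt_ee_norm rfl (by rw [tt_ee_zero, tt_ee_one]) le_rfl zero_le_one hr hr1 hS h0 hg
  have h4 : g = 1 := by rw [ha]; group
  rw [← h4]
  exact hg

/-- the data of two nested tubes -/
structure tt_Nest (D : Tube) (ρ r : ℝ) : Prop where
  ends : EndsK D
  hρ : 0 < ρ
  hρ1 : ρ ≤ 1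
  hr : 0 < r
  hr1 : r ≤ 1 / 2
  h1 : ∀ u w : ℂ, ‖u‖ = 1 → ‖w‖ ≤ ρ → eTube.f (u, 1, w) ∈ D.N 1
  h2 : ∀ u w : ℂ, ‖u‖ = 1 → ‖w‖ ≤ r → D.f (u, 1, w) ∈ eTube.N ρ

theorem tt_exists_nest (h : EndsK D) : ∃ ρ r, tt_Nest D ρ r := by
  obtain ⟨ρ, hρ, hρ1, h1⟩ := tt_thin_tube endsK_eTube h (t := 1) le_rfl
    (r' := 1) one_pos le_rfl one_pos le_rfl
  obtain ⟨r, hr, hr1, h2⟩ := tt_thin_tube h endsK_eTube (t := 1) le_rfl
    (r' := ρ) hρ hρ1 (ρ := 1/2) (by norm_num) (by norm_num)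
  exact ⟨ρ, r, h, hρ, hρ1, hr, hr1, h1, h2⟩

variable {ρ r : ℝ}

/-- the map from the solid torus to the level `1` -/
noncomputable def tt_fE (p : ℂ × ℂ) : ℂ × ℂ := Real.exp 1 • eV p

theorem tt_fE_cont : Continuous tt_fE := by
  have := continuous_eV
  unfold tt_fE
  fun_prop

theorem tt_fE_eq (u w : ℂ) : tt_fE (u, w) = eTube.f (u, 1, w) := rfl

theorem tt_eTube_core {u w : ℂ} {t : ℝ} (hu : ‖u‖ = 1) (hw : ‖w‖ ≤ 1) (hw0 : w ≠ 0) :
    eTube.f (u, t, w) ∉ eTube.core := fun hc => hw0 ((eTube.f_mem_core_iff (p := (u, t, w)) ⟨hu, hw⟩).1 hc)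

theorem tt_level_O (h : EndsK D) {z : ℂ × ℂ} (hz : nrm z = Real.exp 1) (hc : z ∉ eTube.core) : z ∈ D.O :=
  ⟨nrm_pos.1 (by rw [hz]; exact Real.exp_pos 1), fun h' => hc ((tt_core_core h endsK_eTube le_rfl hz).1 h')⟩

theorem tt_fE_nrm {p : ℂ × ℂ} (hp : p ∈ tt_PT ρ) (hρ1 : ρ ≤ 1) : nrm (tt_fE p) = Real.exp 1 := by
  obtain ⟨u, w⟩ := p
  exact eTube.nrm_f_of_one_le hp.1 (hp.2.2.trans hρ1) le_rfl

theorem tt_fE_core {p : ℂ × ℂ} (hp : p ∈ tt_PT ρ) (hρ1 : ρ ≤ 1) : tt_fE p ∉ eTube.core := by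
  obtain ⟨u, w⟩ := p
  exact tt_eTube_core hp.1 (hp.2.2.trans hρ1) hp.2.1

theorem tt_fE_mem_O (h : EndsK D) {p : ℂ × ℂ} (hp : p ∈ tt_PT ρ) (hρ1 : ρ ≤ 1) : tt_fE p ∈ D.O :=
  tt_level_O h (tt_fE_nrm hp hρ1) (tt_fE_core hp hρ1)

theorem tt_fE_mem_cone {p : ℂ × ℂ} (hp : p ∈ tt_PT ρ) (hρ1 : ρ ≤ 1) :
    tt_fE p ∈ {z | nrm z ≠ 0 ∧ ∀ k ∈ Kn, z ≠ nrm z • k} :=
  tt_cone endsK_eTube le_rfl (tt_fE_nrm hp hρ1) (tt_fE_core hp hρ1)

/-- lifting points of the thin tube of `D` -/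
theorem tt_Nest.lift (N : tt_Nest D ρ r) {u w : ℂ} (hu : ‖u‖ = 1) (hw : ‖w‖ ≤ r) (hw0 : w ≠ 0) :
    D.f (u, 1, w) ∈ eTube.N 1 ∧ tt_co2 eTube (D.f (u, 1, w)) ∈ tt_PT ρ ∧
      tt_fE (tt_co2 eTube (D.f (u, 1, w))) = D.f (u, 1, w) := by
  have hw1 : ‖w‖ ≤ 1 := hw.trans (N.hr1.trans (by norm_num))
  have hn : nrm (D.f (u, 1, w)) = Real.exp 1 := D.nrm_f_of_one_le hu hw1 le_rfl
  have hc : D.f (u, 1, w) ∉ D.core := fun hc => hw0 ((D.f_mem_core_iff (p := (u, 1, w)) ⟨hu, hw1⟩).1 hc)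
  have hc' : D.f (u, 1, w) ∉ eTube.core := fun h' => hc ((tt_core_core endsK_eTube N.ends le_rfl hn).1 h')
  obtain ⟨u', t', w', hu', hw', he⟩ := N.h2 u w hu hw
  have hw1' : ‖w'‖ ≤ 1 := hw'.le.trans N.hρ1
  rw [he] at hn hc' ⊢
  have ht := tt_level eTube hu' hw1' le_rfl hn
  subst ht
  rw [tt_co2_f eTube hu' hw1']
  refine ⟨⟨u', 1, w', hu', hw'.trans_le N.hρ1, rfl⟩, ⟨hu', ?_, hw'.le⟩, rfl⟩
  rintro h0
  have h0' : w' = 0 := h0
  subst h0'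
  exact hc' ⟨u', 1, hu', rfl⟩

/-- a loop around the thin tube of `D` -/
theorem tt_Nest.loop (N : tt_Nest D ρ r) {v w : ℝ → ℂ} (hv : Continuous v) (hw : Continuous w)
    (hv1 : ∀ θ, ‖v θ‖ = 1) (hw1 : ∀ θ, ‖w θ‖ = 1) :
    ContinuousOn (fun s => tt_co2 eTube (D.f (v s, 1, (r:ℂ) * w s))) (Icc 0 1) ∧
    (∀ s ∈ Icc (0:ℝ) 1, tt_co2 eTube (D.f (v s, 1, (r:ℂ) * w s)) ∈ tt_PT ρ) ∧
    (∀ s ∈ Icc (0:ℝ) 1, tt_fE (tt_co2 eTube (D.f (v s, 1, (r:ℂ) * w s))) = D.f (v s, 1, (r:ℂ) * w s)) := by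
  have hr1 : r ≤ 1 := N.hr1.trans (by norm_num)
  have hl : ∀ s, _ := fun s => N.lift (hv1 s) (w := (r:ℂ) * w s) (by rw [tt_norm_r N.hr.le (hw1 s)])
    (by rw [← norm_pos_iff, tt_norm_r N.hr.le (hw1 s)]; exact N.hr)
  refine ⟨?_, fun s _ => (hl s).2.1, fun s _ => (hl s).2.2⟩
  intro s hs
  have h1 : ContinuousOn (fun s => D.f (v s, 1, (r:ℂ) * w s)) (Icc 0 1) := by
    refine D.cont.comp (f := fun s : ℝ => (v s, (1:ℝ), (r:ℂ) * w s)) (Continuous.continuousOn (by fun_prop)) ?_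
    intro s _
    exact ⟨hv1 s, by rw [tt_norm_r N.hr.le (hw1 s)]; exact hr1⟩
  exact ContinuousAt.comp_continuousWithinAt (g := tt_co2 eTube) (f := fun s => D.f (v s, 1, (r:ℂ) * w s))
    (tt_co2_cont eTube (hl s).1) (h1 s hs)

theorem tt_Nest.key (N : tt_Nest D ρ r) {S : Set (ℂ × ℂ)} (hT : GFlat T S) (hS : ∀ p ∈ tt_PT ρ, tt_fE p ∈ S)
    {x y : G} (hx : HasTr T (fun s => tt_fE (1, ρ * ee s)) x) (hy : HasTr T (fun s => tt_fE (ee s, ρ)) y)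
    {v w : ℝ → ℂ} (hv : Continuous v) (hw : Continuous w) (hv1 : ∀ θ, ‖v θ‖ = 1)
    (hw1 : ∀ θ, ‖w θ‖ = 1) (hv0 : v 0 = v 1) (hw0 : w 0 = w 1) {m n : ℤ}
    (hm : HasTr (mint (ang Prod.snd)) (fun s => tt_co2 eTube (D.f (v s, 1, (r:ℂ) * w s)))
      (Multiplicative.ofAdd m))
    (hn : HasTr (mint (ang Prod.fst)) (fun s => tt_co2 eTube (D.f (v s, 1, (r:ℂ) * w s)))
      (Multiplicative.ofAdd n)) {g : G} (hg : HasTr T (fun s => D.f (v s, 1, (r:ℂ) * w s)) g) :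
    ∃ a, g = a⁻¹ * (x ^ m * y ^ n) * a := by
  obtain ⟨c1, c2, c3⟩ := N.loop hv hw hv1 hw1
  exact tt_elem tt_fE_cont N.hρ hT hS hx hy c1 c2 (by simp only [hv0, hw0]) hm hn (hg.congr c3)

theorem tt_PT_mer (hρ : 0 < ρ) (s : ℝ) : ((1:ℂ), (ρ:ℂ) * ee s) ∈ tt_PT ρ :=
  ⟨by simp, by rw [← norm_pos_iff, tt_norm_r hρ.le (tt_ee_norm s)]; exact hρ,
    (tt_norm_r hρ.le (tt_ee_norm s)).le⟩

theorem tt_PT_lon (hρ : 0 < ρ) (s : ℝ) : (ee s, (ρ:ℂ)) ∈ tt_PT ρ :=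
  ⟨tt_ee_norm s, Complex.ofReal_ne_zero.2 hρ.ne', by
    show ‖(ρ:ℂ)‖ ≤ ρ
    rw [Complex.norm_real, Real.norm_eq_abs, abs_of_pos hρ]⟩

theorem tt_Nest.exE (N : tt_Nest D ρ r) {S : Set (ℂ × ℂ)} (hT : GFlat T S) (hS : ∀ p ∈ tt_PT ρ, tt_fE p ∈ S) :
    ∃ x y : G, HasTr T (fun s => tt_fE (1, ρ * ee s)) x ∧ HasTr T (fun s => tt_fE (ee s, ρ)) y := by
  have hee := tt_ee_cont
  have hf := tt_fE_cont
  obtain ⟨x, hx⟩ := exists_hasTr (γ := fun s => tt_fE (1, ρ * ee s)) hT (Continuous.continuousOn (by fun_prop))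
    (fun s _ => hS _ (tt_PT_mer N.hρ s))
  obtain ⟨y, hy⟩ := exists_hasTr (γ := fun s => tt_fE (ee s, ρ)) hT (Continuous.continuousOn (by fun_prop))
    (fun s _ => hS _ (tt_PT_lon N.hρ s))
  exact ⟨x, y, hx, hy⟩

theorem tt_Nest.exp (N : tt_Nest D ρ r) {v w : ℝ → ℂ} (hv : Continuous v) (hw : Continuous w)
    (hv1 : ∀ θ, ‖v θ‖ = 1) (hw1 : ∀ θ, ‖w θ‖ = 1) : ∃ m n : ℤ,
    HasTr (mint (ang Prod.snd)) (fun s => tt_co2 eTube (D.f (v s, 1, (r:ℂ) * w s))) (Multiplicative.ofAdd m) ∧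
    HasTr (mint (ang Prod.fst)) (fun s => tt_co2 eTube (D.f (v s, 1, (r:ℂ) * w s))) (Multiplicative.ofAdd n) := by
  obtain ⟨c1, c2, -⟩ := N.loop hv hw hv1 hw1
  obtain ⟨m, hm⟩ := exists_hasTr (T := mint (ang Prod.snd)) (S := tt_PT ρ)
    (gflat_mint (angCont_ang (fun p _ => continuousAt_snd) fun p hp => hp.2.1)) c1 c2
  obtain ⟨n, hn⟩ := exists_hasTr (T := mint (ang Prod.fst)) (S := tt_PT ρ)
    (gflat_mint (angCont_ang (fun p _ => continuousAt_fst) fun p hp => by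
      rw [← norm_pos_iff, hp.1]; exact one_pos)) c1 c2
  exact ⟨Multiplicative.toAdd m, Multiplicative.toAdd n, hm, hn⟩

theorem tt_N_mono (D : Tube) {r r' : ℝ} (h : r ≤ r') : D.N r ⊆ D.N r' := by
  rintro z ⟨u, t, w, hu, hw, rfl⟩
  exact ⟨u, t, w, hu, hw.trans_le h, rfl⟩

theorem tt_Nest.mer_null (N : tt_Nest D ρ r) :
    HasTr (mint (ang Prod.fst)) (fun s => tt_co2 eTube (D.f (1, 1, (r:ℂ) * ee s))) (Multiplicative.ofAdd 0) :=
  tt_null (D := D) (D' := eTube) (t := 1) N.hr.le (N.hr1.trans (by norm_num))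
    (fun u w hu hw => tt_N_mono _ N.hρ1 (N.h2 u w hu hw))

theorem tt_unit_int {x a : Multiplicative ℤ} {m : ℤ} (h : Multiplicative.ofAdd 1 = a⁻¹ * (x ^ m) * a) :
    m = 1 ∨ m = -1 := by
  have h1 : a⁻¹ * (x ^ m) * a = x ^ m := by rw [mul_comm a⁻¹, mul_assoc, inv_mul_cancel, mul_one]
  rw [h1] at h
  have h2 : m * Multiplicative.toAdd x = 1 := by
    have := congrArg Multiplicative.toAdd h
    rw [toAdd_ofAdd, toAdd_zpow, smul_eq_mul] at this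
    exact this.symm
  exact Int.isUnit_iff.1 (IsUnit.of_mul_eq_one _ h2)

theorem tt_Nest.mer_exp (N : tt_Nest D ρ r) {m : ℤ}
    (hm : HasTr (mint (ang Prod.snd)) (fun s => tt_co2 eTube (D.f (1, 1, (r:ℂ) * ee s)))
      (Multiplicative.ofAdd m)) : m = 1 ∨ m = -1 := by
  have hS : ∀ p ∈ tt_PT ρ, tt_fE p ∈ D.N 1 \ D.core := by
    intro p hp
    refine ⟨?_, (tt_fE_mem_O N.ends hp N.hρ1).2⟩
    obtain ⟨u, w⟩ := p
    exact N.h1 u w hp.1 hp.2.2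
  obtain ⟨x, y, hx, hy⟩ := N.exE (tt_flat_snd D) hS
  have hg : HasTr (mint (ang Prod.snd)) (fun s => tt_co2 D (D.f (1, 1, (r:ℂ) * ee s)))
      (Multiplicative.ofAdd 1) := by
    refine (tt_tr_snd N.hr).congr fun s _ => ?_
    exact tt_co2_f D (by simp) (by rw [tt_norm_r N.hr.le (tt_ee_norm s)]; exact N.hr1.trans (by norm_num))
  obtain ⟨a, ha⟩ := N.key (tt_flat_snd D) hS hx hy (v := fun _ => (1:ℂ)) (w := ee) continuous_const
    tt_ee_cont (fun _ => by simp) tt_ee_norm rfl (by rw [tt_ee_zero, tt_ee_one]) hm N.mer_null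
    (g := Multiplicative.ofAdd 1) hg
  rw [zpow_zero, mul_one] at ha
  exact tt_unit_int ha

theorem tt_ee_k_cont (k : ℤ) : Continuous fun s : ℝ => ee (k * s) := by
  have := tt_ee_cont
  fun_prop

theorem tt_Nest.lon_exp (N : tt_Nest D ρ r) {k m n : ℤ}
    (hm : HasTr (mint (ang Prod.snd)) (fun s => tt_co2 eTube (D.f (ee s, 1, (r:ℂ) * ee (k * s))))
      (Multiplicative.ofAdd m))
    (hn : HasTr (mint (ang Prod.fst)) (fun s => tt_co2 eTube (D.f (ee s, 1, (r:ℂ) * ee (k * s))))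
      (Multiplicative.ofAdd n)) : n = 1 ∨ n = -1 := by
  have hS : ∀ p ∈ tt_PT ρ, tt_fE p ∈ D.N 1 := by
    intro p hp
    obtain ⟨u, w⟩ := p
    exact N.h1 u w hp.1 hp.2.2
  obtain ⟨_, y, -, hy⟩ := N.exE (tt_flat_fst D) hS
  have hx := tt_null (D := eTube) (D' := D) (t := 1) N.hρ.le N.hρ1 N.h1
  have hg : HasTr (mint (ang Prod.fst)) (fun s => tt_co2 D (D.f (ee s, 1, (r:ℂ) * ee (k * s))))
      (Multiplicative.ofAdd 1) := by
    refine (tt_tr_fst (w := fun s => (r:ℂ) * ee (k * s)) (by have := tt_ee_k_cont k; fun_prop)).congr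
      fun s _ => ?_
    exact tt_co2_f D (tt_ee_norm s)
      (by rw [tt_norm_r N.hr.le (tt_ee_norm _)]; exact N.hr1.trans (by norm_num))
  obtain ⟨a, ha⟩ := N.key (tt_flat_fst D) hS hx hy (v := ee) (w := fun s => ee (k * s)) tt_ee_cont
    (tt_ee_k_cont k) tt_ee_norm (fun _ => tt_ee_norm _) (by rw [tt_ee_zero, tt_ee_one])
    (by simp only [mul_zero, mul_one, tt_ee_zero, tt_ee_int]) hm hn (g := Multiplicative.ofAdd 1) hg
  rw [one_zpow, one_mul] at ha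
  exact tt_unit_int ha

/-! ### the class `cf` on the level `1` -/

theorem tt_fK_smul {c : ℝ} (hc : 0 < c) (z : ℂ × ℂ) : fK (c • z) = ((c ^ 3 : ℝ) : ℂ) * fK z := by
  unfold fK
  rw [nrm_smul_of_pos hc]
  simp only [Prod.smul_fst, Prod.smul_snd, Complex.real_smul]
  push_cast
  ring

theorem tt_cf_smul {c : ℝ} (hc : 0 < c) (x y : ℂ × ℂ) : cf (c • x) (c • y) = cf x y := by
  have h : ∀ z, ang fK (c • z) = ang fK z := by
    intro z
    unfold ang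
    rw [tt_fK_smul hc, Complex.arg_real_mul _ (by positivity)]
  unfold cf mint cint
  rw [h, h]

theorem tt_cf_tr_smul {c : ℝ} (hc : 0 < c) {γ : ℝ → ℂ × ℂ} {g : Multiplicative ℤ} (h : HasTr cf γ g) :
    HasTr cf (fun s => c • γ s) g := by
  obtain ⟨F, f0, f1, hF⟩ := h
  refine ⟨F, f0, f1, fun s hs => ?_⟩
  obtain ⟨e, he, h⟩ := hF s hs
  exact ⟨e, he, fun t ht t' ht' h1 h2 => by rw [tt_cf_smul hc]; exact h t ht t' ht' h1 h2⟩

theorem tt_f_cont {v w : ℝ → ℂ} (D : Tube) (hv : Continuous v) (hw : Continuous w)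
    (hv1 : ∀ θ, ‖v θ‖ = 1) (hw1 : ∀ θ, ‖w θ‖ = 1) {r : ℝ} (hr : 0 < r) (hr1 : r ≤ 1) :
    ContinuousOn (fun s => D.f (v s, 1, (r:ℂ) * w s)) (Icc 0 1) := by
  refine D.cont.comp (f := fun s : ℝ => (v s, (1:ℝ), (r:ℂ) * w s)) (Continuous.continuousOn (by fun_prop)) ?_
  intro s _
  exact ⟨hv1 s, by rw [tt_norm_r hr.le (hw1 s)]; exact hr1⟩

theorem tt_f_core (D : Tube) {u w : ℂ} (hu : ‖u‖ = 1) (hw : ‖w‖ = 1) {r : ℝ} (hr : 0 < r) (hr1 : r ≤ 1) :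
    nrm (D.f (u, 1, (r:ℂ) * w)) = Real.exp 1 ∧ D.f (u, 1, (r:ℂ) * w) ∉ D.core := by
  have h1 : ‖(r:ℂ) * w‖ ≤ 1 := by rw [tt_norm_r hr.le hw]; exact hr1
  refine ⟨D.nrm_f_of_one_le hu h1 le_rfl, fun hc => ?_⟩
  have h2 := (D.f_mem_core_iff (p := (u, 1, (r:ℂ) * w)) ⟨hu, h1⟩).1 hc
  have h3 := tt_norm_r hr.le hw
  rw [show (r:ℂ) * w = 0 from h2, norm_zero] at h3
  exact hr.ne h3

/-- the meridian of the tube has `cf = ± 1` -/
theorem kend_mer (h : EndsK D) {r : ℝ} (hr : 0 < r) (hr1 : r ≤ 1) {g : Multiplicative ℤ}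
    (hg : HasTr cf (D.mer 1 1 r) g) : g = Multiplicative.ofAdd 1 ∨ g = Multiplicative.ofAdd (-1) := by
  obtain ⟨ρ, r', N⟩ := tt_exists_nest h
  have hr1' : r' ≤ 1 := N.hr1.trans (by norm_num)
  have hS : ∀ (θ ρ : ℝ), 0 < ρ → ρ ≤ 1 → D.f ((1:ℂ), 1, (ρ:ℂ) * ee θ) ∈
      {z | nrm z ≠ 0 ∧ ∀ k ∈ Kn, z ≠ nrm z • k} := fun θ ρ h1 h2 => by
    obtain ⟨h3, h4⟩ := tt_f_core D (u := 1) (by simp) (tt_ee_norm θ) h1 h2
    exact tt_cone h le_rfl h3 h4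
  obtain ⟨m, n, hm, -⟩ := N.exp (v := fun _ => (1:ℂ)) (w := ee) continuous_const tt_ee_cont
    (fun _ => by simp) tt_ee_norm
  obtain ⟨g', hg'⟩ := exists_hasTr (γ := fun s => D.f (1, 1, (r':ℂ) * ee s)) gflat_cf
    (tt_f_cont D (v := fun _ => (1:ℂ)) continuous_const tt_ee_cont (fun _ => by simp) tt_ee_norm N.hr hr1')
    (fun s _ => hS s r' N.hr hr1')
  obtain ⟨a, ha⟩ := N.key gflat_cf (fun p hp => tt_fE_mem_cone hp N.hρ1)
    (tt_cf_tr_smul (Real.exp_pos 1) (cf_merE N.hρ N.hρ1)) (tt_cf_tr_smul (Real.exp_pos 1) (cf_lonE N.hρ N.hρ1))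
    (v := fun _ => (1:ℂ)) (w := ee) continuous_const tt_ee_cont (fun _ => by simp) tt_ee_norm rfl
    (by rw [tt_ee_zero, tt_ee_one]) hm N.mer_null hg'
  obtain ⟨b, hb⟩ := tt_radius gflat_cf D (v := fun _ => (1:ℂ)) (w := ee) continuous_const tt_ee_cont
    (fun _ => by simp) tt_ee_norm rfl (by rw [tt_ee_zero, tt_ee_one]) N.hr.le hr1' hr.le hr1
    (fun θ ρ h1 h2 => hS θ ρ ((lt_min N.hr hr).trans_le h1) (h2.trans (max_le hr1' hr1))) hg' hg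
  have hcm : ∀ x y : Multiplicative ℤ, x⁻¹ * y * x = y := fun x y => by
    rw [mul_comm x⁻¹, mul_assoc, inv_mul_cancel, mul_one]
  rw [hcm] at ha hb
  rw [zpow_zero, mul_one, ← ofAdd_zsmul, smul_eq_mul, mul_one] at ha
  rw [hb, ha]
  rcases N.mer_exp hm with h1 | h1
  · left; rw [h1]
  · right; rw [h1]

/-- the longitude of the tube with `cf = 0` has the transport of the longitude of `e`, up to
conjugation and inversion -/
theorem kend_lon (h : EndsK D) (hT : GFlat T D.O) {m : ℤ} {r : ℝ} (hr : 0 < r) (hr1 : r ≤ 1) {g y : G}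
    (hc : HasTr cf (D.lon m 1 r) 1) (hg : HasTr T (D.lon m 1 r) g) (hy : HasTr (TK T) (lonE 1) y) :
    ∃ a, g = a⁻¹ * y * a ∨ g = a⁻¹ * y⁻¹ * a := by
  rw [tt_lon_eq] at hc hg
  obtain ⟨ρ, r', N⟩ := tt_exists_nest h
  have hr1' : r' ≤ 1 := N.hr1.trans (by norm_num)
  have hk := tt_ee_k_cont m
  have hk0 : ee (m * 0) = ee (m * 1) := by simp only [mul_zero, mul_one, tt_ee_zero, tt_ee_int]
  have he0 : ee 0 = ee 1 := by rw [tt_ee_zero, tt_ee_one]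
  have hS : ∀ (θ ρ : ℝ), 0 < ρ → ρ ≤ 1 → D.f (ee θ, 1, (ρ:ℂ) * ee (m * θ)) ∈
      {z | nrm z ≠ 0 ∧ ∀ k ∈ Kn, z ≠ nrm z • k} := fun θ ρ h1 h2 => by
    obtain ⟨h3, h4⟩ := tt_f_core D (tt_ee_norm θ) (tt_ee_norm (m * θ)) h1 h2
    exact tt_cone h le_rfl h3 h4
  have hS' : ∀ (θ ρ : ℝ), 0 < ρ → ρ ≤ 1 → D.f (ee θ, 1, (ρ:ℂ) * ee (m * θ)) ∈ D.O := fun θ ρ h1 h2 => by
    obtain ⟨h3, h4⟩ := tt_f_core D (tt_ee_norm θ) (tt_ee_norm (m * θ)) h1 h2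
    exact ⟨nrm_pos.1 (by rw [h3]; exact Real.exp_pos 1), h4⟩
  obtain ⟨j, n, hj, hn⟩ := N.exp (v := ee) (w := fun s => ee (m * s)) tt_ee_cont hk tt_ee_norm
    (fun _ => tt_ee_norm _)
  obtain ⟨c', hc'⟩ := exists_hasTr (γ := fun s => D.f (ee s, 1, (r':ℂ) * ee (m * s))) gflat_cf
    (tt_f_cont D tt_ee_cont hk tt_ee_norm (fun _ => tt_ee_norm _) N.hr hr1')
    (fun s _ => hS s r' N.hr hr1')
  obtain ⟨g', hg'⟩ := exists_hasTr (γ := fun s => D.f (ee s, 1, (r':ℂ) * ee (m * s))) hT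
    (tt_f_cont D tt_ee_cont hk tt_ee_norm (fun _ => tt_ee_norm _) N.hr hr1')
    (fun s _ => hS' s r' N.hr hr1')
  obtain ⟨x, z, hx, hz⟩ := N.exE hT (fun p hp => tt_fE_mem_O h hp N.hρ1)
  -- the class `cf`
  obtain ⟨a, ha⟩ := N.key gflat_cf (fun p hp => tt_fE_mem_cone hp N.hρ1)
    (tt_cf_tr_smul (Real.exp_pos 1) (cf_merE N.hρ N.hρ1)) (tt_cf_tr_smul (Real.exp_pos 1) (cf_lonE N.hρ N.hρ1))
    (v := ee) (w := fun s => ee (m * s)) tt_ee_cont hk tt_ee_norm (fun _ => tt_ee_norm _) he0 hk0 hj hn hc'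
  obtain ⟨b, hb⟩ := tt_radius gflat_cf D (v := ee) (w := fun s => ee (m * s)) tt_ee_cont hk
    tt_ee_norm (fun _ => tt_ee_norm _) he0 hk0 hr.le hr1 N.hr.le hr1'
    (fun θ ρ h1 h2 => hS θ ρ ((lt_min hr N.hr).trans_le h1) (h2.trans (max_le hr1 hr1'))) hc hc'
  have hcm : ∀ x y : Multiplicative ℤ, x⁻¹ * y * x = y := fun x y => by
    rw [mul_comm x⁻¹, mul_assoc, inv_mul_cancel, mul_one]
  rw [hcm] at ha hb
  rw [one_zpow, mul_one, ← ofAdd_zsmul, smul_eq_mul, mul_one] at ha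
  have hj0 : j = 0 := by
    rw [hb] at ha
    exact (ofAdd_eq_one.1 ha.symm)
  -- the function `T`
  obtain ⟨a₁, h1⟩ := N.key hT (fun p hp => tt_fE_mem_O h hp N.hρ1) hx hz
    (v := ee) (w := fun s => ee (m * s)) tt_ee_cont hk tt_ee_norm (fun _ => tt_ee_norm _) he0 hk0 hj hn hg'
  obtain ⟨a₂, h2⟩ := tt_radius hT D (v := ee) (w := fun s => ee (m * s)) tt_ee_cont hk
    tt_ee_norm (fun _ => tt_ee_norm _) he0 hk0 N.hr.le hr1' hr.le hr1
    (fun θ ρ h1 h2 => hS' θ ρ ((lt_min N.hr hr).trans_le h1) (h2.trans (max_le hr1' hr1))) hg' hg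
  have hS2 : ∀ (θ ρ : ℝ), 0 < ρ → ρ ≤ 1 → eTube.f (ee θ, 1, (ρ:ℂ) * 1) ∈ D.O := fun θ ρ h1 h2 => by
    obtain ⟨h3, h4⟩ := tt_f_core eTube (tt_ee_norm θ) (w := 1) (by simp) h1 h2
    exact tt_level_O h h3 h4
  obtain ⟨a₃, h3⟩ := tt_radius hT eTube (t := 1) (v := ee) (w := fun _ => (1:ℂ)) (r := 1) (r' := ρ)
    (g := y) (g' := z) tt_ee_cont continuous_const
    tt_ee_norm (fun _ => by simp) he0 rfl zero_le_one le_rfl N.hρ.le N.hρ1
    (fun θ ρ' h1 h2 => hS2 θ ρ' ((lt_min one_pos N.hρ).trans_le h1) (h2.trans (max_le le_rfl N.hρ1)))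
    (by simp only [mul_one]; exact hy) (by simp only [mul_one]; exact hz)
  rw [hj0, zpow_zero, one_mul] at h1
  rcases N.lon_exp hj hn with h5 | h5
  · refine ⟨a₃ * a₁ * a₂, Or.inl ?_⟩
    rw [h2, h1, h5, zpow_one, h3]
    group
  · refine ⟨a₃ * a₁ * a₂, Or.inr ?_⟩
    rw [h2, h1, h5, zpow_neg, zpow_one, h3]
    group

/-! ### degree one -/

theorem tt_dil_SK (h : EndsK D) : tt_dil 1 ⁻¹' D.SK = Sph \ Kn := by
  ext x
  constructor
  · rintro ⟨h1, h2⟩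
    have hO : Real.exp 1 • x ∈ D.O := ⟨nrm_pos.1 (by rw [show nrm (Real.exp 1 • x) = _ from h1]; exact Real.exp_pos 1), h2⟩
    have h3 := tt_mem_O_iff h le_rfl h1 hO
    rwa [tt_dil_apply, smul_smul, ← Real.exp_add, neg_add_cancel, Real.exp_zero, one_smul] at h3
  · intro hx
    have hO := tt_mem_O h le_rfl hx
    refine ⟨?_, hO.2⟩
    show nrm (Real.exp 1 • x) = _
    rw [nrm_smul_of_pos (Real.exp_pos _), show nrm x = 1 from hx.1, mul_one]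

/-- a class that is nontrivial on `EK` is nontrivial on `Ex` (for the scaled copy) -/
theorem kend_nontriv {k V : Type*} [CommRing k] [AddCommGroup V] [Module k V] (h : EndsK D)
    (hT : GFlat T D.O) (ρ : G →* (V →ₗ[k] V)) {c : List (ℂ × ℂ) → V}
    (hc : c ∈ Zc (sys T ρ) D.O ∅ 1) (hb : c ∉ Bc (sys T ρ) D.EK ∅ 1) :
    (fun l => c (l.map (fun x => Real.exp 1 • x))) ∉ Bc (sys (TK T) ρ) Ex ∅ 1 := by
  intro hx
  apply hb
  rw [(D.H1_SK hT ρ).2 c hc, hi_homeo_Bc (tt_dil 1), tt_dil_SK h]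
  refine tref_deform (TK_flat h hT) ρ ?_ hx
  have h1 : c ∈ Zc (sys T ρ) D.SK ∅ 1 := by
    refine Zc_mono ?_ le_rfl 1 hc
    rintro z ⟨h1, h2⟩
    exact ⟨nrm_pos.1 (by rw [h1]; exact Real.exp_pos 1), h2⟩
  rw [hi_homeo_Zc (tt_dil 1), tt_dil_SK h] at h1
  exact h1

theorem tt_eO : Sph \ Kn ⊆ eTube.O := by
  intro x hx
  refine ⟨nrm_pos.1 (by rw [show nrm x = 1 from hx.1]; exact one_pos), ?_⟩
  rintro ⟨u, t, hu, h1⟩
  have h2 : nrm x = Real.exp t := by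
    rw [h1, eTube_f, nrm_smul_of_pos (Real.exp_pos _), tt_nrm_eV hu (by simp), mul_one]
  rw [show nrm x = 1 from hx.1] at h2
  rw [eTube_f, ← h2, one_smul] at h1
  exact hx.2 ⟨u, hu, h1⟩

theorem tt_eO' {x : ℂ × ℂ} (h : x ∈ eTube.O) (h1 : nrm x = 1) : x ∈ Sph \ Kn := by
  refine ⟨h1, ?_⟩
  rintro ⟨u, hu, rfl⟩
  exact h.2 ⟨u, 0, hu, by rw [eTube_f]; simp⟩

/-- deformation of `S³ ∖ K` onto `Ex` -/
theorem tt_push : ∃ K : ℝ → ℂ × ℂ → ℂ × ℂ,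
    (∀ s ∈ Icc (0:ℝ) 1, ∀ a ∈ Sph \ Kn, ContinuousAt (fun p : ℝ × (ℂ × ℂ) => K p.1 p.2) (s, a)) ∧
    (∀ s ∈ Icc (0:ℝ) 1, ∀ a ∈ Sph \ Kn, K s a ∈ Sph \ Kn) ∧ (∀ x, K 0 x = x) ∧
    (∀ a ∈ Sph \ Kn, K 1 a ∈ Ex) ∧ (∀ s ∈ Icc (0:ℝ) 1, ∀ a ∈ Ex, K s a ∈ Ex) := by
  have c0 : Tube.c01 0 = 0 := Tube.c01_of_mem ⟨le_rfl, zero_le_one⟩
  have c1 : Tube.c01 1 = 1 := Tube.c01_of_mem ⟨zero_le_one, le_rfl⟩
  have hnrm : ∀ (s : ℝ) (a : ℂ × ℂ), nrm a = 1 → nrm (eTube.rad (Tube.gP 1 s) a) = 1 := by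
    intro s a ha
    have h1 : nrm a ≤ Real.exp 0 := by rw [Real.exp_zero]; exact ha.le
    have h2 : Real.exp 0 ≤ nrm a := by rw [Real.exp_zero]; exact ha.ge
    have h3 := (eTube.nrm_rad_le_iff (Tube.radOK_gP le_rfl s) (Or.inl le_rfl)).2 h1
    have h4 := (eTube.le_nrm_rad_iff (Tube.radOK_gP le_rfl s) (Or.inl le_rfl)).2 h2
    rw [Real.exp_zero] at h3 h4
    exact le_antisymm h3 h4
  have hm : ∀ (s : ℝ) (a : ℂ × ℂ), a ∈ Sph \ Kn → eTube.rad (Tube.gP 1 s) a ∈ Sph \ Kn := by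
    intro s a ha
    exact tt_eO' (eTube.rad_mem_O (Tube.radOK_gP le_rfl s) (fun _ h _ => Tube.gP_pos h) (tt_eO ha))
      (hnrm s a ha.1)
  refine ⟨fun s z => eTube.rad (Tube.gP 1 s) z, ?_, fun s _ a ha => hm s a ha, ?_, ?_, ?_⟩
  · intro s hs a ha
    have h1 := eTube.continuousOn_rad (I := (univ : Set ℝ)) (g := Tube.gP 1) (by
      have := Tube.continuous_c01
      unfold Tube.gP
      exact Continuous.continuousOn (by fun_prop)) (fun s _ => Tube.radOK_gP le_rfl s)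
    exact h1.continuousAt (prod_mem_nhds Filter.univ_mem (eTube.isOpen_O.mem_nhds (tt_eO ha)))
  · intro x
    refine eTube.rad_of_eq fun _ => ?_
    simp [Tube.gP, c0]
  · intro a ha
    refine ⟨hnrm 1 a ha.1, ?_⟩
    have h1 : eTube.rad (Tube.gP 1 1) a ∉ eTube.N 1 := by
      refine eTube.rad_notMem_N (Tube.radOK_gP le_rfl 1) le_rfl (tt_eO ha).2 fun _ => ?_
      simp [Tube.gP, c1]
    rintro ⟨u, w, hu, hw, h2⟩
    refine h1 ⟨u, 0, w, hu, hw, ?_⟩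
    rw [eTube_f, Real.exp_zero, one_smul]
    exact h2
  · intro s hs a ha
    have h1 : eTube.rad (Tube.gP 1 s) a = a := by
      refine eTube.rad_of_eq fun hT => Tube.gP_of_le ?_
      by_contra hlt
      obtain ⟨u, t, w, hu, hw, h2⟩ := (eTube.mem_N_iff le_rfl).2 ⟨hT, not_le.1 hlt⟩
      have h3 : nrm a = Real.exp t := by
        rw [h2, eTube_f, nrm_smul_of_pos (Real.exp_pos _), tt_nrm_eV hu hw.le, mul_one]
      rw [show nrm a = 1 from ha.1] at h3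
      rw [eTube_f, ← h3, one_smul] at h2
      exact ha.2 ⟨u, w, hu, hw, h2⟩
    show eTube.rad (Tube.gP 1 s) a ∈ Ex
    rw [h1]
    exact ha

/-- a class on `Ex` (`H¹(Ex) ≠ 0`) gives a class on `EK` -/
theorem kend_H1 {k V : Type*} [CommRing k] [AddCommGroup V] [Module k V] (h : EndsK D)
    (hT : GFlat T D.O) (ρ : G →* (V →ₗ[k] V)) :
    Nonempty (H (sys T ρ) D.EK ∅ 1 ≃ₗ[k] H (sys (TK T) ρ) Ex ∅ 1) := by
  obtain ⟨e1⟩ := (D.H1_SK hT ρ).1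
  obtain ⟨e2⟩ := homeo_H (tt_dil 1) (sys T ρ) D.SK ∅ 1
  rw [tt_dil_SK h] at e2
  obtain ⟨K, k1, k2, k3, k4, k5⟩ := tt_push
  have hf := TK_flat h hT
  have hsub : Ex ⊆ Sph \ Kn := tt_Exr_sub one_pos
  have hbij : Function.Bijective (Hres (sys (TK T) ρ) hsub (le_refl ∅) 1 :
      H (sys (TK T) ρ) (Sph \ Kn) ∅ 1 →ₗ[k] H (sys (TK T) ρ) Ex ∅ 1) := by
    constructor
    · rw [← LinearMap.ker_eq_bot, LinearMap.ker_eq_bot']
      intro x hx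
      obtain ⟨⟨c, hc⟩, rfl⟩ := H.mk_surjective 1 x
      rw [hi_Hres_mk, H.mk_eq_zero] at hx
      rw [H.mk_eq_zero]
      exact H1_inj ρ hf hsub k1 k2 k3 k4 hc hx
    · intro x
      obtain ⟨⟨c, hc⟩, rfl⟩ := H.mk_surjective 1 x
      obtain ⟨c', hc', h1⟩ := H1_surj ρ hf hsub k1 k2 k3 k4 k5 hc
      refine ⟨H.mk (sys (TK T) ρ) (Sph \ Kn) ∅ 1 ⟨c', hc'⟩, ?_⟩
      rw [hi_Hres_mk, H.mk_eq_mk]
      exact h1
  exact ⟨(e1.trans e2).trans (LinearEquiv.ofBijective _ hbij)⟩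

end Pool.Agent.Helper60.Geo
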