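import Pool.Agent.Helper60.Geo.TubeG6

/-! Tubes in `ℂ² ∖ 0 ≅ S³ × ℝ` and the exterior `X` of a concordance. Definitions: TubeBase.lean;
parts G1 (point set topology), G2 (restriction isomorphisms), G3 (loops, circle lemma), G4 (duality),
G5 (product tubes, retraction, degree one, connectedness): TubeG1.lean .. TubeG6.lean. -/
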