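import Pool.Agent.Helper60.Geo.Conc
import Pool.Agent.H815.HF.InvDom

/-! Tubes in `ℂ² ∖ 0 ≅ S³ × ℝ`: definitions, coordinates on the tube, maps supported in the tube
(radial push), level maps (clamping). Point set topology only. -/

set_option autoImplicit false

namespace Pool.Agent.Helper60.Geo

open Set Topology

/-- parameter domain of a tube of radius `1`: `(u, t, w)` with `|u| = 1`, `|w| ≤ 1` -/
def Dom : Set (ℂ × ℝ × ℂ) := {p | ‖p.1‖ = 1 ∧ ‖p.2.2‖ ≤ 1}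

/-- an annulus with a product neighbourhood in `S³ × ℝ` (written as `ℂ² ∖ 0`), which is a product
with `ℝ` for `t ≤ 0` and `t ≥ 1` -/
structure Tube where
  f : ℂ × ℝ × ℂ → ℂ × ℂ
  cont : ContinuousOn f Dom
  inj : InjOn f Dom
  low : ∀ u t w, ‖u‖ = 1 → ‖w‖ ≤ 1 → t ≤ 0 → f (u, t, w) = Real.exp t • f (u, 0, w)
  high : ∀ u t w, ‖u‖ = 1 → ‖w‖ ≤ 1 → 1 ≤ t → f (u, t, w) = Real.exp (t - 1) • f (u, 1, w)
  nrm0 : ∀ u w, ‖u‖ = 1 → ‖w‖ ≤ 1 → nrm (f (u, 0, w)) = 1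
  nrm1 : ∀ u w, ‖u‖ = 1 → ‖w‖ ≤ 1 → nrm (f (u, 1, w)) = Real.exp 1
  mid : ∀ u t w, ‖u‖ = 1 → ‖w‖ ≤ 1 → 0 < t → t < 1 →
    1 < nrm (f (u, t, w)) ∧ nrm (f (u, t, w)) < Real.exp 1

namespace Tube

variable (D : Tube)

/-- open tube of radius `r` -/
def N (r : ℝ) : Set (ℂ × ℂ) := {z | ∃ u t w, ‖u‖ = 1 ∧ ‖w‖ < r ∧ z = D.f (u, t, w)}
/-- the core annulus -/
def core : Set (ℂ × ℂ) := {z | ∃ u t, ‖u‖ = 1 ∧ z = D.f (u, t, 0)}
/-- complement of the core in `S³ × ℝ` -/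
def O : Set (ℂ × ℂ) := {z | z ≠ 0 ∧ z ∉ D.core}
/-- the exterior between the levels `-a` and `1 + a` -/
def Xar (a r : ℝ) : Set (ℂ × ℂ) :=
  {z | Real.exp (-a) ≤ nrm z ∧ nrm z ≤ Real.exp (1 + a)} \ D.N r
/-- the exterior -/
def X : Set (ℂ × ℂ) := D.Xar 1 (1/2)
def EJ : Set (ℂ × ℂ) := D.X ∩ {z | nrm z = Real.exp (-1)}
def EK : Set (ℂ × ℂ) := D.X ∩ {z | nrm z = Real.exp 2}
/-- the vertical part of the boundary -/
def B : Set (ℂ × ℂ) := {z | ∃ u t w, ‖u‖ = 1 ∧ -1 ≤ t ∧ t ≤ 2 ∧ ‖w‖ = 1/2 ∧ z = D.f (u, t, w)}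

/-- meridian loop -/
noncomputable def mer (u : ℂ) (t r : ℝ) : ℝ → ℂ × ℂ :=
  fun s => D.f (u, t, (r : ℂ) * Complex.exp (2 * Real.pi * s * Complex.I))

/-- the loop `θ ↦ f (θ, t, r θ^m)` running once along the tube, with twist `m` -/
noncomputable def lon (m : ℤ) (t r : ℝ) : ℝ → ℂ × ℂ :=
  fun s => D.f (Complex.exp (2 * Real.pi * s * Complex.I), t,
    (r : ℂ) * Complex.exp (2 * Real.pi * (m * s) * Complex.I))

end Tube

/-! ### The Euclidean norm -/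

theorem norm_le_nrm (z : ℂ × ℂ) : ‖z‖ ≤ nrm z := by
  rw [Prod.norm_def]
  refine max_le ?_ ?_
  · exact Real.le_sqrt_of_sq_le (by nlinarith [sq_nonneg ‖z.2‖])
  · exact Real.le_sqrt_of_sq_le (by nlinarith [sq_nonneg ‖z.1‖])

@[simp] theorem nrm_zero : nrm 0 = 0 := by simp [nrm]

theorem nrm_eq_zero {z : ℂ × ℂ} : nrm z = 0 ↔ z = 0 := by
  constructor
  · intro h
    have := norm_le_nrm z
    rw [h] at this
    exact norm_le_zero_iff.1 this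
  · rintro rfl
    exact nrm_zero

theorem nrm_pos {z : ℂ × ℂ} : 0 < nrm z ↔ z ≠ 0 := by
  rw [lt_iff_le_and_ne]
  constructor
  · rintro ⟨-, h⟩ h'
    exact h (nrm_eq_zero.2 h').symm
  · intro h
    exact ⟨nrm_nonneg z, fun h' => h (nrm_eq_zero.1 h'.symm)⟩

theorem nrm_smul (c : ℝ) (z : ℂ × ℂ) : nrm (c • z) = |c| * nrm z := by
  unfold nrm
  rw [← Real.sqrt_sq_eq_abs, ← Real.sqrt_mul (sq_nonneg c)]
  congr 1
  simp only [Prod.smul_fst, Prod.smul_snd, norm_smul, Real.norm_eq_abs, mul_pow, sq_abs]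
  ring

theorem nrm_smul_of_pos {c : ℝ} (hc : 0 < c) (z : ℂ × ℂ) : nrm (c • z) = c * nrm z := by
  rw [nrm_smul, abs_of_pos hc]

/-- compact shells -/
theorem isCompact_shell (a b : ℝ) : IsCompact {z : ℂ × ℂ | a ≤ nrm z ∧ nrm z ≤ b} := by
  refine (isCompact_closedBall (0 : ℂ × ℂ) b).of_isClosed_subset ?_ ?_
  · exact (isClosed_le continuous_const continuous_nrm).inter
      (isClosed_le continuous_nrm continuous_const)
  · rintro z ⟨-, hz⟩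
    rw [mem_closedBall_zero_iff]
    exact (norm_le_nrm z).trans hz

/-! ### Levels on the tube -/

/-- the part of the parameter domain with `a ≤ t ≤ b` -/
def Domab (a b : ℝ) : Set (ℂ × ℝ × ℂ) := Dom ∩ {p | a ≤ p.2.1 ∧ p.2.1 ≤ b}

theorem isClosed_Dom : IsClosed Dom := by
  refine (isClosed_eq (by fun_prop) continuous_const).inter
    (isClosed_le (f := fun p : ℂ × ℝ × ℂ => ‖p.2.2‖) (by fun_prop) continuous_const)

theorem isCompact_Domab (a b : ℝ) : IsCompact (Domab a b) := by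
  refine ((isCompact_closedBall (0:ℂ) 1).prod ((isCompact_Icc (a := a) (b := b)).prod
    (isCompact_closedBall (0:ℂ) 1))).of_isClosed_subset ?_ ?_
  · refine isClosed_Dom.inter ?_
    exact (isClosed_le (g := fun p : ℂ × ℝ × ℂ => p.2.1) continuous_const (by fun_prop)).inter
      (isClosed_le (f := fun p : ℂ × ℝ × ℂ => p.2.1) (by fun_prop) continuous_const)
  · rintro ⟨u, t, w⟩ ⟨⟨hu, hw⟩, ht⟩
    simp only [mem_prod, mem_closedBall_zero_iff, mem_Icc] at *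
    exact ⟨hu.le, ht, hw⟩

namespace Tube

variable (D : Tube) {u w : ℂ} {t c : ℝ}

theorem nrm_f_of_nonpos (hu : ‖u‖ = 1) (hw : ‖w‖ ≤ 1) (ht : t ≤ 0) :
    nrm (D.f (u, t, w)) = Real.exp t := by
  rw [D.low u t w hu hw ht, nrm_smul_of_pos (Real.exp_pos t), D.nrm0 u w hu hw, mul_one]

theorem nrm_f_of_one_le (hu : ‖u‖ = 1) (hw : ‖w‖ ≤ 1) (ht : 1 ≤ t) :
    nrm (D.f (u, t, w)) = Real.exp t := by
  rw [D.high u t w hu hw ht, nrm_smul_of_pos (Real.exp_pos _), D.nrm1 u w hu hw, ← Real.exp_add]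
  congr 1
  ring

theorem one_lt_nrm_f (hu : ‖u‖ = 1) (hw : ‖w‖ ≤ 1) (ht : 0 < t) : 1 < nrm (D.f (u, t, w)) := by
  rcases lt_or_ge t 1 with h | h
  · exact (D.mid u t w hu hw ht h).1
  · rw [D.nrm_f_of_one_le hu hw h]
    exact Real.one_lt_exp_iff.2 ht

theorem nrm_f_lt_exp_one (hu : ‖u‖ = 1) (hw : ‖w‖ ≤ 1) (ht : t < 1) :
    nrm (D.f (u, t, w)) < Real.exp 1 := by
  rcases lt_or_ge 0 t with h | h
  · exact (D.mid u t w hu hw h ht).2
  · rw [D.nrm_f_of_nonpos hu hw h]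
    exact Real.exp_lt_exp.2 ht

theorem f_ne_zero (hu : ‖u‖ = 1) (hw : ‖w‖ ≤ 1) : D.f (u, t, w) ≠ 0 := by
  rw [← nrm_pos]
  rcases lt_or_ge 0 t with h | h
  · exact zero_lt_one.trans (D.one_lt_nrm_f hu hw h)
  · rw [D.nrm_f_of_nonpos hu hw h]
    exact Real.exp_pos t

/-- comparison with levels `exp c`, `c ≤ 0` or `1 ≤ c` -/
theorem nrm_f_le_iff (hu : ‖u‖ = 1) (hw : ‖w‖ ≤ 1) (hc : c ≤ 0 ∨ 1 ≤ c) :
    nrm (D.f (u, t, w)) ≤ Real.exp c ↔ t ≤ c := by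
  rcases hc with hc | hc
  · rcases lt_or_ge 0 t with h | h
    · constructor
      · intro h1
        have h2 := D.one_lt_nrm_f hu hw h
        have h3 := Real.exp_le_one_iff.2 hc
        linarith
      · intro h1
        linarith
    · rw [D.nrm_f_of_nonpos hu hw h, Real.exp_le_exp]
  · rcases lt_or_ge t 1 with h | h
    · constructor
      · intro _
        linarith
      · intro _
        exact (D.nrm_f_lt_exp_one hu hw h).le.trans (Real.exp_le_exp.2 hc)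
    · rw [D.nrm_f_of_one_le hu hw h, Real.exp_le_exp]

theorem le_nrm_f_iff (hu : ‖u‖ = 1) (hw : ‖w‖ ≤ 1) (hc : c ≤ 0 ∨ 1 ≤ c) :
    Real.exp c ≤ nrm (D.f (u, t, w)) ↔ c ≤ t := by
  rcases hc with hc | hc
  · rcases lt_or_ge 0 t with h | h
    · constructor
      · intro _
        linarith
      · intro _
        have h2 := D.one_lt_nrm_f hu hw h
        have h3 := Real.exp_le_one_iff.2 hc
        linarith
    · rw [D.nrm_f_of_nonpos hu hw h, Real.exp_le_exp]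
  · rcases lt_or_ge t 1 with h | h
    · constructor
      · intro h1
        have h2 := D.nrm_f_lt_exp_one hu hw h
        have h3 := Real.exp_le_exp.2 hc
        linarith
      · intro h1
        linarith
    · rw [D.nrm_f_of_one_le hu hw h, Real.exp_le_exp]

theorem nrm_f_lt_iff (hu : ‖u‖ = 1) (hw : ‖w‖ ≤ 1) (hc : c ≤ 0 ∨ 1 ≤ c) :
    nrm (D.f (u, t, w)) < Real.exp c ↔ t < c := by
  rw [← not_le, D.le_nrm_f_iff hu hw hc, not_le]

theorem lt_nrm_f_iff (hu : ‖u‖ = 1) (hw : ‖w‖ ≤ 1) (hc : c ≤ 0 ∨ 1 ≤ c) :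
    Real.exp c < nrm (D.f (u, t, w)) ↔ c < t := by
  rw [← not_le, D.nrm_f_le_iff hu hw hc, not_le]

/-! ### Coordinates on the closed tube -/

/-- the closed tube of radius `1` -/
def Tb : Set (ℂ × ℂ) := D.f '' Dom

/-- coordinates on the closed tube: the inverse of `f` -/
noncomputable def co (z : ℂ × ℂ) : ℂ × ℝ × ℂ := Function.invFunOn D.f Dom z

variable {D} {z : ℂ × ℂ}

theorem co_mem (hz : z ∈ D.Tb) : D.co z ∈ Dom := Function.invFunOn_mem hz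
theorem f_co (hz : z ∈ D.Tb) : D.f (D.co z) = z := Function.invFunOn_eq hz
variable (D)
theorem co_f {p : ℂ × ℝ × ℂ} (hp : p ∈ Dom) : D.co (D.f p) = p :=
  D.inj.leftInvOn_invFunOn hp
theorem f_mem {p : ℂ × ℝ × ℂ} (hp : p ∈ Dom) : D.f p ∈ D.Tb := mem_image_of_mem _ hp

theorem Tb_ne_zero (hz : z ∈ D.Tb) : z ≠ 0 := by
  obtain ⟨⟨u, t, w⟩, ⟨hu, hw⟩, rfl⟩ := hz
  exact D.f_ne_zero hu hw

/-- for `a ≤ 0`, `1 ≤ b` the part of the tube between the levels `a`, `b` -/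
theorem image_Domab {a b : ℝ} (ha : a ≤ 0) (hb : 1 ≤ b) :
    D.f '' Domab a b = D.Tb ∩ {z | Real.exp a ≤ nrm z ∧ nrm z ≤ Real.exp b} := by
  ext z
  constructor
  · rintro ⟨⟨u, t, w⟩, ⟨⟨hu, hw⟩, h1, h2⟩, rfl⟩
    exact ⟨⟨_, ⟨hu, hw⟩, rfl⟩, (D.le_nrm_f_iff hu hw (Or.inl ha)).2 h1,
      (D.nrm_f_le_iff hu hw (Or.inr hb)).2 h2⟩
  · rintro ⟨⟨⟨u, t, w⟩, ⟨hu, hw⟩, rfl⟩, h1, h2⟩
    exact ⟨⟨u, t, w⟩, ⟨⟨hu, hw⟩, (D.le_nrm_f_iff hu hw (Or.inl ha)).1 h1,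
      (D.nrm_f_le_iff hu hw (Or.inr hb)).1 h2⟩, rfl⟩

/-- every nonzero point has a compact shell as neighbourhood -/
theorem exists_shell (hz : z ≠ 0) : ∃ a b : ℝ, a ≤ 0 ∧ 1 ≤ b ∧
    {z : ℂ × ℂ | Real.exp a < nrm z ∧ nrm z < Real.exp b} ∈ 𝓝 z := by
  have h0 := nrm_pos.2 hz
  refine ⟨min 0 (Real.log (nrm z) - 1), max 1 (Real.log (nrm z) + 1), min_le_left _ _,
    le_max_left _ _, ?_⟩
  refine IsOpen.mem_nhds ?_ ?_
  · exact (isOpen_lt continuous_const continuous_nrm).inter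
      (isOpen_lt continuous_nrm continuous_const)
  · constructor
    · rw [← Real.lt_log_iff_exp_lt h0]
      exact (min_le_right _ _).trans_lt (by linarith)
    · rw [← Real.log_lt_iff_lt_exp h0]
      exact (by linarith : Real.log (nrm z) < Real.log (nrm z) + 1).trans_le (le_max_right _ _)

/-- images of closed sets of parameters are closed in `ℂ² ∖ 0` -/
theorem isOpen_compl_image {C : Set (ℂ × ℝ × ℂ)} (hC : IsClosed C) (hCD : C ⊆ Dom) :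
    IsOpen {z | z ≠ 0 ∧ z ∉ D.f '' C} := by
  rw [isOpen_iff_mem_nhds]
  rintro z ⟨hz, hzC⟩
  obtain ⟨a, b, ha, hb, hn⟩ := exists_shell hz
  have hcomp : IsCompact (D.f '' (C ∩ Domab a b)) :=
    ((isCompact_Domab a b).inter_left hC).image_of_continuousOn
      (D.cont.mono fun p hp => hCD hp.1)
  have h1 : (D.f '' (C ∩ Domab a b))ᶜ ∈ 𝓝 z :=
    hcomp.isClosed.isOpen_compl.mem_nhds fun h => hzC (image_mono inter_subset_left h)
  filter_upwards [hn, h1, isOpen_ne.mem_nhds hz] with y hy1 hy2 hy3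
  refine ⟨hy3, ?_⟩
  rintro ⟨⟨u, t, w⟩, hp, rfl⟩
  refine hy2 ⟨_, ⟨hp, hCD hp, ?_⟩, rfl⟩
  exact ⟨(D.le_nrm_f_iff (hCD hp).1 (hCD hp).2 (Or.inl ha)).1 hy1.1.le,
    (D.nrm_f_le_iff (hCD hp).1 (hCD hp).2 (Or.inr hb)).1 hy1.2.le⟩

/-- the coordinates are continuous on the closed tube -/
theorem continuousOn_co : ContinuousOn D.co D.Tb := by
  intro z hz
  obtain ⟨a, b, ha, hb, hn⟩ := exists_shell (D.Tb_ne_zero hz)
  have hc : ContinuousOn D.co (D.f '' Domab a b) := by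
    rw [continuousOn_iff_isClosed]
    intro C hC
    refine ⟨D.f '' (C ∩ Domab a b), ?_, ?_⟩
    · exact (((isCompact_Domab a b).inter_left hC).image_of_continuousOn
        (D.cont.mono fun p hp => hp.2.1)).isClosed
    · ext y
      constructor
      · rintro ⟨hy, p, hp, rfl⟩
        rw [mem_preimage, D.co_f hp.1] at hy
        exact ⟨⟨p, ⟨hy, hp⟩, rfl⟩, p, hp, rfl⟩
      · rintro ⟨⟨p, ⟨hp1, hp2⟩, rfl⟩, h⟩
        refine ⟨?_, h⟩
        rw [mem_preimage, D.co_f hp2.1]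
        exact hp1
  have h1 : D.f '' Domab a b ∈ 𝓝[D.Tb] z := by
    rw [D.image_Domab ha hb]
    refine Filter.inter_mem self_mem_nhdsWithin ?_
    refine mem_nhdsWithin_of_mem_nhds (Filter.mem_of_superset hn ?_)
    intro y hy
    exact ⟨hy.1.le, hy.2.le⟩
  have h2 : z ∈ D.f '' Domab a b := mem_of_mem_nhdsWithin hz h1
  have h3 := hc z h2
  exact h3.mono_of_mem_nhdsWithin h1

/-! ### Invariance of domain -/

theorem isOpen_N_aux {r : ℝ} (hr1 : r ≤ 1) : IsOpen (D.N r) := by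
  rw [isOpen_iff_mem_nhds]
  rintro _ ⟨u, t, w, hu, hw, rfl⟩
  obtain ⟨θ, rfl⟩ : ∃ θ : ℝ, Complex.exp (θ * Complex.I) = u := by
    refine ⟨u.arg, ?_⟩
    have := Complex.norm_mul_exp_arg_mul_I u
    rwa [hu, Complex.ofReal_one, one_mul] at this
  let φ : WithLp 2 (ℂ × ℂ) ≃L[ℝ] ℂ × ℂ := WithLp.prodContinuousLinearEquiv 2 ℝ ℂ ℂ
  let P : WithLp 2 (ℂ × ℂ) → ℂ × ℝ × ℂ := fun x =>
    (Complex.exp ((φ x).1.re * Complex.I), (φ x).1.im, (φ x).2)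
  have hPc : Continuous P := by
    have := φ.continuous
    fun_prop
  let x0 : WithLp 2 (ℂ × ℂ) := φ.symm (⟨θ, t⟩, w)
  have hφ0 : φ x0 = (⟨θ, t⟩, w) := φ.apply_symm_apply _
  have hlip : ∀ x y, ‖(φ x).1 - (φ y).1‖ ≤ ‖x - y‖ ∧ ‖(φ x).2 - (φ y).2‖ ≤ ‖x - y‖ := by
    intro x y
    have h1 : ‖x - y‖ = Real.sqrt (‖(φ x).1 - (φ y).1‖ ^ 2 + ‖(φ x).2 - (φ y).2‖ ^ 2) :=
      WithLp.prod_norm_eq_of_L2 (x - y)
    rw [h1]
    constructor
    · exact Real.le_sqrt_of_sq_le (by nlinarith [sq_nonneg ‖(φ x).2 - (φ y).2‖])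
    · exact Real.le_sqrt_of_sq_le (by nlinarith [sq_nonneg ‖(φ x).1 - (φ y).1‖])
  obtain ⟨δ, hδ0, hδ1, hδ2⟩ : ∃ δ > 0, δ ≤ 1 ∧ ‖w‖ + δ < r := by
    refine ⟨min 1 ((r - ‖w‖) / 2), lt_min one_pos (by linarith), min_le_left _ _, ?_⟩
    have := min_le_right 1 ((r - ‖w‖) / 2)
    linarith
  have hin : ∀ x ∈ Metric.closedBall x0 δ, ‖(P x).2.2‖ < r := by
    intro x hx
    rw [mem_closedBall_iff_norm] at hx
    have h1 := (hlip x x0).2.trans hx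
    rw [hφ0] at h1
    have h2 := norm_le_norm_add_norm_sub' (φ x).2 w
    show ‖(φ x).2‖ < r
    simp only at h1
    linarith
  have hD : ∀ x ∈ Metric.closedBall x0 δ, P x ∈ Dom := by
    intro x hx
    exact ⟨Complex.norm_exp_ofReal_mul_I _, (hin x hx).le.trans hr1⟩
  have key := Pool.Agent.H815.HF.InvDom.image_mem_nhds (fun x => φ.symm (D.f (P x))) x0 δ hδ0
    ?_ ?_
  · have h1 : (fun x => D.f (P x)) '' Metric.closedBall x0 δ ∈ 𝓝 (D.f (P x0)) := by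
      have h2 := φ.symm.continuous.continuousAt.preimage_mem_nhds key
      refine Filter.mem_of_superset h2 ?_
      rintro y ⟨x, hx, hxy⟩
      exact ⟨x, hx, φ.symm.injective hxy⟩
    have h2 : P x0 = (Complex.exp (θ * Complex.I), t, w) := by
      show (Complex.exp ((φ x0).1.re * Complex.I), (φ x0).1.im, (φ x0).2) = _
      rw [hφ0]
    rw [h2] at h1
    refine Filter.mem_of_superset h1 ?_
    rintro _ ⟨x, hx, rfl⟩
    exact ⟨_, _, _, (hD x hx).1, hin x hx, rfl⟩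
  · exact φ.symm.continuous.comp_continuousOn (D.cont.comp hPc.continuousOn hD)
  · intro x hx y hy hxy
    have h1 := D.inj (hD x hx) (hD y hy) (φ.symm.injective hxy)
    have h2 : Complex.exp ((φ x).1.re * Complex.I) = Complex.exp ((φ y).1.re * Complex.I) :=
      congrArg (fun p : ℂ × ℝ × ℂ => p.1) h1
    have h3 : (φ x).1.im = (φ y).1.im := congrArg (fun p : ℂ × ℝ × ℂ => p.2.1) h1
    have h4 : (φ x).2 = (φ y).2 := congrArg (fun p : ℂ × ℝ × ℂ => p.2.2) h1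
    have h5 : ‖(φ x).1 - (φ y).1‖ ≤ 2 := by
      refine (hlip x y).1.trans ?_
      have e : x - y = (x - x0) - (y - x0) := by abel
      rw [e]
      refine (norm_sub_le _ _).trans ?_
      rw [mem_closedBall_iff_norm] at hx hy
      linarith
    have h6 : (φ x).1.re = (φ y).1.re := by
      obtain ⟨n, hn⟩ := Complex.exp_eq_exp_iff_exists_int.1 h2
      have h7 : (φ x).1.re = (φ y).1.re + n * (2 * Real.pi) := by
        have := congrArg Complex.im hn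
        simpa using this
      have h8 := (Complex.abs_re_le_norm _).trans h5
      rw [Complex.sub_re, h7, add_sub_cancel_left, abs_mul, abs_of_pos Real.two_pi_pos] at h8
      have h9 : n = 0 := by
        by_contra hne
        have h10 : (1:ℝ) ≤ |(n:ℝ)| := by
          rw [← Int.cast_abs]
          exact_mod_cast Int.one_le_abs hne
        nlinarith [Real.pi_gt_three]
      rw [h7, h9]
      simp
    apply φ.injective
    exact Prod.ext (Complex.ext h6 h3) h4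

/-! ### Open and closed tubes through the coordinates -/

/-- closed tube of radius `r` -/
def Nc (r : ℝ) : Set (ℂ × ℂ) := {z | ∃ u t w, ‖u‖ = 1 ∧ ‖w‖ ≤ r ∧ z = D.f (u, t, w)}

variable {r : ℝ}

theorem mem_N_iff (hr1 : r ≤ 1) : z ∈ D.N r ↔ z ∈ D.Tb ∧ ‖(D.co z).2.2‖ < r := by
  constructor
  · rintro ⟨u, t, w, hu, hw, rfl⟩
    have hp : ((u, t, w) : ℂ × ℝ × ℂ) ∈ Dom := ⟨hu, hw.le.trans hr1⟩
    refine ⟨D.f_mem hp, ?_⟩
    rw [D.co_f hp]
    exact hw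
  · rintro ⟨hz, h⟩
    exact ⟨_, _, _, (co_mem hz).1, h, (f_co hz).symm⟩

theorem mem_Nc_iff (hr1 : r ≤ 1) : z ∈ D.Nc r ↔ z ∈ D.Tb ∧ ‖(D.co z).2.2‖ ≤ r := by
  constructor
  · rintro ⟨u, t, w, hu, hw, rfl⟩
    have hp : ((u, t, w) : ℂ × ℝ × ℂ) ∈ Dom := ⟨hu, hw.trans hr1⟩
    refine ⟨D.f_mem hp, ?_⟩
    rw [D.co_f hp]
    exact hw
  · rintro ⟨hz, h⟩
    exact ⟨_, _, _, (co_mem hz).1, h, (f_co hz).symm⟩

theorem f_mem_N_iff (hr1 : r ≤ 1) {p : ℂ × ℝ × ℂ} (hp : p ∈ Dom) :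
    D.f p ∈ D.N r ↔ ‖p.2.2‖ < r := by
  rw [D.mem_N_iff hr1, D.co_f hp]
  exact ⟨fun h => h.2, fun h => ⟨D.f_mem hp, h⟩⟩

theorem f_mem_Nc_iff (hr1 : r ≤ 1) {p : ℂ × ℝ × ℂ} (hp : p ∈ Dom) :
    D.f p ∈ D.Nc r ↔ ‖p.2.2‖ ≤ r := by
  rw [D.mem_Nc_iff hr1, D.co_f hp]
  exact ⟨fun h => h.2, fun h => ⟨D.f_mem hp, h⟩⟩

theorem mem_core_iff : z ∈ D.core ↔ z ∈ D.Tb ∧ (D.co z).2.2 = 0 := by
  constructor
  · rintro ⟨u, t, hu, rfl⟩
    have hp : ((u, t, 0) : ℂ × ℝ × ℂ) ∈ Dom := ⟨hu, by simp⟩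
    refine ⟨D.f_mem hp, ?_⟩
    rw [D.co_f hp]
  · rintro ⟨hz, h⟩
    refine ⟨(D.co z).1, (D.co z).2.1, (co_mem hz).1, ?_⟩
    nth_rw 1 [← f_co hz]
    congr 1
    exact Prod.ext rfl (Prod.ext rfl h)

theorem f_mem_core_iff {p : ℂ × ℝ × ℂ} (hp : p ∈ Dom) : D.f p ∈ D.core ↔ p.2.2 = 0 := by
  rw [D.mem_core_iff, D.co_f hp]
  exact ⟨fun h => h.2, fun h => ⟨D.f_mem hp, h⟩⟩

theorem f_mem_O_iff {p : ℂ × ℝ × ℂ} (hp : p ∈ Dom) : D.f p ∈ D.O ↔ p.2.2 ≠ 0 := by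
  have h := D.f_mem_core_iff hp
  constructor
  · intro h1 h2
    exact h1.2 (h.2 h2)
  · intro h1
    exact ⟨D.Tb_ne_zero (D.f_mem hp), fun h2 => h1 (h.1 h2)⟩

theorem Nc_one : D.Nc 1 = D.Tb := by
  ext z
  rw [D.mem_Nc_iff le_rfl]
  exact ⟨fun h => h.1, fun h => ⟨h, (co_mem h).2⟩⟩

theorem N_subset_Nc (r : ℝ) : D.N r ⊆ D.Nc r := by
  rintro z ⟨u, t, w, hu, hw, rfl⟩
  exact ⟨u, t, w, hu, hw.le, rfl⟩

theorem core_subset_N (hr : 0 < r) : D.core ⊆ D.N r := by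
  rintro z ⟨u, t, hu, rfl⟩
  exact ⟨u, t, 0, hu, by simpa using hr, rfl⟩

theorem isOpen_compl_Nc (hr1 : r ≤ 1) : IsOpen {z | z ≠ 0 ∧ z ∉ D.Nc r} := by
  have h : D.Nc r = D.f '' (Dom ∩ {p | ‖p.2.2‖ ≤ r}) := by
    ext z
    constructor
    · rintro ⟨u, t, w, hu, hw, rfl⟩
      exact ⟨_, ⟨⟨hu, hw.trans hr1⟩, hw⟩, rfl⟩
    · rintro ⟨⟨u, t, w⟩, ⟨⟨hu, -⟩, hw⟩, rfl⟩
      exact ⟨u, t, w, hu, hw, rfl⟩
  rw [h]
  refine D.isOpen_compl_image ?_ inter_subset_left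
  exact isClosed_Dom.inter (isClosed_le (f := fun p : ℂ × ℝ × ℂ => ‖p.2.2‖) (by fun_prop)
    continuous_const)

theorem isOpen_compl_core : IsOpen D.O := by
  have h : D.O = {z | z ≠ 0 ∧ z ∉ D.Nc 0} := by
    ext z
    refine and_congr_right fun _ => not_congr ?_
    constructor
    · rintro ⟨u, t, hu, rfl⟩
      exact ⟨u, t, 0, hu, by simp, rfl⟩
    · rintro ⟨u, t, w, hu, hw, rfl⟩
      rw [norm_le_zero_iff] at hw
      subst hw
      exact ⟨u, t, hu, rfl⟩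
  rw [h]
  exact D.isOpen_compl_Nc zero_le_one

/-! ### Maps supported in the closed tube -/

open Classical in
/-- the map which is `f ∘ Ψ ∘ co` on the closed tube and the identity outside -/
noncomputable def tm (Ψ : ℂ × ℝ × ℂ → ℂ × ℝ × ℂ) (z : ℂ × ℂ) : ℂ × ℂ :=
  if z ∈ D.Tb then D.f (Ψ (D.co z)) else z

variable {Ψ : ℂ × ℝ × ℂ → ℂ × ℝ × ℂ}

theorem tm_of_mem (hz : z ∈ D.Tb) : D.tm Ψ z = D.f (Ψ (D.co z)) := if_pos hz
theorem tm_of_notMem (hz : z ∉ D.Tb) : D.tm Ψ z = z := if_neg hz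
theorem tm_f {p : ℂ × ℝ × ℂ} (hp : p ∈ Dom) : D.tm Ψ (D.f p) = D.f (Ψ p) := by
  rw [D.tm_of_mem (D.f_mem hp), D.co_f hp]

theorem tm_of_fix (hb : z ∈ D.Tb → Ψ (D.co z) = D.co z) : D.tm Ψ z = z := by
  by_cases h : z ∈ D.Tb
  · rw [D.tm_of_mem h, hb h, f_co h]
  · exact D.tm_of_notMem h

/-- continuity of maps supported in the tube, with parameters -/
theorem continuousOn_tm {Y : Type*} [TopologicalSpace Y] {I : Set Y} {A : Set (ℂ × ℝ × ℂ)}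
    {Ψ : Y → ℂ × ℝ × ℂ → ℂ × ℝ × ℂ}
    (hΨ : ContinuousOn (fun p : Y × (ℂ × ℝ × ℂ) => Ψ p.1 p.2) (I ×ˢ A))
    (hm : ∀ y ∈ I, MapsTo (Ψ y) A Dom) (hb : ∀ y ∈ I, ∀ p ∈ A, ‖p.2.2‖ = 1 → Ψ y p = p)
    {S : Set (ℂ × ℂ)} (hS0 : ∀ z ∈ S, z ≠ 0) (hSA : ∀ z ∈ S, z ∈ D.Tb → D.co z ∈ A) :
    ContinuousOn (fun p : Y × (ℂ × ℂ) => D.tm (Ψ p.1) p.2) (I ×ˢ S) := by
  have h1 : ContinuousOn (fun p : Y × (ℂ × ℂ) => D.tm (Ψ p.1) p.2) (I ×ˢ (S ∩ D.Tb)) := by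
    have hA : ContinuousOn (fun p : Y × (ℂ × ℂ) => D.f (Ψ p.1 (D.co p.2))) (I ×ˢ (S ∩ D.Tb)) := by
      refine D.cont.comp (t := Dom) (f := fun p : Y × (ℂ × ℂ) => Ψ p.1 (D.co p.2)) ?_ ?_
      · refine hΨ.comp (f := fun p : Y × (ℂ × ℂ) => (p.1, D.co p.2)) ?_ ?_
        · refine continuousOn_fst.prodMk ?_
          exact D.continuousOn_co.comp continuousOn_snd fun p hp => hp.2.2
        · intro p hp
          exact ⟨hp.1, hSA _ hp.2.1 hp.2.2⟩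
      · intro p hp
        exact hm _ hp.1 (hSA _ hp.2.1 hp.2.2)
    exact hA.congr fun p hp => D.tm_of_mem hp.2.2
  have h2 : ContinuousOn (fun p : Y × (ℂ × ℂ) => D.tm (Ψ p.1) p.2) (I ×ˢ (S \ D.N 1)) := by
    refine continuousOn_snd.congr fun p hp => ?_
    refine D.tm_of_fix fun h => ?_
    refine hb _ hp.1 _ (hSA _ hp.2.1 h) (le_antisymm (co_mem h).2 ?_)
    by_contra hlt
    exact hp.2.2 ((D.mem_N_iff le_rfl).2 ⟨h, not_le.1 hlt⟩)
  rintro ⟨y, z⟩ ⟨hy, hz⟩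
  have hU : I ×ˢ S = (I ×ˢ (S ∩ D.Tb)) ∪ (I ×ˢ (S \ D.N 1)) := by
    rw [← prod_union]
    congr 1
    ext x
    constructor
    · intro hx
      by_cases h : x ∈ D.N 1
      · exact Or.inl ⟨hx, ((D.mem_N_iff le_rfl).1 h).1⟩
      · exact Or.inr ⟨hx, h⟩
    · rintro (h | h)
      · exact h.1
      · exact h.1
  rw [hU]
  refine ContinuousWithinAt.union ?_ ?_
  · by_cases h : z ∈ D.Tb
    · exact h1 _ ⟨hy, hz, h⟩
    · refine continuousWithinAt_of_notMem_closure fun hcl => ?_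
      have h3 : IsOpen {p : Y × (ℂ × ℂ) | p.2 ≠ 0 ∧ p.2 ∉ D.Nc 1} :=
        (D.isOpen_compl_Nc le_rfl).preimage continuous_snd
      obtain ⟨p, hp1, hp2⟩ := mem_closure_iff.1 hcl _ h3 ⟨hS0 z hz, by rwa [D.Nc_one]⟩
      rw [D.Nc_one] at hp1
      exact hp1.2 hp2.2.2
  · by_cases h : z ∈ D.N 1
    · refine continuousWithinAt_of_notMem_closure fun hcl => ?_
      have h3 : IsOpen {p : Y × (ℂ × ℂ) | p.2 ∈ D.N 1} :=
        (D.isOpen_N_aux le_rfl).preimage continuous_snd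
      obtain ⟨p, hp1, hp2⟩ := mem_closure_iff.1 hcl _ h3 h
      exact hp2.2.2 hp1
    · exact h2 _ ⟨hy, hz, h⟩

/-! ### Radial maps -/

/-- radial reparametrisation `w ↦ (g |w| / |w|) w` of the tube coordinates -/
noncomputable def radP (g : ℝ → ℝ) (p : ℂ × ℝ × ℂ) : ℂ × ℝ × ℂ :=
  (p.1, p.2.1, (g ‖p.2.2‖ / ‖p.2.2‖ : ℝ) • p.2.2)

/-- radial reparametrisation of the tube, identity outside -/
noncomputable def rad (g : ℝ → ℝ) (z : ℂ × ℂ) : ℂ × ℂ := D.tm (radP g) z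

variable {g : ℝ → ℝ}

theorem norm_radP {p : ℂ × ℝ × ℂ} (hp : p.2.2 ≠ 0) (h0 : 0 ≤ g ‖p.2.2‖) :
    ‖(radP g p).2.2‖ = g ‖p.2.2‖ := by
  show ‖(g ‖p.2.2‖ / ‖p.2.2‖ : ℝ) • p.2.2‖ = _
  rw [norm_smul, Real.norm_eq_abs, abs_of_nonneg (div_nonneg h0 (norm_nonneg _)),
    div_mul_cancel₀ _ (norm_ne_zero_iff.2 hp)]

theorem radP_of_eq {p : ℂ × ℝ × ℂ} (h : g ‖p.2.2‖ = ‖p.2.2‖) : radP g p = p := by
  obtain ⟨u, t, w⟩ := p
  simp only [radP] at *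
  rw [h]
  by_cases hw : w = 0
  · simp [hw]
  · rw [div_self (norm_ne_zero_iff.2 hw), one_smul]

/-- admissible radial functions -/
def RadOK (g : ℝ → ℝ) : Prop := g 1 = 1 ∧ ∀ ρ ∈ Icc (0:ℝ) 1, g ρ ∈ Icc (0:ℝ) 1

theorem radP_mem (hg : RadOK g) {p : ℂ × ℝ × ℂ} (hp : p ∈ Dom) : radP g p ∈ Dom := by
  refine ⟨hp.1, ?_⟩
  by_cases hw : p.2.2 = 0
  · show ‖(g ‖p.2.2‖ / ‖p.2.2‖ : ℝ) • p.2.2‖ ≤ 1
    simp [hw]
  · have h := hg.2 ‖p.2.2‖ ⟨norm_nonneg _, hp.2⟩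
    rw [norm_radP hw h.1]
    exact h.2

theorem rad_f {p : ℂ × ℝ × ℂ} (hp : p ∈ Dom) : D.rad g (D.f p) = D.f (radP g p) := D.tm_f hp

theorem rad_of_notMem (hz : z ∉ D.Tb) : D.rad g z = z := D.tm_of_notMem hz

theorem rad_of_eq (h : z ∈ D.Tb → g ‖(D.co z).2.2‖ = ‖(D.co z).2.2‖) : D.rad g z = z := by
  by_cases hz : z ∈ D.Tb
  · rw [rad, D.tm_of_mem hz, radP_of_eq (h hz), f_co hz]
  · exact D.rad_of_notMem hz

/-- continuity of radial maps on the complement of the core -/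
theorem continuousOn_rad {Y : Type*} [TopologicalSpace Y] {I : Set Y} {g : Y → ℝ → ℝ}
    (hg : ContinuousOn (fun p : Y × ℝ => g p.1 p.2) (I ×ˢ Icc 0 1)) (hok : ∀ y ∈ I, RadOK (g y)) :
    ContinuousOn (fun p : Y × (ℂ × ℂ) => D.rad (g p.1) p.2) (I ×ˢ D.O) := by
  refine D.continuousOn_tm (A := Dom ∩ {p | p.2.2 ≠ 0}) (Ψ := fun y => radP (g y)) ?_ ?_ ?_ ?_ ?_
  · unfold radP
    have c1 : Continuous fun p : Y × (ℂ × ℝ × ℂ) => p.2.1 := by fun_prop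
    have c2 : Continuous fun p : Y × (ℂ × ℝ × ℂ) => p.2.2.1 := by fun_prop
    have c3 : Continuous fun p : Y × (ℂ × ℝ × ℂ) => p.2.2.2 := by fun_prop
    have c4 : ContinuousOn (fun p : Y × (ℂ × ℝ × ℂ) => (g p.1 ‖p.2.2.2‖ / ‖p.2.2.2‖ : ℝ))
        (I ×ˢ (Dom ∩ {p : ℂ × ℝ × ℂ | p.2.2 ≠ 0})) := ?_
    · exact c1.continuousOn.prodMk (c2.continuousOn.prodMk (c4.smul c3.continuousOn))
    refine ContinuousOn.div ?_ c3.norm.continuousOn ?_
    · refine hg.comp (f := fun p : Y × (ℂ × ℝ × ℂ) => (p.1, ‖p.2.2.2‖))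
        (continuous_fst.prodMk c3.norm).continuousOn ?_
      rintro ⟨y, p⟩ ⟨hy, hp⟩
      exact ⟨hy, norm_nonneg _, hp.1.2⟩
    · rintro ⟨y, p⟩ ⟨hy, hp⟩
      exact norm_ne_zero_iff.2 hp.2
  · intro y hy p hp
    exact radP_mem (hok y hy) hp.1
  · intro y hy p hp h1
    refine radP_of_eq ?_
    rw [h1, (hok y hy).1]
  · intro z hz
    exact hz.1
  · intro z hz hT
    refine ⟨co_mem hT, ?_⟩
    rw [← f_co hT] at hz
    exact (D.f_mem_O_iff (co_mem hT)).1 hz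

/-- radial maps preserve the level sets of the levels `c ≤ 0` and `c ≥ 1` -/
theorem nrm_rad_le_iff (hg : RadOK g) {c : ℝ} (hc : c ≤ 0 ∨ 1 ≤ c) :
    nrm (D.rad g z) ≤ Real.exp c ↔ nrm z ≤ Real.exp c := by
  by_cases hz : z ∈ D.Tb
  · obtain ⟨⟨u, t, w⟩, hp, rfl⟩ := hz
    have h := radP_mem hg hp
    rw [D.rad_f hp, D.nrm_f_le_iff hp.1 hp.2 hc]
    exact D.nrm_f_le_iff h.1 h.2 hc
  · rw [D.rad_of_notMem hz]

theorem le_nrm_rad_iff (hg : RadOK g) {c : ℝ} (hc : c ≤ 0 ∨ 1 ≤ c) :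
    Real.exp c ≤ nrm (D.rad g z) ↔ Real.exp c ≤ nrm z := by
  by_cases hz : z ∈ D.Tb
  · obtain ⟨⟨u, t, w⟩, hp, rfl⟩ := hz
    have h := radP_mem hg hp
    rw [D.rad_f hp, D.le_nrm_f_iff hp.1 hp.2 hc]
    exact D.le_nrm_f_iff h.1 h.2 hc
  · rw [D.rad_of_notMem hz]

theorem rad_ne_zero (hg : RadOK g) (hz : z ≠ 0) : D.rad g z ≠ 0 := by
  by_cases h : z ∈ D.Tb
  · obtain ⟨p, hp, rfl⟩ := h
    rw [D.rad_f hp]
    exact D.Tb_ne_zero (D.f_mem (radP_mem hg hp))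
  · rwa [D.rad_of_notMem h]

/-- the radius of the image point -/
theorem rad_notMem_N (hg : RadOK g) (hr1 : r ≤ 1) (hO : z ∉ D.core)
    (h : z ∈ D.Tb → r ≤ g ‖(D.co z).2.2‖) : D.rad g z ∉ D.N r := by
  by_cases hz : z ∈ D.Tb
  · obtain ⟨p, hp, rfl⟩ := hz
    have h1 := h (D.f_mem hp)
    rw [D.co_f hp] at h1
    rw [D.f_mem_core_iff hp] at hO
    have h2 := hg.2 ‖p.2.2‖ ⟨norm_nonneg _, hp.2⟩
    rw [D.rad_f hp, D.f_mem_N_iff hr1 (radP_mem hg hp), norm_radP hO h2.1]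
    exact not_lt.2 h1
  · rw [D.rad_of_notMem hz]
    exact fun h => hz ((D.mem_N_iff hr1).1 h).1

/-! ### Level maps -/

/-- reparametrisation of the `ℝ`-coordinate `log (nrm z)` -/
noncomputable def lv (h : ℝ → ℝ) (z : ℂ × ℂ) : ℂ × ℂ :=
  Real.exp (h (Real.log (nrm z)) - Real.log (nrm z)) • z

/-- admissible level functions -/
def LvOK (h : ℝ → ℝ) : Prop :=
  (∀ t ≤ 0, h t ≤ 0) ∧ (∀ t, 1 ≤ t → 1 ≤ h t) ∧ ∀ t ∈ Ioo (0:ℝ) 1, h t = t

variable {h : ℝ → ℝ}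

theorem lv_zero (h : ℝ → ℝ) : lv h 0 = 0 := by simp [lv]

theorem nrm_lv (hz : z ≠ 0) : nrm (lv h z) = Real.exp (h (Real.log (nrm z))) := by
  rw [lv, nrm_smul_of_pos (Real.exp_pos _), Real.exp_sub, Real.exp_log (nrm_pos.2 hz),
    div_mul_cancel₀ _ (nrm_pos.2 hz).ne']

theorem lv_ne_zero (hz : z ≠ 0) : lv h z ≠ 0 := by
  rw [← nrm_pos, nrm_lv hz]
  exact Real.exp_pos _

theorem lv_of_eq (hh : h (Real.log (nrm z)) = Real.log (nrm z)) : lv h z = z := by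
  rw [lv, hh, sub_self, Real.exp_zero, one_smul]

theorem lv_f (hh : LvOK h) {p : ℂ × ℝ × ℂ} (hp : p ∈ Dom) :
    lv h (D.f p) = D.f (p.1, h p.2.1, p.2.2) := by
  obtain ⟨u, t, w⟩ := p
  obtain ⟨hu, hw⟩ := hp
  simp only at hu hw ⊢
  rcases le_or_gt t 0 with ht | ht
  · rw [lv, D.nrm_f_of_nonpos hu hw ht, Real.log_exp, D.low u t w hu hw ht, smul_smul,
      ← Real.exp_add, sub_add_cancel, D.low u (h t) w hu hw (hh.1 t ht)]
  · rcases le_or_gt 1 t with ht1 | ht1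
    · rw [lv, D.nrm_f_of_one_le hu hw ht1, Real.log_exp, D.high u t w hu hw ht1, smul_smul,
        ← Real.exp_add, D.high u (h t) w hu hw (hh.2.1 t ht1)]
      congr 2
      ring
    · have h1 := D.mid u t w hu hw ht ht1
      have h0 : 0 < nrm (D.f (u, t, w)) := zero_lt_one.trans h1.1
      rw [hh.2.2 t ⟨ht, ht1⟩]
      refine lv_of_eq (hh.2.2 _ ⟨Real.log_pos h1.1, ?_⟩)
      exact (Real.log_lt_iff_lt_exp h0).2 h1.2

/-- level maps preserve the tube and its complement -/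
theorem lv_mem_Tb_iff (hh : LvOK h) (hz : z ≠ 0) : lv h z ∈ D.Tb ↔ z ∈ D.Tb := by
  constructor
  · intro hT
    have h0 := nrm_pos.2 hz
    obtain ⟨⟨u, t, w⟩, ⟨hu, hw⟩, hp⟩ := hT
    simp only at hu hw
    have hn := nrm_lv (h := h) hz
    rw [← hp] at hn
    set l := Real.log (nrm z) with hl
    have hzl : z = Real.exp (l - h l) • D.f (u, t, w) := by
      rw [hp, lv, smul_smul, ← Real.exp_add, ← hl]
      simp
    rcases le_or_gt l 0 with hl0 | hl0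
    · have h1 : t = h l := by
        have h2 : h l ≤ 0 := hh.1 l hl0
        have h3 : t ≤ h l := (D.nrm_f_le_iff hu hw (Or.inl h2)).1 hn.le
        have h4 : h l ≤ t := (D.le_nrm_f_iff hu hw (Or.inl h2)).1 hn.ge
        exact le_antisymm h3 h4
      have h2 : t ≤ 0 := h1 ▸ hh.1 l hl0
      refine ⟨(u, l, w), ⟨hu, hw⟩, ?_⟩
      rw [hzl, D.low u t w hu hw h2, smul_smul, ← Real.exp_add, ← h1, sub_add_cancel,
        D.low u l w hu hw hl0]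
    · rcases le_or_gt 1 l with hl1 | hl1
      · have h1 : t = h l := by
          have h2 : 1 ≤ h l := hh.2.1 l hl1
          have h3 : t ≤ h l := (D.nrm_f_le_iff hu hw (Or.inr h2)).1 hn.le
          have h4 : h l ≤ t := (D.le_nrm_f_iff hu hw (Or.inr h2)).1 hn.ge
          exact le_antisymm h3 h4
        have h2 : 1 ≤ t := h1 ▸ hh.2.1 l hl1
        refine ⟨(u, l, w), ⟨hu, hw⟩, ?_⟩
        rw [hzl, D.high u t w hu hw h2, smul_smul, ← Real.exp_add, ← h1,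
          D.high u l w hu hw hl1]
        congr 2
        ring
      · have h1 : h l = l := hh.2.2 l ⟨hl0, hl1⟩
        rw [h1, sub_self, Real.exp_zero, one_smul] at hzl
        exact ⟨_, ⟨hu, hw⟩, hzl.symm⟩
  · intro hT
    rw [← f_co hT, D.lv_f hh (co_mem hT)]
    exact D.f_mem ⟨(co_mem hT).1, (co_mem hT).2⟩

theorem co_lv (hh : LvOK h) (hz : z ∈ D.Tb) :
    D.co (lv h z) = ((D.co z).1, h (D.co z).2.1, (D.co z).2.2) := by
  have h1 : lv h z = D.f ((D.co z).1, h (D.co z).2.1, (D.co z).2.2) := by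
    conv_lhs => rw [← f_co hz]
    exact D.lv_f hh (co_mem hz)
  rw [h1]
  exact D.co_f ⟨(co_mem hz).1, (co_mem hz).2⟩

theorem lv_mem_N_iff (hh : LvOK h) (hz : z ≠ 0) (hr1 : r ≤ 1) : lv h z ∈ D.N r ↔ z ∈ D.N r := by
  rw [D.mem_N_iff hr1, D.mem_N_iff hr1, D.lv_mem_Tb_iff hh hz]
  refine and_congr_right fun hT => ?_
  rw [D.co_lv hh hT]

theorem lv_mem_Nc_iff (hh : LvOK h) (hz : z ≠ 0) (hr1 : r ≤ 1) :
    lv h z ∈ D.Nc r ↔ z ∈ D.Nc r := by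
  rw [D.mem_Nc_iff hr1, D.mem_Nc_iff hr1, D.lv_mem_Tb_iff hh hz]
  refine and_congr_right fun hT => ?_
  rw [D.co_lv hh hT]

theorem lv_mem_core_iff (hh : LvOK h) (hz : z ≠ 0) : lv h z ∈ D.core ↔ z ∈ D.core := by
  rw [D.mem_core_iff, D.mem_core_iff, D.lv_mem_Tb_iff hh hz]
  refine and_congr_right fun hT => ?_
  rw [D.co_lv hh hT]

/-- continuity of level maps -/
theorem continuousOn_lv {Y : Type*} [TopologicalSpace Y] {I : Set Y} {h : Y → ℝ → ℝ}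
    (hh : ContinuousOn (fun p : Y × ℝ => h p.1 p.2) (I ×ˢ univ)) :
    ContinuousOn (fun p : Y × (ℂ × ℂ) => lv (h p.1) p.2) (I ×ˢ {z | z ≠ 0}) := by
  have hlog : ContinuousOn (fun p : Y × (ℂ × ℂ) => Real.log (nrm p.2)) (I ×ˢ {z | z ≠ 0}) := by
    refine ContinuousOn.log ?_ ?_
    · have : Continuous fun p : Y × (ℂ × ℂ) => nrm p.2 := continuous_nrm.comp continuous_snd
      exact this.continuousOn
    · rintro p ⟨-, hp⟩
      exact (nrm_pos.2 hp).ne'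
  have h2 : ContinuousOn (fun p : Y × (ℂ × ℂ) => h p.1 (Real.log (nrm p.2)))
      (I ×ˢ {z : ℂ × ℂ | z ≠ 0}) :=
    hh.comp (f := fun p : Y × (ℂ × ℂ) => (p.1, Real.log (nrm p.2)))
      (continuousOn_fst.prodMk hlog) fun p hp => ⟨hp.1, mem_univ _⟩
  exact (Real.continuous_exp.comp_continuousOn (h2.sub hlog)).smul continuousOn_snd

/-! ### The standard push of `O` onto an exterior -/

/-- clamp to `[0,1]` -/
noncomputable def c01 (s : ℝ) : ℝ := max 0 (min s 1)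

theorem c01_mem (s : ℝ) : c01 s ∈ Icc (0:ℝ) 1 :=
  ⟨le_max_left _ _, max_le zero_le_one (min_le_right _ _)⟩

theorem c01_of_mem {s : ℝ} (hs : s ∈ Icc (0:ℝ) 1) : c01 s = s := by
  rw [c01, min_eq_left hs.2, max_eq_right hs.1]

theorem continuous_c01 : Continuous c01 := by
  unfold c01
  fun_prop

/-- interpolated radial function, from the identity to `max r` -/
noncomputable def gP (r s ρ : ℝ) : ℝ := ρ + c01 s * (max r ρ - ρ)

/-- interpolated level function, from the identity to the clamp to `[-a, 1 + a]` -/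
noncomputable def hP (a s t : ℝ) : ℝ := t + c01 s * (max (-a) (min t (1 + a)) - t)

/-- the standard push: radially out of the tube of radius `r` and towards the levels
between `-a` and `1 + a` -/
noncomputable def pushK (a r s : ℝ) (z : ℂ × ℂ) : ℂ × ℂ := lv (hP a s) (D.rad (gP r s) z)

variable {a a' r' s ρ : ℝ}

theorem le_gP : ρ ≤ gP r s ρ := by
  have h := (c01_mem s).1
  have h1 := le_max_right r ρ
  unfold gP
  nlinarith

theorem gP_le : gP r s ρ ≤ max r ρ := by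
  have h := (c01_mem s).2
  have h1 := le_max_right r ρ
  unfold gP
  nlinarith

theorem gP_of_le (h : r ≤ ρ) : gP r s ρ = ρ := by
  unfold gP
  rw [max_eq_right h]
  ring

theorem radOK_gP (hr1 : r ≤ 1) (s : ℝ) : RadOK (gP r s) :=
  ⟨gP_of_le hr1, fun _ hρ => ⟨hρ.1.trans le_gP, gP_le.trans (max_le hr1 hρ.2)⟩⟩

theorem hP_of_mem {t : ℝ} (h : t ∈ Icc (-a) (1 + a)) : hP a s t = t := by
  unfold hP
  rw [min_eq_left h.2, max_eq_right h.1]
  ring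

/-- `hP` preserves all intervals containing `[-a, 1 + a]` -/
theorem hP_mem_Icc {b c t : ℝ} (ha : 0 ≤ a) (hb : b ≤ -a) (hc : 1 + a ≤ c) (ht : t ∈ Icc b c) :
    hP a s t ∈ Icc b c := by
  have h := c01_mem s
  have h1 : -a ≤ max (-a) (min t (1 + a)) := le_max_left _ _
  have h2 : max (-a) (min t (1 + a)) ≤ 1 + a := max_le (by linarith) (min_le_right _ _)
  unfold hP
  have h3 := h.1
  have h4 := h.2
  obtain ⟨h5, h6⟩ := ht
  constructor <;> nlinarith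

theorem hP_one_mem (ha : 0 ≤ a) (t : ℝ) : hP a 1 t ∈ Icc (-a) (1 + a) := by
  have h : c01 1 = 1 := c01_of_mem ⟨zero_le_one, le_rfl⟩
  unfold hP
  rw [h, one_mul, add_sub_cancel]
  exact ⟨le_max_left _ _, max_le (by linarith) (min_le_right _ _)⟩

theorem lvOK_hP (ha : 0 ≤ a) (s : ℝ) : LvOK (hP a s) := by
  have h := c01_mem s
  refine ⟨fun t ht => ?_, fun t ht => ?_, fun t ht => hP_of_mem ⟨by linarith [ht.1],
    by linarith [ht.2]⟩⟩
  · have h1 : max (-a) (min t (1 + a)) ≤ 0 := max_le (by linarith) ((min_le_left _ _).trans ht)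
    unfold hP
    nlinarith [h.1, h.2]
  · have h1 : 1 ≤ max (-a) (min t (1 + a)) := le_max_of_le_right (le_min ht (by linarith))
    unfold hP
    nlinarith [h.1, h.2]

theorem pushK_zero (a r : ℝ) (z : ℂ × ℂ) : D.pushK a r 0 z = z := by
  have h : c01 0 = 0 := c01_of_mem ⟨le_rfl, zero_le_one⟩
  have h1 : D.rad (gP r 0) z = z := D.rad_of_eq fun _ => by simp [gP, h]
  rw [pushK, h1]
  exact lv_of_eq (by simp [hP, h])

theorem rad_mem_O (hg : RadOK g) (hpos : ∀ ρ, 0 < ρ → ρ ≤ 1 → 0 < g ρ) (hz : z ∈ D.O) :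
    D.rad g z ∈ D.O := by
  by_cases h : z ∈ D.Tb
  · obtain ⟨p, hp, rfl⟩ := h
    rw [D.f_mem_O_iff hp] at hz
    rw [D.rad_f hp, D.f_mem_O_iff (radP_mem hg hp)]
    have h1 := hpos ‖p.2.2‖ (norm_pos_iff.2 hz) hp.2
    have h2 := norm_radP (g := g) hz h1.le
    rw [← norm_pos_iff, h2]
    exact h1
  · rwa [D.rad_of_notMem h]

theorem gP_pos (hρ : 0 < ρ) : 0 < gP r s ρ := hρ.trans_le le_gP

theorem lv_mem_O (hh : LvOK h) (hz : z ∈ D.O) : lv h z ∈ D.O :=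
  ⟨lv_ne_zero hz.1, fun hc => hz.2 ((D.lv_mem_core_iff hh hz.1).1 hc)⟩

theorem pushK_mem_O (ha : 0 ≤ a) (hr1 : r ≤ 1) (hz : z ∈ D.O) : D.pushK a r s z ∈ D.O :=
  D.lv_mem_O (lvOK_hP ha s) (D.rad_mem_O (radOK_gP hr1 s) (fun _ h _ => gP_pos h) hz)

theorem mem_Xar_iff : z ∈ D.Xar a r ↔
    Real.exp (-a) ≤ nrm z ∧ nrm z ≤ Real.exp (1 + a) ∧ z ∉ D.N r := by
  constructor
  · rintro ⟨⟨h1, h2⟩, h3⟩
    exact ⟨h1, h2, h3⟩
  · rintro ⟨h1, h2, h3⟩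
    exact ⟨⟨h1, h2⟩, h3⟩

theorem Xar_subset_O_aux (hr : 0 < r) : D.Xar a r ⊆ D.O := by
  rintro z ⟨⟨h1, -⟩, h2⟩
  exact ⟨nrm_pos.1 ((Real.exp_pos _).trans_le h1), fun h => h2 (D.core_subset_N hr h)⟩

/-- criterion for a composite of a level map and a radial map to land in an exterior -/
theorem lv_rad_mem_Xar (hg : RadOK g) (hh : LvOK h) (hz : z ∈ D.O) (hr1 : r ≤ 1)
    (h1 : z ∈ D.Tb → r ≤ g ‖(D.co z).2.2‖)
    (h2 : h (Real.log (nrm (D.rad g z))) ∈ Icc (-a) (1 + a)) :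
    lv h (D.rad g z) ∈ D.Xar a r := by
  have h0 : D.rad g z ≠ 0 := D.rad_ne_zero hg hz.1
  rw [D.mem_Xar_iff, nrm_lv h0, Real.exp_le_exp, Real.exp_le_exp, D.lv_mem_N_iff hh h0 hr1]
  exact ⟨h2.1, h2.2, D.rad_notMem_N hg hr1 hz.2 h1⟩

/-- the push preserves larger exteriors -/
theorem pushK_mem_Xar (ha : 0 ≤ a) (haa : a ≤ a') (hr' : 0 < r') (hrr : r' ≤ r) (hr1 : r ≤ 1)
    (hz : z ∈ D.Xar a' r') : D.pushK a r s z ∈ D.Xar a' r' := by
  have hg := radOK_gP hr1 s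
  refine D.lv_rad_mem_Xar hg (lvOK_hP ha s) (D.Xar_subset_O_aux hr' hz)
    (hrr.trans hr1) ?_ ?_
  · intro hT
    refine le_trans ?_ le_gP
    by_contra hlt
    exact hz.2 ((D.mem_N_iff (hrr.trans hr1)).2 ⟨hT, not_le.1 hlt⟩)
  · have h0 : 0 < nrm (D.rad (gP r s) z) :=
      nrm_pos.2 (D.rad_ne_zero hg (D.Xar_subset_O_aux hr' hz).1)
    refine hP_mem_Icc ha (by linarith) (by linarith) ⟨?_, ?_⟩
    · rw [Real.le_log_iff_exp_le h0, D.le_nrm_rad_iff hg (Or.inl (by linarith))]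
      exact hz.1.1
    · rw [Real.log_le_iff_le_exp h0, D.nrm_rad_le_iff hg (Or.inr (by linarith))]
      exact hz.1.2

/-- at time one the push maps `O` into the exterior -/
theorem pushK_one_mem (ha : 0 ≤ a) (hr1 : r ≤ 1) (hz : z ∈ D.O) :
    D.pushK a r 1 z ∈ D.Xar a r := by
  refine D.lv_rad_mem_Xar (radOK_gP hr1 1) (lvOK_hP ha 1) hz hr1 ?_ (hP_one_mem ha _)
  intro _
  have h : c01 1 = 1 := c01_of_mem ⟨zero_le_one, le_rfl⟩
  unfold gP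
  rw [h, one_mul, add_sub_cancel]
  exact le_max_left _ _

/-- the push fixes the exterior -/
theorem pushK_of_mem (hr1 : r ≤ 1) (hz : z ∈ D.Xar a r) : D.pushK a r s z = z := by
  have h1 : D.rad (gP r s) z = z := by
    refine D.rad_of_eq fun hT => gP_of_le ?_
    by_contra hlt
    exact hz.2 ((D.mem_N_iff hr1).2 ⟨hT, not_le.1 hlt⟩)
  have h0 : 0 < nrm z := (Real.exp_pos _).trans_le hz.1.1
  rw [pushK, h1]
  refine lv_of_eq (hP_of_mem ⟨?_, ?_⟩)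
  · rw [Real.le_log_iff_exp_le h0]
    exact hz.1.1
  · rw [Real.log_le_iff_le_exp h0]
    exact hz.1.2

theorem continuousOn_pushK (a : ℝ) (hr1 : r ≤ 1) :
    ContinuousOn (fun p : ℝ × (ℂ × ℂ) => D.pushK a r p.1 p.2) (univ ×ˢ D.O) := by
  have h1 : ContinuousOn (fun p : ℝ × (ℂ × ℂ) => D.rad (gP r p.1) p.2) (univ ×ˢ D.O) := by
    refine D.continuousOn_rad ?_ fun y _ => radOK_gP hr1 y
    have := continuous_c01
    refine Continuous.continuousOn ?_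
    unfold gP
    fun_prop
  have h2 : ContinuousOn (fun p : ℝ × (ℂ × ℂ) => lv (hP a p.1) p.2)
      (univ ×ˢ {z : ℂ × ℂ | z ≠ 0}) := by
    refine continuousOn_lv ?_
    have := continuous_c01
    refine Continuous.continuousOn ?_
    unfold hP
    fun_prop
  refine h2.comp (f := fun p : ℝ × (ℂ × ℂ) => (p.1, D.rad (gP r p.1) p.2))
    (continuousOn_fst.prodMk h1) ?_
  rintro ⟨s, z⟩ ⟨-, hz⟩
  exact ⟨mem_univ _, D.rad_ne_zero (radOK_gP hr1 s) hz.1⟩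

theorem continuousAt_pushK (a : ℝ) (hr1 : r ≤ 1) (s : ℝ) (hz : z ∈ D.O) :
    ContinuousAt (fun p : ℝ × (ℂ × ℂ) => D.pushK a r p.1 p.2) (s, z) :=
  (D.continuousOn_pushK a hr1).continuousAt
    ((isOpen_univ.prod D.isOpen_compl_core).mem_nhds ⟨mem_univ _, hz⟩)

/-! ### Interior of an exterior -/

theorem interior_Xar (hr : 0 < r) (hr1 : r ≤ 1) : interior (D.Xar a r) =
    {z | Real.exp (-a) < nrm z ∧ nrm z < Real.exp (1 + a) ∧ z ∉ D.Nc r} := by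
  apply Subset.antisymm
  · intro z hz
    have hzX : z ∈ D.Xar a r := interior_subset hz
    have h0 : 0 < nrm z := (Real.exp_pos _).trans_le hzX.1.1
    rw [mem_interior_iff_mem_nhds] at hz
    -- scaling
    have hsc : ∀ᶠ c : ℝ in 𝓝 1, c • z ∈ D.Xar a r := by
      have : ContinuousAt (fun c : ℝ => c • z) 1 := by fun_prop
      refine this.eventually ?_
      simp only [one_smul]
      exact hz
    refine ⟨lt_of_le_of_ne hzX.1.1 ?_, lt_of_le_of_ne hzX.1.2 ?_, ?_⟩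
    · intro h
      obtain ⟨c, hc1, hc2, hc3⟩ : ∃ c : ℝ, c < 1 ∧ 0 < c ∧ c • z ∈ D.Xar a r := by
        have h1 : ∀ᶠ c : ℝ in 𝓝[<] 1, c • z ∈ D.Xar a r := hsc.filter_mono nhdsWithin_le_nhds
        have h2 : ∀ᶠ c : ℝ in 𝓝[<] 1, c < 1 := self_mem_nhdsWithin
        have h3 : ∀ᶠ c : ℝ in 𝓝[<] 1, 0 < c :=
          (lt_mem_nhds zero_lt_one).filter_mono nhdsWithin_le_nhds
        obtain ⟨c, hc⟩ := (h1.and (h2.and h3)).exists
        exact ⟨c, hc.2.1, hc.2.2, hc.1⟩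
      have h4 := hc3.1.1
      rw [nrm_smul_of_pos hc2, h] at h4
      nlinarith
    · intro h
      obtain ⟨c, hc1, hc3⟩ : ∃ c : ℝ, 1 < c ∧ c • z ∈ D.Xar a r := by
        have h1 : ∀ᶠ c : ℝ in 𝓝[>] 1, c • z ∈ D.Xar a r := hsc.filter_mono nhdsWithin_le_nhds
        have h2 : ∀ᶠ c : ℝ in 𝓝[>] 1, 1 < c := self_mem_nhdsWithin
        obtain ⟨c, hc⟩ := (h1.and h2).exists
        exact ⟨c, hc.2, hc.1⟩
      have h4 := hc3.1.2
      rw [nrm_smul_of_pos (by linarith), ← h] at h4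
      nlinarith
    · intro h
      have hT := ((D.mem_Nc_iff hr1).1 h).1
      obtain ⟨u, t, w, hu, hw, rfl⟩ := h
      have hp : ((u, t, w) : ℂ × ℝ × ℂ) ∈ Dom := ⟨hu, hw.trans hr1⟩
      have hwr : ‖w‖ = r := by
        refine le_antisymm hw ?_
        by_contra hlt
        exact hzX.2 ⟨u, t, w, hu, not_le.1 hlt, rfl⟩
      -- move `w` towards the core
      have h1 : Filter.Tendsto (fun c : ℝ => D.f (u, t, c • w)) (𝓝[<] 1) (𝓝 (D.f (u, t, w))) := by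
        have h2 : ContinuousOn (fun c : ℝ => D.f (u, t, c • w)) (Icc 0 1) := by
          refine D.cont.comp (Continuous.continuousOn (by fun_prop)) ?_
          intro c hc
          refine ⟨hu, ?_⟩
          show ‖c • w‖ ≤ 1
          rw [norm_smul, Real.norm_eq_abs, abs_of_nonneg hc.1]
          have := hp.2
          simp only at this
          nlinarith [hc.1, hc.2, norm_nonneg w]
        have h3 := h2 1 ⟨zero_le_one, le_rfl⟩
        unfold ContinuousWithinAt at h3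
        simp only [one_smul] at h3
        refine h3.mono_left ?_
        rw [nhdsWithin_le_iff]
        have h4 : ∀ᶠ c : ℝ in 𝓝[<] 1, 0 < c :=
          (lt_mem_nhds zero_lt_one).filter_mono nhdsWithin_le_nhds
        have h5 : ∀ᶠ c : ℝ in 𝓝[<] 1, c < 1 := self_mem_nhdsWithin
        filter_upwards [h4, h5] with c hc1 hc2
        exact ⟨hc1.le, hc2.le⟩
      have h4 : ∀ᶠ c : ℝ in 𝓝[<] 1, 0 < c :=
        (lt_mem_nhds zero_lt_one).filter_mono nhdsWithin_le_nhds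
      have h5 : ∀ᶠ c : ℝ in 𝓝[<] 1, c < 1 := self_mem_nhdsWithin
      obtain ⟨c, hc⟩ := ((h1.eventually hz).and (h4.and h5)).exists
      refine hc.1.2 ⟨u, t, c • w, hu, ?_, rfl⟩
      rw [norm_smul, Real.norm_eq_abs, abs_of_pos hc.2.1, hwr]
      nlinarith [hc.2.2]
  · refine interior_maximal ?_ ?_
    · rintro z ⟨h1, h2, h3⟩
      exact ⟨⟨h1.le, h2.le⟩, fun h => h3 (D.N_subset_Nc r h)⟩
    · have h1 : {z | Real.exp (-a) < nrm z ∧ nrm z < Real.exp (1 + a) ∧ z ∉ D.Nc r} =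
          {z | Real.exp (-a) < nrm z} ∩ ({z | nrm z < Real.exp (1 + a)} ∩
            {z | z ≠ 0 ∧ z ∉ D.Nc r}) := by
        ext z
        constructor
        · rintro ⟨h1, h2, h3⟩
          exact ⟨h1, h2, nrm_pos.1 ((Real.exp_pos _).trans h1), h3⟩
        · rintro ⟨h1, h2, -, h3⟩
          exact ⟨h1, h2, h3⟩
      rw [h1]
      exact (isOpen_lt continuous_const continuous_nrm).inter
        ((isOpen_lt continuous_nrm continuous_const).inter (D.isOpen_compl_Nc hr1))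

end Tube

end Pool.Agent.Helper60.Geo
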