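import Pool.Agent.Helper60.Geo.TubeBase
import Pool.Agent.Helper60.AS.PD

/-! Part G1: point set topology of the exterior of a tube (invariance of domain, retractions). -/

set_option autoImplicit false

namespace Pool.Agent.Helper60.Geo

open Set AS Topology

namespace Tube

variable (D : Tube)

theorem isOpen_N {r : ℝ} (_hr : 0 < r) (hr1 : r ≤ 1) : IsOpen (D.N r) := D.isOpen_N_aux hr1

theorem isOpen_O : IsOpen D.O := D.isOpen_compl_core

theorem isCompact_Xar {a r : ℝ} (hr : 0 < r) (hr1 : r ≤ 1) : IsCompact (D.Xar a r) :=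
  (isCompact_shell _ _).diff (D.isOpen_N hr hr1)

theorem Xar_subset_O {a r : ℝ} (hr : 0 < r) : D.Xar a r ⊆ D.O := D.Xar_subset_O_aux hr

theorem isCompact_X : IsCompact D.X := D.isCompact_Xar (by norm_num) (by norm_num)

theorem X_subset_O : D.X ⊆ D.O := D.Xar_subset_O (by norm_num)

theorem isClosed_EJ : IsClosed D.EJ :=
  D.isCompact_X.isClosed.inter (isClosed_eq continuous_nrm continuous_const)

theorem isClosed_EK : IsClosed D.EK :=
  D.isCompact_X.isClosed.inter (isClosed_eq continuous_nrm continuous_const)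

theorem isCompact_B : IsCompact D.B := by
  have h : D.B = D.f '' (Domab (-1) 2 ∩ {p | ‖p.2.2‖ = 1/2}) := by
    ext z
    constructor
    · rintro ⟨u, t, w, hu, h1, h2, hw, rfl⟩
      exact ⟨_, ⟨⟨⟨hu, by simp only [hw]; norm_num⟩, h1, h2⟩, hw⟩, rfl⟩
    · rintro ⟨⟨u, t, w⟩, ⟨⟨⟨hu, -⟩, h1, h2⟩, hw⟩, rfl⟩
      exact ⟨u, t, w, hu, h1, h2, hw, rfl⟩
  rw [h]
  refine IsCompact.image_of_continuousOn ?_ (D.cont.mono fun p hp => hp.1.1)
  exact (isCompact_Domab _ _).inter_right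
    (isClosed_eq (f := fun p : ℂ × ℝ × ℂ => ‖p.2.2‖) (by fun_prop) continuous_const)

theorem isClosed_B : IsClosed D.B := D.isCompact_B.isClosed

theorem B_subset : D.B ⊆ D.X := by
  rintro z ⟨u, t, w, hu, h1, h2, hw, rfl⟩
  have hw1 : ‖w‖ ≤ 1 := by rw [hw]; norm_num
  refine ⟨⟨(D.le_nrm_f_iff hu hw1 (Or.inl (by norm_num))).2 h1,
    (D.nrm_f_le_iff hu hw1 (Or.inr (by norm_num))).2 (by linarith)⟩, ?_⟩
  rw [D.f_mem_N_iff (by norm_num) ⟨hu, hw1⟩]
  simp only [hw, lt_self_iff_false, not_false_eq_true]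

theorem EJ_subset : D.EJ ⊆ D.X := inter_subset_left
theorem EK_subset : D.EK ⊆ D.X := inter_subset_left

theorem disj_EJ_EK : Disjoint D.EJ D.EK := by
  rw [Set.disjoint_left]
  rintro z ⟨-, h1⟩ ⟨-, h2⟩
  have h3 : Real.exp (-1) = Real.exp 2 := h1.symm.trans h2
  have := Real.exp_injective h3
  norm_num at this

theorem mem_X_iff {z : ℂ × ℂ} : z ∈ D.X ↔
    Real.exp (-1) ≤ nrm z ∧ nrm z ≤ Real.exp 2 ∧ z ∉ D.N (1/2) := by
  have h : (1:ℝ) + 1 = 2 := by norm_num
  rw [X, mem_Xar_iff, h]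

theorem interior_X : interior D.X =
    {z | Real.exp (-1) < nrm z ∧ nrm z < Real.exp 2 ∧ z ∉ D.Nc (1/2)} := by
  have h : (1:ℝ) + 1 = 2 := by norm_num
  rw [X, D.interior_Xar (by norm_num) (by norm_num), h]

/-- the boundary parts of `X` as the complement of its interior -/
theorem X_diff_interior : D.X \ interior D.X = D.EJ ∪ D.EK ∪ D.B := by
  rw [interior_X]
  ext z
  constructor
  · rintro ⟨hX, hI⟩
    have hX' := D.mem_X_iff.1 hX
    by_cases h1 : nrm z = Real.exp (-1)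
    · exact Or.inl (Or.inl ⟨hX, h1⟩)
    by_cases h2 : nrm z = Real.exp 2
    · exact Or.inl (Or.inr ⟨hX, h2⟩)
    right
    have h3 : z ∈ D.Nc (1/2) := by
      by_contra h3
      exact hI ⟨lt_of_le_of_ne hX'.1 (Ne.symm h1), lt_of_le_of_ne hX'.2.1 h2, h3⟩
    obtain ⟨u, t, w, hu, hw, rfl⟩ := h3
    have hw1 : ‖w‖ ≤ 1 := hw.trans (by norm_num)
    refine ⟨u, t, w, hu, (D.le_nrm_f_iff hu hw1 (Or.inl (by norm_num))).1 hX'.1,
      (D.nrm_f_le_iff hu hw1 (Or.inr (by norm_num))).1 hX'.2.1, le_antisymm hw ?_, rfl⟩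
    by_contra hlt
    exact hX'.2.2 ⟨u, t, w, hu, not_le.1 hlt, rfl⟩
  · rintro ((h | h) | h)
    · refine ⟨h.1, fun hI => ?_⟩
      have h2 : nrm z = Real.exp (-1) := h.2
      exact hI.1.ne' h2
    · refine ⟨h.1, fun hI => ?_⟩
      have h2 : nrm z = Real.exp 2 := h.2
      exact hI.2.1.ne h2
    · refine ⟨D.B_subset h, fun hI => hI.2.2 ?_⟩
      obtain ⟨u, t, w, hu, -, -, hw, rfl⟩ := h
      exact ⟨u, t, w, hu, hw.le, rfl⟩

/-! ### Retractions -/

/-- the retraction of `O` onto `X` -/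
theorem CR_X : CR D.X := by
  refine ⟨D.isCompact_X, D.O, D.pushK 1 (1/2) 1, D.isOpen_O, D.X_subset_O, ?_, ?_, ?_⟩
  · have h := D.continuousOn_pushK (r := 1/2) 1 (by norm_num)
    refine h.comp (f := fun z : ℂ × ℂ => ((1:ℝ), z)) (by fun_prop) ?_
    intro z hz
    exact ⟨mem_univ _, hz⟩
  · intro z hz
    exact D.pushK_one_mem zero_le_one (by norm_num) hz
  · intro z hz
    exact D.pushK_of_mem (by norm_num) hz

/-- level function of the retraction to the ends -/
noncomputable def hE (t : ℝ) : ℝ := if t < 0 then -1 else if 1 < t then 2 else t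

theorem lvOK_hE : LvOK hE := by
  refine ⟨fun t ht => ?_, fun t ht => ?_, fun t ht => ?_⟩
  · unfold hE
    split_ifs with h1 h2
    · norm_num
    · linarith
    · exact ht
  · unfold hE
    split_ifs with h1 h2
    · linarith
    · norm_num
    · exact ht
  · unfold hE
    rw [if_neg (not_lt.2 ht.1.le), if_neg (not_lt.2 ht.2.le)]

/-- the retraction to the ends -/
noncomputable def rE (z : ℂ × ℂ) : ℂ × ℂ := lv hE (D.rad (fun ρ => max (1/2) ρ) z)

theorem radOK_half : RadOK (fun ρ : ℝ => max (1/2) ρ) :=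
  ⟨max_eq_right (by norm_num), fun _ hρ => ⟨hρ.1.trans (le_max_right _ _),
    max_le (by norm_num) hρ.2⟩⟩

theorem rad_half_mem {z : ℂ × ℂ} (hz : z ∈ D.O) :
    D.rad (fun ρ : ℝ => max (1/2) ρ) z ≠ 0 ∧ D.rad (fun ρ : ℝ => max (1/2) ρ) z ∉ D.N (1/2) :=
  ⟨D.rad_ne_zero radOK_half hz.1,
    D.rad_notMem_N radOK_half (by norm_num) hz.2 fun _ => le_max_left _ _⟩

theorem rad_half_low {z : ℂ × ℂ} (hz : z ∈ D.O) (h : nrm z < Real.exp 0) :
    Real.log (nrm (D.rad (fun ρ : ℝ => max (1/2) ρ) z)) < 0 := by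
  have h0 := nrm_pos.2 (D.rad_half_mem hz).1
  rw [Real.log_lt_iff_lt_exp h0, ← not_le, D.le_nrm_rad_iff radOK_half (Or.inl le_rfl), not_le]
  exact h

theorem rad_half_high {z : ℂ × ℂ} (hz : z ∈ D.O) (h : Real.exp 1 < nrm z) :
    1 < Real.log (nrm (D.rad (fun ρ : ℝ => max (1/2) ρ) z)) := by
  have h0 := nrm_pos.2 (D.rad_half_mem hz).1
  rw [Real.lt_log_iff_exp_lt h0, ← not_le, D.nrm_rad_le_iff radOK_half (Or.inr le_rfl), not_le]
  exact h

theorem rE_low {z : ℂ × ℂ} (hz : z ∈ D.O) (h : nrm z < Real.exp 0) : D.rE z ∈ D.EJ := by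
  have h0 := D.rad_half_mem hz
  have h1 := D.rad_half_low hz h
  have h2 : nrm (D.rE z) = Real.exp (-1) := by
    rw [rE, nrm_lv h0.1, hE, if_pos h1]
  refine ⟨D.mem_X_iff.2 ⟨h2.ge, ?_, ?_⟩, h2⟩
  · rw [h2]
    exact Real.exp_le_exp.2 (by norm_num)
  · rw [rE, D.lv_mem_N_iff lvOK_hE h0.1 (by norm_num)]
    exact h0.2

theorem rE_high {z : ℂ × ℂ} (hz : z ∈ D.O) (h : Real.exp 1 < nrm z) : D.rE z ∈ D.EK := by
  have h0 := D.rad_half_mem hz
  have h1 := D.rad_half_high hz h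
  have h2 : nrm (D.rE z) = Real.exp 2 := by
    rw [rE, nrm_lv h0.1, hE, if_neg (by linarith), if_pos h1]
  refine ⟨D.mem_X_iff.2 ⟨?_, h2.le, ?_⟩, h2⟩
  · rw [h2]
    exact Real.exp_le_exp.2 (by norm_num)
  · rw [rE, D.lv_mem_N_iff lvOK_hE h0.1 (by norm_num)]
    exact h0.2

theorem rE_fix {z : ℂ × ℂ} (hX : z ∈ D.X) (h : nrm z = Real.exp (-1) ∨ nrm z = Real.exp 2) :
    D.rE z = z := by
  have h1 : D.rad (fun ρ : ℝ => max (1/2) ρ) z = z := by
    refine D.rad_of_eq fun hT => max_eq_right ?_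
    by_contra hlt
    exact hX.2 ((D.mem_N_iff (by norm_num)).2 ⟨hT, not_le.1 hlt⟩)
  rw [rE, h1]
  refine lv_of_eq ?_
  rcases h with h | h
  · rw [h, Real.log_exp, hE, if_pos (by norm_num)]
  · rw [h, Real.log_exp, hE, if_neg (by norm_num), if_pos (by norm_num)]

/-- the open set on which `rE` is continuous -/
def UE : Set (ℂ × ℂ) := D.O ∩ ({z | nrm z < Real.exp 0} ∪ {z | Real.exp 1 < nrm z})

theorem isOpen_UE : IsOpen D.UE :=
  D.isOpen_O.inter ((isOpen_lt continuous_nrm continuous_const).union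
    (isOpen_lt continuous_const continuous_nrm))

theorem continuousOn_rad_half : ContinuousOn (D.rad (fun ρ : ℝ => max (1/2) ρ)) D.O := by
  have h := D.continuousOn_rad (Y := Unit) (I := univ) (g := fun _ ρ => max (1/2) ρ)
    (Continuous.continuousOn (by fun_prop)) fun _ _ => radOK_half
  refine h.comp (f := fun z : ℂ × ℂ => ((), z)) (by fun_prop) ?_
  intro z hz
  exact ⟨mem_univ _, hz⟩

theorem continuousOn_rE : ContinuousOn D.rE D.UE := by
  have hr := D.continuousOn_rad_half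
  have h1 : ContinuousOn D.rE (D.O ∩ {z | nrm z < Real.exp 0}) := by
    have h2 : ContinuousOn (fun z => Real.exp (-1 -
        Real.log (nrm (D.rad (fun ρ : ℝ => max (1/2) ρ) z))) •
        D.rad (fun ρ : ℝ => max (1/2) ρ) z) (D.O ∩ {z | nrm z < Real.exp 0}) := by
      have h3 := hr.mono (inter_subset_left (s := D.O) (t := {z | nrm z < Real.exp 0}))
      have h4 : ContinuousOn (fun z : ℂ × ℂ => Real.log (nrm (D.rad (fun ρ : ℝ => max (1/2) ρ) z)))
          (D.O ∩ {z | nrm z < Real.exp 0}) := by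
        refine ContinuousOn.log (continuous_nrm.comp_continuousOn h3) ?_
        intro z hz
        exact (nrm_pos.2 (D.rad_half_mem hz.1).1).ne'
      have h5 : ContinuousOn (fun z : ℂ × ℂ => Real.exp (-1 -
          Real.log (nrm (D.rad (fun ρ : ℝ => max (1/2) ρ) z)))) (D.O ∩ {z | nrm z < Real.exp 0}) :=
        Real.continuous_exp.comp_continuousOn (continuousOn_const.sub h4)
      exact h5.smul h3
    refine h2.congr fun z hz => ?_
    rw [rE, lv, hE, if_pos (D.rad_half_low hz.1 hz.2)]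
  have h2 : ContinuousOn D.rE (D.O ∩ {z | Real.exp 1 < nrm z}) := by
    have h2 : ContinuousOn (fun z => Real.exp (2 -
        Real.log (nrm (D.rad (fun ρ : ℝ => max (1/2) ρ) z))) •
        D.rad (fun ρ : ℝ => max (1/2) ρ) z) (D.O ∩ {z | Real.exp 1 < nrm z}) := by
      have h3 := hr.mono (inter_subset_left (s := D.O) (t := {z | Real.exp 1 < nrm z}))
      have h4 : ContinuousOn (fun z : ℂ × ℂ => Real.log (nrm (D.rad (fun ρ : ℝ => max (1/2) ρ) z)))
          (D.O ∩ {z | Real.exp 1 < nrm z}) := by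
        refine ContinuousOn.log (continuous_nrm.comp_continuousOn h3) ?_
        intro z hz
        exact (nrm_pos.2 (D.rad_half_mem hz.1).1).ne'
      have h5 : ContinuousOn (fun z : ℂ × ℂ => Real.exp (2 -
          Real.log (nrm (D.rad (fun ρ : ℝ => max (1/2) ρ) z)))) (D.O ∩ {z | Real.exp 1 < nrm z}) :=
        Real.continuous_exp.comp_continuousOn (continuousOn_const.sub h4)
      exact h5.smul h3
    refine h2.congr fun z hz => ?_
    have h4 := D.rad_half_high hz.1 hz.2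
    rw [rE, lv, hE, if_neg (by linarith), if_pos h4]
  have h3 : D.UE = (D.O ∩ {z | nrm z < Real.exp 0}) ∪ (D.O ∩ {z | Real.exp 1 < nrm z}) :=
    inter_union_distrib_left _ _ _
  rw [h3]
  exact h1.union_of_isOpen h2
    (D.isOpen_O.inter (isOpen_lt continuous_nrm continuous_const))
    (D.isOpen_O.inter (isOpen_lt continuous_const continuous_nrm))

theorem CR_EJ : CR D.EJ := by
  refine ⟨D.isCompact_X.of_isClosed_subset D.isClosed_EJ D.EJ_subset,
    D.O ∩ {z | nrm z < Real.exp 0}, D.rE,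
    D.isOpen_O.inter (isOpen_lt continuous_nrm continuous_const), ?_, ?_, ?_, ?_⟩
  · intro z hz
    refine ⟨D.X_subset_O hz.1, ?_⟩
    have h : nrm z = Real.exp (-1) := hz.2
    show nrm z < Real.exp 0
    rw [h]
    exact Real.exp_lt_exp.2 (by norm_num)
  · exact D.continuousOn_rE.mono fun z hz => ⟨hz.1, Or.inl hz.2⟩
  · exact fun z hz => D.rE_low hz.1 hz.2
  · exact fun z hz => D.rE_fix hz.1 (Or.inl hz.2)

theorem CR_EK : CR D.EK := by
  refine ⟨D.isCompact_X.of_isClosed_subset D.isClosed_EK D.EK_subset,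
    D.O ∩ {z | Real.exp 1 < nrm z}, D.rE,
    D.isOpen_O.inter (isOpen_lt continuous_const continuous_nrm), ?_, ?_, ?_, ?_⟩
  · intro z hz
    refine ⟨D.X_subset_O hz.1, ?_⟩
    have h : nrm z = Real.exp 2 := hz.2
    show Real.exp 1 < nrm z
    rw [h]
    exact Real.exp_lt_exp.2 (by norm_num)
  · exact D.continuousOn_rE.mono fun z hz => ⟨hz.1, Or.inr hz.2⟩
  · exact fun z hz => D.rE_high hz.1 hz.2
  · exact fun z hz => D.rE_fix hz.1 (Or.inr hz.2)

theorem CR_ends : CR (D.EJ ∪ D.EK) := by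
  refine ⟨(D.isCompact_X.of_isClosed_subset D.isClosed_EJ D.EJ_subset).union
    (D.isCompact_X.of_isClosed_subset D.isClosed_EK D.EK_subset), D.UE, D.rE, D.isOpen_UE,
    ?_, D.continuousOn_rE, ?_, ?_⟩
  · rintro z (hz | hz)
    · refine ⟨D.X_subset_O hz.1, Or.inl ?_⟩
      have h : nrm z = Real.exp (-1) := hz.2
      show nrm z < Real.exp 0
      rw [h]
      exact Real.exp_lt_exp.2 (by norm_num)
    · refine ⟨D.X_subset_O hz.1, Or.inr ?_⟩
      have h : nrm z = Real.exp 2 := hz.2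
      show Real.exp 1 < nrm z
      rw [h]
      exact Real.exp_lt_exp.2 (by norm_num)
  · rintro z ⟨hz, h | h⟩
    · exact Or.inl (D.rE_low hz h)
    · exact Or.inr (D.rE_high hz h)
  · rintro z (hz | hz)
    · exact D.rE_fix hz.1 (Or.inl hz.2)
    · exact D.rE_fix hz.1 (Or.inr hz.2)

end Tube

end Pool.Agent.Helper60.Geo
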