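import Pool.Agent.Helper60.Geo.TubeG1

/-! Part G2: restriction isomorphisms between exteriors and the first acyclicity. -/

set_option autoImplicit false

namespace Pool.Agent.Helper60.Geo

open Set AS Topology

section general

variable {Ω k V : Type*} [PseudoMetricSpace Ω] [CommRing k] [AddCommGroup V] [Module k V]

/-- restrictions compose -/
theorem Hres_comp {T : Ω → Ω → (V →ₗ[k] V)} {S₁ S₁' S₂ S₂' S₃ S₃' : Set Ω} (h : S₂ ⊆ S₁)
    (h' : S₂' ⊆ S₁') (g : S₃ ⊆ S₂) (g' : S₃' ⊆ S₂') (f : S₃ ⊆ S₁) (f' : S₃' ⊆ S₁') (q : ℕ)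
    (x : H T S₁ S₁' q) : Hres T g g' q (Hres T h h' q x) = Hres T f f' q x := by
  obtain ⟨c, rfl⟩ := H.mk_surjective q x
  rfl

theorem bij_square {A B C E : Type*} {f : A → B} {g : B → E} {f' : A → C} {g' : C → E}
    (h : ∀ x, g (f x) = g' (f' x)) (hg : Function.Bijective g) (hf' : Function.Bijective f')
    (hg' : Function.Bijective g') : Function.Bijective f := by
  have h1 : g ∘ f = g' ∘ f' := funext h
  have h2 : Function.Bijective (g ∘ f) := h1 ▸ hg'.comp hf'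
  exact (Function.Bijective.of_comp_iff' hg f).1 h2

/-- excision with the whole space written as a variable -/
theorem excision_of_eq {T : Ω → Ω → (V →ₗ[k] V)} {S₁ S₂ U W : Set Ω} (c1 : IsClosed S₁)
    (c2 : IsClosed S₂) (hT : Flat T S₁) (hU : S₁ ∪ S₂ = U) (hW : S₁ ∩ S₂ = W) (h : S₁ ⊆ U)
    (h' : W ⊆ S₂) (q : ℕ) :
    Function.Bijective (Hres T h h' q : H T U S₂ q →ₗ[k] H T S₁ W q) := by
  subst hU
  subst hW
  exact excision' c1 c2 hT q

end general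

namespace Tube

variable (D : Tube)

section
variable {k V : Type*} [CommRing k] [AddCommGroup V] [Module k V]

/-- nested exteriors: restriction is an isomorphism -/
theorem Xar_restrict {T : ℂ × ℂ → ℂ × ℂ → (V →ₗ[k] V)} (hT : Flat T D.O) {a a' r r' : ℝ}
    (ha : 0 < a) (haa : a ≤ a') (hr : 0 < r') (hrr : r' ≤ r) (hr1 : r < 1)
    (h : D.Xar a r ⊆ D.Xar a' r') (q : ℕ) :
    Function.Bijective (Hres T h (le_refl ∅) q :
      H T (D.Xar a' r') ∅ q →ₗ[k] H T (D.Xar a r) ∅ q) := by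
  have hr0 : 0 < r := hr.trans_le hrr
  refine push_bij (D.isCompact_Xar hr (hrr.trans hr1.le)) isClosed_empty
    (D.isCompact_Xar hr0 hr1.le).isClosed isClosed_empty (empty_subset _) h (le_refl ∅)
    (empty_subset _) (hT.mono (D.Xar_subset_O hr)) (D.pushK a r) ?_ ?_ ?_ ?_ ?_ ?_ ?_ ?_ q
  · exact (D.continuousOn_pushK a hr1.le).mono
      (prod_mono (subset_univ _) (D.Xar_subset_O hr))
  · intro x _
    exact D.pushK_zero a r x
  · intro s _ z hz
    exact D.pushK_mem_Xar ha.le haa hr hrr hr1.le hz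
  · intro s _ z hz
    exact hz.elim
  · intro s _ z hz
    rw [D.pushK_of_mem hr1.le hz]
    exact hz
  · intro s _ z hz
    exact hz.elim
  · intro z hz
    exact D.pushK_one_mem ha.le hr1.le (D.Xar_subset_O hr hz)
  · intro z hz
    exact hz.elim

end

/-! #### the expanding push -/

section expand

variable {a a' r r' : ℝ}

/-- radial function: identity up to `r'`, constant `r'` on `[r', r]`, affine up to `1` -/
noncomputable def g1 (r r' x : ℝ) : ℝ := max (min x r') (r' + (x - r) * ((1 - r') / (1 - r)))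

theorem g1_aux (hrr : r' < r) (hr1 : r < 1) {x : ℝ} (hx : x ≤ 1) :
    r' + (x - r) * ((1 - r') / (1 - r)) ≤ x := by
  have h1 : 0 < 1 - r := by linarith
  have h2 : 1 ≤ (1 - r') / (1 - r) := by
    rw [le_div_iff₀ h1]
    linarith
  have h3 : (1 - r) * ((1 - r') / (1 - r)) = 1 - r' := by
    field_simp
  nlinarith

theorem g1_le (hrr : r' < r) (hr1 : r < 1) {x : ℝ} (hx : x ≤ 1) : g1 r r' x ≤ x :=
  max_le (min_le_left _ _) (g1_aux hrr hr1 hx)

theorem g1_le' (_hrr : r' < r) (hr1 : r < 1) {x : ℝ} (hx : x ≤ r) : g1 r r' x ≤ r' := by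
  refine max_le (min_le_right _ _) ?_
  have h2 : 0 ≤ (1 - r') / (1 - r) := div_nonneg (by linarith) (by linarith)
  nlinarith

theorem le_g1 (x : ℝ) : min x r' ≤ g1 r r' x := le_max_left _ _

theorem g1_one (_hrr : r' < r) (hr1 : r < 1) : g1 r r' 1 = 1 := by
  have h1 : 1 - r ≠ 0 := by linarith
  unfold g1
  have : r' + (1 - r) * ((1 - r') / (1 - r)) = 1 := by
    field_simp
    ring
  rw [this]
  exact max_eq_right (min_le_left _ _)

/-- interpolated radial function -/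
noncomputable def gE (r r' s x : ℝ) : ℝ := x + c01 s * (g1 r r' x - x)

theorem gE_le {s x : ℝ} (hrr : r' < r) (hr1 : r < 1) (hx : x ≤ 1) : gE r r' s x ≤ x := by
  have h := g1_le hrr hr1 hx
  have h1 := (c01_mem s).1
  unfold gE
  nlinarith

theorem le_gE {s x : ℝ} (hrr : r' < r) (hr1 : r < 1) (hx : x ≤ 1) : min x r' ≤ gE r r' s x := by
  have h := g1_le hrr hr1 hx
  have h1 := (c01_mem s).2
  have h2 := le_g1 (r := r) (r' := r') x
  unfold gE
  nlinarith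

theorem gE_one {x : ℝ} : gE r r' 1 x = g1 r r' x := by
  have h : c01 1 = 1 := c01_of_mem ⟨zero_le_one, le_rfl⟩
  unfold gE
  rw [h]
  ring

theorem radOK_gE (hr : 0 < r') (hrr : r' < r) (hr1 : r < 1) (s : ℝ) : RadOK (gE r r' s) := by
  refine ⟨?_, fun x hx => ⟨?_, (gE_le hrr hr1 hx.2).trans hx.2⟩⟩
  · unfold gE
    rw [g1_one hrr hr1]
    ring
  · exact (le_min hx.1 hr.le).trans (le_gE hrr hr1 hx.2)

/-- level function -/
noncomputable def h1 (κ A t : ℝ) : ℝ :=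
  max 0 (min t 1) + max (-A) (κ * min t 0) + min A (κ * max (t - 1) 0)

theorem h1_mid {κ A t : ℝ} (hA : 0 ≤ A) (ht : t ∈ Icc (0:ℝ) 1) : h1 κ A t = t := by
  unfold h1
  rw [min_eq_left ht.2, max_eq_right ht.1, min_eq_right ht.1, mul_zero,
    max_eq_right (by linarith : -A ≤ 0), max_eq_right (by linarith [ht.2] : t - 1 ≤ 0), mul_zero,
    min_eq_right hA]
  ring

theorem h1_low {κ A t : ℝ} (hA : 0 ≤ A) (ht : t ≤ 0) : h1 κ A t = max (-A) (κ * t) := by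
  unfold h1
  rw [min_eq_left (by linarith : t ≤ 1), max_eq_left ht, min_eq_left ht,
    max_eq_right (by linarith : t - 1 ≤ 0), mul_zero, min_eq_right hA]
  ring

theorem h1_high {κ A t : ℝ} (hA : 0 ≤ A) (ht : 1 ≤ t) : h1 κ A t = 1 + min A (κ * (t - 1)) := by
  unfold h1
  rw [min_eq_right ht, max_eq_right zero_le_one, min_eq_right (by linarith : (0:ℝ) ≤ t), mul_zero,
    max_eq_right (by linarith : -A ≤ 0), max_eq_left (by linarith : 0 ≤ t - 1)]
  ring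

/-- interpolated level function -/
noncomputable def hh1 (κ A s t : ℝ) : ℝ := t + c01 s * (h1 κ A t - t)

theorem hh1_low {κ A s t : ℝ} (hκ : 1 ≤ κ) (hA : 0 ≤ A) (ht : t ≤ 0) (hAt : -A ≤ t) :
    -A ≤ hh1 κ A s t ∧ hh1 κ A s t ≤ t := by
  have h := c01_mem s
  have e := h1_low (κ := κ) hA ht
  have h2 : -A ≤ h1 κ A t := by rw [e]; exact le_max_left _ _
  have h3 : h1 κ A t ≤ t := by rw [e]; exact max_le hAt (by nlinarith)
  unfold hh1
  constructor <;> nlinarith [h.1, h.2]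

theorem hh1_high {κ A s t : ℝ} (hκ : 1 ≤ κ) (hA : 0 ≤ A) (ht : 1 ≤ t) (hAt : t ≤ 1 + A) :
    t ≤ hh1 κ A s t ∧ hh1 κ A s t ≤ 1 + A := by
  have h := c01_mem s
  have e := h1_high (κ := κ) hA ht
  have h2 : h1 κ A t ≤ 1 + A := by rw [e]; linarith [min_le_left A (κ * (t - 1))]
  have h3 : t ≤ h1 κ A t := by
    rw [e]
    have : t - 1 ≤ min A (κ * (t - 1)) := le_min (by linarith) (by nlinarith)
    linarith
  unfold hh1
  constructor <;> nlinarith [h.1, h.2]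

theorem hh1_mid {κ A s t : ℝ} (hA : 0 ≤ A) (ht : t ∈ Icc (0:ℝ) 1) : hh1 κ A s t = t := by
  unfold hh1
  rw [h1_mid hA ht]
  ring

theorem hh1_one {κ A t : ℝ} : hh1 κ A 1 t = h1 κ A t := by
  have h : c01 1 = 1 := c01_of_mem ⟨zero_le_one, le_rfl⟩
  unfold hh1
  rw [h]
  ring

theorem lvOK_hh1 {κ A : ℝ} (hκ : 1 ≤ κ) (hA : 0 ≤ A) (s : ℝ) : LvOK (hh1 κ A s) := by
  have h := c01_mem s
  refine ⟨fun t ht => ?_, fun t ht => ?_, fun t ht => hh1_mid hA ⟨ht.1.le, ht.2.le⟩⟩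
  · have e := h1_low (κ := κ) hA ht
    have h3 : h1 κ A t ≤ 0 := by rw [e]; exact max_le (by linarith) (by nlinarith)
    unfold hh1
    nlinarith [h.1, h.2]
  · have e := h1_high (κ := κ) hA ht
    have h3 : 1 ≤ h1 κ A t := by
      rw [e]
      have : 0 ≤ min A (κ * (t - 1)) := le_min hA (by nlinarith)
      linarith
    unfold hh1
    nlinarith [h.1, h.2]

theorem hh1_Icc {κ A s t : ℝ} (hκ : 1 ≤ κ) (hA : 0 ≤ A) (ht : t ∈ Icc (-A) (1 + A)) :
    hh1 κ A s t ∈ Icc (-A) (1 + A) := by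
  rcases le_or_gt t 0 with h0 | h0
  · have := hh1_low (s := s) hκ hA h0 ht.1
    exact ⟨this.1, by linarith⟩
  · rcases le_or_gt 1 t with h1' | h1'
    · have := hh1_high (s := s) hκ hA h1' ht.2
      exact ⟨by linarith, this.2⟩
    · rw [hh1_mid hA ⟨h0.le, h1'.le⟩]
      exact ht

/-- the expanding push: the tube of radius `r` is shrunk to radius `r'`, the levels `-a`, `1 + a` are
pushed to `-κa`, `1 + κa`, everything inside `Xar A (r'/2)` -/
noncomputable def expK (κ A r r' s : ℝ) (z : ℂ × ℂ) : ℂ × ℂ :=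
  lv (hh1 κ A s) (D.rad (gE r r' s) z)

variable {κ A s : ℝ} {z : ℂ × ℂ}

theorem expK_zero (κ A r r' : ℝ) (z : ℂ × ℂ) : D.expK κ A r r' 0 z = z := by
  have h : c01 0 = 0 := c01_of_mem ⟨le_rfl, zero_le_one⟩
  have h1 : D.rad (gE r r' 0) z = z := D.rad_of_eq fun _ => by simp [gE, h]
  rw [expK, h1]
  exact lv_of_eq (by simp [hh1, h])

theorem continuousOn_expK (κ A : ℝ) (hr : 0 < r') (hrr : r' < r) (hr1 : r < 1) :
    ContinuousOn (fun p : ℝ × (ℂ × ℂ) => D.expK κ A r r' p.1 p.2) (univ ×ˢ D.O) := by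
  have h1 : ContinuousOn (fun p : ℝ × (ℂ × ℂ) => D.rad (gE r r' p.1) p.2) (univ ×ˢ D.O) := by
    refine D.continuousOn_rad ?_ fun y _ => radOK_gE hr hrr hr1 y
    have := continuous_c01
    refine Continuous.continuousOn ?_
    unfold gE g1
    fun_prop
  have h2 : ContinuousOn (fun p : ℝ × (ℂ × ℂ) => lv (hh1 κ A p.1) p.2)
      (univ ×ˢ {z : ℂ × ℂ | z ≠ 0}) := by
    refine continuousOn_lv ?_
    have := continuous_c01
    refine Continuous.continuousOn ?_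
    unfold hh1 Tube.h1
    fun_prop
  refine h2.comp (f := fun p : ℝ × (ℂ × ℂ) => (p.1, D.rad (gE r r' p.1) p.2))
    (continuousOn_fst.prodMk h1) ?_
  rintro ⟨s, z⟩ ⟨-, hz⟩
  exact ⟨mem_univ _, D.rad_ne_zero (radOK_gE hr hrr hr1 s) hz.1⟩

/-- the level of the image -/
theorem rad_log_mem (hr : 0 < r') (hrr : r' < r) (hr1 : r < 1) (hA : 0 ≤ A)
    (hz : z ∈ D.Xar A (r' / 2)) :
    Real.log (nrm (D.rad (gE r r' s) z)) ∈ Icc (-A) (1 + A) := by
  have hg := radOK_gE hr hrr hr1 s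
  have h0 : 0 < nrm (D.rad (gE r r' s) z) :=
    nrm_pos.2 (D.rad_ne_zero hg (D.Xar_subset_O (by linarith) hz).1)
  constructor
  · rw [Real.le_log_iff_exp_le h0, D.le_nrm_rad_iff hg (Or.inl (by linarith))]
    exact hz.1.1
  · rw [Real.log_le_iff_le_exp h0, D.nrm_rad_le_iff hg (Or.inr (by linarith))]
    exact hz.1.2

theorem expK_mem (hr : 0 < r') (hrr : r' < r) (hr1 : r < 1) (hA : 0 ≤ A) (hκ : 1 ≤ κ)
    (hz : z ∈ D.Xar A (r' / 2)) : D.expK κ A r r' s z ∈ D.Xar A (r' / 2) := by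
  have hg := radOK_gE hr hrr hr1 s
  have hO := D.Xar_subset_O (by linarith) hz
  refine D.lv_rad_mem_Xar hg (lvOK_hh1 hκ hA s) hO (by linarith) ?_ ?_
  · intro hT
    refine le_trans (le_min ?_ (by linarith)) (le_gE hrr hr1 (co_mem hT).2)
    by_contra hlt
    exact hz.2 ((D.mem_N_iff (by linarith)).2 ⟨hT, not_le.1 hlt⟩)
  · exact hh1_Icc hκ hA (D.rad_log_mem hr hrr hr1 hA hz)

/-- the parts of `Xar A (r'/2)` outside the interior of `Xar b ρ` -/
theorem compl_interior_iff {b ρ : ℝ} (hρ : 0 < ρ) (hρ1 : ρ ≤ 1) :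
    z ∈ (interior (D.Xar b ρ))ᶜ ↔
      nrm z ≤ Real.exp (-b) ∨ Real.exp (1 + b) ≤ nrm z ∨ z ∈ D.Nc ρ := by
  rw [D.interior_Xar hρ hρ1]
  simp only [mem_compl_iff, mem_ofPred_eq, not_and_or, not_lt, not_not]

theorem rad_mem_Nc {g : ℝ → ℝ} (hg : RadOK g) {ρ ρ' : ℝ} (hρ1 : ρ ≤ 1) (hρ' : 0 ≤ ρ')
    (hρ1' : ρ' ≤ 1) (h : ∀ x ∈ Icc 0 ρ, g x ≤ ρ') (hz : z ∈ D.Nc ρ) : D.rad g z ∈ D.Nc ρ' := by
  obtain ⟨u, t, w, hu, hw, rfl⟩ := hz
  have hp : ((u, t, w) : ℂ × ℝ × ℂ) ∈ Dom := ⟨hu, hw.trans hρ1⟩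
  rw [D.rad_f hp, D.f_mem_Nc_iff hρ1' (radP_mem hg hp)]
  by_cases h0 : w = 0
  · simp [radP, h0, hρ']
  · have h2 := hg.2 ‖w‖ ⟨norm_nonneg _, hw.trans hρ1⟩
    rw [norm_radP (p := (u, t, w)) h0 h2.1]
    exact h _ ⟨norm_nonneg _, hw⟩

/-- the expanding push preserves the complements of the interiors -/
theorem expK_compl {b ρ : ℝ} (hr : 0 < r') (hrr : r' < r) (hr1 : r < 1) (hA : 0 ≤ A) (hκ : 1 ≤ κ)
    (hb : 0 ≤ b) (hρ : 0 < ρ) (hρ1 : ρ ≤ 1)
    (hz : z ∈ D.Xar A (r' / 2)) (h : z ∈ (interior (D.Xar b ρ))ᶜ) :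
    D.expK κ A r r' s z ∈ (interior (D.Xar b ρ))ᶜ := by
  have hg := radOK_gE hr hrr hr1 s
  have hO := D.Xar_subset_O (by linarith) hz
  have h0 := D.rad_ne_zero hg hO.1
  have h0' := nrm_pos.2 h0
  have hl := D.rad_log_mem (s := s) hr hrr hr1 hA hz
  rw [D.compl_interior_iff hρ hρ1] at h ⊢
  rcases h with h | h | h
  · left
    rw [← D.nrm_rad_le_iff hg (Or.inl (by linarith)), ← Real.log_le_iff_le_exp h0'] at h
    rw [expK, nrm_lv h0, Real.exp_le_exp]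
    exact (hh1_low hκ hA (by linarith) hl.1).2.trans h
  · right; left
    rw [← D.le_nrm_rad_iff hg (Or.inr (by linarith)), ← Real.le_log_iff_exp_le h0'] at h
    rw [expK, nrm_lv h0, Real.exp_le_exp]
    exact h.trans (hh1_high hκ hA (by linarith) hl.2).1
  · right; right
    rw [expK, D.lv_mem_Nc_iff (lvOK_hh1 hκ hA s) h0 hρ1]
    exact D.rad_mem_Nc hg hρ1 hρ.le hρ1
      (fun x hx => (gE_le hrr hr1 (hx.2.trans hρ1)).trans hx.2) h

/-- at time one the expanding push enlarges -/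
theorem expK_one (hr : 0 < r') (hrr : r' < r) (hr1 : r < 1) (ha : 0 < a) (haa : a ≤ a')
    (hAa : a' ≤ A) (hz : z ∈ D.Xar A (r' / 2)) (h : z ∈ (interior (D.Xar a r))ᶜ) :
    D.expK (a' / a) A r r' 1 z ∈ (interior (D.Xar a' r'))ᶜ := by
  have hA : 0 ≤ A := by linarith
  have hκ : 1 ≤ a' / a := by rwa [le_div_iff₀ ha, one_mul]
  have hκa : a' / a * a = a' := div_mul_cancel₀ _ ha.ne'
  have hg := radOK_gE hr hrr hr1 1
  have hO := D.Xar_subset_O (by linarith) hz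
  have h0 := D.rad_ne_zero hg hO.1
  have h0' := nrm_pos.2 h0
  have hl := D.rad_log_mem (s := 1) hr hrr hr1 hA hz
  rw [D.compl_interior_iff (hr.trans hrr) hr1.le] at h
  rw [D.compl_interior_iff hr (by linarith)]
  rcases h with h | h | h
  · left
    rw [← D.nrm_rad_le_iff hg (Or.inl (by linarith)), ← Real.log_le_iff_le_exp h0'] at h
    rw [expK, nrm_lv h0, Real.exp_le_exp, hh1_one, h1_low hA (by linarith)]
    refine max_le (by linarith) ?_
    nlinarith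
  · right; left
    rw [← D.le_nrm_rad_iff hg (Or.inr (by linarith)), ← Real.le_log_iff_exp_le h0'] at h
    rw [expK, nrm_lv h0, Real.exp_le_exp, hh1_one, h1_high hA (by linarith)]
    have : a' ≤ min A (a' / a * (Real.log (nrm (D.rad (gE r r' 1) z)) - 1)) := by
      refine le_min hAa ?_
      nlinarith
    linarith
  · right; right
    rw [expK, D.lv_mem_Nc_iff (lvOK_hh1 hκ hA 1) h0 (by linarith)]
    refine D.rad_mem_Nc hg hr1.le hr.le (by linarith) (fun x hx => ?_) h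
    rw [gE_one]
    exact g1_le' hrr hr1 hx.2

theorem interior_Xar_subset {b ρ A σ : ℝ} (hρ : 0 < ρ) (hρ1 : ρ ≤ 1) (hbA : b ≤ A) (hσ : σ ≤ ρ) :
    interior (D.Xar b ρ) ⊆ D.Xar A σ := by
  intro z hz
  rw [D.interior_Xar hρ hρ1] at hz
  refine D.mem_Xar_iff.2 ⟨?_, ?_, ?_⟩
  · exact (Real.exp_le_exp.2 (by linarith)).trans hz.1.le
  · exact hz.2.1.le.trans (Real.exp_le_exp.2 (by linarith))
  · rintro ⟨u, t, w, hu, hw, rfl⟩
    exact hz.2.2 ⟨u, t, w, hu, hw.le.trans hσ, rfl⟩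

variable {k V : Type*} [CommRing k] [AddCommGroup V] [Module k V]

/-- nested interiors: extension by zero of compactly supported classes is an isomorphism -/
theorem Xar_extend {T : ℂ × ℂ → ℂ × ℂ → (V →ₗ[k] V)} (hT : Flat T D.O) {a a' r r' : ℝ}
    (ha : 0 < a) (haa : a < a') (hr : 0 < r') (hrr : r' < r) (hr1 : r < 1)
    (h : (interior (D.Xar a' r'))ᶜ ⊆ (interior (D.Xar a r))ᶜ) (q : ℕ) :
    Function.Bijective (Hres T (le_refl univ) h q :
      H T univ (interior (D.Xar a r))ᶜ q →ₗ[k] H T univ (interior (D.Xar a' r'))ᶜ q) := by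
  set S : Set (ℂ × ℂ) := D.Xar (a' + 1) (r' / 2) with hS
  have hSc : IsCompact S := D.isCompact_Xar (by linarith) (by linarith)
  have hTS : Flat T S := hT.mono (D.Xar_subset_O (by linarith))
  have i1 : interior (D.Xar a r) ⊆ S :=
    D.interior_Xar_subset (hr.trans hrr) hr1.le (by linarith) (by linarith)
  have i2 : interior (D.Xar a' r') ⊆ S :=
    D.interior_Xar_subset hr (by linarith) (by linarith) (by linarith)
  have u1 : S ∪ (interior (D.Xar a r))ᶜ = univ := by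
    rw [eq_univ_iff_forall]
    intro z
    by_cases hz : z ∈ interior (D.Xar a r)
    · exact Or.inl (i1 hz)
    · exact Or.inr hz
  have u2 : S ∪ (interior (D.Xar a' r'))ᶜ = univ := by
    rw [eq_univ_iff_forall]
    intro z
    by_cases hz : z ∈ interior (D.Xar a' r')
    · exact Or.inl (i2 hz)
    · exact Or.inr hz
  have c1 : IsClosed (interior (D.Xar a r))ᶜ := isOpen_interior.isClosed_compl
  have c2 : IsClosed (interior (D.Xar a' r'))ᶜ := isOpen_interior.isClosed_compl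
  have e1 := excision_of_eq (T := T) hSc.isClosed c1 hTS u1 rfl (subset_univ _)
    inter_subset_right q
  have e2 := excision_of_eq (T := T) hSc.isClosed c2 hTS u2 rfl (subset_univ _)
    inter_subset_right q
  have hκ : 1 ≤ a' / a := by rw [le_div_iff₀ ha]; linarith
  have hA : 0 ≤ a' + 1 := by linarith
  have h3 : S ∩ (interior (D.Xar a' r'))ᶜ ⊆ S ∩ (interior (D.Xar a r))ᶜ :=
    inter_subset_inter_right _ h
  have e3 : Function.Bijective (Hres T (le_refl S) h3 q :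
      H T S (S ∩ (interior (D.Xar a r))ᶜ) q →ₗ[k] H T S (S ∩ (interior (D.Xar a' r'))ᶜ) q) := by
    refine push_bij hSc (hSc.isClosed.inter c1) hSc.isClosed (hSc.isClosed.inter c2)
      inter_subset_left (le_refl S) h3 inter_subset_left hTS
      (D.expK (a' / a) (a' + 1) r r') ?_ ?_ ?_ ?_ ?_ ?_ ?_ ?_ q
    · exact (D.continuousOn_expK _ _ hr hrr hr1).mono
        (prod_mono (subset_univ _) (D.Xar_subset_O (by linarith)))
    · intro x _
      exact D.expK_zero _ _ _ _ _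
    · intro s _ z hz
      exact D.expK_mem hr hrr hr1 hA hκ hz
    · intro s _ z hz
      exact ⟨D.expK_mem hr hrr hr1 hA hκ hz.1,
        D.expK_compl hr hrr hr1 hA hκ ha.le (hr.trans hrr) hr1.le hz.1 hz.2⟩
    · intro s _ z hz
      exact D.expK_mem hr hrr hr1 hA hκ hz
    · intro s _ z hz
      exact ⟨D.expK_mem hr hrr hr1 hA hκ hz.1,
        D.expK_compl hr hrr hr1 hA hκ (by linarith) hr (by linarith) hz.1 hz.2⟩
    · intro z hz
      exact D.expK_mem hr hrr hr1 hA hκ hz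
    · intro z hz
      exact ⟨D.expK_mem hr hrr hr1 hA hκ hz.1,
        D.expK_one hr hrr hr1 ha haa.le (by linarith) hz.1 hz.2⟩
  refine bij_square (fun x => ?_) e2 e1 e3
  rw [Hres_comp (f := subset_univ S) (f' := inter_subset_right.trans h),
    Hres_comp (f := subset_univ S) (f' := inter_subset_right.trans h)]

/-- excision to the boundary -/
theorem X_interior_bij {T : ℂ × ℂ → ℂ × ℂ → (V →ₗ[k] V)} (hT : Flat T D.O) (q : ℕ) :
    Nonempty (H T univ (interior D.X)ᶜ q ≃ₗ[k] H T D.X (D.EJ ∪ D.EK ∪ D.B) q) := by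
  have hU : D.X ∪ (interior D.X)ᶜ = univ := by
    rw [eq_univ_iff_forall]
    intro z
    by_cases hz : z ∈ interior D.X
    · exact Or.inl (interior_subset hz)
    · exact Or.inr hz
  have hW : D.X ∩ (interior D.X)ᶜ = D.EJ ∪ D.EK ∪ D.B := by
    rw [← D.X_diff_interior]
    rfl
  have h' : D.EJ ∪ D.EK ∪ D.B ⊆ (interior D.X)ᶜ := by
    rw [← hW]
    exact inter_subset_right
  have := excision_of_eq (T := T) D.isCompact_X.isClosed isOpen_interior.isClosed_compl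
    (hT.mono D.X_subset_O) hU hW (subset_univ _) h' q
  exact ⟨LinearEquiv.ofBijective _ this⟩

end expand

/-! #### acyclicity relative to one end -/

section ends

variable {c : ℝ} {u w : ℂ} {t : ℝ} {z : ℂ × ℂ}

theorem nrm_f_eq_iff (hu : ‖u‖ = 1) (hw : ‖w‖ ≤ 1) (hc : c ≤ 0 ∨ 1 ≤ c) :
    nrm (D.f (u, t, w)) = Real.exp c ↔ t = c := by
  constructor
  · intro h
    exact le_antisymm ((D.nrm_f_le_iff hu hw hc).1 h.le) ((D.le_nrm_f_iff hu hw hc).1 h.ge)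
  · intro h
    exact le_antisymm ((D.nrm_f_le_iff hu hw hc).2 h.le) ((D.le_nrm_f_iff hu hw hc).2 h.ge)

/-- linear interpolation of levels to the level `c` -/
noncomputable def mL (c s t : ℝ) : ℝ := t + c01 s * (c - t)

theorem mL_zero (c t : ℝ) : mL c 0 t = t := by
  have h : c01 0 = 0 := c01_of_mem ⟨le_rfl, zero_le_one⟩
  simp [mL, h]

theorem mL_one (c t : ℝ) : mL c 1 t = c := by
  have h : c01 1 = 1 := c01_of_mem ⟨zero_le_one, le_rfl⟩
  simp [mL, h]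

theorem mL_self (c s : ℝ) : mL c s c = c := by simp [mL]

theorem mL_mem {a b s : ℝ} (hc : c ∈ Icc a b) (ht : t ∈ Icc a b) : mL c s t ∈ Icc a b := by
  have h := c01_mem s
  unfold mL
  constructor <;> nlinarith [h.1, h.2, hc.1, hc.2, ht.1, ht.2]

theorem continuous_mL (c : ℝ) : Continuous fun p : ℝ × ℝ => mL c p.1 p.2 := by
  have := continuous_c01
  unfold mL
  fun_prop

/-- moving the level inside the closed tube -/
noncomputable def tl (m : ℝ → ℝ) (z : ℂ × ℂ) : ℂ × ℂ :=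
  D.f ((D.co z).1, m (D.co z).2.1, (D.co z).2.2)

theorem tl_f {m : ℝ → ℝ} {p : ℂ × ℝ × ℂ} (hp : p ∈ Dom) :
    D.tl m (D.f p) = D.f (p.1, m p.2.1, p.2.2) := by
  rw [tl, D.co_f hp]

theorem continuousOn_tl {Y : Type*} [TopologicalSpace Y] {I : Set Y} {m : Y → ℝ → ℝ}
    (hm : ContinuousOn (fun p : Y × ℝ => m p.1 p.2) (I ×ˢ univ)) :
    ContinuousOn (fun p : Y × (ℂ × ℂ) => D.tl (m p.1) p.2) (I ×ˢ D.Tb) := by
  have hco : ContinuousOn (fun p : Y × (ℂ × ℂ) => D.co p.2) (I ×ˢ D.Tb) :=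
    D.continuousOn_co.comp continuousOn_snd fun p hp => hp.2
  have h1 : ContinuousOn (fun p : Y × (ℂ × ℂ) => (D.co p.2).1) (I ×ˢ D.Tb) :=
    continuous_fst.comp_continuousOn hco
  have h2 : ContinuousOn (fun p : Y × (ℂ × ℂ) => (D.co p.2).2.1) (I ×ˢ D.Tb) :=
    (continuous_fst.comp continuous_snd).comp_continuousOn hco
  have h3 : ContinuousOn (fun p : Y × (ℂ × ℂ) => (D.co p.2).2.2) (I ×ˢ D.Tb) :=
    (continuous_snd.comp continuous_snd).comp_continuousOn hco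
  have h4 : ContinuousOn (fun p : Y × (ℂ × ℂ) => m p.1 (D.co p.2).2.1) (I ×ˢ D.Tb) :=
    hm.comp (f := fun p : Y × (ℂ × ℂ) => (p.1, (D.co p.2).2.1))
      (continuousOn_fst.prodMk h2) fun p hp => ⟨hp.1, mem_univ _⟩
  refine D.cont.comp (f := fun p : Y × (ℂ × ℂ) =>
    ((D.co p.2).1, m p.1 (D.co p.2).2.1, (D.co p.2).2.2)) (h1.prodMk (h4.prodMk h3)) ?_
  intro p hp
  exact ⟨(co_mem hp.2).1, (co_mem hp.2).2⟩

theorem B_subset_Tb : D.B ⊆ D.Tb := by
  rintro z ⟨u, t, w, hu, h1, h2, hw, rfl⟩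
  exact D.f_mem ⟨hu, by simp only [hw]; norm_num⟩

variable {k V : Type*} [CommRing k] [AddCommGroup V] [Module k V]

/-- the shell is acyclic relative to one level -/
theorem shell_HV {a b : ℝ} (hc : c ∈ Icc a b) {T : ℂ × ℂ → ℂ × ℂ → (V →ₗ[k] V)}
    (hT : Flat T {z | Real.exp a ≤ nrm z ∧ nrm z ≤ Real.exp b}) (q : ℕ) :
    HV T {z | Real.exp a ≤ nrm z ∧ nrm z ≤ Real.exp b} {z | nrm z = Real.exp c} q := by
  have hpos : ∀ z ∈ {z : ℂ × ℂ | Real.exp a ≤ nrm z ∧ nrm z ≤ Real.exp b}, z ≠ 0 := fun z hz =>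
    nrm_pos.1 ((Real.exp_pos _).trans_le hz.1)
  have hmaps : ∀ z ∈ {z : ℂ × ℂ | Real.exp a ≤ nrm z ∧ nrm z ≤ Real.exp b},
      Real.log (nrm z) ∈ Icc a b := by
    intro z hz
    have h0 := nrm_pos.2 (hpos z hz)
    exact ⟨(Real.le_log_iff_exp_le h0).2 hz.1, (Real.log_le_iff_le_exp h0).2 hz.2⟩
  refine push_HV (isCompact_shell _ _) (isClosed_eq continuous_nrm continuous_const) ?_ hT
    (fun s => lv (mL c s)) ?_ ?_ ?_ ?_ ?_ q
  · intro z hz
    rw [mem_ofPred_eq] at hz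
    exact ⟨by rw [hz]; exact Real.exp_le_exp.2 hc.1, by rw [hz]; exact Real.exp_le_exp.2 hc.2⟩
  · have := continuousOn_lv (I := (univ : Set ℝ)) (h := fun s => mL c s)
      (continuous_mL c).continuousOn
    exact this.mono (prod_mono (subset_univ _) hpos)
  · intro z hz
    exact lv_of_eq (mL_zero _ _)
  · intro s _ z hz
    have h1 := mL_mem (s := s) hc (hmaps z hz)
    show Real.exp a ≤ nrm (lv (mL c s) z) ∧ nrm (lv (mL c s) z) ≤ Real.exp b
    rw [nrm_lv (hpos z hz), Real.exp_le_exp, Real.exp_le_exp]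
    exact h1
  · intro s _ z hz
    have hz' : nrm z = Real.exp c := hz
    have h0 : z ≠ 0 := nrm_pos.1 (by rw [hz']; exact Real.exp_pos _)
    show nrm (lv (mL c s) z) = Real.exp c
    rw [nrm_lv h0, hz', Real.log_exp, mL_self]
  · intro z hz
    show nrm (lv (mL c 1) z) = Real.exp c
    rw [nrm_lv (hpos z hz), mL_one]

/-- the vertical boundary is acyclic relative to one end -/
theorem B_end_HV (hc : c ≤ 0 ∨ 1 ≤ c) (hc2 : c ∈ Icc (-1:ℝ) 2) {T : ℂ × ℂ → ℂ × ℂ → (V →ₗ[k] V)}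
    (hT : Flat T D.B) (q : ℕ) : HV T D.B (D.B ∩ {z | nrm z = Real.exp c}) q := by
  refine push_HV D.isCompact_B (D.isClosed_B.inter (isClosed_eq continuous_nrm continuous_const))
    inter_subset_left hT (fun s => D.tl (mL c s)) ?_ ?_ ?_ ?_ ?_ q
  · have := D.continuousOn_tl (I := (univ : Set ℝ)) (m := fun s => mL c s)
      (continuous_mL c).continuousOn
    exact this.mono (prod_mono (subset_univ _) D.B_subset_Tb)
  · rintro z ⟨u, t, w, hu, h1, h2, hw, rfl⟩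
    rw [D.tl_f ⟨hu, by simp only [hw]; norm_num⟩, mL_zero]
  · rintro s - z ⟨u, t, w, hu, h1, h2, hw, rfl⟩
    have h3 := mL_mem (s := s) hc2 ⟨h1, h2⟩
    rw [D.tl_f ⟨hu, by simp only [hw]; norm_num⟩]
    exact ⟨u, _, w, hu, h3.1, h3.2, hw, rfl⟩
  · rintro s - z ⟨⟨u, t, w, hu, h1, h2, hw, rfl⟩, hz⟩
    have hw1 : ‖w‖ ≤ 1 := by rw [hw]; norm_num
    have ht : t = c := (D.nrm_f_eq_iff hu hw1 hc).1 hz
    subst ht
    rw [D.tl_f ⟨hu, hw1⟩, mL_self]
    exact ⟨⟨u, _, w, hu, h1, h2, hw, rfl⟩, hz⟩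
  · rintro z ⟨u, t, w, hu, h1, h2, hw, rfl⟩
    have hw1 : ‖w‖ ≤ 1 := by rw [hw]; norm_num
    rw [D.tl_f ⟨hu, hw1⟩, mL_one]
    exact ⟨⟨u, _, w, hu, hc2.1, hc2.2, hw, rfl⟩, (D.nrm_f_eq_iff hu hw1 hc).2 rfl⟩

/-- (2.1) for both ends -/
theorem acyclic_level (hc : c ≤ 0 ∨ 1 ≤ c) (hc2 : c ∈ Icc (-1:ℝ) 2) (q : ℕ) :
    HV (cT : ℂ × ℂ → ℂ × ℂ → (V →ₗ[k] V)) D.X (D.X ∩ {z | nrm z = Real.exp c}) q := by
  set Sh : Set (ℂ × ℂ) := {z | Real.exp (-1) ≤ nrm z ∧ nrm z ≤ Real.exp 2} with hSh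
  set L : Set (ℂ × ℂ) := {z | nrm z = Real.exp c} with hL
  set TT : Set (ℂ × ℂ) := D.f '' (Domab (-1) 2 ∩ {p | ‖p.2.2‖ ≤ 1/2}) with hTT
  have hLc : IsClosed L := isClosed_eq continuous_nrm continuous_const
  have hTTc : IsClosed TT := by
    refine (IsCompact.image_of_continuousOn ?_ (D.cont.mono fun p hp => hp.1.1)).isClosed
    exact (isCompact_Domab _ _).inter_right
      (isClosed_le (f := fun p : ℂ × ℝ × ℂ => ‖p.2.2‖) (by fun_prop) continuous_const)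
  have hmemTT : ∀ {u : ℂ} {t : ℝ} {w : ℂ}, ‖u‖ = 1 → ‖w‖ ≤ 1 →
      (D.f (u, t, w) ∈ TT ↔ (-1 ≤ t ∧ t ≤ 2) ∧ ‖w‖ ≤ 1/2) := by
    intro u t w hu hw
    constructor
    · rintro ⟨p, hp, hpe⟩
      have := D.inj hp.1.1 (show ((u, t, w) : ℂ × ℝ × ℂ) ∈ Dom from ⟨hu, hw⟩) hpe
      subst this
      exact ⟨hp.1.2, hp.2⟩
    · rintro ⟨h1, h2⟩
      exact ⟨_, ⟨⟨⟨hu, hw⟩, h1⟩, h2⟩, rfl⟩
  have e1 : D.X ∪ TT = Sh := by
    ext z
    constructor
    · rintro (h | h)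
      · exact ⟨(D.mem_X_iff.1 h).1, (D.mem_X_iff.1 h).2.1⟩
      · obtain ⟨⟨u, t, w⟩, ⟨⟨⟨hu, hw⟩, h1, h2⟩, -⟩, rfl⟩ := h
        exact ⟨(D.le_nrm_f_iff hu hw (Or.inl (by norm_num))).2 h1,
          (D.nrm_f_le_iff hu hw (Or.inr (by norm_num))).2 h2⟩
    · intro h
      by_cases hN : z ∈ D.N (1/2)
      · right
        obtain ⟨u, t, w, hu, hw, rfl⟩ := hN
        have hw1 : ‖w‖ ≤ 1 := hw.le.trans (by norm_num)
        exact (hmemTT hu hw1).2 ⟨⟨(D.le_nrm_f_iff hu hw1 (Or.inl (by norm_num))).1 h.1,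
          (D.nrm_f_le_iff hu hw1 (Or.inr (by norm_num))).1 h.2⟩, hw.le⟩
      · exact Or.inl (D.mem_X_iff.2 ⟨h.1, h.2, hN⟩)
  have e2 : D.X ∩ TT = D.B := by
    ext z
    constructor
    · rintro ⟨hX, ⟨⟨u, t, w⟩, ⟨⟨⟨hu, hw⟩, h1, h2⟩, hw2⟩, rfl⟩⟩
      refine ⟨u, t, w, hu, h1, h2, le_antisymm hw2 ?_, rfl⟩
      by_contra hlt
      exact (D.mem_X_iff.1 hX).2.2 ⟨u, t, w, hu, not_le.1 hlt, rfl⟩
    · intro h
      refine ⟨D.B_subset h, ?_⟩
      obtain ⟨u, t, w, hu, h1, h2, hw, rfl⟩ := h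
      exact (hmemTT hu (by rw [hw]; norm_num)).2 ⟨⟨h1, h2⟩, hw.le⟩
  have e3 : (D.X ∩ L) ∪ (TT ∩ L) = Sh ∩ L := by rw [← union_inter_distrib_right, e1]
  have e3' : Sh ∩ L = L := by
    refine inter_eq_right.2 ?_
    intro z hz
    have hz' : nrm z = Real.exp c := hz
    exact ⟨by rw [hz']; exact Real.exp_le_exp.2 hc2.1, by rw [hz']; exact Real.exp_le_exp.2 hc2.2⟩
  have e4 : (D.X ∩ L) ∩ (TT ∩ L) = D.B ∩ L := by
    rw [← inter_inter_distrib_right, e2]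
  refine HV_left (S₂ := TT) (S₂' := TT ∩ L) D.isCompact_X.isClosed hTTc
    (D.isCompact_X.isClosed.inter hLc) (hTTc.inter hLc) inter_subset_left inter_subset_left
    (flat_cT _) ?_ ?_
  · rw [e1, e3, e3']
    exact shell_HV hc2 (flat_cT _) q
  · rw [e2, e4]
    exact D.B_end_HV hc hc2 (flat_cT _) q

/-- (2.1) constant coefficients -/
theorem acyclic_EJ (q : ℕ) : HV (cT : ℂ × ℂ → ℂ × ℂ → (V →ₗ[k] V)) D.X D.EJ q :=
  D.acyclic_level (Or.inl (by norm_num)) ⟨le_rfl, by norm_num⟩ q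
theorem acyclic_EK (q : ℕ) : HV (cT : ℂ × ℂ → ℂ × ℂ → (V →ₗ[k] V)) D.X D.EK q :=
  D.acyclic_level (Or.inr (by norm_num)) ⟨by norm_num, le_rfl⟩ q

end ends

end Tube

end Pool.Agent.Helper60.Geo
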