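import Pool.Agent.Helper60.Geo.TubeG2

/-! Part G3: meridian loops and the circle lemma for `B`. -/

set_option autoImplicit false

namespace Pool.Agent.Helper60.Geo

open Set AS Topology

section general

variable {Ω G : Type*} [PseudoMetricSpace Ω] [Group G] {T : Ω → Ω → G} {S : Set Ω} {γ : ℝ → Ω}
  {g : G}

theorem HasTr.mul_nat (hT : GFlat T S) (hγ : Continuous γ) (hm : ∀ s, γ s ∈ S)
    (hper : ∀ s, γ (s + 1) = γ s) (h : HasTr T γ g) (n : ℕ) :
    HasTr T (fun s => γ (n * s)) (g ^ n) := by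
  have hpern : ∀ (n : ℕ) (s : ℝ), γ (n + s) = γ s := by
    intro n s
    induction n with
    | zero => simp
    | succ n ih =>
      rw [← ih]
      have : ((n + 1 : ℕ) : ℝ) + s = (n + s) + 1 := by push_cast; ring
      rw [this, hper]
  induction n with
  | zero =>
    have := HasTr.const hT (hm 0)
    simpa using this
  | succ n ih =>
    rcases Nat.eq_zero_or_pos n with h0 | h0
    · subst h0
      simpa using h
    · have hn : (0:ℝ) < n := by exact_mod_cast h0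
      have hn1 : (0:ℝ) < n + 1 := by linarith
      have hc : 0 < (n:ℝ) / (n + 1) := by positivity
      have hc1 : (n:ℝ) / (n + 1) < 1 := by rw [div_lt_one hn1]; linarith
      rw [pow_succ]
      refine HasTr.split hc hc1 hT ?_ (hm _) ?_ ?_
      · exact (hγ.comp (by fun_prop)).continuousOn
      · refine ih.congr fun s _ => ?_
        show γ (((n + 1 : ℕ) : ℝ) * (n / (n + 1) * s)) = γ (n * s)
        congr 1
        push_cast
        field_simp
      · refine h.congr fun s _ => ?_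
        show γ (((n + 1 : ℕ) : ℝ) * (n / (n + 1) + (1 - n / (n + 1)) * s)) = γ s
        have e : ((n + 1 : ℕ) : ℝ) * (n / (n + 1) + (1 - n / (n + 1)) * s) = n + s := by
          push_cast
          field_simp
          ring
        rw [e, hpern]

theorem HasTr.mul_int (hT : GFlat T S) (hγ : Continuous γ) (hm : ∀ s, γ s ∈ S)
    (hper : ∀ s, γ (s + 1) = γ s) (h : HasTr T γ g) (m : ℤ) :
    HasTr T (fun s => γ (m * s)) (g ^ m) := by
  have hpern : ∀ (n : ℕ) (s : ℝ), γ (n + s) = γ s := by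
    intro n s
    induction n with
    | zero => simp
    | succ n ih =>
      rw [← ih]
      have : ((n + 1 : ℕ) : ℝ) + s = (n + s) + 1 := by push_cast; ring
      rw [this, hper]
  obtain ⟨n, rfl | rfl⟩ := m.eq_nat_or_neg
  · have := HasTr.mul_nat hT hγ hm hper h n
    simpa using this
  · have := (HasTr.mul_nat hT hγ hm hper h n).symm
    rw [zpow_neg, zpow_natCast]
    refine this.congr fun s _ => ?_
    show γ (((-(n:ℤ) : ℤ) : ℝ) * s) = γ (n * (1 - s))
    rw [← hpern n (((-(n:ℤ) : ℤ) : ℝ) * s)]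
    congr 1
    push_cast
    ring

end general

namespace Tube

variable (D : Tube)

section
variable {G : Type*} [Group G] {T : ℂ × ℂ → ℂ × ℂ → G}

theorem norm_r_exp {r : ℝ} (hr : 0 < r) (s : ℝ) :
    ‖(r : ℂ) * Complex.exp (2 * Real.pi * s * Complex.I)‖ = r := by
  have h : (2 * Real.pi * s * Complex.I : ℂ) = ((2 * Real.pi * s : ℝ) : ℂ) * Complex.I := by
    push_cast; ring
  rw [h, norm_mul, Complex.norm_exp_ofReal_mul_I, mul_one, Complex.norm_real, Real.norm_eq_abs,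
    abs_of_pos hr]

theorem norm_ee' (s : ℝ) : ‖Complex.exp (2 * Real.pi * s * Complex.I)‖ = 1 := by
  have h : (2 * Real.pi * s * Complex.I : ℂ) = ((2 * Real.pi * s : ℝ) : ℂ) * Complex.I := by
    push_cast; ring
  rw [h, Complex.norm_exp_ofReal_mul_I]

theorem exp_per (s : ℝ) : Complex.exp (2 * Real.pi * ((s + 1 : ℝ) : ℂ) * Complex.I) =
    Complex.exp (2 * Real.pi * s * Complex.I) := by
  have : (2 * Real.pi * ((s + 1 : ℝ) : ℂ) * Complex.I : ℂ) =
      2 * Real.pi * s * Complex.I + 2 * Real.pi * Complex.I := by push_cast; ring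
  rw [this, Complex.exp_add, Complex.exp_two_pi_mul_I, mul_one]

/-- the torus map -/
noncomputable def tor (t r : ℝ) (x y : ℝ) : ℂ × ℂ :=
  D.f (Complex.exp (2 * Real.pi * x * Complex.I), t,
    (r : ℂ) * Complex.exp (2 * Real.pi * y * Complex.I))

theorem tor_mem {t r : ℝ} (hr : 0 < r) (hr1 : r ≤ 1) (x y : ℝ) : D.tor t r x y ∈ D.O := by
  have hn := norm_r_exp hr y
  rw [tor, D.f_mem_O_iff ⟨norm_ee' x, hn.le.trans hr1⟩]
  show (r : ℂ) * Complex.exp (2 * Real.pi * y * Complex.I) ≠ 0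
  rw [← norm_pos_iff, hn]
  exact hr

/-- general continuity criterion -/
theorem f_comp_continuousOn {Y : Type*} [TopologicalSpace Y] {A : Set Y} {u w : Y → ℂ} {t : Y → ℝ}
    (hu : ContinuousOn u A) (ht : ContinuousOn t A) (hw : ContinuousOn w A)
    (h1 : ∀ y ∈ A, ‖u y‖ = 1) (h2 : ∀ y ∈ A, ‖w y‖ ≤ 1) :
    ContinuousOn (fun y => D.f (u y, t y, w y)) A :=
  D.cont.comp (f := fun y => (u y, t y, w y)) (hu.prodMk (ht.prodMk hw))
    fun y hy => ⟨h1 y hy, h2 y hy⟩

theorem mer_mem {u : ℂ} {t r : ℝ} (hu : ‖u‖ = 1) (hr : 0 < r) (hr1 : r ≤ 1) (s : ℝ) :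
    D.mer u t r s ∈ D.O := by
  have hn := norm_r_exp hr s
  rw [mer, D.f_mem_O_iff ⟨hu, hn.le.trans hr1⟩]
  show (r : ℂ) * Complex.exp (2 * Real.pi * s * Complex.I) ≠ 0
  rw [← norm_pos_iff, hn]
  exact hr

theorem mer_cont {u : ℂ} {t r : ℝ} (hu : ‖u‖ = 1) (hr : 0 < r) (hr1 : r ≤ 1) :
    Continuous (D.mer u t r) := by
  rw [← continuousOn_univ]
  refine D.f_comp_continuousOn continuousOn_const continuousOn_const ?_ (fun _ _ => hu)
    (fun s _ => (norm_r_exp hr s).le.trans hr1)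
  exact Continuous.continuousOn (by fun_prop)

theorem mer_per {u : ℂ} {t r : ℝ} (s : ℝ) : D.mer u t r (s + 1) = D.mer u t r s := by
  simp only [mer]
  rw [exp_per]

theorem lon_mem {m : ℤ} {t r : ℝ} (hr : 0 < r) (hr1 : r ≤ 1) (s : ℝ) : D.lon m t r s ∈ D.O := by
  have h := D.tor_mem (t := t) hr hr1 s (m * s)
  have e : D.tor t r s (m * s) = D.lon m t r s := by
    simp only [tor, lon]
    push_cast
    rfl
  rwa [e] at h

theorem lon_eq {m : ℤ} {t r : ℝ} (s : ℝ) : D.lon m t r s = D.tor t r s (m * s) := by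
  simp only [tor, lon]
  push_cast
  rfl

theorem tor_continuousOn {Y : Type*} [TopologicalSpace Y] {A : Set Y} {t r x y : Y → ℝ}
    (ht : ContinuousOn t A) (hrc : ContinuousOn r A) (hx : ContinuousOn x A)
    (hy : ContinuousOn y A) (hr : ∀ p ∈ A, 0 < r p) (hr1 : ∀ p ∈ A, r p ≤ 1) :
    ContinuousOn (fun p => D.tor (t p) (r p) (x p) (y p)) A := by
  have c1 : Continuous fun s : ℝ => Complex.exp (2 * Real.pi * s * Complex.I) := by fun_prop
  refine D.f_comp_continuousOn (c1.comp_continuousOn hx) ht ?_ (fun _ _ => norm_ee' _)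
    (fun p hp => (norm_r_exp (hr p hp) _).le.trans (hr1 p hp))
  exact (Complex.continuous_ofReal.comp_continuousOn hrc).mul (c1.comp_continuousOn hy)

theorem lon_cont {m : ℤ} {t r : ℝ} (hr : 0 < r) (hr1 : r ≤ 1) : Continuous (D.lon m t r) := by
  rw [← continuousOn_univ]
  have : D.lon m t r = fun s => D.tor t r s (m * s) := funext fun s => D.lon_eq s
  rw [this]
  exact D.tor_continuousOn continuousOn_const continuousOn_const continuousOn_id
    (Continuous.continuousOn (by fun_prop)) (fun _ _ => hr) (fun _ _ => hr1)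

theorem tor_per_x {t r : ℝ} (x y : ℝ) : D.tor t r (x + 1) y = D.tor t r x y := by
  simp only [tor]
  rw [exp_per]

theorem tor_per_y {t r : ℝ} (x y : ℝ) : D.tor t r x (y + 1) = D.tor t r x y := by
  simp only [tor]
  rw [exp_per]

theorem tor_per_y_int {t r : ℝ} (x y : ℝ) (m : ℤ) : D.tor t r x (y + m) = D.tor t r x y := by
  simp only [tor]
  have : (2 * Real.pi * ((y + m : ℝ) : ℂ) * Complex.I : ℂ) =
      2 * Real.pi * y * Complex.I + m * (2 * Real.pi * Complex.I) := by push_cast; ring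
  rw [this, Complex.exp_add, Complex.exp_int_mul_two_pi_mul_I, mul_one]

theorem mer_eq {t r : ℝ} (x s : ℝ) :
    D.mer (Complex.exp (2 * Real.pi * x * Complex.I)) t r s = D.tor t r x s := rfl

theorem exists_angle {u : ℂ} (hu : ‖u‖ = 1) :
    ∃ x : ℝ, u = Complex.exp (2 * Real.pi * x * Complex.I) := by
  refine ⟨u.arg / (2 * Real.pi), ?_⟩
  have h := Complex.norm_mul_exp_arg_mul_I u
  rw [hu, Complex.ofReal_one, one_mul] at h
  have h2 : (2 * Real.pi * ((u.arg / (2 * Real.pi) : ℝ) : ℂ) * Complex.I : ℂ) =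
      u.arg * Complex.I := by
    have : (Real.pi : ℂ) ≠ 0 := by exact_mod_cast Real.pi_ne_zero
    push_cast
    field_simp
  rw [h2, h]

/-- convex combinations -/
theorem comb_pos {a b s : ℝ} (ha : 0 < a) (hb : 0 < b) (hs : s ∈ Icc (0:ℝ) 1) :
    0 < a + s * (b - a) := by
  rcases hs with ⟨h0, h1⟩
  rcases h0.lt_or_eq with h | h
  · nlinarith
  · subst h; linarith

theorem comb_le {a b s : ℝ} (ha : a ≤ 1) (hb : b ≤ 1) (hs : s ∈ Icc (0:ℝ) 1) :
    a + s * (b - a) ≤ 1 := by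
  rcases hs with ⟨h0, h1⟩
  nlinarith

/-- all meridian transports are conjugate -/
theorem mer_conj (hT : GFlat T D.O) {u u' : ℂ} {t t' r r' : ℝ} (hu : ‖u‖ = 1) (hu' : ‖u'‖ = 1)
    (hr : 0 < r) (hr1 : r ≤ 1) (hr' : 0 < r') (hr1' : r' ≤ 1) {g g' : G}
    (h : HasTr T (D.mer u t r) g) (h' : HasTr T (D.mer u' t' r') g') : ∃ a, g' = a⁻¹ * g * a := by
  obtain ⟨x, rfl⟩ := exists_angle hu
  obtain ⟨x', rfl⟩ := exists_angle hu'
  let K : ℝ → ℝ → ℂ × ℂ := fun s y =>
    D.tor (t + s * (t' - t)) (r + s * (r' - r)) (x + s * (x' - x)) y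
  have h0 : HasTr T (fun y => K 0 y) g := by
    refine h.congr fun y _ => ?_
    show D.tor (t + 0 * (t' - t)) (r + 0 * (r' - r)) (x + 0 * (x' - x)) y = _
    simp only [zero_mul, add_zero]
    rfl
  have h1 : HasTr T (fun y => K 1 y) g' := by
    refine h'.congr fun y _ => ?_
    show D.tor (t + 1 * (t' - t)) (r + 1 * (r' - r)) (x + 1 * (x' - x)) y = _
    simp only [one_mul, add_sub_cancel]
    rfl
  suffices key : ∃ a, HasTr T (fun s => K s 0) a ∧ g' = a⁻¹ * g * a by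
    obtain ⟨a, -, ha⟩ := key
    exact ⟨a, ha⟩
  refine HasTr.free_homotopic (K := K) hT ?_ ?_ ?_ h0 h1
  · refine D.tor_continuousOn (Continuous.continuousOn (by fun_prop))
      (Continuous.continuousOn (by fun_prop)) (Continuous.continuousOn (by fun_prop))
      (Continuous.continuousOn (by fun_prop)) ?_ ?_
    · rintro ⟨s, y⟩ ⟨hs, -⟩
      exact comb_pos hr hr' hs
    · rintro ⟨s, y⟩ ⟨hs, -⟩
      exact comb_le hr1 hr1' hs
  · intro s hs y _
    exact D.tor_mem (comb_pos hr hr' hs) (comb_le hr1 hr1' hs) _ _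
  · intro s _
    have := D.tor_per_y (t := t + s * (t' - t)) (r := r + s * (r' - r)) (x + s * (x' - x)) 0
    rw [zero_add] at this
    exact this.symm

/-- all transports along `lon m` are conjugate -/
theorem lon_conj (hT : GFlat T D.O) {m : ℤ} {t t' r r' : ℝ}
    (hr : 0 < r) (hr1 : r ≤ 1) (hr' : 0 < r') (hr1' : r' ≤ 1) {g g' : G}
    (h : HasTr T (D.lon m t r) g) (h' : HasTr T (D.lon m t' r') g') : ∃ a, g' = a⁻¹ * g * a := by
  let K : ℝ → ℝ → ℂ × ℂ := fun s y =>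
    D.tor (t + s * (t' - t)) (r + s * (r' - r)) y (m * y)
  have h0 : HasTr T (fun y => K 0 y) g := by
    refine h.congr fun y _ => ?_
    show D.tor (t + 0 * (t' - t)) (r + 0 * (r' - r)) y (m * y) = _
    rw [D.lon_eq]
    simp only [zero_mul, add_zero]
  have h1 : HasTr T (fun y => K 1 y) g' := by
    refine h'.congr fun y _ => ?_
    show D.tor (t + 1 * (t' - t)) (r + 1 * (r' - r)) y (m * y) = _
    rw [D.lon_eq]
    simp only [one_mul, add_sub_cancel]
  suffices key : ∃ a, HasTr T (fun s => K s 0) a ∧ g' = a⁻¹ * g * a by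
    obtain ⟨a, -, ha⟩ := key
    exact ⟨a, ha⟩
  refine HasTr.free_homotopic (K := K) hT ?_ ?_ ?_ h0 h1
  · refine D.tor_continuousOn (Continuous.continuousOn (by fun_prop))
      (Continuous.continuousOn (by fun_prop)) (Continuous.continuousOn (by fun_prop))
      (Continuous.continuousOn (by fun_prop)) ?_ ?_
    · rintro ⟨s, y⟩ ⟨hs, -⟩
      exact comb_pos hr hr' hs
    · rintro ⟨s, y⟩ ⟨hs, -⟩
      exact comb_le hr1 hr1' hs
  · intro s hs y _
    exact D.tor_mem (comb_pos hr hr' hs) (comb_le hr1 hr1' hs) _ _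
  · intro s _
    show D.tor (t + s * (t' - t)) (r + s * (r' - r)) 0 (m * 0) =
      D.tor (t + s * (t' - t)) (r + s * (r' - r)) 1 (m * 1)
    have e1 := D.tor_per_x (t := t + s * (t' - t)) (r := r + s * (r' - r)) 0 (m * 1)
    have e2 := D.tor_per_y_int (t := t + s * (t' - t)) (r := r + s * (r' - r)) 0 0 m
    rw [zero_add] at e1 e2
    rw [e1, mul_one, e2, mul_zero]

/-- twisting a longitude changes an abelian transport by the meridian -/
theorem lon_int {T : ℂ × ℂ → ℂ × ℂ → Multiplicative ℤ} (hT : GFlat T D.O) {m : ℤ} {t r : ℝ}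
    (hr : 0 < r) (hr1 : r ≤ 1) {a b c : Multiplicative ℤ} (ha : HasTr T (D.lon 0 t r) a)
    (hb : HasTr T (D.mer 1 t r) b) (hc : HasTr T (D.lon m t r) c) : c = a * b ^ m := by
  let K : ℝ → ℝ → ℂ × ℂ := fun s y => D.tor t r y (m * (s * y))
  have h1u : Complex.exp (2 * Real.pi * (0 : ℝ) * Complex.I) = 1 := by simp
  have h0 : HasTr T (fun y => K 0 y) a := by
    refine ha.congr fun y _ => ?_
    show D.tor t r y (m * (0 * y)) = _
    rw [D.lon_eq]
    simp
  have h1 : HasTr T (fun y => K 1 y) c := by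
    refine hc.congr fun y _ => ?_
    show D.tor t r y (m * (1 * y)) = _
    rw [D.lon_eq, one_mul]
  have h2 : HasTr T (fun s => K s 0) 1 := by
    refine (HasTr.const hT (D.tor_mem (t := t) hr hr1 0 0)).congr fun s _ => ?_
    show D.tor t r 0 (m * (s * 0)) = _
    simp
  have h3 : HasTr T (fun s => K s 1) (b ^ m) := by
    have := HasTr.mul_int hT (D.mer_cont (u := 1) (t := t) (by simp) hr hr1)
      (D.mer_mem (by simp) hr hr1) (fun s => D.mer_per s) hb m
    refine this.congr fun s _ => ?_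
    show D.tor t r 1 (m * (s * 1)) = D.mer 1 t r (m * s)
    have e1 := D.tor_per_x (t := t) (r := r) 0 (m * (s * 1))
    rw [zero_add] at e1
    rw [e1, mul_one]
    simp only [tor, mer]
    rw [h1u]
  suffices key : 1 * c = a * b ^ m by rwa [one_mul] at key
  refine HasTr.square (K := K) hT ?_ ?_ h0 h1 h2 h3
  · exact D.tor_continuousOn continuousOn_const continuousOn_const
      (Continuous.continuousOn (by fun_prop)) (Continuous.continuousOn (by fun_prop))
      (fun _ _ => hr) (fun _ _ => hr1)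
  · intro s _ y _
    exact D.tor_mem hr hr1 _ _

/-! ### rotation of the tube -/

/-- rotation of the disc factor -/
noncomputable def rotK (s : ℝ) (z : ℂ × ℂ) : ℂ × ℂ :=
  D.f ((D.co z).1, (D.co z).2.1, Complex.exp (2 * Real.pi * s * Complex.I) * (D.co z).2.2)

theorem rotK_f (s : ℝ) {p : ℂ × ℝ × ℂ} (hp : p ∈ Dom) :
    D.rotK s (D.f p) = D.f (p.1, p.2.1, Complex.exp (2 * Real.pi * s * Complex.I) * p.2.2) := by
  rw [rotK, D.co_f hp]

theorem norm_rot (s : ℝ) (w : ℂ) : ‖Complex.exp (2 * Real.pi * s * Complex.I) * w‖ = ‖w‖ := by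
  rw [norm_mul, norm_ee', one_mul]

theorem continuousOn_rotK :
    ContinuousOn (fun p : ℝ × (ℂ × ℂ) => D.rotK p.1 p.2) (univ ×ˢ D.Tb) := by
  have hco : ContinuousOn (fun p : ℝ × (ℂ × ℂ) => D.co p.2) (univ ×ˢ D.Tb) :=
    D.continuousOn_co.comp continuousOn_snd fun p hp => hp.2
  have c1 : Continuous fun p : ℝ × (ℂ × ℂ) => Complex.exp (2 * Real.pi * p.1 * Complex.I) := by
    fun_prop
  refine D.f_comp_continuousOn (continuous_fst.comp_continuousOn hco)
    ((continuous_fst.comp continuous_snd).comp_continuousOn hco)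
    (c1.continuousOn.mul ((continuous_snd.comp continuous_snd).comp_continuousOn hco)) ?_ ?_
  · intro p hp
    exact (co_mem hp.2).1
  · intro p hp
    show ‖Complex.exp (2 * Real.pi * p.1 * Complex.I) * (D.co p.2).2.2‖ ≤ 1
    rw [norm_rot]
    exact (co_mem hp.2).2

/-- the transport along the orbits of the rotation -/
theorem rot_loop (hT : GFlat T D.O) {g : G} {u₀ : ℂ} {t₀ r₀ : ℝ} (hu₀ : ‖u₀‖ = 1) (hr₀ : 0 < r₀)
    (hr₀1 : r₀ ≤ 1) (hg : HasTr T (D.mer u₀ t₀ r₀) g) {x : ℂ × ℂ}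
    (hx : x ∈ D.Tb) (hxO : x ∈ D.O) {g' : G} (h' : HasTr T (fun s => D.rotK s x) g') :
    ∃ a, g' = a⁻¹ * g * a := by
  obtain ⟨⟨u, t, w⟩, hp, rfl⟩ := hx
  have hw0 : w ≠ 0 := (D.f_mem_O_iff hp).1 hxO
  have hr : 0 < ‖w‖ := norm_pos_iff.2 hw0
  have hr1 : ‖w‖ ≤ 1 := hp.2
  have hu : ‖u‖ = 1 := hp.1
  obtain ⟨φ, hφ⟩ := exists_angle (u := w / ‖w‖) (by
    rw [norm_div, Complex.norm_real, norm_norm, div_self hr.ne'])
  have hw : w = (‖w‖ : ℂ) * Complex.exp (2 * Real.pi * φ * Complex.I) := by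
    rw [← hφ]
    have : (‖w‖ : ℂ) ≠ 0 := by exact_mod_cast hr.ne'
    field_simp
  have h1 : HasTr T (fun s => D.mer u t ‖w‖ (φ + s)) g' := by
    refine h'.congr fun s _ => ?_
    rw [D.rotK_f s hp, mer]
    congr 3
    have e : (2 * Real.pi * ((φ + s : ℝ) : ℂ) * Complex.I : ℂ) =
        2 * Real.pi * s * Complex.I + 2 * Real.pi * φ * Complex.I := by push_cast; ring
    rw [e, Complex.exp_add]
    calc (‖w‖ : ℂ) * (Complex.exp (2 * Real.pi * s * Complex.I) *
          Complex.exp (2 * Real.pi * φ * Complex.I))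
        = Complex.exp (2 * Real.pi * s * Complex.I) *
          ((‖w‖ : ℂ) * Complex.exp (2 * Real.pi * φ * Complex.I)) := by ring
      _ = Complex.exp (2 * Real.pi * s * Complex.I) * w := by rw [← hw]
  obtain ⟨g1, hg1⟩ := exists_hasTr (γ := D.mer u t ‖w‖) hT (D.mer_cont hu hr hr1).continuousOn
    fun s _ => D.mer_mem hu hr hr1 s
  obtain ⟨a, ha⟩ := HasTr.rotate hT (D.mer_cont hu hr hr1) (D.mer_mem hu hr hr1)
    (fun s => D.mer_per s) φ hg1 h1
  obtain ⟨b, hb⟩ := D.mer_conj hT hu₀ hu hr₀ hr₀1 hr hr1 hg hg1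
  refine ⟨b * a, ?_⟩
  rw [ha, hb]
  group

theorem isUnit_conj {k V : Type*} [CommRing k] [AddCommGroup V] [Module k V]
    (ρ : G →* (V →ₗ[k] V)) {g g' a : G} (h : g' = a⁻¹ * g * a) (hu : IsUnit (1 - ρ g)) :
    IsUnit (1 - ρ g') := by
  have e : 1 - ρ g' = ρ a⁻¹ * (1 - ρ g) * ρ a := by
    rw [h, mul_sub, sub_mul, map_mul, map_mul, mul_one, ← map_mul ρ a⁻¹ a, inv_mul_cancel, map_one]
  rw [e]
  exact (((Group.isUnit a⁻¹).map ρ).mul hu).mul ((Group.isUnit a).map ρ)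

/-- (CL) for rotation invariant pairs in the tube -/
theorem rot_acyclic {k V : Type*} [CommRing k] [AddCommGroup V] [Module k V] (hT : GFlat T D.O)
    (ρ : G →* (V →ₗ[k] V)) {g : G} {u₀ : ℂ} {t₀ r₀ : ℝ} (hu₀ : ‖u₀‖ = 1) (hr₀ : 0 < r₀)
    (hr₀1 : r₀ ≤ 1) (hg : HasTr T (D.mer u₀ t₀ r₀) g) (hu : IsUnit (1 - ρ g))
    {S S₁ : Set (ℂ × ℂ)} (hS : IsCompact S) (c1 : IsClosed S₁) (h1 : S₁ ⊆ S) (hSO : S ⊆ D.O)
    (hST : S ⊆ D.Tb) (mS : ∀ s, MapsTo (D.rotK s) S S) (mS1 : ∀ s, MapsTo (D.rotK s) S₁ S₁)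
    (q : ℕ) : HV (sys T ρ) S S₁ q := by
  refine circle_lemma hS c1 h1 (hT.mono hSO) ρ D.rotK ?_ ?_ ?_ (fun s _ => mS s)
    (fun s _ => mS1 s) ?_ q
  · exact D.continuousOn_rotK.mono (prod_mono (subset_univ _) hST)
  · intro x hx
    rw [rotK]
    simp only [Complex.ofReal_zero, mul_zero, zero_mul, Complex.exp_zero, one_mul]
    exact f_co (hST hx)
  · intro x hx
    rw [rotK]
    simp only [Complex.ofReal_one, mul_one, Complex.exp_two_pi_mul_I, one_mul]
    exact f_co (hST hx)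
  · intro x hx g' h'
    obtain ⟨a, ha⟩ := D.rot_loop hT hu₀ hr₀ hr₀1 hg (hST hx) (hSO hx) h'
    exact isUnit_conj ρ ha hu

theorem rotK_mem_B {s : ℝ} {z : ℂ × ℂ} (hz : z ∈ D.B) : D.rotK s z ∈ D.B := by
  obtain ⟨u, t, w, hu, h1, h2, hw, rfl⟩ := hz
  rw [D.rotK_f s ⟨hu, by simp only [hw]; norm_num⟩]
  exact ⟨u, t, _, hu, h1, h2, by rw [norm_rot, hw], rfl⟩

/-- a point of `B` lies in the ends iff its `t`-coordinate does -/
theorem mem_B_ends {z : ℂ × ℂ} : z ∈ D.B ∩ (D.EJ ∪ D.EK) ↔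
    z ∈ D.B ∧ ((D.co z).2.1 = -1 ∨ (D.co z).2.1 = 2) := by
  refine and_congr_right fun hB => ?_
  have hX := D.B_subset hB
  have hT := D.B_subset_Tb hB
  have hm := co_mem hT
  have hf := f_co hT
  have e1 : nrm z = Real.exp (-1) ↔ (D.co z).2.1 = -1 := by
    have := D.nrm_f_eq_iff (t := (D.co z).2.1) (c := -1) hm.1 hm.2 (Or.inl (by norm_num))
    rwa [show D.f ((D.co z).1, (D.co z).2.1, (D.co z).2.2) = z from hf] at this
  have e2 : nrm z = Real.exp 2 ↔ (D.co z).2.1 = 2 := by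
    have := D.nrm_f_eq_iff (t := (D.co z).2.1) (c := 2) hm.1 hm.2 (Or.inr (by norm_num))
    rwa [show D.f ((D.co z).1, (D.co z).2.1, (D.co z).2.2) = z from hf] at this
  rw [← e1, ← e2]
  constructor
  · rintro (h | h)
    · exact Or.inl h.2
    · exact Or.inr h.2
  · rintro (h | h)
    · exact Or.inl ⟨hX, h⟩
    · exact Or.inr ⟨hX, h⟩

theorem rotK_mem_B_ends {s : ℝ} {z : ℂ × ℂ} (hz : z ∈ D.B ∩ (D.EJ ∪ D.EK)) :
    D.rotK s z ∈ D.B ∩ (D.EJ ∪ D.EK) := by
  rw [mem_B_ends] at hz ⊢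
  refine ⟨D.rotK_mem_B hz.1, ?_⟩
  have hT := D.B_subset_Tb hz.1
  have hm : (((D.co z).1, (D.co z).2.1, Complex.exp (2 * Real.pi * s * Complex.I) *
      (D.co z).2.2) : ℂ × ℝ × ℂ) ∈ Dom :=
    ⟨(co_mem hT).1, by
      show ‖Complex.exp (2 * Real.pi * s * Complex.I) * (D.co z).2.2‖ ≤ 1
      rw [norm_rot]
      exact (co_mem hT).2⟩
  rw [rotK, D.co_f hm]
  exact hz.2

/-- (CL) for the vertical boundary and its ends -/
theorem B_acyclic {k V : Type*} [CommRing k] [AddCommGroup V] [Module k V] (hT : GFlat T D.O)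
    (ρ : G →* (V →ₗ[k] V)) {g : G} (hg : HasTr T (D.mer 1 0 (1/2)) g) (hu : IsUnit (1 - ρ g))
    (q : ℕ) : HV (sys T ρ) D.B ∅ q ∧ HV (sys T ρ) (D.B ∩ (D.EJ ∪ D.EK)) ∅ q ∧
      HV (sys T ρ) D.B (D.B ∩ (D.EJ ∪ D.EK)) q := by
  have hE : IsClosed (D.EJ ∪ D.EK) := D.isClosed_EJ.union D.isClosed_EK
  have hBO : D.B ⊆ D.O := D.B_subset.trans D.X_subset_O
  have h1 : ‖(1:ℂ)‖ = 1 := norm_one
  refine ⟨?_, ?_, ?_⟩
  · exact D.rot_acyclic hT ρ h1 (by norm_num) (by norm_num) hg hu D.isCompact_B isClosed_empty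
      (empty_subset _) hBO D.B_subset_Tb (fun s z hz => D.rotK_mem_B hz)
      (fun s z hz => hz.elim) q
  · exact D.rot_acyclic hT ρ h1 (by norm_num) (by norm_num) hg hu (D.isCompact_B.inter_right hE)
      isClosed_empty (empty_subset _) (inter_subset_left.trans hBO)
      (inter_subset_left.trans D.B_subset_Tb) (fun s z hz => D.rotK_mem_B_ends hz)
      (fun s z hz => hz.elim) q
  · exact D.rot_acyclic hT ρ h1 (by norm_num) (by norm_num) hg hu D.isCompact_B
      (D.isClosed_B.inter hE) inter_subset_left hBO D.B_subset_Tb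
      (fun s z hz => D.rotK_mem_B hz) (fun s z hz => D.rotK_mem_B_ends hz) q

/-- hence the vertical boundary may be dropped -/
theorem X_drop_B {k V : Type*} [CommRing k] [AddCommGroup V] [Module k V] (hT : GFlat T D.O)
    (ρ : G →* (V →ₗ[k] V)) {g : G} (hg : HasTr T (D.mer 1 0 (1/2)) g) (hu : IsUnit (1 - ρ g))
    (q : ℕ) : Nonempty (H (sys T ρ) D.X (D.EJ ∪ D.EK ∪ D.B) q ≃ₗ[k]
      H (sys T ρ) D.X (D.EJ ∪ D.EK) q) := by
  have hE : IsClosed (D.EJ ∪ D.EK) := D.isClosed_EJ.union D.isClosed_EK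
  have hTX : Flat (sys T ρ) D.X := (hT.mono D.X_subset_O).sys ρ
  have hBX : D.EJ ∪ D.EK ∪ D.B ⊆ D.X :=
    union_subset (union_subset D.EJ_subset D.EK_subset) D.B_subset
  have h' : D.EJ ∪ D.EK ⊆ D.EJ ∪ D.EK ∪ D.B := subset_union_left
  have hv : ∀ q, HV (sys T ρ) (D.EJ ∪ D.EK ∪ D.B) (D.EJ ∪ D.EK) q := by
    intro q
    have h1 := (D.B_acyclic hT ρ hg hu q).2.2
    rw [HV_iff_subsingleton] at h1 ⊢
    have hb := excision_of_eq (T := sys T ρ) D.isClosed_B hE (hTX.mono D.B_subset)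
      (union_comm _ _) rfl subset_union_right inter_subset_right q
    exact hb.1.subsingleton
  have hinj : Function.Injective (Hres (sys T ρ) (le_refl D.X) h' q :
      H (sys T ρ) D.X (D.EJ ∪ D.EK ∪ D.B) q →ₗ[k] H (sys T ρ) D.X (D.EJ ∪ D.EK) q) := by
    cases q with
    | zero => exact inj_triple0 hTX hBX h'
    | succ q =>
      rw [← LinearMap.ker_eq_bot, eq_bot_iff]
      intro x hx
      have h3 := exact_triple3 hTX hBX h' q x
      obtain ⟨y, rfl⟩ := h3.1 hx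
      have : Subsingleton (H (sys T ρ) (D.EJ ∪ D.EK ∪ D.B) (D.EJ ∪ D.EK) q) :=
        HV_iff_subsingleton.1 (hv q)
      rw [Subsingleton.elim y 0, map_zero]
      exact Submodule.zero_mem _
  have hsurj : Function.Surjective (Hres (sys T ρ) (le_refl D.X) h' q :
      H (sys T ρ) D.X (D.EJ ∪ D.EK ∪ D.B) q →ₗ[k] H (sys T ρ) D.X (D.EJ ∪ D.EK) q) := by
    intro x
    have h3 := exact_triple1 hTX hBX h' q x
    have : Subsingleton (H (sys T ρ) (D.EJ ∪ D.EK ∪ D.B) (D.EJ ∪ D.EK) q) :=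
      HV_iff_subsingleton.1 (hv q)
    exact h3.1 (Subsingleton.elim _ _)
  exact ⟨LinearEquiv.ofBijective _ ⟨hinj, hsurj⟩⟩

end

end Tube

end Pool.Agent.Helper60.Geo
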