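import Pool.Agent.Helper60.Geo.TubeG3

/-! Part G4: duality for the exterior. -/

set_option autoImplicit false

namespace Pool.Agent.Helper60.Geo

open Set AS Topology

/-- two subquotients of vector spaces in perfect duality have the same dimension -/
theorem finrank_eq_of_pairing {k A B : Type*} [Field k] [AddCommGroup A] [Module k A]
    [AddCommGroup B] [Module k B] [Module.Finite k A] (P : A →ₗ[k] B →ₗ[k] k)
    (h1 : ∀ a, (∀ b, P a b = 0) → a = 0) (h2 : ∀ b, (∀ a, P a b = 0) → b = 0) :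
    Module.finrank k A = Module.finrank k B := by
  have i2 : Function.Injective P.flip := by
    rw [← LinearMap.ker_eq_bot, eq_bot_iff]
    intro b hb
    refine h2 b fun a => ?_
    have := congrArg (fun φ => φ a) (LinearMap.mem_ker.1 hb)
    simpa using this
  have i1 : Function.Injective P := by
    rw [← LinearMap.ker_eq_bot, eq_bot_iff]
    intro a ha
    refine h1 a fun b => ?_
    have := congrArg (fun φ => φ b) (LinearMap.mem_ker.1 ha)
    simpa using this
  have : Module.Finite k (A →ₗ[k] k) := inferInstance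
  have fB : Module.Finite k B := Module.Finite.of_injective P.flip i2
  refine le_antisymm ?_ ?_
  · calc Module.finrank k A ≤ Module.finrank k (B →ₗ[k] k) :=
        LinearMap.finrank_le_finrank_of_injective i1
      _ = Module.finrank k B := Subspace.dual_finrank_eq
  · calc Module.finrank k B ≤ Module.finrank k (A →ₗ[k] k) :=
        LinearMap.finrank_le_finrank_of_injective i2
      _ = Module.finrank k A := Subspace.dual_finrank_eq

/-- the same for `H` defined by cochains -/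
theorem finrank_H_eq_of_pairing {Ω k V : Type*} [PseudoMetricSpace Ω] [Field k] [AddCommGroup V]
    [Module k V] {T : Ω → Ω → (V →ₗ[k] V)} {S S' R R' : Set Ω} {i j : ℕ}
    [Module.Finite k (H T S S' i)]
    (P : (List Ω → V) →ₗ[k] (List Ω → V) →ₗ[k] k)
    (w1 : ∀ f ∈ Zc T S S' i, ∀ g ∈ Bc T R R' j, P f g = 0)
    (w2 : ∀ f ∈ Bc T S S' i, ∀ g ∈ Zc T R R' j, P f g = 0)
    (h1 : ∀ f ∈ Zc T S S' i, (∀ g ∈ Zc T R R' j, P f g = 0) → f ∈ Bc T S S' i)
    (h2 : ∀ g ∈ Zc T R R' j, (∀ f ∈ Zc T S S' i, P f g = 0) → g ∈ Bc T R R' j) :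
    Module.finrank k (H T S S' i) = Module.finrank k (H T R R' j) := by
  -- the pairing on cocycles
  let Q0 : Zc T S S' i →ₗ[k] Zc T R R' j →ₗ[k] k :=
    (P.domRestrict (Zc T S S' i)).compl₂ (Zc T R R' j).subtype |>.comp LinearMap.id
  have hQ0 : ∀ f g, Q0 f g = P f.1 g.1 := fun f g => rfl
  -- descend in the second variable
  let Q1 : Zc T S S' i →ₗ[k] H T R R' j →ₗ[k] k :=
    { toFun := fun f => Submodule.liftQ _ (Q0 f) (by
        intro g hg
        rw [LinearMap.mem_ker, hQ0]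
        exact w1 _ f.2 _ hg)
      map_add' := by
        intro f f'
        apply LinearMap.ext
        intro x
        obtain ⟨g, rfl⟩ := H.mk_surjective j x
        show Q0 (f + f') g = Q0 f g + Q0 f' g
        rw [map_add]
        rfl
      map_smul' := by
        intro a f
        apply LinearMap.ext
        intro x
        obtain ⟨g, rfl⟩ := H.mk_surjective j x
        show Q0 (a • f) g = a • Q0 f g
        rw [map_smul]
        rfl }
  have hQ1 : ∀ f (g : Zc T R R' j), Q1 f (H.mk T R R' j g) = P f.1 g.1 := fun f g => rfl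
  let Q2 : H T S S' i →ₗ[k] H T R R' j →ₗ[k] k := Submodule.liftQ _ Q1 (by
    intro f hf
    rw [LinearMap.mem_ker]
    apply LinearMap.ext
    intro x
    obtain ⟨g, rfl⟩ := H.mk_surjective j x
    rw [hQ1]
    exact w2 _ hf _ g.2)
  have hQ2 : ∀ (f : Zc T S S' i) (g : Zc T R R' j),
      Q2 (H.mk T S S' i f) (H.mk T R R' j g) = P f.1 g.1 := fun f g => rfl
  refine finrank_eq_of_pairing Q2 ?_ ?_
  · intro a ha
    obtain ⟨f, rfl⟩ := H.mk_surjective i a
    rw [H.mk_eq_zero]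
    refine h1 _ f.2 fun g hg => ?_
    have := ha (H.mk T R R' j ⟨g, hg⟩)
    rwa [hQ2] at this
  · intro b hb
    obtain ⟨g, rfl⟩ := H.mk_surjective j b
    rw [H.mk_eq_zero]
    refine h2 _ g.2 fun f hf => ?_
    have := hb (H.mk T S S' i ⟨f, hf⟩)
    rwa [hQ2] at this

namespace Tube

variable (D : Tube)

theorem Xar_mono {a a' r r' : ℝ} (haa : a ≤ a') (hrr : r' ≤ r) : D.Xar a r ⊆ D.Xar a' r' := by
  rintro z ⟨⟨h1, h2⟩, h3⟩
  refine ⟨⟨(Real.exp_le_exp.2 (by linarith)).trans h1,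
    h2.trans (Real.exp_le_exp.2 (by linarith))⟩, ?_⟩
  rintro ⟨u, t, w, hu, hw, rfl⟩
  exact h3 ⟨u, t, w, hu, hw.trans_le hrr, rfl⟩

/-- strictly larger exteriors are neighbourhoods -/
theorem Xar_subset_interior {a a' r r' : ℝ} (haa : a < a') (hr' : 0 < r') (hrr : r' < r)
    (hr1 : r ≤ 1) : D.Xar a r ⊆ interior (D.Xar a' r') := by
  rw [D.interior_Xar hr' (by linarith)]
  rintro z ⟨⟨h1, h2⟩, h3⟩
  refine ⟨(Real.exp_lt_exp.2 (by linarith)).trans_le h1,
    h2.trans_lt (Real.exp_lt_exp.2 (by linarith)), ?_⟩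
  rintro ⟨u, t, w, hu, hw, rfl⟩
  exact h3 ⟨u, t, w, hu, hw.trans_lt hrr, rfl⟩

/-- a class vanishing on a smaller exterior vanishes -/
theorem Bc_of_restrict {k V : Type*} [CommRing k] [AddCommGroup V] [Module k V]
    {T : ℂ × ℂ → ℂ × ℂ → (V →ₗ[k] V)} (hT : Flat T D.O) {a a' r r' : ℝ}
    (ha : 0 < a) (haa : a ≤ a') (hr : 0 < r') (hrr : r' ≤ r) (hr1 : r < 1) {q : ℕ}
    {f : List (ℂ × ℂ) → V} (hf : f ∈ Zc T (D.Xar a' r') ∅ q) (hb : f ∈ Bc T (D.Xar a r) ∅ q) :
    f ∈ Bc T (D.Xar a' r') ∅ q := by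
  have h := (D.Xar_restrict hT ha haa hr hrr hr1 (D.Xar_mono haa hrr) q).1
  have h1 := h (a₁ := H.mk T (D.Xar a' r') ∅ q ⟨f, hf⟩) (a₂ := 0) (by
    rw [map_zero]
    show H.mk T (D.Xar a r) ∅ q ⟨f, Zc_mono (D.Xar_mono haa hrr) (le_refl ∅) q hf⟩ = 0
    rw [H.mk_eq_zero]
    exact hb)
  rwa [H.mk_eq_zero] at h1

/-- a compactly supported class vanishing in a larger exterior vanishes -/
theorem Bc_of_extend {k V : Type*} [CommRing k] [AddCommGroup V] [Module k V]
    {T : ℂ × ℂ → ℂ × ℂ → (V →ₗ[k] V)} (hT : Flat T D.O) {a a' r r' : ℝ}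
    (ha : 0 < a) (haa : a < a') (hr : 0 < r') (hrr : r' < r) (hr1 : r < 1) {q : ℕ}
    {f : List (ℂ × ℂ) → V} (hf : f ∈ Zc T univ (interior (D.Xar a r))ᶜ q)
    (hb : f ∈ Bc T univ (interior (D.Xar a' r'))ᶜ q) :
    f ∈ Bc T univ (interior (D.Xar a r))ᶜ q := by
  have hs : (interior (D.Xar a' r'))ᶜ ⊆ (interior (D.Xar a r))ᶜ :=
    compl_subset_compl.2 (interior_mono (D.Xar_mono haa.le hrr.le))
  have h := (D.Xar_extend hT ha haa hr hrr hr1 hs q).1
  have h1 := h (a₁ := H.mk T univ (interior (D.Xar a r))ᶜ q ⟨f, hf⟩) (a₂ := 0) (by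
    rw [map_zero]
    show H.mk T univ (interior (D.Xar a' r'))ᶜ q ⟨f, Zc_mono (le_refl univ) hs q hf⟩ = 0
    rw [H.mk_eq_zero]
    exact hb)
  rwa [H.mk_eq_zero] at h1

/-- (2.2) -/
theorem duality {G : Type*} [Group G] {T : ℂ × ℂ → ℂ × ℂ → G} (hT : GFlat T D.O)
    {k V : Type*} [Field k] [AddCommGroup V] [Module k V] [FiniteDimensional k V]
    (ρ : G →* (V →ₗ[k] V)) (Bf : V →ₗ[k] V →ₗ[k] k) (hB : ∀ v, (∀ w, Bf v w = 0) → v = 0)
    (hB' : ∀ w, (∀ v, Bf v w = 0) → w = 0) (hinv : ∀ g v w, Bf (ρ g v) (ρ g w) = Bf v w)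
    {g : G} (hg : HasTr T (D.mer 1 0 (1/2)) g) (hu : IsUnit (1 - ρ g))
    (i j : ℕ) (hij : i + j = 4) :
    Module.finrank k (H (sys T ρ) D.X ∅ i) = Module.finrank k (H (sys T ρ) D.X (D.EJ ∪ D.EK) j) := by
  have hTs : Flat (sys T ρ) D.O := hT.sys ρ
  obtain ⟨e1⟩ := D.X_interior_bij hTs j
  obtain ⟨e2⟩ := D.X_drop_B hT ρ hg hu j
  rw [← (e1.trans e2).finrank_eq]
  -- the bounded open set
  set O' : Set (ℂ × ℂ) := interior (D.Xar 3 (1/8)) with hO'
  have hO'c : O' ⊆ D.Xar 3 (1/8) := interior_subset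
  have hO'O : O' ⊆ D.O := hO'c.trans (D.Xar_subset_O (by norm_num))
  have hbd : Bornology.IsBounded O' :=
    (D.isCompact_Xar (a := 3) (r := 1/8) (by norm_num) (by norm_num)).isBounded.subset hO'c
  obtain ⟨P, hP1, hP2⟩ := exists_pairing isOpen_interior hbd (hTs.mono hO'O) Bf hB hB'
    (fun x y v w => hinv (T x y) v w) i j hij
  have hXO' : D.X ⊆ O' := D.Xar_subset_interior (by norm_num) (by norm_num) (by norm_num)
    (by norm_num)
  have fin : Module.Finite k (H (sys T ρ) D.X ∅ i) :=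
    FG_iff.1 (FG_CR D.CR_X (hTs.mono D.X_subset_O) i)
  have hw := hP1 (interior D.X) D.X isOpen_interior interior_subset hXO'
  refine finrank_H_eq_of_pairing P (fun f hf g hg => (hw f g).1 hf hg)
    (fun f hf g hg => (hw f g).2 hf hg) ?_ ?_
  · -- cocycles of `X`
    intro f hf h0
    obtain ⟨Q, U, hgood, hYU, hQO⟩ := exists_good (Y := D.Xar (1/2) (3/4))
      (O := interior D.X) (D.isCompact_Xar (by norm_num) (by norm_num)) isOpen_interior
      (D.Xar_subset_interior (by norm_num) (by norm_num) (by norm_num) (by norm_num))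
    have hUQ : U ⊆ Q := by
      obtain ⟨s, -, -, rfl, rfl⟩ := hgood
      exact iUnion₂_mono fun C _ => interior_subset
    have hQX : Q ⊆ D.X := hQO.trans interior_subset
    have hfQ : f ∈ Bc (sys T ρ) Q ∅ i := by
      refine (hP2 Q U hgood (hQX.trans hXO')).1 f (Zc_mono hQX (le_refl ∅) i hf) ?_
      intro g hg
      exact h0 g (Zc_mono (le_refl univ) (compl_subset_compl.2 (hUQ.trans hQO)) j hg)
    have hfY : f ∈ Bc (sys T ρ) (D.Xar (1/2) (3/4)) ∅ i :=
      Bc_mono (hYU.trans hUQ) (le_refl ∅) i hfQ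
    exact D.Bc_of_restrict hTs (by norm_num) (by norm_num) (by norm_num) (by norm_num)
      (by norm_num) hf hfY
  · intro g hg h0
    obtain ⟨Q, U, hgood, hYU, hQO⟩ := exists_good (Y := D.X)
      (O := interior (D.Xar 2 (1/4))) D.isCompact_X isOpen_interior
      (D.Xar_subset_interior (by norm_num) (by norm_num) (by norm_num) (by norm_num))
    have hUQ : U ⊆ Q := by
      obtain ⟨s, -, -, rfl, rfl⟩ := hgood
      exact iUnion₂_mono fun C _ => interior_subset
    have hQO' : Q ⊆ O' := hQO.trans (interior_mono (D.Xar_mono (by norm_num) (by norm_num)))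
    have hgU : g ∈ Bc (sys T ρ) univ Uᶜ j := by
      refine (hP2 Q U hgood hQO').2 g
        (Zc_mono (le_refl univ) (compl_subset_compl.2 (interior_subset.trans hYU)) j hg) ?_
      intro f hf
      exact h0 f (Zc_mono (hYU.trans hUQ) (le_refl ∅) i hf)
    have hgY : g ∈ Bc (sys T ρ) univ (interior (D.Xar 2 (1/4)))ᶜ j :=
      Bc_mono (le_refl univ) (compl_subset_compl.2 (hUQ.trans hQO)) j hgU
    exact D.Bc_of_extend hTs (by norm_num) (by norm_num) (by norm_num) (by norm_num)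
      (by norm_num) hg hgY

end Tube

end Pool.Agent.Helper60.Geo
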