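import Pool.Agent.Helper60.Geo.TubeG4
import Pool.Agent.Helper60.AS.H1

/-! Part G5: product tubes, retraction, comparison of `S³ ∖ J` with `EJ`. -/

set_option autoImplicit false

namespace Pool.Agent.Helper60.Geo

open Set AS Topology

namespace Tube

variable (D : Tube)

/-! ### product tubes -/

theorem f_zero_mem {u w : ℂ} (hu : ‖u‖ = 1) (hw : ‖w‖ ≤ 1) (t : ℝ) :
    ((u, t, w) : ℂ × ℝ × ℂ) ∈ Dom := ⟨hu, hw⟩

/-- the product tube over the lower end -/
noncomputable def lowTube : Tube where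
  f p := Real.exp p.2.1 • D.f (p.1, 0, p.2.2)
  cont := by
    have h1 : ContinuousOn (fun p : ℂ × ℝ × ℂ => D.f (p.1, 0, p.2.2)) Dom :=
      D.f_comp_continuousOn continuousOn_fst continuousOn_const
        (continuous_snd.comp continuous_snd).continuousOn (fun p hp => hp.1) (fun p hp => hp.2)
    have h2 : ContinuousOn (fun p : ℂ × ℝ × ℂ => Real.exp p.2.1) Dom :=
      Continuous.continuousOn (by fun_prop)
    exact h2.smul h1
  inj := by
    rintro ⟨u, t, w⟩ hp ⟨u', t', w'⟩ hp' h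
    simp only at h
    have h1 := congrArg nrm h
    rw [nrm_smul_of_pos (Real.exp_pos _), nrm_smul_of_pos (Real.exp_pos _), D.nrm0 _ _ hp.1 hp.2,
      D.nrm0 _ _ hp'.1 hp'.2, mul_one, mul_one] at h1
    have ht := Real.exp_injective h1
    subst ht
    have h2 := smul_right_injective (ℂ × ℂ) (Real.exp_pos t).ne' h
    have h3 := D.inj (show ((u, 0, w) : ℂ × ℝ × ℂ) ∈ Dom from hp)
      (show ((u', 0, w') : ℂ × ℝ × ℂ) ∈ Dom from hp') h2
    simp only [Prod.mk.injEq, true_and] at h3 ⊢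
    exact h3
  low := by
    intro u t w _ _ _
    simp only [Real.exp_zero, one_smul]
  high := by
    intro u t w _ _ _
    simp only
    rw [smul_smul, ← Real.exp_add, sub_add_cancel]
  nrm0 := by
    intro u w hu hw
    simp only
    rw [Real.exp_zero, one_smul]
    exact D.nrm0 u w hu hw
  nrm1 := by
    intro u w hu hw
    simp only
    rw [nrm_smul_of_pos (Real.exp_pos _), D.nrm0 u w hu hw, mul_one]
  mid := by
    intro u t w hu hw h0 h1
    simp only
    rw [nrm_smul_of_pos (Real.exp_pos _), D.nrm0 u w hu hw, mul_one]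
    exact ⟨Real.one_lt_exp_iff.2 h0, Real.exp_lt_exp.2 h1⟩

/-- the product tube over the upper end -/
noncomputable def highTube : Tube where
  f p := Real.exp (p.2.1 - 1) • D.f (p.1, 1, p.2.2)
  cont := by
    have h1 : ContinuousOn (fun p : ℂ × ℝ × ℂ => D.f (p.1, 1, p.2.2)) Dom :=
      D.f_comp_continuousOn continuousOn_fst continuousOn_const
        (continuous_snd.comp continuous_snd).continuousOn (fun p hp => hp.1) (fun p hp => hp.2)
    have h2 : ContinuousOn (fun p : ℂ × ℝ × ℂ => Real.exp (p.2.1 - 1)) Dom :=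
      Continuous.continuousOn (by fun_prop)
    exact h2.smul h1
  inj := by
    rintro ⟨u, t, w⟩ hp ⟨u', t', w'⟩ hp' h
    simp only at h
    have h1 := congrArg nrm h
    rw [nrm_smul_of_pos (Real.exp_pos _), nrm_smul_of_pos (Real.exp_pos _), D.nrm1 _ _ hp.1 hp.2,
      D.nrm1 _ _ hp'.1 hp'.2] at h1
    have h4 := mul_right_cancel₀ (Real.exp_pos 1).ne' h1
    have ht : t = t' := by
      have := Real.exp_injective h4
      linarith
    subst ht
    have h2 := smul_right_injective (ℂ × ℂ) (Real.exp_pos (t - 1)).ne' h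
    have h3 := D.inj (show ((u, 1, w) : ℂ × ℝ × ℂ) ∈ Dom from hp)
      (show ((u', 1, w') : ℂ × ℝ × ℂ) ∈ Dom from hp') h2
    simp only [Prod.mk.injEq, true_and] at h3 ⊢
    exact h3
  low := by
    intro u t w _ _ _
    simp only
    rw [smul_smul, ← Real.exp_add]
    congr 2
    ring
  high := by
    intro u t w _ _ _
    simp only
    rw [sub_self, Real.exp_zero, one_smul]
  nrm0 := by
    intro u w hu hw
    simp only
    rw [nrm_smul_of_pos (Real.exp_pos _), D.nrm1 u w hu hw, ← Real.exp_add]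
    simp
  nrm1 := by
    intro u w hu hw
    simp only
    rw [sub_self, Real.exp_zero, one_smul]
    exact D.nrm1 u w hu hw
  mid := by
    intro u t w hu hw h0 h1
    simp only
    rw [nrm_smul_of_pos (Real.exp_pos _), D.nrm1 u w hu hw, ← Real.exp_add, sub_add_cancel]
    exact ⟨Real.one_lt_exp_iff.2 h0, Real.exp_lt_exp.2 h1⟩

/-- a tube which is a product -/
def IsProd : Prop := ∀ u t w, ‖u‖ = 1 → ‖w‖ ≤ 1 → D.f (u, t, w) = Real.exp t • D.f (u, 0, w)

theorem lowTube_f (p : ℂ × ℝ × ℂ) : D.lowTube.f p = Real.exp p.2.1 • D.f (p.1, 0, p.2.2) := rfl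
theorem highTube_f (p : ℂ × ℝ × ℂ) :
    D.highTube.f p = Real.exp (p.2.1 - 1) • D.f (p.1, 1, p.2.2) := rfl

theorem isProd_lowTube : D.lowTube.IsProd := by
  intro u t w _ _
  rw [lowTube_f, lowTube_f]
  simp only [Real.exp_zero, one_smul]

theorem isProd_highTube : D.highTube.IsProd := by
  intro u t w _ _
  rw [highTube_f, highTube_f, smul_smul, ← Real.exp_add]
  congr 2
  ring

theorem lowTube_f_eq {u w : ℂ} {t : ℝ} (hu : ‖u‖ = 1) (hw : ‖w‖ ≤ 1) (ht : t ≤ 0) :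
    D.lowTube.f (u, t, w) = D.f (u, t, w) := by
  rw [lowTube_f, D.low u t w hu hw ht]

theorem highTube_f_eq {u w : ℂ} {t : ℝ} (hu : ‖u‖ = 1) (hw : ‖w‖ ≤ 1) (ht : 1 ≤ t) :
    D.highTube.f (u, t, w) = D.f (u, t, w) := by
  rw [highTube_f, D.high u t w hu hw ht]

theorem lowTube_N_iff {r : ℝ} (hr1 : r ≤ 1) {z : ℂ × ℂ} (hz : nrm z ≤ Real.exp 0) :
    z ∈ D.lowTube.N r ↔ z ∈ D.N r := by
  constructor
  · rintro ⟨u, t, w, hu, hw, rfl⟩
    have hw1 := hw.le.trans hr1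
    have ht : t ≤ 0 := (D.lowTube.nrm_f_le_iff hu hw1 (Or.inl le_rfl)).1 hz
    exact ⟨u, t, w, hu, hw, D.lowTube_f_eq hu hw1 ht⟩
  · rintro ⟨u, t, w, hu, hw, rfl⟩
    have hw1 := hw.le.trans hr1
    have ht : t ≤ 0 := (D.nrm_f_le_iff hu hw1 (Or.inl le_rfl)).1 hz
    exact ⟨u, t, w, hu, hw, (D.lowTube_f_eq hu hw1 ht).symm⟩

theorem highTube_N_iff {r : ℝ} (hr1 : r ≤ 1) {z : ℂ × ℂ} (hz : Real.exp 1 ≤ nrm z) :
    z ∈ D.highTube.N r ↔ z ∈ D.N r := by
  constructor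
  · rintro ⟨u, t, w, hu, hw, rfl⟩
    have hw1 := hw.le.trans hr1
    have ht : 1 ≤ t := (D.highTube.le_nrm_f_iff hu hw1 (Or.inr le_rfl)).1 hz
    exact ⟨u, t, w, hu, hw, D.highTube_f_eq hu hw1 ht⟩
  · rintro ⟨u, t, w, hu, hw, rfl⟩
    have hw1 := hw.le.trans hr1
    have ht : 1 ≤ t := (D.le_nrm_f_iff hu hw1 (Or.inr le_rfl)).1 hz
    exact ⟨u, t, w, hu, hw, (D.highTube_f_eq hu hw1 ht).symm⟩

theorem lowTube_EJ : D.lowTube.EJ = D.EJ := by
  ext z
  constructor
  · rintro ⟨hX, hz⟩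
    have hz' : nrm z = Real.exp (-1) := hz
    have h0 : nrm z ≤ Real.exp 0 := by rw [hz']; exact Real.exp_le_exp.2 (by norm_num)
    rw [mem_X_iff, D.lowTube_N_iff (by norm_num) h0, ← mem_X_iff] at hX
    exact ⟨hX, hz⟩
  · rintro ⟨hX, hz⟩
    have hz' : nrm z = Real.exp (-1) := hz
    have h0 : nrm z ≤ Real.exp 0 := by rw [hz']; exact Real.exp_le_exp.2 (by norm_num)
    rw [mem_X_iff, ← D.lowTube_N_iff (by norm_num) h0, ← mem_X_iff] at hX
    exact ⟨hX, hz⟩

theorem highTube_EK : D.highTube.EK = D.EK := by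
  ext z
  constructor
  · rintro ⟨hX, hz⟩
    have hz' : nrm z = Real.exp 2 := hz
    have h0 : Real.exp 1 ≤ nrm z := by rw [hz']; exact Real.exp_le_exp.2 (by norm_num)
    rw [mem_X_iff, D.highTube_N_iff (by norm_num) h0, ← mem_X_iff] at hX
    exact ⟨hX, hz⟩
  · rintro ⟨hX, hz⟩
    have hz' : nrm z = Real.exp 2 := hz
    have h0 : Real.exp 1 ≤ nrm z := by rw [hz']; exact Real.exp_le_exp.2 (by norm_num)
    rw [mem_X_iff, ← D.highTube_N_iff (by norm_num) h0, ← mem_X_iff] at hX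
    exact ⟨hX, hz⟩

variable {D} in
/-- scaling in a product tube -/
theorem IsProd.smul_N {D : Tube} (hP : D.IsProd) {r c : ℝ} (hr1 : r ≤ 1) (hc : 0 < c)
    {z : ℂ × ℂ} (hz : z ∈ D.N r) : c • z ∈ D.N r := by
  obtain ⟨u, t, w, hu, hw, rfl⟩ := hz
  have hw1 := hw.le.trans hr1
  refine ⟨u, t + Real.log c, w, hu, hw, ?_⟩
  rw [hP u (t + Real.log c) w hu hw1, hP u t w hu hw1, smul_smul, Real.exp_add,
    Real.exp_log hc, mul_comm]

theorem IsProd.smul_N_iff {D : Tube} (hP : D.IsProd) {r c : ℝ} (hr1 : r ≤ 1) (hc : 0 < c)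
    {z : ℂ × ℂ} : c • z ∈ D.N r ↔ z ∈ D.N r := by
  constructor
  · intro h
    have := hP.smul_N hr1 (inv_pos.2 hc) h
    rwa [smul_smul, inv_mul_cancel₀ hc.ne', one_smul] at this
  · exact hP.smul_N hr1 hc

theorem IsProd.lv_N_iff {D : Tube} (hP : D.IsProd) {r : ℝ} (hr1 : r ≤ 1) (h : ℝ → ℝ)
    {z : ℂ × ℂ} : lv h z ∈ D.N r ↔ z ∈ D.N r := hP.smul_N_iff hr1 (Real.exp_pos _)

/-- for a product tube each level carries the cohomology of `X` -/
theorem prod_bij_level {D : Tube} (hP : D.IsProd) {k V : Type*} [CommRing k] [AddCommGroup V]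
    [Module k V] {T : ℂ × ℂ → ℂ × ℂ → (V →ₗ[k] V)} (hT : Flat T D.O) {c : ℝ}
    (hc : c ∈ Icc (-1:ℝ) 2) (hs : D.X ∩ {z | nrm z = Real.exp c} ⊆ D.X) (q : ℕ) :
    Function.Bijective (Hres T hs (le_refl ∅) q : H T D.X ∅ q →ₗ[k]
      H T (D.X ∩ {z | nrm z = Real.exp c}) ∅ q) := by
  have hX0 : ∀ z ∈ D.X, z ≠ 0 := fun z hz => (D.X_subset_O hz).1
  have hlog : ∀ z ∈ D.X, Real.log (nrm z) ∈ Icc (-1:ℝ) 2 := by
    intro z hz
    have h0 := nrm_pos.2 (hX0 z hz)
    have h1 := D.mem_X_iff.1 hz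
    exact ⟨(Real.le_log_iff_exp_le h0).2 h1.1, (Real.log_le_iff_le_exp h0).2 h1.2.1⟩
  have hmem : ∀ s : ℝ, ∀ z ∈ D.X, lv (mL c s) z ∈ D.X := by
    intro s z hz
    have h2 := mL_mem (s := s) hc (hlog z hz)
    rw [mem_X_iff, nrm_lv (hX0 z hz), Real.exp_le_exp, Real.exp_le_exp,
      hP.lv_N_iff (by norm_num)]
    exact ⟨h2.1, h2.2, (D.mem_X_iff.1 hz).2.2⟩
  refine push_bij D.isCompact_X isClosed_empty
    (D.isCompact_X.isClosed.inter (isClosed_eq continuous_nrm continuous_const)) isClosed_empty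
    (empty_subset _) hs (le_refl ∅) (empty_subset _) (hT.mono D.X_subset_O)
    (fun s => lv (mL c s)) ?_ ?_ ?_ ?_ ?_ ?_ ?_ ?_ q
  · have := continuousOn_lv (I := (univ : Set ℝ)) (h := fun s => mL c s)
      (continuous_mL c).continuousOn
    exact this.mono (prod_mono (subset_univ _) hX0)
  · intro z hz
    exact lv_of_eq (mL_zero _ _)
  · intro s _ z hz
    exact hmem s z hz
  · intro s _ z hz
    exact hz.elim
  · intro s _ z hz
    refine ⟨hmem s z hz.1, ?_⟩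
    show nrm (lv (mL c s) z) = Real.exp c
    have hz' : nrm z = Real.exp c := hz.2
    rw [nrm_lv (hX0 z hz.1), hz', Real.log_exp, mL_self]
  · intro s _ z hz
    exact hz.elim
  · intro z hz
    refine ⟨hmem 1 z hz, ?_⟩
    show nrm (lv (mL c 1) z) = Real.exp c
    rw [nrm_lv (hX0 z hz), mL_one]
  · intro z hz
    exact hz.elim

/-- for a product tube both ends carry the cohomology of `X` -/
theorem prod_bij {D : Tube} (hP : D.IsProd) {k V : Type*} [CommRing k] [AddCommGroup V] [Module k V]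
    {T : ℂ × ℂ → ℂ × ℂ → (V →ₗ[k] V)} (hT : Flat T D.O) (q : ℕ) :
    Function.Bijective (Hres T D.EJ_subset (le_refl ∅) q : H T D.X ∅ q →ₗ[k] H T D.EJ ∅ q) ∧
    Function.Bijective (Hres T D.EK_subset (le_refl ∅) q : H T D.X ∅ q →ₗ[k] H T D.EK ∅ q) :=
  ⟨prod_bij_level hP hT ⟨le_rfl, by norm_num⟩ D.EJ_subset q,
    prod_bij_level hP hT ⟨by norm_num, le_rfl⟩ D.EK_subset q⟩

/-! ### projection to the product tubes -/

/-- projection to the level of `EJ` resp. `EK`; used to transport a flat function to the product tubes -/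
noncomputable def prJ (z : ℂ × ℂ) : ℂ × ℂ := (Real.exp (-1) / nrm z) • z
noncomputable def prK (z : ℂ × ℂ) : ℂ × ℂ := (Real.exp 2 / nrm z) • z

theorem pr_eq_lv {c : ℝ} {z : ℂ × ℂ} (hz : z ≠ 0) :
    (Real.exp c / nrm z) • z = lv (fun _ => c) z := by
  rw [lv, Real.exp_sub, Real.exp_log (nrm_pos.2 hz)]

theorem prJ_mem {z : ℂ × ℂ} (hz : z ∈ D.lowTube.O) : prJ z ∈ D.O := by
  have h0 := nrm_pos.2 hz.1
  refine ⟨smul_ne_zero (div_pos (Real.exp_pos _) h0).ne' hz.1, fun hc => hz.2 ?_⟩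
  obtain ⟨u, t, hu, he⟩ := hc
  have hn : nrm (prJ z) = Real.exp (-1) := by
    rw [prJ, nrm_smul_of_pos (div_pos (Real.exp_pos _) h0), div_mul_cancel₀ _ h0.ne']
  rw [he] at hn
  have ht : t = -1 := (D.nrm_f_eq_iff hu (by simp) (Or.inl (by norm_num))).1 hn
  subst ht
  refine ⟨u, Real.log (nrm z), hu, ?_⟩
  rw [lowTube_f, Real.exp_log h0]
  rw [D.low u (-1) 0 hu (by simp) (by norm_num)] at he
  have h1 : z = (nrm z / Real.exp (-1)) • prJ z := by
    rw [prJ, smul_smul, div_mul_div_cancel₀ (Real.exp_pos _).ne', div_self h0.ne', one_smul]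
  nth_rw 1 [h1]
  rw [he, smul_smul, div_mul_cancel₀ _ (Real.exp_pos _).ne']

theorem prK_mem {z : ℂ × ℂ} (hz : z ∈ D.highTube.O) : prK z ∈ D.O := by
  have h0 := nrm_pos.2 hz.1
  refine ⟨smul_ne_zero (div_pos (Real.exp_pos _) h0).ne' hz.1, fun hc => hz.2 ?_⟩
  obtain ⟨u, t, hu, he⟩ := hc
  have hn : nrm (prK z) = Real.exp 2 := by
    rw [prK, nrm_smul_of_pos (div_pos (Real.exp_pos _) h0), div_mul_cancel₀ _ h0.ne']
  rw [he] at hn
  have ht : t = 2 := (D.nrm_f_eq_iff hu (by simp) (Or.inr (by norm_num))).1 hn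
  subst ht
  refine ⟨u, Real.log (nrm z), hu, ?_⟩
  rw [highTube_f]
  simp only
  rw [Real.exp_sub, Real.exp_log h0]
  rw [D.high u 2 0 hu (by simp) (by norm_num)] at he
  have h1 : z = (nrm z / Real.exp 2) • prK z := by
    rw [prK, smul_smul, div_mul_div_cancel₀ (Real.exp_pos _).ne', div_self h0.ne', one_smul]
  nth_rw 1 [h1]
  rw [he, smul_smul]
  congr 1
  rw [Real.exp_sub]
  field_simp

theorem continuousAt_pr (c : ℝ) {z : ℂ × ℂ} (hz : z ≠ 0) :
    ContinuousAt (fun z : ℂ × ℂ => (Real.exp c / nrm z) • z) z := by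
  have h0 := (nrm_pos.2 hz).ne'
  have h1 : ContinuousAt (fun z : ℂ × ℂ => Real.exp c / nrm z) z :=
    continuousAt_const.div continuous_nrm.continuousAt h0
  exact h1.smul continuousAt_id

/-- the homotopy from the identity to the projection to the level `c` -/
theorem continuousAt_lv_mL (c s : ℝ) {z : ℂ × ℂ} (hz : z ≠ 0) :
    ContinuousAt (fun p : ℝ × (ℂ × ℂ) => lv (mL c p.1) p.2) (s, z) := by
  have := continuousOn_lv (I := (univ : Set ℝ)) (h := fun s => mL c s)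
    (continuous_mL c).continuousOn
  exact this.continuousAt ((isOpen_univ.prod isOpen_ne).mem_nhds ⟨mem_univ _, hz⟩)

theorem gauge_pr {G : Type*} [Group G] {T : ℂ × ℂ → ℂ × ℂ → G} (hT : GFlat T D.O) {c : ℝ}
    {E : Set (ℂ × ℂ)} (hE : E ⊆ D.O) (hEc : ∀ z ∈ E, nrm z = Real.exp c) :
    GaugeEq (fun x y => T ((Real.exp c / nrm x) • x) ((Real.exp c / nrm y) • y)) T E := by
  obtain ⟨u, hu, -⟩ := transport_lemma (R := E) (K := fun s z => lv (mL c s) z) hT
    (fun s _ a ha => continuousAt_lv_mL c s (hE ha).1) (by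
      intro s _ a ha
      have : lv (mL c s) a = a := lv_of_eq (by rw [hEc a ha, Real.log_exp, mL_self])
      rw [this]
      exact hE ha)
  have h0 : ∀ x, lv (mL c 0) x = x := fun x => lv_of_eq (mL_zero _ _)
  have h1 : ∀ x, x ≠ 0 → lv (mL c 1) x = (Real.exp c / nrm x) • x := by
    intro x hx
    rw [pr_eq_lv hx, lv, lv, mL_one]
  have key : GaugeEq T (fun x y => T ((Real.exp c / nrm x) • x) ((Real.exp c / nrm y) • y)) E := by
    refine ⟨u, fun a ha => ?_⟩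
    obtain ⟨e, he, h⟩ := hu a ha
    obtain ⟨e', he', h'⟩ := Metric.isOpen_iff.1 (isOpen_ne (x := (0 : ℂ × ℂ))) a (hE ha).1
    refine ⟨min e e', lt_min he he', fun x y hx hy => ?_⟩
    have h2 := h x y (hx.trans_le (min_le_left _ _)) (hy.trans_le (min_le_left _ _))
    simp only at h2
    rw [h0, h0, h1 x (h' (hx.trans_le (min_le_right _ _))),
      h1 y (h' (hy.trans_le (min_le_right _ _)))] at h2
    exact h2
  exact key.symm

theorem flat_prJ {G : Type*} [Group G] {T : ℂ × ℂ → ℂ × ℂ → G} (hT : GFlat T D.O) :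
    GFlat (fun x y => T (prJ x) (prJ y)) D.lowTube.O ∧
      GaugeEq (fun x y => T (prJ x) (prJ y)) T D.EJ :=
  ⟨hT.pull (fun a ha => continuousAt_pr (-1) ha.1) (fun a ha => D.prJ_mem ha),
    D.gauge_pr hT (D.EJ_subset.trans D.X_subset_O) fun z hz => hz.2⟩

theorem flat_prK {G : Type*} [Group G] {T : ℂ × ℂ → ℂ × ℂ → G} (hT : GFlat T D.O) :
    GFlat (fun x y => T (prK x) (prK y)) D.highTube.O ∧
      GaugeEq (fun x y => T (prK x) (prK y)) T D.EK :=
  ⟨hT.pull (fun a ha => continuousAt_pr 2 ha.1) (fun a ha => D.prK_mem ha),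
    D.gauge_pr hT (D.EK_subset.trans D.X_subset_O) fun z hz => hz.2⟩

/-- the meridian transports of the product tubes are conjugate to those of `D` -/
theorem mer_lowTube {G : Type*} [Group G] {T : ℂ × ℂ → ℂ × ℂ → G} (hT : GFlat T D.O) {g g' : G}
    (h : HasTr T (D.mer 1 0 (1/2)) g)
    (h' : HasTr (fun x y => T (prJ x) (prJ y)) (D.lowTube.mer 1 0 (1/2)) g') :
    ∃ a, g' = a⁻¹ * g * a := by
  have e : ∀ s, prJ (D.lowTube.mer 1 0 (1/2) s) = D.mer 1 (-1) (1/2) s := by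
    intro s
    have hn := norm_r_exp (r := 1/2) (by norm_num) s
    have hw1 : ‖(((1/2 : ℝ) : ℂ) * Complex.exp (2 * Real.pi * s * Complex.I))‖ ≤ 1 := by
      rw [hn]; norm_num
    have h1 : D.lowTube.mer 1 0 (1/2) s = D.mer 1 0 (1/2) s := by
      rw [mer, mer]
      exact D.lowTube_f_eq (by simp) hw1 le_rfl
    rw [h1, prJ, mer, mer, D.nrm0 1 _ (by simp) hw1, div_one,
      D.low 1 (-1) _ (by simp) hw1 (by norm_num)]
  have h2 : HasTr T (D.mer 1 (-1) (1/2)) g' := by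
    obtain ⟨F, hF0, hF1, hF⟩ := h'
    refine ⟨F, hF0, hF1, fun s hs => ?_⟩
    obtain ⟨ε, hε, hh⟩ := hF s hs
    refine ⟨ε, hε, fun t ht t' ht' h1 h2 => ?_⟩
    have := hh t ht t' ht' h1 h2
    simp only [e] at this
    exact this
  exact D.mer_conj hT (by simp) (by simp) (by norm_num) (by norm_num) (by norm_num) (by norm_num)
    h h2

theorem mer_highTube {G : Type*} [Group G] {T : ℂ × ℂ → ℂ × ℂ → G} (hT : GFlat T D.O) {g g' : G}
    (h : HasTr T (D.mer 1 0 (1/2)) g)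
    (h' : HasTr (fun x y => T (prK x) (prK y)) (D.highTube.mer 1 0 (1/2)) g') :
    ∃ a, g' = a⁻¹ * g * a := by
  have e : ∀ s, prK (D.highTube.mer 1 0 (1/2) s) = D.mer 1 2 (1/2) s := by
    intro s
    have hn := norm_r_exp (r := 1/2) (by norm_num) s
    have hw1 : ‖(((1/2 : ℝ) : ℂ) * Complex.exp (2 * Real.pi * s * Complex.I))‖ ≤ 1 := by
      rw [hn]; norm_num
    rw [prK, mer, mer, D.highTube.nrm0 1 _ (by simp) hw1, div_one, highTube_f,
      D.high 1 2 _ (by simp) hw1 (by norm_num), smul_smul, ← Real.exp_add]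
    norm_num
  have h2 : HasTr T (D.mer 1 2 (1/2)) g' := by
    obtain ⟨F, hF0, hF1, hF⟩ := h'
    refine ⟨F, hF0, hF1, fun s hs => ?_⟩
    obtain ⟨ε, hε, hh⟩ := hF s hs
    refine ⟨ε, hε, fun t ht t' ht' h1 h2 => ?_⟩
    have := hh t ht t' ht' h1 h2
    simp only [e] at this
    exact this
  exact D.mer_conj hT (by simp) (by simp) (by norm_num) (by norm_num) (by norm_num) (by norm_num)
    h h2

/-! ### the retraction -/

/-- strong deformation retraction of `O` onto `X` -/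
theorem exists_retraction : ∃ K : ℝ → ℂ × ℂ → ℂ × ℂ,
    (∀ s ∈ Icc (0:ℝ) 1, ∀ a ∈ D.O, ContinuousAt (fun p : ℝ × (ℂ × ℂ) => K p.1 p.2) (s, a)) ∧
    (∀ s ∈ Icc (0:ℝ) 1, MapsTo (K s) D.O D.O) ∧ MapsTo (K 1) D.O D.X ∧ (∀ x, K 0 x = x) ∧
    (∀ s ∈ Icc (0:ℝ) 1, ∀ x ∈ D.X, K s x = x) :=
  ⟨D.pushK 1 (1/2), fun s _ a ha => D.continuousAt_pushK 1 (by norm_num) s ha,
    fun s _ a ha => D.pushK_mem_O zero_le_one (by norm_num) ha,
    fun a ha => D.pushK_one_mem zero_le_one (by norm_num) ha,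
    fun x => D.pushK_zero 1 (1/2) x,
    fun s _ x hx => D.pushK_of_mem (by norm_num) hx⟩

/-- a flat function on `X` extends (up to gauge) to `O` -/
theorem extend_flat {G : Type*} [Group G] {T : ℂ × ℂ → ℂ × ℂ → G} (hT : GFlat T D.X) :
    ∃ T' : ℂ × ℂ → ℂ × ℂ → G, GFlat T' D.O ∧ GaugeEq T T' D.X := by
  obtain ⟨K, hc, hO, hX, h0, hfix⟩ := D.exists_retraction
  have h1 : (1:ℝ) ∈ Icc (0:ℝ) 1 := ⟨zero_le_one, le_rfl⟩
  refine ⟨fun x y => T (K 1 x) (K 1 y), hT.pull (fun a ha => h1_cont (hc 1 h1 a ha)) hX, ?_⟩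
  obtain ⟨u, hu, -⟩ := transport_lemma (R := D.X) (K := K) hT
    (fun s hs a ha => hc s hs a (D.X_subset_O ha)) (by
      intro s hs a ha
      rw [hfix s hs a ha]
      exact ha)
  simp only [h0] at hu
  exact ⟨u, hu⟩

end Tube

end Pool.Agent.Helper60.Geo
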