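import Pool.Agent.Helper60.Geo.TubeG5

/-! Part G5 continued: extension of cocycles, pushes of `SJ`, `SK`, slabs, degree one comparison,
connectedness. -/

set_option autoImplicit false

namespace Pool.Agent.Helper60.Geo

open Set AS Topology

section general

variable {Ω k V : Type*} [PseudoMetricSpace Ω] [CommRing k] [AddCommGroup V] [Module k V]
  {T : Ω → Ω → (V →ₗ[k] V)} {S R : Set Ω}

open Classical in
/-- the unit valued function of a flat system -/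
noncomputable def unitT (T : Ω → Ω → (V →ₗ[k] V)) (x y : Ω) : (Module.End k V)ˣ :=
  if h : (T x y : Module.End k V) * T y x = 1 ∧ (T y x : Module.End k V) * T x y = 1 then
    ⟨T x y, T y x, h.1, h.2⟩ else 1

omit [PseudoMetricSpace Ω] in
theorem unitT_coe {x y : Ω}
    (h : (T x y : Module.End k V) * T y x = 1 ∧ (T y x : Module.End k V) * T x y = 1) :
    ((unitT T x y : (Module.End k V)ˣ) : Module.End k V) = T x y := by
  rw [unitT, dif_pos h]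

/-- near a flat point `unitT` is `T` and is flat -/
theorem unitT_near {a : Ω} (h : FlatAt T a) : ∃ ε > 0,
    (∀ x y, dist x a < ε → dist y a < ε →
      ((unitT T x y : (Module.End k V)ˣ) : Module.End k V) = T x y) ∧
    (∀ x y z, dist x a < ε → dist y a < ε → dist z a < ε →
      unitT T x y * unitT T y z = unitT T x z) := by
  obtain ⟨ε, hε, h⟩ := h
  have h1 : ∀ x y, dist x a < ε → dist y a < ε →
      ((unitT T x y : (Module.End k V)ˣ) : Module.End k V) = T x y := by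
    intro x y hx hy
    refine unitT_coe ⟨?_, ?_⟩
    · exact (h x y x hx hy hx).1.trans (h x y x hx hy hx).2
    · exact (h y x y hy hx hy).1.trans (h y x y hy hx hy).2
  refine ⟨ε, hε, h1, fun x y z hx hy hz => ?_⟩
  apply Units.ext
  rw [Units.val_mul, h1 x y hx hy, h1 y z hy hz, h1 x z hx hz]
  exact (h x y z hx hy hz).1

theorem gflat_unitT (hT : Flat T S) : GFlat (unitT T) S := by
  intro a ha
  obtain ⟨ε, hε, -, h⟩ := unitT_near (hT a ha)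
  exact ⟨ε, hε, h⟩

/-- extension of cocycles along a strong deformation retraction of an open set -/
theorem extend_general (hSo : IsOpen S) (hT : Flat T S) (hR : R ⊆ S) {K : ℝ → Ω → Ω}
    (hK : ∀ s ∈ Icc (0:ℝ) 1, ∀ a ∈ S, ContinuousAt (fun p : ℝ × Ω => K p.1 p.2) (s, a))
    (hm : ∀ s ∈ Icc (0:ℝ) 1, ∀ a ∈ S, K s a ∈ S) (h1 : ∀ a ∈ S, K 1 a ∈ R) (h0 : ∀ x, K 0 x = x)
    (hfix : ∀ s ∈ Icc (0:ℝ) 1, ∀ a ∈ R, K s a = a) {q : ℕ} {c : List Ω → V}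
    (hc : c ∈ Zc T R ∅ q) : ∃ c' ∈ Zc T S ∅ q, c' - c ∈ Bc T R ∅ q := by
  have hone : (1:ℝ) ∈ Icc (0:ℝ) 1 := ⟨zero_le_one, le_rfl⟩
  have hU := gflat_unitT hT
  obtain ⟨u, hu, hut⟩ := transport_lemma (R := S) hU hK hm
  have hF : ∀ a ∈ S, ContinuousAt (K 1) a := fun a ha => h1_cont (hK 1 hone a ha)
  have hcomm : hi_Comm T (pT (K 1) T) (fun x => ((u x : (Module.End k V)ˣ) : Module.End k V)) S := by
    intro a ha
    obtain ⟨e1, he1, hu1⟩ := hu a ha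
    obtain ⟨e2, he2, h2, -⟩ := unitT_near (hT a ha)
    obtain ⟨e3, he3, h3, -⟩ := unitT_near (hT (K 1 a) (hm 1 hone a ha))
    obtain ⟨d, hd, hKd⟩ := h1_near (hF a ha) he3
    refine ⟨min e1 (min e2 d), lt_min he1 (lt_min he2 hd), fun x y hx hy => ?_⟩
    have hx1 := hx.trans_le (min_le_left _ _)
    have hy1 := hy.trans_le (min_le_left _ _)
    have hx2 := hx.trans_le ((min_le_right _ _).trans (min_le_left _ _))
    have hy2 := hy.trans_le ((min_le_right _ _).trans (min_le_left _ _))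
    have hx3 := hx.trans_le ((min_le_right _ _).trans (min_le_right _ _))
    have hy3 := hy.trans_le ((min_le_right _ _).trans (min_le_right _ _))
    have e := hu1 x y hx1 hy1
    simp only [h0] at e
    have e' : u x * unitT T (K 1 x) (K 1 y) = unitT T x y * u y := by
      rw [e]; group
    have e'' := congrArg (fun v : (Module.End k V)ˣ => (v : Module.End k V)) e'
    simp only [Units.val_mul] at e''
    rw [h2 x y hx2 hy2, h3 (K 1 x) (K 1 y) (hKd x hx3) (hKd y hy3)] at e''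
    exact e''.symm
  have hcF : pb (K 1) c ∈ Zc (pT (K 1) T) S ∅ q :=
    pb_mem_Zc hF (fun a ha => ha.elim) h1 (fun a ha => ha.elim) hc
  refine ⟨gm (fun x => ((u x : (Module.End k V)ˣ) : Module.End k V)) (pb (K 1) c),
    hi_gm_mem_Zc hcomm hcF, ?_⟩
  -- near `R` the gauge is `T x (K 1 x)`
  have hug : ∀ a ∈ R, ∃ e > 0, ∀ x, dist x a < e →
      ((u x : (Module.End k V)ˣ) : Module.End k V) = T x (K 1 x) := by
    intro a ha
    obtain ⟨e2, he2, h2, h2'⟩ := unitT_near (hT a (hR ha))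
    obtain ⟨e4, he4, h4⟩ := Metric.isOpen_iff.1 hSo a (hR ha)
    have hev : ∀ᶠ x in 𝓝 a, ∀ s ∈ Icc (0:ℝ) 1, dist (K s x) a < e2 := by
      refine isCompact_Icc.eventually_forall_of_forall_eventually ?_
      intro s hs
      have hc1 := hK s hs a (hR ha)
      have hc2 : ContinuousAt (fun p : Ω × ℝ => K p.2 p.1) (a, s) :=
        ContinuousAt.comp (f := fun p : Ω × ℝ => (p.2, p.1)) (g := fun p : ℝ × Ω => K p.1 p.2)
          hc1 (by fun_prop)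
      have hc3 := hc2.eventually (Metric.ball_mem_nhds (K s a) he2)
      simp only [hfix s hs a ha] at hc3
      exact hc3
    obtain ⟨e5, he5, h5⟩ := Metric.eventually_nhds_iff.1 hev
    refine ⟨min e4 e5, lt_min he4 he5, fun x hx => ?_⟩
    have hxS : x ∈ S := h4 (hx.trans_le (min_le_left _ _))
    have hxK := h5 (hx.trans_le (min_le_right _ _))
    have hx0 : dist x a < e2 := by
      have := hxK 0 ⟨le_rfl, zero_le_one⟩
      rwa [h0] at this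
    have htr : HasTr (unitT T) (fun s => K s x) (unitT T x (K 1 x)) := by
      refine ⟨fun s => unitT T x (K s x), ?_, rfl, fun s _ => ⟨1, one_pos, ?_⟩⟩
      · show unitT T x (K 0 x) = 1
        rw [h0]
        exact mul_eq_left.1 (h2' x x x hx0 hx0 hx0)
      · intro t ht t' ht' _ _
        rw [eq_inv_mul_iff_mul_eq]
        exact h2' x (K t x) (K t' x) hx0 (hxK t ht) (hxK t' ht')
    rw [(hut x hxS).unique htr, h2 x (K 1 x) hx0 (hxK 1 hone)]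
  have hcg := contig (hT.mono hR) (empty_subset _) (F := K 1)
    (fun a ha => ⟨hF a (hR ha), hfix 1 hone a ha⟩) hc
  have hdiff : NZ R (q + 1) (gm (fun x => ((u x : (Module.End k V)ˣ) : Module.End k V))
      (pb (K 1) c) - gm (tg T (K 1)) (pb (K 1) c)) := by
    intro a ha
    obtain ⟨e, he, h⟩ := hug a ha
    refine ⟨e, he, fun l hl hx => ?_⟩
    cases l with
    | nil => simp
    | cons x l =>
      rw [Pi.sub_apply, gm_cons, gm_cons, h x (hx x (by simp))]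
      exact sub_self _
  have e : gm (fun x => ((u x : (Module.End k V)ˣ) : Module.End k V)) (pb (K 1) c) - c =
      (gm (fun x => ((u x : (Module.End k V)ˣ) : Module.End k V)) (pb (K 1) c) -
        gm (tg T (K 1)) (pb (K 1) c)) - (c - gm (tg T (K 1)) (pb (K 1) c)) := by abel
  rw [e]
  exact Submodule.sub_mem _ (hi_Bc_of_nz hdiff) hcg

/-! ### degree zero and connectedness -/

/-- the integer valued function of a partition into two closed sets -/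
theorem exists_chi {A A' : Set Ω} (hA : IsClosed A) (hA' : IsClosed A') (hd : Disjoint A A')
    (hne : A.Nonempty) (hne' : A'.Nonempty) : ∃ c : List Ω → ℤ,
      (∀ a ∈ A, ∃ ε > 0, ∀ x, dist x a < ε → c [x] = 1) ∧
      (∀ a ∈ A', ∃ ε > 0, ∀ x, dist x a < ε → c [x] = 0) := by
  classical
  have key : ∀ (A A' : Set Ω), IsClosed A' → A'.Nonempty → Disjoint A A' → ∀ a ∈ A, ∃ ε > 0,
      ∀ x, dist x a < ε → Metric.infDist x A < Metric.infDist x A' := by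
    intro A A' hA' hne' hd a ha
    have haA' : a ∉ A' := Set.disjoint_left.1 hd ha
    have hpos : 0 < Metric.infDist a A' := (hA'.notMem_iff_infDist_pos hne').1 haA'
    refine ⟨Metric.infDist a A' / 2, by positivity, fun x hx => ?_⟩
    have h3 : Metric.infDist x A ≤ dist x a := Metric.infDist_le_dist_of_mem ha
    have h4 : Metric.infDist a A' ≤ Metric.infDist x A' + dist a x :=
      Metric.infDist_le_infDist_add_dist
    rw [dist_comm a x] at h4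
    linarith
  refine ⟨fun l => if ∃ x, l = [x] ∧ Metric.infDist x A < Metric.infDist x A' then 1 else 0,
    fun a ha => ?_, fun a ha => ?_⟩
  · obtain ⟨ε, hε, h⟩ := key A A' hA' hne' hd a ha
    exact ⟨ε, hε, fun x hx => if_pos ⟨x, rfl, h x hx⟩⟩
  · obtain ⟨ε, hε, h⟩ := key A' A hA hne hd.symm a ha
    refine ⟨ε, hε, fun x hx => if_neg ?_⟩
    rintro ⟨y, hy, hlt⟩
    have e : x = y := by simpa using hy
    subst e
    exact absurd hlt (not_lt.2 (h x hx).le)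

omit [PseudoMetricSpace Ω] in
theorem dT_cT_two (c : List Ω → ℤ) (x y : Ω) :
    dT (cT : Ω → Ω → (ℤ →ₗ[ℤ] ℤ)) c [x, y] = c [y] - c [x] := by
  rw [dT_two]
  rfl

/-- a locally constant function is a cocycle -/
theorem zc_of_loc {c : List Ω → ℤ} (h : ∀ a ∈ S, ∃ ε > 0, ∀ x y, dist x a < ε → dist y a < ε →
    c [x] = c [y]) : c ∈ Zc (cT : Ω → Ω → (ℤ →ₗ[ℤ] ℤ)) S ∅ 0 := by
  refine ⟨NZ.empty, fun a ha => ?_⟩
  obtain ⟨ε, hε, h⟩ := h a ha
  refine ⟨ε, hε, fun l hl hx => ?_⟩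
  obtain ⟨x, y, rfl⟩ := h1_list2 hl
  rw [dT_cT_two, h x y (hx x (by simp)) (hx y (by simp)), sub_self]

/-- a cocycle of degree zero is constant on a preconnected set -/
theorem const_of_zc {c : List Ω → ℤ} (hc : c ∈ Zc (cT : Ω → Ω → (ℤ →ₗ[ℤ] ℤ)) S ∅ 0)
    (hS : IsPreconnected S) {x y : Ω} (hx : x ∈ S) (hy : y ∈ S) : c [x] = c [y] := by
  refine hS.induction₂ (fun x y => c [x] = c [y]) ?_ ?_ ?_ hx hy
  · intro a ha
    obtain ⟨ε, hε, h⟩ := hc.2 a ha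
    have : ∀ᶠ y in nhdsWithin a S, dist y a < ε :=
      nhdsWithin_le_nhds (Metric.ball_mem_nhds _ hε)
    filter_upwards [this] with y hy
    have h1 := h [a, y] rfl (by
      intro w hw
      simp only [List.mem_cons, List.not_mem_nil, or_false] at hw
      rcases hw with rfl | rfl
      · rw [dist_self]; exact hε
      · exact hy)
    rw [dT_cT_two, sub_eq_zero] at h1
    exact h1.symm
  · intro x y z _ _ _ h1 h2
    exact h1.trans h2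
  · intro x y _ _ h1
    exact h1.symm

/-- if `H⁰(S, R) = 0` and `R` is preconnected then `S` is preconnected -/
theorem preconnected_of_HV0 (hS : IsClosed S) (hR : IsPreconnected R) (hRS : R ⊆ S)
    (h : HV (cT : Ω → Ω → (ℤ →ₗ[ℤ] ℤ)) S R 0) : IsPreconnected S := by
  rw [isPreconnected_closed_iff]
  intro t t' ht ht' hcov hne hne'
  by_contra hem
  rw [not_nonempty_iff_eq_empty] at hem
  have hd : Disjoint (S ∩ t) (S ∩ t') := by
    rw [Set.disjoint_left]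
    rintro x ⟨h1, h2⟩ ⟨-, h3⟩
    have : x ∈ S ∩ (t ∩ t') := ⟨h1, h2, h3⟩
    rw [hem] at this
    exact this
  obtain ⟨c, hc1, hc0⟩ := exists_chi (hS.inter ht) (hS.inter ht') hd hne hne'
  have hloc : c ∈ Zc (cT : Ω → Ω → (ℤ →ₗ[ℤ] ℤ)) S ∅ 0 := by
    refine zc_of_loc fun a ha => ?_
    rcases hcov ha with h1 | h1
    · obtain ⟨ε, hε, h2⟩ := hc1 a ⟨ha, h1⟩
      exact ⟨ε, hε, fun x y hx hy => by rw [h2 x hx, h2 y hy]⟩
    · obtain ⟨ε, hε, h2⟩ := hc0 a ⟨ha, h1⟩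
      exact ⟨ε, hε, fun x y hx hy => by rw [h2 x hx, h2 y hy]⟩
  -- vanishing of relative classes of degree zero
  have hvan : ∀ c' : List Ω → ℤ, c' ∈ Zc (cT : Ω → Ω → (ℤ →ₗ[ℤ] ℤ)) S R 0 →
      ∀ a ∈ S, c' [a] = 0 := by
    intro c' hc' a ha
    obtain ⟨b, -, hb⟩ := h hc'
    obtain ⟨ε, hε, h2⟩ := hb a ha
    have h3 := h2 [a] rfl (by
      intro w hw
      simp only [List.mem_cons, List.not_mem_nil, or_false] at hw
      rw [hw, dist_self]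
      exact hε)
    rwa [Pi.sub_apply, dT_one, sub_zero] at h3
  have hRcov : R ⊆ (S ∩ t) ∪ (S ∩ t') := by
    intro x hx
    rcases hcov (hRS hx) with h1 | h1
    · exact Or.inl ⟨hRS hx, h1⟩
    · exact Or.inr ⟨hRS hx, h1⟩
  have hRd : R ∩ ((S ∩ t) ∩ (S ∩ t')) = ∅ := by
    rw [hd.inter_eq, inter_empty]
  rcases (isPreconnected_iff_subset_of_disjoint_closed.1 hR _ _ (hS.inter ht) (hS.inter ht')
    hRcov hRd) with h1 | h1
  · -- `c - 1` vanishes near `R`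
    obtain ⟨y, hy⟩ := hne'
    have h3 : (fun l => c l - 1) ∈ Zc (cT : Ω → Ω → (ℤ →ₗ[ℤ] ℤ)) S R 0 := by
      have h4 : (fun l => c l - 1) ∈ Zc (cT : Ω → Ω → (ℤ →ₗ[ℤ] ℤ)) S ∅ 0 := by
        refine zc_of_loc fun a ha => ?_
        obtain ⟨ε, hε, h5⟩ := hloc.2 a ha
        refine ⟨ε, hε, fun x y hx hy => ?_⟩
        have h6 := h5 [x, y] rfl (by
          intro w hw
          simp only [List.mem_cons, List.not_mem_nil, or_false] at hw
          rcases hw with rfl | rfl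
          exacts [hx, hy])
        rw [dT_cT_two, sub_eq_zero] at h6
        rw [h6]
      refine ⟨fun a ha => ?_, h4.2⟩
      obtain ⟨ε, hε, h2⟩ := hc1 a (h1 ha)
      refine ⟨ε, hε, fun l hl hx => ?_⟩
      obtain ⟨x, rfl⟩ := h1_list1 hl
      show c [x] - 1 = 0
      rw [h2 x (hx x (by simp)), sub_self]
    have h4 := hvan _ h3 y hy.1
    obtain ⟨ε, hε, h2⟩ := hc0 y hy
    have h5 := h2 y (by rw [dist_self]; exact hε)
    simp only [h5] at h4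
    norm_num at h4
  · obtain ⟨y, hy⟩ := hne
    have h3 : c ∈ Zc (cT : Ω → Ω → (ℤ →ₗ[ℤ] ℤ)) S R 0 := by
      refine ⟨fun a ha => ?_, hloc.2⟩
      obtain ⟨ε, hε, h2⟩ := hc0 a (h1 ha)
      refine ⟨ε, hε, fun l hl hx => ?_⟩
      obtain ⟨x, rfl⟩ := h1_list1 hl
      exact h2 x (hx x (by simp))
    have h4 := hvan _ h3 y hy.1
    obtain ⟨ε, hε, h2⟩ := hc1 y hy
    have h5 := h2 y (by rw [dist_self]; exact hε)
    rw [h5] at h4
    norm_num at h4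

/-- if `H¹(S, R) = 0` and `S` is preconnected then `R` is preconnected -/
theorem preconnected_of_HV1 (hR : IsClosed R) (hS : IsPreconnected S) (hRS : R ⊆ S)
    (h : HV (cT : Ω → Ω → (ℤ →ₗ[ℤ] ℤ)) S R 1) : IsPreconnected R := by
  rw [isPreconnected_closed_iff]
  intro t t' ht ht' hcov hne hne'
  by_contra hem
  rw [not_nonempty_iff_eq_empty] at hem
  have hd : Disjoint (R ∩ t) (R ∩ t') := by
    rw [Set.disjoint_left]
    rintro x ⟨h1, h2⟩ ⟨-, h3⟩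
    have : x ∈ R ∩ (t ∩ t') := ⟨h1, h2, h3⟩
    rw [hem] at this
    exact this
  obtain ⟨c, hc1, hc0⟩ := exists_chi (hR.inter ht) (hR.inter ht') hd hne hne'
  have hloc : c ∈ Zc (cT : Ω → Ω → (ℤ →ₗ[ℤ] ℤ)) R ∅ 0 := by
    refine zc_of_loc fun a ha => ?_
    rcases hcov ha with h1 | h1
    · obtain ⟨ε, hε, h2⟩ := hc1 a ⟨ha, h1⟩
      exact ⟨ε, hε, fun x y hx hy => by rw [h2 x hx, h2 y hy]⟩
    · obtain ⟨ε, hε, h2⟩ := hc0 a ⟨ha, h1⟩
      exact ⟨ε, hε, fun x y hx hy => by rw [h2 x hx, h2 y hy]⟩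
  have h1 : dT (cT : Ω → Ω → (ℤ →ₗ[ℤ] ℤ)) c ∈ Zc (cT : Ω → Ω → (ℤ →ₗ[ℤ] ℤ)) S R 1 :=
    ⟨hloc.2, nz_dT_dT (flat_cT S) c _⟩
  obtain ⟨b, hb, hb2⟩ := h h1
  have h2 : c - b ∈ Zc (cT : Ω → Ω → (ℤ →ₗ[ℤ] ℤ)) S ∅ 0 := by
    refine ⟨NZ.empty, ?_⟩
    rw [dT_sub]
    exact hb2
  obtain ⟨x, hx⟩ := hne
  obtain ⟨y, hy⟩ := hne'
  have h3 := const_of_zc h2 hS (hRS hx.1) (hRS hy.1)
  have hb0 : ∀ a ∈ R, b [a] = 0 := by
    intro a ha
    obtain ⟨ε, hε, h4⟩ := hb a ha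
    refine h4 [a] rfl ?_
    intro w hw
    simp only [List.mem_cons, List.not_mem_nil, or_false] at hw
    rw [hw, dist_self]
    exact hε
  rw [Pi.sub_apply, Pi.sub_apply, hb0 x hx.1, hb0 y hy.1, sub_zero, sub_zero] at h3
  obtain ⟨ε, hε, h4⟩ := hc1 x hx
  obtain ⟨ε', hε', h5⟩ := hc0 y hy
  rw [h4 x (by rw [dist_self]; exact hε), h5 y (by rw [dist_self]; exact hε')] at h3
  norm_num at h3

end general

namespace Tube

variable (D : Tube)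

theorem preconnected_X (h : IsPreconnected D.EK) : IsPreconnected D.X :=
  preconnected_of_HV0 D.isCompact_X.isClosed h D.EK_subset (D.acyclic_EK 0)

theorem preconnected_EJ (h : IsPreconnected D.EK) : IsPreconnected D.EJ :=
  preconnected_of_HV1 D.isClosed_EJ (D.preconnected_X h) D.EJ_subset (D.acyclic_EJ 1)

/-- a cocycle on `X` extends (up to coboundary) to `O` -/
theorem extend_cocycle {k V : Type*} [CommRing k] [AddCommGroup V] [Module k V]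
    {T : ℂ × ℂ → ℂ × ℂ → (V →ₗ[k] V)} (hT : Flat T D.O) {q : ℕ} {c : List (ℂ × ℂ) → V}
    (hc : c ∈ Zc T D.X ∅ q) : ∃ c' ∈ Zc T D.O ∅ q, c' - c ∈ Bc T D.X ∅ q := by
  obtain ⟨K, hK, hO, hX, h0, hfix⟩ := D.exists_retraction
  exact extend_general D.isOpen_O hT D.X_subset_O hK (fun s hs a ha => hO s hs ha)
    (fun a ha => hX ha) h0 hfix hc

/-- `S³ ∖ J` and (a scaled copy of) `S³ ∖ K` -/
def SJ : Set (ℂ × ℂ) := {z | nrm z = 1 ∧ z ∉ D.core}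
def SK : Set (ℂ × ℂ) := {z | nrm z = Real.exp 1 ∧ z ∉ D.core}

/-! ### the lower and upper product regions -/

/-- level function moving the levels `≤ 0` to the level `c` -/
noncomputable def hLo (c s t : ℝ) : ℝ := t + c01 s * (c - min t 0)
/-- level function moving the levels `≥ 1` to the level `c` -/
noncomputable def hHi (c s t : ℝ) : ℝ := t + c01 s * (c - max t 1)

theorem hLo_of_le {c s t : ℝ} (ht : t ≤ 0) : hLo c s t = mL c s t := by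
  rw [hLo, mL, min_eq_left ht]

theorem hHi_of_ge {c s t : ℝ} (ht : 1 ≤ t) : hHi c s t = mL c s t := by
  rw [hHi, mL, max_eq_left ht]

/-- level functions that are admissible and agree with a given value -/
theorem lv_low_eq {h : ℝ → ℝ} {z : ℂ × ℂ} (hz : Real.log (nrm z) ≤ 0)
    (hh : h (Real.log (nrm z)) ≤ 0) : ∃ h', LvOK h' ∧ lv h z = lv h' z := by
  refine ⟨fun t => if t ≤ 0 then h (Real.log (nrm z)) else t, ⟨fun t ht => ?_, fun t ht => ?_,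
    fun t ht => ?_⟩, ?_⟩
  · simp only [if_pos ht]
    exact hh
  · simp only [if_neg (show ¬ t ≤ 0 by linarith)]
    exact ht
  · simp only [if_neg (show ¬ t ≤ 0 by linarith [ht.1])]
  · simp only [lv, if_pos hz]

theorem lv_high_eq {h : ℝ → ℝ} {z : ℂ × ℂ} (hz : 1 ≤ Real.log (nrm z))
    (hh : 1 ≤ h (Real.log (nrm z))) : ∃ h', LvOK h' ∧ lv h z = lv h' z := by
  refine ⟨fun t => if 1 ≤ t then h (Real.log (nrm z)) else t, ⟨fun t ht => ?_, fun t ht => ?_,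
    fun t ht => ?_⟩, ?_⟩
  · simp only [if_neg (show ¬ 1 ≤ t by linarith)]
    exact ht
  · simp only [if_pos ht]
    exact hh
  · simp only [if_neg (show ¬ 1 ≤ t by linarith [ht.2])]
  · simp only [lv, if_pos hz]

theorem continuous_hLo (c : ℝ) : Continuous fun p : ℝ × ℝ => hLo c p.1 p.2 := by
  have := continuous_c01
  unfold hLo
  fun_prop

theorem continuous_hHi (c : ℝ) : Continuous fun p : ℝ × ℝ => hHi c p.1 p.2 := by
  have := continuous_c01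
  unfold hHi
  fun_prop

/-- the push in the lower region: radially out to radius `ρ`, levels to `c` -/
noncomputable def pLo (c ρ s : ℝ) (z : ℂ × ℂ) : ℂ × ℂ := lv (hLo c s) (D.rad (gP ρ s) z)
/-- the push in the upper region -/
noncomputable def pHi (c ρ s : ℝ) (z : ℂ × ℂ) : ℂ × ℂ := lv (hHi c s) (D.rad (gP ρ s) z)

variable {c ρ s : ℝ} {z : ℂ × ℂ}

theorem rad_gP_zero (z : ℂ × ℂ) : D.rad (gP ρ 0) z = z := by
  have h : c01 0 = 0 := c01_of_mem ⟨le_rfl, zero_le_one⟩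
  exact D.rad_of_eq fun _ => by simp [gP, h]

theorem pLo_zero (c ρ : ℝ) (z : ℂ × ℂ) : D.pLo c ρ 0 z = z := by
  have h : c01 0 = 0 := c01_of_mem ⟨le_rfl, zero_le_one⟩
  rw [pLo, rad_gP_zero]
  exact lv_of_eq (by simp [hLo, h])

theorem pHi_zero (c ρ : ℝ) (z : ℂ × ℂ) : D.pHi c ρ 0 z = z := by
  have h : c01 0 = 0 := c01_of_mem ⟨le_rfl, zero_le_one⟩
  rw [pHi, rad_gP_zero]
  exact lv_of_eq (by simp [hHi, h])

theorem continuousAt_radgP (hρ : ρ ≤ 1) (s : ℝ) (hz : z ∈ D.O) :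
    ContinuousAt (fun p : ℝ × (ℂ × ℂ) => D.rad (gP ρ p.1) p.2) (s, z) := by
  have h1 : ContinuousOn (fun p : ℝ × (ℂ × ℂ) => D.rad (gP ρ p.1) p.2) (univ ×ˢ D.O) := by
    refine D.continuousOn_rad ?_ fun y _ => radOK_gP hρ y
    have := continuous_c01
    refine Continuous.continuousOn ?_
    unfold gP
    fun_prop
  exact h1.continuousAt ((isOpen_univ.prod D.isOpen_O).mem_nhds ⟨mem_univ _, hz⟩)

theorem continuousAt_lv {h : ℝ → ℝ → ℝ} (hh : Continuous fun p : ℝ × ℝ => h p.1 p.2) (s : ℝ)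
    (hz : z ≠ 0) : ContinuousAt (fun p : ℝ × (ℂ × ℂ) => lv (h p.1) p.2) (s, z) :=
  (continuousOn_lv (I := (univ : Set ℝ)) hh.continuousOn).continuousAt
    ((isOpen_univ.prod isOpen_ne).mem_nhds ⟨mem_univ _, hz⟩)

theorem continuousAt_pLo (c : ℝ) (hρ : ρ ≤ 1) (s : ℝ) (hz : z ∈ D.O) :
    ContinuousAt (fun p : ℝ × (ℂ × ℂ) => D.pLo c ρ p.1 p.2) (s, z) :=
  ContinuousAt.comp (f := fun p : ℝ × (ℂ × ℂ) => (p.1, D.rad (gP ρ p.1) p.2))
    (g := fun p : ℝ × (ℂ × ℂ) => lv (hLo c p.1) p.2)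
    (continuousAt_lv (continuous_hLo c) s (D.rad_ne_zero (radOK_gP hρ s) hz.1))
    (continuousAt_fst.prodMk (D.continuousAt_radgP hρ s hz))

theorem continuousAt_pHi (c : ℝ) (hρ : ρ ≤ 1) (s : ℝ) (hz : z ∈ D.O) :
    ContinuousAt (fun p : ℝ × (ℂ × ℂ) => D.pHi c ρ p.1 p.2) (s, z) :=
  ContinuousAt.comp (f := fun p : ℝ × (ℂ × ℂ) => (p.1, D.rad (gP ρ p.1) p.2))
    (g := fun p : ℝ × (ℂ × ℂ) => lv (hHi c p.1) p.2)
    (continuousAt_lv (continuous_hHi c) s (D.rad_ne_zero (radOK_gP hρ s) hz.1))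
    (continuousAt_fst.prodMk (D.continuousAt_radgP hρ s hz))

/-- the lower region: `z ∈ O`, `nrm z ≤ 1` -/
def RLo : Set (ℂ × ℂ) := D.O ∩ {z | nrm z ≤ Real.exp 0}
/-- the upper region: `z ∈ O`, `e ≤ nrm z` -/
def RHi : Set (ℂ × ℂ) := D.O ∩ {z | Real.exp 1 ≤ nrm z}

theorem log_rad_low (hρ : ρ ≤ 1) (hz : z ∈ D.RLo) : Real.log (nrm (D.rad (gP ρ s) z)) ≤ 0 := by
  have hg := radOK_gP hρ s
  have h0 := nrm_pos.2 (D.rad_ne_zero hg hz.1.1)
  rw [Real.log_le_iff_le_exp h0, D.nrm_rad_le_iff hg (Or.inl le_rfl)]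
  exact hz.2

theorem log_rad_high (hρ : ρ ≤ 1) (hz : z ∈ D.RHi) : 1 ≤ Real.log (nrm (D.rad (gP ρ s) z)) := by
  have hg := radOK_gP hρ s
  have h0 := nrm_pos.2 (D.rad_ne_zero hg hz.1.1)
  rw [Real.le_log_iff_exp_le h0, D.le_nrm_rad_iff hg (Or.inr le_rfl)]
  exact hz.2

theorem mL_le {t : ℝ} (hc : c ≤ 0) (ht : t ≤ 0) : mL c s t ≤ 0 := by
  have h := c01_mem s
  unfold mL
  nlinarith [h.1, h.2]

theorem le_mL {t : ℝ} (hc : 1 ≤ c) (ht : 1 ≤ t) : 1 ≤ mL c s t := by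
  have h := c01_mem s
  unfold mL
  nlinarith [h.1, h.2]

/-- the exact level of the image in the lower region -/
theorem nrm_pLo (hρ : ρ ≤ 1) (hz : z ∈ D.RLo) : nrm (D.pLo c ρ s z) =
    Real.exp (mL c s (Real.log (nrm (D.rad (gP ρ s) z)))) := by
  rw [pLo, nrm_lv (D.rad_ne_zero (radOK_gP hρ s) hz.1.1), hLo_of_le (D.log_rad_low hρ hz)]

theorem nrm_pHi (hρ : ρ ≤ 1) (hz : z ∈ D.RHi) : nrm (D.pHi c ρ s z) =
    Real.exp (mL c s (Real.log (nrm (D.rad (gP ρ s) z)))) := by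
  rw [pHi, nrm_lv (D.rad_ne_zero (radOK_gP hρ s) hz.1.1), hHi_of_ge (D.log_rad_high hρ hz)]

theorem pLo_lv (hc : c ≤ 0) (hρ : ρ ≤ 1) (hz : z ∈ D.RLo) :
    ∃ h', LvOK h' ∧ D.pLo c ρ s z = lv h' (D.rad (gP ρ s) z) := by
  have h := D.log_rad_low (s := s) hρ hz
  refine lv_low_eq h ?_
  rw [hLo_of_le h]
  exact mL_le hc h

theorem pHi_lv (hc : 1 ≤ c) (hρ : ρ ≤ 1) (hz : z ∈ D.RHi) :
    ∃ h', LvOK h' ∧ D.pHi c ρ s z = lv h' (D.rad (gP ρ s) z) := by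
  have h := D.log_rad_high (s := s) hρ hz
  refine lv_high_eq h ?_
  rw [hHi_of_ge h]
  exact le_mL hc h

theorem pLo_mem (hc : c ≤ 0) (hρ : ρ ≤ 1) (hz : z ∈ D.RLo) : D.pLo c ρ s z ∈ D.RLo := by
  refine ⟨?_, ?_⟩
  · obtain ⟨h', hh', e⟩ := D.pLo_lv (s := s) hc hρ hz
    rw [e]
    exact D.lv_mem_O hh' (D.rad_mem_O (radOK_gP hρ s) (fun _ h _ => gP_pos h) hz.1)
  · show nrm (D.pLo c ρ s z) ≤ Real.exp 0
    rw [D.nrm_pLo hρ hz, Real.exp_le_exp]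
    exact mL_le hc (D.log_rad_low hρ hz)

theorem pHi_mem (hc : 1 ≤ c) (hρ : ρ ≤ 1) (hz : z ∈ D.RHi) : D.pHi c ρ s z ∈ D.RHi := by
  refine ⟨?_, ?_⟩
  · obtain ⟨h', hh', e⟩ := D.pHi_lv (s := s) hc hρ hz
    rw [e]
    exact D.lv_mem_O hh' (D.rad_mem_O (radOK_gP hρ s) (fun _ h _ => gP_pos h) hz.1)
  · show Real.exp 1 ≤ nrm (D.pHi c ρ s z)
    rw [D.nrm_pHi hρ hz, Real.exp_le_exp]
    exact le_mL hc (D.log_rad_high hρ hz)

theorem nrm_pLo_one (hρ : ρ ≤ 1) (hz : z ∈ D.RLo) : nrm (D.pLo c ρ 1 z) = Real.exp c := by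
  rw [D.nrm_pLo hρ hz, mL_one]

theorem nrm_pHi_one (hρ : ρ ≤ 1) (hz : z ∈ D.RHi) : nrm (D.pHi c ρ 1 z) = Real.exp c := by
  rw [D.nrm_pHi hρ hz, mL_one]

theorem gP_one_ge (x : ℝ) : ρ ≤ gP ρ 1 x := by
  have h : c01 1 = 1 := c01_of_mem ⟨zero_le_one, le_rfl⟩
  unfold gP
  rw [h, one_mul, add_sub_cancel]
  exact le_max_left _ _

theorem pLo_one_notMem (hc : c ≤ 0) (hρ : ρ ≤ 1) (hz : z ∈ D.RLo) : D.pLo c ρ 1 z ∉ D.N ρ := by
  obtain ⟨h', hh', e⟩ := D.pLo_lv (s := 1) hc hρ hz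
  rw [e, D.lv_mem_N_iff hh' (D.rad_ne_zero (radOK_gP hρ 1) hz.1.1) hρ]
  exact D.rad_notMem_N (radOK_gP hρ 1) hρ hz.1.2 fun _ => gP_one_ge _

theorem pHi_one_notMem (hc : 1 ≤ c) (hρ : ρ ≤ 1) (hz : z ∈ D.RHi) : D.pHi c ρ 1 z ∉ D.N ρ := by
  obtain ⟨h', hh', e⟩ := D.pHi_lv (s := 1) hc hρ hz
  rw [e, D.lv_mem_N_iff hh' (D.rad_ne_zero (radOK_gP hρ 1) hz.1.1) hρ]
  exact D.rad_notMem_N (radOK_gP hρ 1) hρ hz.1.2 fun _ => gP_one_ge _

theorem pLo_fix (hρ : ρ ≤ 1) (hz : z ∉ D.N ρ) (hn : nrm z = Real.exp c) (hc : c ≤ 0) :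
    D.pLo c ρ s z = z := by
  have h1 : D.rad (gP ρ s) z = z := by
    refine D.rad_of_eq fun hT => gP_of_le ?_
    by_contra hlt
    exact hz ((D.mem_N_iff hρ).2 ⟨hT, not_le.1 hlt⟩)
  rw [pLo, h1]
  refine lv_of_eq ?_
  rw [hn, Real.log_exp, hLo_of_le hc, mL_self]

theorem pHi_fix (hρ : ρ ≤ 1) (hz : z ∉ D.N ρ) (hn : nrm z = Real.exp c) (hc : 1 ≤ c) :
    D.pHi c ρ s z = z := by
  have h1 : D.rad (gP ρ s) z = z := by
    refine D.rad_of_eq fun hT => gP_of_le ?_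
    by_contra hlt
    exact hz ((D.mem_N_iff hρ).2 ⟨hT, not_le.1 hlt⟩)
  rw [pHi, h1]
  refine lv_of_eq ?_
  rw [hn, Real.log_exp, hHi_of_ge hc, mL_self]

theorem mem_EJ_iff : z ∈ D.EJ ↔ nrm z = Real.exp (-1) ∧ z ∉ D.N (1/2) := by
  constructor
  · rintro ⟨h1, h2⟩
    exact ⟨h2, (D.mem_X_iff.1 h1).2.2⟩
  · rintro ⟨h1, h2⟩
    exact ⟨D.mem_X_iff.2 ⟨h1.ge, by rw [h1]; exact Real.exp_le_exp.2 (by norm_num), h2⟩, h1⟩

theorem mem_EK_iff : z ∈ D.EK ↔ nrm z = Real.exp 2 ∧ z ∉ D.N (1/2) := by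
  constructor
  · rintro ⟨h1, h2⟩
    exact ⟨h2, (D.mem_X_iff.1 h1).2.2⟩
  · rintro ⟨h1, h2⟩
    exact ⟨D.mem_X_iff.2 ⟨by rw [h1]; exact Real.exp_le_exp.2 (by norm_num), h1.le, h2⟩, h1⟩

theorem EJ_subset_RLo : D.EJ ⊆ D.RLo := by
  intro z hz
  refine ⟨D.X_subset_O hz.1, ?_⟩
  show nrm z ≤ Real.exp 0
  rw [(D.mem_EJ_iff.1 hz).1]
  exact Real.exp_le_exp.2 (by norm_num)

theorem EK_subset_RHi : D.EK ⊆ D.RHi := by
  intro z hz
  refine ⟨D.X_subset_O hz.1, ?_⟩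
  show Real.exp 1 ≤ nrm z
  rw [(D.mem_EK_iff.1 hz).1]
  exact Real.exp_le_exp.2 (by norm_num)

theorem SJ_subset_RLo : D.SJ ⊆ D.RLo := by
  intro z hz
  refine ⟨⟨nrm_pos.1 (by rw [hz.1]; exact one_pos), hz.2⟩, ?_⟩
  show nrm z ≤ Real.exp 0
  rw [hz.1, Real.exp_zero]

theorem SK_subset_RHi : D.SK ⊆ D.RHi := by
  intro z hz
  refine ⟨⟨nrm_pos.1 (by rw [hz.1]; exact Real.exp_pos _), hz.2⟩, ?_⟩
  show Real.exp 1 ≤ nrm z
  rw [hz.1]

/-- pushing `SK` to `EK` inside the upper product region -/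
theorem SK_push : ∃ K : ℝ → ℂ × ℂ → ℂ × ℂ,
    (∀ s ∈ Icc (0:ℝ) 1, ∀ a ∈ D.SK, ContinuousAt (fun p : ℝ × (ℂ × ℂ) => K p.1 p.2) (s, a)) ∧
    (∀ s ∈ Icc (0:ℝ) 1, ∀ a ∈ D.SK, K s a ∈ D.O ∧ Real.exp 1 ≤ nrm (K s a)) ∧ (∀ x, K 0 x = x) ∧
    (∀ a ∈ D.SK, K 1 a ∈ D.EK) := by
  refine ⟨D.pHi 2 (1/2), fun s _ a ha => ?_, fun s _ a ha => ?_, fun x => D.pHi_zero _ _ x,
    fun a ha => ?_⟩
  · exact D.continuousAt_pHi 2 (by norm_num) s (D.SK_subset_RHi ha).1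
  · have := D.pHi_mem (s := s) (c := 2) (ρ := 1/2) (by norm_num) (by norm_num) (D.SK_subset_RHi ha)
    exact this
  · exact D.mem_EK_iff.2 ⟨D.nrm_pHi_one (by norm_num) (D.SK_subset_RHi ha),
      D.pHi_one_notMem (by norm_num) (by norm_num) (D.SK_subset_RHi ha)⟩

/-- pushing `SJ` to `EJ` inside the lower product region -/
theorem SJ_push : ∃ K : ℝ → ℂ × ℂ → ℂ × ℂ,
    (∀ s ∈ Icc (0:ℝ) 1, ∀ a ∈ D.SJ, ContinuousAt (fun p : ℝ × (ℂ × ℂ) => K p.1 p.2) (s, a)) ∧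
    (∀ s ∈ Icc (0:ℝ) 1, ∀ a ∈ D.SJ, K s a ∈ D.O ∧ nrm (K s a) ≤ 1) ∧ (∀ x, K 0 x = x) ∧
    (∀ a ∈ D.SJ, K 1 a ∈ D.EJ) := by
  refine ⟨D.pLo (-1) (1/2), fun s _ a ha => ?_, fun s _ a ha => ?_, fun x => D.pLo_zero _ _ x,
    fun a ha => ?_⟩
  · exact D.continuousAt_pLo (-1) (by norm_num) s (D.SJ_subset_RLo ha).1
  · have := D.pLo_mem (s := s) (c := -1) (ρ := 1/2) (by norm_num) (by norm_num)
      (D.SJ_subset_RLo ha)
    refine ⟨this.1, ?_⟩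
    have h2 : nrm (D.pLo (-1) (1/2) s a) ≤ Real.exp 0 := this.2
    rwa [Real.exp_zero] at h2
  · exact D.mem_EJ_iff.2 ⟨D.nrm_pLo_one (by norm_num) (D.SJ_subset_RLo ha),
      D.pLo_one_notMem (by norm_num) (by norm_num) (D.SJ_subset_RLo ha)⟩

/-! ### slabs -/

/-- level sets with a hole of radius `r` -/
def Slab (t r : ℝ) : Set (ℂ × ℂ) := {z | nrm z = Real.exp t} \ D.N r

theorem Slab_EJ : D.Slab (-1) (1/2) = D.EJ := by
  ext z
  rw [mem_EJ_iff]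
  rfl

theorem Slab_EK : D.Slab 2 (1/2) = D.EK := by
  ext z
  rw [mem_EK_iff]
  rfl

theorem isCompact_Slab {t r : ℝ} (hr : 0 < r) (hr1 : r ≤ 1) : IsCompact (D.Slab t r) := by
  have h : IsCompact {z : ℂ × ℂ | nrm z = Real.exp t} := by
    refine (isCompact_shell (Real.exp t) (Real.exp t)).of_isClosed_subset
      (isClosed_eq continuous_nrm continuous_const) ?_
    intro z hz
    have hz' : nrm z = Real.exp t := hz
    exact ⟨hz'.ge, hz'.le⟩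
  exact h.diff (D.isOpen_N hr hr1)

theorem Slab_subset_O {t r : ℝ} (hr : 0 < r) : D.Slab t r ⊆ D.O := by
  rintro z ⟨h1, h2⟩
  have h1' : nrm z = Real.exp t := h1
  exact ⟨nrm_pos.1 (by rw [h1']; exact Real.exp_pos _), fun h => h2 (D.core_subset_N hr h)⟩

theorem nrm_rad_eq {g : ℝ → ℝ} (hg : RadOK g) {t : ℝ} (ht : t ≤ 0 ∨ 1 ≤ t) :
    nrm (D.rad g z) = Real.exp t ↔ nrm z = Real.exp t := by
  constructor
  · intro h
    exact le_antisymm ((D.nrm_rad_le_iff hg ht).1 h.le) ((D.le_nrm_rad_iff hg ht).1 h.ge)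
  · intro h
    exact le_antisymm ((D.nrm_rad_le_iff hg ht).2 h.le) ((D.le_nrm_rad_iff hg ht).2 h.ge)

theorem Slab_restrict {k V : Type*} [CommRing k] [AddCommGroup V] [Module k V]
    {T : ℂ × ℂ → ℂ × ℂ → (V →ₗ[k] V)} (hT : Flat T D.O) {t r r' : ℝ} (ht : t ≤ 0 ∨ 1 ≤ t)
    (hr : 0 < r') (hrr : r' ≤ r) (hr1 : r < 1) (h : D.Slab t r ⊆ D.Slab t r') (q : ℕ) :
    Function.Bijective (Hres T h (le_refl ∅) q :
      H T (D.Slab t r') ∅ q →ₗ[k] H T (D.Slab t r) ∅ q) := by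
  have hr0 : 0 < r := hr.trans_le hrr
  have hmem : ∀ s : ℝ, ∀ z ∈ D.Slab t r', D.rad (gP r s) z ∈ D.Slab t r' := by
    intro s z hz
    refine ⟨(D.nrm_rad_eq (radOK_gP hr1.le s) ht).2 hz.1, ?_⟩
    refine D.rad_notMem_N (radOK_gP hr1.le s) (by linarith) (D.Slab_subset_O hr hz).2 ?_
    intro hT
    refine le_trans ?_ le_gP
    by_contra hlt
    exact hz.2 ((D.mem_N_iff (by linarith)).2 ⟨hT, not_le.1 hlt⟩)
  have hfix : ∀ s : ℝ, ∀ z ∈ D.Slab t r, D.rad (gP r s) z = z := by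
    intro s z hz
    refine D.rad_of_eq fun hT => gP_of_le ?_
    by_contra hlt
    exact hz.2 ((D.mem_N_iff hr1.le).2 ⟨hT, not_le.1 hlt⟩)
  refine push_bij (D.isCompact_Slab hr (hrr.trans hr1.le)) isClosed_empty
    (D.isCompact_Slab hr0 hr1.le).isClosed isClosed_empty (empty_subset _) h (le_refl ∅)
    (empty_subset _) (hT.mono (D.Slab_subset_O hr)) (fun s => D.rad (gP r s)) ?_ ?_ ?_ ?_ ?_ ?_ ?_
    ?_ q
  · intro p hp
    exact (D.continuousAt_radgP hr1.le p.1 (D.Slab_subset_O hr hp.2)).continuousWithinAt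
  · intro z _
    exact D.rad_gP_zero z
  · intro s _ z hz
    exact hmem s z hz
  · intro s _ z hz
    exact hz.elim
  · intro s _ z hz
    show D.rad (gP r s) z ∈ D.Slab t r
    rw [hfix s z hz]
    exact hz
  · intro s _ z hz
    exact hz.elim
  · intro z hz
    refine ⟨(D.nrm_rad_eq (radOK_gP hr1.le 1) ht).2 hz.1, ?_⟩
    exact D.rad_notMem_N (radOK_gP hr1.le 1) hr1.le (D.Slab_subset_O hr hz).2
      fun _ => gP_one_ge _
  · intro z hz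
    exact hz.elim

/-! ### degree one comparison -/

section H1

variable {Ω G k V : Type*} [PseudoMetricSpace Ω] [Group G] [CommRing k] [AddCommGroup V]
  [Module k V] {T : Ω → Ω → G} {S S' : Set Ω}

/-- bijectivity in degree one for a deformation retract -/
theorem H1_bij (ρ : G →* (V →ₗ[k] V)) (hT : GFlat T S) (h' : S' ⊆ S) {K : ℝ → Ω → Ω}
    (hK : ∀ s ∈ Icc (0:ℝ) 1, ∀ a ∈ S, ContinuousAt (fun p : ℝ × Ω => K p.1 p.2) (s, a))
    (hm : ∀ s ∈ Icc (0:ℝ) 1, ∀ a ∈ S, K s a ∈ S) (h0 : ∀ x, K 0 x = x)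
    (h1 : ∀ a ∈ S, K 1 a ∈ S') (h2 : ∀ s ∈ Icc (0:ℝ) 1, ∀ a ∈ S', K s a ∈ S') :
    Function.Bijective (Hres (sys T ρ) h' (le_refl ∅) 1 :
      H (sys T ρ) S ∅ 1 →ₗ[k] H (sys T ρ) S' ∅ 1) := by
  constructor
  · rw [← LinearMap.ker_eq_bot, eq_bot_iff]
    intro x hx
    obtain ⟨c, rfl⟩ := H.mk_surjective 1 x
    have hx' : H.mk (sys T ρ) S' ∅ 1 ⟨c.1, Zc_mono h' (le_refl ∅) 1 c.2⟩ = 0 := hx
    rw [H.mk_eq_zero] at hx'
    rw [Submodule.mem_bot, H.mk_eq_zero]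
    exact H1_inj ρ hT h' hK hm h0 h1 c.2 hx'
  · intro x
    obtain ⟨c, rfl⟩ := H.mk_surjective 1 x
    obtain ⟨c', hc', hb⟩ := H1_surj ρ hT h' hK hm h0 h1 h2 c.2
    refine ⟨H.mk (sys T ρ) S ∅ 1 ⟨c', hc'⟩, ?_⟩
    show H.mk (sys T ρ) S' ∅ 1 ⟨c', Zc_mono h' (le_refl ∅) 1 hc'⟩ = H.mk (sys T ρ) S' ∅ 1 c
    rw [← sub_eq_zero, ← map_sub, H.mk_eq_zero]
    exact hb

end H1

section

variable {G : Type*} [Group G] {T : ℂ × ℂ → ℂ × ℂ → G} {k V : Type*} [CommRing k]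
  [AddCommGroup V] [Module k V]

theorem RLo_EJ (hT : GFlat T D.O) (ρ : G →* (V →ₗ[k] V)) :
    Function.Bijective (Hres (sys T ρ) D.EJ_subset_RLo (le_refl ∅) 1 :
      H (sys T ρ) D.RLo ∅ 1 →ₗ[k] H (sys T ρ) D.EJ ∅ 1) := by
  refine H1_bij ρ (hT.mono inter_subset_left) D.EJ_subset_RLo (K := D.pLo (-1) (1/2)) ?_ ?_ ?_ ?_ ?_
  · intro s _ a ha
    exact D.continuousAt_pLo (-1) (by norm_num) s ha.1
  · intro s _ a ha
    exact D.pLo_mem (by norm_num) (by norm_num) ha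
  · exact D.pLo_zero _ _
  · intro a ha
    exact D.mem_EJ_iff.2 ⟨D.nrm_pLo_one (by norm_num) ha, D.pLo_one_notMem (by norm_num)
      (by norm_num) ha⟩
  · intro s _ a ha
    rw [D.pLo_fix (by norm_num) (D.mem_EJ_iff.1 ha).2 (D.mem_EJ_iff.1 ha).1 (by norm_num)]
    exact ha

theorem RHi_EK (hT : GFlat T D.O) (ρ : G →* (V →ₗ[k] V)) :
    Function.Bijective (Hres (sys T ρ) D.EK_subset_RHi (le_refl ∅) 1 :
      H (sys T ρ) D.RHi ∅ 1 →ₗ[k] H (sys T ρ) D.EK ∅ 1) := by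
  refine H1_bij ρ (hT.mono inter_subset_left) D.EK_subset_RHi (K := D.pHi 2 (1/2)) ?_ ?_ ?_ ?_ ?_
  · intro s _ a ha
    exact D.continuousAt_pHi 2 (by norm_num) s ha.1
  · intro s _ a ha
    exact D.pHi_mem (by norm_num) (by norm_num) ha
  · exact D.pHi_zero _ _
  · intro a ha
    exact D.mem_EK_iff.2 ⟨D.nrm_pHi_one (by norm_num) ha, D.pHi_one_notMem (by norm_num)
      (by norm_num) ha⟩
  · intro s _ a ha
    rw [D.pHi_fix (by norm_num) (D.mem_EK_iff.1 ha).2 (D.mem_EK_iff.1 ha).1 (by norm_num)]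
    exact ha

theorem N_zero : D.N 0 = ∅ := by
  rw [eq_empty_iff_forall_notMem]
  rintro z ⟨u, t, w, -, hw, -⟩
  exact absurd hw (not_lt.2 (norm_nonneg w))

theorem RLo_SJ (hT : GFlat T D.O) (ρ : G →* (V →ₗ[k] V)) :
    Function.Bijective (Hres (sys T ρ) D.SJ_subset_RLo (le_refl ∅) 1 :
      H (sys T ρ) D.RLo ∅ 1 →ₗ[k] H (sys T ρ) D.SJ ∅ 1) := by
  refine H1_bij ρ (hT.mono inter_subset_left) D.SJ_subset_RLo (K := D.pLo 0 0) ?_ ?_ ?_ ?_ ?_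
  · intro s _ a ha
    exact D.continuousAt_pLo 0 zero_le_one s ha.1
  · intro s _ a ha
    exact D.pLo_mem le_rfl zero_le_one ha
  · exact D.pLo_zero _ _
  · intro a ha
    refine ⟨?_, (D.pLo_mem (c := 0) (ρ := 0) (s := 1) le_rfl zero_le_one ha).1.2⟩
    rw [D.nrm_pLo_one zero_le_one ha, Real.exp_zero]
  · intro s _ a ha
    rw [D.pLo_fix zero_le_one (by rw [N_zero]; exact notMem_empty _)
      (by rw [ha.1, Real.exp_zero]) le_rfl]
    exact ha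

theorem RHi_SK (hT : GFlat T D.O) (ρ : G →* (V →ₗ[k] V)) :
    Function.Bijective (Hres (sys T ρ) D.SK_subset_RHi (le_refl ∅) 1 :
      H (sys T ρ) D.RHi ∅ 1 →ₗ[k] H (sys T ρ) D.SK ∅ 1) := by
  refine H1_bij ρ (hT.mono inter_subset_left) D.SK_subset_RHi (K := D.pHi 1 0) ?_ ?_ ?_ ?_ ?_
  · intro s _ a ha
    exact D.continuousAt_pHi 1 zero_le_one s ha.1
  · intro s _ a ha
    exact D.pHi_mem le_rfl zero_le_one ha
  · exact D.pHi_zero _ _
  · intro a ha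
    refine ⟨?_, (D.pHi_mem (c := 1) (ρ := 0) (s := 1) le_rfl zero_le_one ha).1.2⟩
    rw [D.nrm_pHi_one zero_le_one ha]
  · intro s _ a ha
    rw [D.pHi_fix zero_le_one (by rw [N_zero]; exact notMem_empty _) ha.1 le_rfl]
    exact ha

theorem Bc_iff_of_bij {T : ℂ × ℂ → ℂ × ℂ → (V →ₗ[k] V)} {S S' : Set (ℂ × ℂ)} (h : S' ⊆ S) {q : ℕ}
    (hb : Function.Bijective (Hres T h (le_refl ∅) q : H T S ∅ q →ₗ[k] H T S' ∅ q))
    {c : List (ℂ × ℂ) → V} (hc : c ∈ Zc T S ∅ q) : c ∈ Bc T S' ∅ q ↔ c ∈ Bc T S ∅ q := by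
  constructor
  · intro h1
    have h2 := hb.1 (a₁ := H.mk T S ∅ q ⟨c, hc⟩) (a₂ := 0) (by
      rw [map_zero]
      show H.mk T S' ∅ q ⟨c, Zc_mono h (le_refl ∅) q hc⟩ = 0
      rw [H.mk_eq_zero]
      exact h1)
    rwa [H.mk_eq_zero] at h2
  · intro h1
    exact Bc_mono h (le_refl ∅) q h1

/-- degree one: `EJ` versus `SJ`, twisted coefficients -/
theorem H1_SJ {G : Type*} [Group G] {T : ℂ × ℂ → ℂ × ℂ → G} (hT : GFlat T D.O)
    {k V : Type*} [CommRing k] [AddCommGroup V] [Module k V] (ρ : G →* (V →ₗ[k] V)) :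
    Nonempty (H (sys T ρ) D.EJ ∅ 1 ≃ₗ[k] H (sys T ρ) D.SJ ∅ 1) ∧
    ∀ c ∈ Zc (sys T ρ) D.O ∅ 1, c ∈ Bc (sys T ρ) D.EJ ∅ 1 ↔ c ∈ Bc (sys T ρ) D.SJ ∅ 1 := by
  have b1 := D.RLo_EJ hT ρ
  have b2 := D.RLo_SJ hT ρ
  refine ⟨⟨(LinearEquiv.ofBijective _ b1).symm.trans (LinearEquiv.ofBijective _ b2)⟩, ?_⟩
  intro c hc
  have hc' : c ∈ Zc (sys T ρ) D.RLo ∅ 1 := Zc_mono inter_subset_left (le_refl ∅) 1 hc
  rw [Bc_iff_of_bij D.EJ_subset_RLo b1 hc', Bc_iff_of_bij D.SJ_subset_RLo b2 hc']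

theorem H1_SK {G : Type*} [Group G] {T : ℂ × ℂ → ℂ × ℂ → G} (hT : GFlat T D.O)
    {k V : Type*} [CommRing k] [AddCommGroup V] [Module k V] (ρ : G →* (V →ₗ[k] V)) :
    Nonempty (H (sys T ρ) D.EK ∅ 1 ≃ₗ[k] H (sys T ρ) D.SK ∅ 1) ∧
    ∀ c ∈ Zc (sys T ρ) D.O ∅ 1, c ∈ Bc (sys T ρ) D.EK ∅ 1 ↔ c ∈ Bc (sys T ρ) D.SK ∅ 1 := by
  have b1 := D.RHi_EK hT ρ
  have b2 := D.RHi_SK hT ρ
  refine ⟨⟨(LinearEquiv.ofBijective _ b1).symm.trans (LinearEquiv.ofBijective _ b2)⟩, ?_⟩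
  intro c hc
  have hc' : c ∈ Zc (sys T ρ) D.RHi ∅ 1 := Zc_mono inter_subset_left (le_refl ∅) 1 hc
  rw [Bc_iff_of_bij D.EK_subset_RHi b1 hc', Bc_iff_of_bij D.SK_subset_RHi b2 hc']

end

end Tube

end Pool.Agent.Helper60.Geo
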